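import Mathlib

/-! Definitions used in the statement: the sectional curvature of a Riemannian metric, computed in
charts. -/

set_option autoImplicit false

namespace Pool.Agent.P.MP_8a106a_gt.S

open scoped Manifold ContDiff

noncomputable section

/-- The value of a linear map. -/
def ev₁ {S T : Type} [TopologicalSpace S] [AddCommGroup S] [Module ℝ S] [TopologicalSpace T]
    [AddCommGroup T] [Module ℝ T] (L : S →L[ℝ] T) (v : S) : T := L v

/-- The value of a bilinear form. -/
def ev₂ {T : Type} [TopologicalSpace T] [AddCommGroup T] [Module ℝ T] (B : T →L[ℝ] T →L[ℝ] ℝ)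
    (v w : T) : ℝ := B v w

variable {E : Type} [NormedAddCommGroup E] [NormedSpace ℝ E]

/-- The derivative of `f` at `u` in the direction `v`. -/
def pd {F : Type} [NormedAddCommGroup F] [NormedSpace ℝ F] (f : E → F) (u v : E) : F :=
  fderiv ℝ f u v

/-- The Christoffel symbol `Γ_u(v, w)` of a field `G` of bilinear forms: the vector `c` with
`G_u(c, z) = (∂_v G(w, z) + ∂_w G(v, z) - ∂_z G(v, w)) / 2` for all `z`. -/
def chr (G : E → E → E → ℝ) (u v w : E) : E :=
  Classical.epsilon fun c => ∀ z, G u c z =
    (pd (fun x => G x w z) u v + pd (fun x => G x v z) u w - pd (fun x => G x v w) u z) / 2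

/-- The curvature tensor
`R_u(v, w) z = ∂_v Γ(w, z) - ∂_w Γ(v, z) + Γ(v, Γ(w, z)) - Γ(w, Γ(v, z))`. -/
def riem (G : E → E → E → ℝ) (u v w z : E) : E :=
  pd (fun x => chr G x w z) u v - pd (fun x => chr G x v z) u w +
    chr G u v (chr G u w z) - chr G u w (chr G u v z)

variable {M : Type} [TopologicalSpace M] [ChartedSpace E M]

/-- The differential at `u` of the inverse of the chart at `x`. -/
def push (x : M) (u v : E) : TangentSpace 𝓘(ℝ, E) ((chartAt E x).symm u) :=
  ev₁ (mfderiv 𝓘(ℝ, E) 𝓘(ℝ, E) (chartAt E x).symm u) v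

variable [IsManifold 𝓘(ℝ, E) ∞ M]

variable (E M) in
/-- Smooth Riemannian metrics on `M`. -/
abbrev RMetric : Type :=
  Bundle.ContMDiffRiemannianMetric 𝓘(ℝ, E) ∞ E fun x : M => TangentSpace 𝓘(ℝ, E) x

/-- The metric `g` read in the chart at `x`: its pull-back under the inverse of the chart. -/
def chartMetric (g : RMetric E M) (x : M) (u v w : E) : ℝ :=
  ev₂ (g.inner ((chartAt E x).symm u)) (push x u v) (push x u w)

/-- Positive sectional curvature: `g(R(v, w) w, v) > 0` for linearly independent `v`, `w`, at every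
point of every chart. -/
def PosSec (g : RMetric E M) : Prop :=
  ∀ x : M, ∀ u ∈ (chartAt E x).target, ∀ v w : E, LinearIndependent ℝ ![v, w] →
    0 < chartMetric g x u (riem (chartMetric g x) u v w w) v

/-- `ℝ⁵`. -/
abbrev E5 : Type := EuclideanSpace ℝ (Fin 5)

end

end Pool.Agent.P.MP_8a106a_gt.S
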