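import Pool.Agent.P.MP_8a106a_gt.Main
import Pool.Agent.P.MP_8a106a_gt.SDefs

/-! The definitions of the statement agree with the working definitions. -/

set_option autoImplicit false
set_option maxSynthPendingDepth 3

noncomputable section

namespace RG

open Pool.Agent.P.MP_8a106a_gt Set Filter Topology
open scoped Manifold ContDiff

section

variable {E : Type} [NormedAddCommGroup E] [NormedSpace ℝ E] [FiniteDimensional ℝ E]
  {G : E → E →L[ℝ] E →L[ℝ] ℝ} {U : Set E}

theorem Met.pd_eq (h : Met G U) {u : E} (hu : u ∈ U) (a v w : E) :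
    S.pd (fun x => G x v w) u a = fderiv ℝ G u a v w := by
  have h1 : HasFDerivAt G (fderiv ℝ G u) u :=
    ((h.contDiffAt hu).differentiableAt (by simp)).hasFDerivAt
  have h2 := ((h1.clm_apply (hasFDerivAt_const v u)).clm_apply (hasFDerivAt_const w u)).fderiv
  rw [S.pd, h2]
  simp

theorem Met.schr_eq (h : Met G U) {u : E} (hu : u ∈ U) (v w : E) :
    S.chr (fun x a b => G x a b) u v w = chr G u v w := by
  have h1 : ∀ c : E, (∀ z, G u c z = (S.pd (fun x => G x w z) u v + S.pd (fun x => G x v z) u w -
      S.pd (fun x => G x v w) u z) / 2) ↔ c = chr G u v w := fun c => by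
    simp only [h.pd_eq hu, ← h.chr_eq hu]
    exact ⟨h.ext hu, fun e z => by rw [e]⟩
  exact (h1 _).1 (Classical.epsilon_spec (p := fun c => ∀ z, G u c z =
    (S.pd (fun x => G x w z) u v + S.pd (fun x => G x v z) u w - S.pd (fun x => G x v w) u z) / 2)
    ⟨_, (h1 _).2 rfl⟩)

theorem Met.sriem_eq (h : Met G U) {u : E} (hu : u ∈ U) (v w z : E) :
    S.riem (fun x a b => G x a b) u v w z = riem G u v w z := by
  have h1 : ∀ a b, fderiv ℝ (fun x => S.chr (fun x a b => G x a b) x a b) u =
      fderiv ℝ (fun x => chr G x a b) u := fun a b => by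
    refine Filter.EventuallyEq.fderiv_eq ?_
    filter_upwards [h.opn.mem_nhds hu] with x hx using h.schr_eq hx a b
  simp only [S.riem, riem, S.pd, h1, h.schr_eq hu]

end

theorem posSec_of {n : ℕ} {M : Type} [TopologicalSpace M] [ChartedSpace (Euc n) M]
    [IsManifold (𝓡 n) ∞ M] {g : S.RMetric (Euc n) M} (h : S.PosSec g) : PosSec g := by
  intro x u hu v w hvw
  have h1 := h x u hu v w hvw
  have h2 : S.chartMetric g x = fun y a b => chartMetric g x y a b := rfl
  rwa [h2, (chartMetric_met g x).sriem_eq hu] at h1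

end RG
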