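import Pool.Agent.P.MP_8a106a_gt.HRk
import Pool.Agent.P.MP_9699e0_gt.Hur

/-! Acyclic sets and the Mayer-Vietoris sequence. -/

set_option autoImplicit false
set_option linter.unusedSectionVars false

noncomputable section

namespace RG

open HK3 Pool.Agent.P.MP_9699e0_gt Pool.Agent.P.MP_8a106a_gt Set Filter Topology

variable {k : Type} [Field k] {X : Type} [TopologicalSpace X]

theorem cast_bd_HA (n : ℕ) (c : Chn ℤ X (n + 1)) :
    bd k X n (Finsupp.mapRange.addMonoidHom (Int.castAddHom k) c) =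
      Finsupp.mapRange.addMonoidHom (Int.castAddHom k) (bd ℤ X n c) := by
  induction c using Finsupp.induction_linear with
  | zero => simp
  | add a b ha hb => rw [map_add, map_add, map_add, map_add, ha, hb]
  | single σ r =>
    rw [bd_single, map_sum, Finsupp.mapRange.addMonoidHom_apply, Finsupp.mapRange_single,
      bd_single]
    refine Finset.sum_congr rfl fun i _ => ?_
    rw [Finsupp.smul_single, Finsupp.smul_single, Finsupp.mapRange.addMonoidHom_apply,
      Finsupp.mapRange_single]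
    simp

theorem tri_HA {x y z : X} (α : Path x y) (β : Path y z) (γ : Path x z)
    (h : (α.trans β).Homotopic γ) :
    Finsupp.single (Hur_ps α) (1 : k) + Finsupp.single (Hur_ps β) 1 - Finsupp.single (Hur_ps γ) 1
      ∈ bdy k (univ : Set X) 1 := by
  obtain ⟨c, -, hc⟩ := Hur_tri α β γ h
  refine ⟨Finsupp.mapRange.addMonoidHom (Int.castAddHom k) c, by rw [chn_univ]; trivial, ?_⟩
  rw [cast_bd_HA, hc, map_sub, map_add]
  simp

theorem rcy_le_HA (S : Set X) (n : ℕ) : rcy k S n ≤ cyc k S n := by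
  cases n with
  | zero => exact inf_le_left
  | succ n => exact le_rfl

theorem cmap_rcy_HA {Y : Type} [TopologicalSpace Y] {f : X → Y} {S : Set X} {T : Set Y}
    (hf : ContinuousOn f S) (hT : MapsTo f S T) {n : ℕ} {c : Chn k X n} (h : c ∈ rcy k S n) :
    cmap k f n c ∈ rcy k T n := by
  cases n with
  | zero => exact ⟨cmap_mem hf hT h.1, (aug_cmap f c).trans h.2⟩
  | succ n => exact cmap_cyc hf hT h

theorem bd_rcy_HA {S : Set X} {n : ℕ} {a : Chn k X (n + 1)} (h : bd k X n a ∈ chn k S n) :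
    bd k X n a ∈ rcy k S n := by
  cases n with
  | zero => exact ⟨h, aug_bd a⟩
  | succ n => exact ⟨h, bd_bd n a⟩

theorem retract_HA {Y : Type} [TopologicalSpace Y] {S : Set X} {T : Set Y} {f : X → Y} {g : Y → X}
    (hf : ContinuousOn f S) (hfT : MapsTo f S T) (hg : ContinuousOn g T) (hgS : MapsTo g T S)
    (H : ℝ → X → X) (hH : ContinuousOn (fun p : ℝ × X => H p.1 p.2) (Icc 0 1 ×ˢ S))
    (hS : ∀ s ∈ Icc (0 : ℝ) 1, ∀ x ∈ S, H s x ∈ S) (h0 : ∀ x ∈ S, H 0 x = g (f x))
    (h1 : ∀ x ∈ S, H 1 x = x) {n r : ℕ} (h : Rk (rcy k T n) (bdy k T n) r) :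
    Rk (rcy k S n) (bdy k S n) r := by
  refine h.comap (cmap k f n) (fun z hz => cmap_rcy_HA hf hfT hz) (fun z hz hb => ?_)
  have hc := rcy_le_HA S n hz
  have hc' := cyc_le S n hc
  have a1 := htpy_cyc H hH hS hc
  have a2 := cmap_bdy hg hgS hb
  rw [cmap_comp hf hc'] at a2
  rw [cmap_congr (f := H 1) (g := id) h1 hc', cmap_id, cmap_congr (f := H 0) (g := g ∘ f) h0 hc']
    at a1
  have a3 := add_mem a1 a2
  rwa [sub_add_cancel] at a3

theorem image_HA {Y : Type} [TopologicalSpace Y] {f : X → Y} {S : Set X} (hf : Emb f S) {n r : ℕ}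
    (h : Rk (rcy k S n) (bdy k S n) r) : Rk (rcy k (f '' S) n) (bdy k (f '' S) n) r := by
  obtain ⟨hf, g, hg, hl⟩ := hf
  refine h.comap (cmap k g n) (fun z hz => cmap_rcy_HA hg (CvA_maps hl) hz) (fun z hz hb => ?_)
  have a1 := cmap_bdy hf (mapsTo_image f S) hb
  rwa [CvA_right hg hl (cyc_le _ n (rcy_le_HA _ n hz))] at a1

theorem point_HA (x : X) (n : ℕ) : rcy k {x} n ≤ bdy k {x} n := by
  cases n with
  | zero => exact fun c hc => mem_bdy_zero (isPathConnected_singleton x) hc.1 hc.2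
  | succ n => exact cyc_le_of_subsingleton subsingleton_singleton n

/-- `Hur_contr` gives an integral contraction; extend it `k`-linearly from the simplices (change of
coefficients `Finsupp.mapRange` commutes with `bd`). -/
theorem h_one [SimplyConnectedSpace X] : cyc k (univ : Set X) 1 ≤ bdy k univ 1 := by
  obtain ⟨x0⟩ : Nonempty X := inferInstance
  let p : ∀ x : X, Path x0 x := fun x => PathConnectedSpace.somePath x0 x
  let Q : Chn k X 0 →ₗ[k] Chn k X 1 :=
    Finsupp.linearCombination k fun ρ => Finsupp.single (Hur_ps (p (vtx ρ 0))) 1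
  have hQ : ∀ x, Q (Finsupp.single (Hur_cst 0 x) 1) = Finsupp.single (Hur_ps (p x)) 1 := by
    intro x
    simp only [Q, Finsupp.linearCombination_single, one_smul]
    rfl
  intro c hc
  have h0 : bd k X 0 c = 0 := hc.2
  have h1 := ChB_mem (LinearMap.id - Q ∘ₗ bd k X 0) (N := bdy k (univ : Set X) 1) (S := univ)
    (fun σ _ => by
      rw [LinearMap.sub_apply, LinearMap.id_apply, LinearMap.comp_apply, Hur_bd_one, map_sub, hQ,
        hQ]
      have h := tri_HA (k := k) (p (vtx σ 0)) (Hur_sp σ) (p (vtx σ 1))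
        (SimplyConnectedSpace.paths_homotopic _ _)
      rw [Hur_ps_sp] at h
      have h3 : ∀ a b c : Chn k X 1, b - (c - a) = a + b - c := by
        intro a b c
        abel
      rwa [h3]) hc.1
  rwa [LinearMap.sub_apply, LinearMap.id_apply, LinearMap.comp_apply, h0, map_zero, sub_zero]
    at h1

/-- Extend the contracting homotopy to a function `ℝ → X → X` (`Set.projIcc`, `dite`) and use
`htpy_cyc`, `cyc_le_of_subsingleton`, `mem_bdy_zero`. -/
theorem acy_of_contractible {S : Set X} (h : ContractibleSpace ↥S) : Acy k S := by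
  classical
  obtain ⟨y, ⟨F⟩⟩ := id_nullhomotopic ↥S
  refine ⟨⟨y, y.2⟩, fun n => rk_zero.1 ?_⟩
  refine retract_HA (T := {(y : X)}) (f := fun _ => (y : X)) (g := id) continuousOn_const
    (fun _ _ => rfl) continuousOn_id (fun x hx => by rw [hx]; exact y.2)
    (fun s x => if hx : x ∈ S then (F.symm (projIcc 0 1 zero_le_one s, ⟨x, hx⟩) : X) else x)
    ?_ ?_ ?_ ?_ (rk_zero.2 (point_HA _ n))
  · rw [continuousOn_iff_continuous_domRestrict]
    have e : (Icc (0 : ℝ) 1 ×ˢ S).domRestrict (fun p : ℝ × X =>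
        if hx : p.2 ∈ S then (F.symm (projIcc 0 1 zero_le_one p.1, ⟨p.2, hx⟩) : X) else p.2) =
        fun p => (F.symm (projIcc 0 1 zero_le_one p.1.1, ⟨p.1.2, p.2.2⟩) : X) := by
      funext p
      exact dif_pos p.2.2
    rw [e]
    exact continuous_subtype_val.comp (F.symm.continuous.comp
      ((continuous_projIcc.comp (continuous_fst.comp continuous_subtype_val)).prodMk
        ((continuous_snd.comp continuous_subtype_val).subtype_mk _)))
  · intro s _ x hx
    rw [dif_pos hx]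
    exact Subtype.property _
  · intro x hx
    rw [dif_pos hx, projIcc_left]
    exact congrArg Subtype.val (F.symm.apply_zero ⟨x, hx⟩)
  · intro x hx
    rw [dif_pos hx, projIcc_right]
    exact congrArg Subtype.val (F.symm.apply_one ⟨x, hx⟩)

theorem acy_of_star {V : Type} [NormedAddCommGroup V] [NormedSpace ℝ V] {S : Set V} {x : V}
    (hx : x ∈ S) (h : StarConvex ℝ x S) : Acy k S := by
  exact acy_of_contractible (h.contractibleSpace ⟨x, hx⟩)

theorem Acy.image {Y : Type} [TopologicalSpace Y] {f : X → Y} {S : Set X} (h : Acy k S)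
    (hf : Emb f S) : Acy k (f '' S) := by
  exact ⟨h.1.image f, fun n => rk_zero.1 (image_HA hf (rk_zero.2 (h.2 n)))⟩

theorem rk_of_acy {S T T' : Set X} (h : Acy k T) (hS : S ⊆ T) (hT : T ⊆ T') (a : ℕ) :
    Rk (cyc k S a) (bdy k T' a) 1 := by
  cases a with
  | zero =>
    exact rk_of_functional (aug k) fun z hz h0 =>
      bdy_mono hT 0 (h.2 0 ⟨chn_mono hS 0 hz, h0⟩)
  | succ a =>
    exact rk_of_functional 0 fun z hz _ => bdy_mono hT _ (h.2 (a + 1) (cyc_mono hS _ hz))

theorem rk_image {Y : Type} [TopologicalSpace Y] {f : X → Y} {S : Set X} (hf : Emb f S) {n r : ℕ}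
    (h : Rk (rcy k S n) (bdy k S n) r) : Rk (rcy k (f '' S) n) (bdy k (f '' S) n) r := by
  exact image_HA hf h

/-- A retraction up to homotopy. -/
theorem rk_retract {Y : Type} [TopologicalSpace Y] {S : Set X} {T : Set Y} {f : X → Y} {g : Y → X}
    (hf : ContinuousOn f S) (hfT : MapsTo f S T) (hg : ContinuousOn g T) (hgS : MapsTo g T S)
    (H : ℝ → X → X) (hH : ContinuousOn (fun p : ℝ × X => H p.1 p.2) (Icc 0 1 ×ˢ S))
    (hS : ∀ s ∈ Icc (0 : ℝ) 1, ∀ x ∈ S, H s x ∈ S) (h0 : ∀ x ∈ S, H 0 x = g (f x))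
    (h1 : ∀ x ∈ S, H 1 x = x) {n r : ℕ} (h : Rk (rcy k T n) (bdy k T n) r) :
    Rk (rcy k S n) (bdy k S n) r := by
  exact retract_HA hf hfT hg hgS H hH hS h0 h1 h

/-- `mv_split` and `Rk.corr` on pairs ` (a, b)` of chains with `bd (a + b) = 0`. -/
theorem mv_rk {O U V : Set X} (hU : IsOpen U) (hV : IsOpen V) (h : O ⊆ U ∪ V)
    (hOU : Acy k (O ∩ U)) (hOV : Acy k (O ∩ V)) {n r : ℕ}
    (h0 : Rk (rcy k (O ∩ U ∩ V) n) (bdy k (O ∩ U ∩ V) n) r) :
    Rk (cyc k O (n + 1)) (bdy k O (n + 1)) r := by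
  let f : Chn k X (n + 1) × Chn k X (n + 1) →ₗ[k] Chn k X (n + 1) :=
    LinearMap.fst k _ _ + LinearMap.snd k _ _
  let g : Chn k X (n + 1) × Chn k X (n + 1) →ₗ[k] Chn k X n := bd k X n ∘ₗ LinearMap.fst k _ _
  let S : Submodule k (Chn k X (n + 1) × Chn k X (n + 1)) :=
    (chn k (O ∩ U) (n + 1)).prod (chn k (O ∩ V) (n + 1)) ⊓ LinearMap.ker (bd k X n ∘ₗ f)
  have hg : S.map g ≤ rcy k (O ∩ U ∩ V) n := by
    rintro _ ⟨⟨a, b⟩, ⟨⟨ha, hb⟩, hab⟩, rfl⟩
    have e : bd k X n (a + b) = 0 := hab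
    rw [map_add, add_eq_zero_iff_eq_neg] at e
    refine bd_rcy_HA ?_
    rw [chn_inter]
    refine ⟨bd_mem ha, ?_⟩
    show bd k X n a ∈ chn k V n
    rw [e]
    exact neg_mem (chn_mono inter_subset_right n (bd_mem hb))
  refine (h0.corr f g S le_rfl hg).mono (fun c hc => ?_) ?_ le_rfl
  · obtain ⟨a, ha, b, hb, hab⟩ := mv_split hU hV h hc
    have e1 : bd k X n c = 0 := hc.2
    have e2 : bd k X n (c - a - b) = 0 := (bdy_le O (n + 1) hab).2
    have e3 : bd k X n (a + b) = 0 := by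
      rw [_root_.sub_sub, map_sub, e1, zero_sub, neg_eq_zero] at e2
      exact e2
    refine Submodule.mem_sup.2 ⟨a + b, ⟨(a, b), ⟨⟨ha, hb⟩, e3⟩, rfl⟩, c - a - b, hab, ?_⟩
    abel
  · rintro _ ⟨⟨a, b⟩, ⟨⟨⟨ha, hb⟩, hab⟩, e, he, hea⟩, rfl⟩
    have e1 : bd k X n (a + b) = 0 := hab
    have e2 : bd k X n e = bd k X n a := hea
    have a1 : a - e ∈ bdy k (O ∩ U) (n + 1) := by
      refine hOU.2 (n + 1) ⟨sub_mem ha (chn_mono inter_subset_left _ he), ?_⟩
      show bd k X n (a - e) = 0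
      rw [map_sub, e2, sub_self]
    have a2 : b + e ∈ bdy k (O ∩ V) (n + 1) := by
      refine hOV.2 (n + 1) ⟨add_mem hb (chn_mono (T := O ∩ V) (fun x hx => ⟨hx.1.1, hx.2⟩) _ he), ?_⟩
      show bd k X n (b + e) = 0
      rw [map_add, e2, add_comm, ← map_add, e1]
    have a3 := add_mem (bdy_mono inter_subset_left _ a1) (bdy_mono inter_subset_left _ a2)
    have e3 : a - e + (b + e) = a + b := by abel
    rw [e3] at a3
    exact a3

end RG
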