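import Pool.Agent.P.MP_8a106a_gt.CDefs
import Pool.Agent.P.MP_8a106a_gt.HA

/-! Small balls have small content. -/

set_option autoImplicit false
set_option linter.unusedSectionVars false

noncomputable section

namespace RG

open HK3 Pool.Agent.P.MP_9699e0_gt Pool.Agent.P.MP_8a106a_gt Set Filter Topology Metric

variable {X : Type} [MetricSpace X]

theorem loc_CB {n : ℕ} {e : OpenPartialHomeomorph X (Euc n)} {x : X} (h : Ch e x) :
    ∀ᶠ z : ℝ × X in 𝓝 (0, x), 0 < z.1 → ∀ (k : Type) [Field k] (a₀ : ℕ), Cont k a₀ z.2 z.1 1 := by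
  obtain ⟨δ, hδ, h1⟩ := Metric.eventually_nhds_iff_ball.1 ((h.lip (1 / 2) (by norm_num)).and
    (continuous_fst.continuousAt (x := (x, x)) (e.open_source.mem_nhds h.mem)))
  rw [← ball_prod_same] at h1
  have h2 : ∀ᶠ u in 𝓝 (e x), e.symm u ∈ ball x δ :=
    e.tendsto_symm h.mem (ball_mem_nhds x hδ)
  obtain ⟨ρ, hρ, h3⟩ := Metric.eventually_nhds_iff_ball.1
    (h2.and (e.open_target.mem_nhds (e.map_source h.mem)))
  have hε : 0 < min (δ / 2) (ρ / 4) := by positivity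
  have e1 := min_le_left (δ / 2) (ρ / 4)
  have e2 := min_le_right (δ / 2) (ρ / 4)
  filter_upwards [prod_mem_nhds (Iio_mem_nhds hε) (ball_mem_nhds x hε)]
  rintro ⟨r, p⟩ ⟨hr, hp⟩ r0 k _ a₀ a -
  simp only [mem_Iio, mem_ball] at hr hp r0
  have hp' : p ∈ ball x δ := mem_ball.2 (by linarith)
  have h4 : ball (e p) (2 * r) ⊆ ball (e x) ρ := by
    refine ball_subset_ball' ?_
    have := abs_le.1 (h1 (p, x) ⟨hp', mem_ball_self hδ⟩).1
    rw [dist_eq_norm]
    linarith [this.1]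
  have h5 : ball (e p) (2 * r) ⊆ e.target := fun u hu => (h3 u (h4 hu)).2
  have h6 : Emb e.symm (ball (e p) (2 * r)) :=
    ⟨e.continuousOn_symm.mono h5, e, e.continuousOn.mono (by
      rintro _ ⟨u, hu, rfl⟩
      exact e.map_target (h5 hu)), fun u hu => e.right_inv (h5 hu)⟩
  have h7 : e p ∈ ball (e p) (2 * r) := mem_ball_self (by linarith)
  refine rk_of_acy ((acy_of_star h7 ((convex_ball _ _).starConvex h7)).image h6)
    (fun q hq => ?_) ?_ a
  · have hq' : q ∈ ball x δ := mem_ball.2 (by linarith [dist_triangle q p x, mem_ball.1 hq])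
    have h8 := h1 (q, p) ⟨hq', hp'⟩
    refine ⟨e q, mem_ball_iff_norm.2 ?_, e.left_inv h8.2⟩
    linarith [(abs_le.1 h8.1).1, mem_ball.1 hq]
  · rintro _ ⟨u, hu, rfl⟩
    have h8 := (abs_le.1 (h1 (e.symm u, p) ⟨(h3 u (h4 hu)).1, hp'⟩).1).2
    rw [e.right_inv (h5 hu)] at h8
    rw [mem_ball_iff_norm] at hu
    rw [mem_ball]
    linarith

/-- Near `x` the chart is bi-Lipschitz with `η = 1 / 2`; for `p` close to `x` and `r` small,
`ball p r ⊆ e.symm '' ball (e p) (2 * r) ⊆ ball p (5 * r)`; use `rk_of_acy`. A finite subcover (or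
`lebesgue_number_lemma_of_metric`) makes the radius uniform. -/
theorem cont_small [CompactSpace X] {n : ℕ} (h : Geo n X) : ∃ r₀ : ℝ, 0 < r₀ ∧
    ∀ (k : Type) [Field k] (a₀ : ℕ) (p : X) (r : ℝ), 0 < r → r ≤ r₀ → Cont k a₀ p r 1 := by
  obtain ⟨ε, hε, h1⟩ := Metric.eventually_nhds_iff_ball.1
    (isCompact_univ.eventually_forall_of_forall_eventually (x₀ := (0 : ℝ))
      (P := fun r (p : X) => 0 < r → ∀ (k : Type) [Field k] (a₀ : ℕ), Cont k a₀ p r 1)
      fun x _ => loc_CB (h.chart x).choose_spec)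
  refine ⟨ε / 2, half_pos hε, fun k _ a₀ p r r0 hr => h1 r ?_ p (mem_univ p) r0 k a₀⟩
  rw [mem_ball_zero_iff, Real.norm_of_nonneg r0.le]
  linarith

theorem Geo.loc5 (h : Geo 5 X) : Loc5 X := fun x =>
  ⟨_, (h.chart x).choose_spec.mem⟩

end RG
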