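import Pool.Agent.P.MP_8a106a_gt.HDefs

/-! Definitions for Gromov's Betti number bound. -/

set_option autoImplicit false

noncomputable section

namespace RG

open HK3 Pool.Agent.P.MP_9699e0_gt Pool.Agent.P.MP_8a106a_gt Set Filter Topology Metric

/-- A minimising geodesic from `x` to `z` along which the comparison theorem holds. -/
structure Gd {X : Type} [MetricSpace X] (γ : ℝ → X) (x z : X) : Prop where
  zero : γ 0 = x
  one : γ 1 = z
  iso : ∀ s ∈ Icc (0 : ℝ) 1, ∀ t ∈ Icc (0 : ℝ) 1, dist (γ s) (γ t) = |s - t| * dist x z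
  conc : ∀ y, ConcaveOn ℝ (Icc 0 1) fun t : ℝ => dist y (γ t) ^ 2 - t ^ 2 * dist x z ^ 2

/-- A chart that is almost isometric at `x` and in which squared distances are semiconcave. -/
structure Ch {n : ℕ} {X : Type} [MetricSpace X] (e : OpenPartialHomeomorph X (Euc n)) (x : X) :
    Prop where
  mem : x ∈ e.source
  lip : ∀ η : ℝ, 0 < η → ∀ᶠ p : X × X in 𝓝 (x, x),
    |dist p.1 p.2 - ‖e p.1 - e p.2‖| ≤ η * ‖e p.1 - e p.2‖
  semi : ∀ y, ∃ K r : ℝ, 0 < r ∧ ball (e x) r ⊆ e.target ∧ ∀ u ∈ ball (e x) r, ∀ v ∈ ball (e x) r,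
    ConcaveOn ℝ (Icc 0 1) fun t : ℝ =>
      dist y (e.symm (u + t • (v - u))) ^ 2 - K * t ^ 2 * ‖v - u‖ ^ 2

/-- The metric properties of a complete `n`-manifold of nonnegative sectional curvature. -/
structure Geo (n : ℕ) (X : Type) [MetricSpace X] : Prop where
  geod : ∀ x z : X, ∃ γ, Gd γ x z
  chart : ∀ x : X, ∃ e : OpenPartialHomeomorph X (Euc n), Ch e x

variable {X : Type} [MetricSpace X]

/-- `x` is a critical point of the distance from `y`. -/
def Crit (y x : X) : Prop := ∀ z, dist y z ^ 2 ≤ dist x y ^ 2 + dist x z ^ 2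

/-- There are `t` critical points at geometrically decreasing distances `≥ ρ`. -/
def Cr (t : ℕ) (y : X) (ρ : ℝ) : Prop :=
  ∃ x : ℕ → X, (∀ i < t, Crit y (x i) ∧ ρ ≤ dist y (x i)) ∧
    ∀ i j, i < j → j < t → 2 * dist y (x j) ≤ dist y (x i)

/-- The content of the ball is at most `c`, in degrees up to `a₀`. -/
def Cont (k : Type) [Field k] (a₀ : ℕ) (p : X) (r : ℝ) (c : ℕ) : Prop :=
  ∀ a ≤ a₀, Rk (cyc k (ball p r) a) (bdy k (ball p (5 * r)) a) c

/-- Near `x` there are deformations that decrease `F` near `x`, never increase it, and move points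
very little. -/
def Mv (F : X → ℝ) (x : X) : Prop :=
  ∃ lam ρ : ℝ, 0 < lam ∧ 0 < ρ ∧ ∀ η : ℝ, 0 < η → ∀ᶠ δ in 𝓝[>] (0 : ℝ), ∃ H : ℝ → X → X,
    Continuous (fun p : ℝ × X => H p.1 p.2) ∧ (∀ u, H 0 u = u) ∧
    (∀ s ∈ Icc (0 : ℝ) 1, ∀ u, F (H s u) ≤ F u) ∧ (∀ u, dist (H 1 u) u ≤ η) ∧
    ∀ u ∈ ball x lam, F (H 1 u) ≤ F u - ρ * δ

end RG
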