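import Pool.Agent.P.MP_8a106a_gt.CR
import Pool.Agent.P.MP_8a106a_gt.HA

/-! The isotopy lemma on the level of homology. -/

set_option autoImplicit false
set_option linter.unusedSectionVars false

noncomputable section

namespace RG

open HK3 Pool.Agent.P.MP_9699e0_gt Pool.Agent.P.MP_8a106a_gt Set Filter Topology Metric

variable {X : Type} [MetricSpace X]

variable {k : Type} [Field k]

theorem step_CI {F : X → ℝ} {H : ℝ → X → X} (hH : Continuous fun p : ℝ × X => H p.1 p.2)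
    (h0 : ∀ u, H 0 u = u) (hle : ∀ s ∈ Icc (0 : ℝ) 1, ∀ u, F (H s u) ≤ F u) {A B : Set X} {τ : ℝ}
    (hA : A ⊆ {u | F u ≤ τ}) (hB : MapsTo (H 1) A B) (n : ℕ) :
    cyc k A n ≤ cyc k B n ⊔ bdy k {u | F u ≤ τ} n := by
  intro c hc
  have h1 : Continuous (H 1) := hH.comp (continuous_const.prodMk continuous_id)
  have h2 := htpy_cyc (R := k) H (S := A) (S' := {u | F u ≤ τ}) hH.continuousOn
    (fun s hs x hx => (hle s hs x).trans (hA hx)) hc
  have h3 : H 0 = id := funext h0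
  rw [h3, cmap_id] at h2
  have h4 := cmap_cyc h1.continuousOn hB hc
  have e : c = cmap k (H 1) n c - (cmap k (H 1) n c - c) := by abel
  rw [e]
  exact sub_mem (Submodule.mem_sup_left h4) (Submodule.mem_sup_right h2)

theorem trans_CI {A B C S : Set X} {n : ℕ} (h1 : cyc k A n ≤ cyc k B n ⊔ bdy k S n)
    (h2 : cyc k B n ≤ cyc k C n ⊔ bdy k S n) : cyc k A n ≤ cyc k C n ⊔ bdy k S n :=
  h1.trans (sup_le h2 le_sup_right)

theorem multi_CI {F : X → ℝ} (lam : X → ℝ) (t : Finset X)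
    (h : ∀ x ∈ t, 0 < lam x ∧ ∃ ρ : ℝ, 0 < ρ ∧ ∀ η : ℝ, 0 < η → ∀ᶠ δ in 𝓝[>] (0 : ℝ),
      ∃ H : ℝ → X → X, Continuous (fun p : ℝ × X => H p.1 p.2) ∧ (∀ u, H 0 u = u) ∧
      (∀ s ∈ Icc (0 : ℝ) 1, ∀ u, F (H s u) ≤ F u) ∧ (∀ u, dist (H 1 u) u ≤ η) ∧
      ∀ u ∈ ball x (lam x), F (H 1 u) ≤ F u - ρ * δ) :
    ∀ η : ℝ, 0 < η → ∃ (ε : ℝ) (G : X → X), 0 < ε ∧ (∀ u, dist (G u) u ≤ η) ∧
      (∀ u, F (G u) ≤ F u) ∧ (∀ x ∈ t, ∀ u ∈ ball x (lam x / 2), F (G u) ≤ F u - ε) ∧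
      ∀ (A B : Set X) (τ : ℝ), A ⊆ {u | F u ≤ τ} → MapsTo G A B → ∀ n,
        cyc k A n ≤ cyc k B n ⊔ bdy k {u | F u ≤ τ} n := by
  classical
  induction t using Finset.induction_on with
  | empty =>
    intro η hη
    exact ⟨1, id, one_pos, fun u => by simpa using hη.le, fun u => le_rfl, by simp,
      fun A B τ _ hB n => (cyc_mono hB n).trans le_sup_left⟩
  | insert x t hx ih =>
    intro η hη
    obtain ⟨hl, ρ, hρ, hx'⟩ := h x (Finset.mem_insert_self x t)
    obtain ⟨ε, G, hε, g1, g2, g3, g4⟩ := ih (fun y hy => h y (Finset.mem_insert_of_mem hy))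
      (min (η / 2) (lam x / 2)) (lt_min (by linarith) (by linarith))
    obtain ⟨δ, ⟨H, c1, c2, c3, c4, c5⟩, hδ⟩ :=
      ((hx' (η / 2) (by linarith)).and self_mem_nhdsWithin).exists
    have hδ' : 0 < δ := hδ
    have h11 : (1 : ℝ) ∈ Icc (0 : ℝ) 1 := ⟨zero_le_one, le_rfl⟩
    refine ⟨min ε (ρ * δ), fun u => H 1 (G u), lt_min hε (mul_pos hρ hδ'), fun u => ?_,
      fun u => (c3 1 h11 _).trans (g2 u), fun y hy u hu => ?_, fun A B τ hA hB n => ?_⟩
    · have e1 := dist_triangle (H 1 (G u)) (G u) u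
      have e2 := c4 (G u)
      have e3 := (g1 u).trans (min_le_left _ _)
      linarith
    · rcases Finset.mem_insert.1 hy with rfl | hy
      · have e1 : G u ∈ ball y (lam y) := by
          have e2 := dist_triangle (G u) u y
          have e3 := (g1 u).trans (min_le_right _ _)
          rw [mem_ball] at hu ⊢
          linarith
        have e4 := c5 _ e1
        have e5 := g2 u
        have e6 := min_le_right ε (ρ * δ)
        linarith
      · have e1 := g3 y hy u hu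
        have e2 := c3 1 h11 (G u)
        have e3 := min_le_left ε (ρ * δ)
        linarith
    · refine trans_CI (g4 A (G '' A) τ hA (mapsTo_image G A) n) (step_CI c1 c2 c3 ?_ ?_ n)
      · rintro _ ⟨u, hu, rfl⟩
        exact (g2 u).trans (hA hu)
      · rintro _ ⟨u, hu, rfl⟩
        exact hB hu

/-- Cover the level set `{F = τ}` by finitely many balls `ball (x i) (lam i / 2)`; they cover
`{|F - τ| ≤ θ}` for a small `θ`. Apply the `m` deformations one after the other with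
`η ≤ lam i / (2 * m)` and one `δ`. Invariant after `j` steps: the cycle lies in the set of the
points `u` for which there is `u₀` with `F u₀ ≤ τ + θ'`, `dist u u₀ ≤ j * η`, `F u ≤ F u₀`, and
`F u ≤ F u₀ - ρ * δ` if `u₀` lies in one of the first `j` balls; any `θ' ≤ min θ (ρ * δ / 2)`
works. Use `htpy_cyc`. -/
theorem push_level [CompactSpace X] {F : X → ℝ} (hF : Continuous F) {τ : ℝ}
    (h : ∀ x, F x = τ → Mv F x) : ∀ᶠ θ in 𝓝[>] (0 : ℝ), ∀ n,
      cyc k {u | F u ≤ τ + θ} n ≤ cyc k {u | F u ≤ τ - θ} n ⊔ bdy k {u | F u ≤ τ + θ} n := by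
  classical
  choose! lam ρ hlam hρ hmv using h
  have hL : IsCompact {x | F x = τ} := (isClosed_eq hF continuous_const).isCompact
  obtain ⟨t, ht1, ht2⟩ := hL.elim_nhds_subcover (fun x => ball x (lam x / 2))
    (fun x hx => ball_mem_nhds x (half_pos (hlam x hx)))
  obtain ⟨ε, G, hε, -, g2, g3, g4⟩ := multi_CI (k := k) (F := F) lam t
    (fun x hx => ⟨hlam x (ht1 x hx), ρ x, hρ x (ht1 x hx), hmv x (ht1 x hx)⟩) 1 one_pos
  have hU : IsOpen (⋃ x ∈ t, ball x (lam x / 2)) := isOpen_biUnion fun _ _ => isOpen_ball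
  obtain ⟨θ₀, hθ₀, hθ⟩ := hU.isClosed_compl.isCompact.exists_forall_le' (f := fun u => |F u - τ|)
    (a := 0) (by fun_prop) (fun u hu => abs_pos.2 fun e => hu (ht2 (sub_eq_zero.1 e)))
  filter_upwards [Ioo_mem_nhdsGT (lt_min hθ₀ (half_pos hε))] with θ hθ' n
  have e1 := hθ'.2.trans_le (min_le_left _ _)
  have e2 := hθ'.2.trans_le (min_le_right _ _)
  refine g4 _ _ _ Subset.rfl (fun u hu => ?_) n
  have hu' : F u ≤ τ + θ := hu
  change F (G u) ≤ τ - θ
  by_cases h1 : F u ≤ τ - θ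
  · exact (g2 u).trans h1
  · have h2 : u ∈ ⋃ x ∈ t, ball x (lam x / 2) := by
      by_contra h3
      have h4 := hθ u h3
      have h5 : |F u - τ| ≤ θ := abs_le.2 ⟨by linarith, by linarith⟩
      linarith
    obtain ⟨x, hx, hux⟩ := mem_iUnion₂.1 h2
    have := g3 x hx u hux
    linarith

/-- A cycle has compact support (`exists_compact`); consider the infimum of the `τ` such that it is
homologous in `{F < b}` to a cycle in `{F ≤ τ}`. -/
theorem push_down [CompactSpace X] {F : X → ℝ} (hF : Continuous F) {a b : ℝ}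
    (h : ∀ x, a ≤ F x → F x ≤ b → Mv F x) (n : ℕ) :
    cyc k {u | F u < b} n ≤ cyc k {u | F u < a} n ⊔ bdy k {u | F u < b} n := by
  intro c hc
  by_contra hcon
  let T : Set ℝ := {τ | τ < b ∧ c ∈ cyc k {u | F u ≤ τ} n ⊔ bdy k {u | F u < b} n}
  have hT : ∀ τ ∈ T, a ≤ τ := by
    intro τ hτ
    by_contra hlt
    have hle : cyc k {u | F u ≤ τ} n ⊔ bdy k {u | F u < b} n ≤
        cyc k {u | F u < a} n ⊔ bdy k {u | F u < b} n :=
      sup_le_sup_right (cyc_mono (fun u hu => lt_of_le_of_lt hu (not_le.1 hlt)) n) _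
    exact hcon (hle hτ.2)
  obtain ⟨τ₀, hτ₀⟩ : T.Nonempty := by
    obtain ⟨K, hK, hKS, hcK⟩ := exists_compact (cyc_le _ n hc)
    obtain ⟨a', ha', h'⟩ := hK.exists_forall_le' (f := fun u => -F u) (a := -b) (by fun_prop)
      (fun u hu => neg_lt_neg (hKS hu))
    refine ⟨-a', by linarith, Submodule.mem_sup_left (mem_cyc hc (chn_mono (fun u hu => ?_) n hcK))⟩
    have := h' u hu
    change F u ≤ -a'
    linarith
  have hb : BddBelow T := ⟨a, hT⟩
  have h1 : a ≤ sInf T := le_csInf ⟨τ₀, hτ₀⟩ hT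
  have h2 : sInf T < b := (csInf_le hb hτ₀).trans_lt hτ₀.1
  obtain ⟨θ, h3, h4⟩ := ((push_level (k := k) hF (τ := sInf T)
    (fun x hx => h x (hx ▸ h1) (hx ▸ h2.le))).and (Ioo_mem_nhdsGT (sub_pos.2 h2))).exists
  obtain ⟨τ, hτ, h5⟩ := exists_lt_of_csInf_lt ⟨τ₀, hτ₀⟩ (show sInf T < sInf T + θ by linarith [h4.1])
  have h6 : sInf T - θ ∈ T := by
    refine ⟨by linarith [h4.1], ?_⟩
    refine (sup_le ((cyc_mono (fun u hu => ?_) n).trans ((h3 n).trans
      (sup_le_sup_left (bdy_mono (fun u hu => ?_) n) _))) le_sup_right :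
        cyc k {u | F u ≤ τ} n ⊔ bdy k {u | F u < b} n ≤ _) hτ.2
    · exact le_trans hu h5.le
    · have hu' : F u ≤ sInf T + θ := hu
      change F u < b
      linarith [h4.2]
  have := csInf_le hb h6
  linarith [h4.1]

theorem isotopy [CompactSpace X] {n : ℕ} (h : Geo n X) (y : X) {a b : ℝ} (ha : 0 < a) (hb : 0 < b)
    (hc : ∀ x, a ≤ dist y x → dist y x ≤ b → ¬ Crit y x) (m : ℕ) :
    cyc k (ball y b) m ≤ cyc k (ball y a) m ⊔ bdy k (ball y b) m := by
  have e : ∀ r : ℝ, 0 < r → ball y r = {u | dist y u ^ 2 < r ^ 2} := by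
    intro r hr
    ext u
    rw [mem_ball', mem_ofPred_eq, sq_lt_sq₀ dist_nonneg hr.le]
  rw [e a ha, e b hb]
  refine push_down (F := fun u => dist y u ^ 2) (by fun_prop) (fun x h1 h2 => ?_) m
  rw [sq_le_sq₀ ha.le dist_nonneg] at h1
  rw [sq_le_sq₀ dist_nonneg hb.le] at h2
  obtain ⟨e, w, r, ρ, t₀, p1, p2, p3, p4, p5, p6⟩ := incr_of_not_crit h (hc x h1 h2)
  exact mv_of_incr (fun u => dist y u ^ 2) e w p1 p2 p3 p4 p5 fun u hu t ht => (p6 u hu t ht).2

end RG
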