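import Pool.Agent.P.MP_8a106a_gt.HD1

/-! The nerve of an acyclic system. -/

set_option autoImplicit false
set_option linter.unusedSectionVars false

noncomputable section

namespace RG

open HK3 Pool.Agent.P.MP_9699e0_gt Pool.Agent.P.MP_8a106a_gt Set Filter Topology

variable {k : Type} [Field k] {V : ℕ → Type} [∀ n, AddCommGroup (V n)] [∀ n, Module k (V n)]
  {I : Type} [Fintype I] [DecidableEq I] {d : ∀ n, V (n + 1) →ₗ[k] V n} {ord : I → ℕ}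

/-- The hypotheses of the nerve lemma. -/
structure Nrv (d : ∀ n, V (n + 1) →ₗ[k] V n) (A : ∀ n, Finset I → Submodule k (V n))
    (ε : V 0 →ₗ[k] k) (Nv : Finset I → Prop) : Prop where
  dd : ∀ n x, d n (d (n + 1) x) = 0
  aug : ∀ x, ε (d 0 x) = 0
  bot : ∀ σ : Finset I, σ.Nonempty → ¬ Nv σ → ∀ n, A n σ = ⊥
  high : ∀ σ : Finset I, σ.Nonempty → Nv σ → ∀ n,
    zc d (fun n => A n σ) (n + 1) ≤ bc d (fun n => A n σ) (n + 1)
  zero : ∀ σ : Finset I, σ.Nonempty → Nv σ → ∀ c ∈ A 0 σ, ε c = 0 → c ∈ bc d (fun n => A n σ) 0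
  ne : ∀ σ : Finset I, σ.Nonempty → Nv σ → ∃ c ∈ A 0 σ, ε c = 1

variable {A : ∀ n, Finset I → Submodule k (V n)} {ε : V 0 →ₗ[k] k} {Nv : Finset I → Prop}

theorem dd_HD3 (hA : Sys d ord A) {n p : ℕ} {x : Finset I → V n} (hx : x ∈ DD (A n) p) :
    del k ord (V n) (del k ord (V n) x) = 0 :=
  del_del fun σ h => hA.inj n σ fun e => h (by simpa [e] using (hx σ).1)

theorem cx_HD3 (hA : Sys d ord A) {n p : ℕ} {x : Finset I → V (n + 1)}
    (hx : x ∈ DD (A (n + 1)) p) : (d n).compLeft (Finset I) x ∈ DD (A n) p := fun σ =>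
  ⟨hA.cx n σ _ (hx σ).1, fun h => by simp [(hx σ).2 h]⟩

theorem lift_HD3 {W W' : Type} [AddCommGroup W] [Module k W] [AddCommGroup W'] [Module k W']
    {B : Finset I → Submodule k W} (f : W →ₗ[k] W') {p : ℕ} {x : Finset I → W'}
    (h0 : ∀ σ : Finset I, σ.card ≠ p → x σ = 0)
    (h : ∀ σ : Finset I, σ.card = p → x σ ∈ (B σ).map f) :
    ∃ y ∈ DD B p, f.compLeft (Finset I) y = x := by
  have key : ∀ σ : Finset I, ∃ c, (c ∈ B σ ∧ (σ.card ≠ p → c = 0)) ∧ f c = x σ := fun σ => by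
    by_cases e : σ.card = p
    · obtain ⟨c, hc, hc'⟩ := h σ e
      exact ⟨c, ⟨hc, fun e' => absurd e e'⟩, hc'⟩
    · exact ⟨0, ⟨zero_mem _, fun _ => rfl⟩, by rw [map_zero, h0 σ e]⟩
  choose y hy hy' using key
  exact ⟨y, hy, funext hy'⟩

theorem high_HD3 (hN : Nrv d A ε Nv) {n p : ℕ} {x : Finset I → V (n + 1)}
    (hx : x ∈ DD (A (n + 1)) (p + 1)) (h : (d n).compLeft (Finset I) x = 0) :
    ∃ y ∈ DD (A (n + 2)) (p + 1), (d (n + 1)).compLeft (Finset I) y = x := by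
  refine lift_HD3 _ (fun σ => (hx σ).2) fun σ e => ?_
  have hσ : σ.Nonempty := Finset.card_pos.mp (by omega)
  by_cases c : Nv σ
  · exact hN.high σ hσ c n ⟨(hx σ).1, congrFun h σ⟩
  · have h1 := (hx σ).1
    rw [hN.bot σ hσ c, Submodule.mem_bot] at h1
    exact h1 ▸ zero_mem _

theorem zero_HD3 (hN : Nrv d A ε Nv) {p : ℕ} {x : Finset I → V 0}
    (hx : x ∈ DD (A 0) (p + 1)) (h : ε.compLeft (Finset I) x = 0) :
    ∃ y ∈ DD (A 1) (p + 1), (d 0).compLeft (Finset I) y = x := by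
  refine lift_HD3 _ (fun σ => (hx σ).2) fun σ e => ?_
  have hσ : σ.Nonempty := Finset.card_pos.mp (by omega)
  by_cases c : Nv σ
  · exact hN.zero σ hσ c _ (hx σ).1 (congrFun h σ)
  · have h1 := (hx σ).1
    rw [hN.bot σ hσ c, Submodule.mem_bot] at h1
    exact h1 ▸ zero_mem _

theorem surj_HD3 (hN : Nrv d A ε Nv) {p : ℕ} {z : Finset I → k} (hz : z ∈ NC k Nv (p + 1)) :
    ∃ x ∈ DD (A 0) (p + 1), ε.compLeft (Finset I) x = z := by
  refine lift_HD3 _ (fun σ => (hz σ).2) fun σ e => ?_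
  have hσ : σ.Nonempty := Finset.card_pos.mp (by omega)
  by_cases c : Nv σ
  · obtain ⟨a, ha, ha'⟩ := hN.ne σ hσ c
    exact ⟨z σ • a, Submodule.smul_mem _ _ ha, by simp [ha']⟩
  · have h1 : z σ = 0 := by simpa [c, hσ.ne_empty] using (hz σ).1
    exact h1 ▸ zero_mem _

theorem aug_HD3 (hN : Nrv d A ε Nv) {p : ℕ} {x : Finset I → V 0} (hx : x ∈ DD (A 0) p) :
    ε.compLeft (Finset I) x ∈ NC k Nv p := by
  refine fun σ => ⟨?_, fun h => by simp [(hx σ).2 h]⟩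
  by_cases c : σ = ∅ ∨ Nv σ
  · simp [c]
  · have h1 := (hx σ).1
    rw [hN.bot σ (Finset.nonempty_iff_ne_empty.mpr (not_or.mp c).1) (not_or.mp c).2,
      Submodule.mem_bot] at h1
    simp [h1]

theorem single_HD3 {n : ℕ} {c : V (n + 1)} (hc : c ∈ A (n + 1) ∅) {x : Finset I → V n}
    (hx : x ∈ DD (A n) 0) (h : d n c = x ∅) :
    ∃ y ∈ DD (A (n + 1)) 0, (d n).compLeft (Finset I) y = x :=
  lift_HD3 _ (fun σ => (hx σ).2) fun σ e => by
    obtain rfl := Finset.card_eq_zero.mp e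
    exact ⟨c, hc, h⟩

/-- The end of the diagram chase. -/
theorem last_HD3 (hA : Sys d ord A) (hN : Nrv d A ε Nv) {p : ℕ} {x : Finset I → V 0}
    {y : Finset I → V 1} (hx : x ∈ DD (A 0) (p + 1)) (hy : y ∈ DD (A 1) p)
    (h : del k ord _ x = (d 0).compLeft (Finset I) y) (h' : del k ord _ y = 0) :
    ε.compLeft (Finset I) x ∈ (NC k Nv (p + 2)).map (del k ord k) := by
  obtain ⟨v, hv, rfl⟩ := hA.exact 1 p y hy h'
  obtain ⟨u, hu, e⟩ := hA.exact 0 (p + 1) _ (sub_mem hx (cx_HD3 hA hv))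
    (by rw [map_sub, del_comp, h, sub_self])
  refine ⟨_, aug_HD3 hN hu, ?_⟩
  rw [del_comp, e, map_sub, sub_eq_self]
  exact funext fun σ => hN.aug _

variable (ord A) in
/-- The kernels of the rows. -/
def KK_HD3 (p n : ℕ) : Submodule k (Finset I → V n) :=
  DD (A n) p ⊓ LinearMap.ker (del k ord (V n))

theorem fix_HD3 (hA : Sys d ord A) (hN : Nrv d A ε Nv) {n p : ℕ} {y : Finset I → V (n + 1)}
    (hy : y ∈ DD (A (n + 1)) (p + 1))
    (h : del k ord _ y ∈ bc (fun n => (d n).compLeft (Finset I)) (KK_HD3 ord A p) (n + 1)) :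
    ∃ y' ∈ KK_HD3 ord A (p + 1) (n + 1),
      (d n).compLeft (Finset I) y' = (d n).compLeft (Finset I) y := by
  obtain ⟨w, ⟨hw, hw'⟩, e⟩ := h
  obtain ⟨w, hw2, rfl⟩ := hA.exact _ p w hw hw'
  refine ⟨y - (d (n + 1)).compLeft (Finset I) w, ⟨sub_mem hy (cx_HD3 hA hw2), ?_⟩, ?_⟩
  · rw [SetLike.mem_coe, LinearMap.mem_ker, map_sub, del_comp, e, sub_self]
  · rw [map_sub, sub_eq_self]
    exact funext fun σ => hN.dd _ _

theorem cyc_HD3 (hA : Sys d ord A) {n p : ℕ} {y : Finset I → V (n + 1)}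
    (hy : y ∈ DD (A (n + 1)) (p + 1)) (h : del k ord _ ((d n).compLeft (Finset I) y) = 0) :
    del k ord _ y ∈ zc (fun n => (d n).compLeft (Finset I)) (KK_HD3 ord A p) (n + 1) :=
  ⟨⟨del_mem (hA.anti _) hy, dd_HD3 hA hy⟩, (del_comp _ _).symm.trans h⟩

theorem chain_HD3 (hA : Sys d ord A) (hN : Nrv d A ε Nv) {r : ℕ} (p : ℕ) : ∀ q : ℕ,
    Rk (zc d (fun n => A n ∅) (p + q + 1)) (bc d (fun n => A n ∅) (p + q + 1)) r →
    Rk (zc (fun n => (d n).compLeft (Finset I)) (KK_HD3 ord A p) (q + 1))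
      (bc (fun n => (d n).compLeft (Finset I)) (KK_HD3 ord A p) (q + 1)) r := by
  induction p with
  | zero =>
    intro q h
    rw [Nat.zero_add] at h
    refine h.comap (LinearMap.proj (∅ : Finset I)) (fun z hz => ⟨(hz.1.1 ∅).1, congrFun hz.2 ∅⟩)
      fun z hz ⟨c, hc, e⟩ => ?_
    obtain ⟨y, hy, e'⟩ := single_HD3 hc hz.1.1 e
    exact ⟨y, ⟨hy, del_zero hy⟩, e'⟩
  | succ p ih =>
    intro q h
    rw [show p + 1 + q = p + (q + 1) by omega] at h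
    refine ((ih _ h).corr ((d (q + 1)).compLeft (Finset I)) (del k ord _)
      (DD (A (q + 2)) (p + 1) ⊓ LinearMap.ker (del k ord _ ∘ₗ (d (q + 1)).compLeft (Finset I)))
      (fun z hz => ?_) ?_).mono le_sup_left ?_ le_rfl
    · obtain ⟨y, hy, rfl⟩ := high_HD3 hN hz.1.1 hz.2
      exact ⟨y, ⟨hy, hz.1.2⟩, rfl⟩
    · rintro _ ⟨y, hy, rfl⟩
      exact cyc_HD3 hA hy.1 hy.2
    · rintro _ ⟨y, hy, rfl⟩
      exact fix_HD3 hA hN hy.1.1 hy.2

/-- With `K p n = DD (A n) p ⊓ ker del`: a cycle of `K (p + 1)` of degree `q + 1` is `d y` with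
`y ∈ DD (A _) (p + 1)`, and `del y` is a cycle of `K p` of degree `q + 2`; so the rank in
` (p + 1, q + 1)` is at most the rank in ` (p, q + 2)` (`Rk.corr`). Last step: lift
`z ∈ NC (b + 2)` to `x ∈ DD (A 0) (b + 2)`, write `del x = d y`, and consider the cycle `del y` of
`K b` of degree one; if `del y = d (del w)` then `y - d w = del v`, `x - d v = del u`, and
`z = del (ε u)`. -/
theorem nerve_succ (hA : Sys d ord A) (hN : Nrv d A ε Nv) {b r : ℕ}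
    (h : Rk (zc d (fun n => A n ∅) (b + 1)) (bc d (fun n => A n ∅) (b + 1)) r) :
    Rk (NC k Nv (b + 2) ⊓ LinearMap.ker (del k ord k)) ((NC k Nv (b + 3)).map (del k ord k)) r := by
  refine ((chain_HD3 hA hN b 0 h).corr
    (ε.compLeft (Finset I) ∘ₗ LinearMap.fst k (Finset I → V 0) (Finset I → V 1))
    (del k ord _ ∘ₗ LinearMap.snd k _ _)
    ((DD (A 0) (b + 2)).prod (DD (A 1) (b + 1)) ⊓ LinearMap.eqLocus
      (del k ord _ ∘ₗ LinearMap.fst k _ _) ((d 0).compLeft (Finset I) ∘ₗ LinearMap.snd k _ _))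
    (fun z hz => ?_) ?_).mono le_sup_left ?_ le_rfl
  · obtain ⟨x, hx, rfl⟩ := surj_HD3 hN hz.1
    obtain ⟨y, hy, e⟩ := zero_HD3 hN (del_mem (hA.anti _) hx) ((del_comp _ _).symm.trans hz.2)
    exact ⟨(x, y), ⟨⟨hx, hy⟩, e.symm⟩, rfl⟩
  · rintro _ ⟨⟨x, y⟩, ⟨⟨hx, hy⟩, e⟩, rfl⟩
    have e' : del k ord _ x = (d 0).compLeft (Finset I) y := e
    exact cyc_HD3 hA hy (e' ▸ dd_HD3 hA hx)
  · rintro _ ⟨⟨x, y⟩, ⟨⟨⟨hx, hy⟩, e⟩, hb⟩, rfl⟩
    obtain ⟨y', hy', e'⟩ := fix_HD3 hA hN hy hb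
    exact last_HD3 hA hN hx hy'.1 (Eq.trans e e'.symm) hy'.2

theorem nerve_zero (hA : Sys d ord A) (hN : Nrv d A ε Nv)
    (h : ∀ c ∈ A 0 ∅, ε c = 0 → c ∈ bc d (fun n => A n ∅) 0) :
    NC k Nv 1 ⊓ LinearMap.ker (del k ord k) ≤ (NC k Nv 2).map (del k ord k) := by
  intro z hz
  obtain ⟨x, hx, rfl⟩ := surj_HD3 hN hz.1
  have h1 := del_mem (ord := ord) (hA.anti _) hx
  obtain ⟨c, hc, e⟩ := h _ (h1 ∅).1 (congrFun ((del_comp _ _).symm.trans hz.2) ∅)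
  obtain ⟨y, hy, e'⟩ := single_HD3 hc h1 e
  exact last_HD3 hA hN hx hy e'.symm (del_zero hy)

end RG
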