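import Pool.Agent.P.MP_8a106a_gt.HD2
import Pool.Agent.P.MP_8a106a_gt.HD3

/-! The system of an open cover. -/

set_option autoImplicit false
set_option linter.unusedSectionVars false

noncomputable section

namespace RG

open HK3 Pool.Agent.P.MP_9699e0_gt Pool.Agent.P.MP_8a106a_gt Set Filter Topology

variable {k : Type} [Field k] {X : Type} [TopologicalSpace X]

variable {I : Type} [Fintype I] [DecidableEq I] {ord : I → ℕ}

theorem cov_eq (U : I → Set X) (n : ℕ) {σ : Finset I} (hσ : σ.Nonempty) :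
    cov k U n σ = chn k (⋂ i ∈ σ, U i) n := by
  refine congrArg (Finsupp.supported k k) (Set.ext fun s => ⟨fun h => ?_, fun h => ?_⟩)
  · exact subset_iInter₂_iff.2 h.2
  · obtain ⟨i, hi⟩ := hσ
    exact ⟨⟨i, subset_iInter₂_iff.1 h i hi⟩, subset_iInter₂_iff.1 h⟩

theorem cov_fun_HD4 (U : I → Set X) {σ : Finset I} (hσ : σ.Nonempty) :
    (fun n => cov k U n σ) = chn k (⋂ i ∈ σ, U i) := funext fun n => cov_eq U n hσ

theorem comp_HD4 (U : I → Set X) (σ : Finset I) (n m : ℕ) (s : Simp X n) (v : C(Dl m, Dl n))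
    (h : (∃ i, range s ⊆ U i) ∧ ∀ i ∈ σ, range s ⊆ U i) :
    (∃ i, range (s.comp v) ⊆ U i) ∧ ∀ i ∈ σ, range (s.comp v) ⊆ U i :=
  ⟨h.1.imp fun _ hi => Sm_comp_range _ n m s v hi, fun i hi => Sm_comp_range _ n m s v (h.2 i hi)⟩

theorem small_HD4 {U : I → Set X} (hU : ∀ i, IsOpen (U i)) {O : Set X} (hO : O ⊆ ⋃ i, U i) :
    Small (fun _ s => (∃ i, range s ⊆ U i) ∧ ∀ i ∈ (∅ : Finset I), range s ⊆ U i) O := by
  refine ⟨comp_HD4 U ∅, fun x hx => ?_⟩
  obtain ⟨i, hi⟩ := mem_iUnion.1 (hO hx)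
  exact ⟨U i, mem_nhdsWithin_of_mem_nhds ((hU i).mem_nhds hi), fun n s hs =>
    ⟨⟨i, hs⟩, fun j hj => absurd hj (Finset.notMem_empty j)⟩⟩

open Classical in
/-- The part of a chain on the simplices with the property `p`. -/
def flt_HD4 {n : ℕ} (p : Simp X n → Prop) : Chn k X n →ₗ[k] Chn k X n where
  toFun := Finsupp.filter p
  map_add' _ _ := Finsupp.filter_add
  map_smul' _ _ := Finsupp.filter_smul

open Classical in
theorem flt_apply_HD4 {n : ℕ} (p : Simp X n → Prop) (c : Chn k X n) (s : Simp X n) :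
    flt_HD4 p c s = if p s then c s else 0 := rfl

/-- Choose for each small simplex an index; `π i` is `Finsupp.filter` to the simplices with chosen
index `i`; apply `exact_of_proj`. -/
theorem sys_cov (U : I → Set X) (h : ∀ i j, (U i ∩ U j).Nonempty → ord i = ord j → i = j) :
    Sys (bd k X) ord (cov k U) := by
  have anti : ∀ n σ τ, σ ⊆ τ → cov k U n τ ≤ cov k U n σ := fun n σ τ hστ =>
    Finsupp.supported_mono fun s hs => ⟨hs.1, fun i hi => hs.2 i (hστ hi)⟩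
  have inj : ∀ n σ, cov k U n σ ≠ ⊥ → InjOn ord σ := by
    intro n σ hne i hi j hj hij
    obtain ⟨c, hc, hc0⟩ := Submodule.exists_mem_ne_zero_of_ne_bot hne
    obtain ⟨s, hs⟩ := Finsupp.support_nonempty_iff.2 hc0
    have hP := (Finsupp.mem_supported k c).1 hc hs
    exact h i j ⟨s (stdSimplex.vertex 0), hP.2 i hi ⟨_, rfl⟩, hP.2 j hj ⟨_, rfl⟩⟩ hij
  refine ⟨fun n σ c hc => Sm_bd (comp_HD4 U σ) hc, anti, inj, fun n p => ?_⟩
  refine exact_of_proj (anti n) (inj n)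
    (fun i => flt_HD4 fun s => ∃ hs : ∃ j, range s ⊆ U j, hs.choose = i) (fun c hc => ?_)
    (fun σ i c hc => ?_) p
  · ext s
    rw [Finsupp.finsetSum_apply]
    simp only [flt_apply_HD4]
    by_cases hs : ∃ j, range s ⊆ U j
    · rw [Finset.sum_eq_single hs.choose (fun i _ hi => if_neg fun ⟨_, e⟩ => hi e.symm)
        (fun h0 => absurd (Finset.mem_univ _) h0), if_pos ⟨hs, rfl⟩]
    · rw [(Finsupp.mem_supported' k c).1 hc s fun h0 => hs h0.1]
      simp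
  · refine (Finsupp.mem_supported' k _).2 fun s hs => ?_
    rw [flt_apply_HD4]
    split_ifs with h1
    · obtain ⟨h1, rfl⟩ := h1
      refine (Finsupp.mem_supported' k c).1 hc s fun h0 => hs ⟨h1, fun j hj => ?_⟩
      rcases Finset.mem_insert.1 hj with rfl | hj
      · exact h1.choose_spec
      · exact h0.2 j hj
    · rfl

/-- `Small.exists_retr`. -/
theorem cyc_le_cov {U : I → Set X} (hU : ∀ i, IsOpen (U i)) {O : Set X} (hO : O ⊆ ⋃ i, U i)
    (n : ℕ) : cyc k O n ≤ zc (bd k X) (fun n => cov k U n ∅) n ⊔ bdy k O n := by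
  obtain ⟨ρ, D, h1, h2, h3, h4, -, h6⟩ := (small_HD4 hU hO).exists_retr (R := k)
  intro c hc
  have hc' := cyc_le O n hc
  cases n with
  | zero =>
    exact Submodule.mem_sup.2 ⟨ρ 0 c, h4 0 c hc', _, ⟨D 0 c, (h6 O 0 c hc').2, rfl⟩, by
      rw [h2, add_sub_cancel]⟩
  | succ n =>
    have h0 : bd k X n c = 0 := LinearMap.mem_ker.1 hc.2
    refine Submodule.mem_sup.2 ⟨ρ _ c, ⟨h4 _ c hc', LinearMap.mem_ker.2 ?_⟩, _,
      ⟨D _ c, (h6 O _ c hc').2, rfl⟩, ?_⟩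
    · rw [h1, h0, map_zero]
    · have e := h3 n c
      rw [h0, map_zero, add_zero] at e
      rw [e, add_sub_cancel]

theorem bdy_le_cov {U : I → Set X} (hU : ∀ i, IsOpen (U i)) (n : ℕ) :
    cov k U n ∅ ⊓ bdy k (⋃ i, U i) n ≤ bc (bd k X) (fun n => cov k U n ∅) n := by
  obtain ⟨ρ, D, h1, -, -, h4, h5, -⟩ := (small_HD4 hU (Subset.refl _)).exists_retr (R := k)
  rintro c ⟨hc, e, he, rfl⟩
  exact ⟨ρ _ e, h4 _ e he, by rw [h1, (h5 n _ hc).2]⟩

/-- `sys_rank` with an injective `ord`. -/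
theorem rank_cover (U : ℕ → I → Set X) (hU : ∀ i, IsOpen (U 0 i))
    (mono : ∀ j i, U j i ⊆ U (j + 1) i) {O O' : Set X} (hO : O ⊆ ⋃ i, U 0 i) (hO' : O ⊆ O')
    {a₀ c : ℕ} (hU' : ∀ j ≤ a₀ + 1, ∀ i, U j i ⊆ O')
    (h : ∀ j ≤ a₀, ∀ a ≤ a₀, ∀ σ : Finset I, σ.Nonempty →
      Rk (cyc k (⋂ i ∈ σ, U j i) a) (bdy k (⋂ i ∈ σ, U (j + 1) i) a) c) {a : ℕ} (ha : a ≤ a₀) :
    Rk (cyc k O a) (bdy k O' a) ((a + 1) * (2 ^ Fintype.card I * c)) := by
  have key := sys_rank (ord := fun i => (Fintype.equivFin I i : ℕ)) (fun n x => bd_bd n x)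
    (fun j => cov k (U j)) (fun j => sys_cov (U j) fun i i' _ e =>
      (Fintype.equivFin I).injective (Fin.ext e))
    (fun j n σ => Finsupp.supported_mono fun s hs =>
      ⟨hs.1.imp fun i hi => hi.trans (mono j i), fun i hi => (hs.2 i hi).trans (mono j i)⟩)
    (a₀ := a₀) (c := c) (fun j hj a ha σ hσ => by
      rw [cov_fun_HD4 _ hσ, cov_fun_HD4 _ hσ, zc_chn, bc_chn]
      exact h j hj a ha σ hσ) ha
  refine key.mono ((cyc_le_cov hU hO a).trans (sup_le_sup_left (bdy_mono hO' a) _))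
    (Submodule.map_mono (Finsupp.supported_mono fun s hs => ?_)) le_rfl
  obtain ⟨i, hi⟩ := hs.1
  exact hi.trans (hU' _ (by omega) i)

theorem nrv_cov (U : I → Set X)
    (h : ∀ σ : Finset I, σ.Nonempty → (⋂ i ∈ σ, U i).Nonempty → Acy k (⋂ i ∈ σ, U i)) :
    Nrv (bd k X) (cov k U) (aug k) fun σ => (⋂ i ∈ σ, U i).Nonempty := by
  refine ⟨fun n x => bd_bd n x, aug_bd, fun σ hσ h0 n => ?_, fun σ hσ h0 n => ?_,
    fun σ hσ h0 c hc h1 => ?_, fun σ hσ h0 => ?_⟩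
  · rw [cov_eq U n hσ, not_nonempty_iff_eq_empty.1 h0, chn_empty]
  · rw [cov_fun_HD4 _ hσ, zc_chn, bc_chn]
    exact (h σ hσ h0).2 (n + 1)
  · rw [cov_fun_HD4 _ hσ, bc_chn]
    rw [cov_eq U 0 hσ] at hc
    exact (h σ hσ h0).2 0 ⟨hc, h1⟩
  · obtain ⟨x, hx⟩ := h0
    refine ⟨Finsupp.single (ContinuousMap.const _ x) 1, ?_, ?_⟩
    · rw [cov_eq U 0 hσ]
      refine single_mem ?_ 1
      rintro _ ⟨t, rfl⟩
      exact hx
    · rw [aug, ev_single, one_smul]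

end RG
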