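import Pool.Agent.P.MP_8a106a_gt.CP
import Pool.Agent.P.MP_8a106a_gt.CI
import Pool.Agent.P.MP_8a106a_gt.CB
import Pool.Agent.P.MP_8a106a_gt.HD4

/-! Gromov's Betti number theorem. -/

set_option autoImplicit false
set_option linter.unusedSectionVars false

noncomputable section

namespace RG

open HK3 Pool.Agent.P.MP_9699e0_gt Pool.Agent.P.MP_8a106a_gt Set Filter Topology Metric

variable {X : Type} [MetricSpace X]

theorem rk_empty_CG {k : Type} [Field k] {S : Set X} (hS : S = ∅) {a : ℕ}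
    (B : Submodule k (Chn k X a)) (c : ℕ) : Rk (cyc k S a) B c := by
  have h : cyc k S a ≤ B := by
    refine (cyc_le S a).trans ?_
    rw [hS, chn_empty]
    exact bot_le
  exact (rk_zero.2 h).mono le_sup_left le_rfl (Nat.zero_le c)

theorem cont_mono_CG {k : Type} [Field k] {a₀ c c' : ℕ} {p : X} {r : ℝ} (h : Cont k a₀ p r c)
    (hc : c ≤ c') : Cont k a₀ p r c' := fun a ha => (h a ha).mono le_sup_left le_rfl hc

/-- Cover by `cover_ball` with `ε = ε₀ / 10 ^ (a₀ + 1)` (we may take `ε₀ ≤ 1`), put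
`U j i = ball i (10 ^ j * ε * r)`. A nonempty intersection at level `j` lies in one ball of radius
`s = 10 ^ j * ε * r`, and the concentric ball of radius `5 * s` lies in the intersection at level
`j + 1`. Apply `rank_cover`. -/
theorem cont_cover (n a₀ c : ℕ) {ε₀ : ℝ} (hε : 0 < ε₀) : ∃ c' : ℕ,
    ∀ (k : Type) [Field k] (X : Type) [MetricSpace X], Geo n X → ∀ (p : X) (r : ℝ), 0 < r →
      (∀ q ∈ ball p r, ∀ s, 0 < s → s ≤ ε₀ * r → Cont k a₀ q s c) → Cont k a₀ p r c' := by
  classical
  obtain ⟨ε, hε0, hε1⟩ : ∃ ε : ℝ, 0 < ε ∧ 10 ^ (a₀ + 1) * ε = min ε₀ 1 :=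
    ⟨min ε₀ 1 / 10 ^ (a₀ + 1), by positivity, by field_simp⟩
  obtain ⟨N, hN⟩ := cover_ball n hε0
  refine ⟨(a₀ + 1) * (2 ^ N * c), fun k _ X _ hX p r hr hq a ha => ?_⟩
  obtain ⟨S, hS, hSp, hcov⟩ := hN X hX p r hr
  have hle : ∀ j ≤ a₀ + 1, 10 ^ j * ε * r ≤ min ε₀ 1 * r := fun j hj => by
    rw [← hε1]
    gcongr
    norm_num
  have key := rank_cover (k := k) (fun j (i : S) => ball i.1 (10 ^ j * ε * r))
    (fun i => isOpen_ball) (fun j i => ball_subset_ball (by
      gcongr
      · norm_num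
      · omega)) (O := ball p r) (O' := ball p (5 * r)) (a₀ := a₀) (c := c) (fun x hx => by
      obtain ⟨y, hy, h⟩ := mem_iUnion₂.1 (hcov hx)
      exact mem_iUnion.2 ⟨⟨y, hy⟩, by simpa using h⟩) (ball_subset_ball (by linarith))
    (fun j hj i => ball_subset_ball' (by
      have h1 := hle j hj
      have h2 := mem_ball.1 (hSp i.1 i.2)
      have h3 := mul_le_mul_of_nonneg_right (min_le_right ε₀ 1) hr.le
      linarith)) (fun j hj a ha σ hσ => ?_) ha
  · refine key.mono le_sup_left le_rfl ?_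
    rw [Fintype.card_coe]
    gcongr
    norm_num
  · rcases eq_empty_or_nonempty (⋂ i ∈ σ, ball (i : S).1 (10 ^ j * ε * r)) with h0 | ⟨x, hx⟩
    · exact rk_empty_CG h0 _ c
    · obtain ⟨i, hi⟩ := hσ
      have hs : 0 < 10 ^ j * ε * r := by positivity
      refine (hq i.1 (hSp i.1 i.2) _ hs ((hle j (by omega)).trans
        (mul_le_mul_of_nonneg_right (min_le_left _ _) hr.le)) a ha).mono
        ((cyc_mono (biInter_subset_of_mem hi) a).trans le_sup_left)
        (bdy_mono (subset_iInter₂ fun i' hi' => ball_subset_ball' ?_) a) le_rfl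
      have h1 := mem_ball.1 (mem_iInter₂.1 hx i hi)
      have h2 := mem_ball.1 (mem_iInter₂.1 hx i' hi')
      have h3 := dist_triangle_left i.1 i'.1 x
      rw [pow_succ]
      linarith

/-- `ball p r ⊆ ball y b ⊆ ball p (5 * r)` with `b = r + dist p y`. -/
theorem cont_compress [CompactSpace X] {n : ℕ} (h : Geo n X) {k : Type} [Field k] {a₀ c : ℕ}
    {p y : X} {r : ℝ} (hr : 0 < r) (hy : dist p y ≤ 2 * r)
    (hc : ∀ x, r / 2 ≤ dist y x → dist y x ≤ 3 * r → ¬ Crit y x) (h' : Cont k a₀ y (r / 2) c) :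
    Cont k a₀ p r c := by
  intro a ha
  have h0 : 0 ≤ dist p y := dist_nonneg
  have h1 := isotopy (k := k) h y (a := r / 2) (b := r + dist p y) (by linarith) (by linarith)
    (fun x h1 h2 => hc x h1 (by linarith)) a
  refine (h' a ha).mono (((cyc_mono (ball_subset_ball' le_rfl) a).trans h1).trans
    (sup_le_sup_left (bdy_mono (ball_subset_ball' ?_) a) _))
    (bdy_mono (ball_subset_ball' ?_) a) le_rfl
  · rw [dist_comm y p]
    linarith
  · rw [dist_comm y p]
    linarith

/-- Induction on `j`; for `j = 0` use `cr_le` at `y = p`. In the step use a second induction on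
`i` with `r ≤ 2 ^ i * r₀`. If `cont_compress` applies for some `y`, pass to ` (y, r / 2)`. Otherwise
every `y` with `dist p y ≤ 2 * r` has `Cr (t + 1) y (r / 2)`, so the first induction hypothesis
applies to the balls ` (q, s)` with `q ∈ ball p r`, `s ≤ r / 12`; use `cont_cover`. -/
theorem cont_depth (n a₀ : ℕ) : ∃ N : ℕ, ∀ j : ℕ, ∃ c : ℕ,
    ∀ (k : Type) [Field k] (X : Type) [MetricSpace X] [CompactSpace X], Geo n X →
      ∀ (t : ℕ) (p : X) (r : ℝ), 0 < r → N < t + j →
        (∀ y ∈ ball p (5 * r), Cr t y (6 * r)) → Cont k a₀ p r c := by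
  obtain ⟨N, hN⟩ := cr_le n
  refine ⟨N, fun j => ?_⟩
  induction j with
  | zero =>
    refine ⟨0, fun k _ X _ _ hX t p r hr ht hcr => ?_⟩
    have h := hN X hX t p (6 * r) (by linarith) (hcr p (mem_ball_self (by linarith)))
    omega
  | succ j ih =>
    obtain ⟨c, hc⟩ := ih
    obtain ⟨c', hc'⟩ := cont_cover n a₀ c (ε₀ := 1 / 12) (by norm_num)
    refine ⟨c' + 1, fun k _ X _ _ hX t p r hr ht hcr => ?_⟩
    obtain ⟨r₀, hr₀, hsm⟩ := cont_small hX
    have key : ∀ (i : ℕ) (p : X) (r : ℝ), 0 < r → r ≤ 2 ^ i * r₀ →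
        (∀ y ∈ ball p (5 * r), Cr t y (6 * r)) → Cont k a₀ p r (c' + 1) := by
      intro i
      induction i with
      | zero =>
        intro p r hr hle _
        exact cont_mono_CG (hsm k a₀ p r hr (by simpa using hle)) (by omega)
      | succ i ihi =>
        intro p r hr hle hcr
        by_cases hy : ∃ y, dist p y ≤ 2 * r ∧
            ∀ x, r / 2 ≤ dist y x → dist y x ≤ 3 * r → ¬ Crit y x
        · obtain ⟨y, hy, hyc⟩ := hy
          refine cont_compress hX hr hy hyc (ihi y (r / 2) (by linarith) ?_ fun y' hy' => ?_)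
          · rw [pow_succ] at hle
            linarith
          · refine (hcr y' (ball_subset_ball' ?_ hy')).mono (by linarith)
            rw [dist_comm y p]
            linarith
        · refine cont_mono_CG (hc' k X hX p r hr fun q hq s hs hsr =>
            hc k X hX (t + 1) q s hs (by omega) fun y hy' => ?_) (by omega)
          have h1 : dist p y ≤ 2 * r := by
            have h2 := mem_ball.1 hq
            have h3 := mem_ball.1 hy'
            have h4 := dist_triangle y q p
            rw [dist_comm]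
            linarith
          obtain ⟨x, h2, h3, h4⟩ : ∃ x, r / 2 ≤ dist y x ∧ dist y x ≤ 3 * r ∧ Crit y x := by
            by_contra hcon
            exact hy ⟨y, h1, fun x h2 h3 h4 => hcon ⟨x, h2, h3, h4⟩⟩
          refine (hcr y ?_).succ h4 (by linarith) (by linarith)
          rw [mem_ball, dist_comm]
          linarith
    obtain ⟨i, hi⟩ := pow_unbounded_of_one_lt (r / r₀) (one_lt_two (α := ℝ))
    exact key i p r hr ((div_lt_iff₀ hr₀).1 hi).le hcr

theorem betti (n a₀ : ℕ) : ∃ B : ℕ,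
    ∀ (k : Type) [Field k] (X : Type) [MetricSpace X] [CompactSpace X], Geo n X →
      ∀ a ≤ a₀, Rk (cyc k (univ : Set X) a) (bdy k univ a) B := by
  obtain ⟨N, hN⟩ := cont_depth n a₀
  obtain ⟨c, hc⟩ := hN (N + 1)
  refine ⟨c, fun k _ X _ _ hX a ha => ?_⟩
  rcases eq_empty_or_nonempty (univ : Set X) with h0 | ⟨p, -⟩
  · exact rk_empty_CG h0 _ c
  · obtain ⟨r, hr, hsub⟩ := (isCompact_univ (X := X)).isBounded.subset_ball_lt 0 p
    refine (hc k X hX 0 p r hr (by omega) (fun y _ => ⟨fun _ => y, fun i hi => ?_,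
      fun i j _ hj => ?_⟩) a ha).mono ((cyc_mono hsub a).trans le_sup_left)
      (bdy_mono (subset_univ _) a) le_rfl
    · omega
    · omega

end RG
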