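import Pool.Agent.P.MP_8a106a_gt.CDefs

/-! Comparison of hinges and packing. -/

set_option autoImplicit false
set_option linter.unusedSectionVars false

noncomputable section

namespace RG

open HK3 Pool.Agent.P.MP_9699e0_gt Pool.Agent.P.MP_8a106a_gt Set Filter Topology Metric

variable {X : Type} [MetricSpace X]

theorem le_of_sq_le_sq_CP {a : ℝ} {x y : X} (h : a ^ 2 ≤ dist x y ^ 2) : a ≤ dist x y :=
  (abs_le_of_sq_le_sq' h dist_nonneg).2

/-- Concavity along `γ'` for the point `γ s`, then along `γ` for the point `z'`. -/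
theorem Gd.hinge {γ γ' : ℝ → X} {x z z' : X} (h : Gd γ x z) (h' : Gd γ' x z') {s t : ℝ}
    (hs : s ∈ Icc (0 : ℝ) 1) (ht : t ∈ Icc (0 : ℝ) 1) :
    s ^ 2 * dist x z ^ 2 + t ^ 2 * dist x z' ^ 2 -
      s * t * (dist x z ^ 2 + dist x z' ^ 2 - dist z z' ^ 2) ≤ dist (γ s) (γ' t) ^ 2 := by
  have h1 := (h'.conc (γ s)).2 (left_mem_Icc.2 zero_le_one) (right_mem_Icc.2 zero_le_one)
    (sub_nonneg.2 ht.2) ht.1 (sub_add_cancel 1 t)
  have h2 := (h.conc z').2 (left_mem_Icc.2 zero_le_one) (right_mem_Icc.2 zero_le_one)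
    (sub_nonneg.2 hs.2) hs.1 (sub_add_cancel 1 s)
  have h3 := h.iso s hs 0 (left_mem_Icc.2 zero_le_one)
  simp only [smul_eq_mul, mul_zero, mul_one, zero_add, h.zero, h.one, h'.zero, h'.one, sub_zero,
    abs_of_nonneg hs.1, dist_comm z' x, dist_comm z' z, dist_comm z' (γ s)] at h1 h2 h3
  rw [h3] at h1
  nlinarith [mul_le_mul_of_nonneg_left h2 ht.1]

/-- The closed unit ball is totally bounded. -/
theorem pack_euc (n : ℕ) {ε : ℝ} (hε : 0 < ε) : ∃ N : ℕ, ∀ (ι : Type) (S : Finset ι)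
    (f : ι → Euc n) (r : ℝ), 0 < r → (∀ i ∈ S, ‖f i‖ ≤ r) →
      (∀ i ∈ S, ∀ j ∈ S, i ≠ j → ε * r ≤ ‖f i - f j‖) → S.card ≤ N := by
  obtain ⟨T, hT, hc⟩ := Metric.totallyBounded_iff.1
    (isCompact_closedBall (0 : Euc n) 1).totallyBounded (ε / 2) (half_pos hε)
  refine ⟨hT.toFinset.card, fun ι S f r hr h1 h2 => ?_⟩
  have h3 : ∀ i, ∃ y, i ∈ S → y ∈ T ∧ dist (r⁻¹ • f i) y < ε / 2 := fun i => by
    by_cases hi : i ∈ S
    · have : r⁻¹ • f i ∈ closedBall (0 : Euc n) 1 := by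
        rw [mem_closedBall_zero_iff, norm_smul, norm_inv, Real.norm_of_nonneg hr.le,
          inv_mul_le_one₀ hr]
        exact h1 i hi
      obtain ⟨y, hy, h⟩ := mem_iUnion₂.1 (hc this)
      exact ⟨y, fun _ => ⟨hy, h⟩⟩
    · exact ⟨0, fun h => absurd h hi⟩
  choose g hg using h3
  refine Finset.card_le_card_of_injOn g (fun i hi => hT.mem_toFinset.2 (hg i hi).1) ?_
  intro i hi j hj hij
  by_contra hne
  have h4 := dist_triangle_right (r⁻¹ • f i) (r⁻¹ • f j) (g j)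
  have h5 := (hg i hi).2
  rw [hij] at h5
  rw [dist_eq_norm, ← smul_sub, norm_smul, norm_inv, Real.norm_of_nonneg hr.le] at h4
  have h6 : ε ≤ r⁻¹ * ‖f i - f j‖ := by
    rw [le_inv_mul_iff₀ hr, mul_comm]
    exact h2 i hi j hj hne
  linarith [(hg j hj).2]

/-- Shrink towards `p` along geodesics by a small factor `t` (`hinge` with `s = t`) and read the
points in the chart at `p` with `η = 1 / 2`. -/
theorem pack (n : ℕ) {ε : ℝ} (hε : 0 < ε) : ∃ N : ℕ, ∀ (X : Type) [MetricSpace X], Geo n X →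
    ∀ (ι : Type) (S : Finset ι) (f : ι → X) (p : X) (r : ℝ), 0 < r →
      (∀ i ∈ S, dist p (f i) ≤ r) →
      (∀ i ∈ S, ∀ j ∈ S, i ≠ j → ε * r ≤ dist (f i) (f j)) → S.card ≤ N := by
  obtain ⟨N, hN⟩ := pack_euc n (ε := ε / 3) (by positivity)
  refine ⟨N, fun X _ hX ι S f p r hr h1 h2 => ?_⟩
  obtain ⟨e, he⟩ := hX.chart p
  choose γ hγ using hX.geod p
  obtain ⟨δ, hδ, hb⟩ := Metric.eventually_nhds_iff.1 (he.lip (1 / 2) one_half_pos)
  obtain ⟨t, ht0, ht1, htr⟩ : ∃ t : ℝ, 0 < t ∧ t ≤ 1 ∧ t * r < δ := by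
    refine ⟨min 1 (δ / (2 * r)), by positivity, min_le_left _ _, ?_⟩
    calc _ ≤ δ / (2 * r) * r := by gcongr; exact min_le_right _ _
      _ = δ / 2 := by field_simp
      _ < δ := half_lt_self hδ
  have ht : t ∈ Icc (0 : ℝ) 1 := ⟨ht0.le, ht1⟩
  have h3 : ∀ i ∈ S, dist (γ (f i) t) p ≤ t * r := fun i hi => by
    have := (hγ (f i)).iso t ht 0 (left_mem_Icc.2 zero_le_one)
    rw [(hγ (f i)).zero, sub_zero, abs_of_pos ht0] at this
    rw [this]
    exact mul_le_mul_of_nonneg_left (h1 i hi) ht0.le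
  refine hN ι S (fun i => e (γ (f i) t) - e p) (2 * (t * r)) (by positivity) (fun i hi => ?_)
    fun i hi j hj hij => ?_
  · have := @hb (γ (f i) t, p) (by
      rw [Prod.dist_eq, dist_self]
      exact max_lt ((h3 i hi).trans_lt htr) hδ)
    linarith [(abs_le.1 this).1, h3 i hi]
  · have h4 := @hb (γ (f i) t, γ (f j) t) (by
      rw [Prod.dist_eq]
      exact max_lt ((h3 i hi).trans_lt htr) ((h3 j hj).trans_lt htr))
    have h5 : t * dist (f i) (f j) ≤ dist (γ (f i) t) (γ (f j) t) :=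
      le_of_sq_le_sq_CP (by linarith [(hγ (f i)).hinge (hγ (f j)) ht ht])
    have h6 := mul_le_mul_of_nonneg_left (h2 i hi j hj hij) ht0.le
    rw [sub_sub_sub_cancel_right]
    linarith [(abs_le.1 h4).2]

/-- Move all points along geodesics to the smallest distance `r` from `y`; by `hinge` they are at
mutual distance at least `r`. -/
theorem pack_angle (n : ℕ) : ∃ N : ℕ, ∀ (X : Type) [MetricSpace X], Geo n X →
    ∀ (ι : Type) (S : Finset ι) (f : ι → X) (y : X), (∀ i ∈ S, f i ≠ y) →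
      (∀ i ∈ S, ∀ j ∈ S, i ≠ j → dist y (f i) ^ 2 + dist y (f j) ^ 2 - dist (f i) (f j) ^ 2 ≤
        dist y (f i) * dist y (f j)) → S.card ≤ N := by
  obtain ⟨N, hN⟩ := pack n one_pos
  refine ⟨N, fun X _ hX ι S f y h1 h2 => ?_⟩
  rcases S.eq_empty_or_nonempty with rfl | hS
  · exact Nat.zero_le N
  have hp : ∀ i ∈ S, 0 < dist y (f i) := fun i hi => dist_pos.2 (h1 i hi).symm
  obtain ⟨r, hr, hm⟩ : ∃ r, 0 < r ∧ ∀ i ∈ S, r ≤ dist y (f i) := by
    obtain ⟨i, hi, hm⟩ := S.exists_min_image (fun i => dist y (f i)) hS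
    exact ⟨_, hp i hi, hm⟩
  choose γ hγ using hX.geod y
  have ht : ∀ i ∈ S, r / dist y (f i) ∈ Icc (0 : ℝ) 1 := fun i hi =>
    ⟨(div_pos hr (hp i hi)).le, (div_le_one (hp i hi)).2 (hm i hi)⟩
  have he : ∀ i ∈ S, r / dist y (f i) * dist y (f i) = r := fun i hi =>
    div_mul_cancel₀ r (hp i hi).ne'
  refine hN X hX ι S (fun i => γ (f i) (r / dist y (f i))) y r hr (fun i hi => ?_)
    fun i hi j hj hij => ?_
  · have := (hγ (f i)).iso _ (ht i hi) 0 (left_mem_Icc.2 zero_le_one)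
    rw [(hγ (f i)).zero, sub_zero, abs_of_nonneg (ht i hi).1, he i hi, dist_comm] at this
    exact this.le
  · have h3 := (hγ (f i)).hinge (hγ (f j)) (ht i hi) (ht j hj)
    have h4 := mul_le_mul_of_nonneg_left (h2 i hi j hj hij) (mul_nonneg (ht i hi).1 (ht j hj).1)
    rw [mul_mul_mul_comm, he i hi, he j hj] at h4
    rw [← mul_pow, ← mul_pow, he i hi, he j hj] at h3
    exact le_of_sq_le_sq_CP (by linarith)

/-- A separated subset of maximal cardinality. -/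
theorem cover_ball (n : ℕ) {ε : ℝ} (hε : 0 < ε) : ∃ N : ℕ, ∀ (X : Type) [MetricSpace X], Geo n X →
    ∀ (p : X) (r : ℝ), 0 < r → ∃ S : Finset X, S.card ≤ N ∧ (∀ x ∈ S, x ∈ ball p r) ∧
      ball p r ⊆ ⋃ x ∈ S, ball x (ε * r) := by
  obtain ⟨N, hN⟩ := pack n hε
  refine ⟨N, fun X _ hX p r hr => ?_⟩
  by_contra hc
  have key : ∀ k : ℕ, ∃ S : Finset X, S.card = k ∧ (∀ x ∈ S, x ∈ ball p r) ∧
      ∀ x ∈ S, ∀ y ∈ S, x ≠ y → ε * r ≤ dist x y := fun k => by
    induction k with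
    | zero => exact ⟨∅, rfl, by simp, by simp⟩
    | succ k ih =>
      obtain ⟨S, hk, h1, h2⟩ := ih
      have h3 := hN X hX X S id p r hr (fun x hx => (mem_ball'.1 (h1 x hx)).le) h2
      obtain ⟨z, hz, h4⟩ := not_subset.1 fun h => hc ⟨S, h3, h1, h⟩
      have h5 : ∀ x ∈ S, ε * r ≤ dist z x := fun x hx =>
        not_lt.1 fun h => h4 (mem_iUnion₂.2 ⟨x, hx, h⟩)
      have h6 : z ∉ S := fun h => by
        have := h5 z h
        rw [dist_self] at this
        exact absurd (mul_pos hε hr) (not_lt.2 this)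
      refine ⟨S.cons z h6, by rw [Finset.card_cons, hk], ?_, ?_⟩
      · exact Finset.forall_mem_cons h6 _ |>.2 ⟨hz, h1⟩
      · intro x hx y hy hxy
        rcases Finset.mem_cons.1 hx with rfl | hx' <;> rcases Finset.mem_cons.1 hy with rfl | hy'
        · exact absurd rfl hxy
        · exact h5 y hy'
        · exact dist_comm y x ▸ h5 x hx'
        · exact h2 x hx' y hy' hxy
  obtain ⟨S, hk, h1, h2⟩ := key (N + 1)
  have := hN X hX X S id p r hr (fun x hx => (mem_ball'.1 (h1 x hx)).le) h2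
  omega

theorem cr_le (n : ℕ) : ∃ N : ℕ, ∀ (X : Type) [MetricSpace X], Geo n X →
    ∀ (t : ℕ) (y : X) (ρ : ℝ), 0 < ρ → Cr t y ρ → t ≤ N := by
  obtain ⟨N, hN⟩ := pack_angle n
  refine ⟨N, fun X _ hX t y ρ hρ ⟨x, h1, h2⟩ => ?_⟩
  have key : ∀ i j, i < j → j < t → dist y (x i) ^ 2 + dist y (x j) ^ 2 - dist (x i) (x j) ^ 2 ≤
      dist y (x i) * dist y (x j) := fun i j hij hj => by
    have h3 := (h1 j hj).1 (x i)
    rw [dist_comm (x j) y, dist_comm (x j) (x i)] at h3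
    nlinarith [mul_le_mul_of_nonneg_right (h2 i j hij hj) (dist_nonneg (x := y) (y := x j))]
  have := hN X hX ℕ (Finset.range t) x y (fun i hi => ?_) fun i hi j hj hij => ?_
  · rwa [Finset.card_range] at this
  · exact (dist_pos.1 (hρ.trans_le (h1 i (Finset.mem_range.1 hi)).2)).symm
  · rcases hij.lt_or_gt with h | h
    · exact key i j h (Finset.mem_range.1 hj)
    · have := key j i h (Finset.mem_range.1 hi)
      rw [dist_comm (x j) (x i)] at this
      linarith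

theorem Cr.mono {t : ℕ} {y : X} {ρ ρ' : ℝ} (h : Cr t y ρ) (hρ : ρ' ≤ ρ) : Cr t y ρ' := by
  obtain ⟨x, h1, h2⟩ := h
  exact ⟨x, fun i hi => ⟨(h1 i hi).1, hρ.trans (h1 i hi).2⟩, h2⟩

theorem Cr.succ {t : ℕ} {y x : X} {ρ ρ' : ℝ} (h : Cr t y ρ) (hx : Crit y x) (h1 : ρ' ≤ dist y x)
    (h2 : 2 * dist y x ≤ ρ) : Cr (t + 1) y ρ' := by
  obtain ⟨z, h3, h4⟩ := h
  refine ⟨fun i => if i < t then z i else x, fun i _ => ?_, fun i j hij hj => ?_⟩
  · dsimp only
    split_ifs with hi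
    · exact ⟨(h3 i hi).1, by linarith [(h3 i hi).2, dist_nonneg (x := y) (y := x)]⟩
    · exact ⟨hx, h1⟩
  · dsimp only
    rw [if_pos (by omega : i < t)]
    split_ifs with hj'
    · exact h4 i j hij hj'
    · exact h2.trans (h3 i (by omega)).2

end RG
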