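import Pool.Agent.P.MP_8a106a_gt.CDefs

/-! Regular points. -/

set_option autoImplicit false
set_option linter.unusedSectionVars false

noncomputable section

namespace RG

open HK3 Pool.Agent.P.MP_9699e0_gt Pool.Agent.P.MP_8a106a_gt Set Filter Topology Metric

variable {X : Type} [MetricSpace X]

/-- Let `F = dist y · ^ 2`, `γ` the geodesic from `x` to a point `z` violating `Crit`. Concavity
gives `F (γ s) - F x ≥ c * s` with `c > 0`. The quotients ` (e (γ s) - e x) / s` are bounded, so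
they tend to some `w` along a sequence, and `F (e.symm (e x + s • w)) - F x ≥ c * s / 2` along it.
Fix such an `s = t₀` with `c * t₀ / 2 > K * t₀ ^ 2 * ‖w‖ ^ 2`. By continuity the inequality
`F (e.symm (u + t₀ • w)) - F (e.symm u) - K * t₀ ^ 2 * ‖w‖ ^ 2 ≥ ρ * t₀` holds for `u` near
`e x`, and semiconcavity on the segment (with `K ≥ 0`) gives the claim. -/
theorem incr_of_not_crit {n : ℕ} (h : Geo n X) {y x : X} (hx : ¬ Crit y x) :
    ∃ (e : OpenPartialHomeomorph X (Euc n)) (w : Euc n) (r ρ t₀ : ℝ), x ∈ e.source ∧ 0 < r ∧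
      0 < ρ ∧ 0 < t₀ ∧ ball (e x) r ⊆ e.target ∧ ∀ u ∈ ball (e x) r, ∀ t ∈ Icc 0 t₀,
        u + t • w ∈ e.target ∧
        dist y (e.symm u) ^ 2 + ρ * t ≤ dist y (e.symm (u + t • w)) ^ 2 := by
  unfold Crit at hx
  push Not at hx
  obtain ⟨z, hz⟩ := hx
  obtain ⟨γ, hγ⟩ := h.geod x z
  obtain ⟨e, he⟩ := h.chart x
  obtain ⟨K, r₀, hr₀, hsub, hK⟩ := he.semi y
  set D := dist x z with hD
  have hD0 : 0 ≤ D := dist_nonneg
  set c := dist y z ^ 2 - D ^ 2 - dist y x ^ 2 with hc
  have hc0 : 0 < c := by rw [hc, dist_comm y x]; linarith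
  have hinc : ∀ s ∈ Icc (0 : ℝ) 1, dist y x ^ 2 + c * s ≤ dist y (γ s) ^ 2 := by
    intro s hs
    have h1 := (hγ.conc y).2 (left_mem_Icc.2 zero_le_one) (right_mem_Icc.2 zero_le_one)
      (sub_nonneg.2 hs.2) hs.1 (sub_add_cancel 1 s)
    simp only [smul_eq_mul, mul_zero, mul_one, zero_add, hγ.zero, hγ.one] at h1
    have : 0 ≤ s ^ 2 * D ^ 2 := by positivity
    rw [hc]
    nlinarith
  have hd : ∀ s ∈ Icc (0 : ℝ) 1, dist (γ s) x = s * D := by
    intro s hs
    have := hγ.iso s hs 0 (left_mem_Icc.2 zero_le_one)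
    rwa [hγ.zero, sub_zero, abs_of_nonneg hs.1] at this
  have hI : ∀ᶠ s in 𝓝[>] (0 : ℝ), s ∈ Ioc (0 : ℝ) 1 := Ioc_mem_nhdsGT zero_lt_one
  have hlin : ∀ a : ℝ, Tendsto (fun s : ℝ => s * a) (𝓝[>] 0) (𝓝 0) := fun a => by
    have : Tendsto (fun s : ℝ => s * a) (𝓝 0) (𝓝 (0 * a)) := tendsto_id.mul_const a
    rw [zero_mul] at this
    exact this.mono_left nhdsWithin_le_nhds
  have htd : Tendsto γ (𝓝[>] 0) (𝓝 x) := by
    rw [tendsto_iff_dist_tendsto_zero]
    exact (hlin D).congr' (hI.mono fun s hs => (hd s ⟨hs.1.le, hs.2⟩).symm)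
  have e1 := htd.eventually (e.open_source.mem_nhds he.mem)
  have e2 := (htd.prodMk_nhds tendsto_const_nhds).eventually (he.lip (1 / 2) (by norm_num))
  have e3 := (hlin (2 * D)).eventually (gt_mem_nhds (half_pos hr₀))
  have e4 := (hlin (|K| * (4 * D ^ 2))).eventually (gt_mem_nhds (half_pos hc0))
  obtain ⟨s, hs, h1, h2, h3, h4⟩ := (hI.and (e1.and (e2.and (e3.and e4)))).exists
  have hs' : s ∈ Icc (0 : ℝ) 1 := ⟨hs.1.le, hs.2⟩
  set v := e (γ s) - e x with hv
  have hvn : ‖v‖ ≤ s * (2 * D) := by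
    simp only at h2
    rw [hd s hs'] at h2
    have := (abs_le.1 h2).1
    linarith
  have hA : |K| * ‖v‖ ^ 2 < c / 2 * s := by
    have h5 : ‖v‖ ^ 2 ≤ (s * (2 * D)) ^ 2 := pow_le_pow_left₀ (norm_nonneg _) hvn 2
    have h6 := mul_le_mul_of_nonneg_left h5 (abs_nonneg K)
    have h7 := mul_lt_mul_of_pos_right h4 hs.1
    nlinarith
  have hxt : e x ∈ e.target := e.map_source he.mem
  have hxv : e x + v = e (γ s) := by rw [hv, add_sub_cancel]
  have hcont : ContinuousAt
      (fun u : Euc n => dist y (e.symm (u + v)) ^ 2 - dist y (e.symm u) ^ 2) (e x) := by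
    have c1 : ContinuousAt (fun u : Euc n => e.symm (u + v)) (e x) :=
      ContinuousAt.comp (f := fun u : Euc n => u + v)
        (e.continuousAt_symm (by rw [hxv]; exact e.map_source h1)) (by fun_prop)
    exact ((continuousAt_const.dist c1).pow 2).sub
      ((continuousAt_const.dist (e.continuousAt_symm hxt)).pow 2)
  have hgt : c / 2 * s + |K| * ‖v‖ ^ 2 <
      dist y (e.symm (e x + v)) ^ 2 - dist y (e.symm (e x)) ^ 2 := by
    rw [hxv, e.left_inv h1, e.left_inv he.mem]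
    have := hinc s hs'
    linarith
  obtain ⟨r₁, hr₁, hb⟩ := Metric.eventually_nhds_iff_ball.1 (hcont.eventually (lt_mem_nhds hgt))
  refine ⟨e, s⁻¹ • v, min r₁ (r₀ / 2), c / 2, s, he.mem, lt_min hr₁ (half_pos hr₀), half_pos hc0,
    hs.1, (ball_subset_ball ((min_le_right _ _).trans (half_le_self hr₀.le))).trans hsub,
    fun u hu t ht => ?_⟩
  have hu1 : u ∈ ball (e x) r₁ := ball_subset_ball (min_le_left _ _) hu
  have hu2 : dist u (e x) < r₀ / 2 := ball_subset_ball (min_le_right _ _) hu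
  have hτ0 : 0 ≤ t * s⁻¹ := mul_nonneg ht.1 (inv_nonneg.2 hs.1.le)
  have hτ1 : t * s⁻¹ ≤ 1 := by rw [mul_inv_le_iff₀ hs.1, one_mul]; exact ht.2
  have hmem : ∀ τ : ℝ, 0 ≤ τ → τ ≤ 1 → u + τ • v ∈ ball (e x) r₀ := by
    intro τ a1 a2
    have a3 : dist (u + τ • v) u ≤ ‖v‖ := by
      rw [dist_self_add_left, norm_smul, Real.norm_of_nonneg a1]
      exact mul_le_of_le_one_left (norm_nonneg _) a2
    have := dist_triangle (u + τ • v) u (e x)
    rw [mem_ball]
    linarith
  rw [smul_smul]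
  refine ⟨hsub (hmem _ hτ0 hτ1), ?_⟩
  have h5 := (hK u (by simpa using hmem 0 le_rfl zero_le_one) (u + v)
    (by simpa using hmem 1 zero_le_one le_rfl)).2 (left_mem_Icc.2 zero_le_one)
    (right_mem_Icc.2 zero_le_one) (sub_nonneg.2 hτ1) hτ0 (sub_add_cancel 1 _)
  simp only [smul_eq_mul, mul_zero, mul_one, zero_add, add_sub_cancel_left, zero_smul, add_zero,
    one_smul] at h5
  have h6 := hb u hu1
  have h7 : t = t * s⁻¹ * s := by rw [mul_assoc, inv_mul_cancel₀ hs.1.ne', mul_one]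
  set τ := t * s⁻¹ with hτ
  have h8 : K * ‖v‖ ^ 2 * (τ * (1 - τ)) ≤ |K| * ‖v‖ ^ 2 * τ := by
    refine (mul_le_mul_of_nonneg_right (mul_le_mul_of_nonneg_right (le_abs_self K) (sq_nonneg _))
      (mul_nonneg hτ0 (sub_nonneg.2 hτ1))).trans (mul_le_mul_of_nonneg_left ?_ (by positivity))
    nlinarith
  have h9 := mul_le_mul_of_nonneg_left h6.le hτ0
  rw [h7]
  nlinarith

/-- `H s a = e.symm (e a - (s * δ * β (e a)) • w)` for `a` in the source with `e a` in the ball,
and `a` otherwise, where `β` is a continuous bump function equal to `1` on the ball of radius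
`r / 4` and `0` outside the ball of radius `r / 2`, and `s` is clamped to `[0, 1]`. -/
theorem mv_of_incr {n : ℕ} (F : X → ℝ) {x : X} (e : OpenPartialHomeomorph X (Euc n)) (w : Euc n)
    {r ρ t₀ : ℝ} (hx : x ∈ e.source) (hr : 0 < r) (hρ : 0 < ρ) (ht : 0 < t₀)
    (hb : ball (e x) r ⊆ e.target)
    (h : ∀ u ∈ ball (e x) r, ∀ t ∈ Icc 0 t₀, F (e.symm u) + ρ * t ≤ F (e.symm (u + t • w))) :
    Mv F x := by
  classical
  let β : Euc n → ℝ := fun u => max 0 (min 1 (2 - 4 / r * dist u (e x)))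
  let σ : ℝ → ℝ := fun s => max 0 (min 1 s)
  have hβc : Continuous β := by fun_prop
  have hσc : Continuous σ := by fun_prop
  have hβ0 : ∀ u, 0 ≤ β u := fun u => le_max_left _ _
  have hβ1 : ∀ u, β u ≤ 1 := fun u => max_le zero_le_one (min_le_left _ _)
  have hσ0 : ∀ s, 0 ≤ σ s := fun s => le_max_left _ _
  have hσ1 : ∀ s, σ s ≤ 1 := fun s => max_le zero_le_one (min_le_left _ _)
  have hr4 : 4 / r * r = 4 := div_mul_cancel₀ _ hr.ne'
  have hr5 : 0 < 4 / r := by positivity
  have hβz : ∀ u, r / 2 ≤ dist u (e x) → β u = 0 := fun u hu =>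
    max_eq_left ((min_le_right _ _).trans (by nlinarith))
  have hβo : ∀ u, dist u (e x) ≤ r / 4 → β u = 1 := fun u hu => by
    have : min 1 (2 - 4 / r * dist u (e x)) = 1 := min_eq_left (by nlinarith)
    simp only [β, this, max_eq_right zero_le_one]
  let Ω : Set X := e.source ∩ e ⁻¹' ball (e x) r
  have hΩ : IsOpen Ω := e.isOpen_inter_preimage isOpen_ball
  obtain ⟨lam, hlam, hl⟩ := Metric.isOpen_iff.1
    (e.isOpen_inter_preimage (isOpen_ball (x := e x) (ε := r / 4))) x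
    ⟨hx, mem_ball_self (by positivity)⟩
  refine ⟨lam, ρ, hlam, hρ, fun η hη => ?_⟩
  have hcb : closedBall (e x) (3 * r / 4) ⊆ e.target :=
    (closedBall_subset_ball (by linarith)).trans hb
  obtain ⟨ε, hε, hu⟩ := Metric.uniformContinuousOn_iff_le.1
    ((isCompact_closedBall (e x) (3 * r / 4)).uniformContinuousOn_of_continuous
      (e.continuousOn_symm.mono hcb)) η hη
  have hlin : Tendsto (fun s : ℝ => s * ‖w‖) (𝓝[>] 0) (𝓝 0) := by
    have : Tendsto (fun s : ℝ => s * ‖w‖) (𝓝 0) (𝓝 (0 * ‖w‖)) := tendsto_id.mul_const _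
    rw [zero_mul] at this
    exact this.mono_left nhdsWithin_le_nhds
  filter_upwards [Ioc_mem_nhdsGT ht, hlin.eventually (gt_mem_nhds hε),
    hlin.eventually (gt_mem_nhds (show 0 < r / 4 by positivity))] with δ hδ hδ1 hδ2
  let τ : ℝ → X → ℝ := fun s a => σ s * β (e a) * δ
  have hτ0 : ∀ s a, 0 ≤ τ s a := fun s a => mul_nonneg (mul_nonneg (hσ0 _) (hβ0 _)) hδ.1.le
  have hτ1 : ∀ s a, τ s a ≤ δ := fun s a =>
    mul_le_of_le_one_left hδ.1.le (mul_le_one₀ (hσ1 _) (hβ0 _) (hβ1 _))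
  have hτz : ∀ s a, r / 2 ≤ dist (e a) (e x) → τ s a = 0 := fun s a ha => by
    simp only [τ, hβz _ ha, mul_zero, zero_mul]
  have hdist : ∀ s a, dist (e a - τ s a • w) (e a) ≤ δ * ‖w‖ := fun s a => by
    rw [dist_self_sub_left, norm_smul, Real.norm_of_nonneg (hτ0 s a)]
    exact mul_le_mul_of_nonneg_right (hτ1 s a) (norm_nonneg _)
  have hin : ∀ s a, dist (e a) (e x) ≤ r / 2 → dist (e a - τ s a • w) (e x) ≤ 3 * r / 4 :=
    fun s a ha => by
      have := dist_triangle (e a - τ s a • w) (e a) (e x)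
      have := hdist s a
      linarith
  have hball : ∀ s, ∀ a ∈ Ω, e a - τ s a • w ∈ ball (e x) r := fun s a ha => by
    rcases le_total (dist (e a) (e x)) (r / 2) with h1 | h1
    · have := hin s a h1
      rw [mem_ball]
      linarith
    · rw [hτz s a h1, zero_smul, sub_zero]
      exact ha.2
  let H : ℝ → X → X := fun s a => if a ∈ Ω then e.symm (e a - τ s a • w) else a
  have hH1 : ∀ s, ∀ a ∈ Ω, H s a = e.symm (e a - τ s a • w) := fun s a ha => if_pos ha
  have hH2 : ∀ s a, τ s a = 0 → H s a = a := fun s a h0 => by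
    by_cases ha : a ∈ Ω
    · rw [hH1 s a ha, h0, zero_smul, sub_zero, e.left_inv ha.1]
    · exact if_neg ha
  have hF : ∀ s, ∀ a ∈ Ω, F (H s a) + ρ * τ s a ≤ F a := fun s a ha => by
    have := h _ (hball s a ha) (τ s a) ⟨hτ0 s a, (hτ1 s a).trans hδ.2⟩
    rwa [sub_add_cancel, e.left_inv ha.1, ← hH1 s a ha] at this
  refine ⟨H, continuous_iff_continuousAt.2 fun p => ?_, fun a => hH2 0 a (by simp [τ, σ]),
    fun s _ a => ?_, fun a => ?_, fun a ha => ?_⟩
  · by_cases hp : p.2 ∈ Ω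
    · have c1 : ContinuousAt (fun q : ℝ × X => e q.2) p :=
        (e.continuousAt hp.1).comp continuousAt_snd
      have c2 : ContinuousAt (fun q : ℝ × X => e q.2 - τ q.1 q.2 • w) p :=
        c1.sub (((((hσc.comp continuous_fst).continuousAt).mul
          (hβc.continuousAt.comp c1)).mul continuousAt_const).smul continuousAt_const)
      have c3 : ContinuousAt (fun q : ℝ × X => e.symm (e q.2 - τ q.1 q.2 • w)) p :=
        ContinuousAt.comp (f := fun q : ℝ × X => e q.2 - τ q.1 q.2 • w)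
          (e.continuousAt_symm (hb (hball _ _ hp))) c2
      refine c3.congr ?_
      filter_upwards [continuousAt_snd.eventually (hΩ.mem_nhds hp)] with q hq
      exact (hH1 _ _ hq).symm
    · have hc2 : closedBall (e x) (r / 2) ⊆ e.target :=
        (closedBall_subset_ball (by linarith)).trans hb
      have hK : IsClosed (e.symm '' closedBall (e x) (r / 2)) :=
        ((isCompact_closedBall _ _).image_of_continuousOn (e.continuousOn_symm.mono hc2)).isClosed
      have hpK : p.2 ∈ (e.symm '' closedBall (e x) (r / 2))ᶜ := by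
        rintro ⟨u, hu1, hu2⟩
        refine hp (hu2 ▸ ⟨e.map_target (hc2 hu1), ?_⟩)
        rw [mem_preimage, e.right_inv (hc2 hu1)]
        exact closedBall_subset_ball (by linarith) hu1
      refine continuousAt_snd.congr ?_
      filter_upwards [continuousAt_snd.eventually (hK.isOpen_compl.mem_nhds hpK)] with q hq
      by_cases hq' : q.2 ∈ Ω
      · refine (hH2 _ _ (hτz _ _ (le_of_not_ge fun h1 => hq ⟨e q.2, h1, e.left_inv hq'.1⟩))).symm
      · exact (if_neg hq').symm
  · by_cases ha : a ∈ Ω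
    · have := hF s a ha
      have := mul_nonneg hρ.le (hτ0 s a)
      linarith
    · exact le_of_eq (congrArg F (if_neg ha))
  · by_cases ha : a ∈ Ω
    · rcases le_total (dist (e a) (e x)) (r / 2) with h1 | h1
      · have := hu _ (hin 1 a h1) (e a) (h1.trans (by linarith)) ((hdist 1 a).trans hδ1.le)
        rwa [e.left_inv ha.1, ← hH1 1 a ha] at this
      · rw [hH2 1 a (hτz 1 a h1), dist_self]
        exact hη.le
    · have : H 1 a = a := if_neg ha
      rw [this, dist_self]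
      exact hη.le
  · obtain ⟨h1, h2⟩ := hl ha
    have h3 : dist (e a) (e x) < r / 4 := h2
    have h4 := hF 1 a ⟨h1, ball_subset_ball (by linarith) h2⟩
    have h5 : τ 1 a = δ := by simp [τ, σ, hβo _ h3.le]
    rw [h5] at h4
    linarith

end RG
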