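import Mathlib

/-! Definitions for the group theoretic part. -/

set_option autoImplicit false

namespace RG

open Subgroup

variable {G : Type} [Group G]

/-- `H` has a cyclic subgroup of index at most `m`. -/
def AC (H : Subgroup G) (m : ℕ) : Prop := ∃ z ∈ H, Nat.card H ≤ m * orderOf z

/-- The order of `u` is a power of `p`. -/
def PE (p : ℕ) (u : G) : Prop := ∃ k : ℕ, u ^ p ^ k = 1

/-- Every subgroup is generated by at most `N` elements. -/
def RkG (G : Type) [Group G] (N : ℕ) : Prop :=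
  ∀ H : Subgroup G, ∃ S : Finset G, S.card ≤ N ∧ closure (S : Set G) = H

/-- All subgroups of prime power order are almost cyclic. -/
def Syl (G : Type) [Group G] (c : ℕ) : Prop :=
  ∀ p : ℕ, p.Prime → ∀ P : Subgroup G, IsPGroup p P → AC P c

/-- Normalisers of cyclic subgroups of prime power order act with exponent dividing `A`. -/
def Aut (G : Type) [Group G] (A : ℕ) : Prop :=
  ∀ p : ℕ, p.Prime → ∀ u x : G, PE p u → x * u * x⁻¹ ∈ zpowers u → Commute (x ^ A) u

/-- No subgroup `Z_q × Z_q` with `q > Q` a prime power. -/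
def NoSq (G : Type) [Group G] (Q : ℕ) : Prop :=
  ∀ p k : ℕ, p.Prime → Q < p ^ k → ∀ g h : G, orderOf g = p ^ k → orderOf h = p ^ k →
    Commute g h → ¬ Disjoint (zpowers g) (zpowers h)

/-- Normalisers of subgroups of prime order `p > Q` act with exponent dividing `A`. -/
def AutP (G : Type) [Group G] (Q A : ℕ) : Prop :=
  ∀ p : ℕ, p.Prime → Q < p → ∀ g x : G, orderOf g = p → x * g * x⁻¹ ∈ zpowers g →
    Commute (x ^ A) g

/-- The standing hypothesis. -/
structure Hyp (G : Type) [Group G] (N c A : ℕ) : Prop where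
  apos : 0 < A
  rank : RkG G N
  syl : Syl G c
  aut : Aut G A

/-- The subgroup generated by the `e`-th powers. -/
def TT (H : Subgroup G) (e : ℕ) : Subgroup G := closure {y | ∃ x ∈ H, y = x ^ e}

/-- `K` is the kernel of a character of `H`. -/
def Cy (K H : Subgroup G) : Prop := K ≤ H ∧ ∃ φ : H →* ℂˣ, ∀ x : H, φ x = 1 ↔ (x : G) ∈ K

/-- The prime `p` is of central type in `H`. -/
def CT (H : Subgroup G) (p A : ℕ) : Prop :=
  ∀ u ∈ H, ∀ x ∈ H, PE p u → x * u * x⁻¹ ∈ zpowers u → (x * u * x⁻¹ * u⁻¹) ^ A = 1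

/-- Elements of `K` of `p`-power order are killed by `b`. -/
def Kl (K : Subgroup G) (p b : ℕ) : Prop := ∀ u ∈ K, PE p u → u ^ b = 1

/-- Depth at most `d`. -/
def Dp (b : ℕ) : ℕ → Subgroup G → Prop
  | 0, K => ∀ p : ℕ, p.Prime → Kl K p b
  | d + 1, K => ∀ p : ℕ, p.Prime → ∀ y ∈ K, PE p y → y ^ b ≠ 1 →
      ∃ K', Cy K' (K ⊓ centralizer {y}) ∧ Dp b d K'

/-- A conjugation invariant family of self-normalising subgroups `H` with a normal cyclic
subgroup `T H` of bounded index, such that large elements lie in exactly one member. -/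
structure Fam (𝓗 : Set (Subgroup G)) (T : Subgroup G → Subgroup G) (a e R : ℕ) : Prop where
  conj : ∀ g : G, ∀ H ∈ 𝓗, H.map (MulAut.conj g).toMonoidHom ∈ 𝓗
  conjT : ∀ (g : G) (H : Subgroup G),
    T (H.map (MulAut.conj g).toMonoidHom) = (T H).map (MulAut.conj g).toMonoidHom
  self : ∀ H ∈ 𝓗, ∀ g : G, H.map (MulAut.conj g).toMonoidHom = H → g ∈ H
  cyc : ∀ H ∈ 𝓗, ∃ t ∈ H, T H = zpowers t ∧ Nat.card H ≤ a * orderOf t ∧ t ^ R ≠ 1
  pow : ∀ H ∈ 𝓗, ∀ x ∈ H, x ^ e ∈ T H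
  uniq : ∀ H ∈ 𝓗, ∀ H' ∈ 𝓗, ∀ x ∈ H, x ∈ H' → x ^ R ≠ 1 → H = H'
  ex : ∀ x : G, x ^ (e * R) ≠ 1 → ∃ H ∈ 𝓗, centralizer {x} ≤ H

end RG
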