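import Pool.Agent.P.MP_8a106a_gt.CP
import Pool.Agent.P.MP_8a106a_gt.GDefs

/-! Short generators. -/

set_option autoImplicit false
set_option linter.unusedSectionVars false

noncomputable section

namespace RG

open HK3 Pool.Agent.P.MP_9699e0_gt Pool.Agent.P.MP_8a106a_gt Set Filter Topology Metric

variable {X : Type} [MetricSpace X]

/-- Put `|g| = dist x (g • x)`. Among the generating sets of `H` take one with the least number of
elements and then the least sum of lengths. It does not contain `1`, and if `|g| ≤ |h|` for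
distinct members then `|h| ≤ |g⁻¹ h|`, otherwise replace `h` by `g⁻¹ h`. Apply `pack_angle`. -/
theorem rkG_of_geo (n : ℕ) : ∃ N : ℕ, ∀ (X : Type) [MetricSpace X] [Nonempty X], Geo n X →
    ∀ (Γ : Type) [Group Γ] [Finite Γ] [MulAction Γ X],
      (∀ (g : Γ) (x y : X), dist (g • x) (g • y) = dist x y) →
      (∀ (g : Γ) (x : X), g • x = x → g = 1) → RkG Γ N := by
  classical
  obtain ⟨N, hN⟩ := pack_angle n
  refine ⟨N, fun X _ _ hX Γ _ _ _ hiso hfree H => ?_⟩
  obtain ⟨x⟩ : Nonempty X := inferInstance
  have := Fintype.ofFinite Γ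
  obtain ⟨S, hS, hmin⟩ := Set.exists_min_image
    {S : Finset Γ | Subgroup.closure (S : Set Γ) = H} (fun S => ∑ g ∈ S, (1 + dist x (g • x)))
    (Set.toFinite _) ⟨(H : Set Γ).toFinset, by simp⟩
  have hS' : Subgroup.closure (S : Set Γ) = H := hS
  have hmem : ∀ g ∈ S, g ∈ H := fun g hg => hS' ▸ Subgroup.subset_closure hg
  have h1 : (1 : Γ) ∉ S := fun h1 => by
    have h2 := hmin (S.erase 1) (by
      change Subgroup.closure _ = H
      rw [Finset.coe_erase, Subgroup.closure_sdiff_one, hS'])
    rw [← Finset.add_sum_erase S _ h1] at h2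
    have := dist_nonneg (x := x) (y := (1 : Γ) • x)
    linarith
  have h2 : ∀ g ∈ S, ∀ h ∈ S, g ≠ h → dist x (h • x) ≤ dist (g • x) (h • x) := by
    intro g hg h hh hne
    have e : dist (g • x) (h • x) = dist x ((g⁻¹ * h) • x) := by
      rw [← hiso g⁻¹, inv_smul_smul, mul_smul]
    have h3 := hmin (insert (g⁻¹ * h) (S.erase h)) (by
      change Subgroup.closure _ = H
      refine le_antisymm ((Subgroup.closure_le _).2 fun a ha => ?_) ?_
      · rcases Finset.mem_insert.1 (Finset.mem_coe.1 ha) with rfl | ha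
        · exact H.mul_mem (H.inv_mem (hmem g hg)) (hmem h hh)
        · exact hmem a (Finset.mem_of_mem_erase ha)
      · rw [← hS']
        refine (Subgroup.closure_le _).2 fun a ha => ?_
        by_cases hah : a = h
        · have e1 : a = g * (g⁻¹ * h) := by rw [hah, mul_inv_cancel_left]
          rw [e1]
          refine Subgroup.mul_mem _ (Subgroup.subset_closure ?_) (Subgroup.subset_closure ?_)
          · exact Finset.mem_coe.2 (Finset.mem_insert_of_mem (Finset.mem_erase.2 ⟨hne, hg⟩))
          · exact Finset.mem_coe.2 (Finset.mem_insert_self _ _)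
        · exact Subgroup.subset_closure (Finset.mem_coe.2
            (Finset.mem_insert_of_mem (Finset.mem_erase.2 ⟨hah, ha⟩))))
    have h4 : ∑ a ∈ insert (g⁻¹ * h) (S.erase h), (1 + dist x (a • x)) ≤
        (1 + dist x ((g⁻¹ * h) • x)) + ∑ a ∈ S.erase h, (1 + dist x (a • x)) := by
      by_cases hm : g⁻¹ * h ∈ S.erase h
      · rw [Finset.insert_eq_of_mem hm]
        have := dist_nonneg (x := x) (y := (g⁻¹ * h) • x)
        linarith
      · rw [Finset.sum_insert hm]
    rw [← Finset.add_sum_erase S _ hh] at h3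
    linarith
  refine ⟨S, hN X hX Γ S (fun g => g • x) x (fun g hg h => h1 (hfree g x h ▸ hg))
    fun g hg h hh hne => ?_, hS'⟩
  have a1 := h2 g hg h hh hne
  have a2 := h2 h hh g hg hne.symm
  rw [dist_comm (h • x)] at a2
  have b1 := dist_nonneg (x := x) (y := g • x)
  have b2 := dist_nonneg (x := x) (y := h • x)
  rcases le_total (dist x (g • x)) (dist x (h • x)) with h3 | h3 <;> nlinarith

end RG
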