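import Mathlib

/-! Definitions used in the statement: the sectional curvature of a Riemannian metric, computed in
charts. -/

set_option autoImplicit false

namespace Pool.Agent.P.MP_8a106a_gt

open scoped Manifold ContDiff

noncomputable section

section

variable {E : Type} [NormedAddCommGroup E] [NormedSpace ℝ E]

/-- The Christoffel symbol `Γ_u(v, w)` of a field `G` of bilinear forms: the vector with
`G_u(Γ_u(v, w), z) = (∂_v G(w, z) + ∂_w G(v, z) - ∂_z G(v, w)) / 2` for all `z`. -/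
def chr (G : E → E →L[ℝ] E →L[ℝ] ℝ) (u v w : E) : E :=
  (G u).inverse ((1 / 2 : ℝ) •
    (fderiv ℝ G u v w + fderiv ℝ G u w v - ((fderiv ℝ G u).flip v).flip w))

/-- The curvature tensor
`R_u(v, w) z = ∂_v Γ(w, z) - ∂_w Γ(v, z) + Γ(v, Γ(w, z)) - Γ(w, Γ(v, z))`. -/
def riem (G : E → E →L[ℝ] E →L[ℝ] ℝ) (u v w z : E) : E :=
  fderiv ℝ (fun x => chr G x w z) u v - fderiv ℝ (fun x => chr G x v z) u w +
    chr G u v (chr G u w z) - chr G u w (chr G u v z)

end

/-- `ℝⁿ`. -/
abbrev Euc (n : ℕ) : Type := EuclideanSpace ℝ (Fin n)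

variable {n : ℕ} {M : Type} [TopologicalSpace M] [ChartedSpace (Euc n) M] [IsManifold (𝓡 n) ∞ M]

/-- The metric `g` read in the chart at `x`: its pull-back under the inverse of the chart. -/
def chartMetric
    (g : Bundle.ContMDiffRiemannianMetric (𝓡 n) ∞ (Euc n) (TangentSpace (𝓡 n) : M → Type))
    (x : M) (u : Euc n) : Euc n →L[ℝ] Euc n →L[ℝ] ℝ :=
  ContinuousLinearMap.bilinearComp (E := Euc n) (F := Euc n)
    (g.inner ((chartAt (Euc n) x).symm u))
    (mfderiv (𝓡 n) (𝓡 n) (chartAt (Euc n) x).symm u)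
    (mfderiv (𝓡 n) (𝓡 n) (chartAt (Euc n) x).symm u)

/-- Positive sectional curvature: `g(R(v, w) w, v) > 0` for linearly independent `v`, `w`, at every
point of every chart. -/
def PosSec
    (g : Bundle.ContMDiffRiemannianMetric (𝓡 n) ∞ (Euc n) (TangentSpace (𝓡 n) : M → Type)) :
    Prop :=
  ∀ x : M, ∀ u ∈ (chartAt (Euc n) x).target, ∀ v w : Euc n, LinearIndependent ℝ ![v, w] →
    0 < chartMetric g x u (riem (chartMetric g x) u v w w) v

end

end Pool.Agent.P.MP_8a106a_gt
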