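import Pool.Agent.P.MP_8a106a_gt.EDefs

/-! Square matrices over a truncated polynomial ring. -/

set_option autoImplicit false
set_option linter.unusedSectionVars false

noncomputable section

namespace RG

open Module LinearMap

open MvPolynomial in
/-- If the determinant has no constant term it has a prime factor without constant term, which
cannot divide `u`, so it divides both variables. -/
theorem det_unit {k : Type} [Field k] {δ u : MvPolynomial (Fin 2) k} {N : ℕ}
    (hu : constantCoeff u = 1) (h0 : δ ∣ (u * X 0) ^ N) (h1 : δ ∣ (u * X 1) ^ N) :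
    constantCoeff δ ≠ 0 := by
  have hu0 : u ≠ 0 := by
    rintro rfl
    simp at hu
  induction δ using UniqueFactorizationMonoid.induction_on_prime with
  | h₁ =>
    exact absurd (zero_dvd_iff.1 h0) (pow_ne_zero _ (mul_ne_zero hu0 (X_ne_zero _)))
  | h₂ x hx => exact (hx.map constantCoeff).ne_zero
  | h₃ a p ha hp ih =>
    rw [map_mul]
    refine mul_ne_zero ?_ (ih ((Dvd.intro_left _ rfl).trans h0) ((Dvd.intro_left _ rfl).trans h1))
    intro hc
    have key : ∀ i : Fin 2, p * a ∣ (u * X i) ^ N → p ∣ X i := by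
      intro i hi
      rcases hp.dvd_or_dvd (hp.dvd_of_dvd_pow ((Dvd.intro _ rfl).trans hi)) with h | h
      · have h2 := map_dvd (constantCoeff : MvPolynomial (Fin 2) k →+* k) h
        rw [hc, hu] at h2
        simp at h2
      · exact h
    have h2 : Associated p (X 0 : MvPolynomial (Fin 2) k) :=
      hp.associated_of_dvd X_prime (key 0 h0)
    have h3 := X_dvd_X.1 (h2.symm.dvd.trans (key 1 h1))
    exact absurd h3 (by decide)

theorem pow_smul_mem_EA1 {k R V : Type} [Field k] [CommRing R] [Algebra k R] [AddCommGroup V]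
    [Module R V] [Module k V] [IsScalarTower k R V] [Module.Finite k V] (p : Submodule R V)
    {x : R} (hx : IsNilpotent x) {n : ℕ} (h : finrank k V ≤ finrank k p + n) (v : V) :
    x ^ n • v ∈ p := by
  have e := Submodule.Quotient.restrictScalarsEquiv k p
  have : Module.Finite k (V ⧸ p) := Module.Finite.equiv e
  have h1 : finrank k (V ⧸ p) ≤ n := by
    have h2 := Submodule.finrank_quotient_add_finrank (p.restrictScalars k)
    have h3 : finrank k (p.restrictScalars k) = finrank k p := rfl
    rw [e.finrank_eq, h3] at h2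
    omega
  obtain ⟨m, hm⟩ := hx
  let T : Module.End k (V ⧸ p) := Algebra.lsmul k k (V ⧸ p) x
  have h4 : p.mkQ v ∈ ker (T ^ m) := by
    simp only [T, ← map_pow, hm, map_zero, ker_zero, Submodule.mem_top]
  have h5 := Module.End.ker_pow_le_ker_pow_finrank T m h4
  rw [← Module.End.ker_pow_eq_ker_pow_finrank_of_le h1] at h5
  simp only [T, ← map_pow, mem_ker, Algebra.lsmul_coe] at h5
  rw [← map_smul, Submodule.mkQ_apply, Submodule.Quotient.mk_eq_zero] at h5
  exact h5

open MvPolynomial in
theorem nil_EA1 {k R : Type} [Field k] [CommRing R] [Algebra k R]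
    (φ : MvPolynomial (Fin 2) k →ₐ[k] R) (hn : ∀ i, IsNilpotent (φ (X i)))
    (f : MvPolynomial (Fin 2) k) : IsNilpotent (φ f - algebraMap k R (constantCoeff f)) := by
  induction f using MvPolynomial.induction_on with
  | C a => simp
  | add f g hf hg =>
    have h := (Commute.all _ _).isNilpotent_add hf hg
    have e : φ (f + g) - algebraMap k R (constantCoeff (f + g)) =
        φ f - algebraMap k R (constantCoeff f) + (φ g - algebraMap k R (constantCoeff g)) := by
      simp only [map_add]
      ring
    rwa [e]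
  | mul_X f i hf =>
    simp only [map_mul, constantCoeff_X, map_zero, mul_zero, sub_zero]
    exact (Commute.all _ _).isNilpotent_mul_left (hn i)

open MvPolynomial in
/-- Let `m = span {X 0, X 1}` and `Q` the cokernel. The chain `m ^ j Q` decreases strictly until it
vanishes (`m` acts nilpotently), so `m ^ (q - 1) Q = 0`. Lift the matrix of `ψ` to `Ψ`; then
`m ^ (q - 1) S ^ r ≤ range Ψ ⊔ m • m ^ (q - 1) S ^ r`, and Nakayama
(`Submodule.exists_sub_one_mem_and_smul_le_of_fg_of_le_sup` or
`exists_sub_one_mem_and_smul_eq_zero_of_fg_of_le_smul`) gives `u` with `u - 1 ∈ m` and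
`Ψ * A = u * X i ^ (q - 1)`. By `det_unit` the determinant of `ψ` is a nonzero constant plus a
nilpotent element. -/
theorem sq_surj {k R : Type} [Field k] [CommRing R] [Algebra k R] [Module.Finite k R] {q : ℕ}
    (φ : MvPolynomial (Fin 2) k →ₐ[k] R) (hs : Function.Surjective φ)
    (hk : ∀ f, φ f = 0 ↔ f ∈ Ideal.span ({X 0 ^ q, X 1 ^ q} : Set (MvPolynomial (Fin 2) k)))
    (r : ℕ) (ψ : (Fin r → R) →ₗ[R] (Fin r → R))
    (h : finrank k (Fin r → R) < finrank k (range ψ) + q) : Function.Surjective ψ := by
  classical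
  obtain ⟨q, rfl⟩ : ∃ q', q = q' + 1 := by
    have h2 : finrank k (range ψ) ≤ finrank k (Fin r → R) :=
      Submodule.finrank_le ((range ψ).restrictScalars k)
    exact ⟨q - 1, by omega⟩
  have hn : ∀ i, IsNilpotent (φ (X i)) := by
    intro i
    refine ⟨q + 1, ?_⟩
    rw [← map_pow, hk]
    apply Ideal.subset_span
    fin_cases i <;> simp
  have hp : ∀ i v, φ (X i) ^ q • v ∈ range ψ := fun i v =>
    pow_smul_mem_EA1 (k := k) (range ψ) (hn i) (by omega) v
  let M := LinearMap.toMatrix' ψ
  choose g hg using hs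
  let Ψ : Matrix (Fin r) (Fin r) (MvPolynomial (Fin 2) k) := M.map g
  have hΨ : Ψ.map φ = M := by
    ext i j
    simp [Ψ, hg]
  have hM : ∀ w, ψ w = M.mulVec w := fun w => by simp [M]
  have hv : ∀ W : Fin r → MvPolynomial (Fin 2) k,
      ψ (fun i => φ (W i)) = fun i => φ (Ψ.mulVec W i) := by
    intro W
    funext i
    rw [hM, ← hΨ]
    exact (RingHom.map_mulVec (φ : MvPolynomial (Fin 2) k →+* R) Ψ W i).symm
  let I : Ideal (MvPolynomial (Fin 2) k) := Ideal.span {X 0 ^ q, X 1 ^ q}
  let N : Submodule (MvPolynomial (Fin 2) k) (Fin r → MvPolynomial (Fin 2) k) :=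
    Submodule.pi Set.univ (fun _ => I)
  let m : Ideal (MvPolynomial (Fin 2) k) := RingHom.ker constantCoeff
  have hN : N ≤ range Ψ.mulVecLin ⊔ m • N := by
    intro v hvN
    have h1 : ∀ i, ∃ a b, a * X 0 ^ q + b * X 1 ^ q = v i := fun i =>
      Ideal.mem_span_pair.1 (hvN i (Set.mem_univ _))
    choose a b hab using h1
    have h2 : (fun i => φ (v i)) ∈ range ψ := by
      have e : (fun i => φ (v i)) =
          φ (X 0) ^ q • (fun i => φ (a i)) + φ (X 1) ^ q • (fun i => φ (b i)) := by
        funext i
        simp only [← hab i, map_add, map_mul, map_pow, Pi.add_apply, Pi.smul_apply, smul_eq_mul]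
        ring
      rw [e]
      exact Submodule.add_mem _ (hp 0 _) (hp 1 _)
    obtain ⟨w, hw⟩ := h2
    have h3 : ∀ i, ∃ c d, c * X 0 ^ (q + 1) + d * X 1 ^ (q + 1) =
        v i - Ψ.mulVec (fun j => g (w j)) i := by
      intro i
      apply Ideal.mem_span_pair.1
      rw [← hk, map_sub, sub_eq_zero]
      have h4 := congrFun (hv (fun j => g (w j))) i
      simp only [hg] at h4
      rw [← h4]
      exact (congrFun hw i).symm
    choose c d hcd using h3
    have e : v = Ψ.mulVecLin (fun j => g (w j)) +
        ((X 0 : MvPolynomial (Fin 2) k) • (fun i => c i * X 0 ^ q) +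
          (X 1 : MvPolynomial (Fin 2) k) • (fun i => d i * X 1 ^ q)) := by
      funext i
      simp only [Matrix.mulVecLin_apply, Pi.add_apply, Pi.smul_apply, smul_eq_mul]
      linear_combination -hcd i
    rw [e]
    refine Submodule.add_mem_sup (mem_range_self _ _) (Submodule.add_mem _ ?_ ?_)
    · refine Submodule.smul_mem_smul (by simp [m]) (fun i _ => ?_)
      exact Ideal.mul_mem_left _ _ (Ideal.subset_span (by simp))
    · refine Submodule.smul_mem_smul (by simp [m]) (fun i _ => ?_)
      exact Ideal.mul_mem_left _ _ (Ideal.subset_span (by simp))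
  obtain ⟨u, hu1, hu2⟩ := Submodule.exists_sub_one_mem_and_smul_le_of_fg_of_le_sup
    (IsNoetherian.noetherian N) le_rfl hN
  have hu : constantCoeff u = 1 := by
    have h1 : constantCoeff (u - 1) = 0 := hu1
    rwa [map_sub, map_one, sub_eq_zero] at h1
  have hd : ∀ i : Fin 2, Ψ.det ∣ (u * X i) ^ ((q + 1) * r) := by
    intro i
    have h1 : ∀ j : Fin r, ∃ a, Ψ.mulVec a = Pi.single j (u * X i ^ q) := by
      intro j
      have h2 : Pi.single j (X i ^ q) ∈ N := by
        intro l _
        by_cases hl : l = j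
        · subst hl
          rw [Pi.single_eq_same]
          apply Ideal.subset_span
          fin_cases i <;> simp
        · rw [Pi.single_eq_of_ne hl]
          exact I.zero_mem
      obtain ⟨a, ha⟩ := hu2 (Submodule.smul_mem_pointwise_smul _ u N h2)
      refine ⟨a, ?_⟩
      rw [← smul_eq_mul, Pi.single_smul]
      exact ha
    choose A hA using h1
    have h2 : Ψ * Matrix.of (fun l j => A j l) = Matrix.diagonal (fun _ => u * X i ^ q) := by
      ext1 l j
      have h3 := congrFun (hA j) l
      rw [Matrix.diagonal_apply, ← Pi.single_apply, ← h3]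
      rfl
    have h3 := congrArg Matrix.det h2
    rw [Matrix.det_mul, Matrix.det_diagonal, Finset.prod_const, Finset.card_univ,
      Fintype.card_fin] at h3
    refine (Dvd.intro _ h3).trans ?_
    rw [pow_mul]
    exact pow_dvd_pow_of_dvd ⟨u ^ q * X i, by ring⟩ r
  have h1 := det_unit hu (hd 0) (hd 1)
  have h2 : IsUnit (φ Ψ.det) := by
    have h3 := (nil_EA1 φ hn Ψ.det).isUnit_add_right_of_commute
      ((IsUnit.mk0 _ h1).map (algebraMap k R)) (Commute.all _ _)
    simpa using h3
  have h3 : IsUnit M := by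
    rw [Matrix.isUnit_iff_isUnit_det, ← hΨ]
    have h4 := AlgHom.map_det φ Ψ
    rw [h4] at h2
    exact h2
  have h4 := Matrix.mulVec_surjective_iff_isUnit.2 h3
  intro y
  obtain ⟨w, hw⟩ := h4 y
  exact ⟨w, (hM w).trans hw⟩

end RG
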