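import Pool.Agent.P.MP_8a106a_gt.EA1

/-! The group algebra of the square of a cyclic group of prime power order. -/

set_option autoImplicit false
set_option linter.unusedSectionVars false

noncomputable section

namespace RG

open Module LinearMap

/-- Extend the coefficient of `1` to a `k`-linear form `λ` and put
`f n = ∑ g, single g (λ (g⁻¹ • n))`. -/
theorem inj_group (k G : Type) [Field k] [CommGroup G] [Finite G] :
    Module.Injective (MonoidAlgebra k G) (MonoidAlgebra k G) := by
  classical
  have := Fintype.ofFinite G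
  refine Module.Baer.injective fun I f => ?_
  let c1 : MonoidAlgebra k G →ₗ[k] k := Finsupp.lapply 1 ∘ₗ (MonoidAlgebra.coeffLinearEquiv k).toLinearMap
  have hc1 : ∀ z, c1 z = z.coeff 1 := fun _ => rfl
  obtain ⟨l, hl⟩ := LinearMap.exists_extend (p := I.restrictScalars k)
    (c1 ∘ₗ (f.restrictScalars k : I →ₗ[k] MonoidAlgebra k G))
  have hl' : ∀ x (hx : x ∈ I), l x = (f ⟨x, hx⟩).coeff 1 := fun x hx =>
    LinearMap.congr_fun hl ⟨x, hx⟩
  let c : MonoidAlgebra k G := ∑ a : G, MonoidAlgebra.single a⁻¹ (l (MonoidAlgebra.single a 1))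
  have hc : ∀ z, (z * c).coeff 1 = l z := fun z => by
    induction z using MonoidAlgebra.induction_linear with
    | zero => simp
    | add a b ha hb => rw [add_mul, MonoidAlgebra.coeff_add, Finsupp.add_apply, ha, hb, map_add]
    | single a r =>
      rw [MonoidAlgebra.coeff_single_mul_apply, mul_one, MonoidAlgebra.coeff_sum,
        Finsupp.finsetSum_apply, Finset.sum_eq_single a, MonoidAlgebra.coeff_single,
        Finsupp.single_eq_same, ← smul_eq_mul, ← map_smul, MonoidAlgebra.smul_single', mul_one]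
      · intro b _ hb
        rw [MonoidAlgebra.coeff_single, Finsupp.single_eq_of_ne (by simpa using hb.symm)]
      · simp
  refine ⟨LinearMap.toSpanSingleton _ _ c, fun x hx => ?_⟩
  rw [LinearMap.toSpanSingleton_apply, smul_eq_mul, ← MonoidAlgebra.coeff_inj]
  ext a
  have h1 := hl' _ (I.mul_mem_left (MonoidAlgebra.single a⁻¹ 1) hx)
  have h2 : (⟨_, I.mul_mem_left (MonoidAlgebra.single a⁻¹ 1) hx⟩ : I) =
      (MonoidAlgebra.single a⁻¹ 1 : MonoidAlgebra k G) • (⟨x, hx⟩ : I) := rfl
  rw [h2, map_smul, ← hc, smul_eq_mul, mul_assoc, MonoidAlgebra.coeff_single_mul_apply,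
    MonoidAlgebra.coeff_single_mul_apply] at h1
  simpa using h1

open MvPolynomial in
theorem ker_EA2 {k R : Type} [Field k] [CommRing R] [Algebra k R] [Module.Finite k R] {q : ℕ}
    (φ : MvPolynomial (Fin 2) k →ₐ[k] R) (hs : Function.Surjective φ) (hd : finrank k R = q ^ 2)
    (h0 : φ (X 0) ^ q = 0) (h1 : φ (X 1) ^ q = 0) (f : MvPolynomial (Fin 2) k) :
    φ f = 0 ↔ f ∈ Ideal.span ({X 0 ^ q, X 1 ^ q} : Set (MvPolynomial (Fin 2) k)) := by
  classical
  set J := Ideal.span ({X 0 ^ q, X 1 ^ q} : Set (MvPolynomial (Fin 2) k)) with hJ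
  have hJ0 : ∀ f ∈ J, φ f = 0 := fun f hf => by
    obtain ⟨a, b, rfl⟩ := Ideal.mem_span_pair.1 hf
    simp [h0, h1]
  refine ⟨fun hf => ?_, hJ0 f⟩
  let S : (Fin q × Fin q → k) →ₗ[k] MvPolynomial (Fin 2) k :=
    Fintype.linearCombination k fun ij => X 0 ^ (ij.1 : ℕ) * X 1 ^ (ij.2 : ℕ)
  have hS : ∀ f, ∃ c, f - S c ∈ J := fun f => by
    induction f using MvPolynomial.induction_on' with
    | add a b ha hb =>
      obtain ⟨c, hc⟩ := ha
      obtain ⟨c', hc'⟩ := hb
      exact ⟨c + c', by rw [map_add, ← sub_add_sub_comm]; exact add_mem hc hc'⟩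
    | monomial s a =>
      rw [monomial_eq, Finsupp.prod_fintype _ _ fun _ => pow_zero _, Fin.prod_univ_two]
      by_cases e0 : s 0 < q
      · by_cases e1 : s 1 < q
        · refine ⟨Pi.single (⟨_, e0⟩, ⟨_, e1⟩) a, ?_⟩
          simp only [S]
          rw [Fintype.linearCombination_apply_single, smul_eq_C_mul, sub_self]
          exact zero_mem _
        · obtain ⟨n, hn⟩ := Nat.exists_eq_add_of_le (not_lt.1 e1)
          refine ⟨0, Ideal.mem_span_pair.2 ⟨0, C a * X 0 ^ s 0 * X 1 ^ n, ?_⟩⟩
          rw [hn, map_zero S]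
          ring
      · obtain ⟨n, hn⟩ := Nat.exists_eq_add_of_le (not_lt.1 e0)
        refine ⟨0, Ideal.mem_span_pair.2 ⟨C a * X 0 ^ n * X 1 ^ s 1, 0, ?_⟩⟩
        rw [hn, map_zero S]
        ring
  have hS' : ∀ f c, f - S c ∈ J → (φ.toLinearMap ∘ₗ S) c = φ f := fun f c hc => by
    have := hJ0 _ hc
    rw [map_sub, sub_eq_zero] at this
    exact this.symm
  have hi : Function.Injective (φ.toLinearMap ∘ₗ S) := by
    rw [LinearMap.injective_iff_surjective_of_finrank_eq_finrank (by simp [hd, sq])]
    intro z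
    obtain ⟨f, rfl⟩ := hs z
    obtain ⟨c, hc⟩ := hS f
    exact ⟨c, hS' f c hc⟩
  obtain ⟨c, hc⟩ := hS f
  have := hS' f c hc
  rw [hf, map_eq_zero_iff _ hi] at this
  simpa [this] using hc

/-- The map `φ` sending the variables to `g - 1`, `h - 1` is onto and kills the `q`-th powers
(`sub_pow_char_pow`); the quotient by the `q`-th powers is spanned by `q ^ 2` monomials, so this is
the kernel. Every element is a constant plus a nilpotent. The span of `g - 1`, `h - 1` is the
augmentation ideal; an element killed by both has constant coefficients. -/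
theorem trunc_group (p m : ℕ) [Fact p.Prime] (G : Type) [CommGroup G] [Finite G] {g h : G}
    (hg : g ^ p ^ m = 1) (hh : h ^ p ^ m = 1) (hc : Nat.card G = (p ^ m) ^ 2)
    (hgen : Subgroup.closure {g, h} = ⊤) :
    Trunc (ZMod p) (MonoidAlgebra (ZMod p) G) (p ^ m)
      (MonoidAlgebra.of (ZMod p) G g - 1) (MonoidAlgebra.of (ZMod p) G h - 1) := by
  set x := MonoidAlgebra.of (ZMod p) G g - 1 with hx
  set y := MonoidAlgebra.of (ZMod p) G h - 1 with hy
  have fin : Module.Finite (ZMod p) (MonoidAlgebra (ZMod p) G) :=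
    Module.Finite.of_basis (MonoidAlgebra.basis G (ZMod p))
  have dim : finrank (ZMod p) (MonoidAlgebra (ZMod p) G) = (p ^ m) ^ 2 := by
    rw [Module.finrank_eq_nat_card_basis (MonoidAlgebra.basis G (ZMod p)), hc]
  have : CharP (MonoidAlgebra (ZMod p) G) p :=
    charP_of_injective_algebraMap (algebraMap (ZMod p) (MonoidAlgebra (ZMod p) G)).injective p
  have x0 : x ^ p ^ m = 0 := by rw [hx, sub_pow_char_pow, ← map_pow, hg, map_one, one_pow, sub_self]
  have y0 : y ^ p ^ m = 0 := by rw [hy, sub_pow_char_pow, ← map_pow, hh, map_one, one_pow, sub_self]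
  let ε : MonoidAlgebra (ZMod p) G →ₐ[ZMod p] ZMod p := MonoidAlgebra.lift (ZMod p) (ZMod p) G 1
  have hε : ∀ a r, ε (MonoidAlgebra.single a r) = r := fun a r => by simp [ε]
  have top : ∀ a : G, a ∈ Subgroup.closure {g, h} := fun a => hgen ▸ Subgroup.mem_top a
  have hI : ∀ a : G, MonoidAlgebra.of (ZMod p) G a - 1 ∈ Ideal.span {x, y} := fun a => by
    induction top a using Subgroup.closure_induction with
    | mem a ha =>
      rcases ha with rfl | rfl
      · exact Ideal.subset_span (Or.inl rfl)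
      · exact Ideal.subset_span (Or.inr rfl)
    | one => simp [← MonoidAlgebra.one_def]
    | mul a b _ _ ha hb =>
      convert add_mem (Ideal.mul_mem_left _ (MonoidAlgebra.of (ZMod p) G a) hb) ha using 1
      rw [map_mul]
      ring
    | inv a _ ha =>
      convert Ideal.mul_mem_left _ (-MonoidAlgebra.of (ZMod p) G a⁻¹) ha using 1
      rw [neg_mul, mul_sub, ← map_mul, inv_mul_cancel, map_one]
      ring
  have hI' : ∀ z, z - algebraMap (ZMod p) _ (ε z) ∈ Ideal.span {x, y} := fun z => by
    induction z using MonoidAlgebra.induction_linear with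
    | zero => simp
    | add a b ha hb =>
      rw [map_add, map_add, ← sub_add_sub_comm]
      exact add_mem ha hb
    | single a r =>
      convert Ideal.mul_mem_left _ (algebraMap (ZMod p) _ r) (hI a) using 1
      rw [hε, MonoidAlgebra.single_eq_algebraMap_mul_of]
      ring
  have hK : ∀ z, z ∈ Ideal.span {x, y} ↔ ε z = 0 := fun z => by
    refine ⟨fun hz => ?_, fun hz => by simpa [hz] using hI' z⟩
    obtain ⟨a, b, rfl⟩ := Ideal.mem_span_pair.1 hz
    simp [hx, hy, hε]
  have nil : ∀ z ∈ Ideal.span {x, y}, IsNilpotent z := fun z hz => by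
    obtain ⟨a, b, rfl⟩ := Ideal.mem_span_pair.1 hz
    exact (Commute.all _ _).isNilpotent_add
      ((Commute.all _ _).isNilpotent_mul_left ⟨_, x0⟩) ((Commute.all _ _).isNilpotent_mul_left ⟨_, y0⟩)
  let φ : MvPolynomial (Fin 2) (ZMod p) →ₐ[ZMod p] MonoidAlgebra (ZMod p) G :=
    MvPolynomial.aeval ![x, y]
  have hs : Function.Surjective φ := by
    have h1 : ∀ a : G, MonoidAlgebra.of (ZMod p) G a ∈ φ.range := fun a => by
      induction top a using Subgroup.closure_induction with
      | mem a ha =>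
        rcases ha with rfl | rfl
        · exact ⟨MvPolynomial.X 0 + 1, by simp [φ, hx]⟩
        · exact ⟨MvPolynomial.X 1 + 1, by simp [φ, hy]⟩
      | one => rw [map_one]; exact one_mem _
      | mul a b _ _ ha hb => rw [map_mul]; exact mul_mem ha hb
      | inv a _ ha =>
        have : a⁻¹ = a ^ (Nat.card G - 1) := by
          rw [inv_eq_iff_mul_eq_one, ← pow_succ', Nat.sub_add_cancel Nat.card_pos, pow_card_eq_one']
        rw [this, map_pow]
        exact pow_mem ha _
    intro z
    change z ∈ φ.range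
    induction z using MonoidAlgebra.induction_linear with
    | zero => exact zero_mem _
    | add a b ha hb => exact add_mem ha hb
    | single a r =>
      rw [MonoidAlgebra.single_eq_algebraMap_mul_of]
      exact mul_mem (algebraMap_mem _ _) (h1 a)
  refine ⟨fin, dim, ?_, inj_group _ _, ⟨_, x0⟩, ⟨_, y0⟩, ?_, ?_, fun r ψ hψ => sq_surj φ hs
    (ker_EA2 φ hs dim (by simpa [φ] using x0) (by simpa [φ] using y0)) r ψ hψ⟩
  · refine IsLocalRing.of_isUnit_or_isUnit_one_sub_self fun a => ?_
    by_cases ha : ε a = 0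
    · exact Or.inr (nil a ((hK a).2 ha)).isUnit_one_sub
    · have := (nil _ (hI' a)).isUnit_add_right_of_commute
        ((Ne.isUnit ha).map (algebraMap (ZMod p) (MonoidAlgebra (ZMod p) G))) (Commute.all _ _)
      exact Or.inl (by simpa using this)
  · have h1 := LinearMap.finrank_range_add_finrank_ker ε.toLinearMap
    have h2 : ker ε.toLinearMap = (Ideal.span {x, y}).restrictScalars (ZMod p) := by
      ext z
      exact (hK z).symm
    rw [LinearMap.range_eq_top.2 fun r => ⟨_, hε 1 r⟩, finrank_top, finrank_self, h2, add_comm] at h1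
    exact h1
  · let c1 : MonoidAlgebra (ZMod p) G →ₗ[ZMod p] ZMod p :=
      Finsupp.lapply 1 ∘ₗ (MonoidAlgebra.coeffLinearEquiv (ZMod p)).toLinearMap
    refine (LinearMap.finrank_le_finrank_of_injective (f := c1 ∘ₗ (Submodule.subtype _).restrictScalars
      (ZMod p)) ((injective_iff_map_eq_zero _).2 fun z hz => Subtype.ext ?_)).trans
      (finrank_self _).le
    obtain ⟨z, h1, h2⟩ := z
    change z.coeff 1 = 0 at hz
    change x * z = 0 at h1
    change y * z = 0 at h2
    change z = 0
    rw [← MonoidAlgebra.coeff_inj]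
    ext a
    obtain ⟨u, v, e⟩ := Ideal.mem_span_pair.1 (hI a⁻¹)
    have h3 : MonoidAlgebra.single a⁻¹ 1 * z = z := by
      have : (u * x + v * y) * z = 0 := by rw [add_mul, mul_assoc, mul_assoc, h1, h2]; simp
      rwa [e, sub_mul, one_mul, sub_eq_zero] at this
    rw [← h3, MonoidAlgebra.coeff_single_mul_apply] at hz
    simpa using hz

end RG
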