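import Pool.Agent.P.MP_8a106a_gt.EDefs

/-! Syzygies. -/

set_option autoImplicit false
set_option linter.unusedSectionVars false

noncomputable section

namespace RG

open Module LinearMap

variable {k R : Type} [Field k] [CommRing R] [Algebra k R] {q : ℕ} {x y : R}
  {M M' F F' : Type} [AddCommGroup M] [Module R M] [Module k M] [IsScalarTower k R M]
  [AddCommGroup M'] [Module R M'] [Module k M'] [IsScalarTower k R M']
  [AddCommGroup F] [Module R F] [Module k F] [IsScalarTower k R F] [Module.Free R F]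
  [Module.Finite R F] [AddCommGroup F'] [Module R F'] [Module k F'] [IsScalarTower k R F']
  [Module.Free R F'] [Module.Finite R F']

/-- small kernel and cokernel -/
def Sm_EA3 (k : Type) [Field k] {R : Type} [CommRing R] [Algebra k R] {A B : Type}
    [AddCommGroup A] [Module R A] [Module k A] [IsScalarTower k R A]
    [AddCommGroup B] [Module R B] [Module k B] [IsScalarTower k R B]
    (f : A →ₗ[R] B) (a : ℕ) (z : Prop) : Prop :=
  finrank k (ker f) ≤ a ∧ finrank k B ≤ finrank k (range f) + a ∧ (z → ¬ Function.Surjective f)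

section aux

variable {A B C A' B' : Type} [AddCommGroup A] [Module R A] [Module k A] [IsScalarTower k R A]
  [AddCommGroup B] [Module R B] [Module k B] [IsScalarTower k R B]
  [AddCommGroup C] [Module R C] [Module k C] [IsScalarTower k R C]
  [AddCommGroup A'] [Module R A'] [Module k A'] [IsScalarTower k R A']
  [AddCommGroup B'] [Module R B'] [Module k B'] [IsScalarTower k R B']

theorem fr_eq_EA3 (e : A ≃ₗ[R] B) : finrank k A = finrank k B :=
  (e.restrictScalars k).finrank_eq

theorem fr_le_EA3 [Module.Finite k B] (f : A →ₗ[R] B) (hf : Function.Injective f) :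
    finrank k A ≤ finrank k B :=
  LinearMap.finrank_le_finrank_of_injective (f := f.restrictScalars k) hf

theorem fin_sub_EA3 [Module.Finite k A] (S : Submodule R A) : Module.Finite k S :=
  Module.Finite.of_injective (S.subtype.restrictScalars k) Subtype.val_injective

theorem fin_range_EA3 [Module.Finite k A] (f : A →ₗ[R] B) : Module.Finite k (range f) :=
  Module.Finite.of_surjective (f.rangeRestrict.restrictScalars k) f.surjective_rangeRestrict

theorem rn_EA3 [Module.Finite k A] (f : A →ₗ[R] B) :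
    finrank k (range f) + finrank k (ker f) = finrank k A :=
  LinearMap.finrank_range_add_finrank_ker (f.restrictScalars k)

theorem rn_surj_EA3 [Module.Finite k A] (f : A →ₗ[R] B) (hf : Function.Surjective f) :
    finrank k B + finrank k (ker f) = finrank k A := by
  rw [← rn_EA3 (k := k) f, fr_eq_EA3 (k := k) (LinearEquiv.ofTop _ (range_eq_top.2 hf))]

theorem fr_prod_le_EA3 [Module.Finite k C] : finrank k (B × C) ≤ finrank k B + finrank k C := by
  by_cases h : Module.Finite k B
  · exact Module.finrank_prod.le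
  · have : ¬ Module.Finite k (B × C) := fun h' =>
      h (Module.Finite.of_surjective (fst k B C) fst_surjective)
    rw [Module.finrank_of_not_finite this]
    exact Nat.zero_le _

theorem Sm_EA3.conj {f : A →ₗ[R] B} {a : ℕ} {z : Prop} (h : Sm_EA3 k f a z) (e₁ : A' ≃ₗ[R] A)
    (e₂ : B ≃ₗ[R] B') : Sm_EA3 k (e₂.toLinearMap ∘ₗ f ∘ₗ e₁.toLinearMap) a z := by
  obtain ⟨h1, h2, h3⟩ := h
  refine ⟨?_, ?_, fun hz hs => h3 hz ?_⟩
  · have e : ker (e₂.toLinearMap ∘ₗ f ∘ₗ e₁.toLinearMap) = (ker f).comap e₁.toLinearMap := by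
      ext v
      simp
    rw [e, fr_eq_EA3 (k := k) (e₁.ofSubmodule' (ker f))]
    exact h1
  · have e : range (e₂.toLinearMap ∘ₗ f ∘ₗ e₁.toLinearMap) = (range f).map e₂.toLinearMap := by
      rw [range_comp, range_comp, LinearEquiv.range, Submodule.map_top]
    rw [e, ← fr_eq_EA3 (k := k) (e₂.submoduleMap (range f)), ← fr_eq_EA3 (k := k) e₂]
    exact h2
  · intro b
    obtain ⟨v, hv⟩ := hs (e₂ b)
    exact ⟨e₁ v, e₂.injective hv⟩

theorem Sm_EA3.prod_id {f : A →ₗ[R] B} {a : ℕ} {z : Prop} (h : Sm_EA3 k f a z)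
    [Module.Finite k (range f)] [Module.Finite k C] :
    Sm_EA3 k (f.prodMap (LinearMap.id : C →ₗ[R] C)) a z := by
  obtain ⟨h1, h2, h3⟩ := h
  refine ⟨?_, ?_, fun hz hs => h3 hz ?_⟩
  · have e : range (inl R A C ∘ₗ (ker f).subtype) = ker (f.prodMap (LinearMap.id : C →ₗ[R] C)) := by
      ext ⟨v, c⟩
      simp [eq_comm]
    rw [← e, ← fr_eq_EA3 (k := k) (LinearEquiv.ofInjective (inl R A C ∘ₗ (ker f).subtype)
      (inl_injective.comp Subtype.val_injective))]
    exact h1
  · have e : range ((range f).subtype.prodMap (LinearMap.id : C →ₗ[R] C)) =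
        range (f.prodMap (LinearMap.id : C →ₗ[R] C)) := by
      rw [range_prodMap, range_prodMap, Submodule.range_subtype]
    have hi : Function.Injective ((range f).subtype.prodMap (LinearMap.id : C →ₗ[R] C)) :=
      Function.Injective.prodMap Subtype.val_injective Function.injective_id
    rw [← e, ← fr_eq_EA3 (k := k) (LinearEquiv.ofInjective _ hi),
      Module.finrank_prod (M := range f)]
    have := fr_prod_le_EA3 (k := k) (B := B) (C := C)
    omega
  · intro b
    obtain ⟨v, hv⟩ := hs (b, 0)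
    exact ⟨v.1, congrArg Prod.fst hv⟩

theorem exists_fin_EA3 (R P : Type) [CommRing R] [AddCommGroup P] [Module R P] [Module.Free R P]
    [Module.Finite R P] : ∃ r : ℕ, Nonempty (P ≃ₗ[R] (Fin r → R)) :=
  ⟨_, ⟨(Module.Free.chooseBasis R P).equivFun.trans
    (LinearEquiv.funCongrLeft R R (Fintype.equivFin _).symm)⟩⟩

theorem schanuel_EA3 {N : Type} [AddCommGroup N] [Module R N] [Module.Projective R A]
    [Module.Projective R A'] (p : A →ₗ[R] N) (hp : Function.Surjective p) (p' : A' →ₗ[R] N)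
    (hp' : Function.Surjective p') : Nonempty ((ker p × A') ≃ₗ[R] (ker p' × A)) := by
  obtain ⟨f, hf⟩ := Module.projective_lifting_property p' p hp'
  obtain ⟨g, hg⟩ := Module.projective_lifting_property p p' hp
  have hf' : ∀ v, p' (f v) = p v := fun v => LinearMap.congr_fun hf v
  have hg' : ∀ v, p (g v) = p' v := fun v => LinearMap.congr_fun hg v
  let u : (ker p × A') →ₗ[R] A := coprod (ker p).subtype g
  let u' : (ker p' × A) →ₗ[R] A' := coprod (ker p').subtype f
  refine ⟨LinearEquiv.ofLinearMap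
    (prod (codRestrict (ker p') (snd R _ _ - f ∘ₗ u) ?_) u)
    (prod (codRestrict (ker p) (snd R _ _ - g ∘ₗ u') ?_) u') ?_ ?_⟩
  · rintro ⟨κ, v⟩
    have := κ.2
    rw [mem_ker] at this
    simp [u, hf', hg', this]
  · rintro ⟨κ, v⟩
    have := κ.2
    rw [mem_ker] at this
    simp [u', hf', hg', this]
  · refine LinearMap.ext fun ⟨κ, v⟩ => Prod.ext (Subtype.ext ?_) ?_
    · simp [u, u']
    · simp [u, u']
  · refine LinearMap.ext fun ⟨κ, v⟩ => Prod.ext (Subtype.ext ?_) ?_
    · simp [u, u']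
    · simp [u, u']

/-- the kernel of a stabilised map -/
theorem ker_stab_EA3 {N : Type} [AddCommGroup N] [Module R N] (π : A →ₗ[R] B)
    (e : (B × C) ≃ₗ[R] N) :
    Nonempty (ker π ≃ₗ[R] ker (e.toLinearMap ∘ₗ π.prodMap (LinearMap.id : C →ₗ[R] C))) := by
  have h : range (inl R A C ∘ₗ (ker π).subtype) =
      ker (e.toLinearMap ∘ₗ π.prodMap (LinearMap.id : C →ₗ[R] C)) := by
    ext ⟨v, c⟩
    simp [eq_comm]
  exact ⟨(LinearEquiv.ofInjective (inl R A C ∘ₗ (ker π).subtype)
      (inl_injective.comp Subtype.val_injective)).trans (LinearEquiv.ofEq _ _ h)⟩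

end aux

theorem bel_mk_EA3 {a : ℕ} {z : Prop} (β : F →ₗ[R] M × F') (h : Sm_EA3 k β a z) :
    Bel k R M a z := by
  obtain ⟨r, ⟨e⟩⟩ := exists_fin_EA3 R F
  obtain ⟨r', ⟨e'⟩⟩ := exists_fin_EA3 R F'
  exact ⟨r, r', _, h.conj e.symm ((LinearEquiv.refl R M).prodCongr e')⟩

theorem abv_mk_EA3 {a : ℕ} {z : Prop} (α : (M × F') →ₗ[R] F) (h : Sm_EA3 k α a z) :
    Abv k R M a z := by
  obtain ⟨r, ⟨e⟩⟩ := exists_fin_EA3 R F
  obtain ⟨r', ⟨e'⟩⟩ := exists_fin_EA3 R F'
  exact ⟨r, r', _, h.conj ((LinearEquiv.refl R M).prodCongr e'.symm) e⟩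

theorem st_mk_EA3 (e : (M × F) ≃ₗ[R] (M' × F')) : St R M M' := by
  obtain ⟨r, ⟨e₁⟩⟩ := exists_fin_EA3 R F
  obtain ⟨r', ⟨e₂⟩⟩ := exists_fin_EA3 R F'
  exact ⟨r, r', ⟨((LinearEquiv.refl R M).prodCongr e₁.symm).trans
    (e.trans ((LinearEquiv.refl R M').prodCongr e₂))⟩⟩

/-- exchange of the last two factors -/
def sw_EA3 (R A B C : Type) [CommRing R] [AddCommGroup A] [Module R A] [AddCommGroup B]
    [Module R B] [AddCommGroup C] [Module R C] : ((A × B) × C) ≃ₗ[R] ((A × C) × B) :=
  (LinearEquiv.prodAssoc R A B C).trans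
    (((LinearEquiv.refl R A).prodCongr (LinearEquiv.prodComm R B C)).trans
      (LinearEquiv.prodAssoc R A C B).symm)

theorem St.symm (h : St R M M') : St R M' M := by
  obtain ⟨r, r', ⟨e⟩⟩ := h
  exact ⟨r', r, ⟨e.symm⟩⟩

theorem St.of_equiv (e : M ≃ₗ[R] M') : St R M M' :=
  ⟨0, 0, ⟨e.prodCongr (LinearEquiv.refl R _)⟩⟩

theorem St.bel (T : Trunc k R q x y) (h : St R M M') {a : ℕ} {z : Prop} (h' : Bel k R M' a z) :
    Bel k R M a z := by
  have := T.fin
  obtain ⟨s, s', ⟨e⟩⟩ := h
  obtain ⟨r, r', β, hβ⟩ := h'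
  have h0 : Sm_EA3 k β a z := hβ
  have := fin_range_EA3 (k := k) β
  exact bel_mk_EA3 _ ((h0.prod_id (C := Fin s' → R)).conj (LinearEquiv.refl R _)
    ((sw_EA3 R _ _ _).trans ((e.symm.prodCongr (LinearEquiv.refl R _)).trans
      (LinearEquiv.prodAssoc R _ _ _))))

theorem St.abv (T : Trunc k R q x y) (h : St R M M') {a : ℕ} {z : Prop} (h' : Abv k R M' a z) :
    Abv k R M a z := by
  have := T.fin
  obtain ⟨s, s', ⟨e⟩⟩ := h
  obtain ⟨r, r', α, hα⟩ := h'
  have h0 : Sm_EA3 k α a z := hα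
  have := fin_sub_EA3 (k := k) (range α)
  exact abv_mk_EA3 _ ((h0.prod_id (C := Fin s' → R)).conj
    ((sw_EA3 R _ _ _).trans ((e.symm.prodCongr (LinearEquiv.refl R _)).trans
      (LinearEquiv.prodAssoc R _ _ _))).symm (LinearEquiv.refl R _))

/-- Lift `β` to `β' : R ^ r → F × R ^ r'` and take `α (κ, v) = (κ, 0) + β' v`. -/
theorem Bel.abv_ker (T : Trunc k R q x y) {a : ℕ} {z : Prop} (h : Bel k R M a z)
    (π : F →ₗ[R] M) (hπ : Function.Surjective π) : Abv k R (ker π) a z := by
  have := T.fin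
  have : Module.Finite k F := Module.Finite.trans R F
  have : Module.Finite k M := Module.Finite.of_surjective (π.restrictScalars k) hπ
  have := fin_sub_EA3 (k := k) (ker π)
  obtain ⟨r, r', β, h1, h2, h3⟩ := h
  have hP : Function.Surjective (π.prodMap (LinearMap.id : (Fin r' → R) →ₗ[R] (Fin r' → R))) :=
    Function.Surjective.prodMap hπ Function.surjective_id
  obtain ⟨β', hβ'⟩ := Module.projective_lifting_property _ β hP
  have hb : ∀ v, π.prodMap LinearMap.id (β' v) = β v := fun v => LinearMap.congr_fun hβ' v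
  let α : (ker π × (Fin r → R)) →ₗ[R] F × (Fin r' → R) :=
    coprod (inl R _ _ ∘ₗ (ker π).subtype) β'
  have hα : ∀ w, π.prodMap LinearMap.id (α w) = β w.2 := by
    rintro ⟨κ, v⟩
    have := κ.2
    rw [mem_ker] at this
    simp only [α, coprod_apply, map_add, hb]
    simp [this]
  have hk : finrank k (ker α) ≤ finrank k (ker β) := by
    have := fin_sub_EA3 (k := k) (ker β)
    refine fr_le_EA3 (codRestrict (ker β) (snd R _ _ ∘ₗ (ker α).subtype) fun w => ?_) ?_
    · have h4 := hα w.1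
      rw [mem_ker.1 w.2, map_zero] at h4
      exact h4.symm
    · rw [injective_iff_map_eq_zero]
      rintro ⟨⟨κ, v⟩, hw⟩ h0
      have hv : v = 0 := congrArg Subtype.val h0
      subst hv
      have hκ : κ = 0 := by simpa [α] using hw
      subst hκ
      rfl
  refine abv_mk_EA3 α ⟨hk.trans h1, ?_, fun hz hs => h3 hz fun b => ?_⟩
  · have e1 := rn_EA3 (k := k) α
    have e2 := rn_EA3 (k := k) β
    have e3 := rn_surj_EA3 (k := k) π hπ
    rw [Module.finrank_prod] at e1 h2 ⊢
    omega
  · obtain ⟨c, rfl⟩ := hP b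
    obtain ⟨w, rfl⟩ := hs c
    exact ⟨w.2, (hα w).symm⟩

/-- Schanuel's lemma. -/
theorem St.ker (T : Trunc k R q x y) (h : St R M M') (π : F →ₗ[R] M)
    (hπ : Function.Surjective π) (π' : F' →ₗ[R] M') (hπ' : Function.Surjective π') :
    St R (ker π) (ker π') := by
  obtain ⟨s, s', ⟨e⟩⟩ := h
  obtain ⟨e1⟩ := ker_stab_EA3 π e
  obtain ⟨e2⟩ := ker_stab_EA3 π' (LinearEquiv.refl R (M' × (Fin s' → R)))
  obtain ⟨e3⟩ := schanuel_EA3
    (e.toLinearMap ∘ₗ π.prodMap (LinearMap.id : (Fin s → R) →ₗ[R] (Fin s → R)))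
    (e.surjective.comp (Function.Surjective.prodMap hπ Function.surjective_id))
    ((LinearEquiv.refl R (M' × (Fin s' → R))).toLinearMap ∘ₗ
      π'.prodMap (LinearMap.id : (Fin s' → R) →ₗ[R] (Fin s' → R)))
    ((LinearEquiv.refl R (M' × (Fin s' → R))).surjective.comp
      (Function.Surjective.prodMap hπ' Function.surjective_id))
  exact st_mk_EA3 ((e1.prodCongr (LinearEquiv.refl R _)).trans
    (e3.trans (e2.symm.prodCongr (LinearEquiv.refl R _))))

theorem range_coprod_EA3 (x y : R) :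
    range (coprod (lsmul R R x) (lsmul R R y)) = (Ideal.span {x, y} : Ideal R) := by
  ext v
  rw [Ideal.mem_span_pair]
  constructor
  · rintro ⟨⟨a, b⟩, rfl⟩
    exact ⟨a, b, by simp [mul_comm]⟩
  · rintro ⟨a, b, rfl⟩
    exact ⟨(a, b), by simp [mul_comm]⟩

/-- The kernel of ` (a, b) ↦ x a + y b` has dimension `q ^ 2 + 1` and contains the image of
`c ↦ (y c, - x c)`, whose kernel is the socle. The map is not onto by the dimension count. -/
theorem bel_koszul (T : Trunc k R q x y) :
    Bel k R (ker (coprod (lsmul R R x) (lsmul R R y))) 2 True := by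
  have := T.fin
  have := fin_sub_EA3 (k := k) (ker (coprod (lsmul R R x) (lsmul R R y)))
  let γ : R →ₗ[R] ker (coprod (lsmul R R x) (lsmul R R y)) :=
    codRestrict _ (prod (lsmul R R y) (-lsmul R R x)) fun c => by
      simp [mul_left_comm]
  let β : R →ₗ[R] ker (coprod (lsmul R R x) (lsmul R R y)) × (Fin 0 → R) := inl R _ _ ∘ₗ γ
  have hk : ker β = ker (lsmul R R x) ⊓ ker (lsmul R R y) := by
    ext c
    simp [β, γ, Subtype.ext_iff, and_comm]
  have e1 := rn_EA3 (k := k) β
  have e2 := rn_EA3 (k := k) (coprod (lsmul R R x) (lsmul R R y))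
  have e3 := T.max
  have e4 := T.soc
  have e5 : finrank k (ker (coprod (lsmul R R x) (lsmul R R y)) × (Fin 0 → R)) =
      finrank k (ker (coprod (lsmul R R x) (lsmul R R y))) := by
    rw [Module.finrank_prod, Module.finrank_zero_of_subsingleton (M := Fin 0 → R), add_zero]
  rw [range_coprod_EA3, Module.finrank_prod] at e2
  rw [← hk] at e4
  refine bel_mk_EA3 β ⟨by omega, by omega, fun _ hs => ?_⟩
  have e6 := rn_surj_EA3 (k := k) β hs
  omega

/-- `F₀ / range d₀` is one dimensional, hence isomorphic to `R / (x, y)`. Apply `St.ker` twice,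
then `bel_koszul` and `Bel.abv_ker`. -/
theorem abv_bottom (T : Trunc k R q x y) {F₂ : Type} [AddCommGroup F₂] [Module R F₂] [Module k F₂]
    [IsScalarTower k R F₂] [Module.Free R F₂] [Module.Finite R F₂] (d₀ : F' →ₗ[R] F)
    (d₁ : F₂ →ₗ[R] F') (h0 : finrank k F = finrank k (range d₀) + 1) (h1 : ker d₀ = range d₁) :
    Abv k R (ker d₁) 2 True := by
  have := T.fin
  have : Module.Finite k F := Module.Finite.trans R F
  have hq : finrank k (F ⧸ range d₀) = 1 := by
    have e := rn_surj_EA3 (k := k) (range d₀).mkQ (Submodule.mkQ_surjective _)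
    rw [Submodule.ker_mkQ] at e
    omega
  obtain ⟨v, hv0, hv⟩ := finrank_eq_one_iff'.1 hq
  have hnil : ∀ t : R, IsNilpotent t → t • v = 0 := by
    rintro t ⟨n, hn⟩
    obtain ⟨c, hc⟩ := hv (t • v)
    have hp : ∀ m : ℕ, t ^ m • v = c ^ m • v := by
      intro m
      induction m with
      | zero => simp
      | succ m ih => rw [pow_succ, mul_smul, ← hc, smul_comm, ih, ← mul_smul, pow_succ']
    have h2 := hp n
    rw [hn, zero_smul, eq_comm, smul_eq_zero] at h2
    have hc0 : c = 0 := eq_zero_of_pow_eq_zero (h2.resolve_right hv0)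
    rw [← hc, hc0, zero_smul]
  let π' : R →ₗ[R] F ⧸ range d₀ := toSpanSingleton R _ v
  have hπ' : Function.Surjective π' := fun w => by
    obtain ⟨c, hc⟩ := hv w
    exact ⟨algebraMap k R c, by rw [← hc]; simp [π']⟩
  have hle : (Ideal.span {x, y} : Ideal R) ≤ ker π' := by
    rw [Ideal.span_le]
    rintro t (rfl | rfl)
    · exact hnil _ T.nx
    · exact hnil _ T.ny
  have heq : (Ideal.span {x, y} : Ideal R) = ker π' := by
    have e := rn_surj_EA3 (k := k) π' hπ'
    have e3 := T.max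
    have h3 : (Ideal.span {x, y} : Ideal R).restrictScalars k = (ker π').restrictScalars k :=
      Submodule.eq_of_le_of_finrank_eq hle (by
        change finrank k (Ideal.span {x, y} : Ideal R) = finrank k (ker π')
        omega)
    exact Submodule.restrictScalars_injective k R R h3
  have s1 : St R (ker (range d₀).mkQ) (ker π') :=
    St.ker T (St.of_equiv (LinearEquiv.refl R _)) _ (Submodule.mkQ_surjective _) π' hπ'
  let p : F' →ₗ[R] ker (range d₀).mkQ := codRestrict _ d₀ fun c => by simp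
  have hp : Function.Surjective p := by
    rintro ⟨w, hw⟩
    rw [Submodule.ker_mkQ] at hw
    obtain ⟨c, rfl⟩ := hw
    exact ⟨c, rfl⟩
  let p' : (R × R) →ₗ[R] ker π' := codRestrict _ (coprod (lsmul R R x) (lsmul R R y)) fun c => by
    rw [← heq, ← range_coprod_EA3]
    exact mem_range_self _ c
  have hp' : Function.Surjective p' := by
    rintro ⟨w, hw⟩
    have hw' := hw
    rw [← heq, ← range_coprod_EA3] at hw'
    obtain ⟨c, rfl⟩ := hw'
    exact ⟨c, rfl⟩
  have s2 : St R (ker p) (ker p') := St.ker T s1 p hp p' hp'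
  have b1 : Bel k R (ker p') 2 True := by
    have : ker p' = ker (coprod (lsmul R R x) (lsmul R R y)) := ker_codRestrict _ _ _
    rw [this]
    exact bel_koszul T
  have b2 : Bel k R (ker p) 2 True := St.bel T s2 b1
  have hkp : ker p = range d₁ := by rw [← h1]; exact ker_codRestrict _ _ _
  let p₂ : F₂ →ₗ[R] ker p := codRestrict _ d₁ fun c => by
    rw [hkp]
    exact mem_range_self _ c
  have hp₂ : Function.Surjective p₂ := by
    rintro ⟨w, hw⟩
    have hw' := hw
    rw [hkp] at hw'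
    obtain ⟨c, rfl⟩ := hw'
    exact ⟨c, rfl⟩
  have a1 := Bel.abv_ker T b2 p₂ hp₂
  have : ker p₂ = ker d₁ := ker_codRestrict _ _ _
  rwa [this] at a1

end RG
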