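import Pool.Agent.P.MP_8a106a_gt.EA3

/-! Cosyzygies. -/

set_option autoImplicit false
set_option linter.unusedSectionVars false

noncomputable section

namespace RG

open Module LinearMap

variable {k R : Type} [Field k] [CommRing R] [Algebra k R] {q : ℕ} {x y : R}
  {M M' F F' : Type} [AddCommGroup M] [Module R M] [Module k M] [IsScalarTower k R M]
  [AddCommGroup M'] [Module R M'] [Module k M'] [IsScalarTower k R M']
  [AddCommGroup F] [Module R F] [Module k F] [IsScalarTower k R F] [Module.Free R F]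
  [Module.Finite R F] [AddCommGroup F'] [Module R F'] [Module k F'] [IsScalarTower k R F']
  [Module.Free R F'] [Module.Finite R F']

theorem rn_EA4 [Module.Finite k M] (f : M →ₗ[R] M') :
    finrank k (range f) + finrank k (ker f) = finrank k M :=
  (f.restrictScalars k).finrank_range_add_finrank_ker

theorem eqv_EA4 (e : M ≃ₗ[R] M') : finrank k M = finrank k M' := (e.restrictScalars k).finrank_eq

theorem map_EA4 (f : M →ₗ[R] M') (hf : Function.Injective f) (S : Submodule R M) :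
    finrank k (S.map f) = finrank k S := (eqv_EA4 (S.equivMapOfInjective f hf)).symm

theorem quot_EA4 [Module.Finite k M] (S : Submodule R M) :
    finrank k (M ⧸ S) + finrank k S = finrank k M := by
  have h := rn_EA4 (k := k) S.mkQ
  rwa [Submodule.range_mkQ, Submodule.ker_mkQ, eqv_EA4 (k := k) Submodule.topEquiv] at h

theorem lift_EA4 (S : Submodule R M) (f : M →ₗ[R] M') (h : S = ker f) :
    ∃ g : (M ⧸ S) →ₗ[R] M', Function.Injective g ∧ range g = range f :=
  ⟨S.liftQ f h.le, ker_eq_bot.1 (Submodule.ker_liftQ_eq_bot _ _ _ h.ge), S.range_liftQ f h.le⟩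

theorem fin_EA4 (T : Trunc k R q x y) : Module.Finite k F :=
  have := T.fin
  Module.Finite.trans R F

theorem eqf_EA4 (T : Trunc k R q x y) : ∃ n, Nonempty (F ≃ₗ[R] (Fin n → R)) :=
  have := T.loc
  ⟨_, ⟨(Module.finBasis R F).equivFun⟩⟩

theorem bel_of_EA4 (T : Trunc k R q x y) {a r : ℕ} (β : F →ₗ[R] M × (Fin r → R))
    (h1 : finrank k (ker β) ≤ a) (h2 : finrank k (M × (Fin r → R)) ≤ finrank k (range β) + a) :
    Bel k R M a False := by
  obtain ⟨n, ⟨e⟩⟩ := eqf_EA4 (F := F) T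
  refine ⟨n, r, β ∘ₗ e.symm.toLinearMap, ?_, ?_, False.elim⟩
  · rwa [ker_comp, Submodule.comap_equiv_eq_map_symm, map_EA4 _ e.symm.symm.injective]
  · rwa [LinearEquiv.range_comp]

theorem schan_EA4 {N I I' Q Q' : Type} [AddCommGroup N] [Module R N] [AddCommGroup I] [Module R I]
    [AddCommGroup I'] [Module R I'] [AddCommGroup Q] [Module R Q] [AddCommGroup Q'] [Module R Q']
    (j : N →ₗ[R] I) (j' : N →ₗ[R] I') (p : I →ₗ[R] Q) (p' : I' →ₗ[R] Q')
    (hp : Function.Surjective p) (hp' : Function.Surjective p') (hj : ∀ a, p a = 0 ↔ ∃ n, j n = a)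
    (hj' : ∀ a, p' a = 0 ↔ ∃ n, j' n = a) (f : I →ₗ[R] I') (hf : ∀ n, f (j n) = j' n)
    (g : I' →ₗ[R] I) (hg : ∀ n, g (j' n) = j n) : Nonempty ((Q × I') ≃ₗ[R] (Q' × I)) := by
  let u : I × I' →ₗ[R] I' := snd R I I' + f ∘ₗ fst R I I'
  let P : I × I' →ₗ[R] Q × I' := p.prodMap LinearMap.id
  let P' : I × I' →ₗ[R] Q' × I := (p' ∘ₗ u).prod (fst R I I' - g ∘ₗ u)
  have h1 : Function.Surjective P := hp.prodMap Function.surjective_id
  have h2 : Function.Surjective P' := fun w => by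
    obtain ⟨b, hb⟩ := hp' w.1
    refine ⟨(w.2 + g b, b - f (w.2 + g b)), Prod.ext ?_ ?_⟩
    · change p' (b - f (w.2 + g b) + f (w.2 + g b)) = w.1
      rw [sub_add_cancel, hb]
    · change w.2 + g b - g (b - f (w.2 + g b) + f (w.2 + g b)) = w.2
      rw [sub_add_cancel, add_sub_cancel_right]
  have h3 : ker P = ker P' := by
    ext ⟨a, b⟩
    rw [mem_ker, mem_ker, Prod.ext_iff, Prod.ext_iff]
    change p a = 0 ∧ b = 0 ↔ p' (b + f a) = 0 ∧ a - g (b + f a) = 0
    rw [hj, hj']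
    constructor
    · rintro ⟨⟨n, rfl⟩, rfl⟩
      rw [zero_add, hf, hg, sub_self]
      exact ⟨⟨n, rfl⟩, rfl⟩
    · rintro ⟨⟨n, hn⟩, h⟩
      rw [← hn, hg, sub_eq_zero] at h
      rw [h, hf] at hn
      exact ⟨⟨n, h.symm⟩, right_eq_add.1 hn⟩
  exact ⟨(P.quotKerEquivOfSurjective h1).symm ≪≫ₗ Submodule.quotEquivOfEq _ _ h3 ≪≫ₗ
    P'.quotKerEquivOfSurjective h2⟩

theorem prod_EA4 (ι : M →ₗ[R] F) (a : F × M') :
    ((range ι).mkQ ∘ₗ fst R F M') a = 0 ↔ ∃ n, ι.prodMap LinearMap.id n = a := by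
  change (range ι).mkQ a.1 = 0 ↔ _
  rw [Submodule.mkQ_apply, Submodule.Quotient.mk_eq_zero]
  constructor
  · rintro ⟨n, hn⟩
    exact ⟨(n, a.2), Prod.ext hn rfl⟩
  · rintro ⟨n, rfl⟩
    exact ⟨n.1, rfl⟩

theorem kill_EA4 {K : Submodule R M} (hK : finrank k K = 1) {t : R} (ht : IsNilpotent t)
    (v : K) : t • v = 0 := by
  by_cases hv : v = 0
  · rw [hv, smul_zero]
  obtain ⟨c, hc⟩ := (finrank_eq_one_iff_of_nonzero' v hv).1 hK (t • v)
  obtain ⟨n, hn⟩ := ht
  have h1 : ∀ m : ℕ, t ^ m • v = c ^ m • v := fun m => by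
    induction m with
    | zero => rw [pow_zero, pow_zero, one_smul, one_smul]
    | succ m ih => rw [pow_succ', mul_smul, ih, smul_comm, ← hc, smul_smul, pow_succ]
  have h2 := h1 n
  rw [hn, zero_smul] at h2
  rw [← hc, eq_zero_of_pow_eq_zero ((smul_eq_zero.1 h2.symm).resolve_right hv), zero_smul]

theorem inj_free (T : Trunc k R q x y) : Module.Injective R F := by
  obtain ⟨n, ⟨e⟩⟩ := eqf_EA4 (F := F) T
  refine ⟨fun X Y _ _ _ _ f hf g => ?_⟩
  choose h hh using fun i => T.inj.out f hf (proj i ∘ₗ e.toLinearMap ∘ₗ g)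
  exact ⟨e.symm.toLinearMap ∘ₗ pi h, fun a => e.symm_apply_eq.2 (funext fun i => hh i a)⟩

/-- The submodule is injective, so it splits off; the quotient is finite projective over a local
ring (`Module.free_of_flat_of_isLocalRing`). -/
theorem free_quot (T : Trunc k R q x y) (ι : F' →ₗ[R] F) (hι : Function.Injective ι) :
    Module.Free R (F ⧸ range ι) := by
  have := T.loc
  obtain ⟨r, hr⟩ := (inj_free (F := F') T).out ι hι LinearMap.id
  have : Module.Projective R (F ⧸ range ι) := Module.Projective.of_split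
    ((range ι).liftQ (LinearMap.id - ι ∘ₗ r) (by
      rintro _ ⟨a, rfl⟩
      change ι a - ι (r (ι a)) = 0
      rw [hr, id_apply, sub_self])) (range ι).mkQ (Submodule.linearMap_qext _ (LinearMap.ext fun a => by
        change (range ι).mkQ (a - ι (r a)) = (range ι).mkQ a
        rw [map_sub, sub_eq_self, Submodule.mkQ_apply, Submodule.Quotient.mk_eq_zero]
        exact ⟨_, rfl⟩))
  exact Module.free_of_flat_of_isLocalRing

/-- Extend `α` to `α' : F × R ^ r' → R ^ r` and take `β = (mkQ ∘ fst, α')`. -/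
theorem Abv.bel_quot (T : Trunc k R q x y) {a : ℕ} (h : Abv k R M a False)
    (ι : M →ₗ[R] F) (hι : Function.Injective ι) : Bel k R (F ⧸ range ι) a False := by
  obtain ⟨r, r', α, h1, h2, -⟩ := h
  have hj : Function.Injective (ι.prodMap (LinearMap.id : (Fin r' → R) →ₗ[R] (Fin r' → R))) :=
    hι.prodMap Function.injective_id
  obtain ⟨α', hα⟩ := (inj_free (F := Fin r → R) T).out _ hj α
  have := T.fin
  have : Module.Finite k F := fin_EA4 T
  have : Module.Finite k M := Module.Finite.of_injective (ι.restrictScalars k) hι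
  have hk : ker (((range ι).mkQ ∘ₗ fst R F (Fin r' → R)).prod α') =
      (ker α).map (ι.prodMap LinearMap.id) := by
    ext v
    rw [ker_prod, Submodule.mem_inf, mem_ker, mem_ker, prod_EA4]
    constructor
    · rintro ⟨⟨n, rfl⟩, hn⟩
      exact ⟨n, (hα n).symm.trans hn, rfl⟩
    · rintro ⟨n, hn, rfl⟩
      exact ⟨⟨n, rfl⟩, (hα n).trans hn⟩
  have h3 := rn_EA4 (k := k) (((range ι).mkQ ∘ₗ fst R F (Fin r' → R)).prod α')
  have h4 := rn_EA4 (k := k) α
  have h5 := quot_EA4 (k := k) (range ι)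
  have h6 := eqv_EA4 (k := k) (LinearEquiv.ofInjective ι hι)
  refine bel_of_EA4 T (((range ι).mkQ ∘ₗ fst R F (Fin r' → R)).prod α') ?_ ?_
  · rwa [hk, map_EA4 _ hj]
  · rw [hk, map_EA4 _ hj] at h3
    rw [finrank_prod] at h3 h4 ⊢
    omega

/-- The dual of Schanuel's lemma. -/
theorem St.quot (T : Trunc k R q x y) (h : St R M M') (ι : M →ₗ[R] F)
    (hι : Function.Injective ι) (ι' : M' →ₗ[R] F') (hι' : Function.Injective ι') :
    St R (F ⧸ range ι) (F' ⧸ range ι') := by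
  obtain ⟨r, r', ⟨e⟩⟩ := h
  have hj : Function.Injective (ι.prodMap (LinearMap.id : (Fin r → R) →ₗ[R] (Fin r → R))) :=
    hι.prodMap Function.injective_id
  have hj' : Function.Injective
      (ι'.prodMap (LinearMap.id : (Fin r' → R) →ₗ[R] (Fin r' → R)) ∘ₗ e.toLinearMap) :=
    (hι'.prodMap Function.injective_id).comp e.injective
  obtain ⟨f, hf⟩ := (inj_free (F := F' × (Fin r' → R)) T).out _ hj
    (ι'.prodMap LinearMap.id ∘ₗ e.toLinearMap)
  obtain ⟨g, hg⟩ := (inj_free (F := F × (Fin r → R)) T).out _ hj' (ι.prodMap LinearMap.id)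
  obtain ⟨E⟩ := schan_EA4 _ _ ((range ι).mkQ ∘ₗ fst R F (Fin r → R))
    ((range ι').mkQ ∘ₗ fst R F' (Fin r' → R))
    ((range ι).mkQ_surjective.comp Prod.fst_surjective)
    ((range ι').mkQ_surjective.comp Prod.fst_surjective) (prod_EA4 ι)
    (fun a => (prod_EA4 ι' a).trans e.surjective.exists) f hf g hg
  obtain ⟨n, ⟨u⟩⟩ := eqf_EA4 (F := F × (Fin r → R)) T
  obtain ⟨n', ⟨u'⟩⟩ := eqf_EA4 (F := F' × (Fin r' → R)) T
  exact ⟨n', n, ⟨(LinearEquiv.refl R _).prodCongr u'.symm ≪≫ₗ E ≪≫ₗ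
    (LinearEquiv.refl R _).prodCongr u⟩⟩

/-- The map ` (a, b) ↦ y a - x b` on the cokernel of `c ↦ (x c, y c)` has image ` (x, y)`. -/
theorem abv_koszul (T : Trunc k R q x y) :
    Abv k R ((R × R) ⧸ range (prod (lsmul R R x) (lsmul R R y))) 2 False := by
  have := T.fin
  let φ : ((R × R) ⧸ range (prod (lsmul R R x) (lsmul R R y))) →ₗ[R] R :=
    Submodule.liftQ _ (coprod (lsmul R R y) (-lsmul R R x)) (by
      rintro _ ⟨c, rfl⟩
      change y * (x * c) + -(x * (y * c)) = 0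
      ring)
  have h1 : range φ = (Ideal.span {x, y} : Ideal R) := by
    rw [Submodule.range_liftQ]
    ext z
    rw [Ideal.mem_span_pair]
    constructor
    · rintro ⟨c, rfl⟩
      refine ⟨-c.2, c.1, ?_⟩
      change _ = y * c.1 + -(x * c.2)
      ring
    · rintro ⟨a, b, rfl⟩
      refine ⟨(b, -a), ?_⟩
      change y * b + -(x * -a) = _
      ring
  let e₁ := LinearEquiv.prodUnique (R := R)
    (M := (R × R) ⧸ range (prod (lsmul R R x) (lsmul R R y))) (M₂ := Fin 0 → R)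
  let e₂ := LinearEquiv.funUnique (Fin 1) R R
  have h2 : finrank k (range (e₂.symm.toLinearMap ∘ₗ φ ∘ₗ e₁.toLinearMap)) + 1 = finrank k R := by
    rw [range_comp, map_EA4 _ e₂.symm.injective, LinearEquiv.range_comp, h1]
    exact T.max
  have h3 := rn_EA4 (k := k) (e₂.symm.toLinearMap ∘ₗ φ ∘ₗ e₁.toLinearMap)
  have h4 := eqv_EA4 (k := k) e₁
  have h5 := eqv_EA4 (k := k) e₂
  have h6 := quot_EA4 (k := k) (range (prod (lsmul R R x) (lsmul R R y)))
  have h7 := rn_EA4 (k := k) (prod (lsmul R R x) (lsmul R R y))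
  have h8 := T.soc
  rw [ker_prod] at h7
  rw [finrank_prod] at h6
  exact ⟨1, 0, e₂.symm.toLinearMap ∘ₗ φ ∘ₗ e₁.toLinearMap, by omega, by omega, False.elim⟩

/-- If `d₀` is injective use `free_quot` twice. Otherwise its kernel is one dimensional, hence
isomorphic to the socle of `R`; apply `St.quot` twice, `abv_koszul` and `Abv.bel_quot`. -/
theorem bel_top (T : Trunc k R q x y) {F₂ : Type} [AddCommGroup F₂] [Module R F₂] [Module k F₂]
    [IsScalarTower k R F₂] [Module.Free R F₂] [Module.Finite R F₂] (d₀ : F →ₗ[R] F')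
    (d₁ : F' →ₗ[R] F₂) (h0 : finrank k (ker d₀) ≤ 1) (h1 : ker d₁ = range d₀) :
    Bel k R (F₂ ⧸ range d₁) 2 False := by
  have := T.fin
  have : Module.Finite k F := fin_EA4 T
  by_cases hd : ker d₀ = ⊥
  · have := free_quot T d₀ (ker_eq_bot.1 hd)
    obtain ⟨g, hg, hr⟩ := lift_EA4 _ d₁ h1.symm
    have := free_quot T g hg
    rw [← hr]
    let e := (LinearEquiv.prodUnique (R := R) (M := F₂ ⧸ range g) (M₂ := Fin 0 → R)).symm
    refine bel_of_EA4 T e.toLinearMap ?_ ?_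
    · rw [e.ker, Module.finrank_zero_of_subsingleton]
      omega
    · rw [e.range, eqv_EA4 (k := k) Submodule.topEquiv]
      omega
  obtain ⟨v, hv, hv0⟩ := Submodule.exists_mem_ne_zero_of_ne_bot hd
  have hv1 : (⟨v, hv⟩ : ker d₀) ≠ 0 := fun h => hv0 (congrArg Subtype.val h)
  have : Module.Finite k (ker d₀) :=
    Module.Finite.of_injective ((ker d₀).subtype.restrictScalars k) Subtype.val_injective
  have hK : finrank k (ker d₀) = 1 :=
    le_antisymm h0 (Module.finrank_pos_iff_exists_ne_zero.2 ⟨_, hv1⟩)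
  obtain ⟨n, ⟨e⟩⟩ := eqf_EA4 (F := F) T
  obtain ⟨i, hi⟩ := Function.ne_iff.1 (e.map_ne_zero_iff.2 hv0)
  let φ : ker d₀ →ₗ[R] R := proj i ∘ₗ e.toLinearMap ∘ₗ (ker d₀).subtype
  have hφ : Function.Injective φ := (injective_iff_map_eq_zero φ).2 fun w hw => by
    obtain ⟨c, rfl⟩ := (finrank_eq_one_iff_of_nonzero' _ hv1).1 hK w
    rw [LinearMap.map_smul_of_tower] at hw
    rw [(smul_eq_zero.1 hw).resolve_right hi, zero_smul]
  have hr : range φ = ker (prod (lsmul R R x) (lsmul R R y)) := by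
    rw [ker_prod]
    refine Submodule.restrictScalars_injective k _ _ (Submodule.eq_of_le_of_finrank_le ?_ ?_)
    · rintro _ ⟨w, rfl⟩
      refine ⟨?_, ?_⟩
      · change x • φ w = 0
        rw [← map_smul, kill_EA4 hK T.nx, map_zero]
      · change y • φ w = 0
        rw [← map_smul, kill_EA4 hK T.ny, map_zero]
    · exact T.soc.trans (hK.symm.trans (eqv_EA4 (LinearEquiv.ofInjective φ hφ))).le
  have s1 := St.quot T (St.of_equiv (LinearEquiv.refl R (ker d₀))) (ker d₀).subtype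
    Subtype.val_injective φ hφ
  obtain ⟨g₀, hg₀, hr₀⟩ := lift_EA4 _ d₀ (ker d₀).range_subtype
  obtain ⟨ψ, hψ, hrψ⟩ := lift_EA4 _ _ hr
  have s2 := St.quot T s1 g₀ hg₀ ψ hψ
  rw [hr₀, hrψ] at s2
  obtain ⟨g, hg, hr₁⟩ := lift_EA4 _ d₁ h1.symm
  rw [← hr₁]
  exact Abv.bel_quot T (St.abv T s2 (abv_koszul T)) g hg

end RG
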