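import Pool.Agent.P.MP_8a106a_gt.EA2
import Pool.Agent.P.MP_8a106a_gt.EA4

/-! No free action of a large square. -/

set_option autoImplicit false
set_option linter.unusedSectionVars false

noncomputable section

namespace RG

open Module LinearMap

section

variable (k : Type) {R : Type} [Field k] [CommRing R] [Algebra k R]
  {U V W : Type} [AddCommGroup U] [Module R U] [Module k U] [IsScalarTower k R U]
  [Module.Finite k U] [AddCommGroup V] [Module R V] [Module k V] [IsScalarTower k R V]
  [Module.Finite k V] [AddCommGroup W] [Module R W] [Module k W] [IsScalarTower k R W]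
  [Module.Finite k W]

theorem rn_EA5 (f : U →ₗ[R] V) : finrank k (range f) + finrank k (ker f) = finrank k U :=
  (f.restrictScalars k).finrank_range_add_finrank_ker

theorem le_EA5 (S : Submodule R U) : finrank k S ≤ finrank k U :=
  Submodule.finrank_le (S.restrictScalars k)

theorem quot_EA5 (S : Submodule R U) : finrank k (U ⧸ S) + finrank k S = finrank k U := by
  have h := rn_EA5 k S.mkQ
  rw [Submodule.range_mkQ, Submodule.ker_mkQ] at h
  rw [← h]
  congr 1
  exact ((Submodule.topEquiv (R := R) (M := U ⧸ S)).restrictScalars k).finrank_eq.symm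

theorem syl_EA5 (f : U →ₗ[R] V) (g : V →ₗ[R] W) :
    finrank k (range f) + finrank k (range g) ≤ finrank k (range (g ∘ₗ f)) + finrank k V := by
  have : Module.Finite k (range f) :=
    Module.Finite.of_injective ((range f).subtype.restrictScalars k) Subtype.val_injective
  have : Module.Finite k (ker g) :=
    Module.Finite.of_injective ((ker g).subtype.restrictScalars k) Subtype.val_injective
  have h1 := rn_EA5 k (g ∘ₗ (range f).subtype)
  have h2 := rn_EA5 k g
  have h3 : range (g ∘ₗ (range f).subtype) = range (g ∘ₗ f) := by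
    rw [range_comp, range_comp, Submodule.range_subtype]
  have h4 : finrank k (ker (g ∘ₗ (range f).subtype)) ≤ finrank k (ker g) := by
    let φ : ker (g ∘ₗ (range f).subtype) →ₗ[R] ker g :=
      ((range f).subtype ∘ₗ (ker (g ∘ₗ (range f).subtype)).subtype).codRestrict _ fun v => v.2
    refine LinearMap.finrank_le_finrank_of_injective (f := φ.restrictScalars k) fun v w h => ?_
    have h5 : (φ v).1 = (φ w).1 := congrArg Subtype.val h
    exact Subtype.ext (Subtype.ext h5)
  rw [h3] at h1
  omega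

theorem prod_EA5 (f : U →ₗ[R] V) :
    finrank k (range f) + finrank k W ≤ finrank k (range (f.prodMap (LinearMap.id : W →ₗ[R] W))) := by
  have : Module.Finite k (ker f) :=
    Module.Finite.of_injective ((ker f).subtype.restrictScalars k) Subtype.val_injective
  have h1 := rn_EA5 k (f.prodMap (LinearMap.id : W →ₗ[R] W))
  have h2 := rn_EA5 k f
  have h4 : finrank k (ker (f.prodMap (LinearMap.id : W →ₗ[R] W))) ≤ finrank k (ker f) := by
    let φ : ker (f.prodMap (LinearMap.id : W →ₗ[R] W)) →ₗ[R] ker f :=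
      (LinearMap.fst R U W ∘ₗ (ker (f.prodMap (LinearMap.id : W →ₗ[R] W))).subtype).codRestrict _
        fun v => congrArg Prod.fst (mem_ker.1 v.2)
    refine LinearMap.finrank_le_finrank_of_injective (f := φ.restrictScalars k) fun v w h => ?_
    have hv : v.1.2 = 0 := congrArg Prod.snd (mem_ker.1 v.2)
    have hw : w.1.2 = 0 := congrArg Prod.snd (mem_ker.1 w.2)
    exact Subtype.ext (Prod.ext (congrArg Subtype.val h) (hv.trans hw.symm))
  rw [finrank_prod] at h1
  omega

theorem equiv_EA5 (e : U ≃ₗ[R] V) :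
    finrank k (range e.toLinearMap) = finrank k U ∧ finrank k U = finrank k V := by
  have h := (e.restrictScalars k).finrank_eq
  refine ⟨?_, h⟩
  rw [e.range, h]
  exact ((Submodule.topEquiv (R := R) (M := V)).restrictScalars k).finrank_eq

theorem lift_EA5 (f : U →ₗ[R] V) (S : Submodule R U) (h : S ≤ ker f) {a : ℕ}
    (ha : finrank k (ker f) ≤ finrank k S + a) : finrank k (ker (S.liftQ f h)) ≤ a := by
  have : Module.Finite k (U ⧸ S) :=
    Module.Finite.of_surjective (S.mkQ.restrictScalars k) S.mkQ_surjective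
  have h1 := rn_EA5 k (S.liftQ f h)
  have h2 := rn_EA5 k f
  have h3 := quot_EA5 k S
  rw [Submodule.range_liftQ] at h1
  omega

theorem cod_EA5 (f : U →ₗ[R] V) (S : Submodule R V) (h : ∀ v, f v ∈ S) :
    finrank k (range (f.codRestrict S h)) = finrank k (range f) := by
  have : Module.Finite k S :=
    Module.Finite.of_injective (S.subtype.restrictScalars k) Subtype.val_injective
  have h1 := rn_EA5 k (f.codRestrict S h)
  have h2 := rn_EA5 k f
  rw [ker_codRestrict] at h1
  omega

end

/-- Compose `β × id`, `γ × id`, `α × id` to a map of free modules that is not onto and has kernel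
and cokernel of dimension at most `B + 4`. If `q > B + 4` the ranks agree and `T.sq` applies. -/
theorem zig {k R : Type} [Field k] [CommRing R] [Algebra k R] {q : ℕ} {x y : R}
    (T : Trunc k R q x y) {M M' : Type} [AddCommGroup M] [Module R M] [Module k M]
    [IsScalarTower k R M] [Module.Finite k M] [AddCommGroup M'] [Module R M'] [Module k M']
    [IsScalarTower k R M'] [Module.Finite k M'] {B : ℕ} (hM : Bel k R M 2 False)
    (hM' : Abv k R M' 2 True) (γ : M →ₗ[R] M') (h1 : finrank k (ker γ) ≤ B)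
    (h2 : finrank k M' ≤ finrank k (range γ) + B) : q ≤ B + 4 := by
  have := T.fin
  obtain ⟨r, r', β, b1, b2, -⟩ := hM
  obtain ⟨s, s', α, a1, a2, a3⟩ := hM'
  by_contra hq
  have hd : ∀ n : ℕ, finrank k (Fin n → R) = n * q ^ 2 := fun n => by
    rw [finrank_pi_fintype, Finset.sum_const, Finset.card_univ, Fintype.card_fin, T.dim,
      smul_eq_mul]
  let f1 := β.prodMap (LinearMap.id : (Fin s' → R) →ₗ[R] (Fin s' → R))
  let f2 := (γ.prodMap (LinearMap.id : (Fin r' → R) →ₗ[R] (Fin r' → R))).prodMap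
    (LinearMap.id : (Fin s' → R) →ₗ[R] (Fin s' → R))
  let e : ((M' × (Fin r' → R)) × (Fin s' → R)) ≃ₗ[R] ((M' × (Fin s' → R)) × (Fin r' → R)) :=
    (LinearEquiv.prodAssoc R _ _ _).trans
      (((LinearEquiv.refl R M').prodCongr (LinearEquiv.prodComm R _ _)).trans
        (LinearEquiv.prodAssoc R _ _ _).symm)
  let f3 := α.prodMap (LinearMap.id : (Fin r' → R) →ₗ[R] (Fin r' → R))
  have p1 : _ ≤ finrank k (range f1) := prod_EA5 k β
  have p2 : _ ≤ finrank k (range f2) := prod_EA5 k _
  have p2' := prod_EA5 k (W := Fin r' → R) γ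
  have p3 : _ ≤ finrank k (range f3) := prod_EA5 k α
  have pe := (equiv_EA5 k e).1
  have s1 := syl_EA5 k f1 f2
  have s2 := syl_EA5 k (f2 ∘ₗ f1) e.toLinearMap
  have s3 := syl_EA5 k (e.toLinearMap ∘ₗ f2 ∘ₗ f1) f3
  have n1 := rn_EA5 k β
  have n2 := rn_EA5 k γ
  have n3 := rn_EA5 k α
  have n4 := rn_EA5 k (f3 ∘ₗ e.toLinearMap ∘ₗ f2 ∘ₗ f1)
  have n5 := le_EA5 k (range (f3 ∘ₗ e.toLinearMap ∘ₗ f2 ∘ₗ f1))
  simp only [finrank_prod, hd] at b2 a2 p1 p2 p2' p3 pe s1 s2 s3 n1 n3 n4 n5
  set ψ := f3 ∘ₗ e.toLinearMap ∘ₗ f2 ∘ₗ f1 with hψ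
  have k1 : r * q ^ 2 + s' * q ^ 2 ≤ finrank k (range ψ) + (B + 4) := by omega
  have k2 : s * q ^ 2 + r' * q ^ 2 ≤ finrank k (range ψ) + (B + 4) := by omega
  have hq2 : B + 4 < q ^ 2 := by nlinarith
  have hn : r + s' = s + r' := by
    have c1 : r + s' < s + r' + 1 := by
      refine Nat.lt_of_mul_lt_mul_right (a := q ^ 2) ?_
      rw [add_mul, add_mul, add_mul, one_mul]
      omega
    have c2 : s + r' < r + s' + 1 := by
      refine Nat.lt_of_mul_lt_mul_right (a := q ^ 2) ?_
      rw [add_mul, add_mul, add_mul, one_mul]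
      omega
    omega
  let e1 : (Fin (r + s') → R) ≃ₗ[R] ((Fin r → R) × (Fin s' → R)) :=
    (LinearEquiv.funCongrLeft R R finSumFinEquiv).trans (LinearEquiv.sumArrowLequivProdArrow _ _ R R)
  let e2 : (Fin (r + s') → R) ≃ₗ[R] ((Fin s → R) × (Fin r' → R)) :=
    (LinearEquiv.funCongrLeft R R (finSumFinEquiv.trans (finCongr hn.symm))).trans
      (LinearEquiv.sumArrowLequivProdArrow _ _ R R)
  have t1 := syl_EA5 k e1.toLinearMap ψ
  have t2 := syl_EA5 k (ψ ∘ₗ e1.toLinearMap) e2.symm.toLinearMap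
  obtain ⟨t3, t4⟩ := equiv_EA5 k e1
  have t5 := (equiv_EA5 k e2.symm).1
  have hs := T.sq (r + s') (e2.symm.toLinearMap ∘ₗ ψ ∘ₗ e1.toLinearMap) (by
    rw [hd, add_mul]
    omega)
  refine a3 trivial fun z => ?_
  obtain ⟨v, hv⟩ := hs (e2.symm (z, 0))
  have hv' : ψ (e1 v) = (z, 0) := e2.symm.injective hv
  exact ⟨_, congrArg Prod.fst hv'⟩

/-- By downward induction `C i ⧸ range (d i)` is free for `i ≥ 5` (`free_quot`). Apply `bel_top`
to `C 5 ⧸ range (d 5) → C 4 → C 3`, `abv_bottom`, and `zig` to the map induced by `d 2`. -/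
theorem sq_core {k R : Type} [Field k] [CommRing R] [Algebra k R] {q : ℕ} {x y : R}
    (T : Trunc k R q x y) (C : ℕ → Type) [∀ i, AddCommGroup (C i)] [∀ i, Module R (C i)]
    [∀ i, Module k (C i)] [∀ i, IsScalarTower k R (C i)] [∀ i, Module.Free R (C i)]
    [∀ i, Module.Finite R (C i)] (d : ∀ i, C (i + 1) →ₗ[R] C i)
    (dd : ∀ i v, d i (d (i + 1) v) = 0) (top : ∃ L, ∀ i, L ≤ i → Subsingleton (C i)) {B : ℕ}
    (h0 : finrank k (C 0) = finrank k (range (d 0)) + 1) (h1 : ker (d 0) ≤ range (d 1))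
    (h2 : finrank k (ker (d 1)) ≤ finrank k (range (d 2)) + B)
    (h3 : finrank k (ker (d 2)) ≤ finrank k (range (d 3)) + B) (h4 : ker (d 3) ≤ range (d 4))
    (h5 : finrank k (ker (d 4)) ≤ finrank k (range (d 5)) + 1)
    (h6 : ∀ i, 5 ≤ i → ker (d i) ≤ range (d (i + 1))) : q ≤ B + 4 := by
  have := T.fin
  have hfin : ∀ i, Module.Finite k (C i) := fun i => Module.Finite.trans R (C i)
  have hle : ∀ i, range (d (i + 1)) ≤ ker (d i) := fun i => by
    rintro _ ⟨v, rfl⟩
    exact dd i v
  obtain ⟨L, hL⟩ := top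
  have hfree : ∀ n i, 5 ≤ i → L ≤ i + n → Module.Free R (C i ⧸ range (d i)) := by
    intro n
    induction n with
    | zero =>
      intro i _ hi
      have := hL i hi
      have : Subsingleton (C i ⧸ range (d i)) := (range (d i)).mkQ_surjective.subsingleton
      infer_instance
    | succ n ih =>
      intro i h5i hi
      have := ih (i + 1) (by omega) (by omega)
      have hinj : Function.Injective ((range (d (i + 1))).liftQ (d i) (hle i)) := by
        rw [← ker_eq_bot]
        exact Submodule.ker_liftQ_eq_bot _ _ _ (h6 i h5i)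
      have hf := free_quot T _ hinj
      rwa [Submodule.range_liftQ] at hf
  have := hfree L 5 le_rfl (by omega)
  have hb : Bel k R (C 3 ⧸ range (d 3)) 2 False := by
    refine bel_top T ((range (d 5)).liftQ (d 4) (hle 4)) (d 3) ?_ ?_
    · exact lift_EA5 k (d 4) (range (d 5)) (hle 4) h5
    · rw [Submodule.range_liftQ]
      exact le_antisymm h4 (hle 3)
  have ha : Abv k R (ker (d 1)) 2 True := abv_bottom T (d 0) (d 1) h0 (le_antisymm h1 (hle 0))
  have : Module.Finite k (C 3 ⧸ range (d 3)) :=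
    Module.Finite.of_surjective ((range (d 3)).mkQ.restrictScalars k) (range (d 3)).mkQ_surjective
  have : Module.Finite k (ker (d 1)) :=
    Module.Finite.of_injective ((ker (d 1)).subtype.restrictScalars k) Subtype.val_injective
  let δ : C 3 →ₗ[R] ker (d 1) := (d 2).codRestrict _ fun v => dd 1 v
  have hδ : ker δ = ker (d 2) := ker_codRestrict _ _ _
  have hl : range (d 3) ≤ ker δ := hδ ▸ hle 2
  refine zig T hb ha ((range (d 3)).liftQ δ hl) (lift_EA5 k δ _ hl (by rw [hδ]; exact h3)) ?_
  rw [Submodule.range_liftQ]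
  exact h2.trans_eq (congrArg (· + B) (cod_EA5 k (d 2) (ker (d 1)) fun v => dd 1 v).symm)

end RG
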