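import Pool.Agent.P.MP_8a106a_gt.EA5

/-! From permutation complexes to complexes of free modules. -/

set_option autoImplicit false
set_option linter.unusedSectionVars false

noncomputable section

namespace RG

open Module LinearMap

/-- The permutation representation on functions. -/
def permRep (k G S : Type) [Field k] [Group G] [MulAction G S] : Representation k G (S → k) where
  toFun g := LinearMap.funLeft k k fun s => g⁻¹ • s
  map_one' := by ext; simp
  map_mul' g h := by ext; simp [mul_smul]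

/-- The indicator functions of orbit representatives form a basis. -/
theorem permRep_free (k G S : Type) [Field k] [Group G] [Finite G] [MulAction G S] [Finite S]
    (h : ∀ (g : G) (s : S), g • s = s → g = 1) :
    Module.Free (MonoidAlgebra k G) (permRep k G S).asModule := by
  let Q := MulAction.orbitRel.Quotient G S
  let Φ : (permRep k G S).asModule →ₗ[MonoidAlgebra k G] (Q → MonoidAlgebra k G) :=
    { toFun := fun x q => .ofCoeff (Finsupp.equivFunOnFinite.symm fun g =>
        (permRep k G S).asModuleEquiv x (g • q.out))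
      map_add' := fun x y => by
        ext q g
        simp
      map_smul' := fun r x => by
        ext q g
        induction r using MonoidAlgebra.induction_linear with
        | zero => simp
        | add a b ha hb => simpa [add_mul] using congrArg₂ (· + ·) ha hb
        | single a t => simp [mul_smul]; rfl }
  have hΦ : ∀ x q g, (Φ x q).coeff g = (permRep k G S).asModuleEquiv x (g • q.out) :=
    fun _ _ _ => rfl
  have hs : ∀ s : S, ∃ g : G, g • (Quotient.mk (MulAction.orbitRel G S) s).out = s := fun s =>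
    MulAction.orbitRel_apply.1 ((MulAction.orbitRel G S).symm (Quotient.mk_out s))
  choose γ hγ using hs
  refine Module.Free.of_equiv (LinearEquiv.ofBijective Φ ⟨fun x y e => ?_, fun y => ?_⟩).symm
  · refine (permRep k G S).asModuleEquiv.injective (funext fun s => ?_)
    rw [← hγ s, ← hΦ, ← hΦ, e]
  · refine ⟨(permRep k G S).asModuleEquiv.symm fun s => (y (Quotient.mk _ s)).coeff (γ s), ?_⟩
    ext q g
    have e : Quotient.mk (MulAction.orbitRel G S) (g • q.out) = q := by
      conv_rhs => rw [← Quotient.out_eq q]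
      exact Quotient.sound (MulAction.orbitRel_apply.2 ⟨g, rfl⟩)
    have e' : γ (g • q.out) = g := by
      have h1 := hγ (g • q.out)
      rw [e, ← inv_smul_eq_iff, ← mul_smul] at h1
      exact (inv_mul_eq_one.1 (h _ _ h1)).symm
    rw [hΦ, LinearEquiv.apply_symm_apply, e, e']

/-- Restriction along an injective homomorphism. -/
theorem PC.res {k Γ G : Type} [Field k] [Group Γ] [Group G] {B : ℕ} (P : PC k Γ B) (f : G →* Γ)
    (hf : Function.Injective f) : Nonempty (PC k G B) :=
  ⟨{ S := P.S
     act := fun i => MulAction.compHom (P.S i) f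
     free := fun i g s e => hf ((P.free i (f g) s e).trans f.map_one.symm)
     d := P.d
     eqv := fun i g => P.eqv i (f g)
     dd := P.dd
     top := P.top
     ne := P.ne
     h0 := P.h0
     h1 := P.h1
     h2 := P.h2
     h3 := P.h3
     h4 := P.h4
     h5 := P.h5
     h6 := P.h6 }⟩

theorem finrank_EA6 {k G V : Type} [Field k] [Group G] [AddCommGroup V] [Module k V]
    (ρ : Representation k G V) (N : Submodule (MonoidAlgebra k G) ρ.asModule) (N' : Submodule k V)
    (h : ∀ x, x ∈ N ↔ ρ.asModuleEquiv x ∈ N') : finrank k N = finrank k N' := by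
  have e : N' = (N.restrictScalars k).map ρ.asModuleEquiv.toLinearMap := by
    rw [Submodule.map_equiv_eq_comap_symm]
    ext x
    exact (h (ρ.asModuleEquiv.symm x)).symm
  rw [e, LinearEquiv.finrank_map_eq]
  rfl

theorem comm_EA6 {p : ℕ} [Fact p.Prime] {G : Type} [CommGroup G] [Finite G] {B : ℕ}
    (P : PC (ZMod p) G B) {m : ℕ} {g h : G} (hg : g ^ p ^ m = 1) (hh : h ^ p ^ m = 1)
    (hc : Nat.card G = (p ^ m) ^ 2) (hgen : Subgroup.closure {g, h} = ⊤) : p ^ m ≤ B + 4 := by
  let ρ := fun i => permRep (ZMod p) G (P.S i)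
  let D : ∀ i, (ρ (i + 1)).asModule →ₗ[MonoidAlgebra (ZMod p) G] (ρ i).asModule := fun i =>
    Representation.IntertwiningMap.equivLinearMapAsModule _ _
      ⟨P.d i, fun a => LinearMap.ext fun x => P.eqv i a⁻¹ x⟩
  have hk : ∀ i, finrank (ZMod p) (ker (D i)) = finrank (ZMod p) (ker (P.d i)) := fun i =>
    finrank_EA6 _ _ _ fun _ => Iff.rfl
  have hr : ∀ i, finrank (ZMod p) (range (D i)) = finrank (ZMod p) (range (P.d i)) := fun i =>
    finrank_EA6 _ _ _ fun _ => Iff.rfl
  have := fun i => permRep_free (ZMod p) G (P.S i) (P.free i)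
  have : ∀ i, Module.Finite (MonoidAlgebra (ZMod p) G) (ρ i).asModule := fun i =>
    Module.Finite.of_restrictScalars_finite (ZMod p) _ _
  refine sq_core (trunc_group p m G hg hh hc hgen) (fun i => (ρ i).asModule) D P.dd ?_ ?_ P.h1
    ?_ ?_ P.h4 ?_ P.h6
  · obtain ⟨L, hL⟩ := P.top
    refine ⟨L, fun i hi => ?_⟩
    have := hL i hi
    exact (ρ i).asModuleEquiv.injective.subsingleton
  · let σ : (P.S 0 → ZMod p) →ₗ[ZMod p] ZMod p := ∑ s, LinearMap.proj s
    have e : range (P.d 0) = ker σ := Submodule.ext fun x => by simp [P.h0, σ]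
    have e' : range σ = ⊤ := by
      classical
      obtain ⟨s⟩ := P.ne
      exact range_eq_top.2 fun c => ⟨Pi.single s c, by simp [σ]⟩
    rw [hr, (ρ 0).asModuleEquiv.finrank_eq, e, ← σ.finrank_range_add_finrank_ker, e', finrank_top,
      finrank_self, add_comm]
  · rw [hk, hr]; exact P.h2
  · rw [hk, hr]; exact P.h3
  · rw [hk, hr]; exact P.h5

theorem gen_EA6 {A A' : Type} [Group A] [Group A'] {a : A} {b : A'}
    (ha : ∀ x, x ∈ Subgroup.zpowers a) (hb : ∀ x, x ∈ Subgroup.zpowers b) :
    Subgroup.closure {((a, 1) : A × A'), (1, b)} = ⊤ := by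
  rw [eq_top_iff]
  rintro ⟨x, y⟩ -
  obtain ⟨i, rfl⟩ := Subgroup.mem_zpowers_iff.1 (ha x)
  obtain ⟨j, rfl⟩ := Subgroup.mem_zpowers_iff.1 (hb y)
  have e : ((a ^ i, b ^ j) : A × A') = (a, 1) ^ i * (1, b) ^ j := by simp
  rw [e]
  refine mul_mem (zpow_mem (Subgroup.subset_closure ?_) i) (zpow_mem (Subgroup.subset_closure ?_) j)
  · exact Set.mem_insert _ _
  · exact Set.mem_insert_of_mem _ (Set.mem_singleton _)

theorem zp_EA6 {Γ : Type} [Group Γ] (g : Γ) (x : Subgroup.zpowers g) :
    x ∈ Subgroup.zpowers (⟨g, Subgroup.mem_zpowers g⟩ : Subgroup.zpowers g) := by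
  obtain ⟨i, hi⟩ := Subgroup.mem_zpowers_iff.1 x.2
  exact Subgroup.mem_zpowers_iff.2 ⟨i, Subtype.ext hi⟩

/-- Restrict to `zpowers g × zpowers h` and apply `sq_core` to the modules `asModule`. -/
theorem PC.sq_le {p : ℕ} [Fact p.Prime] {Γ : Type} [Group Γ] {B : ℕ} (P : PC (ZMod p) Γ B) {m : ℕ}
    {g h : Γ} (hg : orderOf g = p ^ m) (hh : orderOf h = p ^ m) (hc : Commute g h)
    (hd : Disjoint (Subgroup.zpowers g) (Subgroup.zpowers h)) : p ^ m ≤ B + 4 := by
  have hq : 0 < p ^ m := pow_pos (Fact.out : p.Prime).pos m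
  have : Finite (Subgroup.zpowers g) := finite_zpowers.2 (orderOf_pos_iff.1 (hg ▸ hq))
  have : Finite (Subgroup.zpowers h) := finite_zpowers.2 (orderOf_pos_iff.1 (hh ▸ hq))
  let : CommGroup (Subgroup.zpowers g) := IsCyclic.commGroup
  let : CommGroup (Subgroup.zpowers h) := IsCyclic.commGroup
  let f : Subgroup.zpowers g × Subgroup.zpowers h →* Γ :=
    MonoidHom.noncommCoprod (Subgroup.subtype _) (Subgroup.subtype _) (by
      rintro ⟨_, a, rfl⟩ ⟨_, b, rfl⟩
      exact hc.zpow_zpow a b)
  have hf : Function.Injective f := by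
    rw [MonoidHom.noncommCoprod_injective]
    exact ⟨Subtype.val_injective, Subtype.val_injective, by simpa using hd⟩
  obtain ⟨P'⟩ := P.res f hf
  refine comm_EA6 P' (g := (⟨g, Subgroup.mem_zpowers g⟩, 1)) (h := (1, ⟨h, Subgroup.mem_zpowers h⟩))
    (hf ?_) (hf ?_) ?_ (gen_EA6 (zp_EA6 g) (zp_EA6 h))
  · simp [f, ← hg]
  · simp [f, ← hh]
  · rw [Nat.card_prod, Nat.card_zpowers, Nat.card_zpowers, hg, hh, sq]

end RG
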