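import Pool.Agent.P.MP_8a106a_gt.EDefs

/-! Multiplicities of eigenvalues. -/

set_option autoImplicit false
set_option linter.unusedSectionVars false

noncomputable section

namespace RG

open Module LinearMap

variable {k V V' : Type} [Field k] [AddCommGroup V] [Module k V] [FiniteDimensional k V]
  [AddCommGroup V'] [Module k V'] [FiniteDimensional k V'] {m : ℕ}

theorem rank_null_EB1 (f : V →ₗ[k] V') (S : Submodule k V) :
    finrank k (S.map f) + finrank k (S ⊓ ker f : Submodule k V) = finrank k S := by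
  rw [← (f.domRestrict S).finrank_range_add_finrank_ker, range_domRestrict, ker_domRestrict,
    ← Submodule.finrank_map_subtype_eq S, Submodule.map_comap_subtype]

theorem pow_mem_EB1 {ν : Module.End k V} {U : Submodule k V} (hU : ∀ v ∈ U, ν v ∈ U) (i : ℕ) :
    ∀ v ∈ U, (ν ^ i) v ∈ U := by
  intro v hv
  induction i with
  | zero => exact hv
  | succ i ih =>
    rw [pow_succ']
    exact hU _ ih

theorem tw_pow_EB1 {ν X : Module.End k V} {c : k} (tw : ∀ v, ν (X v) = c • X (ν v)) (a : ℕ)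
    (v : V) : ν ((X ^ a) v) = c ^ a • (X ^ a) (ν v) := by
  induction a with
  | zero => simp
  | succ a ih =>
    rw [pow_succ' X, Module.End.mul_apply, Module.End.mul_apply, tw, ih, map_smul, smul_smul,
      pow_succ']

theorem comm_pow_EB1 {X : Module.End k V} {X' : Module.End k V'} {d : V →ₗ[k] V'}
    (dX : ∀ v, d (X v) = X' (d v)) (a : ℕ) (v : V) : d ((X ^ a) v) = (X' ^ a) (d v) := by
  induction a with
  | zero => simp
  | succ a ih =>
    rw [pow_succ' X, pow_succ' X', Module.End.mul_apply, Module.End.mul_apply, dX, ih]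

theorem sum_mu_le_EB1 (ν : Module.End k V) (Λ : Finset k) (U : Submodule k V) :
    ∑ l ∈ Λ, mu ν U l ≤ finrank k U := by
  classical
  induction Λ using Finset.induction_on generalizing U with
  | empty => simp
  | insert a s ha ih =>
    have h1 := rank_null_EB1 (ν - a • (1 : Module.End k V)) U
    have h2 := ih (U.map (ν - a • (1 : Module.End k V)))
    have h3 : ∑ l ∈ s, mu ν U l ≤ ∑ l ∈ s, mu ν (U.map (ν - a • (1 : Module.End k V))) l := by
      refine Finset.sum_le_sum fun l hl => Submodule.finrank_mono fun v hv => ⟨?_, hv.2⟩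
      have h4 : l - a ≠ 0 := sub_ne_zero.2 fun h => ha (h ▸ hl)
      refine ⟨(l - a)⁻¹ • v, U.smul_mem _ hv.1, ?_⟩
      rw [map_smul, LinearMap.sub_apply, Module.End.mem_eigenspace_iff.1 hv.2,
        LinearMap.smul_apply, Module.End.one_apply, ← sub_smul, smul_smul, inv_mul_cancel₀ h4,
        one_smul]
    have h4 : mu ν U a = finrank k (U ⊓ ker (ν - a • (1 : Module.End k V)) : Submodule k V) := by
      rw [mu, Module.End.eigenspace_def]
    rw [Finset.sum_insert ha]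
    omega

/-- If `f u ≠ 0` is an eigenvector then `l ^ m = 1`, and the projector
`m⁻¹ ∑ i < m, l⁻¹ ^ i • ν ^ i` shows `U.map f ⊓ E' (σ l) = (U ⊓ E l).map f`. -/
theorem mu_map {ν : Module.End k V} {ν' : Module.End k V'} (hm : (m : k) ≠ 0) (hν : ν ^ m = 1)
    (f : V →ₗ[k] V') {σ : k} (hσ : σ ≠ 0) (hf : ∀ v, ν' (f v) = σ • f (ν v)) {U : Submodule k V}
    (hU : ∀ v ∈ U, ν v ∈ U) (l : k) :
    mu ν' (U.map f) (σ * l) + mu ν (U ⊓ ker f) l = mu ν U l := by
  have h1 : U.map f ⊓ ν'.eigenspace (σ * l) = (U ⊓ ν.eigenspace l).map f := by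
    apply le_antisymm
    · rintro _ ⟨⟨u, hu, rfl⟩, h2⟩
      have h3 : ν' (f u) = (σ * l) • f u := Module.End.mem_eigenspace_iff.1 h2
      by_cases h0 : f u = 0
      · rw [h0]
        exact zero_mem _
      have h4 : ∀ i : ℕ, f ((ν ^ i) u) = l ^ i • f u := fun i => by
        induction i with
        | zero => simp
        | succ i ih =>
          apply smul_right_injective V' hσ
          beta_reduce
          rw [pow_succ' ν, Module.End.mul_apply, ← hf, ih, map_smul, h3, smul_smul, smul_smul]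
          congr 1
          ring
      have h5 : l ^ m = 1 := by
        have h6 := h4 m
        rw [hν, Module.End.one_apply] at h6
        exact smul_left_injective k h0 (h6.symm.trans (one_smul k _).symm)
      have hl : l ≠ 0 := by
        rintro rfl
        rw [zero_pow (by rintro rfl; exact hm Nat.cast_zero)] at h5
        exact zero_ne_one h5
      have h6 : (l⁻¹ • ν) ^ m = 1 := by rw [smul_pow, hν, inv_pow, h5, inv_one, one_smul]
      have h7 := mul_geom_sum (l⁻¹ • ν) m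
      rw [h6, sub_self] at h7
      have h8 := LinearMap.congr_fun h7 u
      rw [Module.End.mul_apply, LinearMap.sub_apply, LinearMap.smul_apply, Module.End.one_apply,
        LinearMap.zero_apply, sub_eq_zero] at h8
      refine ⟨(m : k)⁻¹ • (∑ i ∈ Finset.range m, (l⁻¹ • ν) ^ i) u,
        Submodule.smul_mem _ _ ⟨?_, ?_⟩, ?_⟩
      · rw [LinearMap.sum_apply]
        refine U.sum_mem fun i _ => ?_
        rw [smul_pow]
        exact U.smul_mem _ (pow_mem_EB1 hU i u hu)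
      · exact Module.End.mem_eigenspace_iff.2 ((inv_smul_eq_iff₀ hl).1 h8)
      · rw [map_smul, LinearMap.sum_apply, map_sum, Finset.sum_congr rfl (g := fun _ => f u),
          Finset.sum_const, Finset.card_range, ← Nat.cast_smul_eq_nsmul k, smul_smul,
          inv_mul_cancel₀ hm, one_smul]
        intro i _
        rw [smul_pow, LinearMap.smul_apply, map_smul, h4, smul_smul, ← mul_pow,
          inv_mul_cancel₀ hl, one_pow, one_smul]
    · rintro _ ⟨u, ⟨hu, h2⟩, rfl⟩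
      refine ⟨⟨u, hu, rfl⟩, Module.End.mem_eigenspace_iff.2 ?_⟩
      rw [hf, Module.End.mem_eigenspace_iff.1 h2, map_smul, smul_smul]
  rw [mu, mu, mu, h1, inf_right_comm]
  exact rank_null_EB1 f _

/-- Eigenspaces are independent, and ` (⨆ l, Z ⊓ E l) ⊓ B = ⨆ l, B ⊓ E l`; or apply `mu_map` to
the quotient map by `B`. -/
theorem mu_sum {ν : Module.End k V} (hm : (m : k) ≠ 0) (hν : ν ^ m = 1) {B Z : Submodule k V}
    (h : B ≤ Z) (hB : ∀ v ∈ B, ν v ∈ B) (hZ : ∀ v ∈ Z, ν v ∈ Z) (Λ : Finset k) :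
    ∑ l ∈ Λ, mu ν Z l + finrank k B ≤ ∑ l ∈ Λ, mu ν B l + finrank k Z := by
  have h1 := fun l => mu_map (ν' := B.mapQ B ν hB) hm hν B.mkQ one_ne_zero
    (fun v => by rw [one_smul]; rfl) hZ l
  have h2 := sum_mu_le_EB1 (B.mapQ B ν hB) Λ (Z.map B.mkQ)
  have h3 := rank_null_EB1 B.mkQ Z
  simp only [one_mul, Submodule.ker_mkQ, inf_eq_right.2 h] at h1
  rw [Submodule.ker_mkQ, inf_eq_right.2 h] at h3
  rw [← Finset.sum_congr rfl fun l _ => h1 l, Finset.sum_add_distrib]
  omega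

theorem mu_mono (ν : Module.End k V) {B Z : Submodule k V} (h : B ≤ Z) (l : k) :
    mu ν B l ≤ mu ν Z l := by
  exact Submodule.finrank_mono (inf_le_inf_right _ h)

/-- Dimension shifting. Apply `mu_map` for `d` and for `X ^ a` to `Y = ker (X' ^ a ∘ d)` and
`W = ker d ⊔ range (X ^ b)`. -/
theorem tt_shift {ν X : Module.End k V} {ν' X' : Module.End k V'} (hm : (m : k) ≠ 0)
    (hν : ν ^ m = 1) {c : k} (hc : c ≠ 0) (tw : ∀ v, ν (X v) = c • X (ν v)) {a b : ℕ}
    (hab : ker (X ^ a) = range (X ^ b)) (hba : ker (X ^ b) = range (X ^ a)) (d : V →ₗ[k] V')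
    (dX : ∀ v, d (X v) = X' (d v)) (dν : ∀ v, d (ν v) = ν' (d v)) (l : k) :
    tt ν' X' a b (range d) l = tt ν X b a (ker d) (c ^ a * l) := by
  have hk : ∀ v ∈ ker d, ν v ∈ ker d := fun v hv => by
    rw [mem_ker, dν, mem_ker.1 hv, map_zero]
  have hY : ∀ v ∈ ker (d ∘ₗ X ^ a), ν v ∈ ker (d ∘ₗ X ^ a) := fun v hv => by
    have h1 : ν ((X ^ a) v) ∈ ker d := hk _ hv
    rw [tw_pow_EB1 tw] at h1
    exact ((ker d).smul_mem_iff (pow_ne_zero a hc)).1 h1
  have hW : ∀ v ∈ ker d ⊔ range (X ^ b), ν v ∈ ker d ⊔ range (X ^ b) := fun v hv => by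
    obtain ⟨y, hy, _, ⟨z, rfl⟩, rfl⟩ := Submodule.mem_sup.1 hv
    rw [map_add, tw_pow_EB1 tw]
    exact Submodule.add_mem_sup (hk y hy) (Submodule.smul_mem _ _ ⟨_, rfl⟩)
  have hd : ∀ v, ν' (d v) = (1 : k) • d (ν v) := fun v => by rw [one_smul, dν]
  have h1 := mu_map hm hν d one_ne_zero hd hY l
  have h2 := mu_map hm hν d one_ne_zero hd hW l
  have h3 := mu_map hm hν (X ^ a) (pow_ne_zero a hc) (tw_pow_EB1 tw a) hY l
  have h4 := mu_map hm hν (X ^ a) (pow_ne_zero a hc) (tw_pow_EB1 tw a) hW l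
  have e1 : (ker (d ∘ₗ X ^ a)).map d = range d ⊓ ker (X' ^ a) := by
    apply le_antisymm
    · rintro _ ⟨v, hv, rfl⟩
      exact ⟨⟨v, rfl⟩, (comm_pow_EB1 dX a v).symm.trans hv⟩
    · rintro _ ⟨⟨v, rfl⟩, hv⟩
      exact ⟨v, (comm_pow_EB1 dX a v).trans hv, rfl⟩
  have e2 : ker (d ∘ₗ X ^ a) ⊓ ker d = ker d := inf_eq_right.2 fun v hv =>
    (comm_pow_EB1 dX a v).trans (by rw [mem_ker.1 hv, map_zero])
  have e3 : (ker d ⊔ range (X ^ b)).map d = (range d).map (X' ^ b) := by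
    apply le_antisymm
    · rintro _ ⟨v, hv, rfl⟩
      obtain ⟨y, hy, _, ⟨z, rfl⟩, rfl⟩ := Submodule.mem_sup.1 hv
      exact ⟨d z, ⟨z, rfl⟩, by rw [map_add, mem_ker.1 hy, zero_add, comm_pow_EB1 dX]⟩
    · rintro _ ⟨_, ⟨v, rfl⟩, rfl⟩
      exact ⟨(X ^ b) v, Submodule.mem_sup_right ⟨v, rfl⟩, comm_pow_EB1 dX b v⟩
  have e4 : (ker (d ∘ₗ X ^ a)).map (X ^ a) = ker d ⊓ ker (X ^ b) := by
    rw [hba]
    apply le_antisymm
    · rintro _ ⟨v, hv, rfl⟩
      exact ⟨hv, v, rfl⟩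
    · rintro _ ⟨hv, v, rfl⟩
      exact ⟨v, hv, rfl⟩
  have e5 : ker (d ∘ₗ X ^ a) ⊓ ker (X ^ a) = ker (X ^ a) := inf_eq_right.2 (ker_le_ker_comp _ _)
  have e6 : (ker d ⊔ range (X ^ b)).map (X ^ a) = (ker d).map (X ^ a) := by
    rw [Submodule.map_sup, ← hab, (Submodule.eq_bot_iff ((ker (X ^ a)).map (X ^ a))).2, sup_bot_eq]
    rintro _ ⟨v, hv, rfl⟩
    exact hv
  have e7 : (ker d ⊔ range (X ^ b)) ⊓ ker (X ^ a) = ker (X ^ a) :=
    inf_eq_right.2 (hab.le.trans le_sup_right)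
  rw [e1, e2, one_mul] at h1
  rw [e3, inf_eq_right.2 le_sup_left, one_mul] at h2
  rw [e4, e5] at h3
  rw [e6, e7] at h4
  rw [tt, tt]
  omega

/-- Both kernels lie in `B`. -/
theorem tt_of_ker_le {ν X : Module.End k V} (hm : (m : k) ≠ 0) (hν : ν ^ m = 1) {c : k}
    (hc : c ≠ 0) (tw : ∀ v, ν (X v) = c • X (ν v)) {a b : ℕ} {B Z : Submodule k V} (h : B ≤ Z)
    (hB : ∀ v ∈ B, ν v ∈ B) (hZ : ∀ v ∈ Z, ν v ∈ Z) (ha : Z ⊓ ker (X ^ a) ≤ B)
    (hb : Z ⊓ ker (X ^ b) ≤ B) (l : k) :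
    tt ν X b a B (c ^ a * l) = tt ν X b a Z (c ^ a * l) + (mu ν Z l - mu ν B l) := by
  have h1 := mu_map hm hν (X ^ a) (pow_ne_zero a hc) (tw_pow_EB1 tw a) hB l
  have h2 := mu_map hm hν (X ^ a) (pow_ne_zero a hc) (tw_pow_EB1 tw a) hZ l
  have e1 : B ⊓ ker (X ^ a) = Z ⊓ ker (X ^ a) :=
    le_antisymm (inf_le_inf_right _ h) (le_inf ha inf_le_right)
  have e2 : B ⊓ ker (X ^ b) = Z ⊓ ker (X ^ b) :=
    le_antisymm (inf_le_inf_right _ h) (le_inf hb inf_le_right)
  rw [e1] at h1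
  rw [tt, tt, e2]
  omega

/-- Both images come from `B`. -/
theorem tt_of_map_le {ν X : Module.End k V} (hm : (m : k) ≠ 0) (hν : ν ^ m = 1) {c : k}
    (hc : c ≠ 0) (tw : ∀ v, ν (X v) = c • X (ν v)) {a b : ℕ} {B Z : Submodule k V} (h : B ≤ Z)
    (hB : ∀ v ∈ B, ν v ∈ B) (hZ : ∀ v ∈ Z, ν v ∈ Z) (ha : Z.map (X ^ a) ≤ B.map (X ^ a))
    (hb : Z.map (X ^ b) ≤ B.map (X ^ b)) (l : k) :
    tt ν X a b Z l = tt ν X a b B l + (mu ν Z l - mu ν B l) := by
  have h1 := mu_map hm hν (X ^ a) (pow_ne_zero a hc) (tw_pow_EB1 tw a) hB l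
  have h2 := mu_map hm hν (X ^ a) (pow_ne_zero a hc) (tw_pow_EB1 tw a) hZ l
  rw [le_antisymm ha (Submodule.map_mono h)] at h2
  rw [tt, tt, le_antisymm hb (Submodule.map_mono h)]
  omega

/-- A nilpotent operator on a space of dimension at most `s` has vanishing `s`-th power. -/
theorem pow_mem_of_nil {X : Module.End k V} {p s : ℕ} (hX : X ^ p = 0) {B Z : Submodule k V}
    (h : B ≤ Z) (hB : ∀ v ∈ B, X v ∈ B) (hZ : ∀ v ∈ Z, X v ∈ Z)
    (hs : finrank k Z ≤ finrank k B + s) : ∀ v ∈ Z, (X ^ s) v ∈ B := by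
  induction s generalizing Z with
  | zero =>
    intro v hv
    rw [Submodule.eq_of_le_of_finrank_le h hs]
    exact hv
  | succ s ih =>
    intro v hv
    have h1 : B ⊔ Z.map X ≤ Z := sup_le h (by
      rintro _ ⟨w, hw, rfl⟩
      exact hZ w hw)
    rcases h1.eq_or_lt with h2 | h2
    · have h3 : ∀ n : ℕ, ∀ w ∈ Z, w ∈ B ⊔ Z.map (X ^ n) := fun n => by
        induction n with
        | zero => exact fun w hw => Submodule.mem_sup_right ⟨w, hw, rfl⟩
        | succ n ihn =>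
          intro w hw
          obtain ⟨y, hy, _, ⟨z, hz, rfl⟩, rfl⟩ := Submodule.mem_sup.1 (ihn w hw)
          obtain ⟨y', hy', _, ⟨z', hz', rfl⟩, rfl⟩ := Submodule.mem_sup.1 (h2.ge hz)
          rw [map_add, ← add_assoc]
          exact Submodule.add_mem_sup (B.add_mem hy (pow_mem_EB1 hB n _ hy'))
            ⟨z', hz', by rw [pow_succ]; rfl⟩
      have h4 := h3 p v hv
      rw [hX, Submodule.map_zero, sup_bot_eq] at h4
      exact pow_mem_EB1 hB _ v h4
    · have h3 := Submodule.finrank_lt_finrank_of_lt h2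
      rw [pow_succ]
      refine ih (Z := B ⊔ Z.map X) le_sup_left (fun w hw => ?_) (by omega) _
        (Submodule.mem_sup_right ⟨v, hv, rfl⟩)
      exact Submodule.mem_sup_right ⟨w, h1 hw, rfl⟩

/-- `range (X ^ b) ≤ ker (X ^ a)`, and `finrank (ker (X ^ j)) ≤ j * finrank (ker X)`. -/
theorem free_of_ker {X : Module.End k V} {p : ℕ} (hX : X ^ p = 0)
    (h : p * finrank k (ker X) ≤ finrank k V) {a b : ℕ} (hab : a + b = p) :
    ker (X ^ a) = range (X ^ b) := by
  have h1 : ∀ j : ℕ, finrank k (ker (X ^ j)) ≤ j * finrank k (ker X) := fun j => by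
    induction j with
    | zero =>
      rw [pow_zero, Module.End.one_eq_id, ker_id, finrank_bot]
      exact Nat.zero_le _
    | succ j ih =>
      have h2 := rank_null_EB1 X (ker (X ^ (j + 1)))
      have h3 : finrank k ((ker (X ^ (j + 1))).map X) ≤ finrank k (ker (X ^ j)) :=
        Submodule.finrank_mono (by
          rintro _ ⟨v, hv, rfl⟩
          rw [pow_succ] at hv
          exact hv)
      have h4 : finrank k (ker (X ^ (j + 1)) ⊓ ker X : Submodule k V) ≤ finrank k (ker X) :=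
        Submodule.finrank_mono inf_le_right
      rw [add_mul, one_mul]
      omega
  have h2 : range (X ^ b) ≤ ker (X ^ a) := by
    rintro _ ⟨v, rfl⟩
    rw [mem_ker, ← Module.End.mul_apply, ← pow_add, hab, hX, LinearMap.zero_apply]
  have h3 := (X ^ b).finrank_range_add_finrank_ker
  have h4 := h1 a
  have h5 := h1 b
  rw [← hab, add_mul] at h
  exact (Submodule.eq_of_le_of_finrank_le h2 (by omega)).symm

end RG
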