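import Pool.Agent.P.MP_8a106a_gt.EB1

/-! Diagram chases. -/

set_option autoImplicit false
set_option linter.unusedSectionVars false

noncomputable section

namespace RG

open Module LinearMap

variable {k : Type} [Field k] {p m B : ℕ} {c : k} (W : TW k p m B c)

theorem TW.nil_EB2 (i : ℕ) : W.X i ^ p = 0 := by
  have h := W.free i p 0 rfl
  rw [pow_zero, Module.End.one_eq_id, range_id] at h
  exact ker_eq_top.1 h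

theorem TW.pp_EB2 (i : ℕ) (a b : ℕ) (v : W.V i) :
    (W.X i ^ a) ((W.X i ^ b) v) = (W.X i ^ (a + b)) v := by
  rw [pow_add, Module.End.mul_apply]

theorem TW.pz_EB2 (i : ℕ) {a b : ℕ} (h : a + b = p) (v : W.V i) :
    (W.X i ^ a) ((W.X i ^ b) v) = 0 := by
  rw [W.pp_EB2, h, W.nil_EB2, LinearMap.zero_apply]

theorem TW.dp_EB2 (i a : ℕ) (v : W.V (i + 1)) :
    W.d i ((W.X (i + 1) ^ a) v) = (W.X i ^ a) (W.d i v) :=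
  comm_pow_EB1 (W.dX i) a v

theorem TW.ex_EB2 (i : ℕ) {a b : ℕ} (h : a + b = p) {v : W.V i} (hv : (W.X i ^ a) v = 0) :
    ∃ u, (W.X i ^ b) u = v := (W.free i a b h).le hv

theorem TW.bd_EB2 (i : ℕ) {s : ℕ}
    (h : finrank k (ker (W.d i)) ≤ finrank k (range (W.d (i + 1))) + s) {v : W.V (i + 1)}
    (hv : W.d i v = 0) : ∃ u, W.d (i + 1) u = (W.X (i + 1) ^ s) v := by
  refine pow_mem_of_nil (W.nil_EB2 (i + 1)) (B := range (W.d (i + 1))) ?_ ?_ ?_ h v hv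
  · rintro _ ⟨u, rfl⟩
    exact W.dd i u
  · rintro _ ⟨u, rfl⟩
    exact ⟨_, W.dX _ u⟩
  · intro u hu
    rw [mem_ker, W.dX, mem_ker.1 hu, map_zero]

/-- Downward induction on `i` for all `a`, `b` at once. If `X ^ a (d v) = 0` then `X ^ a v` is a
cycle killed by `X ^ b`, so `X ^ a v = X ^ a (d w)` and `v - d w ∈ range (X ^ b)`. -/
theorem TW.fr (i : ℕ) (hi : 5 ≤ i) {a b : ℕ} (hab : a + b = p) :
    range (W.d i) ⊓ ker (W.X i ^ a) ≤ (range (W.d i)).map (W.X i ^ b) := by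
  obtain ⟨L, hL⟩ := W.top
  obtain ⟨n, hn⟩ : ∃ n, L ≤ i + n := ⟨L, Nat.le_add_left _ _⟩
  induction n generalizing i a b with
  | zero =>
    have := hL i hn
    intro y _
    rw [Subsingleton.elim y 0]
    exact zero_mem _
  | succ n ih =>
    rintro _ ⟨⟨v, rfl⟩, hv⟩
    obtain ⟨_, ⟨w, rfl⟩, hw⟩ := ih (i + 1) (by omega) (a := b) (b := a) (by omega) (by omega)
      (x := (W.X (i + 1) ^ a) v)
      ⟨W.h6 i hi ((W.dp_EB2 i a v).trans hv), W.pz_EB2 _ (by omega) v⟩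
    obtain ⟨u, hu⟩ := W.ex_EB2 (i + 1) hab (v := v - W.d (i + 1) w) (by rw [map_sub, hw, sub_self])
    exact ⟨W.d i u, ⟨u, rfl⟩, by rw [← W.dp_EB2, hu, map_sub, W.dd, sub_zero]⟩

/-- With `s = B + 1`. Let `y = X ^ b v`, `d v = X ^ a v₁`, `d v₁ = X ^ b v₀ = X ^ s (d w₁)` since
`X ^ (b - s) v₀ ∈ ker ε`. So `v₁ - X ^ s w₁` is a cycle `d w₂` and
`X ^ (b - s) (d v) = X ^ (p - s) (d w₂)`. Then `z = X ^ (b - s) v - X ^ (p - s) w₂` is a cycle with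
`X ^ s z = y`; use `pow_mem_of_nil`. -/
theorem TW.pi2 {a b : ℕ} (hab : a + b = p) (hb : B + 2 ≤ b) :
    ker (W.d 1) ⊓ ker (W.X 2 ^ a) ≤ range (W.d 2) := by
  obtain ⟨t, rfl⟩ : ∃ t, b = B + (t + 1) := ⟨b - B - 1, by omega⟩
  rintro y ⟨hy, hy'⟩
  obtain ⟨v, rfl⟩ := W.ex_EB2 2 hab hy'
  obtain ⟨v₁, h1⟩ := W.ex_EB2 1 (a := B + (t + 1)) (b := a) (by omega) (v := W.d 1 v)
    ((W.dp_EB2 1 _ v).symm.trans hy)
  obtain ⟨v₀, h2⟩ := W.ex_EB2 0 hab (v := W.d 0 v₁) (by rw [← W.dp_EB2, h1, W.dd])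
  obtain ⟨w₁, h3⟩ : (W.X 0 ^ (t + 1)) v₀ ∈ range (W.d 0) := by
    rw [W.h0, pow_succ']
    exact W.εX _
  obtain ⟨w₂, h4⟩ := W.h1 (x := v₁ - (W.X 1 ^ B) w₁) (by
    rw [mem_ker, map_sub, W.dp_EB2, h3, W.pp_EB2, h2, sub_self])
  obtain ⟨u, hu⟩ := W.bd_EB2 1 W.h2 (v := (W.X 2 ^ (t + 1)) v - (W.X 2 ^ (t + 1 + a)) w₂) (by
    rw [map_sub, W.dp_EB2, W.dp_EB2, h4, ← h1, map_sub, W.pp_EB2, W.pz_EB2 1 (by omega),
      sub_zero, sub_self])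
  exact ⟨u, by
    rw [hu, map_sub, W.pp_EB2, W.pz_EB2 2 (a := B) (b := t + 1 + a) (by omega), sub_zero]⟩

/-- With `s = B + 1`. `X ^ s z = d v₄`, `X ^ (p - s) v₄ = d v₅`, `X ^ s v₅` is a cycle,
`X ^ (2 s) v₅` is a boundary killed by `X ^ (p - 2 s)`; by `fr`, `d v₅ = X ^ (p - 2 s) (d v₅')`, so
`X ^ s v₄ - d v₅' ∈ range (X ^ (2 s))` and `X ^ (2 s) z = X ^ (2 s) (d v'')`. -/
theorem TW.px3 {a : ℕ} (ha : 2 * (B + 1) ≤ a) (hp : 2 * (B + 1) ≤ p) :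
    (ker (W.d 2)).map (W.X 3 ^ a) ≤ (range (W.d 3)).map (W.X 3 ^ a) := by
  obtain ⟨e, rfl⟩ : ∃ e, a = e + (B + 1 + (B + 1)) := ⟨a - 2 * (B + 1), by omega⟩
  obtain ⟨t, ht⟩ : ∃ t, t + (B + 1 + (B + 1)) = p := ⟨p - 2 * (B + 1), by omega⟩
  rintro _ ⟨z, hz, rfl⟩
  obtain ⟨v₄, h1⟩ := W.bd_EB2 2 (s := B + 1) (W.h3.trans (Nat.le_succ _)) hz
  obtain ⟨v₅, h2⟩ := W.h4 (x := (W.X 4 ^ (t + (B + 1))) v₄) (by
    rw [mem_ker, W.dp_EB2, h1, W.pz_EB2 _ (by omega)])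
  obtain ⟨v₆, h3⟩ := W.bd_EB2 4 (s := B + 1) (W.h5.trans (Nat.add_le_add_left (by omega) _))
    (v := (W.X 5 ^ (B + 1)) v₅) (by rw [W.dp_EB2, h2, W.pz_EB2 _ (by omega)])
  rw [W.pp_EB2] at h3
  obtain ⟨_, ⟨w, rfl⟩, h4⟩ := W.fr 5 le_rfl ht (x := (W.X 5 ^ (B + 1 + (B + 1))) v₅)
    ⟨⟨v₆, h3⟩, W.pz_EB2 _ ht _⟩
  obtain ⟨v₅', h5⟩ := W.ex_EB2 5 (a := B + 1 + (B + 1)) (b := t) (by omega) (v := v₅ - W.d 5 w)
    (by rw [map_sub, h4, sub_self])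
  have h6 := congrArg (W.d 4) h5
  rw [W.dp_EB2, map_sub, W.dd, sub_zero, h2] at h6
  obtain ⟨u, h7⟩ := W.ex_EB2 4 ht (v := (W.X 4 ^ (B + 1)) v₄ - W.d 4 v₅') (by
    rw [map_sub, W.pp_EB2, h6, sub_self])
  have h8 := congrArg (W.d 3) h7
  rw [W.dp_EB2, map_sub, W.dd, sub_zero, W.dp_EB2, h1, W.pp_EB2] at h8
  exact ⟨W.d 3 u, ⟨u, rfl⟩, by rw [← W.pp_EB2 3 e, h8, W.pp_EB2]⟩

/-- `X ^ a z` is a boundary killed by `X ^ b`; use `fr`. -/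
theorem TW.px5 {a b : ℕ} (hab : a + b = p) (ha : 1 ≤ a) :
    (ker (W.d 4)).map (W.X 5 ^ a) ≤ (range (W.d 5)).map (W.X 5 ^ a) := by
  rintro _ ⟨z, hz, rfl⟩
  exact W.fr 5 le_rfl (a := b) (b := a) (by omega)
    ⟨W.bd_EB2 4 (W.h5.trans (Nat.add_le_add_left ha _)) hz, W.pz_EB2 _ (by omega) z⟩

end RG
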