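import Pool.Agent.P.MP_8a106a_gt.EB2

/-! The order of the twisting number is bounded. -/

set_option autoImplicit false
set_option linter.unusedSectionVars false

noncomputable section

namespace RG

open Module LinearMap

variable {k : Type} [Field k] {p m B : ℕ} {c : k} (W : TW k p m B c)

/-- Multiplicity of `l` in the homology of degree `i + 1`. -/
def TW.h (i : ℕ) (l : k) : ℤ :=
  (mu (W.ν (i + 1)) (ker (W.d i)) l : ℤ) - mu (W.ν (i + 1)) (range (W.d (i + 1))) l

include W in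
theorem TW.m_ne_EB3 : m ≠ 0 := fun e => W.hm (by rw [e, Nat.cast_zero])

include W in
theorem TW.c_ne_EB3 : c ≠ 0 := fun e => by
  have := W.cm
  rw [e, zero_pow W.m_ne_EB3] at this
  exact zero_ne_one this

theorem TW.le_EB3 (i : ℕ) : range (W.d (i + 1)) ≤ ker (W.d i) := by
  rintro _ ⟨v, rfl⟩
  exact W.dd i v

theorem TW.stR_EB3 (i : ℕ) : ∀ v ∈ range (W.d i), W.ν i v ∈ range (W.d i) := by
  rintro _ ⟨v, rfl⟩
  exact ⟨_, W.dν i v⟩

theorem TW.stK_EB3 (i : ℕ) : ∀ v ∈ ker (W.d i), W.ν (i + 1) v ∈ ker (W.d i) := by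
  intro v hv
  rw [mem_ker] at hv ⊢
  rw [W.dν, hv, map_zero]

theorem TW.h_nonneg_EB3 (i : ℕ) (l : k) : 0 ≤ W.h i l :=
  sub_nonneg.2 (Int.ofNat_le.2 (mu_mono _ (W.le_EB3 i) l))

theorem TW.shift_EB3 (i : ℕ) {a b : ℕ} (hab : a + b = p) (l : k) :
    tt (W.ν i) (W.X i) a b (range (W.d i)) l =
      tt (W.ν (i + 1)) (W.X (i + 1)) b a (ker (W.d i)) (c ^ a * l) :=
  tt_shift W.hm (W.νm _) W.c_ne_EB3 (W.tw _) (W.free _ a b hab)
    (W.free _ b a (by omega)) (W.d i) (W.dX i) (W.dν i) l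

theorem mu_bot_EB3 {V : Type} [AddCommGroup V] [Module k V] (ν : Module.End k V) (l : k) :
    mu ν ⊥ l = 0 := by
  rw [mu, bot_inf_eq, finrank_bot]

open Classical in
theorem mu_one_EB3 (l : k) : (mu (1 : Module.End k k) ⊤ l : ℤ) = if l = 1 then 1 else 0 := by
  rw [mu, top_inf_eq]
  split_ifs with h
  · have : (1 : Module.End k k).eigenspace l = ⊤ := by
      rw [eq_top_iff]
      intro v _
      rw [Module.End.mem_eigenspace_iff, h]
      simp
    rw [this, finrank_top, finrank_self]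
    rfl
  · have : (1 : Module.End k k).eigenspace l = ⊥ := by
      rw [eq_bot_iff]
      intro v hv
      rw [Module.End.mem_eigenspace_iff] at hv
      simp only [Module.End.one_apply, smul_eq_mul] at hv
      have h2 : (l - 1) * v = 0 := by linear_combination -hv
      rcases mul_eq_zero.1 h2 with h3 | h3
      · exact absurd (sub_eq_zero.1 h3) h
      · exact h3
    rw [this, finrank_bot]
    rfl

theorem TW.top_EB3 {a b : ℕ} (hab : a + b = p) (l : k) :
    tt (W.ν 5) (W.X 5) a b (range (W.d 5)) l = 0 := by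
  have e : range (W.d 5) ⊓ ker (W.X 5 ^ a) = (range (W.d 5)).map (W.X 5 ^ b) := by
    refine le_antisymm (W.fr 5 le_rfl hab) ?_
    rintro _ ⟨_, ⟨v, rfl⟩, rfl⟩
    refine ⟨⟨(W.X 6 ^ b) v, ?_⟩, ?_⟩
    · induction b with
      | zero => simp
      | succ n _ =>
        have : ∀ (j : ℕ) (v : W.V 6), W.d 5 ((W.X 6 ^ j) v) = (W.X 5 ^ j) (W.d 5 v) := by
          intro j
          induction j with
          | zero => simp
          | succ j ih =>
            intro v
            rw [pow_succ', pow_succ', Module.End.mul_apply, Module.End.mul_apply, W.dX, ih]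
        exact this _ _
    · rw [W.free 5 a b hab]
      exact ⟨_, rfl⟩
  rw [tt, e, sub_self]

open Classical in
/-- Take `a = 2 * (B + 1)`, `b = p - a`. From the bottom, `tt_shift` for `ε`, `d 0`, `d 1` and
`tt_of_ker_le` compute `tt b a (range (d 2)) (c ^ (a + 1) * l)`; from the top, `fr`,
`tt_of_map_le` and `tt_shift` for `d 4`, `d 3` compute `tt a b (ker (d 2)) (c ^ 2 * l)`; the two are
equal by `tt_shift` for `d 2`. -/
theorem TW.rel (hp : 4 * (B + 1) ≤ p) (l : k) :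
    (if l = 1 then 1 else 0) + W.h 1 (c * l) = W.h 2 (c ^ 2 * l) + W.h 4 (c ^ 3 * l) := by
  obtain ⟨a, b, hab, ha, hb⟩ : ∃ a b, a + b = p ∧ 2 * (B + 1) ≤ a ∧ 2 * (B + 1) ≤ b :=
    ⟨2 * (B + 1), p - 2 * (B + 1), by omega, le_rfl, by omega⟩
  have hba : b + a = p := by omega
  have hc : ∀ x : k, c ^ b * (c ^ a * x) = c * x := fun x => by
    rw [← mul_assoc, ← pow_add, hba, W.cp]
  have e0 := tt_shift (ν' := (1 : Module.End k k)) (X' := (0 : Module.End k k)) W.hm (W.νm 0)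
    W.c_ne_EB3 (W.tw 0) (W.free 0 a b hab) (W.free 0 b a hba) W.ε
    (fun v => by rw [W.εX]; rfl) (fun v => by rw [W.εν]; rfl) l
  have e0' : tt (1 : Module.End k k) (0 : Module.End k k) a b (range W.ε) l =
      if l = 1 then 1 else 0 := by
    rw [tt, range_eq_top.2 W.εs, zero_pow (by omega : a ≠ 0), zero_pow (by omega : b ≠ 0),
      ker_zero, top_inf_eq, Submodule.map_zero, mu_bot_EB3, mu_one_EB3]
    simp
  have e1 := W.shift_EB3 0 hba (c ^ a * l)
  have e2 := W.shift_EB3 1 hab (c * l)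
  have e3 := tt_of_ker_le W.hm (W.νm 2) W.c_ne_EB3 (W.tw 2) (W.le_EB3 1) (W.stR_EB3 2)
    (W.stK_EB3 1) (W.pi2 hab (by omega)) (W.pi2 hba (by omega)) (c * l)
  have e4 := W.shift_EB3 2 hba (c ^ a * (c * l))
  have e5 := tt_of_map_le W.hm (W.νm 3) W.c_ne_EB3 (W.tw 3) (W.le_EB3 2) (W.stR_EB3 3)
    (W.stK_EB3 2) (W.px3 ha (by omega)) (W.px3 hb (by omega)) (c * (c * l))
  have e6 := W.shift_EB3 3 hab (c * (c * l))
  have e7 := W.shift_EB3 4 hba (c ^ a * (c * (c * l)))
  have e8 := tt_of_map_le W.hm (W.νm 5) W.c_ne_EB3 (W.tw 5) (W.le_EB3 4) (W.stR_EB3 5)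
    (W.stK_EB3 4) (W.px5 hab (by omega)) (W.px5 hba (by omega)) (c * (c * (c * l)))
  have e9 := W.top_EB3 hab (c * (c * (c * l)))
  rw [hc] at e1 e4 e7
  rw [e0', ← W.h0, e1, le_antisymm W.h1 (W.le_EB3 0), e2] at e0
  rw [le_antisymm W.h4 (W.le_EB3 3), e7, e8, e9] at e6
  rw [show c ^ 2 * l = c * (c * l) by ring, show c ^ 3 * l = c * (c * (c * l)) by ring]
  simp only [TW.h]
  simp only [Nat.reduceAdd] at *
  omega

open Classical in
/-- The Euler characteristic does not depend on the eigenvalue: by downward induction the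
multiplicity in `range (d i)` does not depend on `l` for `i ≥ 5`; then go down with `mu_map`. -/
theorem TW.euler : ∃ E : ℤ, ∀ l : k, l ^ m = 1 →
    (if l = 1 then 1 else 0) + W.h 1 l - W.h 2 l - W.h 4 l = E := by
  have hd : ∀ i l, mu (W.ν i) (range (W.d i)) l + mu (W.ν (i + 1)) (ker (W.d i)) l =
      mu (W.ν (i + 1)) ⊤ l := fun i l => by
    have := mu_map (ν' := W.ν i) W.hm (W.νm (i + 1)) (W.d i) one_ne_zero
      (fun v => by rw [one_smul, W.dν]) (U := ⊤) (fun _ _ => trivial) l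
    rwa [one_mul, top_inf_eq, Submodule.map_top] at this
  have he : ∀ l, (if l = 1 then 1 else 0 : ℤ) + mu (W.ν 0) (range (W.d 0)) l = mu (W.ν 0) ⊤ l :=
    fun l => by
      have := mu_map (ν' := (1 : Module.End k k)) W.hm (W.νm 0) W.ε one_ne_zero
        (fun v => by rw [one_smul, W.εν]; rfl) (U := ⊤) (fun _ _ => trivial) l
      rw [one_mul, top_inf_eq, Submodule.map_top, range_eq_top.2 W.εs, ← W.h0] at this
      rw [← mu_one_EB3, ← this]
      push_cast
      rfl
  obtain ⟨L, hL⟩ := W.top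
  have h5 : ∀ l : k, l ^ m = 1 → ∀ n i, 5 ≤ i → L ≤ i + n →
      mu (W.ν i) (range (W.d i)) l = mu (W.ν i) (range (W.d i)) 1 := by
    intro l hl n
    induction n with
    | zero =>
      intro i _ hi
      have := hL i hi
      rw [Subsingleton.elim (range (W.d i)) ⊥, mu_bot_EB3, mu_bot_EB3]
    | succ n ih =>
      intro i hi hn
      have h1 := hd i l
      have h2 := hd i 1
      rw [le_antisymm (W.h6 i hi) (W.le_EB3 i)] at h1 h2
      rw [ih (i + 1) (by omega) (by omega), W.eul _ l hl] at h1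
      omega
  refine ⟨(mu (W.ν 0) ⊤ 1 : ℤ) - mu (W.ν 1) ⊤ 1 + mu (W.ν 2) ⊤ 1 - mu (W.ν 3) ⊤ 1 +
    mu (W.ν 4) ⊤ 1 - mu (W.ν 5) ⊤ 1 + mu (W.ν 5) (range (W.d 5)) 1, fun l hl => ?_⟩
  have a0 := he l
  have a1 := hd 0 l
  have a2 := hd 1 l
  have a3 := hd 2 l
  have a4 := hd 3 l
  have a5 := hd 4 l
  have a6 := h5 l hl L 5 le_rfl (by omega)
  rw [W.eul _ l hl] at a0 a1 a2 a3 a4 a5
  rw [le_antisymm W.h1 (W.le_EB3 0)] at a1
  rw [le_antisymm W.h4 (W.le_EB3 3)] at a4
  simp only [TW.h]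
  simp only [Nat.reduceAdd] at *
  omega

include W in
/-- Let `l` run through the powers of `c`. Summing `rel` gives `E = 0`. Then
`f l = h 1 l + δ l + δ (c⁻¹ l) + h 4 (c l)` satisfies `f (c l) = f l`, `f 1 ≥ 1`, and its sum is at
most `B + 3` by `mu_sum`. -/
theorem TW.order_le (hp : 4 * (B + 1) ≤ p) : orderOf c ≤ B + 3 := by
  classical
  have hr : 0 < orderOf c :=
    (isOfFinOrder_iff_pow_eq_one.2 ⟨m, Nat.pos_of_ne_zero W.m_ne_EB3, W.cm⟩).orderOf_pos
  have hsh : ∀ g : k → ℤ, ∑ j ∈ Finset.range (orderOf c), g (c * c ^ j) =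
      ∑ j ∈ Finset.range (orderOf c), g (c ^ j) := fun g => by
    have h1 := Finset.sum_range_succ (fun j => g (c ^ j)) (orderOf c)
    have h2 := Finset.sum_range_succ' (fun j => g (c ^ j)) (orderOf c)
    simp only [pow_orderOf_eq_one, pow_zero, pow_succ'] at h1 h2
    omega
  have hsh2 : ∀ g : k → ℤ, ∑ j ∈ Finset.range (orderOf c), g (c ^ 2 * c ^ j) =
      ∑ j ∈ Finset.range (orderOf c), g (c ^ j) := fun g => by
    rw [← hsh g, ← hsh fun x => g (c * x)]
    exact Finset.sum_congr rfl fun j _ => by rw [sq, mul_assoc]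
  have hsh3 : ∀ g : k → ℤ, ∑ j ∈ Finset.range (orderOf c), g (c ^ 3 * c ^ j) =
      ∑ j ∈ Finset.range (orderOf c), g (c ^ j) := fun g => by
    rw [← hsh g, ← hsh2 fun x => g (c * x)]
    exact Finset.sum_congr rfl fun j _ => by congr 1; ring
  have hpm : ∀ j : ℕ, (c ^ j) ^ m = 1 := fun j => by rw [← pow_mul, mul_comm, pow_mul, W.cm, one_pow]
  obtain ⟨E, hE⟩ := W.euler
  have hE0 : E = 0 := by
    have h1 := Finset.sum_congr (rfl : Finset.range (orderOf c) = _)
      fun j _ => W.rel hp (c ^ j)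
    have h2 := Finset.sum_congr (rfl : Finset.range (orderOf c) = _)
      fun j _ => hE (c ^ j) (hpm j)
    rw [Finset.sum_add_distrib, Finset.sum_add_distrib, hsh (W.h 1), hsh2 (W.h 2),
      hsh3 (W.h 4)] at h1
    rw [Finset.sum_sub_distrib, Finset.sum_sub_distrib, Finset.sum_add_distrib, h1,
      Finset.sum_const, Finset.card_range, nsmul_eq_mul] at h2
    have h3 : (orderOf c : ℤ) * E = 0 := by rw [← h2]; ring
    rcases mul_eq_zero.1 h3 with h4 | h4
    · omega
    · exact h4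
  set δ : k → ℤ := fun l => if l = 1 then 1 else 0 with hδ
  set F : k → ℤ := fun l => W.h 1 (c * l) + δ (c * l) + δ l + W.h 4 (c ^ 2 * l) with hF
  have hF1 : ∀ j : ℕ, 1 ≤ F (c ^ j) := by
    intro j
    induction j with
    | zero =>
      have h1 := W.h_nonneg_EB3 1 (c * c ^ 0)
      have h2 := W.h_nonneg_EB3 4 (c ^ 2 * c ^ 0)
      have h3 : 0 ≤ δ (c * c ^ 0) := by simp only [hδ]; split_ifs <;> omega
      have h4 : δ (c ^ 0) = 1 := by simp [hδ]
      simp only [hF]
      omega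
    | succ j ih =>
      have h1 := W.rel hp (c ^ j)
      have h2 := hE (c ^ (j + 2)) (hpm _)
      simp only [hF, hδ] at ih ⊢
      rw [show c * c ^ (j + 1) = c ^ (j + 2) by ring, show c ^ 2 * c ^ (j + 1) = c ^ (j + 3) by ring]
      rw [show c * c ^ j = c ^ (j + 1) by ring, show c ^ 2 * c ^ j = c ^ (j + 2) by ring] at ih h1
      rw [show c ^ 3 * c ^ j = c ^ (j + 3) by ring] at h1
      omega
  have hinj : Set.InjOn (fun j : ℕ => c ^ j) (Finset.range (orderOf c) : Set ℕ) := by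
    rw [Finset.coe_range]
    exact pow_injOn_Iio_orderOf
  have hsum : ∀ i s : ℕ, finrank k (ker (W.d i)) ≤ finrank k (range (W.d (i + 1))) + s →
      ∑ j ∈ Finset.range (orderOf c), W.h i (c ^ j) ≤ s := fun i s hs => by
    have h1 := mu_sum W.hm (W.νm (i + 1)) (W.le_EB3 i) (W.stR_EB3 (i + 1)) (W.stK_EB3 i)
      ((Finset.range (orderOf c)).image fun j => c ^ j)
    rw [Finset.sum_image hinj, Finset.sum_image hinj] at h1
    simp only [TW.h, Finset.sum_sub_distrib]
    rw [← Nat.cast_sum, ← Nat.cast_sum]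
    omega
  have hδs : ∑ j ∈ Finset.range (orderOf c), δ (c ^ j) = 1 := by
    rw [Finset.sum_eq_single 0]
    · simp [hδ]
    · intro j hj hj0
      have : c ^ j ≠ 1 := pow_ne_one_of_lt_orderOf hj0 (Finset.mem_range.1 hj)
      simp [hδ, this]
    · intro h
      exact absurd (Finset.mem_range.2 hr) h
  have h1 : (orderOf c : ℤ) ≤ ∑ j ∈ Finset.range (orderOf c), F (c ^ j) := by
    have := Finset.sum_le_sum (s := Finset.range (orderOf c)) fun j _ => hF1 j
    rwa [Finset.sum_const, Finset.card_range, nsmul_eq_mul, mul_one] at this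
  simp only [hF, Finset.sum_add_distrib] at h1
  rw [hsh (W.h 1), hsh δ, hsh2 (W.h 4), hδs] at h1
  have h2 := hsum 1 B W.h2
  have h3 := hsum 4 1 W.h5
  omega

end RG
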