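import Pool.Agent.P.MP_8a106a_gt.GA

/-! Sylow subgroups, abelian groups, lifting the exponent. -/

set_option autoImplicit false
set_option linter.unusedSectionVars false

namespace RG

open Subgroup

variable {G : Type} [Group G] [Finite G]

theorem sylow_GB (H : Subgroup G) {p : ℕ} (hp : p.Prime) :
    ∃ P ≤ H, IsPGroup p P ∧ Nat.card P = p ^ (Nat.card H).factorization p := by
  have := Fact.mk hp
  obtain ⟨K, hK⟩ := Sylow.exists_subgroup_card_pow_prime (G := H) p (Nat.ordProj_dvd _ p)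
  have h := (card_map_of_injective (K := K) H.subtype_injective).trans hK
  exact ⟨K.map H.subtype, map_subtype_le K, IsPGroup.of_card h, h⟩

theorem card_prod_GB (H : Subgroup G) :
    Nat.card H = ∏ p ∈ (Nat.card H).primeFactors, p ^ (Nat.card H).factorization p :=
  (Nat.prod_factorization_pow_eq_self Nat.card_pos.ne').symm

theorem gcd_mem_GB {z : G} {n i j : ℕ} (hz : z ^ n = 1) (h : j.gcd n ∣ i) :
    z ^ i ∈ zpowers (z ^ j) := by
  obtain ⟨m, rfl⟩ := h
  rw [pow_mul]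
  refine pow_mem (mem_zpowers_iff.mpr ⟨j.gcdA n, ?_⟩) m
  simp only [← zpow_natCast z (j.gcd n), Nat.gcd_eq_gcd_ab, zpow_add, zpow_mul, zpow_natCast, hz,
    one_zpow, mul_one]

theorem total_GB {p : ℕ} (hp : p.Prime) {z u v : G} (hz : PE p z) (hu : u ∈ zpowers z)
    (hv : v ∈ zpowers z) : u ∈ zpowers v ∨ v ∈ zpowers u := by
  obtain ⟨k, hk⟩ := hz
  obtain ⟨i, rfl⟩ := mem_powers_iff_mem_zpowers.mpr hu
  obtain ⟨j, rfl⟩ := mem_powers_iff_mem_zpowers.mpr hv
  obtain ⟨a, -, ha⟩ := (Nat.dvd_prime_pow hp).mp (Nat.gcd_dvd_right i (p ^ k))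
  obtain ⟨b, -, hb⟩ := (Nat.dvd_prime_pow hp).mp (Nat.gcd_dvd_right j (p ^ k))
  rcases le_total a b with h | h
  · refine Or.inr (gcd_mem_GB hk (Dvd.dvd.trans ?_ (Nat.gcd_dvd_left j (p ^ k))))
    rw [ha, hb]
    exact pow_dvd_pow p h
  · refine Or.inl (gcd_mem_GB hk (Dvd.dvd.trans ?_ (Nat.gcd_dvd_left i (p ^ k))))
    rw [ha, hb]
    exact pow_dvd_pow p h

theorem step_GB {p : ℕ} {x : ℤ} (h : (p : ℤ) ∣ x - 1) (a : ℕ) :
    (x - 1) * p ^ a ∣ x ^ p ^ a - 1 := by
  induction a with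
  | zero => simp
  | succ a ih =>
    have h1 := dvd_geom_sum₂_self (n := p) (x := x ^ p ^ a) (y := 1)
      ((h.mul_right _).trans ih)
    have h2 := Commute.mul_geom_sum₂ (Commute.one_right (x ^ p ^ a)) p
    rw [one_pow, ← pow_mul, ← pow_succ] at h2
    rw [← h2, pow_succ, ← mul_assoc]
    exact mul_dvd_mul ih h1

theorem Syl.pos {c : ℕ} (h : Syl G c) : 0 < c := by
  obtain ⟨z, -, hz⟩ := h 2 Nat.prime_two ⊥ IsPGroup.of_bot
  exact Nat.pos_of_mul_pos_right (Nat.card_pos.trans_le hz)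

/-- Only primes `p ≤ R` divide the order, and Sylow subgroups have order at most `c * R`. -/
theorem card_le_of_exp {c R : ℕ} (h : Syl G c) (hR : 0 < R) {H : Subgroup G}
    (hH : ∀ x ∈ H, x ^ R = 1) : Nat.card H ≤ (c * R) ^ R := by
  have h1 : ∀ x ∈ H, orderOf x ≤ R := fun x hx => orderOf_le_of_pow_eq_one hR (hH x hx)
  have h2 : (Nat.card H).primeFactors ⊆ Finset.Icc 1 R := fun p hp => by
    have hp' := Nat.prime_of_mem_primeFactors hp
    have := Fact.mk hp'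
    obtain ⟨x, hx⟩ := exists_prime_orderOf_dvd_card' p (Nat.dvd_of_mem_primeFactors hp)
    refine Finset.mem_Icc.mpr ⟨hp'.pos, ?_⟩
    rw [← hx, ← orderOf_coe]
    exact h1 _ x.2
  rw [card_prod_GB]
  refine (Finset.prod_le_pow_card _ _ (c * R) fun p hp => ?_).trans
    (Nat.pow_le_pow_right (Nat.mul_pos h.pos hR) (by simpa using Finset.card_le_card h2))
  obtain ⟨P, hP, hP1, hP2⟩ := sylow_GB H (Nat.prime_of_mem_primeFactors hp)
  obtain ⟨z, hz, hz'⟩ := h p (Nat.prime_of_mem_primeFactors hp) P hP1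
  rw [← hP2]
  exact hz'.trans (Nat.mul_le_mul_left c (h1 z (hP hz)))

/-- For `p > c` the index of `zpowers z` is a power of `p` that is at most `c`. -/
theorem cyc_of_lt {c p : ℕ} (h : Syl G c) (hp : p.Prime) (hc : c < p) {P : Subgroup G}
    (hP : IsPGroup p P) : ∃ z, P = zpowers z := by
  have := Fact.mk hp
  obtain ⟨z, hz, hz'⟩ := h p hp P hP
  obtain ⟨n, hn⟩ := IsPGroup.iff_card.mp hP
  have hd : orderOf z ∣ p ^ n := hn ▸ P.orderOf_dvd_natCard hz
  obtain ⟨m, hm, e⟩ := (Nat.dvd_prime_pow hp).mp hd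
  refine ⟨z, (eq_of_le_of_card_ge (zpowers_le.mpr hz) ?_).symm⟩
  rw [hn, e] at hz'
  rw [Nat.card_zpowers, hn, e]
  refine Nat.pow_le_pow_right hp.pos (Nat.le_of_lt_succ ?_)
  rw [← Nat.pow_lt_pow_iff_right hp.one_lt, pow_succ']
  exact hz'.trans_lt (Nat.mul_lt_mul_of_pos_right hc (pow_pos hp.pos m))

/-- Multiply the elements `z_p` given by the Sylow subgroups of `B`. -/
theorem ac_of_comm {c : ℕ} (h : Syl G c) {B : Subgroup G}
    (hB : ∀ x ∈ B, ∀ y ∈ B, Commute x y) : AC B (c ^ c) := by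
  let : CommGroup B := { (inferInstance : Group B) with
    mul_comm := fun x y => Subtype.ext (hB x x.2 y y.2) }
  obtain ⟨z, hz⟩ := Monoid.exists_orderOf_eq_exponent (G := B) Monoid.ExponentExists.of_finite
  have key : ∀ p : ℕ, ∃ k : ℕ, p.Prime → p ^ k ∣ orderOf z ∧
      p ^ (Nat.card B).factorization p ≤ (if p ≤ c then c else 1) * p ^ k := by
    intro p
    by_cases hp : p.Prime
    · have := Fact.mk hp
      obtain ⟨P, hP, hP1, hP2⟩ := sylow_GB B hp
      obtain ⟨y, hy, hy'⟩ : AC P (if p ≤ c then c else 1) := by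
        split_ifs with hc
        · exact h p hp P hP1
        · obtain ⟨y, rfl⟩ := cyc_of_lt h hp (not_le.mp hc) hP1
          exact ⟨y, mem_zpowers y, by rw [Nat.card_zpowers, one_mul]⟩
      obtain ⟨k, -, hk⟩ := (Nat.dvd_prime_pow hp).mp (hP2 ▸ P.orderOf_dvd_natCard hy)
      refine ⟨k, fun _ => ⟨?_, by rwa [← hP2, ← hk]⟩⟩
      rw [← hk, hz]
      exact (orderOf_coe (⟨y, hP hy⟩ : B)) ▸ Monoid.order_dvd_exponent _
    · exact ⟨0, fun h => absurd h hp⟩
  choose k hk using key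
  refine ⟨z, z.2, ?_⟩
  rw [card_prod_GB, orderOf_coe]
  refine (Finset.prod_le_prod' fun p hp => (hk p (Nat.prime_of_mem_primeFactors hp)).2).trans ?_
  rw [Finset.prod_mul_distrib]
  refine Nat.mul_le_mul ?_ (Nat.le_of_dvd (orderOf_pos z) (Finset.prod_dvd_of_isRelPrime
    (fun p hp q hq hne => ?_) fun p hp => (hk p (Nat.prime_of_mem_primeFactors hp)).1))
  · rw [← Finset.prod_filter, Finset.prod_const]
    refine Nat.pow_le_pow_right h.pos ?_
    have h2 : (Nat.card B).primeFactors.filter (· ≤ c) ⊆ Finset.Icc 1 c := fun p hp =>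
      Finset.mem_Icc.mpr ⟨(Nat.prime_of_mem_primeFactors (Finset.mem_filter.mp hp).1).pos,
        (Finset.mem_filter.mp hp).2⟩
    simpa using Finset.card_le_card h2
  · exact Nat.coprime_iff_isRelPrime.mp (Nat.coprime_pow_primes _ _
      (Nat.prime_of_mem_primeFactors hp) (Nat.prime_of_mem_primeFactors hq) hne)

/-- Sylow subgroups of `W` are conjugate and cyclic. -/
theorem conj_prime {c p : ℕ} (h : Syl G c) (hp : p.Prime) (hc : c < p) {W : Subgroup G}
    {y y' : G} (hy : y ∈ W) (hy' : y' ∈ W) (ho : orderOf y = p) (ho' : orderOf y' = p) :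
    ∃ w ∈ W, w * y * w⁻¹ ∈ zpowers y' := by
  have := Fact.mk hp
  have pg : ∀ x : W, orderOf (x : G) = p → IsPGroup p (zpowers x) := fun x hx =>
    IsPGroup.of_card (n := 1) (by rw [Nat.card_zpowers, ← orderOf_coe, hx, pow_one])
  obtain ⟨P, hP⟩ := (pg ⟨y, hy⟩ ho).exists_le_sylow
  obtain ⟨Q, hQ⟩ := (pg ⟨y', hy'⟩ ho').exists_le_sylow
  obtain ⟨w, rfl⟩ := MulAction.exists_smul_eq W P Q
  have hQ' := (w • P).isPGroup'.map W.subtype
  obtain ⟨z, hz⟩ := cyc_of_lt h hp hc hQ'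
  have h1 : (w : G) * y * (w : G)⁻¹ ∈ zpowers z :=
    hz ▸ mem_map_of_mem W.subtype (smul_mem_pointwise_smul _ (MulAut.conj w) _
      (hP (mem_zpowers _)))
  have h2 : y' ∈ zpowers z := hz ▸ mem_map_of_mem W.subtype (hQ (mem_zpowers _))
  have h3 : PE p z := by
    rw [hz] at hQ'
    obtain ⟨k, hk⟩ := hQ' ⟨z, mem_zpowers z⟩
    exact ⟨k, congrArg Subtype.val hk⟩
  refine ⟨w, w.2, ?_⟩
  rcases total_GB hp h3 h1 h2 with h4 | h4
  · exact h4
  · rw [eq_of_le_of_card_ge (zpowers_le.mpr h4) ?_]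
    · exact mem_zpowers _
    · rw [Nat.card_zpowers, Nat.card_zpowers, ho', ← ho]
      exact ((MulAut.conj (w : G)).orderOf_eq y).le

/-- Subgroups of a cyclic `p`-group are linearly ordered. -/
theorem zpowers_total {p : ℕ} (hp : p.Prime) {z u v : G} (hz : PE p z) (hu : u ∈ zpowers z)
    (hv : v ∈ zpowers z) : u ∈ zpowers v ∨ v ∈ zpowers u := by
  exact total_GB hp hz hu hv

theorem exists_conj_pow {u x : G} (h : x * u * x⁻¹ ∈ zpowers u) :
    ∃ r : ℕ, 0 < r ∧ ∀ k j : ℕ, x ^ k * u ^ j * (x ^ k)⁻¹ = u ^ (j * r ^ k) := by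
  obtain ⟨r, hr⟩ := mem_powers_iff_mem_zpowers.mpr h
  refine ⟨r + orderOf u, Nat.add_pos_right _ (orderOf_pos u), fun k => ?_⟩
  have h1 : x * u * x⁻¹ = u ^ (r + orderOf u) := by
    rw [pow_add, pow_orderOf_eq_one, mul_one]
    exact hr.symm
  induction k with
  | zero => simp
  | succ k ih =>
    intro j
    rw [pow_succ (r + orderOf u), mul_comm _ (r + orderOf u), ← mul_assoc j, ← ih,
      mul_comm j, pow_mul, ← h1, conj_pow, pow_succ]
    group

/-- Lifting the exponent: the valuation of `r ^ n - 1` is that of ` (r - 1) * n`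
(`padicValNat.pow_sub_pow`, `Nat.two_pow_sub_pow`, or by hand). -/
theorem lte_dvd {p r n s : ℕ} (hp : p.Prime) (hr : 0 < r) (h1 : p ∣ r - 1)
    (h2 : p = 2 → 4 ∣ r - 1) (hn : 0 < n) : p ^ s ∣ r ^ n - 1 ↔ p ^ s ∣ (r - 1) * n := by
  obtain ⟨t, rfl⟩ := Nat.exists_eq_add_one.mpr hr
  have h3 : ¬ p ∣ t + 1 := fun e => hp.one_lt.ne' (Nat.dvd_one.mp ((Nat.dvd_add_right h1).mp e))
  have key : emultiplicity p ((t + 1) ^ n - 1) = emultiplicity p ((t + 1 - 1) * n) := by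
    rw [emultiplicity_mul hp.prime]
    rcases hp.eq_two_or_odd' with rfl | ho
    · have h4 := Int.two_pow_sub_pow' (x := (t + 1 : ℕ)) (y := 1) n
        (by simpa using Int.natCast_dvd_natCast.mpr (h2 rfl)) (by exact_mod_cast h3)
      simp only [← Int.natCast_emultiplicity]
      rw [Nat.cast_sub (Nat.one_le_pow _ _ hr)]
      simpa using h4
    · simpa using Nat.emultiplicity_pow_sub_pow hp ho h1 h3 n
  rw [pow_dvd_iff_le_emultiplicity, pow_dvd_iff_le_emultiplicity, key]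

/-- The easy inequality, without the extra condition at `2`. -/
theorem lte_easy {p r n s : ℕ} (hp : p.Prime) (hr : 0 < r) (h1 : p ∣ r - 1)
    (h : p ^ s ∣ (r - 1) * n) : p ^ s ∣ r ^ n - 1 := by
  rcases n.eq_zero_or_pos with rfl | hn
  · simp
  obtain ⟨a, m, hm, rfl⟩ := Nat.exists_eq_pow_mul_and_not_dvd hn.ne' p hp.ne_one
  rw [← mul_assoc] at h
  have h2 := (((Nat.Prime.coprime_iff_not_dvd hp).mpr hm).pow_left s).dvd_of_dvd_mul_right h
  have h3 : (r - 1) * p ^ a ∣ r ^ p ^ a - 1 := by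
    have h4 := Int.natCast_dvd_natCast.mpr h1
    rw [Nat.cast_sub hr] at h4
    rw [← Int.natCast_dvd_natCast, Nat.cast_mul, Nat.cast_sub hr,
      Nat.cast_sub (Nat.one_le_pow _ _ hr)]
    simpa using step_GB h4 a
  rw [pow_mul]
  simpa using (h2.trans h3).trans (Nat.sub_dvd_pow_sub_pow _ 1 m)

end RG
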