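import Pool.Agent.P.MP_8a106a_gt.EB3
import Pool.Agent.P.MP_8a106a_gt.EA6
import Pool.Agent.P.MP_8a106a_gt.GB

/-! The automizer of a subgroup of large prime order. -/

set_option autoImplicit false
set_option linter.unusedSectionVars false

noncomputable section

namespace RG

open Module LinearMap

theorem rep_apply_EB4 {k G S : Type} [Field k] [Group G] [MulAction G S] (g : G) (f : S → k)
    (s : S) : permRep k G S g f s = f (g⁻¹ • s) := rfl

theorem sum_range_EB4 {p : ℕ} [Fact p.Prime] {M : Type} [AddCommMonoid M] (F : ZMod p → M) :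
    ∑ j ∈ Finset.range p, F j = ∑ x, F x :=
  Finset.sum_nbij' (fun j => (j : ZMod p)) (fun x => x.val) (fun _ _ => Finset.mem_univ _)
    (fun x _ => Finset.mem_range.2 x.val_lt)
    (fun _ hj => ZMod.val_cast_of_lt (Finset.mem_range.1 hj))
    (fun x _ => ZMod.natCast_zmod_val x) (fun _ _ => rfl)

theorem nil_EB4 {p : ℕ} [Fact p.Prime] {A : Type} [Ring A] [Algebra (ZMod p) A] {t : A}
    (ht : t ^ p = 1) : (t - 1) ^ p = 0 := by
  have h := congrArg (Polynomial.aeval t)
    (sub_pow_char (Polynomial.X : Polynomial (ZMod p)) 1 (p := p))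
  simpa [ht] using h

theorem pow_eq_EB4 {p : ℕ} {Γ : Type} [Group Γ] {g : Γ} (hg : orderOf g = p) (a b : ℕ) :
    g ^ a = g ^ b ↔ (a : ZMod p) = b := by
  rw [pow_eq_pow_iff_modEq, hg, ZMod.natCast_eq_natCast_iff]

theorem twist_EB4 {p : ℕ} [Fact p.Prime] {A : Type} [Ring A] [Algebra (ZMod p) A] {t : A}
    (ht : t ^ p = 1) {r : ℕ} (hr : (r : ZMod p) ≠ 0) :
    ∑ j ∈ Finset.range p, ((j : ZMod p)⁻¹) • t ^ (r * j) =
      (r : ZMod p) • ∑ j ∈ Finset.range p, ((j : ZMod p)⁻¹) • t ^ j := by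
  have hT : ∀ j : ℕ, t ^ j = t ^ (j : ZMod p).val := fun j => by
    rw [ZMod.val_natCast, ← pow_eq_pow_mod j ht]
  have h1 := sum_range_EB4 fun x : ZMod p => x⁻¹ • t ^ ((r : ZMod p) * x).val
  have h2 := sum_range_EB4 fun x : ZMod p => x⁻¹ • t ^ x.val
  simp only [← Nat.cast_mul, ← hT] at h1 h2
  rw [h1, h2, Finset.smul_sum]
  refine Fintype.sum_equiv (Equiv.mulLeft₀ _ hr) _ _ fun x => ?_
  rw [Equiv.mulLeft₀_apply, smul_smul, mul_inv, mul_inv_cancel_left₀ hr]

/-- Multiply by a function `χ` with `χ (ν⁻¹ • s) = l * χ s`, defined with orbit representatives. -/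
theorem mu_perm (k G S : Type) [Field k] [Group G] [Finite G] [MulAction G S] [Finite S]
    (h : ∀ (g : G) (s : S), g • s = s → g = 1) (ν : G) {l : k} (hl : l ^ orderOf ν = 1) :
    mu (permRep k G S ν) ⊤ l = mu (permRep k G S ν) ⊤ 1 := by
  have hl0 : l ≠ 0 := fun h0 => by
    rw [h0, zero_pow (orderOf_pos ν).ne'] at hl
    exact zero_ne_one hl
  have hwd : ∀ (a b : ℕ) (s : S), ν ^ a • s = ν ^ b • s → l ^ a = l ^ b := fun a b s e => by
    have h1 := h ((ν ^ b)⁻¹ * ν ^ a) s (by rw [mul_smul, e, inv_smul_smul])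
    rw [inv_mul_eq_one, pow_eq_pow_iff_modEq] at h1
    rw [pow_eq_pow_mod a hl, pow_eq_pow_mod b hl, h1]
  let rep : S → S := fun s => (Quotient.mk (MulAction.orbitRel (Subgroup.zpowers ν) S) s).out
  have hn : ∀ s, ∃ n : ℕ, ν ^ n • s = rep s := fun s => by
    obtain ⟨⟨y, hy⟩, e⟩ : rep s ∈ MulAction.orbit (Subgroup.zpowers ν) s :=
      Quotient.mk_out (s := MulAction.orbitRel (Subgroup.zpowers ν) S) s
    obtain ⟨n, rfl⟩ := (mem_powers_iff_mem_zpowers.2 hy)
    exact ⟨n, e⟩
  choose n hn using hn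
  have hχ : ∀ s, l ^ n (ν⁻¹ • s) = l * l ^ n s := fun s => by
    have e : rep (ν⁻¹ • s) = rep s := congrArg Quotient.out (Quotient.sound
      (⟨⟨ν⁻¹, inv_mem (Subgroup.mem_zpowers ν)⟩, rfl⟩ :
        ν⁻¹ • s ∈ MulAction.orbit (Subgroup.zpowers ν) s))
    rw [← pow_succ']
    refine hwd _ _ (ν⁻¹ • s) ?_
    rw [hn, e, pow_succ, mul_smul, smul_inv_smul, hn]
  let e : (S → k) ≃ₗ[k] (S → k) := LinearEquiv.piCongrRight fun s =>
    LinearEquiv.smulOfNeZero k k (l ^ n s) (pow_ne_zero _ hl0)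
  have he : ∀ f s, e f s = l ^ n s * f s := fun _ _ => rfl
  have key : Module.End.eigenspace (permRep k G S ν) 1 =
      (Module.End.eigenspace (permRep k G S ν) l).comap (e : (S → k) →ₗ[k] (S → k)) := by
    ext f
    rw [Submodule.mem_comap, Module.End.mem_eigenspace_iff, Module.End.mem_eigenspace_iff,
      funext_iff, funext_iff]
    refine forall_congr' fun s => ?_
    rw [one_smul, rep_apply_EB4, rep_apply_EB4, Pi.smul_apply, LinearEquiv.coe_coe, he, he, hχ,
      smul_eq_mul, mul_assoc, mul_right_inj' hl0, mul_right_inj' (pow_ne_zero _ hl0)]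
  rw [mu, mu, top_inf_eq, top_inf_eq, key, Submodule.comap_equiv_eq_map_symm,
    LinearEquiv.finrank_map_eq]

/-- Invariant functions are functions on the orbits. -/
theorem ker_perm (k G S : Type) [Field k] [Group G] [Finite G] [MulAction G S] [Finite S]
    (h : ∀ (g : G) (s : S), g • s = s → g = 1) (g : G) :
    orderOf g * finrank k (ker (permRep k G S g - 1)) ≤ finrank k (S → k) := by
  classical
  let Ω := MulAction.orbitRel.Quotient (Subgroup.zpowers g) S
  have e : S ≃ Ω × Subgroup.zpowers g := MulAction.selfEquivOrbitsQuotientProd fun s =>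
    (Subgroup.eq_bot_iff_forall _).2 fun y hy => Subtype.ext (h y s hy)
  have := Fintype.ofFinite S
  have := Fintype.ofFinite Ω
  let φ : ker (permRep k G S g - 1) →ₗ[k] (Ω → k) :=
    LinearMap.funLeft k k Quotient.out ∘ₗ Submodule.subtype _
  have hφ : Function.Injective φ := by
    refine (injective_iff_map_eq_zero φ).2 fun f hf => Subtype.ext (funext fun s => ?_)
    have h1 : ∀ s, f.1 (g • s) = f.1 s := fun s => by
      have h2 : permRep k G S g f.1 (g • s) - f.1 (g • s) = 0 :=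
        congrFun (mem_ker.1 f.2) (g • s)
      rw [rep_apply_EB4, inv_smul_smul, sub_eq_zero] at h2
      exact h2.symm
    have h3 : ∀ (n : ℕ) s, f.1 (g ^ n • s) = f.1 s := fun n s => by
      induction n with
      | zero => rw [pow_zero, one_smul]
      | succ n ih => rw [pow_succ', mul_smul, h1, ih]
    obtain ⟨⟨y, hy⟩, e⟩ : (Quotient.mk (MulAction.orbitRel (Subgroup.zpowers g) S) s).out ∈
        MulAction.orbit (Subgroup.zpowers g) s :=
      Quotient.mk_out (s := MulAction.orbitRel (Subgroup.zpowers g) S) s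
    obtain ⟨n, rfl⟩ := (mem_powers_iff_mem_zpowers.2 hy)
    rw [← h3 n s]
    exact (congrArg f.1 e).trans (congrFun hf _)
  have h4 := LinearMap.finrank_le_finrank_of_injective hφ
  have h5 := Nat.card_congr e
  rw [Nat.card_prod, Nat.card_zpowers, Nat.card_eq_fintype_card, Nat.card_eq_fintype_card] at h5
  rw [Module.finrank_fintype_fun_eq_card] at h4 ⊢
  rw [h5, mul_comm]
  exact Nat.mul_le_mul_right _ h4

/-- In ` (ZMod p)[t]`, `∑ j⁻¹ t ^ j = (t - 1) * (-1 + (t - 1) * w)` for odd `p`; the second factor is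
invertible because `t - 1` is nilpotent. -/
theorem eig_op {p : ℕ} [Fact p.Prime] (h2 : p ≠ 2) {A : Type} [Ring A] [Algebra (ZMod p) A] {t : A}
    (ht : t ^ p = 1) : ∃ u : Aˣ, Commute (u : A) t ∧
      ∑ j ∈ Finset.range p, ((j : ZMod p)⁻¹) • t ^ j = u * (t - 1) := by
  have hp : 2 < p := lt_of_le_of_ne (Fact.out : p.Prime).two_le h2.symm
  set f : Polynomial (ZMod p) :=
    ∑ j ∈ Finset.range p, Polynomial.C ((j : ZMod p)⁻¹) * Polynomial.X ^ j with hf
  have h1 : f.IsRoot 1 := by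
    have h := FiniteField.sum_pow_lt_card_sub_one (K := ZMod p) 1 (by rw [ZMod.card]; omega)
    simp only [pow_one] at h
    simp only [hf, Polynomial.IsRoot.def, Polynomial.eval_finset_sum, Polynomial.eval_mul,
      Polynomial.eval_C, Polynomial.eval_pow, Polynomial.eval_X, one_pow, mul_one]
    rw [sum_range_EB4 fun x => x⁻¹, ← h]
    exact Equiv.sum_comp (Equiv.inv (ZMod p)) fun x => x
  obtain ⟨g, hg⟩ := Polynomial.dvd_iff_isRoot.2 h1
  have h3 : (g + 1).IsRoot 1 := by
    have h := congrArg (fun q => (Polynomial.derivative q).eval 1) hg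
    simp only [hf, Polynomial.derivative_sum, Polynomial.derivative_mul, Polynomial.derivative_C,
      Polynomial.derivative_X_pow, Polynomial.derivative_sub, Polynomial.derivative_X,
      Polynomial.eval_finset_sum, Polynomial.eval_add, Polynomial.eval_mul, Polynomial.eval_C,
      Polynomial.eval_pow, Polynomial.eval_X, Polynomial.eval_sub, Polynomial.eval_one,
      Polynomial.eval_zero, one_pow, mul_one, zero_mul, zero_add, sub_zero, sub_self, one_mul,
      add_zero] at h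
    rw [sum_range_EB4 fun x => x⁻¹ * x] at h
    have h4 : ∀ x : ZMod p, x⁻¹ * x = 1 - if x = 0 then 1 else 0 := fun x => by
      by_cases hx : x = 0 <;> simp [hx]
    simp only [h4, Finset.sum_sub_distrib, Finset.sum_ite_eq', Finset.mem_univ, if_true,
      Finset.sum_const, Finset.card_univ, ZMod.card, nsmul_eq_mul, ZMod.natCast_self, zero_mul,
      zero_sub] at h
    simp [← h]
  obtain ⟨w, hw⟩ := Polynomial.dvd_iff_isRoot.2 h3
  have h5 : IsNilpotent (Polynomial.aeval t (g + 1)) := by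
    refine ⟨p, ?_⟩
    rw [← map_pow, hw, mul_pow, map_mul, map_pow]
    simp [nil_EB4 ht]
  have h6 := h5.isUnit_sub_one
  rw [map_add, map_one, add_sub_cancel_right] at h6
  refine ⟨h6.unit, ?_, ?_⟩
  · have h7 := (Commute.all g Polynomial.X).map (Polynomial.aeval t)
    rwa [Polynomial.aeval_X] at h7
  · have h7 := congrArg (Polynomial.aeval t) (hg.trans (mul_comm _ _))
    simpa [hf, Algebra.smul_def] using h7

/-- `X = ∑ j⁻¹ g ^ j` satisfies `ν X = r X ν`. -/
theorem PC.tw {p : ℕ} [Fact p.Prime] (h2 : p ≠ 2) {Γ : Type} [Group Γ] [Finite Γ] {B : ℕ}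
    (P : PC (ZMod p) Γ B) {g ν : Γ} {r : ℕ} (hg : orderOf g = p) (hν : (orderOf ν).Coprime p)
    (hr : ν * g * ν⁻¹ = g ^ r) : Nonempty (TW (ZMod p) p (orderOf ν) B (r : ZMod p)) := by
  have hgp : g ^ p = 1 := hg ▸ pow_orderOf_eq_one g
  have hρ : ∀ i, permRep (ZMod p) Γ (P.S i) g ^ p = 1 := fun i => by
    rw [← map_pow, hgp, map_one]
  have hconj : ∀ n : ℕ, ν ^ n * g * (ν ^ n)⁻¹ = g ^ r ^ n := fun n => by
    induction n with
    | zero => simp
    | succ n ih =>
      rw [pow_succ' r, pow_mul, ← hr, conj_pow, ← ih, pow_succ', mul_inv_rev]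
      simp only [mul_assoc]
  have cm : (r : ZMod p) ^ orderOf ν = 1 := by
    have h := hconj (orderOf ν)
    rw [pow_orderOf_eq_one, one_mul, inv_one, mul_one] at h
    have h' := (pow_eq_EB4 hg _ 1).1 (h.symm.trans (pow_one g).symm)
    rwa [Nat.cast_pow, Nat.cast_one] at h'
  have hr0 : (r : ZMod p) ≠ 0 := fun h0 => by
    rw [h0, zero_pow (orderOf_pos ν).ne'] at cm
    exact zero_ne_one cm
  have hd : ∀ i (y : Γ) v, P.d i (permRep (ZMod p) Γ (P.S (i + 1)) y v) =
      permRep (ZMod p) Γ (P.S i) y (P.d i v) := fun i y v => P.eqv i y⁻¹ v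
  let ε : (P.S 0 → ZMod p) →ₗ[ZMod p] ZMod p := ∑ s, LinearMap.proj s
  have hε : ∀ v, ε v = ∑ s, v s := fun v => by simp [ε]
  have hε' : ∀ (y : Γ) v, ε (permRep (ZMod p) Γ (P.S 0) y v) = ε v := fun y v => by
    rw [hε, hε]
    exact Equiv.sum_comp (MulAction.toPerm y⁻¹) v
  refine ⟨{
    V := fun i => P.S i → ZMod p
    X := fun i => ∑ j ∈ Finset.range p, ((j : ZMod p)⁻¹) • permRep (ZMod p) Γ (P.S i) g ^ j
    ν := fun i => permRep (ZMod p) Γ (P.S i) ν
    d := P.d
    ε := ε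
    hm := ?_
    νm := fun i => by rw [← map_pow, pow_orderOf_eq_one, map_one]
    cm := cm
    cp := ZMod.pow_card _
    tw := fun i v => ?_
    free := fun i a b hab => ?_
    dX := fun i v => ?_
    dν := fun i v => hd i ν v
    εX := fun v => ?_
    εν := hε' ν
    εs := fun c => ?_
    eul := fun i l hl => mu_perm _ _ _ (P.free i) ν hl
    dd := P.dd
    top := ?_
    h0 := Submodule.ext fun v => by rw [P.h0, mem_ker, hε]
    h1 := P.h1
    h2 := P.h2
    h3 := P.h3
    h4 := P.h4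
    h5 := P.h5
    h6 := P.h6 }⟩
  · rw [Ne, ZMod.natCast_eq_zero_iff]
    exact (Nat.Prime.coprime_iff_not_dvd Fact.out).1 hν.symm
  · rw [← LinearMap.smul_apply, ← twist_EB4 (hρ i) hr0, ← Module.End.mul_apply,
      ← Module.End.mul_apply, Finset.mul_sum, Finset.sum_mul]
    refine LinearMap.congr_fun (Finset.sum_congr rfl fun j _ => ?_) v
    rw [mul_smul_comm, smul_mul_assoc, ← map_pow, ← map_pow, ← map_mul, ← map_mul, pow_mul, ← hr,
      conj_pow, inv_mul_cancel_right]
  · obtain ⟨u, hu, e⟩ := eig_op h2 (hρ i)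
    rw [e]
    refine free_of_ker ?_ ?_ hab
    · rw [(hu.sub_right (Commute.one_right _)).mul_pow, nil_EB4 (hρ i), mul_zero]
    · have h := ker_perm (ZMod p) Γ (P.S i) (P.free i) g
      rw [hg] at h
      rwa [Module.End.mul_eq_comp, ker_comp_of_ker_eq_bot _
        (ker_eq_bot.2 ((Module.End.isUnit_iff _).1 u.isUnit).1)]
  · simp only [LinearMap.sum_apply, LinearMap.smul_apply, map_sum, map_smul, ← map_pow, hd]
  · obtain ⟨u, hu, e⟩ := eig_op h2 (hρ 0)
    rw [e, (hu.sub_right (Commute.one_right _)).eq, Module.End.mul_apply, LinearMap.sub_apply,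
      map_sub, hε', Module.End.one_apply, sub_self]
  · classical
    obtain ⟨s⟩ := P.ne
    exact ⟨Pi.single s c, by simp [hε]⟩
  · obtain ⟨L, hL⟩ := P.top
    exact ⟨L, fun i hi => by have := hL i hi; infer_instance⟩

/-- Split `x` by `exists_split`; the `p`-part acts trivially (Fermat). -/
theorem PC.aut {p : ℕ} [Fact p.Prime] {Γ : Type} [Group Γ] [Finite Γ] {B : ℕ}
    (P : PC (ZMod p) Γ B) (hp : 4 * (B + 1) ≤ p) {g x : Γ} (hg : orderOf g = p)
    (hx : x * g * x⁻¹ ∈ Subgroup.zpowers g) : Commute (x ^ (B + 3).factorial) g := by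
  obtain ⟨i, j, e, ⟨s, hs⟩, hj⟩ := exists_split p Fact.out x
  obtain ⟨r, -, hr⟩ := exists_conj_pow hx
  have hr' : ∀ n : ℕ, x ^ n * g * (x ^ n)⁻¹ = g ^ r ^ n := fun n => by simpa using hr n 1
  have key : ∀ n : ℕ, Commute (x ^ n) g ↔ (r : ZMod p) ^ n = 1 := fun n => by
    rw [commute_iff_eq, ← mul_inv_eq_iff_eq_mul, hr', ← Nat.cast_pow, ← Nat.cast_one,
      ← pow_eq_EB4 hg, pow_one]
  have h1 : Commute (x ^ i) g := by
    have h := (key (i * p ^ s)).1 (by rw [pow_mul, hs]; exact Commute.one_left g)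
    rw [pow_mul, ZMod.pow_card_pow] at h
    exact (key i).2 h
  obtain ⟨W⟩ := P.tw (by omega) hg hj (hr' j)
  have h2 := W.order_le hp
  have h3 : 0 < orderOf ((r ^ j : ℕ) : ZMod p) :=
    (isOfFinOrder_iff_pow_eq_one.2 ⟨_, orderOf_pos (x ^ j), W.cm⟩).orderOf_pos
  have h4 := orderOf_dvd_iff_pow_eq_one.1 (Nat.dvd_factorial h3 h2)
  rw [Nat.cast_pow, ← pow_mul, ← key, pow_mul] at h4
  rw [e, (Commute.pow_pow_self x i j).mul_pow]
  exact (h1.pow_left _).mul_left h4

end RG
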