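import Mathlib

/-! Definitions for the algebraic part: free permutation complexes and two abstractions. -/

set_option autoImplicit false

noncomputable section

namespace RG

open Module LinearMap

/-- A finite complex of free permutation modules with the homology pattern of a simply connected
closed five-manifold. -/
structure PC (k Γ : Type) [Field k] [Group Γ] (B : ℕ) where
  S : ℕ → Type
  [fin : ∀ i, Fintype (S i)]
  [act : ∀ i, MulAction Γ (S i)]
  free : ∀ i (g : Γ) (s : S i), g • s = s → g = 1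
  d : ∀ i, (S (i + 1) → k) →ₗ[k] (S i → k)
  eqv : ∀ i (g : Γ) (x : S (i + 1) → k), d i (fun s => x (g • s)) = fun s => d i x (g • s)
  dd : ∀ i x, d i (d (i + 1) x) = 0
  top : ∃ L, ∀ i, L ≤ i → IsEmpty (S i)
  ne : Nonempty (S 0)
  h0 : ∀ x : S 0 → k, x ∈ range (d 0) ↔ ∑ s, x s = 0
  h1 : ker (d 0) ≤ range (d 1)
  h2 : finrank k (ker (d 1)) ≤ finrank k (range (d 2)) + B
  h3 : finrank k (ker (d 2)) ≤ finrank k (range (d 3)) + B
  h4 : ker (d 3) ≤ range (d 4)
  h5 : finrank k (ker (d 4)) ≤ finrank k (range (d 5)) + 1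
  h6 : ∀ i, 5 ≤ i → ker (d i) ≤ range (d (i + 1))

attribute [instance] PC.fin PC.act

section

variable (k R : Type) [Field k] [CommRing R] [Algebra k R]

/-- The properties of `k[x, y] / (x ^ q, y ^ q)` that are used. -/
structure Trunc (q : ℕ) (x y : R) : Prop where
  fin : Module.Finite k R
  dim : finrank k R = q ^ 2
  loc : IsLocalRing R
  inj : Module.Injective R R
  nx : IsNilpotent x
  ny : IsNilpotent y
  max : finrank k (Ideal.span {x, y} : Ideal R) + 1 = finrank k R
  soc : finrank k (ker (lsmul R R x) ⊓ ker (lsmul R R y) : Submodule R R) ≤ 1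
  sq : ∀ (r : ℕ) (ψ : (Fin r → R) →ₗ[R] (Fin r → R)),
    finrank k (Fin r → R) < finrank k (range ψ) + q → Function.Surjective ψ

variable (M : Type) [AddCommGroup M] [Module R M] [Module k M] [IsScalarTower k R M]

/-- Stably, `M` receives a map from a free module with small kernel and cokernel. -/
def Bel (a : ℕ) (z : Prop) : Prop :=
  ∃ (r r' : ℕ) (β : (Fin r → R) →ₗ[R] M × (Fin r' → R)), finrank k (ker β) ≤ a ∧
    finrank k (M × (Fin r' → R)) ≤ finrank k (range β) + a ∧ (z → ¬ Function.Surjective β)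

/-- Stably, `M` has a map to a free module with small kernel and cokernel. -/
def Abv (a : ℕ) (z : Prop) : Prop :=
  ∃ (r r' : ℕ) (α : (M × (Fin r' → R)) →ₗ[R] (Fin r → R)), finrank k (ker α) ≤ a ∧
    finrank k (Fin r → R) ≤ finrank k (range α) + a ∧ (z → ¬ Function.Surjective α)

variable (M' : Type) [AddCommGroup M'] [Module R M']

/-- Stable isomorphism. -/
def St : Prop := ∃ r r' : ℕ, Nonempty ((M × (Fin r → R)) ≃ₗ[R] (M' × (Fin r' → R)))

end

section

variable {k V : Type} [Field k] [AddCommGroup V] [Module k V]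

/-- Multiplicity of the eigenvalue `l` of `ν` in `U`. -/
def mu (ν : Module.End k V) (U : Submodule k V) (l : k) : ℕ :=
  finrank k (U ⊓ ν.eigenspace l : Submodule k V)

/-- Multiplicity of `l` in ` (U ⊓ ker (X ^ a)) / X ^ b U`. -/
def tt (ν X : Module.End k V) (a b : ℕ) (U : Submodule k V) (l : k) : ℤ :=
  (mu ν (U ⊓ ker (X ^ a)) l : ℤ) - mu ν (U.map (X ^ b)) l

end

/-- A complex with a nilpotent free operator `X` and a semisimple operator `ν` twisting it. -/
structure TW (k : Type) [Field k] (p m B : ℕ) (c : k) where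
  V : ℕ → Type
  [grp : ∀ i, AddCommGroup (V i)]
  [mod : ∀ i, Module k (V i)]
  [fd : ∀ i, FiniteDimensional k (V i)]
  X : ∀ i, Module.End k (V i)
  ν : ∀ i, Module.End k (V i)
  d : ∀ i, V (i + 1) →ₗ[k] V i
  ε : V 0 →ₗ[k] k
  hm : (m : k) ≠ 0
  νm : ∀ i, ν i ^ m = 1
  cm : c ^ m = 1
  cp : c ^ p = c
  tw : ∀ i v, ν i (X i v) = c • X i (ν i v)
  free : ∀ i a b, a + b = p → ker (X i ^ a) = range (X i ^ b)
  dX : ∀ i v, d i (X (i + 1) v) = X i (d i v)
  dν : ∀ i v, d i (ν (i + 1) v) = ν i (d i v)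
  εX : ∀ v, ε (X 0 v) = 0
  εν : ∀ v, ε (ν 0 v) = ε v
  εs : Function.Surjective ε
  eul : ∀ i l, l ^ m = 1 → mu (ν i) ⊤ l = mu (ν i) ⊤ 1
  dd : ∀ i v, d i (d (i + 1) v) = 0
  top : ∃ L, ∀ i, L ≤ i → Subsingleton (V i)
  h0 : range (d 0) = ker ε
  h1 : ker (d 0) ≤ range (d 1)
  h2 : finrank k (ker (d 1)) ≤ finrank k (range (d 2)) + B
  h3 : finrank k (ker (d 2)) ≤ finrank k (range (d 3)) + B
  h4 : ker (d 3) ≤ range (d 4)
  h5 : finrank k (ker (d 4)) ≤ finrank k (range (d 5)) + 1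
  h6 : ∀ i, 5 ≤ i → ker (d i) ≤ range (d (i + 1))

attribute [instance] TW.grp TW.mod TW.fd

end RG
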