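import Pool.Agent.P.MP_8a106a_gt.GDefs

/-! Basic lemmas on almost cyclic groups. -/

set_option autoImplicit false
set_option linter.unusedSectionVars false

namespace RG

open Subgroup

variable {G : Type} [Group G] [Finite G]

/-- Use `Subgroup.exists_pow_mem_of_index_ne_zero` for ` (zpowers z).subgroupOf H`. -/
theorem pow_fact_mem {H : Subgroup G} {z : G} {m : ℕ} (hz : z ∈ H)
    (h : Nat.card H ≤ m * orderOf z) {x : G} (hx : x ∈ H) : x ^ m.factorial ∈ zpowers z := by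
  have h1 := ((zpowers z).subgroupOf H).card_mul_index
  rw [Nat.card_congr (subgroupOfEquivOfLe (zpowers_le.2 hz)).toEquiv, Nat.card_zpowers] at h1
  have h2 : ((zpowers z).subgroupOf H).index ≤ m :=
    Nat.le_of_mul_le_mul_left (by rw [h1, mul_comm]; exact h) (orderOf_pos z)
  obtain ⟨n, h3, h4, h5⟩ := exists_pow_mem_of_index_ne_zero
    (index_ne_zero_of_finite (H := (zpowers z).subgroupOf H)) ⟨x, hx⟩
  obtain ⟨k, hk⟩ := Nat.dvd_factorial h3 (h4.trans h2)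
  rw [hk, pow_mul]
  exact pow_mem (mem_subgroupOf.1 h5) k

theorem AC.mono {H : Subgroup G} {m m' : ℕ} (h : AC H m) (hm : m ≤ m') : AC H m' := by
  obtain ⟨z, hz, h⟩ := h
  exact ⟨z, hz, h.trans (Nat.mul_le_mul_right _ hm)⟩

theorem AC.of_le {K H : Subgroup G} {m j : ℕ} (h : AC K m) (hK : K ≤ H)
    (hj : Nat.card H ≤ j * Nat.card K) : AC H (j * m) := by
  obtain ⟨z, hz, h⟩ := h
  exact ⟨z, hK hz, hj.trans (by rw [mul_assoc]; exact Nat.mul_le_mul_left _ h)⟩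

theorem pow_mem_TT {H : Subgroup G} (e : ℕ) {x : G} (hx : x ∈ H) : x ^ e ∈ TT H e := by
  exact subset_closure ⟨x, hx, rfl⟩

theorem TT_le (H : Subgroup G) (e : ℕ) : TT H e ≤ H := by
  refine (closure_le _).2 ?_
  rintro _ ⟨x, hx, rfl⟩
  exact pow_mem hx e

theorem TT_map (H : Subgroup G) (e : ℕ) (g : G) :
    TT (H.map (MulAut.conj g).toMonoidHom) e = (TT H e).map (MulAut.conj g).toMonoidHom := by
  rw [TT, TT, MonoidHom.map_closure]
  congr 1
  ext y
  constructor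
  · rintro ⟨_, ⟨x, hx, rfl⟩, rfl⟩
    exact ⟨_, ⟨x, hx, rfl⟩, map_pow _ _ _⟩
  · rintro ⟨_, ⟨x, hx, rfl⟩, rfl⟩
    exact ⟨_, ⟨x, hx, rfl⟩, map_pow _ _ _⟩

/-- `TT H e` lies in `zpowers z` and contains `z ^ e`. -/
theorem TT_cyc {H : Subgroup G} {m e : ℕ} (h : AC H m) (he : m.factorial ∣ e) (he0 : 0 < e) :
    ∃ t ∈ H, TT H e = zpowers t ∧ Nat.card H ≤ m * e * orderOf t := by
  obtain ⟨z, hz, h⟩ := h
  have h1 : TT H e ≤ zpowers z := by
    refine (closure_le _).2 ?_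
    rintro _ ⟨x, hx, rfl⟩
    obtain ⟨k, rfl⟩ := he
    rw [pow_mul]
    exact pow_mem (pow_fact_mem hz h hx) k
  obtain ⟨n, hn⟩ := (le_zpowers_iff z _).1 h1
  refine ⟨z ^ n, pow_mem hz n, hn, h.trans ?_⟩
  rw [mul_assoc]
  refine Nat.mul_le_mul_left _ ?_
  have h2 : orderOf (z ^ e) ≤ orderOf (z ^ n) :=
    Nat.le_of_dvd (orderOf_pos _) (orderOf_dvd_of_mem_zpowers (hn ▸ pow_mem_TT e hz))
  refine le_trans ?_ (Nat.mul_le_mul (Nat.gcd_le_right (orderOf z) he0) h2)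
  rw [orderOf_pow, Nat.mul_div_cancel' (Nat.gcd_dvd_left _ _)]

/-- An element normalising a cyclic group normalises all its subgroups. -/
theorem conj_mem_zpowers {t u x : G} (hu : u ∈ zpowers t) (hx : x * t * x⁻¹ ∈ zpowers t) :
    x * u * x⁻¹ ∈ zpowers u := by
  obtain ⟨k, rfl⟩ := mem_zpowers_iff.1 hu
  obtain ⟨j, hj⟩ := mem_zpowers_iff.1 hx
  exact mem_zpowers_iff.2 ⟨j, by rw [← conj_zpow, ← hj, ← zpow_mul, ← zpow_mul, mul_comm]⟩

/-- The quotient `L / W` is abelian of exponent dividing `A` with at most `N` generators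
(`card_dvd_exponent_pow_rank`). -/
theorem card_le_of_comm {N A : ℕ} (hN : RkG G N) (hA : 0 < A) {W L : Subgroup G} (hW : W ≤ L)
    (hc : ∀ x ∈ L, ∀ y ∈ L, x * y * x⁻¹ * y⁻¹ ∈ W) (hp : ∀ x ∈ L, x ^ A ∈ W) :
    Nat.card L ≤ A ^ N * Nat.card W := by
  have hn : (W.subgroupOf L).Normal := ⟨fun w hw x => by
    rw [mem_subgroupOf] at hw ⊢
    have := mul_mem (hc x x.2 w w.2) hw
    simpa using this⟩
  let _ : CommGroup (L ⧸ W.subgroupOf L) :=
    { QuotientGroup.Quotient.group (W.subgroupOf L) with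
      mul_comm := by
        rintro ⟨x⟩ ⟨y⟩
        refine QuotientGroup.eq.2 (mem_subgroupOf.2 ?_)
        have := hc y⁻¹ (inv_mem y.2) x⁻¹ (inv_mem x.2)
        simpa [mul_assoc] using this }
  have h1 : Nat.card (L ⧸ W.subgroupOf L) ∣ A ^ Group.rank (L ⧸ W.subgroupOf L) := by
    refine card_dvd_exponent_pow_rank' _ ?_
    rintro ⟨x⟩
    exact (QuotientGroup.eq_one_iff (x ^ A)).2 (mem_subgroupOf.2 (hp x x.2))
  have h2 : Group.rank L ≤ N := by
    obtain ⟨S, hS, rfl⟩ := hN L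
    exact (rank_closure_finset_le_card S).trans hS
  have h3 := (Group.rank_le_of_surjective (QuotientGroup.mk' (W.subgroupOf L))
    (QuotientGroup.mk'_surjective _)).trans h2
  rw [card_eq_card_quotient_mul_card_subgroup (W.subgroupOf L),
    Nat.card_congr (subgroupOfEquivOfLe hW).toEquiv]
  exact Nat.mul_le_mul_right _
    ((Nat.le_of_dvd (pow_pos hA _) h1).trans (Nat.pow_le_pow_right hA h3))

/-- The order of `x` does not divide `R`, so some prime power part of it does not. -/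
theorem exists_ppart {x : G} {R : ℕ} (h : x ^ R ≠ 1) :
    ∃ p k : ℕ, p.Prime ∧ PE p (x ^ k) ∧ (x ^ k) ^ R ≠ 1 := by
  rw [Ne, ← orderOf_dvd_iff_pow_eq_one, Nat.dvd_iff_prime_pow_dvd_dvd] at h
  simp only [not_forall] at h
  obtain ⟨p, k, hp, h1, h2⟩ := h
  have h3 := orderOf_pow_orderOf_div (orderOf_pos x).ne' h1
  refine ⟨p, orderOf x / p ^ k, hp, ⟨k, by rw [← orderOf_dvd_iff_pow_eq_one, h3]⟩, ?_⟩
  rwa [Ne, ← orderOf_dvd_iff_pow_eq_one, h3]

/-- Decomposition into a `p`-part and a part of order prime to `p`. -/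
theorem exists_split (p : ℕ) (hp : p.Prime) (x : G) :
    ∃ i j : ℕ, x = x ^ i * x ^ j ∧ PE p (x ^ i) ∧ (orderOf (x ^ j)).Coprime p := by
  obtain ⟨a, b, hb, e⟩ := Nat.exists_eq_pow_mul_and_not_dvd (orderOf_pos x).ne' p hp.ne_one
  have hc : b.Coprime p := ((Nat.Prime.coprime_iff_not_dvd hp).2 hb).symm
  have hc' : (p ^ a).Coprime b := (hc.pow_right a).symm
  obtain ⟨i, i1, i2⟩ := Nat.chineseRemainder hc' 1 0
  obtain ⟨j, j1, j2⟩ := Nat.chineseRemainder hc' 0 1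
  refine ⟨i, j, ?_, ⟨a, ?_⟩, hc.coprime_dvd_left ?_⟩
  · rw [← pow_add]
    refine (pow_one x).symm.trans (pow_eq_pow_iff_modEq.2 ?_)
    rw [e, ← Nat.modEq_and_modEq_iff_modEq_mul hc']
    exact ⟨(i1.add j1).symm, (i2.add j2).symm⟩
  · rw [← pow_mul, ← orderOf_dvd_iff_pow_eq_one, e, mul_comm]
    exact Nat.mul_dvd_mul_right (Nat.modEq_zero_iff_dvd.1 i2) _
  · rw [orderOf_dvd_iff_pow_eq_one, ← pow_mul, ← orderOf_dvd_iff_pow_eq_one, e]
    exact Nat.mul_dvd_mul_right (Nat.modEq_zero_iff_dvd.1 j1) _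

theorem PE.pow {p : ℕ} {u : G} (h : PE p u) (k : ℕ) : PE p (u ^ k) := by
  obtain ⟨s, hs⟩ := h
  exact ⟨s, by rw [← pow_mul, mul_comm, pow_mul, hs, one_pow]⟩

theorem PE.conj {p : ℕ} {u : G} (h : PE p u) (g : G) : PE p (g * u * g⁻¹) := by
  obtain ⟨s, hs⟩ := h
  exact ⟨s, by rw [conj_pow, hs, mul_one, mul_inv_cancel]⟩

theorem PE.order {p : ℕ} (hp : p.Prime) {u : G} (h : PE p u) : ∃ s, orderOf u = p ^ s := by
  obtain ⟨k, hk⟩ := h
  obtain ⟨s, -, hs⟩ := (Nat.dvd_prime_pow hp).1 (orderOf_dvd_of_pow_eq_one hk)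
  exact ⟨s, hs⟩

/-- A `p`-element normalising a cyclic `p`-group generates with it a `p`-group. -/
theorem isPGroup_pair {p : ℕ} (hp : p.Prime) {u x : G} (hu : PE p u) (hx : PE p x)
    (h : x * u * x⁻¹ ∈ zpowers u) : IsPGroup p (closure {u, x} : Subgroup G) := by
  have key : ∀ v : G, PE p v → IsPGroup p (zpowers v) := by
    rintro v ⟨k, hk⟩ ⟨y, hy⟩
    obtain ⟨j, rfl⟩ := mem_zpowers_iff.1 hy
    refine ⟨k, Subtype.ext ?_⟩
    change (v ^ j) ^ p ^ k = 1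
    rw [← zpow_natCast, ← zpow_mul, mul_comm, zpow_mul, zpow_natCast, hk, one_zpow]
  rw [Set.insert_eq, Subgroup.closure_union, ← zpowers_eq_closure, ← zpowers_eq_closure]
  refine (key u hu).to_sup_of_normal_left' (key x hx) (zpowers_le.2 ?_)
  refine mem_normalizer_fintype fun n hn => ?_
  obtain ⟨j, rfl⟩ := mem_zpowers_iff.1 hn
  rw [← conj_zpow]
  exact zpow_mem h j

theorem RkG.sub {N : ℕ} (h : RkG G N) (K : Subgroup G) : RkG K N := by
  intro H
  obtain ⟨S, h1, h2⟩ := h (H.map K.subtype)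
  refine ⟨S.preimage Subtype.val Subtype.coe_injective.injOn, le_trans ?_ h1,
    map_injective K.subtype_injective ?_⟩
  · exact Finset.card_le_card_of_injOn Subtype.val (fun x hx => by simpa using hx)
      Subtype.coe_injective.injOn
  · rw [MonoidHom.map_closure, ← h2, Finset.coe_preimage]
    refine congrArg _ (Set.image_preimage_eq_of_subset fun x hx => ?_)
    obtain ⟨y, -, hy⟩ : x ∈ H.map K.subtype := h2 ▸ subset_closure hx
    exact ⟨y, hy⟩

theorem Syl.sub {c : ℕ} (h : Syl G c) (K : Subgroup G) : Syl K c := by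
  intro p hp P hP
  obtain ⟨_, ⟨z, hz, rfl⟩, h1⟩ := h p hp (P.map K.subtype) (hP.map _)
  rw [card_map_of_injective K.subtype_injective, coe_subtype, orderOf_coe] at h1
  exact ⟨z, hz, h1⟩

theorem Hyp.sub {N c A : ℕ} (h : Hyp G N c A) (K : Subgroup G) : Hyp K N c A := by
  refine ⟨h.apos, h.rank.sub K, h.syl.sub K, fun p hp u x ⟨k, hk⟩ hx => Subtype.ext ?_⟩
  obtain ⟨j, hj⟩ := mem_zpowers_iff.1 hx
  exact h.aut p hp u x ⟨k, congrArg Subtype.val hk⟩
    (mem_zpowers_iff.2 ⟨j, congrArg Subtype.val hj⟩)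

theorem AC.subgroupOf {K H : Subgroup G} {m : ℕ} (h : AC (K ⊓ H) m) : AC (H.subgroupOf K) m := by
  obtain ⟨z, hz, h⟩ := h
  refine ⟨⟨z, hz.1⟩, hz.2, ?_⟩
  rwa [← card_map_of_injective K.subtype_injective, subgroupOf_map_subtype, inf_comm,
    ← orderOf_coe]

theorem AC.of_top {K : Subgroup G} {m : ℕ} (h : AC (⊤ : Subgroup K) m) : AC K m := by
  obtain ⟨z, -, h⟩ := h
  rw [card_top] at h
  exact ⟨z, z.2, by rwa [orderOf_coe]⟩

end RG
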