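import Pool.Agent.P.MP_8a106a_gt.GExt

/-! The family of normalisers of deep cyclic subgroups. -/

set_option autoImplicit false
set_option linter.unusedSectionVars false

namespace RG

open Subgroup

variable {G : Type} [Group G] [Finite G]

theorem mem_norm_GCl1 {U g : G} :
    g ∈ normalizer (zpowers U : Set G) ↔ g * U * g⁻¹ ∈ zpowers U := by
  refine ⟨fun h => (mem_normalizer_iff.1 h U).1 (mem_zpowers U), fun h => ?_⟩
  refine mem_normalizer_fintype ?_
  rintro _ ⟨k, rfl⟩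
  simpa only [conj_zpow, SetLike.mem_coe] using zpow_mem h k

theorem mem_cent_GCl1 {U g : G} : g ∈ centralizer {U} ↔ Commute g U := by
  rw [mem_centralizer_iff]
  simp only [Set.mem_singleton_iff, forall_eq]
  exact eq_comm

theorem cent_le_GCl1 (U : G) : centralizer {U} ≤ normalizer (zpowers U : Set G) := fun g hg => by
  rw [mem_norm_GCl1, (mem_cent_GCl1.1 hg).eq, mul_inv_cancel_right]
  exact mem_zpowers U

theorem norm_of_map_GCl1 {H : Subgroup G} {e : ℕ} {t g V : G} (ht : TT H e = zpowers t)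
    (hg : H.map (MulAut.conj g).toMonoidHom = H) (hV : V ∈ TT H e) :
    g ∈ normalizer (zpowers V : Set G) := by
  refine mem_norm_GCl1.2 (conj_mem_zpowers (ht ▸ hV) ?_)
  have := TT_map H e g
  rw [hg, ht] at this
  rw [this]
  exact ⟨t, mem_zpowers t, rfl⟩

theorem le_of_mem_GCl1 {m : ℕ} {U V : G} (h : AC (centralizer {U}) m)
    (hV : V ∈ TT (centralizer {U}) m.factorial) :
    normalizer (zpowers U : Set G) ≤ normalizer (zpowers V : Set G) := fun g hg => by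
  obtain ⟨t, -, ht, -⟩ := TT_cyc h dvd_rfl m.factorial_pos
  have key : ∀ g ∈ normalizer (zpowers U : Set G), ∀ x ∈ centralizer {U},
      g * x * g⁻¹ ∈ centralizer {U} := fun g hg x hx => by
    obtain ⟨k, hk⟩ := mem_norm_GCl1.1 (inv_mem hg)
    have h1 : Commute x (g⁻¹ * U * g⁻¹⁻¹) := hk ▸ (mem_cent_GCl1.1 hx).zpow_right k
    have h2 := h1.map (MulAut.conj g)
    simpa [mem_cent_GCl1, mul_assoc] using h2
  refine norm_of_map_GCl1 ht (le_antisymm ?_ fun x hx => ⟨_, key _ (inv_mem hg) x hx, ?_⟩) hV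
  · rintro _ ⟨x, hx, rfl⟩
    exact key g hg x hx
  · simp [mul_assoc]

/-- Put `e₀ = m!`, `M = A * e₀ * e₀`, `H u = normalizer (zpowers (u ^ M))` for prime power elements
`u` with `u ^ (M * b) ≠ 1`, and `T₀ u = TT (centralizer {u ^ M}) e₀`, a cyclic group normalised by
`H u`. Key: if `v ∈ H u` then `v ^ A` centralises `u ^ M`, `v ^ (A * e₀) ∈ T₀ u`, so `v ^ M ∈ T₀ u`
and `H u ≤ H v`; also `T₀ u` centralises `v ^ M`, so `u ^ e₀` does, `u ^ M ∈ T₀ v` and
`H v ≤ H u`. -/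
theorem cls_key {N c A b m : ℕ} (h : Hyp G N c A)
    (hc : ∀ p : ℕ, p.Prime → ∀ y : G, PE p y → y ^ b ≠ 1 → AC (centralizer {y}) m)
    {p q : ℕ} (hp : p.Prime) (hq : q.Prime) {u v : G} (hu : PE p u) (hv : PE q v)
    (hu' : u ^ (A * m.factorial * m.factorial * b) ≠ 1)
    (hv' : v ^ (A * m.factorial * m.factorial * b) ≠ 1)
    (hvu : v ∈ normalizer (zpowers (u ^ (A * m.factorial * m.factorial)) : Set G)) :
    v ^ (A * m.factorial * m.factorial) ∈
        TT (centralizer {u ^ (A * m.factorial * m.factorial)}) m.factorial ∧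
      normalizer (zpowers (v ^ (A * m.factorial * m.factorial)) : Set G) =
        normalizer (zpowers (u ^ (A * m.factorial * m.factorial)) : Set G) := by
  have pw : ∀ w : G, w ^ (A * m.factorial * m.factorial * b) ≠ 1 →
      (w ^ (A * m.factorial * m.factorial)) ^ b ≠ 1 := fun w hw => by rwa [← pow_mul]
  have au := hc p hp _ (hu.pow _) (pw u hu')
  have av := hc q hq _ (hv.pow _) (pw v hv')
  have h1 : v ^ (A * m.factorial * m.factorial) ∈
      TT (centralizer {u ^ (A * m.factorial * m.factorial)}) m.factorial := by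
    rw [pow_mul v, pow_mul v]
    exact pow_mem (pow_mem_TT _
      (mem_cent_GCl1.2 (h.aut p hp _ v (hu.pow _) (mem_norm_GCl1.1 hvu)))) _
  refine ⟨h1, le_antisymm (le_of_mem_GCl1 av ?_) (le_of_mem_GCl1 au h1)⟩
  obtain ⟨t, -, ht, -⟩ := TT_cyc au dvd_rfl m.factorial_pos
  have h2 : u ^ m.factorial ∈ TT (centralizer {u ^ (A * m.factorial * m.factorial)}) m.factorial :=
    pow_mem_TT _ (mem_cent_GCl1.2 (Commute.self_pow u _))
  rw [ht] at h1 h2
  obtain ⟨i, hi⟩ := h1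
  obtain ⟨j, hj⟩ := h2
  have h3 : Commute (u ^ m.factorial) (v ^ (A * m.factorial * m.factorial)) :=
    hi ▸ hj ▸ Commute.zpow_zpow_self t j i
  have h4 := pow_mem (pow_mem_TT m.factorial (mem_cent_GCl1.2 h3)) A
  rwa [← pow_mul, ← pow_mul, ← mul_assoc, mul_comm _ A, ← mul_assoc] at h4

/-- Take `R = M * b`, `m₁ = A ^ N * m`, `e = m₁!`, `a = m₁ * e`, `T H = TT H e` and the family of
the `H u` with `u ^ (e * R) ≠ 1`. Self-normalising: if `g` normalises `H u` then `g u g⁻¹ ∈ H u`,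
so `g u ^ M g⁻¹` and `u ^ M` are elements of the same order of the cyclic group `T₀ u`. -/
theorem exists_fam (N c A b m : ℕ) (hb : 0 < b) (hA : 0 < A) :
    ∃ a e R : ℕ, 0 < e ∧ 0 < R ∧ ∀ (G : Type) [Group G] [Finite G], Hyp G N c A →
      (∀ p : ℕ, p.Prime → ∀ y : G, PE p y → y ^ b ≠ 1 → AC (centralizer {y}) m) →
      ∃ 𝓗 T, Fam (G := G) 𝓗 T a e R := by
  obtain ⟨M, hM⟩ : ∃ M, M = A * m.factorial * m.factorial := ⟨_, rfl⟩
  obtain ⟨e, he⟩ : ∃ e, e = (A ^ N * m).factorial := ⟨_, rfl⟩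
  have he0 : 0 < e := he ▸ Nat.factorial_pos _
  refine ⟨A ^ N * m * e, e, M * b, he0, by rw [hM]; positivity, fun G _ _ h hc => ?_⟩
  have key : ∀ {p q : ℕ}, p.Prime → q.Prime → ∀ {u v : G}, PE p u → PE q v → u ^ (M * b) ≠ 1 →
      v ^ (M * b) ≠ 1 → v ∈ normalizer (zpowers (u ^ M) : Set G) →
      normalizer (zpowers (v ^ M) : Set G) = normalizer (zpowers (u ^ M) : Set G) := by
    subst hM
    exact fun hp hq _ _ hu hv hu' hv' hvu => (cls_key h hc hp hq hu hv hu' hv' hvu).2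
  have dn : ∀ {u : G}, u ^ (e * (M * b)) ≠ 1 → u ^ (M * b) ≠ 1 := fun {u} hu e1 =>
    hu (by rw [mul_comm, pow_mul, e1, one_pow])
  have um : ∀ u : G, u ∈ normalizer (zpowers (u ^ M) : Set G) := fun u =>
    cent_le_GCl1 _ (mem_cent_GCl1.2 (Commute.self_pow u _))
  have cy : ∀ {p : ℕ}, p.Prime → ∀ {u : G}, PE p u → u ^ (e * (M * b)) ≠ 1 →
      ∃ t ∈ normalizer (zpowers (u ^ M) : Set G),
        TT (normalizer (zpowers (u ^ M) : Set G)) e = zpowers t ∧
        Nat.card (normalizer (zpowers (u ^ M) : Set G)) ≤ A ^ N * m * e * orderOf t := by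
    intro p hp u hu hu'
    refine TT_cyc ((hc p hp _ (hu.pow M) (by rw [← pow_mul]; exact dn hu')).of_le
      (cent_le_GCl1 _) ?_) (he ▸ dvd_rfl) he0
    have := card_le_cent h (t := u ^ M) fun x hx => mem_norm_GCl1.1 hx
    rwa [inf_of_le_right (cent_le_GCl1 _)] at this
  refine ⟨{H | ∃ (p : ℕ) (u : G), p.Prime ∧ PE p u ∧ u ^ (e * (M * b)) ≠ 1 ∧
    H = normalizer (zpowers (u ^ M) : Set G)}, fun H => TT H e, ?_, fun g H => TT_map H e g, ?_, ?_,
    fun H _ x hx => pow_mem_TT e hx, ?_, fun x hx => ?_⟩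
  · rintro g _ ⟨p, u, hp, hu, hu', rfl⟩
    refine ⟨p, g * u * g⁻¹, hp, hu.conj g, by simpa using hu', ?_⟩
    rw [map_equiv_normalizer_eq, MonoidHom.map_zpowers, conj_pow]
    rfl
  · rintro _ ⟨p, u, hp, hu, hu', rfl⟩ g hg
    obtain ⟨t, -, ht, -⟩ := cy hp hu hu'
    rw [← key hp hp hu (hu.pow e) (dn hu') (by rwa [← pow_mul]) (pow_mem (um u) e)]
    exact norm_of_map_GCl1 ht hg (pow_mem (pow_mem_TT e (um u)) M)
  · rintro _ ⟨p, u, hp, hu, hu', rfl⟩
    obtain ⟨t, h1, ht, h2⟩ := cy hp hu hu'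
    refine ⟨t, h1, ht, h2, fun e1 => hu' ?_⟩
    obtain ⟨k, hk⟩ := ht ▸ pow_mem_TT e (um u)
    have hk' : t ^ k = u ^ e := hk
    rw [pow_mul, ← hk', ← zpow_natCast, ← zpow_mul, mul_comm, zpow_mul, zpow_natCast, e1, one_zpow]
  · rintro _ ⟨p, u, hp, hu, hu', rfl⟩ _ ⟨p', u', hp', hw, hw', rfl⟩ x hx hx' hxR
    obtain ⟨q, k, hq, hv, hv'⟩ := exists_ppart hxR
    rw [← key hp hq hu hv (dn hu') hv' (pow_mem hx k), key hp' hq hw hv (dn hw') hv' (pow_mem hx' k)]
  · obtain ⟨q, k, hq, hv, hv'⟩ := exists_ppart hx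
    exact ⟨_, ⟨q, _, hq, hv, hv', rfl⟩, fun g hg => cent_le_GCl1 _
      (mem_cent_GCl1.2 (((mem_cent_GCl1.1 hg).pow_right k).pow_right M))⟩

end RG
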