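import Pool.Agent.P.MP_8a106a_gt.GA

/-! Counting lemmas for a family. -/

set_option autoImplicit false
set_option linter.unusedSectionVars false

namespace RG

open Subgroup

variable {G : Type} [Group G] [Finite G]

/-- Each orbit contributes `index (stabilizer) * w`. -/
theorem dvd_sum_of_stab {α : Type} [MulAction G α] (s : Finset α)
    (hs : ∀ g : G, ∀ x ∈ s, g • x ∈ s) (w : α → ℕ) (hw : ∀ g : G, ∀ x ∈ s, w (g • x) = w x)
    {D : ℕ} (hD : ∀ x ∈ s, Nat.card (MulAction.stabilizer G x) ∣ D * w x) :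
    Nat.card G ∣ D * ∑ x ∈ s, w x := by
  classical
  rw [Finset.mul_sum]
  rw [← Finset.sum_fiberwise_of_maps_to (s := s) (t := s.image (fun x => MulAction.orbit G x))
    (g := fun x => MulAction.orbit G x) (fun x hx => Finset.mem_image_of_mem _ hx)]
  refine Finset.dvd_sum ?_
  intro O hO
  obtain ⟨x, hx, rfl⟩ := Finset.mem_image.1 hO
  have h1 : ∀ y ∈ s.filter (fun y => MulAction.orbit G y = MulAction.orbit G x),
      D * w y = D * w x := by
    intro y hy
    have hy2 := (Finset.mem_filter.1 hy).2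
    have : y ∈ MulAction.orbit G x := by
      rw [← hy2]; exact MulAction.mem_orbit_self y
    obtain ⟨g, rfl⟩ := this
    show D * w (g • x) = D * w x
    rw [hw g x hx]
  rw [Finset.sum_congr rfl h1, Finset.sum_const, smul_eq_mul]
  have h2 : ((s.filter (fun y => MulAction.orbit G y = MulAction.orbit G x) : Finset α) : Set α)
      = MulAction.orbit G x := by
    ext y
    simp only [Finset.coe_filter, Set.mem_ofPred_eq]
    constructor
    · rintro ⟨_, hy2⟩
      rw [← hy2]; exact MulAction.mem_orbit_self y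
    · intro hy
      refine ⟨?_, MulAction.orbit_eq_iff.2 hy⟩
      obtain ⟨g, rfl⟩ := hy
      exact hs g x hx
  have h3 : (s.filter (fun y => MulAction.orbit G y = MulAction.orbit G x)).card
      = (MulAction.stabilizer G x).index := by
    rw [MulAction.index_stabilizer, ← Set.ncard_coe_finset, h2]
  rw [h3, ← (MulAction.stabilizer G x).index_mul_card]
  exact Nat.mul_dvd_mul_left _ (hD x hx)

variable {𝓗 : Set (Subgroup G)} {T : Subgroup G → Subgroup G} {a e R : ℕ}

theorem ncard_pairs_GCl2 {α β : Type} [Finite α] [Finite β] (A : Set α) (Q : α → β → Prop) :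
    Set.ncard {z : α × β | z.1 ∈ A ∧ Q z.1 z.2}
      = ∑ H ∈ (Set.toFinite A).toFinset, Set.ncard {x | Q H x} := by
  classical
  have := Fintype.ofFinite α
  have := Fintype.ofFinite β
  have h1 : Set.ncard {z : α × β | z.1 ∈ A ∧ Q z.1 z.2}
      = ∑ z : α × β, if (z.1 ∈ A ∧ Q z.1 z.2) then 1 else 0 := by
    rw [Finset.sum_boole, Nat.cast_id, ← Set.ncard_coe_finset]
    congr 1
    ext z; simp
  have h2 : ∀ H, Set.ncard {x | Q H x} = ∑ x : β, if Q H x then 1 else 0 := by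
    intro H
    rw [Finset.sum_boole, Nat.cast_id, ← Set.ncard_coe_finset]
    congr 1
    ext z; simp
  rw [h1, Fintype.sum_prod_type]
  simp only [h2]
  rw [← Finset.sum_subset (Finset.subset_univ (Set.toFinite A).toFinset)]
  · refine Finset.sum_congr rfl ?_
    intro H hH
    have hH' : H ∈ A := (Set.Finite.mem_toFinset _).1 hH
    simp [hH']
  · intro H _ hH
    have hH' : H ∉ A := fun h => hH ((Set.Finite.mem_toFinset _).2 h)
    simp [hH']

theorem half_GCl2 (t : G) {R : ℕ} (ht : t ^ R ≠ 1) :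
    orderOf t ≤ 2 * Set.ncard {x : G | x ∈ zpowers t ∧ x ^ R ≠ 1} := by
  have h1 : Set.ncard {x : G | x ∈ zpowers t ∧ x ^ R = 1}
      ≤ Set.ncard {x : G | x ∈ zpowers t ∧ x ^ R ≠ 1} := by
    refine Set.ncard_le_ncard_of_injOn (fun x => x * t) ?_ ?_
    · rintro x ⟨hx, hx1⟩
      refine ⟨mul_mem hx (mem_zpowers t), ?_⟩
      obtain ⟨k, rfl⟩ := hx
      have hc : Commute (t ^ k) t := (Commute.refl t).zpow_left k
      show (t ^ k * t) ^ R ≠ 1
      rw [hc.mul_pow]
      have hx1' : (t ^ k) ^ R = 1 := hx1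
      rw [hx1', one_mul]
      exact ht
    · intro x _ y _ hxy
      exact mul_right_cancel hxy
  have h2 : (zpowers t : Set G) = {x : G | x ∈ zpowers t ∧ x ^ R = 1} ∪
      {x : G | x ∈ zpowers t ∧ x ^ R ≠ 1} := by
    ext x
    simp only [SetLike.mem_coe, Set.mem_union, Set.mem_ofPred_eq]
    tauto
  have h3 : orderOf t = Set.ncard (zpowers t : Set G) := by
    rw [← Nat.card_zpowers]; rfl
  have h4 := Set.ncard_union_le {x : G | x ∈ zpowers t ∧ x ^ R = 1}
    {x : G | x ∈ zpowers t ∧ x ^ R ≠ 1}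
  rw [← h2, ← h3] at h4
  omega

/-- At least half of the elements of `T H` are not killed by `R`, and these elements belong to one
member only. -/
theorem Fam.card_pairs (h : Fam 𝓗 T a e R) :
    Set.ncard {z : Subgroup G × G | z.1 ∈ 𝓗 ∧ z.2 ∈ z.1} ≤ 2 * a * Nat.card G := by
  have h1 := ncard_pairs_GCl2 𝓗 (fun (H : Subgroup G) (x : G) => x ∈ H)
  have h2 := ncard_pairs_GCl2 𝓗 (fun (H : Subgroup G) (x : G) => x ∈ H ∧ x ^ R ≠ 1)
  have h3 : Set.ncard {z : Subgroup G × G | z.1 ∈ 𝓗 ∧ (z.2 ∈ z.1 ∧ z.2 ^ R ≠ 1)}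
      ≤ Nat.card G := by
    rw [← Set.ncard_univ G]
    refine Set.ncard_le_ncard_of_injOn (fun z => z.2) (fun _ _ => Set.mem_univ _) ?_
    rintro ⟨H, x⟩ ⟨hH, hx, hxR⟩ ⟨H', x'⟩ ⟨hH', hx', _⟩ hxy
    have hxx : x = x' := hxy
    subst hxx
    have := h.uniq H hH H' hH' x hx hx' hxR
    subst this
    rfl
  have h4 : ∀ H ∈ (Set.toFinite 𝓗).toFinset,
      Set.ncard {x : G | x ∈ H} ≤ 2 * a * Set.ncard {x : G | x ∈ H ∧ x ^ R ≠ 1} := by
    intro H hH
    have hH' : H ∈ 𝓗 := (Set.Finite.mem_toFinset _).1 hH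
    obtain ⟨t, htH, _, hc, htR⟩ := h.cyc H hH'
    have h5 := half_GCl2 t htR
    have h6 : Set.ncard {x : G | x ∈ zpowers t ∧ x ^ R ≠ 1}
        ≤ Set.ncard {x : G | x ∈ H ∧ x ^ R ≠ 1} := by
      refine Set.ncard_le_ncard ?_
      rintro x ⟨hx, hxR⟩
      exact ⟨(zpowers_le.2 htH) hx, hxR⟩
    have h7 : Set.ncard {x : G | x ∈ H} = Nat.card H := rfl
    rw [h7]
    calc Nat.card H ≤ a * orderOf t := hc
      _ ≤ a * (2 * Set.ncard {x : G | x ∈ H ∧ x ^ R ≠ 1}) :=
          Nat.mul_le_mul_left _ (h5.trans (Nat.mul_le_mul_left _ h6))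
      _ = _ := by ring
  calc _ = _ := h1
    _ ≤ ∑ H ∈ (Set.toFinite 𝓗).toFinset, 2 * a * Set.ncard {x : G | x ∈ H ∧ x ^ R ≠ 1} :=
        Finset.sum_le_sum h4
    _ = 2 * a * Set.ncard {z : Subgroup G × G | z.1 ∈ 𝓗 ∧ (z.2 ∈ z.1 ∧ z.2 ^ R ≠ 1)} := by
        rw [← Finset.mul_sum, h2]
    _ ≤ _ := Nat.mul_le_mul_left _ h3

/-- Conjugation action of `G` on itself. -/
@[reducible] def conjEl_GCl2 (G : Type) [Group G] : MulAction G G where
  smul g x := g * x * g⁻¹
  one_smul x := by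
    show 1 * x * 1⁻¹ = x
    simp
  mul_smul g k x := by
    show (g * k) * x * (g * k)⁻¹ = g * (k * x * k⁻¹) * g⁻¹
    group

/-- Conjugation action of `G` on its subgroups. -/
@[reducible] def conjSub_GCl2 (G : Type) [Group G] : MulAction G (Subgroup G) where
  smul g H := H.map (MulAut.conj g).toMonoidHom
  one_smul H := by
    show H.map (MulAut.conj (1 : G)).toMonoidHom = H
    ext x
    simp
  mul_smul g k H := by
    show H.map (MulAut.conj (g * k)).toMonoidHom =
      (H.map (MulAut.conj k).toMonoidHom).map (MulAut.conj g).toMonoidHom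
    rw [Subgroup.map_map]
    congr 1
    ext x
    simp [mul_assoc]

theorem card_dvd_cosets_GCl2 (K : Subgroup G) (S : Set G) (hS : ∀ x ∈ S, ∀ t ∈ K, x * t ∈ S) :
    Nat.card K ∣ S.ncard := by
  have h1 : S = QuotientGroup.mk ⁻¹' ((QuotientGroup.mk : G → G ⧸ K) '' S) := by
    ext y
    constructor
    · intro hy
      exact ⟨y, hy, rfl⟩
    · rintro ⟨x, hx, hxy⟩
      have h2 : x⁻¹ * y ∈ K := QuotientGroup.eq.1 hxy
      have h3 := hS x hx _ h2
      simpa using h3
  have h4 := QuotientGroup.card_preimage_mk K ((QuotientGroup.mk : G → G ⧸ K) '' S)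
  rw [← h1] at h4
  have h5 : S.ncard = Nat.card S := rfl
  rw [h5, h4]
  exact Dvd.intro _ rfl

theorem mem_map_conj_GCl2 (H : Subgroup G) (g x : G) (hx : x ∈ H) :
    g * x * g⁻¹ ∈ H.map (MulAut.conj g).toMonoidHom := ⟨x, hx, rfl⟩

theorem map_conj_inv_GCl2 (H : Subgroup G) (g : G) :
    (H.map (MulAut.conj g).toMonoidHom).map (MulAut.conj g⁻¹).toMonoidHom = H := by
  rw [Subgroup.map_map]
  have : (MulAut.conj g⁻¹).toMonoidHom.comp (MulAut.conj g).toMonoidHom = MonoidHom.id G := by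
    ext x
    simp [mul_assoc]
  rw [this, Subgroup.map_id]

/-- An invariant set of pairs that is a union of cosets of `T`. Use `dvd_sum_of_stab` for the
conjugation action on subgroups, whose stabilisers are the members themselves. -/
theorem Fam.dvd_pairs (h : Fam 𝓗 T a e R) (P : Subgroup G → G → Prop)
    (hP : ∀ (g : G) H x, P H x → P (H.map (MulAut.conj g).toMonoidHom) (g * x * g⁻¹))
    (hT : ∀ H ∈ 𝓗, ∀ x ∈ H, ∀ t ∈ T H, P H x → P H (x * t)) :
    Nat.card G ∣ a.factorial * Set.ncard {z : Subgroup G × G | z.1 ∈ 𝓗 ∧ z.2 ∈ z.1 ∧ P z.1 z.2} := by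
  have h1 := ncard_pairs_GCl2 𝓗 (fun (H : Subgroup G) (x : G) => x ∈ H ∧ P H x)
  have hle : ∀ (g : G) (H : Subgroup G), Set.ncard {x : G | x ∈ H ∧ P H x} ≤
      Set.ncard {x : G | x ∈ H.map (MulAut.conj g).toMonoidHom ∧
        P (H.map (MulAut.conj g).toMonoidHom) x} := by
    intro g H
    refine Set.ncard_le_ncard_of_injOn (fun x => g * x * g⁻¹) ?_ ?_
    · rintro x ⟨hx, hPx⟩
      exact ⟨mem_map_conj_GCl2 H g x hx, hP g H x hPx⟩
    · intro x _ y _ hxy
      simpa using hxy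
  have h2 := @dvd_sum_of_stab G _ _ (Subgroup G) (conjSub_GCl2 G) (Set.toFinite 𝓗).toFinset
    (fun g H hH => (Set.Finite.mem_toFinset _).2
      (h.conj g H ((Set.Finite.mem_toFinset _).1 hH)))
    (fun H => Set.ncard {x : G | x ∈ H ∧ P H x})
    (by
      intro g H _
      refine le_antisymm ?_ (hle g H)
      have := hle g⁻¹ (H.map (MulAut.conj g).toMonoidHom)
      rw [map_conj_inv_GCl2] at this
      exact this)
    a.factorial
    (by
      intro H hH
      have hH' : H ∈ 𝓗 := (Set.Finite.mem_toFinset _).1 hH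
      obtain ⟨t, htH, hTt, hc, _⟩ := h.cyc H hH'
      have h3 : @MulAction.stabilizer G (Subgroup G) _ (conjSub_GCl2 G) H ≤ H :=
        fun g hg => h.self H hH' g hg
      refine (card_dvd_of_le h3).trans ?_
      have h4 : T H ≤ H := by rw [hTt]; exact zpowers_le.2 htH
      obtain ⟨m, hm⟩ := card_dvd_of_le h4
      have h5 : Nat.card (T H) = orderOf t := by rw [hTt, Nat.card_zpowers]
      have h6 : 0 < orderOf t := orderOf_pos t
      have h7 : 0 < Nat.card H := Nat.card_pos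
      have h8 : m ≤ a := by
        rw [hm, h5, mul_comm] at hc
        exact Nat.le_of_mul_le_mul_right hc h6
      have h9 : 0 < m := by
        rcases Nat.eq_zero_or_pos m with h0 | h0
        · rw [h0, mul_zero] at hm; omega
        · exact h0
      rw [hm, mul_comm]
      refine Nat.mul_dvd_mul (Nat.dvd_factorial h9 h8) ?_
      refine card_dvd_cosets_GCl2 (T H) _ ?_
      rintro x ⟨hx, hPx⟩ s hs
      exact ⟨mul_mem hx (h4 hs), hT H hH' x hx s hs hPx⟩)
  rw [← h1] at h2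
  exact h2

theorem Fam.comm_GCl2 (h : Fam 𝓗 T a e R) {H : Subgroup G} (hH : H ∈ 𝓗) {s t : G}
    (hs : s ∈ T H) (ht : t ∈ T H) : s * t = t * s := by
  obtain ⟨u, _, hTu, _, _⟩ := h.cyc H hH
  rw [hTu] at hs ht
  obtain ⟨k, rfl⟩ := hs
  obtain ⟨l, rfl⟩ := ht
  exact (Commute.refl u).zpow_zpow k l

/-- The gap: for `j ≤ 2 * a * a!` the sets of pairs with `T H ⊓ centralizer {x}` killed by
`r (j + 1)` but not by `r j` are disjoint, and by `dvd_pairs` each nonempty one has at least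
`card G / a!` elements. -/
theorem Fam.gap (h : Fam 𝓗 T a e R) (r : ℕ → ℕ) (hr : ∀ j, r j ∣ r (j + 1)) :
    ∃ j ≤ 2 * a * a.factorial, ∀ H ∈ 𝓗, ∀ x ∈ H,
      (∀ s ∈ T H ⊓ centralizer {x}, s ^ r (j + 1) = 1) →
        ∀ s ∈ T H ⊓ centralizer {x}, s ^ r j = 1 := by
  by_contra hcon
  let K : ℕ → Subgroup G → G → Prop := fun j H x => ∀ s ∈ T H ⊓ centralizer {x}, s ^ r j = 1
  let U : ℕ → Set (Subgroup G × G) := fun j => {z | z.1 ∈ 𝓗 ∧ z.2 ∈ z.1 ∧ K j z.1 z.2}
  have hdvd : ∀ j, Nat.card G ∣ a.factorial * (U j).ncard := by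
    intro j
    refine h.dvd_pairs (K j) ?_ ?_
    · intro g H x hK s hs
      obtain ⟨hs1, hs2⟩ := mem_inf.1 hs
      rw [h.conjT] at hs1
      obtain ⟨s', hs', rfl⟩ := hs1
      rw [mem_centralizer_singleton_iff] at hs2
      have hs3 : (g * s' * g⁻¹) * (g * x * g⁻¹) = (g * x * g⁻¹) * (g * s' * g⁻¹) := hs2
      have hs4 : s' * x = x * s' := by
        have h5 : s' * x = g⁻¹ * ((g * s' * g⁻¹) * (g * x * g⁻¹)) * g := by group
        rw [h5, hs3]
        group
      have h6 := hK s' (mem_inf.2 ⟨hs', mem_centralizer_singleton_iff.2 hs4⟩)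
      rw [← map_pow, h6, map_one]
    · intro H hH x _ t ht hK s hs
      obtain ⟨hs1, hs2⟩ := mem_inf.1 hs
      rw [mem_centralizer_singleton_iff] at hs2
      have h3 := h.comm_GCl2 hH hs1 ht
      have h4 : s * x = x * s := by
        have h5 : s * x * t = x * s * t := by
          rw [mul_assoc, hs2, mul_assoc, mul_assoc, h3]
        exact mul_right_cancel h5
      exact hK s (mem_inf.2 ⟨hs1, mem_centralizer_singleton_iff.2 h4⟩)
  have hlt : ∀ j ≤ 2 * a * a.factorial, (U j).ncard < (U (j + 1)).ncard := by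
    intro j hj
    refine Set.ncard_lt_ncard ⟨?_, ?_⟩
    · rintro z ⟨h1, h2, h3⟩
      refine ⟨h1, h2, ?_⟩
      intro s hs
      obtain ⟨c, hc⟩ := hr j
      rw [hc, pow_mul, h3 s hs, one_pow]
    · intro hsub
      apply hcon
      refine ⟨j, hj, ?_⟩
      intro H hH x hx hK
      exact (hsub (show (H, x) ∈ U (j + 1) from ⟨hH, hx, hK⟩)).2.2
  have hF : 0 < a.factorial := Nat.factorial_pos a
  have hn : 0 < Nat.card G := Nat.card_pos
  have hgrow : ∀ j ≤ 2 * a * a.factorial + 1, j * Nat.card G ≤ a.factorial * (U j).ncard := by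
    intro j
    induction j with
    | zero => intro _; simp
    | succ j ih =>
      intro hj
      have h1 := ih (by omega)
      have h2 := Nat.mul_lt_mul_of_pos_left (hlt j (by omega)) hF
      have h3 := Nat.le_of_dvd (Nat.sub_pos_of_lt h2) (Nat.dvd_sub (hdvd (j + 1)) (hdvd j))
      rw [Nat.succ_mul]
      omega
  have h1 := hgrow _ le_rfl
  have h2 : (U (2 * a * a.factorial + 1)).ncard ≤ 2 * a * Nat.card G := by
    refine le_trans (Set.ncard_le_ncard ?_) h.card_pairs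
    rintro z ⟨h1, h2, _⟩
    exact ⟨h1, h2⟩
  have h3 := h1.trans (Nat.mul_le_mul_left _ h2)
  have h4 : a.factorial * (2 * a * Nat.card G) = 2 * a * a.factorial * Nat.card G := by ring
  rw [h4, Nat.succ_mul] at h3
  omega

theorem root_card_GCl2 (t : G) {ρ : ℕ} (hρ : 0 < ρ) (y : G) :
    Set.ncard {s : G | s ∈ zpowers t ∧ s ^ ρ = y} ≤ ρ := by
  classical
  rcases Set.eq_empty_or_nonempty {s : G | s ∈ zpowers t ∧ s ^ ρ = y} with h0 | ⟨s₀, hs₀, hy⟩
  · rw [h0]; simp
  have := Fintype.ofFinite (zpowers t)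
  have h1 := IsCyclic.card_pow_eq_one_le (α := zpowers t) hρ
  refine le_trans ?_ h1
  rw [← Set.ncard_coe_finset]
  have h2 : {s : G | s ∈ zpowers t ∧ s ^ ρ = y} ⊆
      (fun u : zpowers t => s₀ * (u : G)) ''
        ((Finset.univ.filter (fun u : zpowers t => u ^ ρ = 1) : Finset (zpowers t)) :
          Set (zpowers t)) := by
    rintro s ⟨hs, hsy⟩
    refine ⟨⟨s₀⁻¹ * s, mul_mem (inv_mem hs₀) hs⟩, ?_, by simp⟩
    simp only [Finset.coe_filter, Finset.mem_univ, true_and, Set.mem_ofPred_eq]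
    apply Subtype.ext
    show (s₀⁻¹ * s) ^ ρ = 1
    have hc : Commute s₀⁻¹ s := by
      obtain ⟨k, rfl⟩ := hs₀
      obtain ⟨l, rfl⟩ := hs
      exact ((Commute.refl t).zpow_zpow k l).inv_left
    rw [hc.mul_pow, inv_pow, hy, hsy, inv_mul_cancel]
  exact (Set.ncard_le_ncard h2).trans (Set.ncard_image_le)

/-- For `y ∈ H` with `P = T H ⊓ centralizer {y}` of order `> β`, at most `ρ` elements `s ∈ P` have
` (y * s) ^ ρ = 1` (`IsCyclic.card_pow_eq_one_le`), and `P` is the same for `y * s`. Double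
count the pairs ` (y, s)`. -/
theorem Fam.small_pairs (h : Fam 𝓗 T a e R) {ρ β : ℕ} (hρ : 0 < ρ) :
    β * Set.ncard {z : Subgroup G × G | z.1 ∈ 𝓗 ∧ z.2 ∈ z.1 ∧ z.2 ^ ρ = 1 ∧
      β ≤ Nat.card (T z.1 ⊓ centralizer {z.2} : Subgroup G)} ≤ ρ * (2 * a * Nat.card G) := by
  classical
  have h1 := ncard_pairs_GCl2 𝓗 (fun (H : Subgroup G) (x : G) => x ∈ H)
  have h2 := ncard_pairs_GCl2 𝓗 (fun (H : Subgroup G) (x : G) => x ∈ H ∧ x ^ ρ = 1 ∧
      β ≤ Nat.card (T H ⊓ centralizer {x} : Subgroup G))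
  have h4 : ∀ H ∈ (Set.toFinite 𝓗).toFinset,
      β * Set.ncard {x : G | x ∈ H ∧ x ^ ρ = 1 ∧ β ≤ Nat.card (T H ⊓ centralizer {x} : Subgroup G)}
        ≤ ρ * Set.ncard {x : G | x ∈ H} := by
    intro H hH
    have hH' : H ∈ 𝓗 := (Set.Finite.mem_toFinset _).1 hH
    obtain ⟨t, htH, hTt, _, _⟩ := h.cyc H hH'
    have hTH : T H ≤ H := by rw [hTt]; exact zpowers_le.2 htH
    rw [Set.ncard_eq_toFinset_card _, Set.ncard_eq_toFinset_card _, mul_comm β, mul_comm ρ]
    refine Finset.card_mul_le_card_mul (fun x y => x⁻¹ * y ∈ T H ⊓ centralizer {x}) ?_ ?_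
    · intro x hx
      obtain ⟨hxH, _, hβ⟩ := (Set.Finite.mem_toFinset _).1 hx
      refine hβ.trans ?_
      rw [← Set.ncard_coe_finset]
      show Set.ncard ((T H ⊓ centralizer {x} : Subgroup G) : Set G) ≤ _
      refine Set.ncard_le_ncard_of_injOn (fun s => x * s) ?_ ?_
      · intro s hs
        rw [Finset.mem_coe, Finset.mem_bipartiteAbove]
        refine ⟨(Set.Finite.mem_toFinset _).2 (mul_mem hxH (hTH (mem_inf.1 hs).1)), ?_⟩
        rw [inv_mul_cancel_left]
        exact hs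
      · intro s _ s' _ hss
        exact mul_left_cancel hss
    · intro y _
      refine le_trans ?_ (root_card_GCl2 t hρ (y ^ ρ))
      rw [← Set.ncard_coe_finset]
      refine Set.ncard_le_ncard_of_injOn (fun x => x⁻¹ * y) ?_ ?_
      · intro x hx
        rw [Finset.mem_coe, Finset.mem_bipartiteBelow] at hx
        obtain ⟨hx1, hx2⟩ := hx
        obtain ⟨_, hxρ, _⟩ := (Set.Finite.mem_toFinset _).1 hx1
        obtain ⟨hx3, hx4⟩ := mem_inf.1 hx2
        refine ⟨hTt ▸ hx3, ?_⟩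
        have hc : Commute x (x⁻¹ * y) := (mem_centralizer_singleton_iff.1 hx4).symm
        have h5 := hc.mul_pow ρ
        rw [mul_inv_cancel_left, hxρ, one_mul] at h5
        exact h5.symm
      · intro x _ x' _ hxx
        have h6 : x⁻¹ = x'⁻¹ := mul_right_cancel hxx
        exact inv_injective h6
  calc _ = β * ∑ H ∈ (Set.toFinite 𝓗).toFinset, Set.ncard {x : G | x ∈ H ∧ x ^ ρ = 1 ∧
        β ≤ Nat.card (T H ⊓ centralizer {x} : Subgroup G)} := by rw [← h2]
    _ ≤ ρ * ∑ H ∈ (Set.toFinite 𝓗).toFinset, Set.ncard {x : G | x ∈ H} := by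
        rw [Finset.mul_sum, Finset.mul_sum]
        exact Finset.sum_le_sum h4
    _ ≤ _ := by
        rw [← h1]
        exact Nat.mul_le_mul_left _ h.card_pairs

/-- Elements with small centraliser form a union of large conjugacy classes. -/
theorem dvd_small_cent (f : ℕ) (S : Set G) (hS : ∀ g : G, ∀ x ∈ S, g * x * g⁻¹ ∈ S)
    (hf : ∀ x ∈ S, Nat.card (centralizer {x} : Subgroup G) ≤ f) :
    Nat.card G ∣ f.factorial * S.ncard := by
  have h2 := @dvd_sum_of_stab G _ _ G (conjEl_GCl2 G) (Set.toFinite S).toFinset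
    (fun g x hx => (Set.Finite.mem_toFinset _).2 (hS g x ((Set.Finite.mem_toFinset _).1 hx)))
    (fun _ => 1) (fun _ _ _ => rfl) f.factorial
    (by
      intro x hx
      have hx' : x ∈ S := (Set.Finite.mem_toFinset _).1 hx
      have h3 : @MulAction.stabilizer G G _ (conjEl_GCl2 G) x = centralizer {x} := by
        ext g
        rw [mem_centralizer_singleton_iff]
        show g * x * g⁻¹ = x ↔ _
        rw [mul_inv_eq_iff_eq_mul]
      rw [h3, mul_one]
      exact Nat.dvd_factorial Nat.card_pos (hf x hx'))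
  rw [Finset.sum_const, smul_eq_mul, mul_one] at h2
  rw [Set.ncard_eq_toFinset_card S]
  exact h2

end RG
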