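import Pool.Agent.P.MP_8a106a_gt.GCl1
import Pool.Agent.P.MP_8a106a_gt.GCl2

/-! The class equation. -/

set_option autoImplicit false
set_option linter.unusedSectionVars false

namespace RG

open Subgroup

variable {G : Type} [Group G] [Finite G]

theorem core_GCl3 {𝓗 : Set (Subgroup G)} {T : Subgroup G → Subgroup G} {a e R : ℕ}
    (h : Fam 𝓗 T a e R) (he : 0 < e) {r r' F : ℕ} (hr0 : 0 < r) (hR : R ∣ r)
    (hr' : r' = (2 * a * (a.factorial * F.factorial) * (e * r) + 1 + e * r).factorial)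
    (hgap : ∀ H ∈ 𝓗, ∀ x ∈ H, (∀ s ∈ T H ⊓ centralizer {x}, s ^ r' = 1) →
      ∀ s ∈ T H ⊓ centralizer {x}, s ^ r = 1)
    (hF : ∀ W : Subgroup G, (∀ x ∈ W, x ^ (e * r) = 1) → Nat.card W ≤ F) :
    Nat.card G ≤ F ∨ ⊤ ∈ 𝓗 := by
  have hρ : 0 < e * r := Nat.mul_pos he hr0
  set D := a.factorial * F.factorial with hD
  have hD0 : 0 < D := Nat.mul_pos a.factorial_pos F.factorial_pos
  set β := 2 * a * D * (e * r) + 1 with hβ
  have hdv : e * r ∣ r' := by
    rw [hr']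
    exact Nat.dvd_factorial hρ (Nat.le_add_left _ _)
  have hcm : ∀ {s x : G}, s ∈ centralizer ({x} : Set G) ↔ Commute s x := fun {s x} => by
    rw [mem_centralizer_singleton_iff]
    rfl
  have kill : ∀ {x : G} {m n : ℕ}, m ∣ n → x ^ n ≠ 1 → x ^ m ≠ 1 := by
    rintro x m n ⟨k, rfl⟩ h1 h2
    exact h1 (by rw [pow_mul, h2, one_pow])
  let P : Subgroup G → G → Prop := fun H x => ∃ s ∈ T H, Commute s x ∧ s ^ r' ≠ 1
  have hbig : ∀ H ∈ 𝓗, ∀ x ∈ H, ∀ y ∈ H, Commute y x → y ^ (e * r) ≠ 1 → P H x := by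
    intro H hH x hx y hy hc hl
    by_contra hn
    refine hl ?_
    rw [pow_mul]
    refine hgap H hH x hx (fun s hs => ?_) _ ⟨h.pow H hH y hy, hcm.2 (hc.pow_left e)⟩
    by_contra hs1
    exact hn ⟨s, hs.1, hcm.1 hs.2, hs1⟩
  have hPc : ∀ (g : G) H x, P H x → P (H.map (MulAut.conj g).toMonoidHom) (g * x * g⁻¹) := by
    rintro g H x ⟨s, hs, hc, h1⟩
    refine ⟨g * s * g⁻¹, ?_, hc.conj g, fun h2 => h1 ?_⟩
    · rw [h.conjT]
      exact ⟨s, hs, rfl⟩
    · rwa [conj_pow, mul_inv_eq_one, mul_eq_left] at h2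
  have hPT : ∀ H ∈ 𝓗, ∀ x ∈ H, ∀ t ∈ T H, P H x → P H (x * t) := by
    rintro H hH x - t ht ⟨s, hs, hc, h1⟩
    refine ⟨s, hs, hc.mul_right ?_, h1⟩
    obtain ⟨z, -, hz, -⟩ := h.cyc H hH
    rw [hz] at hs ht
    obtain ⟨i, rfl⟩ := hs
    obtain ⟨k, rfl⟩ := ht
    exact Commute.zpow_zpow_self z i k
  have d1 := h.dvd_pairs P hPc hPT
  set B := {z : Subgroup G × G | z.1 ∈ 𝓗 ∧ z.2 ∈ z.1 ∧ P z.1 z.2} with hB
  let I : Set G := {x | ∀ y, Commute y x → y ^ (e * r) = 1}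
  have d2 : Nat.card G ∣ F.factorial * I.ncard := by
    refine dvd_small_cent F I (fun g x hx y hy => ?_) fun x hx => hF _ fun y hy => hx y (hcm.1 hy)
    have h1 := hx (g⁻¹ * y * g⁻¹⁻¹) (by
      have := hy.conj g⁻¹
      rwa [show g⁻¹ * (g * x * g⁻¹) * g⁻¹⁻¹ = x by group] at this)
    rwa [conj_pow, mul_inv_eq_one, mul_eq_left] at h1
  have hlarge : ∀ y : G, y ^ (e * r) ≠ 1 → ∃ H ∈ 𝓗, ∀ x, Commute y x → (H, x) ∈ B := by
    intro y hy
    obtain ⟨H, hH, hle⟩ := h.ex y (kill (Nat.mul_dvd_mul_left e hR) hy)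
    refine ⟨H, hH, fun x hx => ?_⟩
    have hxH : x ∈ H := hle (hcm.2 hx.symm)
    exact ⟨hH, hxH, hbig H hH x hxH y (hle (hcm.2 (Commute.refl y))) hx hy⟩
  have him : Prod.snd '' B = Iᶜ := by
    ext x
    constructor
    · rintro ⟨⟨H, x⟩, ⟨-, -, s, -, hc, h1⟩, rfl⟩ hI
      exact kill hdv h1 (hI s hc)
    · intro hx
      by_contra hn
      refine hx fun y hy => ?_
      by_contra hl
      obtain ⟨H, -, hH⟩ := hlarge y hl
      exact hn ⟨(H, x), hH x hy, rfl⟩
  have d3 := h.small_pairs (β := β) hρ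
  set S := {z : Subgroup G × G | z.1 ∈ 𝓗 ∧ z.2 ∈ z.1 ∧ z.2 ^ (e * r) = 1 ∧
      β ≤ Nat.card (T z.1 ⊓ centralizer {z.2} : Subgroup G)} with hS
  have l1 : Iᶜ.ncard ≤ B.ncard := by
    rw [← him]
    exact Set.ncard_image_le
  have l2 : B.ncard ≤ Iᶜ.ncard + S.ncard := by
    have s1 : B ⊆ {z ∈ B | z.2 ^ (e * r) ≠ 1} ∪ S := by
      rintro ⟨H, x⟩ hz
      by_cases hx : x ^ (e * r) = 1
      · obtain ⟨hH, hxH, s, hs, hc, h1⟩ := hz
        refine Or.inr ⟨hH, hxH, hx, ?_⟩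
        have o1 : β ≤ orderOf s := by
          by_contra hlt
          refine kill ?_ h1 (pow_orderOf_eq_one s)
          rw [hr']
          exact Nat.dvd_factorial (orderOf_pos s) (by omega)
        have hm : s ∈ (T H ⊓ centralizer {x} : Subgroup G) := ⟨hs, hcm.2 hc⟩
        exact o1.trans (Nat.le_of_dvd Nat.card_pos (Subgroup.orderOf_dvd_natCard _ hm))
      · exact Or.inl ⟨hz, hx⟩
    have s2 : {z ∈ B | z.2 ^ (e * r) ≠ 1}.ncard ≤ Iᶜ.ncard := by
      refine Set.ncard_le_ncard_of_injOn Prod.snd (fun z hz => ?_) ?_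
      · rw [← him]
        exact ⟨z, hz.1, rfl⟩
      · rintro ⟨H, x⟩ ⟨h1, hx⟩ ⟨H', x'⟩ ⟨h2, -⟩ hxx
        obtain rfl : x = x' := hxx
        rw [h.uniq H h1.1 H' h2.1 x h1.2.1 h2.2.1 (kill (hR.mul_left e) hx)]
    exact (Set.ncard_le_ncard s1).trans ((Set.ncard_union_le _ _).trans (by omega))
  obtain ⟨δ, hδ⟩ := Nat.exists_eq_add_of_le l1
  have hG : I.ncard + Iᶜ.ncard = Nat.card G := Set.ncard_add_ncard_compl I
  have d4 : Nat.card G ∣ D * δ := by
    have e1 : Nat.card G ∣ D * B.ncard := by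
      rw [hD, mul_comm a.factorial, mul_assoc]
      exact d1.mul_left _
    have e2 : Nat.card G ∣ D * I.ncard := by
      rw [hD, mul_assoc]
      exact d2.mul_left _
    have e3 : D * B.ncard + D * I.ncard = D * Nat.card G + D * δ := by
      rw [hδ, ← hG]
      ring
    have e4 := Nat.dvd_add e1 e2
    rw [e3] at e4
    exact (Nat.dvd_add_right (Nat.dvd_mul_left _ _)).1 e4
  have hδ0 : δ = 0 := by
    by_contra h0
    have p1 : Nat.card G ≤ D * δ := Nat.le_of_dvd (Nat.mul_pos hD0 (Nat.pos_of_ne_zero h0)) d4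
    have p2 : β * δ ≤ β * S.ncard := Nat.mul_le_mul_left _ (by omega)
    have p3 : e * r * (2 * a * Nat.card G) ≤ e * r * (2 * a * (D * δ)) :=
      Nat.mul_le_mul_left _ (Nat.mul_le_mul_left _ p1)
    have p4 : β * δ = e * r * (2 * a * (D * δ)) + δ := by
      rw [hβ]
      ring
    omega
  have hinj : Set.InjOn Prod.snd B :=
    Set.injOn_of_ncard_image_eq (by rw [him, hδ, hδ0, add_zero])
  by_cases hall : ∀ x : G, x ^ (e * r) = 1
  · left
    have := hF ⊤ fun x _ => hall x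
    rwa [card_top] at this
  · right
    obtain ⟨y, hy⟩ := not_forall.1 hall
    obtain ⟨H, hH, hH1⟩ := hlarge y hy
    have h1 := hH1 1 (Commute.one_right y)
    have : H = ⊤ := by
      rw [eq_top_iff]
      intro g _
      refine h.self H hH g ?_
      have h2 : (H.map (MulAut.conj g).toMonoidHom, (1 : G)) ∈ B := by
        refine ⟨h.conj g H hH, one_mem _, ?_⟩
        have := hPc g H 1 h1.2.2
        rwa [mul_one, mul_inv_cancel] at this
      exact congrArg Prod.fst (hinj h2 h1 rfl)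
    rwa [← this]

/-- The sequence of exponents. -/
def seq_GCl3 (a e R : ℕ) (f : ℕ → ℕ) : ℕ → ℕ
  | 0 => R
  | j + 1 => (2 * a * (a.factorial * (f (e * seq_GCl3 a e R f j)).factorial) *
      (e * seq_GCl3 a e R f j) + 1 + e * seq_GCl3 a e R f j).factorial

/-- Put `r 0 = R`, `ρ j = e * r j`, `D j = a! * (f (ρ j))!`, `β j = 2 * a * D j * ρ j + 1`,
`r (j + 1) = (β j + ρ j)!`, and take `j` from `Fam.gap`; `ρ = ρ j`. Call `x` large if `x ^ ρ ≠ 1`;
`Big H x` means that `x ∈ H` commutes with a large element of `H`. By the gap, `Big H x` iff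
`T H ⊓ centralizer {x}` is not killed by `r (j + 1)`, and then it has at least `β` elements; so
`dvd_pairs` applies to `Big`. A large `x` is `Big` in exactly one `H`; a small `x` whose
centraliser has a large element is `Big` in at least one `H`; the other elements `I` have
centralisers of order at most `f ρ` and are never `Big`. Hence
`δ = card (Big pairs) + card I - card G ≥ 0` satisfies `card G ∣ D * δ` and `D * δ < card G`
(`small_pairs`), so `δ = 0`. If there is a large element then `1` is `Big` in exactly one `H`,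
which is normal, hence `⊤`. Otherwise `card G ≤ f ρ`. -/
theorem Fam.main (a e R : ℕ) (he : 0 < e) (hR : 0 < R) (f : ℕ → ℕ) : ∃ M : ℕ,
    ∀ (G : Type) [Group G] [Finite G] (𝓗 : Set (Subgroup G)) (T : Subgroup G → Subgroup G),
      Fam 𝓗 T a e R →
      (∀ ρ, 0 < ρ → ∀ W : Subgroup G, (∀ x ∈ W, x ^ ρ = 1) → Nat.card W ≤ f ρ) →
      Nat.card G ≤ M ∨ ⊤ ∈ 𝓗 := by
  have hpos : ∀ j, 0 < seq_GCl3 a e R f j := fun j => by
    cases j with
    | zero => exact hR
    | succ j => exact Nat.factorial_pos _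
  have hdv : ∀ j, seq_GCl3 a e R f j ∣ seq_GCl3 a e R f (j + 1) := fun j =>
    Nat.dvd_factorial (hpos j) ((Nat.le_mul_of_pos_left _ he).trans (Nat.le_add_left _ _))
  have hRd : ∀ j, R ∣ seq_GCl3 a e R f j := fun j => by
    induction j with
    | zero => exact dvd_rfl
    | succ j ih => exact ih.trans (hdv j)
  refine ⟨∑ j ∈ Finset.range (2 * a * a.factorial + 1), f (e * seq_GCl3 a e R f j), ?_⟩
  intro G _ _ 𝓗 T h hf
  obtain ⟨j, hj, hgap⟩ := h.gap _ hdv
  refine (core_GCl3 h he (hpos j) (hRd j) rfl hgap (hf _ (Nat.mul_pos he (hpos j)))).imp_left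
    fun h1 => h1.trans ?_
  exact Finset.single_le_sum (f := fun j => f (e * seq_GCl3 a e R f j)) (fun _ _ => Nat.zero_le _)
    (Finset.mem_range.2 (Nat.lt_succ_of_le hj))

/-- From `exists_fam`, `Fam.main`, `card_le_of_exp`, applied to the group `K`. -/
theorem ac_of_cent (N c A b m : ℕ) (hb : 0 < b) : ∃ m' : ℕ, ∀ (G : Type) [Group G] [Finite G],
    Hyp G N c A → ∀ K : Subgroup G,
      (∀ p : ℕ, p.Prime → ∀ y ∈ K, PE p y → y ^ b ≠ 1 → AC (K ⊓ centralizer {y}) m) →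
      AC K m' := by
  rcases Nat.eq_zero_or_pos A with rfl | hA
  · exact ⟨0, fun G _ _ h => absurd h.apos (lt_irrefl 0)⟩
  obtain ⟨a, e, R, he, hR, hfam⟩ := exists_fam N c A b m hb hA
  obtain ⟨M, hM⟩ := Fam.main a e R he hR fun ρ => (c * ρ) ^ ρ
  refine ⟨M + a, fun G _ _ h K hK => ?_⟩
  obtain ⟨𝓗, T, hf⟩ := hfam K (h.sub K) fun p hp y hy hyb => by
    have h1 := (hK p hp y y.2 (hy.imp fun k hk => by exact_mod_cast congrArg Subtype.val hk)
      (fun h2 => hyb (Subtype.ext (by exact_mod_cast h2)))).subgroupOf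
    have e1 : (centralizer {(y : G)}).subgroupOf K = centralizer {y} := by
      ext z
      rw [mem_subgroupOf, mem_centralizer_singleton_iff, mem_centralizer_singleton_iff,
        Subtype.ext_iff]
      rfl
    rwa [e1] at h1
  rcases hM K 𝓗 T hf (fun ρ hρ W hW => card_le_of_exp (h.sub K).syl hρ hW) with h1 | h1
  · exact ⟨1, one_mem _, by rw [orderOf_one, mul_one]; omega⟩
  · obtain ⟨t, ht, -, h2, -⟩ := hf.cyc ⊤ h1
    exact (AC.of_top ⟨t, ht, h2⟩).mono (Nat.le_add_left _ _)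

end RG
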