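import Pool.Agent.P.MP_8a106a_gt.GTr
import Pool.Agent.P.MP_8a106a_gt.GCl3

/-! Bounded depth. -/

set_option autoImplicit false
set_option linter.unusedSectionVars false

namespace RG

open Subgroup

variable {G : Type} [Group G] [Finite G]

/-- Induction on `d` with `card_le_of_exp`, `exists_ppart`, `ac_ext`, `ac_of_cent`. -/
theorem ac_of_dp (N c A b : ℕ) (hb : 0 < b) (d : ℕ) : ∃ m : ℕ, ∀ (G : Type) [Group G] [Finite G],
    Hyp G N c A → ∀ K : Subgroup G, Dp b d K → AC K m := by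
  induction d with
  | zero =>
    refine ⟨(c * b) ^ b, fun G _ _ h K hK => ⟨1, K.one_mem, ?_⟩⟩
    rw [orderOf_one, mul_one]
    refine card_le_of_exp h.syl hb fun x hx => ?_
    by_contra hx'
    obtain ⟨p, k, hp, h1, h2⟩ := exists_ppart hx'
    exact h2 (hK p hp _ (K.pow_mem hx k) h1)
  | succ d ih =>
    obtain ⟨m, hm⟩ := ih
    obtain ⟨m', hm'⟩ := ac_ext N c A m
    obtain ⟨m'', hm''⟩ := ac_of_cent N c A b m' hb
    refine ⟨m'', fun G _ _ h K hK => hm'' G h K fun p hp y hy h1 h2 => ?_⟩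
    obtain ⟨K', h3, h4⟩ := hK p hp y hy h1 h2
    exact hm' G h K' _ h3 (hm G h K' h4)

/-- The common normaliser of the cyclic groups generated by the elements of `Y`. -/
def NY (Y : Set G) : Subgroup G := ⨅ y ∈ Y, normalizer (zpowers y : Set G)

theorem conj_mem_zpowers_GDep {y n x : G} (hn : n ∈ zpowers y) (h : x * y * x⁻¹ ∈ zpowers y) :
    x * n * x⁻¹ ∈ zpowers y := by
  obtain ⟨k, rfl⟩ := hn
  dsimp only
  rw [← conj_zpow]
  exact zpow_mem h k

theorem mem_NY_GDep {Y : Set G} {x : G} : x ∈ NY Y ↔ ∀ y ∈ Y, x * y * x⁻¹ ∈ zpowers y := by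
  simp only [NY, mem_iInf]
  refine forall₂_congr fun y _ => ⟨fun h => (h y).1 (mem_zpowers y), fun h => ?_⟩
  exact mem_normalizer_fintype fun n hn => conj_mem_zpowers_GDep hn h

theorem cent_le_GDep (Y : Set G) : centralizer Y ≤ NY Y := fun x hx =>
  mem_NY_GDep.2 fun y hy => by
    rw [← hx y hy, mul_inv_cancel_right]
    exact mem_zpowers y

theorem card_NY_le {N c A : ℕ} (h : Hyp G N c A) (Y : Set G) :
    Nat.card (NY Y) ≤ A ^ N * Nat.card (centralizer Y) := by
  refine card_le_of_comm h.rank h.apos (cent_le_GDep Y) (fun x hx y hy => ?_) fun x hx => ?_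
  · intro u hu
    obtain ⟨r, hr⟩ := mem_NY_GDep.1 ((NY Y).inv_mem hx) u hu
    obtain ⟨s, hs⟩ := mem_NY_GDep.1 ((NY Y).inv_mem hy) u hu
    have h1 : x⁻¹ * (y⁻¹ * u * y⁻¹⁻¹) * x⁻¹⁻¹ = y⁻¹ * (x⁻¹ * u * x⁻¹⁻¹) * y⁻¹⁻¹ := by
      dsimp only at hr hs
      conv_lhs => rw [← hs, ← conj_zpow, ← hr, ← zpow_mul]
      conv_rhs => rw [← hr, ← conj_zpow, ← hs, ← zpow_mul, mul_comm]
    calc u * (x * y * x⁻¹ * y⁻¹)
        = x * y * (y⁻¹ * (x⁻¹ * u * x⁻¹⁻¹) * y⁻¹⁻¹) * x⁻¹ * y⁻¹ := by group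
      _ = x * y * (x⁻¹ * (y⁻¹ * u * y⁻¹⁻¹) * x⁻¹⁻¹) * x⁻¹ * y⁻¹ := by rw [h1]
      _ = x * y * x⁻¹ * y⁻¹ * u := by group
  · intro u hu
    exact (commute_pow_of_aut h.aut (mem_NY_GDep.1 hx u hu)).eq.symm

/-- Frattini argument: `NY Y` normalises `centralizer Y`, in which all subgroups of order `p` are
conjugate, so `NY Y = centralizer Y * NY (insert y Y)`; and `x` shows that
`centralizer (insert y Y)` is a proper subgroup of `NY (insert y Y) ⊓ centralizer Y`. -/
theorem frattini_step {c p t : ℕ} (h : Syl G c) (hp : p.Prime) (hc : c < p) {Y : Set G} {y x : G}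
    (hy : y ∈ centralizer Y) (ho : orderOf y = p) (hx : x ∈ centralizer Y)
    (hx' : x * y * x⁻¹ ∈ zpowers y) (hxy : ¬ Commute x y)
    (ht : 2 ^ t * Nat.card (centralizer Y) ≤ Nat.card (NY Y)) :
    2 ^ (t + 1) * Nat.card (centralizer (insert y Y)) ≤ Nat.card (NY (insert y Y)) := by
  have hF : ∀ g : NY Y, ∃ w ∈ centralizer Y, w * g.1 ∈ NY (insert y Y) := by
    rintro ⟨g, hg⟩
    have h1 : g * y * g⁻¹ ∈ centralizer Y := by
      intro u hu
      obtain ⟨r, hr⟩ := mem_NY_GDep.1 ((NY Y).inv_mem hg) u hu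
      have h2 : Commute (g⁻¹ * u * g⁻¹⁻¹) y := by
        rw [← hr]
        exact Commute.zpow_left (hy u hu) r
      calc u * (g * y * g⁻¹) = g * (g⁻¹ * u * g⁻¹⁻¹ * y) * g⁻¹ := by group
        _ = g * (y * (g⁻¹ * u * g⁻¹⁻¹)) * g⁻¹ := by rw [h2.eq]
        _ = g * y * g⁻¹ * u := by group
    have h3 : orderOf (g * y * g⁻¹) = p := by
      rw [← ho]
      exact (MulAut.conj g).orderOf_eq y
    obtain ⟨w, hw, hw'⟩ := conj_prime h hp hc h1 hy h3 ho
    refine ⟨w, hw, mem_NY_GDep.2 fun u hu => ?_⟩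
    rcases hu with rfl | hu
    · have e : w * g * u * (w * g)⁻¹ = w * (g * u * g⁻¹) * w⁻¹ := by group
      rw [e]
      exact hw'
    · exact mem_NY_GDep.1 ((NY Y).mul_mem (cent_le_GDep Y hw) hg) u hu
  choose w hw hw' using hF
  have h1 : Nat.card (NY Y) * Nat.card (centralizer Y ⊓ NY (insert y Y) : Subgroup G) ≤
      Nat.card (centralizer Y) * Nat.card (NY (insert y Y)) := by
    rw [← Nat.card_prod, ← Nat.card_prod]
    refine Nat.card_le_card_of_injective (fun z => (⟨z.2.1 * w z.1, mul_mem z.2.2.1 (hw z.1)⟩,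
      ⟨z.2.1 * (w z.1 * z.1.1), mul_mem z.2.2.2 (hw' z.1)⟩)) ?_
    rintro ⟨g, s⟩ ⟨g', s'⟩ e
    have e1 : s.1 * w g = s'.1 * w g' := congrArg (fun z => z.1.1) e
    have e2 : s.1 * (w g * g.1) = s'.1 * (w g' * g'.1) := congrArg (fun z => z.2.1) e
    rw [← mul_assoc, ← mul_assoc, e1] at e2
    obtain rfl : g = g' := Subtype.ext (mul_left_cancel e2)
    obtain rfl : s = s' := Subtype.ext (mul_right_cancel e1)
    rfl
  have h2 : centralizer (insert y Y) ≤ centralizer Y ⊓ NY (insert y Y) :=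
    le_inf (centralizer_le (Set.subset_insert y Y)) (cent_le_GDep _)
  have h3 : 2 * Nat.card (centralizer (insert y Y)) ≤
      Nat.card (centralizer Y ⊓ NY (insert y Y) : Subgroup G) := by
    obtain ⟨k, hk⟩ := card_dvd_of_le h2
    have hpos : 0 < Nat.card (centralizer Y ⊓ NY (insert y Y) : Subgroup G) := Nat.card_pos
    have hk1 : k ≠ 1 := by
      rintro rfl
      have e := eq_of_le_of_card_ge h2 (by rw [hk, mul_one])
      have hx2 : x ∈ centralizer (insert y Y) := by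
        rw [e]
        refine ⟨hx, mem_NY_GDep.2 fun u hu => ?_⟩
        rcases hu with rfl | hu
        · exact hx'
        · exact mem_NY_GDep.1 (cent_le_GDep Y hx) u hu
      exact hxy (hx2 y (Set.mem_insert y Y)).symm
    have hk0 : k ≠ 0 := by
      rintro rfl
      omega
    rw [hk, mul_comm]
    exact Nat.mul_le_mul_left _ (by omega)
  have hpos : 0 < Nat.card (centralizer Y) := Nat.card_pos
  refine Nat.le_of_mul_le_mul_left ?_ hpos
  calc Nat.card (centralizer Y) * (2 ^ (t + 1) * Nat.card (centralizer (insert y Y)))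
      = 2 ^ t * Nat.card (centralizer Y) * (2 * Nat.card (centralizer (insert y Y))) := by ring
    _ ≤ _ := (Nat.mul_le_mul ht h3).trans h1

/-- Induction on `d`. For `d = 0` the bounds `σ.card ≤ c + A + 3` and `2 ^ t ≤ A ^ N` give a
contradiction. In the step, for `y ∈ K` take `H' = K ⊓ centralizer {y}` and `K'` from `strip`
(with `c! * A`); `p` is of central type in `H'`. If `p` is small add it to `σ`; otherwise add the
power of `y` of order `p` to `Y` (`move_of_not_ct`, `frattini_step`). -/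
theorem dp_aux {N c A : ℕ} (h : Hyp G N c A) (d : ℕ) : ∀ (σ : Finset ℕ) (t : ℕ) (Y : Set G)
    (K H : Subgroup G), c + A + 3 + A ^ N < σ.card + t + d →
    (∀ p ∈ σ, p ≤ c + A + 2 ∧ Kl K p (2 * (c.factorial * c.factorial * (c.factorial * A)))) →
    2 ^ t * Nat.card (centralizer Y) ≤ Nat.card (NY Y) → K ≤ H → H ≤ centralizer Y →
    (∀ p : ℕ, p.Prime → CT H p (c.factorial * A) →
      Kl K p (2 * (c.factorial * c.factorial * (c.factorial * A)))) →
    Dp (2 * (c.factorial * c.factorial * (c.factorial * A))) d K := by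
  induction d with
  | zero =>
    intro σ t Y K H h1 h2 h3 _ _ _
    exfalso
    have h4 : σ.card ≤ c + A + 3 := by
      rw [← Finset.card_range (c + A + 3)]
      exact Finset.card_le_card fun p hp => Finset.mem_range.2 (Nat.lt_succ_of_le (h2 p hp).1)
    have h5 : 2 ^ t ≤ A ^ N :=
      Nat.le_of_mul_le_mul_right (h3.trans (card_NY_le h Y)) Nat.card_pos
    have h6 : t < 2 ^ t := Nat.lt_two_pow_self
    omega
  | succ d ih =>
    intro σ t Y K H h1 h2 h3 h4 h5 h6 p hp y hy hpe hyb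
    obtain ⟨K', hK', hK''⟩ := strip h.syl (c.factorial * A) (K ⊓ centralizer {y})
    have hle : K' ≤ K := hK'.1.trans inf_le_left
    have h7 : ∀ q : ℕ, q.Prime → CT (K ⊓ centralizer {y}) q (c.factorial * A) →
        Kl K' q (2 * (c.factorial * c.factorial * (c.factorial * A))) := fun q hq hct u hu hu' => by
      rw [mul_comm 2, pow_mul, hK'' q hq hct u hu hu', one_pow]
    have h8 : ∀ q ∈ σ, q ≤ c + A + 2 ∧
        Kl K' q (2 * (c.factorial * c.factorial * (c.factorial * A))) := fun q hq =>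
      ⟨(h2 q hq).1, fun u hu => (h2 q hq).2 u (hle hu)⟩
    refine ⟨K', hK', ?_⟩
    rcases le_or_gt p (c + A + 2) with hpc | hpc
    · have hσ : p ∉ σ := fun hσ => hyb ((h2 p hσ).2 y hy hpe)
      refine ih (insert p σ) t Y K' _ (by rw [Finset.card_insert_of_notMem hσ]; omega)
        (fun q hq => ?_) h3 hK'.1 (inf_le_left.trans (h4.trans h5)) h7
      rcases Finset.mem_insert.1 hq with rfl | hq
      · refine ⟨hpc, h7 q hp (ct_of_central h hp hpe (fun e => hyb ?_) inf_le_right)⟩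
        rw [mul_assoc c.factorial, ← mul_assoc 2, pow_mul, e, one_pow]
      · exact h8 q hq
    · have hct : ¬ CT H p (c.factorial * A) := fun hct => hyb (h6 p hp hct y hy hpe)
      obtain ⟨s, hs⟩ := hpe.order hp
      have hd : p ∣ orderOf y := by
        rw [hs]
        refine dvd_pow_self p ?_
        rintro rfl
        rw [pow_zero, orderOf_eq_one_iff] at hs
        exact hyb (by rw [hs, one_pow])
      have ho := orderOf_pow_orderOf_div (orderOf_pos y).ne' hd
      have hy0 : y ^ (orderOf y / p) ∈ H := H.pow_mem (h4 hy) _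
      obtain ⟨x, hx, hx', hxy⟩ := move_of_not_ct h hp hpc hct hy0 ho
      refine ih σ (t + 1) (insert (y ^ (orderOf y / p)) Y) K' _ (by omega) h8
        (frattini_step h.syl hp (by omega) (h5 hy0) ho (h5 hx) hx' hxy h3) hK'.1 ?_ h7
      intro z hz u hu
      rcases hu with rfl | hu
      · exact Commute.pow_left (hz.2 y rfl) _
      · exact h5 (h4 hz.1) u hu

theorem ac_top (N c A : ℕ) : ∃ C : ℕ, ∀ (G : Type) [Group G] [Finite G],
    Hyp G N c A → AC (⊤ : Subgroup G) C := by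
  rcases Nat.eq_zero_or_pos A with rfl | hA
  · exact ⟨0, fun G _ _ h => absurd h.apos (lt_irrefl 0)⟩
  obtain ⟨m, hm⟩ := ac_of_dp N c A (2 * (c.factorial * c.factorial * (c.factorial * A)))
    (by positivity) (c + A + 3 + A ^ N + 1)
  obtain ⟨m', hm'⟩ := ac_ext N c A m
  refine ⟨m', fun G _ _ h => ?_⟩
  obtain ⟨K, hK, hK'⟩ := strip h.syl (c.factorial * A) (⊤ : Subgroup G)
  refine hm' G h K ⊤ hK (hm G h K (dp_aux h _ ∅ 0 ∅ K ⊤ (by simp) (by simp) ?_ le_top
    (fun _ _ u hu => absurd hu (Set.notMem_empty u)) fun q hq hct u hu hu' => ?_))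
  · rw [pow_zero, one_mul]
    exact card_le_of_le (cent_le_GDep _)
  · rw [mul_comm 2, pow_mul, hK' q hq hct u hu hu', one_pow]

end RG
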