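import Pool.Agent.P.MP_8a106a_gt.GB

/-! Cyclic extensions of almost cyclic groups. -/

set_option autoImplicit false
set_option linter.unusedSectionVars false

namespace RG

open Subgroup

variable {G : Type} [Group G] [Finite G]

/-- An element normalising `zpowers t` has its `A`-th power centralising `t`
(apply `exists_ppart` to the commutator, or split `t` into prime power parts). -/
theorem commute_pow_of_aut {A : ℕ} (h : Aut G A) {t x : G} (hx : x * t * x⁻¹ ∈ zpowers t) :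
    Commute (x ^ A) t := by
  induction hn : orderOf t using Nat.strong_induction_on generalizing t with
  | _ n ih =>
    subst hn
    by_cases h1 : orderOf t = 1
    · rw [orderOf_eq_one_iff.1 h1]
      exact Commute.one_right _
    obtain ⟨p, hp, hpt⟩ := Nat.exists_prime_and_dvd h1
    obtain ⟨i, j, hij, hi, hj⟩ := exists_split p hp t
    have h2 : orderOf (t ^ j) < orderOf t := by
      refine lt_of_le_of_ne (Nat.le_of_dvd (orderOf_pos t) (orderOf_pow_dvd j)) fun e => ?_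
      rw [e] at hj
      exact hp.ne_one (Nat.Coprime.eq_one_of_dvd hj.symm hpt)
    rw [hij]
    exact (h p hp _ x hi (conj_mem_zpowers (npow_mem_zpowers t i) hx)).mul_right
      (ih _ h2 (conj_mem_zpowers (npow_mem_zpowers t j) hx) rfl)

theorem card_le_cent {N c A : ℕ} (h : Hyp G N c A) {L : Subgroup G} {t : G}
    (hL : ∀ x ∈ L, x * t * x⁻¹ ∈ zpowers t) :
    Nat.card L ≤ A ^ N * Nat.card (L ⊓ centralizer {t} : Subgroup G) := by
  refine card_le_of_comm h.rank h.apos inf_le_left (fun x hx y hy => ⟨?_, ?_⟩) fun x hx =>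
    ⟨pow_mem hx A, mem_centralizer_singleton_iff.2 (commute_pow_of_aut h.aut (hL x hx))⟩
  · exact L.mul_mem (L.mul_mem (L.mul_mem hx hy) (L.inv_mem hx)) (L.inv_mem hy)
  · obtain ⟨a, ha⟩ := mem_zpowers_iff.1 (hL x⁻¹ (inv_mem hx))
    obtain ⟨b, hb⟩ := mem_zpowers_iff.1 (hL y⁻¹ (inv_mem hy))
    have h1 : x⁻¹ * (y⁻¹ * t * y⁻¹⁻¹) * x⁻¹⁻¹ = y⁻¹ * (x⁻¹ * t * x⁻¹⁻¹) * y⁻¹⁻¹ := by
      conv_lhs => rw [← hb, ← conj_zpow, ← ha]
      conv_rhs => rw [← ha, ← conj_zpow, ← hb]
      rw [← zpow_mul, ← zpow_mul, mul_comm]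
    refine mem_centralizer_singleton_iff.2 ?_
    calc x * y * x⁻¹ * y⁻¹ * t
        = x * y * (x⁻¹ * (y⁻¹ * t * y⁻¹⁻¹) * x⁻¹⁻¹) * x⁻¹ * y⁻¹ := by group
      _ = t * (x * y * x⁻¹ * y⁻¹) := by rw [h1]; group

theorem card_eq_GExt {K H X : Subgroup G} (φ : H →* ℂˣ) (hφ : ∀ x : H, φ x = 1 ↔ (x : G) ∈ K)
    (hX : X ≤ H) : Nat.card X =
      Nat.card (X ⊓ K : Subgroup G) * Nat.card (φ.comp (inclusion hX)).range := by
  have h1 : (φ.comp (inclusion hX)).ker = (X ⊓ K).subgroupOf X := by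
    ext x
    rw [MonoidHom.mem_ker, MonoidHom.comp_apply, hφ, mem_subgroupOf, mem_inf]
    exact ⟨fun h => ⟨x.2, h⟩, fun h => h.2⟩
  rw [← index_ker, h1, ← Nat.card_congr (subgroupOfEquivOfLe (inf_le_left : X ⊓ K ≤ X)).toEquiv,
    card_mul_index]

/-- `T = TT K m! = zpowers t` is normal in `H`; `H₁ = H ⊓ centralizer {t}` has index at most
`A ^ N`; the image of `H₁` under the character is cyclic, generated by the image of `g`;
`closure {t, g}` is abelian of index at most `m * m!` in `H₁`; apply `ac_of_comm`. -/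
theorem ac_ext (N c A m : ℕ) : ∃ m' : ℕ, ∀ (G : Type) [Group G] [Finite G], Hyp G N c A →
    ∀ K H : Subgroup G, Cy K H → AC K m → AC H m' := by
  refine ⟨A ^ N * (m * m.factorial * c ^ c), fun G _ _ h K H hKH hK => ?_⟩
  obtain ⟨hle, φ, hφ⟩ := hKH
  obtain ⟨t, htK, hT, hc⟩ := TT_cyc hK dvd_rfl m.factorial_pos
  have hn : ∀ x ∈ H, ∀ y ∈ K, x * y * x⁻¹ ∈ K := fun x hx y hy => by
    refine (hφ (⟨x, hx⟩ * ⟨y, hle hy⟩ * ⟨x, hx⟩⁻¹)).1 ?_
    rw [map_mul, map_mul, (hφ ⟨y, hle hy⟩).2 hy, mul_one, map_inv, mul_inv_cancel]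
  have hL : ∀ x ∈ H, x * t * x⁻¹ ∈ zpowers t := fun x hx => by
    have h1 : (TT K m.factorial).map (MulAut.conj x).toMonoidHom ≤ TT K m.factorial := by
      rw [← TT_map]
      refine closure_mono ?_
      rintro _ ⟨_, ⟨y, hy, rfl⟩, rfl⟩
      exact ⟨_, hn x hx y hy, rfl⟩
    rw [hT] at h1
    exact h1 ⟨t, mem_zpowers t, rfl⟩
  refine AC.of_le ?_ inf_le_left (card_le_cent h hL)
  have h1 : (H ⊓ centralizer {t} : Subgroup G) ≤ H := inf_le_left
  have : Finite (φ.comp (inclusion h1)).range := Finite.of_surjective _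
    (φ.comp (inclusion h1)).rangeRestrict_surjective
  obtain ⟨⟨_, g, rfl⟩, hg⟩ := IsCyclic.exists_generator (α := (φ.comp (inclusion h1)).range)
  have hgt : Commute g.1 t := mem_centralizer_singleton_iff.1 g.2.2
  have hB : closure {t, g.1} ≤ (H ⊓ centralizer {t} : Subgroup G) := by
    rw [closure_le]
    rintro _ (rfl | rfl)
    · exact ⟨hle htK, mem_centralizer_singleton_iff.2 rfl⟩
    · exact g.2
  have hcomm : ∀ x ∈ closure {t, g.1}, ∀ y ∈ closure {t, g.1}, Commute x y := by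
    intro x hx y hy
    refine closure_induction₂ (p := fun x y _ _ => Commute x y) ?_ (fun _ _ => Commute.one_left _)
      (fun _ _ => Commute.one_right _) (fun _ _ _ _ _ _ => Commute.mul_left)
      (fun _ _ _ _ _ _ => Commute.mul_right) (fun _ _ _ _ => Commute.inv_left)
      (fun _ _ _ _ => Commute.inv_right) hx hy
    rintro _ _ (rfl | rfl) (rfl | rfl)
    · exact Commute.refl _
    · exact hgt.symm
    · exact hgt
    · exact Commute.refl _
  refine AC.of_le (ac_of_comm h.syl hcomm) hB ?_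
  have h2 : (φ.comp (inclusion h1)).range ≤ (φ.comp (inclusion (hB.trans h1))).range := by
    intro u hu
    obtain ⟨k, hk⟩ := mem_zpowers_iff.1 (hg ⟨u, hu⟩)
    refine ⟨⟨g.1, subset_closure (Or.inr rfl)⟩ ^ k, ?_⟩
    rw [map_zpow]
    exact congrArg Subtype.val hk
  have : Finite (φ.comp (inclusion (hB.trans h1))).range := Finite.of_surjective _
    (φ.comp (inclusion (hB.trans h1))).rangeRestrict_surjective
  have h3 : orderOf t ≤ Nat.card (closure {t, g.1} ⊓ K : Subgroup G) := by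
    rw [← Nat.card_zpowers]
    exact card_le_of_le (zpowers_le.2 ⟨subset_closure (Or.inl rfl), htK⟩)
  rw [card_eq_GExt φ hφ h1, card_eq_GExt φ hφ (hB.trans h1), ← mul_assoc]
  exact Nat.mul_le_mul (((card_le_of_le inf_le_right).trans hc).trans (Nat.mul_le_mul_left _ h3))
    (card_le_of_le h2)

end RG
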