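import Pool.Agent.P.MP_8a106a_gt.GS2
import Pool.Agent.P.MP_8a106a_gt.GDep

/-! Automizers and the final group theoretic statement. -/

set_option autoImplicit false
set_option linter.unusedSectionVars false

namespace RG

open Subgroup

variable {G : Type} [Group G] [Finite G]

theorem conj_pow_GFin {r : ℕ} {u x : G} (hx : x * u * x⁻¹ = u ^ r) (k j : ℕ) :
    x ^ k * u ^ j * (x ^ k)⁻¹ = u ^ (j * r ^ k) := by
  induction k with
  | zero => simp
  | succ k ih =>
    have e : x ^ (k + 1) * u ^ j * (x ^ (k + 1))⁻¹ = x * (x ^ k * u ^ j * (x ^ k)⁻¹) * x⁻¹ := by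
      group
    rw [e, ih, ← conj_pow, hx, ← pow_mul, pow_succ, mul_comm r, mul_assoc]

theorem commute_iff_GFin {r : ℕ} (hr : 0 < r) {u x : G} (hx : x * u * x⁻¹ = u ^ r) (k j : ℕ) :
    Commute (x ^ k) (u ^ j) ↔ orderOf u ∣ (r ^ k - 1) * j := by
  have h1 : j * r ^ k = (r ^ k - 1) * j + j := by
    obtain ⟨m, hm⟩ := Nat.exists_eq_add_one_of_ne_zero (pow_ne_zero k hr.ne')
    rw [hm, Nat.add_sub_cancel]
    ring
  rw [commute_iff_eq, ← mul_inv_eq_iff_eq_mul, conj_pow_GFin hx, h1, pow_add, mul_eq_right,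
    orderOf_dvd_iff_pow_eq_one]

/-- Split `x` by `exists_split`. Both parts act by powers of `r`, which are `1` modulo `p`. The part
of order prime to `p` acts trivially (`lte_easy` shows that the action has `p`-power order). For
the `p`-part `x'`, the `c!`-th powers of `x'` and `u` commute (`isPGroup_pair`), then `lte_easy`. -/
theorem commute_of_one {c p r : ℕ} (h : Syl G c) (hp : p.Prime) {u x : G} (hu : PE p u)
    (hr : 0 < r) (hx : x * u * x⁻¹ = u ^ r) (h1 : p ∣ r - 1) :
    Commute (x ^ (c.factorial * c.factorial)) u := by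
  obtain ⟨s, hs⟩ := hu.order hp
  obtain ⟨i, j, hij, hi, hj⟩ := exists_split p hp x
  have key : ∀ k, p ^ s ∣ r ^ k - 1 → Commute (x ^ k) u := fun k hk => by
    simpa using (commute_iff_GFin hr hx k 1).2 (by rwa [hs, mul_one])
  have h2 : Commute (x ^ j) u := by
    have h3 := key (j * p ^ s) (lte_easy hp hr h1 (Dvd.intro_left ((r - 1) * j) (by ring)))
    obtain ⟨m, hm⟩ := (mem_zpowers_pow_iff (g := x ^ j) (k := p ^ s)).2 (hj.symm.pow_left s)
    rw [← hm]
    exact (pow_mul x j _ ▸ h3).zpow_left m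
  have h4 : Commute (x ^ (i * c.factorial * c.factorial)) u := by
    obtain ⟨z, hz, hc⟩ := h p hp _ (isPGroup_pair hp hu hi
      (by have e := conj_pow_GFin hx i 1; rw [pow_one] at e; rw [e]; exact npow_mem_zpowers u _))
    obtain ⟨a, ha⟩ := pow_fact_mem hz hc (subset_closure (Set.mem_insert u {x ^ i}))
    obtain ⟨b, hb⟩ := pow_fact_mem hz hc
      (subset_closure (Set.mem_insert_of_mem u (Set.mem_singleton (x ^ i))))
    have h5 : Commute (x ^ (i * c.factorial)) (u ^ c.factorial) := by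
      rw [pow_mul, ← ha, ← hb]
      exact Commute.zpow_zpow_self z b a
    rw [commute_iff_GFin hr hx, hs] at h5
    refine key _ ?_
    rw [pow_mul r (i * c.factorial)]
    exact lte_easy hp (pow_pos hr _) (h1.trans (Nat.sub_one_dvd_pow_sub_one r _)) h5
  have e : x ^ (c.factorial * c.factorial) =
      x ^ (i * c.factorial * c.factorial) * (x ^ j) ^ (c.factorial * c.factorial) := by
    conv_lhs => rw [hij]
    rw [((Commute.refl x).pow_pow i j).mul_pow, ← pow_mul, mul_assoc]
  rw [e]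
  exact h4.mul_left (h2.pow_left _)

/-- `x ^ (Q! * A)` acts by a number that is `1` modulo `p`: Fermat for `p ≤ Q`, the hypothesis
applied to the power of `u` of order `p` for `p > Q`. -/
theorem aut_of_autP {c Q A : ℕ} (h : Syl G c) (hA : AutP G Q A) :
    Aut G (Q.factorial * A * (c.factorial * c.factorial)) := by
  intro p hp u x hu hx
  obtain ⟨r, hr, hk⟩ := exists_conj_pow hx
  have hx1 : x * u * x⁻¹ = u ^ r := by simpa using hk 1 1
  obtain ⟨s, hs⟩ := hu.order hp
  rcases s with _ | s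
  · rw [pow_zero, orderOf_eq_one_iff] at hs
    rw [hs]
    exact Commute.one_right _
  have h1 : p ∣ r ^ (Q.factorial * A) - 1 := by
    rcases le_or_gt p Q with hQ | hQ
    · have h2 : r.Coprime p := by
        rw [Nat.coprime_comm, hp.coprime_iff_not_dvd]
        rintro ⟨m, rfl⟩
        have h3 : x * u ^ p ^ s * x⁻¹ = 1 := by
          rw [← conj_pow, hx1, ← pow_mul, mul_right_comm, ← pow_succ', ← hs, pow_mul,
            pow_orderOf_eq_one, one_pow]
        rw [conj_eq_one_iff, ← orderOf_dvd_iff_pow_eq_one, hs,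
          Nat.pow_dvd_pow_iff_le_right hp.one_lt] at h3
        omega
      have h4 : p ∣ r ^ (p - 1) - 1 := (Nat.modEq_iff_dvd' (Nat.one_le_pow _ _ hr)).1
        (Nat.totient_prime hp ▸ Nat.ModEq.pow_totient h2).symm
      obtain ⟨m, hm⟩ : p - 1 ∣ Q.factorial * A :=
        (Nat.dvd_factorial (Nat.sub_pos_of_lt hp.one_lt) (by omega)).mul_right A
      rw [hm, pow_mul]
      exact h4.trans (Nat.sub_one_dvd_pow_sub_one _ m)
    · have h2 : orderOf (u ^ p ^ s) = p := by
        rw [orderOf_pow_of_dvd (pow_ne_zero s hp.ne_zero) (hs ▸ pow_dvd_pow p s.le_succ), hs,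
          pow_succ', Nat.mul_div_cancel _ (pow_pos hp.pos s)]
      have h3 := hA p hp hQ _ x h2 (conj_mem_zpowers (npow_mem_zpowers u _) hx)
      rw [commute_iff_GFin hr hx1, hs, pow_succ'] at h3
      rw [mul_comm, pow_mul]
      exact (Nat.dvd_of_mul_dvd_mul_right (pow_pos hp.pos s) h3).trans
        (Nat.sub_one_dvd_pow_sub_one _ _)
  rw [pow_mul x (Q.factorial * A)]
  exact commute_of_one h hp hu (pow_pos hr _) (by simpa using hk (Q.factorial * A) 1) h1

theorem group_main (N Q A : ℕ) (hA : 0 < A) : ∃ C : ℕ, ∀ (G : Type) [Group G] [Finite G],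
    RkG G N → NoSq G Q → AutP G Q A → ∃ H : Subgroup G, IsCyclic H ∧ 0 < H.index ∧ H.index ≤ C := by
  obtain ⟨c, hc⟩ := syl_of_noSq N Q
  obtain ⟨C, hC⟩ := ac_top N c (Q.factorial * A * (c.factorial * c.factorial))
  refine ⟨C, fun G _ _ h1 h2 h3 => ?_⟩
  obtain ⟨z, -, hz⟩ := hC G ⟨by positivity, h1, hc G h1 h2, aut_of_autP (hc G h1 h2) h3⟩
  refine ⟨zpowers z, inferInstance, Nat.pos_of_ne_zero index_ne_zero_of_finite, ?_⟩
  rw [card_top, ← (zpowers z).index_mul_card, Nat.card_zpowers] at hz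
  exact Nat.le_of_mul_le_mul_right hz (orderOf_pos z)

end RG
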