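import Pool.Agent.P.MP_8a106a_gt.GB

/-! Prime power groups without a large square: general facts and large primes. -/

set_option autoImplicit false
set_option linter.unusedSectionVars false

namespace RG

open Subgroup

variable {G : Type} [Group G] [Finite G]

theorem nil_GS1 (H : Type) [Group H] [Finite H] [Group.IsNilpotent H] :
    ∃ B : Subgroup H, B.Normal ∧ B ≤ centralizer B ∧ centralizer (B : Set H) ≤ B := by
  obtain ⟨B, ⟨hn, hc⟩, hmax⟩ := (Set.toFinite {B : Subgroup H | B.Normal ∧ B ≤ centralizer B}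
    ).exists_maximal ⟨⊥, inferInstance, bot_le⟩
  refine ⟨B, hn, hc, ?_⟩
  have key : ∀ i, ∀ c ∈ centralizer (B : Set H), c ∈ Subgroup.upperCentralSeries H i → c ∈ B := by
    intro i
    induction i with
    | zero =>
      intro c _ h
      exact (bot_le : ⊥ ≤ B) h
    | succ i ih =>
      intro c hc1 hc2
      have h1 : ∀ y, y * c * y⁻¹ * c⁻¹ ∈ B := fun y => by
        have h2 := ih (c * y * c⁻¹ * y⁻¹) (by
          rw [mul_assoc, mul_assoc, ← mul_assoc y]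
          exact mul_mem hc1 (normal_centralizer.conj_mem _ (inv_mem hc1) y))
          (Subgroup.mem_upperCentralSeries_succ_iff.1 hc2 y)
        have h3 : y * c * y⁻¹ * c⁻¹ = (c * y * c⁻¹ * y⁻¹)⁻¹ := by group
        exact h3 ▸ inv_mem h2
      have h4 : B ⊔ zpowers c ≤ centralizer (B ⊔ zpowers c : Subgroup H) := by
        have h5 : zpowers c ≤ centralizer B := zpowers_le.2 hc1
        refine sup_le (le_centralizer_iff.1 (sup_le hc h5))
          (le_centralizer_iff.1 (sup_le (le_centralizer_iff.1 h5) (le_centralizer _)))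
      have h6 : (B ⊔ zpowers c).Normal := ⟨fun x hx y => by
        have h7 : B ⊔ zpowers c ≤ (B ⊔ zpowers c).comap (MulAut.conj y).toMonoidHom := by
          refine sup_le (fun b hb => mem_sup_left (hn.conj_mem b hb y)) (zpowers_le.2 ?_)
          have h8 := mul_mem (mem_sup_left (T := zpowers c) (h1 y)) (mem_sup_right (mem_zpowers c))
          rwa [inv_mul_cancel_right] at h8
        exact h7 hx⟩
      exact hmax ⟨h6, h4⟩ le_sup_left (mem_sup_right (mem_zpowers c))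
  obtain ⟨n, e⟩ := Group.IsNilpotent.nilpotent H
  exact fun c h => key n c h (e ▸ mem_top c)

theorem gcd_GS1 {H : Subgroup G} {y : G} {n m : ℕ} (hn : y ^ n ∈ H) (hm : y ^ m ∈ H) :
    y ^ Nat.gcd n m ∈ H := by
  rw [← zpow_natCast, Nat.gcd_eq_gcd_ab, zpow_add, zpow_mul, zpow_mul, zpow_natCast, zpow_natCast]
  exact mul_mem (zpow_mem hn _) (zpow_mem hm _)

theorem sq_GS1 {Q p j s : ℕ} (h : NoSq G Q) (hp : p.Prime) (hQ : Q < p ^ j) {a y : G}
    (ha : orderOf a = p ^ s) (hjs : j ≤ s) (hy : y ^ p ^ j = 1) (hc : Commute (a ^ p ^ (s - j)) y) :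
    ∃ i < j, y ^ p ^ i ∈ zpowers a := by
  obtain ⟨i, hi, e⟩ := (Nat.dvd_prime_pow hp).1 (orderOf_dvd_of_pow_eq_one hy)
  rcases hi.lt_or_eq with hi | rfl
  · exact ⟨i, hi, by rw [← e, pow_orderOf_eq_one]; exact one_mem _⟩
  have h1 : orderOf (a ^ p ^ (s - i)) = p ^ i := by
    rw [orderOf_pow_of_dvd (pow_ne_zero _ hp.ne_zero) (ha ▸ pow_dvd_pow p (Nat.sub_le _ _)), ha,
      Nat.pow_div (Nat.sub_le _ _) hp.pos, Nat.sub_sub_self hjs]
  have h2 := h p i hp hQ _ _ h1 e hc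
  rw [disjoint_def] at h2
  push Not at h2
  obtain ⟨w, hw1, hw2, hw3⟩ := h2
  obtain ⟨n, rfl⟩ := mem_powers_iff_mem_zpowers.2 hw2
  obtain ⟨l, hl, e'⟩ := (Nat.dvd_prime_pow hp).1 (Nat.gcd_dvd_right n (p ^ i))
  refine ⟨l, lt_of_le_of_ne hl fun hli => hw3 (orderOf_dvd_iff_pow_eq_one.1 ?_), ?_⟩
  · rw [e, ← hli, ← e']
    exact Nat.gcd_dvd_left _ _
  · rw [← e']
    exact gcd_GS1 (zpowers_le.2 (pow_mem (mem_zpowers a) _) hw1) (hy ▸ one_mem _)

theorem pe_GS1 {p : ℕ} {P : Subgroup G} (hP : IsPGroup p P) {x : G} (hx : x ∈ P) : PE p x := by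
  obtain ⟨k, hk⟩ := hP ⟨x, hx⟩
  exact ⟨k, congrArg Subtype.val hk⟩

/-- A maximal abelian normal subgroup of a `p`-group is self-centralising. -/
theorem exists_max_ab {p : ℕ} (hp : p.Prime) {P : Subgroup G} (hP : IsPGroup p P) :
    ∃ B : Subgroup G, B ≤ P ∧ (∀ x ∈ B, ∀ y ∈ B, Commute x y) ∧
      (∀ g ∈ P, ∀ x ∈ B, g * x * g⁻¹ ∈ B) ∧
      ∀ g ∈ P, (∀ x ∈ B, Commute g x) → g ∈ B := by
  have := Fact.mk hp
  have := hP.isNilpotent
  obtain ⟨B, hn, h1, h2⟩ := nil_GS1 P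
  refine ⟨B.map P.subtype, map_subtype_le B, ?_, ?_, fun g hg h => ⟨⟨g, hg⟩, h2 fun x hx => ?_, rfl⟩⟩
  · rintro _ ⟨x, hx, rfl⟩ _ ⟨y, hy, rfl⟩
    exact congrArg Subtype.val (h1 hy x hx)
  · rintro g hg _ ⟨x, hx, rfl⟩
    exact ⟨_, hn.conj_mem x hx ⟨g, hg⟩, rfl⟩
  · exact Subtype.ext (h x ⟨x, hx, rfl⟩).symm

/-- Let `a` have maximal order `p ^ s`. If `x` has order `p ^ j` modulo `zpowers a` then
`x ^ p ^ j = a ^ t` with `p ^ j ∣ t`, and `x * a ^ (-t / p ^ j)` has order `p ^ j` and generates a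
group disjoint from `zpowers a`; so `j ≤ k`. -/
theorem exists_ab_gen {Q p k : ℕ} (h : NoSq G Q) (hp : p.Prime) (hk : Q < p ^ (k + 1))
    {B : Subgroup G} (hP : IsPGroup p B) (hB : ∀ x ∈ B, ∀ y ∈ B, Commute x y) :
    ∃ a ∈ B, ∀ x ∈ B, x ^ p ^ k ∈ zpowers a := by
  classical
  obtain ⟨a, ha, hmax⟩ := (Set.toFinite (B : Set G)).exists_maximalFor orderOf _ ⟨1, one_mem B⟩
  obtain ⟨s, hs⟩ := (pe_GS1 hP ha).order hp
  refine ⟨a, ha, fun x hx => ?_⟩
  have h1 : x ^ p ^ s = 1 := by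
    obtain ⟨i, hi⟩ := (pe_GS1 hP hx).order hp
    have h2 : orderOf x ≤ orderOf a := (le_total _ _).elim id (hmax hx)
    rw [hi, hs, Nat.pow_le_pow_iff_right hp.one_lt] at h2
    exact orderOf_dvd_iff_pow_eq_one.1 (hi ▸ pow_dvd_pow p h2)
  have hex : ∃ j, x ^ p ^ j ∈ zpowers a := ⟨s, h1 ▸ one_mem _⟩
  have hjs : Nat.find hex ≤ s := Nat.find_min' hex (h1 ▸ one_mem _)
  have hj := Nat.find_spec hex
  have hmin := fun i => Nat.find_min hex (m := i)
  generalize Nat.find hex = j at hjs hj hmin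
  rcases le_or_gt j k with hjk | hjk
  · obtain ⟨d, rfl⟩ := Nat.exists_eq_add_of_le hjk
    rw [pow_add, pow_mul]
    exact pow_mem hj _
  exfalso
  obtain ⟨t, ht⟩ := mem_powers_iff_mem_zpowers.2 hj
  obtain ⟨d, rfl⟩ := Nat.exists_eq_add_of_le hjs
  have h3 : p ^ j ∣ t := by
    refine Nat.dvd_of_mul_dvd_mul_right (pow_pos hp.pos d) ?_
    rw [← pow_add, ← hs, orderOf_dvd_iff_pow_eq_one, pow_mul, show a ^ t = _ from ht, ← pow_mul,
      ← pow_add, h1]
  obtain ⟨m, rfl⟩ := h3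
  have hc : Commute x (a ^ m)⁻¹ := hB _ hx _ (inv_mem (pow_mem ha m))
  obtain ⟨i, hi, h4⟩ := sq_GS1 (y := x * (a ^ m)⁻¹) h hp
    (hk.trans_le (Nat.pow_le_pow_right hp.pos hjk)) hs hjs
    (by rw [hc.mul_pow, inv_pow, ← pow_mul, mul_comm m, show a ^ _ = _ from ht, mul_inv_cancel])
    (hB _ (pow_mem ha _) _ (mul_mem hx (inv_mem (pow_mem ha m))))
  rw [hc.mul_pow] at h4
  exact hmin i hi ((mul_mem_cancel_right (pow_mem (inv_mem (pow_mem (mem_zpowers a) m)) _)).1 h4)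

/-- `B = zpowers a` from the two lemmas above, of order `p ^ s`. If `P ≠ B` take `b ∉ B` with
`b ^ p = a ^ m`; `b a b⁻¹ = a ^ r` with `r = 1 + p ^ (s - 1) * v`, `s ≥ 2`, `p ∣ m`;
` (a ^ x * b) ^ p = a ^ (x * (1 + r + ... + r ^ (p - 1))) * b ^ p` and the sum is `p` modulo
`p ^ s`; so some `g = a ^ x * b` has order `p` and commutes with `a ^ p ^ (s - 1)`. -/
theorem cyc_of_noSq {Q p : ℕ} (h : NoSq G Q) (hp : p.Prime) (hQ : Q < p) (h2 : p ≠ 2)
    {P : Subgroup G} (hP : IsPGroup p P) : ∃ z, P = zpowers z := by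
  have := Fact.mk hp
  obtain ⟨B, hBP, hB, hn, hmax⟩ := exists_max_ab hp hP
  obtain ⟨a, ha, hgen⟩ := exists_ab_gen (k := 0) h hp (by simpa using hQ) (hP.to_le hBP) hB
  obtain rfl : B = zpowers a :=
    le_antisymm (fun x hx => by simpa using hgen x hx) (zpowers_le.2 ha)
  obtain ⟨s, hs⟩ := (pe_GS1 hP (hBP ha)).order hp
  have key : ∀ b ∈ P, b ^ p ∈ zpowers a → b ∈ zpowers a := by
    intro b hb hbp
    obtain ⟨r, hr, hconj⟩ := exists_conj_pow (hn b hb a ha)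
    obtain ⟨q, rfl⟩ : ∃ q, r = q + 1 := ⟨r - 1, by omega⟩
    have hcomm : ∀ k j, Commute (b ^ k) (a ^ j) ↔ p ^ s ∣ j * ((q + 1) ^ k - 1) := fun k j => by
      have h1 : j * (q + 1) ^ k = j * ((q + 1) ^ k - 1) + j := by
        rw [← Nat.mul_succ, Nat.succ_eq_add_one, Nat.sub_add_cancel (Nat.one_le_pow _ _ hr)]
      rw [← hs, orderOf_dvd_iff_pow_eq_one, commute_iff_eq, ← mul_inv_eq_iff_eq_mul, hconj, h1,
        pow_add, mul_eq_right]
    have hc1 : ∀ j, Commute b (a ^ j) ↔ p ^ s ∣ j * q := fun j => by simpa using hcomm 1 j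
    by_cases hq : p ^ s ∣ q
    · refine hmax b hb fun x hx => ?_
      obtain ⟨n, rfl⟩ := mem_powers_iff_mem_zpowers.2 hx
      exact (hc1 n).2 (hq.mul_left n)
    obtain ⟨m, hm⟩ := mem_powers_iff_mem_zpowers.2 hbp
    replace hm : a ^ m = b ^ p := hm
    have h1 : p ^ s ∣ (q + 1) ^ p - 1 := by
      simpa using (hcomm p 1).1 (hB _ hbp _ (pow_mem ha 1))
    have hs0 : 1 ≤ s := Nat.pos_of_ne_zero fun e => hq (by simp [e])
    have h3 : p ∣ q := by
      have h4 := (ZMod.natCast_eq_zero_iff _ _).2 ((dvd_pow_self p (by omega)).trans h1)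
      rw [Nat.cast_sub (Nat.one_le_pow _ _ hr), Nat.cast_pow, ZMod.pow_card] at h4
      exact (ZMod.natCast_eq_zero_iff _ _).1 (by simpa using h4)
    have lte := fun s => lte_dvd (r := q + 1) (n := p) (s := s) hp hr h3 (fun e => absurd e h2) hp.pos
    simp only [Nat.add_sub_cancel] at lte
    obtain ⟨m, rfl⟩ : p ∣ m := by
      by_contra hpm
      exact hq ((((Nat.Prime.coprime_iff_not_dvd hp).2 hpm).pow_left s).dvd_of_dvd_mul_left
        ((hc1 m).1 (hm ▸ Commute.self_pow b p)))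
    obtain ⟨S, hS⟩ : ∃ S : ℕ → ℕ, ∀ n, S n = ∑ i ∈ Finset.range n, (q + 1) ^ i := ⟨_, fun _ => rfl⟩
    have h5 : S p * q = (q + 1) ^ p - 1 := by rw [hS, ← geom_sum_mul_add q p, Nat.add_sub_cancel]
    have h6 : a ^ p ∈ zpowers (a ^ S p) := by
      have h7 := gcd_GS1 (mem_zpowers (a ^ S p)) (m := p ^ s)
        (by rw [← hs, pow_orderOf_eq_one]; exact one_mem _)
      obtain ⟨l, -, e⟩ := (Nat.dvd_prime_pow hp).1 (Nat.gcd_dvd_right (S p) (p ^ s))
      have h8 : l ≤ 1 := by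
        by_contra hl
        obtain ⟨s, rfl⟩ := Nat.exists_eq_add_of_le' hs0
        have h9 : p ^ s ∣ q :=
          Nat.dvd_of_mul_dvd_mul_right hp.pos (by rw [← pow_succ]; exact (lte _).1 h1)
        have h10 : p ^ 2 ∣ S p :=
          (pow_dvd_pow p (by omega)).trans (e ▸ Nat.gcd_dvd_left (S p) (p ^ (s + 1)))
        have h11 := mul_dvd_mul h10 h9
        rw [h5, ← pow_add, lte, show 2 + s = s + 1 + 1 by omega, pow_succ] at h11
        exact hq (Nat.dvd_of_mul_dvd_mul_right hp.pos h11)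
      obtain ⟨c, hc⟩ : p ^ l ∣ p := by simpa using pow_dvd_pow p h8
      rw [e] at h7
      have h12 := pow_mem h7 c
      rwa [← pow_mul, ← hc] at h12
    obtain ⟨x, hx⟩ := mem_powers_iff_mem_zpowers.2 (inv_mem (pow_mem h6 m))
    replace hx : (a ^ S p) ^ x = ((a ^ p) ^ m)⁻¹ := hx
    have h13 : ∀ n, (a ^ x * b) ^ n = a ^ (x * S n) * b ^ n := fun n => by
      induction n with
      | zero => simp [hS]
      | succ n ih =>
        rw [pow_succ, ih, hS (n + 1), Finset.sum_range_succ, ← hS, mul_add, pow_add, ← hconj,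
          pow_succ]
        group
    obtain ⟨i, hi, h14⟩ := sq_GS1 (j := 1) (y := a ^ x * b) h hp (by simpa using hQ) hs hs0
      (by rw [pow_one, h13, mul_comm x, pow_mul, hx, ← pow_mul, hm, inv_mul_cancel])
      (((Commute.refl a).pow_pow _ _).mul_right ((hc1 _).2 (by
        obtain ⟨s, rfl⟩ := Nat.exists_eq_add_of_le' hs0
        rw [Nat.add_sub_cancel, pow_succ]
        exact Nat.mul_dvd_mul_left _ h3)).symm)
    rw [Nat.lt_one_iff.1 hi, pow_zero, pow_one] at h14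
    exact (mul_mem_cancel_left (pow_mem ha x)).1 h14
  refine ⟨a, le_antisymm (fun b hb => ?_) hBP⟩
  obtain ⟨n, hbn⟩ := pe_GS1 hP hb
  have h15 : b ^ p ^ n ∈ zpowers a := hbn ▸ one_mem _
  clear hbn
  induction n with
  | zero => simpa using h15
  | succ n ih => exact ih (key _ (pow_mem hb _) (by rwa [← pow_mul, ← pow_succ]))

end RG
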