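import Pool.Agent.P.MP_8a106a_gt.GS1

/-! Prime power groups without a large square: small primes. -/

set_option autoImplicit false
set_option linter.unusedSectionVars false

namespace RG

open Subgroup

variable {G : Type} [Group G] [Finite G]

theorem gcd_mem_GS2 {T : Subgroup G} {x : G} {m n : ℕ} (hm : x ^ m ∈ T) (hn : x ^ n ∈ T) :
    x ^ m.gcd n ∈ T := by
  rw [← zpow_natCast, Nat.gcd_eq_gcd_ab, zpow_add, zpow_mul, zpow_mul, zpow_natCast, zpow_natCast]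
  exact T.mul_mem (T.zpow_mem hm _) (T.zpow_mem hn _)

theorem pow_up_GS2 {T : Subgroup G} {x : G} {p i j : ℕ} (h : x ^ p ^ i ∈ T) (hij : i ≤ j) :
    x ^ p ^ j ∈ T := by
  obtain ⟨d, rfl⟩ := Nat.exists_eq_add_of_le hij
  rw [pow_add, pow_mul]
  exact T.pow_mem h _

theorem ppart_GS2 {T : Subgroup G} {x : G} {p i n : ℕ} (hp : p.Prime) (h : x ^ p ^ i ∈ T)
    (hn : x ^ n ∈ T) : ∃ e, p ^ e ∣ n ∧ x ^ p ^ e ∈ T := by
  obtain ⟨e, -, he⟩ := (Nat.dvd_prime_pow hp).1 (Nat.gcd_dvd_right n (p ^ i))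
  exact ⟨e, he ▸ Nat.gcd_dvd_left _ _, he ▸ gcd_mem_GS2 hn h⟩

theorem nat_GS2 {t x : G} (h : x ∈ zpowers t) : ∃ m : ℕ, t ^ m = x :=
  mem_powers_iff_mem_zpowers.2 h

theorem comm_iff_GS2 {t c : G} {j R : ℕ} (hR : 0 < R) (h : c * t ^ j * c⁻¹ = t ^ (j * R)) :
    Commute c (t ^ j) ↔ orderOf t ∣ j * (R - 1) := by
  obtain ⟨R, rfl⟩ : ∃ S, R = S + 1 := Nat.exists_eq_add_of_le' hR
  rw [Nat.add_sub_cancel, orderOf_dvd_iff_pow_eq_one, commute_iff_eq, ← mul_inv_eq_iff_eq_mul,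
    h, mul_add, mul_one, pow_add, mul_eq_right]

/-- Let `t` have order `p ^ s`, let `β` act by `ρ`, let `p ^ j` be the order of the action, and
suppose `j ≥ 2 * k + w`. By `lte_dvd` the centraliser of `β` in `zpowers t` is generated by
`t ^ p ^ j`, and `β' = β ^ p ^ (j - k)` centralises `a = t ^ p ^ k`. Let `i` be least with
`β' ^ p ^ i ∈ zpowers t`, so `k ≤ i ≤ k + w` and `β' ^ p ^ i = (a ^ u) ^ p ^ i`. Then
`β' * (a ^ u)⁻¹` has order `p ^ i` and generates a group disjoint from `zpowers t`. -/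
theorem act_bound {Q p k w : ℕ} (h : NoSq G Q) (hp : p.Prime) (hk : Q < p ^ k) (hk0 : 0 < k)
    {t b : G} (ht : PE p t) (hb : PE p b) (hn : b * t * b⁻¹ ∈ zpowers t)
    (hw : ∀ n : ℕ, Commute (b ^ n) t → (b ^ n) ^ p ^ w ∈ zpowers t) :
    Commute (b ^ (2 * p ^ (2 * k + w))) t := by
  classical
  obtain ⟨s, hs⟩ := ht.order hp
  obtain ⟨r, hr, hc⟩ := exists_conj_pow hn
  rcases Nat.eq_zero_or_pos s with rfl | s0
  · rw [orderOf_eq_one_iff.1 hs]
    exact Commute.one_right _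
  have h1 : p ∣ r - 1 := by
    obtain ⟨m, hm⟩ := hb
    have e := (comm_iff_GS2 (pow_pos hr _) (hc (p ^ m) 1)).1 (by rw [hm]; exact Commute.one_left _)
    rw [one_mul, hs] at e
    have e' := (Nat.modEq_iff_dvd' (pow_pos hr _)).2 ((dvd_pow_self p s0.ne').trans e)
    have := Fact.mk hp
    rw [← ZMod.natCast_eq_natCast_iff, Nat.cast_pow, ZMod.pow_card_pow,
      ZMod.natCast_eq_natCast_iff] at e'
    exact (Nat.modEq_iff_dvd' hr).1 e'
  have hρ : 0 < r ^ 2 := pow_pos hr 2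
  have h2 : p ∣ r ^ 2 - 1 := by
    have := Nat.sub_dvd_pow_sub_pow r 1 2
    rw [one_pow] at this
    exact h1.trans this
  have h3 : p = 2 → 4 ∣ r ^ 2 - 1 := by
    rintro rfl
    obtain ⟨c, hc⟩ := h1
    obtain rfl : r = 2 * c + 1 := by omega
    exact ⟨c * c + c, Nat.sub_eq_of_eq_add (by ring)⟩
  have key : ∀ n e : ℕ, 0 < n → e ≤ s →
      (Commute ((b ^ 2) ^ n) (t ^ p ^ e) ↔ p ^ (s - e) ∣ (r ^ 2 - 1) * n) := fun n e n0 he => by
    rw [← pow_mul, comm_iff_GS2 (pow_pos hr _) (hc _ _), hs, ← lte_dvd hp hρ h2 h3 n0, pow_mul]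
    conv_lhs => rw [← Nat.add_sub_cancel' he, pow_add]
    exact Nat.mul_dvd_mul_iff_left (pow_pos hp.pos _)
  have key1 : ∀ m : ℕ, Commute (b ^ 2) (t ^ m) → p ^ s ∣ m * (r ^ 2 - 1) := fun m hm =>
    hs ▸ (comm_iff_GS2 hρ (hc 2 m)).1 hm
  have key0 : ∀ n : ℕ, 0 < n → (Commute ((b ^ 2) ^ n) t ↔ p ^ s ∣ (r ^ 2 - 1) * n) :=
    fun n n0 => by simpa using key n 0 n0 (Nat.zero_le _)
  have hw' : ∀ n : ℕ, Commute ((b ^ 2) ^ n) t → ((b ^ 2) ^ n) ^ p ^ w ∈ zpowers t := fun n => by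
    rw [← pow_mul]
    exact hw _
  rw [pow_mul]
  generalize b ^ 2 = β at *
  by_contra hne
  rw [key0 _ (pow_pos hp.pos _)] at hne
  have hz : r ^ 2 - 1 ≠ 0 := fun e => hne (by rw [e, zero_mul]; exact dvd_zero _)
  obtain ⟨v, u, hu, hv⟩ := Nat.exists_eq_pow_mul_and_not_dvd hz p hp.ne_one
  have hcop : ∀ e, (p ^ e).Coprime u := fun e => ((Nat.Prime.coprime_iff_not_dvd hp).2 hu).pow_left e
  have hd : ∀ e n, p ^ e ∣ (r ^ 2 - 1) * p ^ n ↔ e ≤ v + n := fun e n => by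
    rw [hv, mul_right_comm, (hcop e).dvd_mul_right, ← pow_add, Nat.pow_dvd_pow_iff_le_right hp.one_lt]
  rw [hd] at hne
  obtain ⟨d, rfl⟩ : ∃ d, s = v + (d + (k + w)) + k := ⟨s - v - 2 * k - w, by omega⟩
  have c1 : Commute (β ^ p ^ (d + (k + w))) (t ^ p ^ k) :=
    (key _ k (pow_pos hp.pos _) (by omega)).2 ((hd _ _).2 (by omega))
  have c2 : ∀ i, Commute ((β ^ p ^ (d + (k + w))) ^ p ^ i) t ↔ k ≤ i := fun i => by
    rw [← pow_mul, ← pow_add, key0 _ (pow_pos hp.pos _), hd]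
    omega
  have ex : (β ^ p ^ (d + (k + w))) ^ p ^ (k + w) ∈ zpowers t := by
    have := (c2 k).2 le_rfl
    rw [← pow_mul] at this
    have := hw' _ this
    rwa [pow_mul, ← pow_mul _ (p ^ k), ← pow_add] at this
  have c3 : Commute β (β ^ p ^ (d + (k + w))) := (Commute.refl β).pow_right _
  generalize β ^ p ^ (d + (k + w)) = γ at *
  have ex' : ∃ i, γ ^ p ^ i ∈ zpowers t := ⟨_, ex⟩
  obtain ⟨i, i1, i2, i3⟩ : ∃ i, γ ^ p ^ i ∈ zpowers t ∧ i ≤ k + w ∧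
      ∀ e, γ ^ p ^ e ∈ zpowers t → i ≤ e :=
    ⟨_, Nat.find_spec ex', Nat.find_min' ex' ex, fun e he => Nat.find_min' ex' he⟩
  obtain ⟨m, hm⟩ := nat_GS2 i1
  obtain ⟨f, rfl⟩ : ∃ f, i = f + k :=
    Nat.exists_eq_add_of_le' ((c2 i).1 (hm ▸ (Commute.refl t).pow_left m))
  have m1 := key1 m (hm ▸ c3.pow_right _)
  rw [hv, ← mul_assoc, (hcop _).dvd_mul_right, add_assoc, pow_add, mul_comm m,
    Nat.mul_dvd_mul_iff_left (pow_pos hp.pos _)] at m1
  obtain ⟨m', rfl⟩ := (pow_dvd_pow p (show k + (f + k) ≤ _ by omega)).trans m1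
  have c4 : Commute γ ((t ^ p ^ k) ^ m')⁻¹ := (c1.pow_right _).inv_right
  have a1 : ((t ^ p ^ k) ^ m')⁻¹ ∈ zpowers t :=
    inv_mem (pow_mem (pow_mem (mem_zpowers t) _) _)
  have g1 : (γ * ((t ^ p ^ k) ^ m')⁻¹) ^ p ^ (f + k) = 1 := by
    rw [c4.mul_pow, ← hm, inv_pow, ← pow_mul, ← pow_mul, mul_inv_eq_one]
    exact congrArg _ (by ring)
  have g2 : ∀ n, (γ * ((t ^ p ^ k) ^ m')⁻¹) ^ n ∈ zpowers t → p ^ (f + k) ∣ n := fun n hn => by
    rw [c4.mul_pow, mul_mem_cancel_right (pow_mem a1 n)] at hn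
    obtain ⟨e, e1, e2⟩ := ppart_GS2 hp i1 hn
    exact (pow_dvd_pow p (i3 e e2)).trans e1
  have g3 : Commute (γ * ((t ^ p ^ k) ^ m')⁻¹) (t ^ p ^ k) :=
    c1.mul_left ((Commute.refl _).pow_left _).inv_left
  generalize γ * ((t ^ p ^ k) ^ m')⁻¹ = g at *
  have g4 : orderOf g = p ^ (f + k) := Nat.dvd_antisymm (orderOf_dvd_of_pow_eq_one g1)
    (g2 _ (by rw [pow_orderOf_eq_one]; exact one_mem _))
  have o : ∀ (x : G) (a : ℕ), orderOf x = p ^ (a + k) → orderOf (x ^ p ^ a) = p ^ k :=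
    fun x a e => by
      rw [orderOf_pow_of_dvd (pow_pos hp.pos _).ne' (e ▸ pow_dvd_pow p (Nat.le_add_right _ _)), e,
        pow_add, Nat.mul_div_cancel_left _ (pow_pos hp.pos _)]
  refine h p k hp hk _ _ (o g f g4) (o t _ hs) ?_ (disjoint_def.2 fun {x} x1 x2 => ?_)
  · have e : v + (d + (k + w)) = k + (v + d + w) := by omega
    rw [e, pow_add, pow_mul]
    exact (g3.pow_left _).pow_right _
  · obtain ⟨n, rfl⟩ := nat_GS2 x1
    rw [← pow_mul] at x2 ⊢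
    exact orderOf_dvd_iff_pow_eq_one.1
      (g4 ▸ g2 _ (zpowers_le_of_mem (pow_mem (mem_zpowers t) _) x2))

/-- An element centralising all `q`-th powers of `B` is determined modulo `B` by its commutators
with the generators of `B`, which are killed by `q`. -/
theorem card_cent_le {N q : ℕ} (hN : RkG G N) (hq : 0 < q) {B L : Subgroup G} (hBL : B ≤ L)
    (hB : ∀ x ∈ B, ∀ y ∈ B, Commute x y) (hn : ∀ g ∈ L, ∀ x ∈ B, g * x * g⁻¹ ∈ B)
    (hs : ∀ g ∈ L, (∀ x ∈ B, Commute g x) → g ∈ B)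
    (hc : ∀ g ∈ L, ∀ x ∈ B, Commute g (x ^ q)) :
    Nat.card L ≤ (q ^ N) ^ N * Nat.card B := by
  obtain ⟨S, hS, rfl⟩ := hN B
  let K : Subgroup G :=
    { carrier := {x | x ∈ closure (S : Set G) ∧ x ^ q = 1}
      one_mem' := ⟨one_mem _, one_pow _⟩
      mul_mem' := fun {x y} hx hy =>
        ⟨mul_mem hx.1 hy.1, by rw [(hB x hx.1 y hy.1).mul_pow, hx.2, hy.2, one_mul]⟩
      inv_mem' := fun {x} hx => ⟨inv_mem hx.1, by rw [inv_pow, hx.2, inv_one]⟩ }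
  have hK : Nat.card K ≤ q ^ N := by
    have := card_le_of_comm hN hq (bot_le (a := K)) (fun x hx y hy => by
      rw [mem_bot, (hB x hx.1 y hy.1).eq, mul_inv_cancel_right, mul_inv_cancel]) fun x hx => hx.2
    rwa [card_bot, mul_one] at this
  let φ : L → S → K := fun g s => ⟨g * s * (g : G)⁻¹ * (s : G)⁻¹, by
    have h1 : (s : G) ∈ closure (S : Set G) := subset_closure s.2
    have h2 := hn g g.2 s h1
    refine ⟨mul_mem h2 (inv_mem h1), ?_⟩
    rw [(hB _ h2 _ (inv_mem h1)).mul_pow, conj_pow, (hc g g.2 s h1).eq, mul_inv_cancel_right,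
      inv_pow, mul_inv_cancel]⟩
  have hφ : ∀ g g' : L, φ g = φ g' → (g : G)⁻¹ * g' ∈ closure (S : Set G) := fun g g' e => by
    refine hs _ (mul_mem (inv_mem g.2) g'.2) fun x hx => ?_
    refine ((closure_le (centralizer {(g : G)⁻¹ * g'})).2 (fun s hs => ?_) hx _ rfl)
    rintro _ rfl
    have := mul_right_cancel (congrArg Subtype.val (congrFun e ⟨s, hs⟩))
    change (g : G) * s * (g : G)⁻¹ = g' * s * (g' : G)⁻¹ at this
    calc (g : G)⁻¹ * g' * s = (g : G)⁻¹ * (g' * s * (g' : G)⁻¹) * g' := by group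
      _ = s * ((g : G)⁻¹ * g') := by rw [← this]; group
  let ψ : L → (S → K) × closure (S : Set G) := fun g =>
    (φ g, ⟨_, hφ (Function.invFun φ (φ g)) g (Function.invFun_eq ⟨g, rfl⟩)⟩)
  have hψ : Function.Injective ψ := fun g g' e => by
    have e1 : φ g = φ g' := congrArg Prod.fst e
    have e2 : ((Function.invFun φ (φ g) : L) : G)⁻¹ * g =
        ((Function.invFun φ (φ g') : L) : G)⁻¹ * g' := congrArg (fun z => z.2.1) e
    rw [e1] at e2
    exact Subtype.ext (mul_left_cancel e2)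
  refine (Nat.card_le_card_of_injective ψ hψ).trans ?_
  rw [Nat.card_prod, Nat.card_fun, Nat.card_eq_fintype_card (α := S), Fintype.card_coe]
  exact Nat.mul_le_mul_right _ ((Nat.pow_le_pow_left hK _).trans
    (Nat.pow_le_pow_right (pow_pos hq N) hS))

theorem small_GS2 (N Q p : ℕ) : ∃ c : ℕ, p.Prime → ∀ (G : Type) [Group G] [Finite G],
    RkG G N → NoSq G Q → ∀ P : Subgroup G, IsPGroup p P → AC P c := by
  obtain ⟨q, hq⟩ : ∃ q, q = p ^ Q := ⟨_, rfl⟩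
  obtain ⟨C, hC⟩ : ∃ C, C = ((q * q) ^ N) ^ N * (q * q) ^ N := ⟨_, rfl⟩
  refine ⟨(2 * p ^ (2 * (Q + 1) + C.factorial)) ^ N * C, fun hp G _ _ hN h P hP => ?_⟩
  have hk : Q < p ^ (Q + 1) := (Nat.lt_succ_self Q).trans (Nat.lt_pow_self hp.one_lt)
  have q0 : 0 < q := hq ▸ pow_pos hp.pos _
  have pe : ∀ x ∈ P, PE p x := fun x hx =>
    (hP ⟨x, hx⟩).imp fun k hk => congrArg Subtype.val hk
  obtain ⟨B, hBP, hB, hn, hs⟩ := exists_max_ab hp hP
  obtain ⟨a, ha, hx⟩ := exists_ab_gen h hp hk (hP.to_le hBP) hB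
  rw [← hq] at hx
  have hx' : ∀ x ∈ B, x ^ (q * q) ∈ zpowers (a ^ q) := fun x hxB => by
    obtain ⟨n, hn⟩ := nat_GS2 (hx x hxB)
    rw [pow_mul, ← hn, ← pow_mul, mul_comm, pow_mul]
    exact pow_mem (mem_zpowers _) _
  have ht : ∀ g ∈ P, g * a ^ q * g⁻¹ ∈ zpowers (a ^ q) := fun g hg => by
    have h1 : g * a ^ q * g⁻¹ ∈ zpowers a := by
      rw [← conj_pow]
      exact hx _ (hn g hg a ha)
    refine (zpowers_total hp (pe a (hBP ha)) h1 (pow_mem (mem_zpowers a) q)).elim id fun h2 => ?_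
    rw [eq_of_le_of_card_ge (zpowers_le_of_mem h2) (by
      rw [Nat.card_zpowers, Nat.card_zpowers]
      exact (orderOf_injective (MulAut.conj g).toMonoidHom (MulAut.conj g).injective _).le)]
    exact mem_zpowers _
  have tB : a ^ q ∈ B := pow_mem ha q
  generalize a ^ q = t at *
  have mem : ∀ g, g ∈ P ⊓ centralizer {t} ↔ g ∈ P ∧ Commute g t := fun g => by
    rw [mem_inf, mem_centralizer_singleton_iff]
    rfl
  have qq : 0 < q * q := Nat.mul_pos q0 q0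
  have b1 := card_le_of_comm hN qq (zpowers_le_of_mem tB) (fun x hx y hy => by
    rw [(hB x hx y hy).eq, mul_inv_cancel_right, mul_inv_cancel]
    exact one_mem _) hx'
  have b2 := card_cent_le hN qq (L := P ⊓ centralizer {t})
    (fun x hx => (mem x).2 ⟨hBP hx, hB x hx t tB⟩) hB (fun g hg => hn g hg.1)
    (fun g hg => hs g hg.1) fun g hg x hx => by
      obtain ⟨n, hn⟩ := mem_zpowers_iff.1 (hx' x hx)
      exact hn ▸ ((mem g).1 hg).2.zpow_right n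
  have b3 : Nat.card (P ⊓ centralizer {t} : Subgroup G) ≤ C * orderOf t := by
    rw [hC, mul_assoc, ← Nat.card_zpowers]
    exact b2.trans (Nat.mul_le_mul_left _ b1)
  have tP := (mem t).2 ⟨hBP tB, Commute.refl t⟩
  refine AC.of_le ⟨t, tP, b3⟩ inf_le_left (card_le_of_comm hN
    (Nat.mul_pos two_pos (pow_pos hp.pos _)) inf_le_left (fun x hx y hy => ?_) fun x hx => ?_)
  · refine (mem _).2 ⟨mul_mem (mul_mem (mul_mem hx hy) (inv_mem hx)) (inv_mem hy), ?_⟩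
    obtain ⟨r, -, hr⟩ := exists_conj_pow (ht x hx)
    obtain ⟨r', -, hr'⟩ := exists_conj_pow (ht y hy)
    obtain ⟨j, hj⟩ := nat_GS2 (ht _ (inv_mem (mul_mem hy hx)))
    have e1 := fun j => hr 1 j
    have e2 := fun j => hr' 1 j
    simp only [pow_one] at e1 e2
    have e : x * (y * t ^ j * y⁻¹) * x⁻¹ = y * (x * t ^ j * x⁻¹) * y⁻¹ := by
      rw [e1, e2, e1, e2, mul_right_comm]
    rw [hj] at e
    rw [commute_iff_eq, ← mul_inv_eq_iff_eq_mul]
    calc _ = x * (y * ((y * x)⁻¹ * t * (y * x)⁻¹⁻¹) * y⁻¹) * x⁻¹ := by group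
      _ = t := by rw [e]; group
  · refine (mem _).2 ⟨pow_mem hx _, act_bound h hp hk Q.succ_pos (pe t (hBP tB)) (pe x hx)
      (ht x hx) fun n hn => ?_⟩
    obtain ⟨i, hi⟩ := pe _ (pow_mem hx n)
    obtain ⟨e, e1, e2⟩ := ppart_GS2 (i := i) hp (by rw [hi]; exact one_mem _)
      (pow_fact_mem tP b3 ((mem _).2 ⟨pow_mem hx n, hn⟩))
    exact pow_up_GS2 e2
      ((Nat.lt_pow_self hp.one_lt).le.trans (Nat.le_of_dvd C.factorial_pos e1))

/-- For `p ≤ Q + 2` let `k` be least with `Q + 2 < p ^ k`, `q = p ^ k ≤ (Q + 2) ^ 2`,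
`TT B q = zpowers t`, `P₁ = P ⊓ centralizer {t}`; bound `[B : T]`, `[P₁ : B]`, `[P : P₁]` by
`card_le_of_comm`, `card_cent_le`, `act_bound`. For larger `p` use `cyc_of_noSq`. -/
theorem syl_of_noSq (N Q : ℕ) : ∃ c : ℕ, ∀ (G : Type) [Group G] [Finite G],
    RkG G N → NoSq G Q → Syl G c := by
  choose f hf using small_GS2 N Q
  refine ⟨(Finset.range (Q + 3)).sup f + 1, fun G _ _ hN h p hp P hP => ?_⟩
  rcases lt_or_ge p (Q + 3) with h1 | h1
  · exact (hf p hp G hN h P hP).mono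
      ((Finset.le_sup (f := f) (Finset.mem_range.2 h1)).trans (Nat.le_succ _))
  · obtain ⟨z, rfl⟩ := cyc_of_noSq h hp (by omega) (by omega) hP
    exact ⟨z, mem_zpowers z, by
      rw [Nat.card_zpowers]
      exact Nat.le_mul_of_pos_left _ (Nat.succ_pos _)⟩

end RG
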