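import Pool.Agent.P.MP_8a106a_gt.GB

/-! The transfer removes primes of central type. -/

set_option autoImplicit false
set_option linter.unusedSectionVars false

namespace RG

open Subgroup

variable {G : Type} [Group G] [Finite G]

theorem chi_GTr (z : G) : ∃ χ : zpowers z →* ℂˣ, Function.Injective χ := by
  have hn : orderOf z ≠ 0 := (orderOf_pos z).ne'
  have h1 := Complex.isPrimitiveRoot_exp (orderOf z) hn
  have h2 : IsPrimitiveRoot (h1.isUnit hn).unit (orderOf z) := h1.isUnit_unit hn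
  have h3 : Nat.card (zpowers z) = Nat.card (zpowers (h1.isUnit hn).unit) := by
    rw [Nat.card_zpowers, Nat.card_zpowers, ← h2.eq_orderOf]
  exact ⟨(zpowers (h1.isUnit hn).unit).subtype.comp (mulEquivOfCyclicCardEq h3).toMonoidHom,
    (Subgroup.subtype_injective _).comp (mulEquivOfCyclicCardEq h3).injective⟩

theorem mem_of_order_GTr {p : ℕ} (hp : p.Prime) {z a b : G} (hz : PE p z) (ha : a ∈ zpowers z)
    (hb : b ∈ zpowers z) (ho : orderOf a = orderOf b) : a ∈ zpowers b := by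
  rcases zpowers_total hp hz ha hb with h | h
  · exact h
  · have h1 : zpowers b ≤ zpowers a := by
      rw [zpowers_le]
      exact h
    have h2 : zpowers b = zpowers a := by
      apply Subgroup.eq_of_le_of_card_ge h1
      rw [Nat.card_zpowers, Nat.card_zpowers, ho]
    rw [h2]
    exact mem_zpowers a

theorem pe_of_mem_GTr {p : ℕ} {P : Subgroup G} (hP : IsPGroup p P) {z : G} (hz : z ∈ P) :
    PE p z := by
  obtain ⟨k, hk⟩ := hP ⟨z, hz⟩
  exact ⟨k, by simpa using congrArg Subtype.val hk⟩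

theorem pe_zpowers_GTr {p : ℕ} {u : G} (hu : PE p u) : IsPGroup p (zpowers u) := by
  obtain ⟨k, hk⟩ := hu
  rintro ⟨x, j, rfl⟩
  refine ⟨k, Subtype.ext ?_⟩
  show (u ^ j) ^ p ^ k = 1
  rw [← zpow_natCast, ← zpow_mul, mul_comm, zpow_mul, zpow_natCast, hk, one_zpow]

theorem tr_top_GTr {c p A : ℕ} (h : Syl G c) (hp : p.Prime)
    (hC : ∀ u x : G, PE p u → x * u * x⁻¹ ∈ zpowers u → (x * u * x⁻¹ * u⁻¹) ^ A = 1) :
    ∃ φ : G →* ℂˣ, (∀ x, PE p (φ x)) ∧
      ∀ u : G, PE p u → φ u = 1 → u ^ (c.factorial * c.factorial * A) = 1 := by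
  classical
  have : Fact p.Prime := ⟨hp⟩
  obtain ⟨P⟩ : Nonempty (Sylow p G) := inferInstance
  obtain ⟨z, hzP, hz⟩ := h p hp P P.2
  have hzp : PE p z := pe_of_mem_GTr P.2 hzP
  obtain ⟨χ, hχ⟩ := chi_GTr z
  let ψ : zpowers z →* ℂˣ := (powMonoidHom A).comp χ
  have hψ : ∀ t, ψ t = χ t ^ A := fun t => rfl
  obtain ⟨s, hs⟩ := hzp
  have hkill : ∀ t : zpowers z, ψ t ^ p ^ s = 1 := by
    rintro ⟨t, j, rfl⟩
    rw [← map_pow]
    have h1 : (⟨z ^ j, j, rfl⟩ : zpowers z) ^ p ^ s = 1 := by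
      apply Subtype.ext
      show (z ^ j) ^ p ^ s = 1
      rw [← zpow_natCast, ← zpow_mul, mul_comm, zpow_mul, zpow_natCast, hs, one_zpow]
    rw [h1, map_one]
  have hzp : PE p z := ⟨s, hs⟩
  have hval : ∀ g : G, ∀ hg : g ∈ zpowers z,
      MonoidHom.transfer ψ g = ψ ⟨g, hg⟩ ^ (zpowers z).index := by
    intro g hg
    have := Fintype.ofFinite (Quotient (MulAction.orbitRel (zpowers g) (G ⧸ zpowers z)))
    rw [MonoidHom.transfer_eq_prod_quotient_orbitRel_zpowers_quot,
      index_eq_sum_minimalPeriod (zpowers z) g, ← Finset.prod_pow_eq_pow_sum]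
    apply Finset.prod_congr rfl
    intro q _
    have key : ∀ (n : ℕ) (x : G) (hx : x⁻¹ * g ^ n * x ∈ zpowers z),
        ψ ⟨x⁻¹ * g ^ n * x, hx⟩ = ψ ⟨g, hg⟩ ^ n := by
      intro n x hx
      have hgn : g ^ n ∈ zpowers z := Subgroup.pow_mem _ hg n
      have hpe : PE p (g ^ n) := pe_of_mem_GTr (pe_zpowers_GTr hzp) hgn
      have hord : orderOf (x⁻¹ * g ^ n * x) = orderOf (g ^ n) := by
        have h1 := (MulAut.conj x⁻¹).orderOf_eq (g ^ n)
        simpa using h1
      have hm : x⁻¹ * g ^ n * x ∈ zpowers (g ^ n) := mem_of_order_GTr hp hzp hx hgn hord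
      have h2 := hC (g ^ n) x⁻¹ hpe (by simpa using hm)
      rw [inv_inv] at h2
      have h3 : ((⟨x⁻¹ * g ^ n * x, hx⟩ : zpowers z) * (⟨g, hg⟩ ^ n)⁻¹) ^ A = 1 :=
        Subtype.ext h2
      have h4 := congrArg χ h3
      rw [map_pow, map_mul, map_inv, map_one, mul_pow, inv_pow, mul_inv_eq_one] at h4
      rw [← map_pow, hψ, hψ, h4]
    exact key _ _ _
  refine ⟨MonoidHom.transfer ψ, ?_, ?_⟩
  · intro g
    have := Fintype.ofFinite (Quotient (MulAction.orbitRel (zpowers g) (G ⧸ zpowers z)))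
    refine ⟨s, ?_⟩
    rw [MonoidHom.transfer_eq_prod_quotient_orbitRel_zpowers_quot, ← Finset.prod_pow]
    exact Finset.prod_eq_one (fun q _ => hkill _)
  · intro u hu hφ
    obtain ⟨Q, hQ⟩ := (pe_zpowers_GTr hu).exists_le_sylow
    obtain ⟨w, hw⟩ := MulAction.exists_smul_eq G Q P
    have hmem : w * u * w⁻¹ ∈ (P : Subgroup G) := by
      rw [← hw, Sylow.coe_subgroup_smul]
      exact Subgroup.smul_mem_pointwise_smul u (MulAut.conj w) _ (hQ (mem_zpowers u))
    have hg : (w * u * w⁻¹) ^ c.factorial ∈ zpowers z := pow_fact_mem hzP hz hmem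
    have h1 : MonoidHom.transfer ψ ((w * u * w⁻¹) ^ c.factorial) = 1 := by
      rw [map_pow, map_mul, map_mul, hφ, mul_one, map_inv, mul_inv_cancel, one_pow]
    rw [hval _ hg, hψ, ← map_pow, ← map_pow, ← map_one χ] at h1
    have h2 : (((w * u * w⁻¹) ^ c.factorial) ^ A) ^ (zpowers z).index = 1 :=
      congrArg Subtype.val (hχ h1)
    have hle : zpowers z ≤ (P : Subgroup G) := by
      rw [zpowers_le]
      exact hzP
    have hidx : (zpowers z).relIndex P * (P : Subgroup G).index = (zpowers z).index :=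
      relIndex_mul_index hle
    have hcard : (zpowers z).relIndex P * orderOf z = Nat.card P := by
      have h3 := ((zpowers z).subgroupOf (P : Subgroup G)).index_mul_card
      rw [Nat.card_congr (subgroupOfEquivOfLe hle).toEquiv, Nat.card_zpowers] at h3
      exact h3
    have hrel : (zpowers z).relIndex P ≤ c := by
      apply Nat.le_of_mul_le_mul_right _ (orderOf_pos z)
      rw [hcard]
      exact hz
    have hrel0 : 0 < (zpowers z).relIndex P := by
      apply Nat.pos_of_ne_zero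
      intro h0
      rw [h0, zero_mul] at hcard
      exact Nat.card_pos.ne' hcard.symm
    obtain ⟨d, hd⟩ := Nat.dvd_factorial hrel0 hrel
    have h3 : u ^ (c.factorial * A * (zpowers z).index) = 1 := by
      rw [← pow_mul, ← pow_mul, conj_pow, ← mul_assoc c.factorial] at h2
      simpa using h2
    obtain ⟨t, ht⟩ := hu.order hp
    have h4 : p ^ t ∣ c.factorial * A * (zpowers z).relIndex P * (P : Subgroup G).index := by
      rw [← ht, mul_assoc (c.factorial * A), hidx]
      exact orderOf_dvd_of_pow_eq_one h3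
    have h5 : p ^ t ∣ c.factorial * A * (zpowers z).relIndex P :=
      (Nat.Coprime.pow_left t ((Nat.Prime.coprime_iff_not_dvd hp).mpr
        P.not_dvd_index)).dvd_of_dvd_mul_right h4
    apply orderOf_dvd_iff_pow_eq_one.mp
    rw [ht]
    refine h5.trans ⟨d, ?_⟩
    calc c.factorial * c.factorial * A = c.factorial * A * c.factorial := by ring
      _ = c.factorial * A * ((zpowers z).relIndex P * d) := by rw [← hd]
      _ = _ := by ring

theorem pe_two_GTr {M : Type} [Group M] {p q : ℕ} (hp : p.Prime) (hq : q.Prime) (hpq : p ≠ q)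
    {a : M} (h1 : PE p a) (h2 : PE q a) : a = 1 := by
  obtain ⟨k, hk⟩ := h1
  obtain ⟨l, hl⟩ := h2
  have h3 : (p ^ k).Coprime (q ^ l) :=
    Nat.Coprime.pow k l ((Nat.coprime_primes hp hq).mpr hpq)
  have h4 := Nat.dvd_gcd (orderOf_dvd_of_pow_eq_one hk) (orderOf_dvd_of_pow_eq_one hl)
  rw [h3] at h4
  exact orderOf_eq_one_iff.mp (Nat.dvd_one.mp h4)

theorem conj_GTr {A p : ℕ} (h : Aut G A) (hp : p.Prime) {u x : G} (hu : PE p u)
    (hx : x * u * x⁻¹ ∈ zpowers u) :
    ∃ r : ℕ, 0 < r ∧ (∀ j : ℕ, x * u ^ j * x⁻¹ = u ^ (j * r)) ∧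
      x * u * x⁻¹ * u⁻¹ = u ^ (r - 1) ∧ orderOf u ∣ r ^ A - 1 := by
  obtain ⟨r, hr, hk⟩ := exists_conj_pow hx
  have h1 : ∀ j : ℕ, x * u ^ j * x⁻¹ = u ^ (j * r) := by
    intro j
    simpa using hk 1 j
  refine ⟨r, hr, h1, ?_, ?_⟩
  · have h2 := h1 1
    rw [pow_one, one_mul] at h2
    rw [h2, mul_inv_eq_iff_eq_mul, ← pow_succ, Nat.sub_add_cancel hr]
  · have h2 := hk A 1
    rw [pow_one, one_mul, (h p hp u x hu hx).eq, mul_inv_cancel_right] at h2
    have h3 : 1 ≤ r ^ A := pow_pos hr A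
    apply orderOf_dvd_of_pow_eq_one
    have h4 : u ^ (r ^ A - 1) * u = 1 * u := by
      rw [← pow_succ, Nat.sub_add_cancel h3, one_mul]
      exact h2.symm
    exact mul_right_cancel h4

theorem fix_GTr {v : G} {r : ℕ} (hr : 0 < r) (h : v ^ r = v) : orderOf v ∣ r - 1 := by
  apply orderOf_dvd_of_pow_eq_one
  have h4 : v ^ (r - 1) * v = 1 * v := by
    rw [← pow_succ, Nat.sub_add_cancel hr, one_mul]
    exact h
  exact mul_right_cancel h4

/-- Let `P` be a Sylow subgroup of `H`, `Z = zpowers z ≤ P` of index at most `c`, `χ` an injective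
character of `Z`. Take the transfer of `χ ^ A` to `H`
(`MonoidHom.transfer_eq_prod_quotient_orbitRel_zpowers_quot`). For `g ∈ Z` each factor
`x⁻¹ g ^ n x ∈ Z` has the order of `g ^ n`, so lies in `zpowers (g ^ n)`, and by `CT` the factor
has the same value as `g ^ n`; so the transfer of `g` is `χ g ^ (A * index)`. A `p`-element of the
kernel is conjugate into `P`, its `c!`-th power lies in `Z`, and the `p`-part of the index
divides `c!`. -/
theorem transfer_one {c p A : ℕ} (h : Syl G c) (hp : p.Prime) {H : Subgroup G}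
    (hH : CT H p A) : ∃ φ : H →* ℂˣ, (∀ x, PE p (φ x)) ∧
      ∀ u : H, PE p (u : G) → φ u = 1 → (u : G) ^ (c.factorial * c.factorial * A) = 1 := by
  obtain ⟨φ, h1, h2⟩ := tr_top_GTr (G := H) (A := A) (h.sub H) hp (by
    intro u x hu hx
    apply Subtype.ext
    have hu' : PE p (u : G) := by
      obtain ⟨k, hk⟩ := hu
      exact ⟨k, congrArg Subtype.val hk⟩
    have hx' : (x : G) * u * (x : G)⁻¹ ∈ zpowers (u : G) := by
      obtain ⟨j, hj⟩ := hx
      exact ⟨j, congrArg Subtype.val hj⟩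
    exact hH u u.2 x x.2 hu' hx')
  refine ⟨φ, h1, fun u hu hφ => ?_⟩
  have hu' : PE p u := by
    obtain ⟨k, hk⟩ := hu
    exact ⟨k, Subtype.ext hk⟩
  exact congrArg Subtype.val (h2 u hu' hφ)

/-- Multiply the characters of `transfer_one` over the primes of central type dividing the order
of `G`; a `p`-element is killed by the characters of the other primes. -/
theorem strip {c : ℕ} (h : Syl G c) (A : ℕ) (H : Subgroup G) :
    ∃ K, Cy K H ∧ ∀ p : ℕ, p.Prime → CT H p A → Kl K p (c.factorial * c.factorial * A) := by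
  classical
  have hex : ∀ p : ℕ, ∃ φ : H →* ℂˣ, p.Prime → CT H p A → (∀ x, PE p (φ x)) ∧
      ∀ u : H, PE p (u : G) → φ u = 1 → (u : G) ^ (c.factorial * c.factorial * A) = 1 := by
    intro p
    by_cases hp : p.Prime ∧ CT H p A
    · obtain ⟨φ, hφ⟩ := transfer_one h hp.1 hp.2
      exact ⟨φ, fun _ _ => hφ⟩
    · exact ⟨1, fun h1 h2 => absurd ⟨h1, h2⟩ hp⟩
  choose φ hφ using hex
  let S : Finset ℕ := (Nat.card G).primeFactors.filter (fun p => CT H p A)
  let Φ : H →* ℂˣ := ∏ p ∈ S, φ p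
  refine ⟨Φ.ker.map H.subtype, ⟨Subgroup.map_subtype_le _, Φ, fun x => ?_⟩, ?_⟩
  · constructor
    · intro hx
      exact ⟨x, hx, rfl⟩
    · rintro ⟨y, hy, hyx⟩
      have h1 : y = x := Subtype.ext hyx
      rw [← h1]
      exact hy
  · rintro p hp hC _ ⟨u, hu, rfl⟩ hpe
    have hpe' : PE p (u : G) := hpe
    show (u : G) ^ (c.factorial * c.factorial * A) = 1
    by_cases hd : p ∣ Nat.card G
    · have hpS : p ∈ S :=
        Finset.mem_filter.mpr ⟨Nat.mem_primeFactors.mpr ⟨hp, hd, Nat.card_pos.ne'⟩, hC⟩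
      apply (hφ p hp hC).2 u hpe'
      have h1 : ∏ q ∈ S, φ q u = 1 := by
        rw [← MonoidHom.finsetProd_apply]
        exact hu
      rw [Finset.prod_eq_single_of_mem p hpS] at h1
      · exact h1
      · intro q hq hqp
        have hq1 := Finset.mem_filter.mp hq
        have hq2 := Nat.prime_of_mem_primeFactors hq1.1
        refine pe_two_GTr hq2 hp hqp ((hφ q hq2 hq1.2).1 u) ?_
        obtain ⟨k, hk⟩ := hpe'
        have hk' : u ^ p ^ k = 1 := Subtype.ext hk
        exact ⟨k, by rw [← map_pow, hk', map_one]⟩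
    · obtain ⟨s, hs⟩ := hpe'.order hp
      have h1 : p ^ s ∣ Nat.card G := hs ▸ orderOf_dvd_natCard (u : G)
      have h2 : s = 0 := by
        by_contra h3
        exact hd ((dvd_pow_self p h3).trans h1)
      rw [h2, pow_zero, orderOf_eq_one_iff] at hs
      rw [hs, one_pow]

/-- `closure {u, y}` is a `p`-group, so `u ^ c!` and `y ^ c!` lie in one cyclic `p`-group. If
`u ^ c!` is a power of `y` then `x` centralises it. Otherwise `y ^ c!` is a power of `u` of order
at least `p` (at least `4` for `p = 2`) fixed by `x`, and `lte_dvd` applies. -/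
theorem ct_of_central {N c A p : ℕ} (h : Hyp G N c A) (hp : p.Prime) {H : Subgroup G} {y : G}
    (hy : PE p y) (hy' : y ^ (2 * c.factorial) ≠ 1) (hH : H ≤ centralizer {y}) :
    CT H p (c.factorial * A) := by
  intro u hu x hx hpe hxu
  obtain ⟨r, hr, h1, h2, h3⟩ := conj_GTr h.aut hp hpe hxu
  have hcom : ∀ g ∈ H, Commute g y := by
    intro g hg
    exact (Subgroup.mem_centralizer_iff.mp (hH hg) y rfl).symm
  have hP : IsPGroup p (closure {u, y} : Subgroup G) := by
    apply isPGroup_pair hp hpe hy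
    rw [← (hcom u hu).eq, mul_inv_cancel_right]
    exact mem_zpowers u
  obtain ⟨z, hzP, hz⟩ := h.syl p hp _ hP
  have hzp : PE p z := pe_of_mem_GTr hP hzP
  have huz : u ^ c.factorial ∈ zpowers z :=
    pow_fact_mem hzP hz (Subgroup.subset_closure (by simp))
  have hyz : y ^ c.factorial ∈ zpowers z :=
    pow_fact_mem hzP hz (Subgroup.subset_closure (by simp))
  rw [h2]
  rcases zpowers_total hp hzp huz hyz with h4 | h4
  · obtain ⟨j, hj⟩ := h4
    have h5 : Commute x (u ^ c.factorial) := by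
      rw [← hj]
      exact ((hcom x hx).pow_right _).zpow_right _
    have h6 := h1 c.factorial
    rw [h5.eq, mul_inv_cancel_right, pow_mul] at h6
    have h7 := orderOf_dvd_iff_pow_eq_one.mp (fix_GTr hr h6.symm)
    calc (u ^ (r - 1)) ^ (c.factorial * A) = ((u ^ c.factorial) ^ (r - 1)) ^ A := by
          rw [← pow_mul, ← pow_mul, ← pow_mul]
          congr 1
          ring
      _ = 1 := by rw [h7, one_pow]
  · have h5 : y ^ c.factorial ∈ zpowers u :=
      (zpowers_le.mpr (Subgroup.pow_mem _ (mem_zpowers u) _)) h4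
    obtain ⟨j, hj⟩ := mem_powers_iff_mem_zpowers.mpr h5
    have hj' : u ^ j = y ^ c.factorial := hj
    have h6 := h1 j
    rw [pow_mul, hj', ((hcom x hx).pow_right _).eq, mul_inv_cancel_right] at h6
    have h7 := fix_GTr hr h6.symm
    obtain ⟨t, ht⟩ := (hy.pow c.factorial).order hp
    have h8 : ¬ p ^ t ∣ 2 := by
      intro h9
      apply hy'
      rw [mul_comm, pow_mul]
      apply orderOf_dvd_iff_pow_eq_one.mp
      rw [ht]
      exact h9
    rw [ht] at h7
    have ht0 : t ≠ 0 := by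
      intro h9
      apply h8
      rw [h9, pow_zero]
      exact one_dvd 2
    have h9 : p ∣ r - 1 := (dvd_pow_self p ht0).trans h7
    have h10 : p = 2 → 4 ∣ r - 1 := by
      intro hp2
      subst hp2
      have ht1 : t ≠ 1 := by
        intro h11
        apply h8
        rw [h11, pow_one]
      have h11 : 2 ^ 2 ∣ 2 ^ t := pow_dvd_pow 2 (by omega)
      exact h11.trans h7
    obtain ⟨s, hs⟩ := hpe.order hp
    rw [hs] at h3
    have h11 := (lte_dvd hp hr h9 h10 h.apos).mp h3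
    rw [← pow_mul]
    apply orderOf_dvd_iff_pow_eq_one.mp
    rw [hs]
    refine h11.trans ⟨c.factorial, ?_⟩
    ring

/-- If `x u x⁻¹ = u ^ r` violates `CT` then `r` is not `1` modulo `p` (`lte_dvd`, `p ∤ A`), so `x`
moves the subgroup of order `p` of `zpowers u`; conjugate by `conj_prime`. -/
theorem move_of_not_ct {N c A p A' : ℕ} (h : Hyp G N c A) (hp : p.Prime) (hc : c + A + 2 < p)
    {H : Subgroup G} (hH : ¬ CT H p A') {y : G} (hy : y ∈ H) (ho : orderOf y = p) :
    ∃ x ∈ H, x * y * x⁻¹ ∈ zpowers y ∧ ¬ Commute x y := by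
  have hH' : ∃ u ∈ H, ∃ x ∈ H, PE p u ∧ x * u * x⁻¹ ∈ zpowers u ∧
      (x * u * x⁻¹ * u⁻¹) ^ A' ≠ 1 := by
    by_contra hcon
    apply hH
    intro u hu x hx h1 h2
    by_contra h3
    exact hcon ⟨u, hu, x, hx, h1, h2, h3⟩
  obtain ⟨u, hu, x, hx, hpe, hxu, hne⟩ := hH'
  obtain ⟨r, hr, h1, h2, h3⟩ := conj_GTr h.aut hp hpe hxu
  obtain ⟨s, hs⟩ := hpe.order hp
  have hnd : ¬ p ^ s ∣ r - 1 := by
    intro h4
    apply hne
    rw [← hs] at h4
    rw [h2, orderOf_dvd_iff_pow_eq_one.mp h4, one_pow]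
  have hpr : ¬ p ∣ r - 1 := by
    intro h4
    apply hnd
    rw [hs] at h3
    have h5 := (lte_dvd hp hr h4 (fun h6 => by omega) h.apos).mp h3
    have h6 : ¬ p ∣ A := Nat.not_dvd_of_pos_of_lt h.apos (by omega)
    exact (Nat.Coprime.pow_left s ((Nat.Prime.coprime_iff_not_dvd hp).mpr h6)).dvd_of_dvd_mul_right
      h5
  have hs0 : s ≠ 0 := by
    intro h4
    apply hnd
    rw [h4, pow_zero]
    exact one_dvd _
  obtain ⟨t, rfl⟩ := Nat.exists_eq_succ_of_ne_zero hs0
  have hv : orderOf (u ^ p ^ t) = p := by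
    rw [orderOf_pow_of_dvd (pow_pos hp.pos t).ne' (by rw [hs]; exact pow_dvd_pow p (Nat.le_succ t)),
      hs, pow_succ, Nat.mul_div_cancel_left _ (pow_pos hp.pos t)]
  obtain ⟨w, hw, hwy⟩ := conj_prime h.syl hp (by omega) hy (Subgroup.pow_mem _ hu (p ^ t)) ho hv
  have h5 : w * y * w⁻¹ ∈ zpowers u :=
    (zpowers_le.mpr (Subgroup.pow_mem _ (mem_zpowers u) _)) hwy
  obtain ⟨j, hj⟩ := mem_powers_iff_mem_zpowers.mpr h5
  have hj' : u ^ j = w * y * w⁻¹ := hj
  have h6 := h1 j
  rw [pow_mul, hj', conj_pow] at h6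
  have h7 : w⁻¹ * x * w * y * (w⁻¹ * x * w)⁻¹ = y ^ r := by
    calc w⁻¹ * x * w * y * (w⁻¹ * x * w)⁻¹ = w⁻¹ * (x * (w * y * w⁻¹) * x⁻¹) * w := by group
      _ = y ^ r := by rw [h6]; group
  refine ⟨w⁻¹ * x * w, H.mul_mem (H.mul_mem (H.inv_mem hw) hx) hw, ?_, ?_⟩
  · rw [h7]
    exact Subgroup.pow_mem _ (mem_zpowers y) r
  · intro hcm
    rw [hcm.eq, mul_inv_cancel_right] at h7
    exact hpr (ho ▸ fix_GTr hr h7.symm)

end RG
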