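import Pool.Agent.P.MP_8a106a_gt.HDefs
import Pool.Agent.P.MP_d483fb_an.Cover

/-! An invariant good cover of a finite covering space. -/

set_option autoImplicit false
set_option linter.unusedSectionVars false

noncomputable section

namespace RG

open HK3 Pool.Agent.P.MP_9699e0_gt Pool.Agent.P.MP_8a106a_gt Set Filter Topology

open scoped Manifold ContDiff

/-- `exists_embedding_euclidean_of_compact`, `exists_convex_radius`, a finite subcover. -/
theorem exists_good_base {n : ℕ} (M : Type) [TopologicalSpace M] [T2Space M] [CompactSpace M]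
    [ChartedSpace (Euc n) M] [IsManifold (𝓡 n) ∞ M] :
    ∃ (m : ℕ) (U : Fin m → Set M), (∀ a, IsOpen (U a)) ∧ (∀ a, (U a).Nonempty) ∧
      (∀ x, ∃ a, x ∈ U a) ∧ ∀ σ : Finset (Fin m), σ.Nonempty → (⋂ a ∈ σ, U a).Nonempty →
        ContractibleSpace ↥(⋂ a ∈ σ, U a) := by
  classical
  obtain ⟨N, Φ, h1, h2, h3⟩ := exists_embedding_euclidean_of_compact (I := 𝓡 n) (M := M)
  obtain ⟨r, hr₀, hr⟩ := Pool.Agent.P.MP_d483fb_an.exists_convex_radius Φ h1 h2.injective h3
  set B : M → Set M := fun x => {y | dist (Φ y) (Φ x) < r} with hB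
  have hBo : ∀ x, IsOpen (B x) := fun x =>
    isOpen_lt (h2.continuous.dist continuous_const) continuous_const
  have hBx : ∀ x, x ∈ B x := fun x => by simpa [hB] using hr₀
  obtain ⟨t, ht⟩ := CompactSpace.elim_nhds_subcover B fun x => (hBo x).mem_nhds (hBx x)
  refine ⟨t.card, fun a => B (t.equivFin.symm a), fun a => hBo _, fun a => ⟨_, hBx _⟩,
    fun x => ?_, fun σ hσ hne => ?_⟩
  · have hx : x ∈ ⋃ y ∈ t, B y := by rw [ht]; trivial
    obtain ⟨y, hy, hxy⟩ := mem_iUnion₂.1 hx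
    exact ⟨t.equivFin ⟨y, hy⟩, by simpa using hxy⟩
  · have e : (⋂ a ∈ σ, B (t.equivFin.symm a)) =
        ⋂ x ∈ σ.image fun a => (t.equivFin.symm a : M), B x :=
      (Finset.set_biInter_finset_image).symm
    rw [e] at hne ⊢
    exact hr r hr₀ le_rfl _ (hσ.image _) hne

private theorem exists_section {M X : Type} [TopologicalSpace M] [LocallyPathConnectedSpace M]
    [TopologicalSpace X] {p : X → M} (hp : IsCoveringMap p) (hs : Function.Surjective p)
    {U : Set M} (ho : IsOpen U) (hne : U.Nonempty) [ContractibleSpace U] :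
    ∃ s : M → X, ContinuousOn s U ∧ ∀ y ∈ U, p (s y) = y := by
  classical
  obtain ⟨y₀, hy₀⟩ := hne
  obtain ⟨x₀, hx₀⟩ := hs y₀
  have := ho.locallyPathConnectedSpace
  obtain ⟨F, ⟨-, hF⟩, -⟩ := hp.existsUnique_continuousMap_lifts
    (⟨Subtype.val, continuous_subtype_val⟩ : C(U, M)) ⟨y₀, hy₀⟩ x₀ hx₀
  refine ⟨fun y => if h : y ∈ U then F ⟨y, h⟩ else x₀, ?_, fun y hy => ?_⟩
  · rw [continuousOn_iff_continuous_domRestrict]
    convert F.continuous using 1
    funext y
    simp
  · simp only [hy, dite_true]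
    exact congrFun hF ⟨y, hy⟩

private theorem isOpen_sheet {M X : Type} [TopologicalSpace M] [TopologicalSpace X] {p : X → M}
    (hp : IsCoveringMap p) {U : Set M} (ho : IsOpen U) {s : M → X} (hs : ContinuousOn s U)
    (hps : ∀ y ∈ U, p (s y) = y) : IsOpen {x | p x ∈ U ∧ x = s (p x)} := by
  have h1 : IsOpen (p ⁻¹' U) := ho.preimage hp.continuous
  have h2 : Continuous fun x : p ⁻¹' U => s (p x) :=
    hs.comp_continuous (hp.continuous.comp continuous_subtype_val) fun x => x.2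
  have h3 := hp.isLocalHomeomorph.isLocallyInjective.isOpen_eqLocus continuous_subtype_val h2
    (funext fun x => (hps _ x.2).symm)
  convert h1.isOpenMap_subtype_val _ h3 using 1
  ext x
  exact ⟨fun h => ⟨⟨x, h.1⟩, h.2, rfl⟩, by rintro ⟨y, hy, rfl⟩; exact ⟨y.2, hy⟩⟩

/-- Choose sections `s a` over the simply connected sets `U a`
(`IsCoveringMap.existsUnique_continuousMap_lifts`); `I = Fin m × Γ`,
`W (a, g) = g • range (s a)`, `ord (a, g) = a`. Sections that agree at one point of the connected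
set `⋂ U a` agree on it (`IsCoveringMap.eq_of_comp_eq`), so a nonempty intersection of sheets is
homeomorphic to the intersection of the `U a`. -/
theorem exists_gc {M X Γ : Type} [TopologicalSpace M] [LocallyPathConnectedSpace M]
    [TopologicalSpace X] [Group Γ] [Finite Γ] [MulAction Γ X] {p : X → M}
    (hp : IsQuotientCoveringMap p Γ) {m : ℕ} (U : Fin m → Set M) (ho : ∀ a, IsOpen (U a))
    (hne : ∀ a, (U a).Nonempty) (hc : ∀ x, ∃ a, x ∈ U a)
    (hg : ∀ σ : Finset (Fin m), σ.Nonempty → (⋂ a ∈ σ, U a).Nonempty →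
      ContractibleSpace ↥(⋂ a ∈ σ, U a)) : Nonempty (GC Γ X) := by
  classical
  have := Fintype.ofFinite Γ
  have hcov := hp.isCoveringMap
  have hfree := hp.isCancelSMul
  have hsm := hp.toContinuousConstSMul
  have hsec : ∀ a, ∃ s : M → X, ContinuousOn s (U a) ∧ ∀ y ∈ U a, p (s y) = y := fun a => by
    have h := hg {a} (Finset.singleton_nonempty a) (by simpa using hne a)
    rw [Finset.set_biInter_singleton] at h
    exact exists_section hcov hp.surjective (ho a) (hne a)
  choose s hs hps using hsec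
  let t : Fin m × Γ → M → X := fun i y => i.2 • s i.1 y
  have ht : ∀ i, ContinuousOn (t i) (U i.1) := fun i => (hs i.1).const_smul i.2
  have hpt : ∀ i, ∀ y ∈ U i.1, p (t i y) = y := fun i y hy => (hp.map_smul i.2).trans (hps _ y hy)
  let act : MulAction Γ (Fin m × Γ) :=
    { smul := fun g i => (i.1, g * i.2)
      one_smul := fun i => Prod.ext rfl (one_mul _)
      mul_smul := fun g h i => Prod.ext rfl (mul_assoc _ _ _) }
  refine ⟨{ I := Fin m × Γ
            act := act
            ord := fun i => i.1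
            W := fun i => {x | p x ∈ U i.1 ∧ x = t i (p x)}
            opn := fun i => isOpen_sheet hcov (ho i.1) (ht i) (hpt i)
            cover := fun x => ?_
            free := fun g i h => mul_eq_right.1 (congrArg Prod.snd h)
            ord_smul := fun _ _ => rfl
            inj := ?_
            inv := ?_
            good := ?_ }⟩
  · obtain ⟨a, ha⟩ := hc (p x)
    obtain ⟨g, hg⟩ := hp.apply_eq_iff_mem_orbit.1 (hps a _ ha).symm
    exact ⟨(a, g), ha, hg.symm⟩
  · rintro ⟨a, g⟩ ⟨b, h⟩ ⟨x, hx, hx'⟩ e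
    obtain rfl : a = b := Fin.ext e
    exact Prod.ext rfl (IsCancelSMul.right_cancel _ _ _ (hx.2.symm.trans hx'.2))
  · rintro g σ ⟨x, hx⟩
    refine ⟨g • x, mem_iInter₂.2 fun i hi => ?_⟩
    have h := mem_iInter₂.1 hx i hi
    change p (g • x) ∈ U i.1 ∧ g • x = (g * i.2) • s i.1 (p (g • x))
    rw [hp.map_smul, mul_smul]
    exact ⟨h.1, congrArg _ h.2⟩
  · rintro σ ⟨i₀, hi₀⟩ ⟨x₀, hx₀⟩
    have hB : ∀ {y}, y ∈ (⋂ a ∈ σ.image Prod.fst, U a) ↔ ∀ i ∈ σ, y ∈ U i.1 := by
      intro y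
      rw [Finset.set_biInter_finset_image, mem_iInter₂]
    have hW : ∀ {x}, x ∈ (⋂ i ∈ σ, {x | p x ∈ U i.1 ∧ x = t i (p x)}) ↔
        ∀ i ∈ σ, p x ∈ U i.1 ∧ x = t i (p x) := mem_iInter₂
    have hy₀ : p x₀ ∈ ⋂ a ∈ σ.image Prod.fst, U a := hB.2 fun i hi => (hW.1 hx₀ i hi).1
    have hcon := hg (σ.image Prod.fst) ⟨_, Finset.mem_image_of_mem _ hi₀⟩ ⟨_, hy₀⟩
    have hpre : IsPreconnected (⋂ a ∈ σ.image Prod.fst, U a) :=
      isPreconnected_iff_preconnectedSpace.2 inferInstance
    have heq : ∀ i ∈ σ, EqOn (t i₀) (t i) (⋂ a ∈ σ.image Prod.fst, U a) := fun i hi =>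
      hcov.eqOn_of_comp_eqOn hpre ((ht i₀).mono fun y hy => hB.1 hy i₀ hi₀)
        ((ht i).mono fun y hy => hB.1 hy i hi)
        (fun y hy => (hpt i₀ y (hB.1 hy i₀ hi₀)).trans (hpt i y (hB.1 hy i hi)).symm) hy₀
        ((hW.1 hx₀ i₀ hi₀).2.symm.trans (hW.1 hx₀ i hi).2)
    let e : ↥(⋂ i ∈ σ, {x | p x ∈ U i.1 ∧ x = t i (p x)}) ≃ₜ ↥(⋂ a ∈ σ.image Prod.fst, U a) :=
      { toFun := fun x => ⟨p x, hB.2 fun i hi => (hW.1 x.2 i hi).1⟩
        invFun := fun y => ⟨t i₀ y, hW.2 fun i hi => by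
          rw [hpt i₀ y (hB.1 y.2 i₀ hi₀)]
          exact ⟨hB.1 y.2 i hi, heq i hi y.2⟩⟩
        left_inv := fun x => Subtype.ext (hW.1 x.2 i₀ hi₀).2.symm
        right_inv := fun y => Subtype.ext (hpt i₀ y (hB.1 y.2 i₀ hi₀))
        continuous_toFun := (hcov.continuous.comp continuous_subtype_val).subtype_mk _
        continuous_invFun := ((ht i₀).comp_continuous continuous_subtype_val
          fun y => hB.1 y.2 i₀ hi₀).subtype_mk _ }
    exact e.contractibleSpace

end RG
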