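import Pool.Agent.P.MP_8a106a_gt.HRk

/-! The boundary of the nerve. -/

set_option autoImplicit false
set_option linter.unusedSectionVars false

noncomputable section

namespace RG

open HK3 Pool.Agent.P.MP_9699e0_gt Pool.Agent.P.MP_8a106a_gt Set Filter Topology

variable {k W W' I : Type} [Field k] [AddCommGroup W] [Module k W] [AddCommGroup W'] [Module k W']
  [Fintype I] [DecidableEq I] {ord : I → ℕ}

theorem mem_DD {A : Finset I → Submodule k W} {p : ℕ} {x : Finset I → W} :
    x ∈ DD A p ↔ ∀ σ, x σ ∈ A σ ∧ (σ.card ≠ p → x σ = 0) := Iff.rfl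

theorem del_apply (x : Finset I → W) (τ : Finset I) :
    del k ord W x τ = ∑ i ∈ τᶜ, sg k ord i τ • x (insert i τ) := rfl

theorem sg_sq (i : I) (τ : Finset I) : sg k ord i τ * sg k ord i τ = 1 := by
  rw [sg, ← mul_pow, neg_mul_neg, one_mul, one_pow]

theorem sg_insert_HD1 {i : I} (j : I) {τ : Finset I} (hi : i ∉ τ) :
    sg k ord j (insert i τ) = (if ord i < ord j then -1 else 1) * sg k ord j τ := by
  rw [sg, sg, Finset.filter_insert]
  split_ifs
  · rw [Finset.card_insert_of_notMem fun h => hi (Finset.mem_filter.1 h).1, pow_succ']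
  · rw [one_mul]

theorem sg_swap {i j : I} {τ : Finset I} (hi : i ∉ τ) (hj : j ∉ τ) (h : ord i ≠ ord j) :
    sg k ord i τ * sg k ord j (insert i τ) = -(sg k ord j τ * sg k ord i (insert j τ)) := by
  rw [sg_insert_HD1 j hi, sg_insert_HD1 i hj]
  rcases lt_or_gt_of_ne h with h | h
  · rw [if_pos h, if_neg h.not_gt]
    ring
  · rw [if_pos h, if_neg h.not_gt]
    ring

/-- Pair the terms ` (i, j)` and ` (j, i)` (`Finset.sum_involution`, or split by the order of the
values of `ord`: the characteristic may be two). -/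
theorem del_del {x : Finset I → W} (h : ∀ σ, x σ ≠ 0 → InjOn ord σ) :
    del k ord W (del k ord W x) = 0 := by
  funext τ
  simp only [del_apply, Finset.smul_sum, smul_smul]
  rw [← Finset.sum_finset_product' τᶜ.offDiag τᶜ (fun i => (insert i τ)ᶜ) (fun p => by
    simp only [Finset.mem_offDiag, Finset.mem_compl, Finset.mem_insert, not_or]
    tauto)]
  refine Finset.sum_involution (fun p _ => p.swap) (fun p hp => ?_) (fun p hp _ he => ?_)
    (fun p hp => ?_) fun p _ => p.swap_swap
  · obtain ⟨h1, h2, h3⟩ := Finset.mem_offDiag.1 hp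
    rw [Prod.fst_swap, Prod.snd_swap, Finset.insert_comm p.1 p.2]
    by_cases h0 : x (insert p.2 (insert p.1 τ)) = 0
    · rw [h0, smul_zero, smul_zero, add_zero]
    · rw [← add_smul, sg_swap (Finset.mem_compl.1 h1) (Finset.mem_compl.1 h2) fun he =>
        h3 (h _ h0 (by simp) (by simp) he), neg_add_cancel, zero_smul]
  · exact (Finset.mem_offDiag.1 hp).2.2 (congrArg Prod.snd he)
  · obtain ⟨h1, h2, h3⟩ := Finset.mem_offDiag.1 hp
    exact Finset.mem_offDiag.2 ⟨h2, h1, h3.symm⟩

theorem del_mem {A : Finset I → Submodule k W} (anti : ∀ σ τ, σ ⊆ τ → A τ ≤ A σ) {p : ℕ}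
    {x : Finset I → W} (h : x ∈ DD A (p + 1)) : del k ord W x ∈ DD A p := by
  refine fun τ => ⟨Submodule.sum_mem _ fun i _ => Submodule.smul_mem _ _
    (anti _ _ (Finset.subset_insert _ _) (h _).1), fun hτ => Finset.sum_eq_zero fun i hi => ?_⟩
  rw [(h _).2, smul_zero]
  rw [Finset.card_insert_of_notMem (Finset.mem_compl.1 hi)]
  omega

theorem del_zero {A : Finset I → Submodule k W} {x : Finset I → W} (h : x ∈ DD A 0) :
    del k ord W x = 0 := by
  funext τ
  refine Finset.sum_eq_zero fun i hi => ?_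
  rw [(h _).2, smul_zero]
  rw [Finset.card_insert_of_notMem (Finset.mem_compl.1 hi)]
  omega

theorem del_comp (f : W →ₗ[k] W') (x : Finset I → W) :
    del k ord W' (f.compLeft (Finset I) x) = f.compLeft (Finset I) (del k ord W x) := by
  funext τ
  simp only [del_apply, LinearMap.compLeft_apply, Function.comp_apply, map_sum, map_smul]

/-- The contraction is `h x σ = ∑ i ∈ σ, sg i (σ.erase i) • π i (x (σ.erase i))`; it satisfies
`del (h x) + h (del x) = x`. The cross terms cancel by `sg_swap`; if `ord i = ord j` the term lies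
in `A (insert j τ) = ⊥`. -/
theorem exact_of_proj {A : Finset I → Submodule k W} (anti : ∀ σ τ, σ ⊆ τ → A τ ≤ A σ)
    (inj : ∀ σ, A σ ≠ ⊥ → InjOn ord σ) (π : I → W →ₗ[k] W) (hs : ∀ c ∈ A ∅, ∑ i, π i c = c)
    (hπ : ∀ σ i, ∀ c ∈ A σ, π i c ∈ A (insert i σ)) (p : ℕ) :
    ∀ x ∈ DD A p, del k ord W x = 0 → ∃ y ∈ DD A (p + 1), del k ord W y = x := by
  intro x hx h0
  refine ⟨fun σ => ∑ i ∈ σ, sg k ord i (σ.erase i) • π i (x (σ.erase i)), fun σ => ⟨?_, ?_⟩, ?_⟩
  · refine Submodule.sum_mem _ fun i hi => Submodule.smul_mem _ _ ?_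
    have := hπ _ i _ (hx (σ.erase i)).1
    rwa [Finset.insert_erase hi] at this
  · refine fun hσ => Finset.sum_eq_zero fun i hi => ?_
    rw [(hx _).2, map_zero, smul_zero]
    have := Finset.card_erase_add_one hi
    omega
  funext τ
  have h1 : ∀ i ∈ τ, ∑ j ∈ τᶜ, sg k ord j τ • sg k ord i ((insert j τ).erase i) •
      π i (x ((insert j τ).erase i)) = π i (x τ) := by
    intro i hi
    obtain ⟨ρ, hρ, rfl⟩ : ∃ ρ, i ∉ ρ ∧ insert i ρ = τ :=
      ⟨τ.erase i, Finset.notMem_erase i τ, Finset.insert_erase hi⟩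
    have h2 := congrArg (fun z => sg k ord i ρ • π i (z ρ)) h0
    simp only [del_apply, Pi.zero_apply, map_zero, smul_zero] at h2
    rw [← Finset.add_sum_erase _ _ (Finset.mem_compl.2 hρ), ← Finset.compl_insert, map_add,
      map_smul, smul_add, smul_smul, sg_sq, one_smul, map_sum, Finset.smul_sum] at h2
    rw [eq_neg_of_add_eq_zero_left h2, ← Finset.sum_neg_distrib]
    refine Finset.sum_congr rfl fun j hj => ?_
    rw [Finset.mem_compl, Finset.mem_insert, not_or] at hj
    have h3 : i ∉ insert j ρ := by simp [hρ, Ne.symm hj.1]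
    rw [Finset.insert_comm, Finset.erase_insert h3, map_smul]
    by_cases h4 : ord i = ord j
    · have h5 : A (insert i (insert j ρ)) = ⊥ := by
        by_contra h5
        exact hj.1 (inj _ h5 (by simp) (by simp) h4.symm)
      have h6 := hπ _ i _ (hx (insert j ρ)).1
      rw [h5, Submodule.mem_bot] at h6
      simp only [h6, smul_zero, neg_zero]
    · rw [smul_smul, smul_smul, ← neg_smul]
      congr 1
      have a1 := sg_swap (k := k) hρ hj.2 h4
      have a2 := sg_sq (k := k) (ord := ord) i ρ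
      have a3 := sg_sq (k := k) (ord := ord) i (insert j ρ)
      linear_combination (sg k ord i ρ * sg k ord i (insert j ρ)) * a1 -
        (sg k ord j (insert i ρ) * sg k ord i (insert j ρ)) * a2 -
        (sg k ord i ρ * sg k ord j ρ) * a3
  rw [del_apply, ← hs _ (anti _ _ (Finset.empty_subset τ) (hx τ).1),
    ← Finset.sum_compl_add_sum τ, ← Finset.sum_congr rfl h1, Finset.sum_comm,
    ← Finset.sum_add_distrib]
  refine Finset.sum_congr rfl fun j hj => ?_
  rw [Finset.mem_compl] at hj
  rw [Finset.sum_insert hj, Finset.erase_insert hj, smul_add, smul_smul, sg_sq, one_smul,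
    Finset.smul_sum]

end RG
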