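import Pool.Agent.P.MP_8a106a_gt.HD1

/-! Gromov's rank lemma for towers of covers. -/

set_option autoImplicit false
set_option linter.unusedSectionVars false

noncomputable section

namespace RG

open HK3 Pool.Agent.P.MP_9699e0_gt Pool.Agent.P.MP_8a106a_gt Set Filter Topology

variable {k : Type} [Field k] {V : ℕ → Type} [∀ n, AddCommGroup (V n)] [∀ n, Module k (V n)]
  {I : Type} [Fintype I] [DecidableEq I] {d : ∀ n, V (n + 1) →ₗ[k] V n} {ord : I → ℕ}

theorem zc_d_HD2 (dd : ∀ n x, d n (d (n + 1) x) = 0) {K : ∀ n, Submodule k (V n)} {n : ℕ}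
    {y : V (n + 1)} (h : d n y ∈ K n) : d n y ∈ zc d K n := by
  cases n with
  | zero => exact h
  | succ n => exact ⟨h, dd n y⟩

theorem rk_DD_HD2 {A B : ∀ n, Finset I → Submodule k (V n)} {a c : ℕ}
    (h : ∀ σ : Finset I, σ.Nonempty → Rk (zc d (fun n => A n σ) a) (bc d (fun n => B n σ) a) c)
    (p : ℕ) :
    Rk (zc (fun n => (d n).compLeft (Finset I)) (fun n => DD (A n) (p + 1)) a)
      (bc (fun n => (d n).compLeft (Finset I)) (fun n => DD (B n) (p + 1)) a)
      (2 ^ Fintype.card I * c) := by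
  have h1 := Rk.pi (Z := fun σ : Finset I => if σ.card = p + 1 then zc d (fun n => A n σ) a else ⊥)
    (B := fun σ : Finset I => if σ.card = p + 1 then bc d (fun n => B n σ) a else ⊥) (c := c)
    fun σ => by
      split_ifs with hσ
      · exact h σ (Finset.card_pos.1 (by omega))
      · exact (rk_zero.2 le_rfl).mono le_sup_left le_rfl (Nat.zero_le c)
  refine h1.mono (le_sup_of_le_left fun x hx σ _ => ?_) (fun x hx => ?_)
    (by rw [Fintype.card_finset])
  · dsimp only
    split_ifs with hσ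
    · cases a with
      | zero => exact (hx σ).1
      | succ a => exact ⟨(hx.1 σ).1, congrFun hx.2 σ⟩
    · cases a with
      | zero => exact (hx σ).2 hσ
      | succ a => exact (hx.1 σ).2 hσ
  · have h2 : ∀ σ : Finset I, ∃ y : V (a + 1), (y ∈ B (a + 1) σ ∧ (σ.card ≠ p + 1 → y = 0)) ∧
        d a y = x σ := fun σ => by
      have h3 := hx σ trivial
      dsimp only at h3
      split_ifs at h3 with hσ
      · obtain ⟨y, hy, e⟩ := h3
        exact ⟨y, ⟨hy, fun h => absurd hσ h⟩, e⟩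
      · exact ⟨0, ⟨zero_mem _, fun _ => rfl⟩, by rw [map_zero]; exact Eq.symm h3⟩
    choose y hy e using h2
    exact ⟨y, hy, funext e⟩

theorem del_K_HD2 {A : ∀ n, Finset I → Submodule k (V n)} (hA : Sys d ord A) {n p : ℕ}
    {y : Finset I → V n} (hy : y ∈ DD (A n) (p + 1)) :
    del k ord (V n) y ∈ DD (A n) p ⊓ LinearMap.ker (del k ord (V n)) :=
  ⟨del_mem (hA.anti n) hy, del_del fun σ hσ => hA.inj n σ fun e =>
    hσ (by have h := (hy σ).1; rw [e] at h; exact h)⟩

theorem map_bc_HD2 {A : ∀ n, Finset I → Submodule k (V n)} (hA : Sys d ord A) (n p : ℕ) :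
    (bc (fun n => (d n).compLeft (Finset I)) (fun n => DD (A n) (p + 1)) n).map (del k ord (V n)) ≤
      bc (fun n => (d n).compLeft (Finset I))
        (fun n => DD (A n) p ⊓ LinearMap.ker (del k ord (V n))) n := by
  rintro _ ⟨_, ⟨y, hy, rfl⟩, rfl⟩
  exact ⟨_, del_K_HD2 hA hy, (del_comp (d n) y).symm⟩

theorem aux_HD2 (dd : ∀ n x, d n (d (n + 1) x) = 0) (A : ℕ → ∀ n, Finset I → Submodule k (V n))
    (hA : ∀ j, Sys d ord (A j)) (mono : ∀ j n σ, A j n σ ≤ A (j + 1) n σ) {a₀ c : ℕ}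
    (h : ∀ j ≤ a₀, ∀ a ≤ a₀, ∀ σ : Finset I, σ.Nonempty →
      Rk (zc d (fun n => A j n σ) a) (bc d (fun n => A (j + 1) n σ) a) c) (a : ℕ) :
    ∀ p j : ℕ, j + a ≤ a₀ →
      Rk (zc (fun n => (d n).compLeft (Finset I))
          (fun n => DD (A j n) p ⊓ LinearMap.ker (del k ord (V n))) a)
        (bc (fun n => (d n).compLeft (Finset I))
          (fun n => DD (A (j + a + 1) n) p ⊓ LinearMap.ker (del k ord (V n))) a)
        ((a + 1) * (2 ^ Fintype.card I * c)) := by
  induction a with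
  | zero =>
    intro p j hj
    refine ((rk_DD_HD2 (h j hj 0 (Nat.zero_le _)) p).map (del k ord (V 0))).mono
      (le_sup_of_le_left fun x hx => ?_) (map_bc_HD2 (hA (j + 1)) 0 p) (by omega)
    exact (hA j).exact 0 p x hx.1 hx.2
  | succ a ih =>
    intro p j hj
    have hm : ∀ n σ, Monotone fun j => A j n σ := fun n σ =>
      monotone_nat_of_le_succ fun j => mono j n σ
    have h1 := (ih (p + 1) j (by omega)).corr (del k ord (V (a + 1))) ((d a).compLeft (Finset I))
      (DD (A j (a + 1)) (p + 1) ⊓ LinearMap.ker ((d a).compLeft (Finset I) ∘ₗ del k ord (V (a + 1))))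
      (Z := zc (fun n => (d n).compLeft (Finset I))
        (fun n => DD (A j n) p ⊓ LinearMap.ker (del k ord (V n))) (a + 1))
      (fun x hx => by
        obtain ⟨y, hy, rfl⟩ := (hA j).exact (a + 1) p x hx.1.1 hx.1.2
        exact ⟨y, ⟨hy, hx.2⟩, rfl⟩)
      (by
        rintro _ ⟨y, hy, rfl⟩
        refine zc_d_HD2 (V := fun n => Finset I → V n) (d := fun n => (d n).compLeft (Finset I))
          (K := fun n => DD (A j n) (p + 1) ⊓ LinearMap.ker (del k ord (V n))) (n := a) (y := y)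
          (fun n x => funext fun σ => dd n (x σ)) ⟨fun σ => ⟨(hA j).cx a σ _ (hy.1 σ).1,
            fun hσ => ?_⟩, (del_comp (d a) y).trans hy.2⟩
        change d a (y σ) = 0
        rw [(hy.1 σ).2 hσ, map_zero])
    have h2 := (rk_DD_HD2 (h (j + a + 1) (by omega) (a + 1) (by omega)) p).map (del k ord (V (a + 1)))
    refine ((h1.mono le_sup_left ?_ le_rfl).trans h2).mono le_sup_left
      (map_bc_HD2 (hA (j + a + 1 + 1)) (a + 1) p) (le_of_eq (by ring))
    rintro _ ⟨y, ⟨hy, w, hw, e⟩, rfl⟩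
    refine ⟨y - w, ⟨sub_mem (fun σ => ⟨hm (a + 1) σ (by omega) (hy.1 σ).1, (hy.1 σ).2⟩) hw.1, ?_⟩, ?_⟩
    · exact (map_sub _ _ _).trans (sub_eq_zero.2 (Eq.symm e))
    · rw [map_sub, LinearMap.mem_ker.1 hw.2, sub_zero]

/-- Work in the complex `Finset I → V n` with differential ` (d n).compLeft _`. Put
`K j p n = DD (A j n) p ⊓ ker del`. Prove by induction on `a`, for all `p`, `j` with `j + a ≤ a₀`,
that `zc (K j p) a` has rank at most ` (a + 1) * (2 ^ card I * c)` modulo `bc (K (j + a + 1) p) a`: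
use the exact sequences `K j (p + 1) → DD (A j) (p + 1) → K j p`, `Rk.corr` for the connecting
map, `Rk.pi`, `Rk.map`, `Rk.trans`. For `p = 0` evaluate at `∅`. -/
theorem sys_rank (dd : ∀ n x, d n (d (n + 1) x) = 0) (A : ℕ → ∀ n, Finset I → Submodule k (V n))
    (hA : ∀ j, Sys d ord (A j)) (mono : ∀ j n σ, A j n σ ≤ A (j + 1) n σ) {a₀ c : ℕ}
    (h : ∀ j ≤ a₀, ∀ a ≤ a₀, ∀ σ : Finset I, σ.Nonempty →
      Rk (zc d (fun n => A j n σ) a) (bc d (fun n => A (j + 1) n σ) a) c) {a : ℕ} (ha : a ≤ a₀) :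
    Rk (zc d (fun n => A 0 n ∅) a) (bc d (fun n => A (a + 1) n ∅) a)
      ((a + 1) * (2 ^ Fintype.card I * c)) := by
  have h1 := aux_HD2 dd A hA mono h a 0 0 (by omega)
  have h2 : ∀ n, ∀ z ∈ A 0 n ∅, LinearMap.single k (fun _ : Finset I => V n) ∅ z ∈
      DD (A 0 n) 0 ⊓ LinearMap.ker (del k ord (V n)) := fun n z hz => by
    have h3 : LinearMap.single k (fun _ : Finset I => V n) ∅ z ∈ DD (A 0 n) 0 := fun σ => by
      rcases eq_or_ne σ ∅ with rfl | hσ
      · simpa using hz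
      · simp [Pi.single_eq_of_ne hσ]
    exact ⟨h3, del_zero h3⟩
  refine h1.comap (LinearMap.single k (fun _ : Finset I => V a) ∅) (fun z hz => ?_) fun z _ hz => ?_
  · cases a with
    | zero => exact h2 0 z hz
    | succ a =>
      refine ⟨h2 _ z hz.1, funext fun σ => ?_⟩
      change d a (Pi.single (M := fun _ : Finset I => V (a + 1)) ∅ z σ) = 0
      rcases eq_or_ne σ ∅ with rfl | hσ
      · rw [Pi.single_eq_same]
        exact hz.2
      · rw [Pi.single_eq_of_ne hσ, map_zero]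
  · obtain ⟨y, hy, e⟩ := hz
    rw [zero_add] at hy
    exact ⟨y ∅, (hy.1 ∅).1, (congrFun e ∅).trans
      (Pi.single_eq_same (M := fun _ : Finset I => V a) ∅ z)⟩

end RG
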