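import Pool.Agent.P.MP_8a106a_gt.Defs
import Pool.Agent.P.MP_8a106a_gt.EDefs
import Pool.Agent.P.MP_9699e0_gt.MvA
import Pool.Agent.P.MP_9699e0_gt.CvA

/-! Definitions for the homological part. -/

set_option autoImplicit false

noncomputable section

namespace RG

open HK3 Pool.Agent.P.MP_9699e0_gt Pool.Agent.P.MP_8a106a_gt Set Filter Topology

/-- The image of `Z` modulo `B` has rank at most `r`. -/
def Rk {k W : Type} [Field k] [AddCommGroup W] [Module k W] (Z B : Submodule k W) (r : ℕ) : Prop :=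
  Module.rank k (Z.map B.mkQ) ≤ r

section

variable {k : Type} [Field k] {V : ℕ → Type} [∀ n, AddCommGroup (V n)] [∀ n, Module k (V n)]

/-- Cycles of the family `K`. -/
def zc (d : ∀ n, V (n + 1) →ₗ[k] V n) (K : ∀ n, Submodule k (V n)) : ∀ n, Submodule k (V n)
  | 0 => K 0
  | n + 1 => K (n + 1) ⊓ LinearMap.ker (d n)

/-- Boundaries of the family `K`. -/
def bc (d : ∀ n, V (n + 1) →ₗ[k] V n) (K : ∀ n, Submodule k (V n)) (n : ℕ) : Submodule k (V n) :=
  (K (n + 1)).map (d n)

variable {I : Type} [Fintype I] [DecidableEq I]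

variable (k) in
/-- The sign of the position of `i` in `τ`. -/
def sg (ord : I → ℕ) (i : I) (τ : Finset I) : k := (-1) ^ (τ.filter fun j => ord j < ord i).card

variable (k) in
/-- The boundary of the nerve, with coefficients in `W`. -/
def del (ord : I → ℕ) (W : Type) [AddCommGroup W] [Module k W] :
    (Finset I → W) →ₗ[k] (Finset I → W) where
  toFun x τ := ∑ i ∈ τᶜ, sg k ord i τ • x (insert i τ)
  map_add' x y := by ext τ; simp [Finset.sum_add_distrib]
  map_smul' c x := by ext τ; simp [Finset.smul_sum, smul_comm c]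

/-- Families supported on sets with `p` elements, with values in `A`. -/
def DD {W : Type} [AddCommGroup W] [Module k W] (A : Finset I → Submodule k W) (p : ℕ) :
    Submodule k (Finset I → W) where
  carrier := {x | ∀ σ, x σ ∈ A σ ∧ (σ.card ≠ p → x σ = 0)}
  add_mem' hx hy σ := ⟨add_mem (hx σ).1 (hy σ).1, fun h => by simp [(hx σ).2 h, (hy σ).2 h]⟩
  zero_mem' σ := ⟨zero_mem _, fun _ => rfl⟩
  smul_mem' c x hx σ := ⟨Submodule.smul_mem _ c (hx σ).1, fun h => by simp [(hx σ).2 h]⟩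

/-- A system of subcomplexes indexed by finite sets, with exact rows. -/
structure Sys (d : ∀ n, V (n + 1) →ₗ[k] V n) (ord : I → ℕ)
    (A : ∀ n, Finset I → Submodule k (V n)) : Prop where
  cx : ∀ n σ, ∀ c ∈ A (n + 1) σ, d n c ∈ A n σ
  anti : ∀ n σ τ, σ ⊆ τ → A n τ ≤ A n σ
  inj : ∀ n σ, A n σ ≠ ⊥ → InjOn ord σ
  exact : ∀ n p, ∀ x ∈ DD (A n) p, del k ord (V n) x = 0 →
    ∃ y ∈ DD (A n) (p + 1), del k ord (V n) y = x

variable (k) in
open Classical in
/-- Chains of the augmented nerve: functions on the sets in `Nv` with `p` elements. -/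
def NC (Nv : Finset I → Prop) (p : ℕ) : Submodule k (Finset I → k) :=
  DD (fun σ => if σ = ∅ ∨ Nv σ then ⊤ else ⊥) p

end

section

variable (k : Type) [Field k] {X : Type} [TopologicalSpace X]

/-- Chains of simplices that lie in some `U i` and in all `U i` with `i ∈ σ`. -/
def cov {I : Type} (U : I → Set X) (n : ℕ) (σ : Finset I) : Submodule k (Chn k X n) :=
  sml k (fun _ s => (∃ i, range s ⊆ U i) ∧ ∀ i ∈ σ, range s ⊆ U i) n

/-- Reduced cycles. -/
def rcy (S : Set X) : ∀ n, Submodule k (Chn k X n)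
  | 0 => chn k S 0 ⊓ LinearMap.ker (aug k)
  | n + 1 => cyc k S (n + 1)

/-- A nonempty acyclic set. -/
def Acy (S : Set X) : Prop := S.Nonempty ∧ ∀ n, rcy k S n ≤ bdy k S n

/-- Chains that are trivial in the homology of `X` modulo the complement of `K`. -/
def Triv (K : Set X) (n : ℕ) : Submodule k (Chn k X n) := bdy k univ n ⊔ chn k Kᶜ n

/-- The statement proved for all compact subsets of a five-manifold. -/
structure Good (K : Set X) : Prop where
  high : ∀ n, 5 ≤ n → ∀ ζ : Chn k X (n + 1), bd k X n ζ ∈ chn k Kᶜ n → ζ ∈ Triv k K (n + 1)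
  inj : ∀ ζ : Chn k X 5, bd k X 4 ζ ∈ chn k Kᶜ 4 → (∀ x ∈ K, ζ ∈ Triv k {x} 5) → ζ ∈ Triv k K 5

end

/-- A topological five-manifold. -/
def Loc5 (X : Type) [TopologicalSpace X] : Prop :=
  ∀ x : X, ∃ e : OpenPartialHomeomorph X (Euc 5), x ∈ e.source

/-- A compact set that is convex in a chart. -/
def Cvx {X : Type} [TopologicalSpace X] (K : Set X) : Prop :=
  ∃ (e : OpenPartialHomeomorph X (Euc 5)) (K' : Set (Euc 5)), IsCompact K' ∧ Convex ℝ K' ∧
    K' ⊆ e.target ∧ K = e.symm '' K'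

/-- A finite invariant good cover. -/
structure GC (Γ X : Type) [Group Γ] [TopologicalSpace X] where
  I : Type
  [fin : Fintype I]
  [dec : DecidableEq I]
  [act : MulAction Γ I]
  ord : I → ℕ
  W : I → Set X
  opn : ∀ i, IsOpen (W i)
  cover : ∀ x, ∃ i, x ∈ W i
  free : ∀ (g : Γ) (i : I), g • i = i → g = 1
  ord_smul : ∀ (g : Γ) (i : I), ord (g • i) = ord i
  inj : ∀ i j, (W i ∩ W j).Nonempty → ord i = ord j → i = j
  inv : ∀ (g : Γ) (σ : Finset I), (⋂ i ∈ σ, W i).Nonempty → (⋂ i ∈ σ, W (g • i)).Nonempty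
  good : ∀ σ : Finset I, σ.Nonempty → (⋂ i ∈ σ, W i).Nonempty →
    ContractibleSpace ↥(⋂ i ∈ σ, W i)

attribute [instance] GC.fin GC.dec GC.act

end RG
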