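import Pool.Agent.P.MP_8a106a_gt.HL2

/-! All compact sets are good. -/

set_option autoImplicit false
set_option linter.unusedSectionVars false

noncomputable section

namespace RG

open HK3 Pool.Agent.P.MP_9699e0_gt Pool.Agent.P.MP_8a106a_gt Set Filter Topology

variable {k : Type} [Field k] {X : Type} [TopologicalSpace X] [T2Space X]

theorem good_empty_HG : Good k (∅ : Set X) := by
  have h : ∀ n, Triv k (∅ : Set X) n = ⊤ := fun n => by
    rw [Triv, compl_empty, chn_univ, sup_top_eq]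
  exact ⟨fun n _ ζ _ => h _ ▸ Submodule.mem_top, fun ζ _ _ => h _ ▸ Submodule.mem_top⟩

theorem loc_nhds_HG {x : X} {n : ℕ} {ζ : Chn k X n} (h : ζ ∈ Triv k {x} n) :
    {y | ζ ∈ Triv k {y} n} ∈ 𝓝 x := by
  obtain ⟨b, hb, c, hc, rfl⟩ := Submodule.mem_sup.1 h
  obtain ⟨C, hC, hCx, hc'⟩ := exists_compact hc
  filter_upwards [hC.isClosed.isOpen_compl.mem_nhds fun hx => hCx hx rfl] with y hy
  exact Submodule.add_mem_sup hb (chn_mono (subset_compl_singleton_iff.2 hy) n hc')

theorem good_finite_HG (hX : Loc5 X) (e : OpenPartialHomeomorph X (Euc 5))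
    (l : List (Set (Euc 5))) (hl : ∀ K ∈ l, K ⊆ e.target ∧ IsCompact K ∧ Convex ℝ K) :
    Good k (e.symm '' ⋃ K ∈ l, K) := by
  have hf : ContinuousOn e.symm e.target := e.continuousOn_symm
  have hi : InjOn e.symm e.target := e.symm.injOn
  obtain ⟨n, hn⟩ : ∃ n, l.length = n := ⟨_, rfl⟩
  induction n generalizing l with
  | zero =>
    obtain rfl := List.eq_nil_of_length_eq_zero hn
    simpa using good_empty_HG
  | succ n ih =>
    obtain ⟨K, l', rfl⟩ := List.exists_cons_of_length_eq_add_one hn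
    have hn' : l'.length = n := by simpa using hn
    have hK := hl K List.mem_cons_self
    have hl' : ∀ L ∈ l', L ⊆ e.target ∧ IsCompact L ∧ Convex ℝ L :=
      fun L hL => hl L (List.mem_cons_of_mem _ hL)
    have hU : (⋃ L ∈ l', L) ⊆ e.target := iUnion₂_subset fun L hL => (hl' L hL).1
    have hUc : IsCompact (⋃ L ∈ l', L) :=
      l'.finite_toSet.isCompact_biUnion fun L hL => (hl' L hL).2.1
    have e1 : (⋃ L ∈ K :: l', L) = K ∪ ⋃ L ∈ l', L := by
      ext x; simp
    have e2 : K ∩ (⋃ L ∈ l', L) = ⋃ L ∈ l'.map (K ∩ ·), L := by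
      ext x
      simp only [mem_inter_iff, mem_iUnion, List.mem_map, exists_prop]
      constructor
      · rintro ⟨hx, L, hL, hxL⟩
        exact ⟨_, ⟨L, hL, rfl⟩, hx, hxL⟩
      · rintro ⟨_, ⟨L, hL, rfl⟩, hx, hxL⟩
        exact ⟨hx, L, hL, hxL⟩
    rw [e1, image_union]
    refine Good.union (hK.2.1.image_of_continuousOn (hf.mono hK.1)).isClosed
      (hUc.image_of_continuousOn (hf.mono hU)).isClosed
      (Cvx.good hX ⟨e, K, hK.2.1, hK.2.2, hK.1, rfl⟩) (ih l' hl' hn') ?_
    rw [← hi.image_inter hK.1 hU, e2]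
    refine ih _ (fun L hL => ?_) (by simpa using hn')
    obtain ⟨L', hL', rfl⟩ := List.mem_map.1 hL
    exact ⟨inter_subset_left.trans hK.1, hK.2.1.inter (hl' L' hL').2.1,
      hK.2.2.inter (hl' L' hL').2.2⟩

theorem cover_HG (hX : Loc5 X) (e : OpenPartialHomeomorph X (Euc 5)) {K : Set (Euc 5)}
    (hKV : K ⊆ e.target) (hK : IsCompact K) {N : Set X} (hN : ∀ x ∈ e.symm '' K, N ∈ 𝓝 x) :
    ∃ U, e.symm '' K ⊆ U ∧ U ⊆ N ∧ Good k U := by
  have hf : ContinuousOn e.symm e.target := e.continuousOn_symm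
  have hV := e.open_target
  have h1 : ∀ a ∈ K, ∃ r, 0 < r ∧ Metric.closedBall a r ⊆ e.target ∩ e.symm ⁻¹' N := fun a ha =>
    Metric.nhds_basis_closedBall.mem_iff.1 (inter_mem (hV.mem_nhds (hKV ha))
      (hf.continuousAt (hV.mem_nhds (hKV ha)) (hN _ (mem_image_of_mem _ ha))))
  choose! r hr0 hr using h1
  obtain ⟨t, ht, hcov⟩ := hK.elim_nhds_subcover (fun a => Metric.closedBall a (r a))
    fun a ha => Metric.closedBall_mem_nhds a (hr0 a ha)
  refine ⟨_, image_mono fun x hx => ?_, ?_, good_finite_HG hX e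
    (t.toList.map fun a => Metric.closedBall a (r a)) fun L hL => ?_⟩
  · obtain ⟨a, ha, hxa⟩ := mem_iUnion₂.1 (hcov hx)
    exact mem_iUnion₂.2 ⟨_, List.mem_map.2 ⟨a, Finset.mem_toList.2 ha, rfl⟩, hxa⟩
  · rintro _ ⟨x, hx, rfl⟩
    obtain ⟨L, hL, hxL⟩ := mem_iUnion₂.1 hx
    obtain ⟨a, ha, rfl⟩ := List.mem_map.1 hL
    exact (hr a (ht a (Finset.mem_toList.1 ha)) hxL).2
  · obtain ⟨a, ha, rfl⟩ := List.mem_map.1 hL
    exact ⟨(hr a (ht a (Finset.mem_toList.1 ha))).trans inter_subset_left,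
      isCompact_closedBall _ _, convex_closedBall _ _⟩

theorem good_chart_HG (hX : Loc5 X) (e : OpenPartialHomeomorph X (Euc 5)) {K : Set (Euc 5)}
    (hKV : K ⊆ e.target) (hK : IsCompact K) : Good k (e.symm '' K) := by
  refine ⟨fun n hn ζ hζ => ?_, fun ζ hζ h0 => ?_⟩
  · obtain ⟨C, hC, hCK, hc⟩ := exists_compact hζ
    obtain ⟨U, hKU, hUN, hU⟩ := cover_HG (k := k) hX e hKV hK (N := Cᶜ) fun x hx =>
      hC.isClosed.isOpen_compl.mem_nhds fun h => hCK h hx
    exact Triv.anti hKU _ (hU.high n hn ζ (chn_mono (subset_compl_comm.1 hUN) n hc))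
  · obtain ⟨C, hC, hCK, hc⟩ := exists_compact hζ
    obtain ⟨U, hKU, hUN, hU⟩ := cover_HG (k := k) hX e hKV hK
      (N := Cᶜ ∩ {y | ζ ∈ Triv k {y} 5})
      fun x hx => inter_mem (hC.isClosed.isOpen_compl.mem_nhds fun h => hCK h hx)
        (loc_nhds_HG (h0 x hx))
    exact Triv.anti hKU _
      (hU.inj ζ (chn_mono (subset_compl_comm.1 (hUN.trans inter_subset_left)) 4 hc)
        fun x hx => (hUN hx).2)

/-- A compact set in a chart is squeezed, for a given chain, into a finite union of small closed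
balls; a general compact set is a finite union of compact sets in charts. -/
theorem good_compact (hX : Loc5 X) {K : Set X} (hK : IsCompact K) : Good k K := by
  have key : ∃ T, IsClosed T ∧ K ⊆ T ∧ ∀ L, IsCompact L → L ⊆ T → Good k L := by
    refine hK.induction_on (p := fun S => ∃ T, IsClosed T ∧ S ⊆ T ∧
      ∀ L, IsCompact L → L ⊆ T → Good k L) ?_ ?_ ?_ ?_
    · refine ⟨∅, isClosed_empty, Subset.rfl, fun L _ hL => ?_⟩
      rw [subset_empty_iff.1 hL]
      exact good_empty_HG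
    · rintro s t hst ⟨T, h1, h2, h3⟩
      exact ⟨T, h1, hst.trans h2, h3⟩
    · rintro s t ⟨T, h1, h2, h3⟩ ⟨T', h1', h2', h3'⟩
      refine ⟨T ∪ T', h1.union h1', union_subset_union h2 h2', fun L hL hLT => ?_⟩
      have e : L = L ∩ T ∪ L ∩ T' := by
        rw [← inter_union_distrib_left, inter_eq_left.2 hLT]
      have c1 := hL.inter_right h1
      have c2 := hL.inter_right h1'
      rw [e]
      exact Good.union c1.isClosed c2.isClosed (h3 _ c1 inter_subset_right)
        (h3' _ c2 inter_subset_right)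
        (h3 _ (c1.inter c2) (inter_subset_left.trans inter_subset_right))
    · intro x _
      obtain ⟨T, hT, -, hTx⟩ := exists_cvx hX (univ_mem (f := 𝓝 x))
      refine ⟨T, mem_nhdsWithin_of_mem_nhds hTx, T, hT.compact.isClosed, Subset.rfl,
        fun L hL hLT => ?_⟩
      obtain ⟨e, K', h1, -, h3, rfl⟩ := hT
      have e1 : L = e.symm '' (K' ∩ e.symm ⁻¹' L) := by
        rw [image_inter_preimage, inter_eq_right.2 hLT]
      rw [e1]
      exact good_chart_HG hX e (inter_subset_left.trans h3)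
        (h1.of_isClosed_subset ((e.continuousOn_symm.mono h3).preimage_isClosed_of_isClosed
          h1.isClosed hL.isClosed) inter_subset_left)
  obtain ⟨T, -, h1, h2⟩ := key
  exact h2 K hK h1

end RG
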