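import Pool.Agent.P.MP_8a106a_gt.HP

/-! Local homology of Euclidean space. -/

set_option autoImplicit false
set_option linter.unusedSectionVars false

noncomputable section

namespace RG

open HK3 Pool.Agent.P.MP_9699e0_gt Pool.Agent.P.MP_8a106a_gt Set Filter Topology

variable {k : Type} [Field k]

theorem sup_HL1 {Y Z : Type} [TopologicalSpace Y] [TopologicalSpace Z]
    {f : Y → Z} {S T : Set Y} {T' : Set Z} (hf : ContinuousOn f S) (hTS : T ⊆ S)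
    (hT : MapsTo f T T') {n : ℕ} {c : Chn k Y n} (h : c ∈ bdy k S n ⊔ chn k T n) :
    cmap k f n c ∈ bdy k univ n ⊔ chn k T' n := by
  obtain ⟨u, hu, v, hv, rfl⟩ := Submodule.mem_sup.1 h
  rw [map_add]
  exact Submodule.add_mem_sup (cmap_bdy hf (mapsTo_univ _ _) hu) (cmap_mem (hf.mono hTS) hT hv)

theorem top_HL1 {Y : Type} [TopologicalSpace Y] {n : ℕ} (c : Chn k Y n) :
    c ∈ chn k (univ : Set Y) n := by
  rw [chn_univ]
  exact Submodule.mem_top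

theorem far_HL1 {a : Euc 5} {n : ℕ} {c : Chn k (Euc 5) n} (h : c ∈ chn k {a}ᶜ n) :
    ∃ δ : ℝ, 0 < δ ∧ c ∈ chn k {p | δ ≤ ‖p - a‖} n := by
  obtain ⟨C, hC, hCa, hc⟩ := exists_compact h
  obtain ⟨δ, hδ, hb⟩ := Metric.isOpen_iff.1 hC.isClosed.isOpen_compl a fun ha => hCa ha rfl
  refine ⟨δ, hδ, chn_mono (fun p hp => ?_) n hc⟩
  by_contra hlt
  exact hb (mem_ball_iff_norm.2 (not_le.1 hlt)) hp

theorem out_HL1 {K : Set (Euc 5)} {a : Euc 5} {r δ : ℝ} (hr0 : 0 < r) (hδ : 0 < δ)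
    (hr : K ⊆ Metric.closedBall a r) :
    MapsTo (fun x : Euc 5 => a + (1 + 1 * (r / δ)) • (x - a)) {p | δ ≤ ‖p - a‖} Kᶜ := by
  intro p hp hK'
  have hμ : 0 < r / δ := div_pos hr0 hδ
  have h3 := mem_closedBall_iff_norm.1 (hr hK')
  simp only [add_sub_cancel_left, one_mul, norm_smul] at h3
  rw [Real.norm_of_nonneg (by positivity)] at h3
  have h4 : (1 + r / δ) * δ ≤ (1 + r / δ) * ‖p - a‖ :=
    mul_le_mul_of_nonneg_left hp (by positivity)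
  have h5 : (1 + r / δ) * δ = δ + r := by field_simp
  linarith

theorem triv_HL1 {a : Euc 5} {n : ℕ} {ξ : Chn k (Euc 5) (n + 1)}
    (h : bd k _ n ξ ∈ bdy k {a}ᶜ n) : ξ ∈ Triv k {a} (n + 1) := by
  obtain ⟨η, hη, e⟩ := h
  have h1 : ξ - η ∈ cyc k (univ : Set (Euc 5)) (n + 1) :=
    ⟨top_HL1 _, by rw [SetLike.mem_coe, LinearMap.mem_ker, map_sub, e, sub_self]⟩
  rw [← sub_add_cancel ξ η]
  exact Submodule.add_mem_sup (cyc_le_of_star (starConvex_univ a) n h1) hη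

/-- Port of `HK3.rel_convex` (Fc3). -/
theorem rel_inj {K : Set (Euc 5)} (hK : IsCompact K) (hc : Convex ℝ K) {a : Euc 5} (ha : a ∈ K)
    {n : ℕ} {ξ : Chn k (Euc 5) (n + 1)} (hb : bd k _ n ξ ∈ chn k Kᶜ n)
    (h : ξ ∈ Triv k {a} (n + 1)) : ξ ∈ Triv k K (n + 1) := by
  obtain ⟨u, hu, t, ht, hξ⟩ := Submodule.mem_sup.1 h
  obtain ⟨δ, hδ, ht'⟩ := far_HL1 ht
  obtain ⟨r, hr0, hr⟩ := hK.isBounded.subset_closedBall_lt 0 a
  have hμ : 0 < r / δ := div_pos hr0 hδ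
  obtain ⟨H, hH⟩ : ∃ H : ℝ → Euc 5 → Euc 5, H = fun s x => a + (1 + s * (r / δ)) • (x - a) :=
    ⟨_, rfl⟩
  have hcont : Continuous fun p : ℝ × Euc 5 => H p.1 p.2 := by
    rw [hH]; fun_prop
  have hcont1 : Continuous (H 1) := by
    rw [hH]; fun_prop
  have h1 := htpy_rel H (S := univ) (T := Kᶜ) (S' := univ) (T' := Kᶜ) hcont.continuousOn
    (fun _ _ _ _ => mem_univ _) (fun s hs x hx hK' => hx.2 ?_) (top_HL1 ξ) hb
  · have e0 : H 0 = id := by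
      rw [hH]; funext x; simp
    rw [e0, cmap_id] at h1
    have h2 : cmap k (H 1) (n + 1) ξ ∈ bdy k univ (n + 1) ⊔ chn k Kᶜ (n + 1) :=
      sup_HL1 (T := {p | δ ≤ ‖p - a‖}) (T' := Kᶜ) hcont1.continuousOn (subset_univ _)
        (hH ▸ out_HL1 hr0 hδ hr) (hξ ▸ Submodule.add_mem_sup hu ht')
    have := Submodule.sub_mem _ h2 h1
    rwa [sub_sub_cancel] at this
  · have hl : 1 ≤ 1 + s * (r / δ) := le_add_of_nonneg_right (mul_nonneg hs.1 hμ.le)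
    have hl0 : 0 < 1 + s * (r / δ) := zero_lt_one.trans_le hl
    have := hc.add_smul_sub_mem ha hK' (t := (1 + s * (r / δ))⁻¹)
      ⟨inv_nonneg.2 hl0.le, inv_le_one_of_one_le₀ hl⟩
    rw [hH] at this
    simp only [add_sub_cancel_left, smul_smul, inv_mul_cancel₀ hl0.ne', one_smul,
      add_sub_cancel] at this
    exact this

/-- Apply a large homothety with centre `a` (`htpy_rel`). -/
theorem rel_surj {K : Set (Euc 5)} (hK : IsCompact K) {a : Euc 5} {n : ℕ}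
    {ξ : Chn k (Euc 5) (n + 1)} (hb : bd k _ n ξ ∈ chn k {a}ᶜ n) :
    ∃ ξ' : Chn k (Euc 5) (n + 1), bd k _ n ξ' ∈ chn k Kᶜ n ∧ ξ - ξ' ∈ Triv k {a} (n + 1) := by
  obtain ⟨δ, hδ, ht'⟩ := far_HL1 hb
  obtain ⟨r, hr0, hr⟩ := hK.isBounded.subset_closedBall_lt 0 a
  have hμ : 0 < r / δ := div_pos hr0 hδ
  obtain ⟨H, hH⟩ : ∃ H : ℝ → Euc 5 → Euc 5, H = fun s x => a + (1 + s * (r / δ)) • (x - a) :=
    ⟨_, rfl⟩
  have hcont : Continuous fun p : ℝ × Euc 5 => H p.1 p.2 := by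
    rw [hH]; fun_prop
  have hcont1 : Continuous (H 1) := by
    rw [hH]; fun_prop
  have h1 := htpy_rel H (S := univ) (T := {a}ᶜ) (S' := univ) (T' := {a}ᶜ) hcont.continuousOn
    (fun _ _ _ _ => mem_univ _) (fun s hs x hx hK' => hx.2 ?_) (top_HL1 ξ) hb
  · have e0 : H 0 = id := by
      rw [hH]; funext x; simp
    rw [e0, cmap_id] at h1
    refine ⟨cmap k (H 1) (n + 1) ξ, ?_, ?_⟩
    · rw [cmap_bd hcont1.continuousOn (top_HL1 ξ)]
      exact cmap_mem hcont1.continuousOn (hH ▸ out_HL1 hr0 hδ hr) ht'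
    · have := Submodule.neg_mem _ h1
      rwa [neg_sub] at this
  · have hl0 : 0 < 1 + s * (r / δ) := add_pos_of_pos_of_nonneg zero_lt_one (mul_nonneg hs.1 hμ.le)
    rw [hH] at hK'
    have h2 : (1 + s * (r / δ)) • (x - a) = 0 := add_eq_left.1 hK'
    exact sub_eq_zero.1 ((smul_eq_zero.1 h2).resolve_left hl0.ne')

theorem rel_van {a : Euc 5} {n : ℕ} (h1 : 1 ≤ n) (h4 : n ≠ 4) {ξ : Chn k (Euc 5) (n + 1)}
    (hb : bd k _ n ξ ∈ chn k {a}ᶜ n) : ξ ∈ Triv k {a} (n + 1) := by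
  obtain ⟨n, rfl⟩ : ∃ m, n = m + 1 := ⟨n - 1, by omega⟩
  have h := punct (k := k) 4 (Euc 5) (by simp) a (n + 1)
  rw [if_neg h4, rk_zero] at h
  exact triv_HL1 (h ⟨hb, bd_bd n ξ⟩)

theorem rel_rank (a : Euc 5) :
    Rk ((chn k {a}ᶜ 4).comap (bd k (Euc 5) 4)) (Triv k {a} 5) 1 := by
  have h := punct (k := k) 4 (Euc 5) (by simp) a 4
  rw [if_pos rfl] at h
  exact h.comap (bd k (Euc 5) 4) (fun z hz => ⟨hz, bd_bd 3 z⟩) fun z _ hz => triv_HL1 hz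

variable {X : Type} [TopologicalSpace X] [T2Space X] (e : OpenPartialHomeomorph X (Euc 5))

theorem emb_symm : Emb e.symm e.target :=
  ⟨e.continuousOn_symm, e, e.symm_image_target_eq_source ▸ e.continuousOn,
    fun _ hx => e.right_inv hx⟩

theorem open_HL1 : IsOpen (e.symm '' e.target) := e.symm_image_target_eq_source ▸ e.open_source

theorem maps_HL1 {K : Set (Euc 5)} (hKV : K ⊆ e.target) :
    MapsTo e.symm (e.target ∩ Kᶜ) (e.symm '' K)ᶜ := by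
  rintro p hp ⟨q, hq, h⟩
  exact hp.2 ((emb_symm e).injOn (hKV hq) hp.1 h ▸ hq)

/-- Port of `HK3.Fc3_rep`. -/
theorem chart_rep {K : Set (Euc 5)} (hK : IsCompact K) (hKV : K ⊆ e.target) {n : ℕ}
    {ζ : Chn k X (n + 1)} (hζ : bd k X n ζ ∈ chn k (e.symm '' K)ᶜ n) :
    ∃ ξ ∈ chn k e.target (n + 1), bd k _ n ξ ∈ chn k Kᶜ n ∧
      ζ - cmap k e.symm (n + 1) ξ ∈ Triv k (e.symm '' K) (n + 1) := by
  have he := emb_symm e
  obtain ⟨ξ', h1, h2, h3⟩ := exc_surj (hK.image_of_continuousOn (he.1.mono hKV)).isClosed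
    (open_HL1 e) (image_mono hKV) hζ
  obtain ⟨ξ, hξ, rfl⟩ := he.exists_chn h1
  rw [cmap_bd he.1 hξ] at h2
  exact ⟨ξ, hξ, he.mem_chn (T' := (e.symm '' K)ᶜ) (bd_mem hξ)
    (fun p _ hp hK' => hp (mem_image_of_mem _ hK')) h2, h3⟩

/-- Port of `HK3.Fc3_push`. -/
theorem chart_push {K : Set (Euc 5)} (hK : IsCompact K) (hKV : K ⊆ e.target) {n : ℕ}
    {ξ : Chn k (Euc 5) n} (hξ : ξ ∈ chn k e.target n) (h : ξ ∈ Triv k K n) :
    cmap k e.symm n ξ ∈ Triv k (e.symm '' K) n :=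
  sup_HL1 e.continuousOn_symm inter_subset_left (maps_HL1 e hKV)
    (exc_inj hK.isClosed e.open_target hKV hξ h)

/-- Port of `HK3.fc1_pull`. -/
theorem chart_pull {K : Set (Euc 5)} (hK : IsCompact K) (hKV : K ⊆ e.target) {n : ℕ}
    {ξ : Chn k (Euc 5) n} (hξ : ξ ∈ chn k e.target n)
    (h : cmap k e.symm n ξ ∈ Triv k (e.symm '' K) n) : ξ ∈ Triv k K n := by
  have hf := emb_symm e
  have h1 := exc_inj (hK.image_of_continuousOn (hf.1.mono hKV)).isClosed (open_HL1 e)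
    (image_mono hKV) (cmap_mem hf.1 (mapsTo_image e.symm e.target) hξ) h
  obtain ⟨u, hu, v, hv, e'⟩ := Submodule.mem_sup.1 h1
  obtain ⟨v', hv', rfl⟩ := hf.exists_chn (chn_mono inter_subset_left n hv)
  have h2 : v' ∈ chn k Kᶜ n :=
    hf.mem_chn hv' (fun y _ hy hK' => hy.2 (mem_image_of_mem _ hK')) hv
  have h3 : ξ - v' ∈ bdy k e.target n := by
    refine hf.mem_bdy (sub_mem hξ hv') ?_
    rw [map_sub, ← e', add_sub_cancel_right]
    exact hu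
  rw [← sub_add_cancel ξ v']
  exact Submodule.add_mem_sup (bdy_mono (subset_univ _) n h3) h2

end RG
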