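import Pool.Agent.P.MP_8a106a_gt.HL1

/-! Local homology of a five-manifold. -/

set_option autoImplicit false
set_option linter.unusedSectionVars false

noncomputable section

namespace RG

open HK3 Pool.Agent.P.MP_9699e0_gt Pool.Agent.P.MP_8a106a_gt Set Filter Topology

variable {k : Type} [Field k] {X : Type} [TopologicalSpace X] [T2Space X]

theorem Triv.anti {K K' : Set X} (h : K ⊆ K') (n : ℕ) : Triv k K' n ≤ Triv k K n :=
  sup_le_sup_left (chn_mono (compl_subset_compl.2 h) n) _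

theorem Cvx.compact {K : Set X} (h : Cvx K) : IsCompact K := by
  obtain ⟨e, K', hK, -, hV, rfl⟩ := h
  exact hK.image_of_continuousOn (e.continuousOn_symm.mono hV)

theorem exists_cvx (hX : Loc5 X) {x : X} {N : Set X} (hN : N ∈ 𝓝 x) :
    ∃ K, Cvx K ∧ K ⊆ N ∧ K ∈ 𝓝 x := by
  obtain ⟨e, hx⟩ := hX x
  have ha : e x ∈ e.target := e.map_source hx
  have h1 : e.symm ⁻¹' N ∈ 𝓝 (e x) :=
    (e.continuousAt_symm ha).preimage_mem_nhds (by rwa [e.left_inv hx])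
  obtain ⟨r, hr, hs⟩ := Metric.nhds_basis_closedBall.mem_iff.1
    (inter_mem (e.open_target.mem_nhds ha) h1)
  refine ⟨e.symm '' Metric.closedBall (e x) r, ⟨e, _, isCompact_closedBall _ _,
    convex_closedBall _ _, fun y hy => (hs hy).1, rfl⟩, ?_, ?_⟩
  · rintro _ ⟨y, hy, rfl⟩
    exact (hs hy).2
  · have := e.symm.image_mem_nhds ha (Metric.closedBall_mem_nhds (e x) hr)
    rwa [e.left_inv hx] at this

theorem Cvx.inj {K : Set X} (h : Cvx K) {a : X} (ha : a ∈ K) {n : ℕ} {ζ : Chn k X (n + 1)}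
    (hb : bd k X n ζ ∈ chn k Kᶜ n) (h' : ζ ∈ Triv k {a} (n + 1)) : ζ ∈ Triv k K (n + 1) := by
  obtain ⟨e, K', hK, hc, hV, rfl⟩ := h
  obtain ⟨a', ha', rfl⟩ := ha
  obtain ⟨ξ, h1, h2, h3⟩ := chart_rep e hK hV hb
  have h4 : cmap k e.symm (n + 1) ξ ∈ Triv k (e.symm '' {a'}) (n + 1) := by
    rw [image_singleton, ← sub_sub_cancel ζ (cmap k e.symm (n + 1) ξ)]
    exact sub_mem h' (Triv.anti (singleton_subset_iff.2 (mem_image_of_mem _ ha')) _ h3)
  have h5 := chart_pull e isCompact_singleton (singleton_subset_iff.2 (hV ha')) h1 h4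
  have h6 := chart_push e hK hV h1 (rel_inj hK hc ha' h2 h5)
  rw [← sub_add_cancel ζ (cmap k e.symm (n + 1) ξ)]
  exact add_mem h3 h6

/-- `chart_rep` for `{a}`, `rel_surj`, then `exc_surj` to move the chain into the target. -/
theorem Cvx.surj {K : Set X} (h : Cvx K) {a : X} (ha : a ∈ K) {n : ℕ} {ζ : Chn k X (n + 1)}
    (hb : bd k X n ζ ∈ chn k {a}ᶜ n) :
    ∃ ζ' : Chn k X (n + 1), bd k X n ζ' ∈ chn k Kᶜ n ∧ ζ - ζ' ∈ Triv k {a} (n + 1) := by
  obtain ⟨e, K', hK, -, hV, rfl⟩ := h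
  obtain ⟨a', ha', rfl⟩ := ha
  have hs : ({a'} : Set (Euc 5)) ⊆ e.target := singleton_subset_iff.2 (hV ha')
  rw [← image_singleton] at hb ⊢
  obtain ⟨ξ, h1, h2, h3⟩ := chart_rep e isCompact_singleton hs hb
  obtain ⟨ξ', h4, h5⟩ := rel_surj hK h2
  obtain ⟨ξ'', h6, h7, h8⟩ := exc_surj hK.isClosed e.open_target hV h4
  have h9 : ξ - ξ'' ∈ Triv k {a'} (n + 1) := by
    rw [← sub_add_sub_cancel ξ ξ' ξ'']
    exact add_mem h5 (Triv.anti (singleton_subset_iff.2 ha') _ h8)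
  refine ⟨cmap k e.symm (n + 1) ξ'', ?_, ?_⟩
  · rw [cmap_bd e.continuousOn_symm h6]
    refine cmap_mem (S := e.target ∩ K'ᶜ) (e.continuousOn_symm.mono inter_subset_left) ?_ ?_
    · rintro y ⟨hy, hy'⟩ ⟨z, hz, hzy⟩
      exact hy' (e.symm.injOn (hV hz) hy hzy ▸ hz)
    · rw [chn_inter]
      exact ⟨bd_mem h6, h7⟩
  · have := chart_push e isCompact_singleton hs (sub_mem h1 h6) h9
    rw [map_sub] at this
    rw [← sub_add_sub_cancel ζ (cmap k e.symm (n + 1) ξ)]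
    exact add_mem h3 this

theorem pt_van (hX : Loc5 X) {x : X} {n : ℕ} (h1 : 1 ≤ n) (h4 : n ≠ 4) {ζ : Chn k X (n + 1)}
    (hb : bd k X n ζ ∈ chn k {x}ᶜ n) : ζ ∈ Triv k {x} (n + 1) := by
  obtain ⟨e, hx⟩ := hX x
  have hs : ({e x} : Set (Euc 5)) ⊆ e.target := singleton_subset_iff.2 (e.map_source hx)
  have ex : ({x} : Set X) = e.symm '' {e x} := by rw [image_singleton, e.left_inv hx]
  rw [ex] at hb ⊢
  obtain ⟨ξ, p1, p2, p3⟩ := chart_rep e isCompact_singleton hs hb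
  rw [← sub_add_cancel ζ (cmap k e.symm (n + 1) ξ)]
  exact add_mem p3 (chart_push e isCompact_singleton hs p1 (rel_van h1 h4 p2))

theorem pt_rank (hX : Loc5 X) (x : X) :
    Rk ((chn k {x}ᶜ 4).comap (bd k X 4)) (Triv k {x} 5) 1 := by
  obtain ⟨e, hx⟩ := hX x
  have hs : ({e x} : Set (Euc 5)) ⊆ e.target := singleton_subset_iff.2 (e.map_source hx)
  have ex : ({x} : Set X) = e.symm '' {e x} := by rw [image_singleton, e.left_inv hx]
  rw [ex]
  refine rk_one_iff.2 fun ζ hζ η hη => ?_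
  obtain ⟨ξ, p1, p2, p3⟩ := chart_rep e isCompact_singleton hs hζ
  obtain ⟨ξ', q1, q2, q3⟩ := chart_rep e isCompact_singleton hs hη
  obtain ⟨a, b, hab, h⟩ := rk_one_iff.1 (rel_rank (k := k) (e x)) ξ p2 ξ' q2
  refine ⟨a, b, hab, ?_⟩
  have h1 := chart_push e isCompact_singleton hs
    (add_mem (Submodule.smul_mem _ a p1) (Submodule.smul_mem _ b q1)) h
  have e1 : a • ζ + b • η = a • (ζ - cmap k e.symm 5 ξ) + b • (η - cmap k e.symm 5 ξ') +
      cmap k e.symm 5 (a • ξ + b • ξ') := by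
    rw [map_add, map_smul, map_smul, smul_sub, smul_sub]
    abel
  rw [e1]
  exact add_mem (add_mem (Submodule.smul_mem _ a p3) (Submodule.smul_mem _ b q3)) h1

theorem Cvx.good (hX : Loc5 X) {K : Set X} (h : Cvx K) : Good k K := by
  rcases K.eq_empty_or_nonempty with rfl | ⟨a, ha⟩
  · refine ⟨fun n _ ζ _ => Submodule.mem_sup_right ?_, fun ζ _ _ => Submodule.mem_sup_right ?_⟩
    all_goals rw [compl_empty, chn_univ]; trivial
  refine ⟨fun n hn ζ hζ => h.inj ha hζ (pt_van hX (by omega) (by omega) ?_),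
    fun ζ hζ h0 => h.inj ha hζ (h0 a ha)⟩
  exact chn_mono (compl_subset_compl.2 (singleton_subset_iff.2 ha)) n hζ

/-- Port of `HK3.Fc2_split`. -/
theorem triv_split {K K' : Set X} (hK : IsClosed K) (hK' : IsClosed K') {n : ℕ}
    {t : Chn k X (n + 1)} (ht : t ∈ chn k (K ∩ K')ᶜ (n + 1))
    (hb : bd k X n t ∈ chn k Kᶜ n ⊔ chn k K'ᶜ n) :
    ∃ a ∈ chn k Kᶜ (n + 1), ∃ b ∈ chn k K'ᶜ (n + 1), t - a - b ∈ bdy k (univ : Set X) (n + 1) := by
  obtain ⟨a, ha, b, hb', h⟩ := mv_rel hK.isOpen_compl hK'.isOpen_compl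
    (O := (K ∩ K')ᶜ) (by rw [compl_inter]) ht hb
  exact ⟨a, chn_mono inter_subset_right _ ha, b, chn_mono inter_subset_right _ hb',
    bdy_mono (subset_univ _) _ h⟩

theorem bd_bdy_HL2 {S : Set X} {n : ℕ} {c : Chn k X (n + 1)} (h : c ∈ bdy k S (n + 1)) :
    bd k X n c = 0 := by
  obtain ⟨s, -, rfl⟩ := h
  exact bd_bd n s

theorem step_HL2 {K K' : Set X} (hK : IsClosed K) (hK' : IsClosed K') {n : ℕ}
    (hi : ∀ ζ : Chn k X (n + 1), bd k X n ζ ∈ chn k (K ∩ K')ᶜ n → ζ ∈ Triv k (K ∩ K') (n + 1))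
    {ζ : Chn k X n} (h : ζ ∈ Triv k K n) (h' : ζ ∈ Triv k K' n) : ζ ∈ Triv k (K ∪ K') n := by
  obtain ⟨_, ⟨u, -, rfl⟩, v, hv, e⟩ := Submodule.mem_sup.1 h
  obtain ⟨_, ⟨u', -, rfl⟩, v', hv', e'⟩ := Submodule.mem_sup.1 h'
  have e1 : bd k X n (u - u') = v' - v := by
    rw [map_sub, sub_eq_sub_iff_add_eq_add, e, add_comm, e']
  have m1 : v' - v ∈ chn k Kᶜ n ⊔ chn k K'ᶜ n :=
    Submodule.sub_mem _ (Submodule.mem_sup_right hv') (Submodule.mem_sup_left hv)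
  have l : chn k Kᶜ n ⊔ chn k K'ᶜ n ≤ chn k (K ∩ K')ᶜ n :=
    sup_le (chn_mono (compl_subset_compl.2 inter_subset_left) n)
      (chn_mono (compl_subset_compl.2 inter_subset_right) n)
  obtain ⟨s, hs, t, ht, e2⟩ := Submodule.mem_sup.1 (hi (u - u') (e1 ▸ l m1))
  have e3 : bd k X n t = v' - v := by
    rw [← e1, ← e2, map_add, bd_bdy_HL2 hs, zero_add]
  obtain ⟨a, ha, b, hb, hab⟩ := triv_split hK hK' ht (e3 ▸ m1)
  have e4 := bd_bdy_HL2 hab
  rw [map_sub, map_sub, e3] at e4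
  have e5 : v + bd k X n a = v' - bd k X n b := by
    rw [← sub_eq_zero, ← neg_eq_zero, ← e4]; abel
  refine Submodule.mem_sup.2 ⟨bd k X n (u - a), ⟨u - a, by rw [chn_univ]; trivial, rfl⟩,
    v + bd k X n a, ?_, ?_⟩
  · rw [compl_union, chn_inter]
    exact ⟨Submodule.add_mem _ hv (bd_mem ha), e5 ▸ Submodule.sub_mem _ hv' (bd_mem hb)⟩
  · rw [← e, map_sub]; abel

/-- Port of `HK3.Fc2_step` and `HK3.Good.union`. -/
theorem Good.union {K K' : Set X} (hK : IsClosed K) (hK' : IsClosed K') (h : Good k K)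
    (h' : Good k K') (h'' : Good k (K ∩ K')) : Good k (K ∪ K') := by
  have l1 : ∀ n, chn k (K ∪ K')ᶜ n ≤ chn k Kᶜ n := fun n =>
    chn_mono (compl_subset_compl.2 subset_union_left) n
  have l2 : ∀ n, chn k (K ∪ K')ᶜ n ≤ chn k K'ᶜ n := fun n =>
    chn_mono (compl_subset_compl.2 subset_union_right) n
  refine ⟨fun n hn ζ hζ => ?_, fun ζ hζ h0 => ?_⟩
  · exact step_HL2 hK hK' (h''.high (n + 1) (by omega)) (h.high n hn ζ (l1 n hζ))
      (h'.high n hn ζ (l2 n hζ))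
  · exact step_HL2 hK hK' (h''.high 5 le_rfl) (h.inj ζ (l1 4 hζ) fun x hx => h0 x (Or.inl hx))
      (h'.inj ζ (l2 4 hζ) fun x hx => h0 x (Or.inr hx))

end RG
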