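import Pool.Agent.P.MP_8a106a_gt.HD4
import Pool.Agent.P.MP_8a106a_gt.HA

/-! The nerve as a permutation complex. -/

set_option autoImplicit false
set_option linter.unusedSectionVars false

noncomputable section

namespace RG

open HK3 Pool.Agent.P.MP_9699e0_gt Pool.Agent.P.MP_8a106a_gt Set Filter Topology

section

variable {I : Type} [Fintype I] [DecidableEq I]

/-- The simplices of the nerve with `i + 1` vertices. -/
def Sx_HN (Nv : Finset I → Prop) (i : ℕ) : Type := {σ : Finset I // σ.card = i + 1 ∧ Nv σ}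

instance fin_HN (Nv : Finset I → Prop) (i : ℕ) : Finite (Sx_HN Nv i) :=
  inferInstanceAs (Finite {σ : Finset I // σ.card = i + 1 ∧ Nv σ})

variable (k : Type) [Field k]

open Classical in
/-- Extension by zero. -/
def ext_HN (Nv : Finset I → Prop) (i : ℕ) : (Sx_HN Nv i → k) →ₗ[k] (Finset I → k) where
  toFun x σ := if h : σ.card = i + 1 ∧ Nv σ then x ⟨σ, h⟩ else 0
  map_add' x y := by
    ext σ
    by_cases h : σ.card = i + 1 ∧ Nv σ
    · simp only [dif_pos h, Pi.add_apply]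
    · simp only [dif_neg h, Pi.add_apply, add_zero]
  map_smul' c x := by
    ext σ
    by_cases h : σ.card = i + 1 ∧ Nv σ
    · simp only [dif_pos h, Pi.smul_apply, RingHom.id_apply]
    · simp only [dif_neg h, Pi.smul_apply, smul_zero]

/-- Restriction. -/
def res_HN (Nv : Finset I → Prop) (i : ℕ) : (Finset I → k) →ₗ[k] (Sx_HN Nv i → k) :=
  LinearMap.funLeft k k fun s => s.1

/-- The boundary map of the nerve. -/
def d_HN (ord : I → ℕ) (Nv : Finset I → Prop) (i : ℕ) :
    (Sx_HN Nv (i + 1) → k) →ₗ[k] (Sx_HN Nv i → k) :=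
  res_HN k Nv i ∘ₗ del k ord k ∘ₗ ext_HN k Nv (i + 1)

variable {k} {Nv : Finset I → Prop} {ord : I → ℕ}

theorem ext_pos_HN {i : ℕ} (x : Sx_HN Nv i → k) {σ : Finset I} (h : σ.card = i + 1 ∧ Nv σ) :
    ext_HN k Nv i x σ = x ⟨σ, h⟩ := dif_pos h

theorem ext_neg_HN {i : ℕ} (x : Sx_HN Nv i → k) {σ : Finset I} (h : ¬ (σ.card = i + 1 ∧ Nv σ)) :
    ext_HN k Nv i x σ = 0 := dif_neg h

theorem res_ext_HN {i : ℕ} (x : Sx_HN Nv i → k) : res_HN k Nv i (ext_HN k Nv i x) = x := by
  ext s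
  exact ext_pos_HN x s.2

theorem ext_mem_HN {i : ℕ} (x : Sx_HN Nv i → k) : ext_HN k Nv i x ∈ NC k Nv (i + 1) := by
  intro σ
  by_cases h : σ.card = i + 1 ∧ Nv σ
  · refine ⟨?_, fun h' => absurd h.1 h'⟩
    simp only [if_pos (Or.inr h.2 : σ = ∅ ∨ Nv σ), Submodule.mem_top]
  · rw [ext_neg_HN x h]
    exact ⟨zero_mem _, fun _ => rfl⟩

theorem ext_res_HN {i : ℕ} {y : Finset I → k} (hy : y ∈ NC k Nv (i + 1)) :
    ext_HN k Nv i (res_HN k Nv i y) = y := by
  ext σ
  by_cases h : σ.card = i + 1 ∧ Nv σ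
  · rw [ext_pos_HN _ h]
    rfl
  · rw [ext_neg_HN _ h]
    by_cases hc : σ.card = i + 1
    · have h1 : ¬ (σ = ∅ ∨ Nv σ) := by
        rintro (rfl | h2)
        · simp at hc
        · exact h ⟨hc, h2⟩
      have h2 := (hy σ).1
      simp only [if_neg h1, Submodule.mem_bot] at h2
      exact h2.symm
    · exact ((hy σ).2 hc).symm

theorem del_NC_HN (anti : ∀ σ τ, σ ⊆ τ → Nv τ → Nv σ) {p : ℕ} {y : Finset I → k}
    (hy : y ∈ NC k Nv (p + 1)) : del k ord k y ∈ NC k Nv p := by
  refine del_mem (fun σ τ h => ?_) hy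
  by_cases h1 : σ = ∅ ∨ Nv σ
  · simp only [if_pos h1, le_top]
  · have h2 : ¬ (τ = ∅ ∨ Nv τ) := by
      rintro (rfl | h3)
      · exact h1 (Or.inl (Finset.subset_empty.1 h))
      · exact h1 (Or.inr (anti _ _ h h3))
    simp only [if_neg h2, bot_le]

theorem ext_d_HN (anti : ∀ σ τ, σ ⊆ τ → Nv τ → Nv σ) {i : ℕ} (x : Sx_HN Nv (i + 1) → k) :
    ext_HN k Nv i (d_HN k ord Nv i x) = del k ord k (ext_HN k Nv (i + 1) x) :=
  ext_res_HN (del_NC_HN anti (ext_mem_HN x))

theorem del_del_HN (inj : ∀ σ, Nv σ → InjOn ord σ) {i : ℕ} (x : Sx_HN Nv i → k) :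
    del k ord k (del k ord k (ext_HN k Nv i x)) = 0 := by
  refine del_del fun σ hσ => inj σ ?_
  by_contra h
  exact hσ (ext_neg_HN x fun h' => h h'.2)

theorem mem_range_HN {i : ℕ} {z : Sx_HN Nv i → k}
    (h : ext_HN k Nv i z ∈ (NC k Nv (i + 2)).map (del k ord k)) :
    z ∈ LinearMap.range (d_HN k ord Nv i) := by
  obtain ⟨w, hw, e⟩ := h
  refine ⟨res_HN k Nv (i + 1) w, ?_⟩
  simp only [d_HN, LinearMap.comp_apply]
  rw [ext_res_HN hw, e, res_ext_HN]

theorem del_empty_HN [Fintype (Sx_HN Nv 0)] (x : Sx_HN Nv 0 → k) :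
    del k ord k (ext_HN k Nv 0 x) ∅ = ∑ s, x s := by
  have h1 : ∑ s, x s = ∑ σ, ext_HN k Nv 0 x σ := by
    refine Fintype.sum_of_injective (fun s : Sx_HN Nv 0 => s.1) Subtype.val_injective _ _
      (fun σ hσ => ext_neg_HN x fun h => hσ ⟨⟨σ, h⟩, rfl⟩) fun s => (ext_pos_HN x s.2).symm
  have h2 : ∑ i : I, ext_HN k Nv 0 x {i} = ∑ σ, ext_HN k Nv 0 x σ := by
    refine Fintype.sum_of_injective (fun i : I => ({i} : Finset I)) Finset.singleton_injective _ _
      (fun σ hσ => ext_neg_HN x fun h => hσ ?_) fun _ => rfl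
    obtain ⟨i, hi⟩ := Finset.card_eq_one.1 h.1
    exact ⟨i, hi.symm⟩
  rw [h1, ← h2, del_apply]
  simp [sg]

theorem del_smul_HN {Γ : Type} [Group Γ] [MulAction Γ I]
    (ho : ∀ (g : Γ) (i : I), ord (g • i) = ord i) (g : Γ) (y : Finset I → k) (τ : Finset I) :
    del k ord k (fun σ => y (σ.image fun i => g • i)) τ =
      del k ord k y (τ.image fun i => g • i) := by
  have hi : Function.Injective fun i : I => g • i := MulAction.injective g
  rw [del_apply, del_apply]
  refine Finset.sum_bijective (fun i => g • i) (MulAction.bijective g) (fun i => ?_) fun i _ => ?_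
  · rw [Finset.mem_compl, Finset.mem_compl, hi.mem_finset_image]
  · rw [Finset.image_insert]
    congr 1
    simp only [sg, Finset.filter_image, ho, Finset.card_image_of_injective _ hi]

end

/-- `S i` is the type of `σ` with `i + 1` elements and `Nv σ`; extension by zero identifies
`S i → k` with `NC k Nv (i + 1)`, and `d i` is restriction after `del` after extension. -/
theorem pc_of_nerve {k Γ I : Type} [Field k] [Group Γ] [Fintype I] [DecidableEq I] [MulAction Γ I]
    (ord : I → ℕ) (Nv : Finset I → Prop) (free : ∀ (g : Γ) (i : I), g • i = i → g = 1)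
    (ho : ∀ (g : Γ) (i : I), ord (g • i) = ord i) (inj : ∀ σ, Nv σ → InjOn ord σ)
    (anti : ∀ σ τ, σ ⊆ τ → Nv τ → Nv σ)
    (inv : ∀ (g : Γ) (σ : Finset I), Nv σ → Nv (σ.image fun i => g • i)) (ne : ∃ i, Nv {i})
    (h0 : NC k Nv 1 ⊓ LinearMap.ker (del k ord k) ≤ (NC k Nv 2).map (del k ord k)) {B : ℕ}
    (r : ℕ → ℕ) (h : ∀ b, Rk (NC k Nv (b + 2) ⊓ LinearMap.ker (del k ord k))
      ((NC k Nv (b + 3)).map (del k ord k)) (r b))
    (r0 : r 0 = 0) (r1 : r 1 ≤ B) (r2 : r 2 ≤ B) (r3 : r 3 = 0) (r4 : r 4 ≤ 1)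
    (r5 : ∀ b, 5 ≤ b → r b = 0) : Nonempty (PC k Γ B) := by
  classical
  have hcard : ∀ (g : Γ) (σ : Finset I), (σ.image fun i => g • i).card = σ.card := fun g σ =>
    Finset.card_image_of_injective _ (MulAction.injective g)
  letI act : ∀ i, MulAction Γ (Sx_HN Nv i) := fun i =>
    { smul := fun g s => ⟨s.1.image fun j => g • j, (hcard g _).trans s.2.1, inv g _ s.2.2⟩
      one_smul := fun s => Subtype.ext (by
        change s.1.image (fun j => (1 : Γ) • j) = s.1
        simp)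
      mul_smul := fun g g' s => Subtype.ext (by
        change s.1.image (fun j => (g * g') • j) = (s.1.image fun j => g' • j).image fun j => g • j
        rw [Finset.image_image]
        simp only [mul_smul, Function.comp_def]) }
  have hval : ∀ i (g : Γ) (s : Sx_HN Nv i), (g • s).1 = s.1.image fun j => g • j :=
    fun _ _ _ => rfl
  have hR : ∀ b, Rk (LinearMap.ker (d_HN k ord Nv b)) (LinearMap.range (d_HN k ord Nv (b + 1)))
      (r b) := fun b => by
    refine (h b).comap (ext_HN k Nv (b + 1)) (fun z hz => ⟨ext_mem_HN z, ?_⟩)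
      fun z _ hz => mem_range_HN hz
    change del k ord k _ = 0
    rw [← ext_d_HN anti, LinearMap.mem_ker.1 hz, map_zero]
  have hz : ∀ b, r b = 0 →
      LinearMap.ker (d_HN k ord Nv b) ≤ LinearMap.range (d_HN k ord Nv (b + 1)) := fun b e => by
    have h1 := hR b
    rw [e] at h1
    exact rk_zero.1 h1
  letI fin : ∀ i, Fintype (Sx_HN Nv i) := fun i => Fintype.ofFinite _
  refine ⟨{ S := Sx_HN Nv
            fin := fin
            act := act
            free := fun i g s hs => ?_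
            d := d_HN k ord Nv
            eqv := fun i g x => ?_
            dd := fun i x => ?_
            top := ⟨Fintype.card I, fun i hi => ⟨fun s => ?_⟩⟩
            ne := ?_
            h0 := fun x => ⟨?_, fun hx => ?_⟩
            h1 := hz 0 r0
            h2 := (hR 1).finrank_le.trans (Nat.add_le_add_left r1 _)
            h3 := (hR 2).finrank_le.trans (Nat.add_le_add_left r2 _)
            h4 := hz 3 r3
            h5 := (hR 4).finrank_le.trans (Nat.add_le_add_left r4 _)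
            h6 := fun i hi => hz i (r5 i hi) }⟩
  · obtain ⟨j, hj⟩ : s.1.Nonempty := Finset.card_pos.1 (by rw [s.2.1]; omega)
    have h1 : g • j ∈ s.1 := by
      have h2 := Finset.mem_image_of_mem (fun j => g • j) hj
      rwa [← hval, hs] at h2
    exact free g j (inj _ s.2.2 h1 hj (ho g j))
  · have e : ext_HN k Nv (i + 1) (fun s => x (g • s)) =
        fun σ => ext_HN k Nv (i + 1) x (σ.image fun j => g • j) := by
      ext σ
      by_cases hσ : σ.card = i + 1 + 1 ∧ Nv σ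
      · rw [ext_pos_HN _ hσ, ext_pos_HN _ ⟨(hcard g σ).trans hσ.1, inv g σ hσ.2⟩]
        rfl
      · rw [ext_neg_HN _ hσ, ext_neg_HN]
        rintro ⟨h1, h2⟩
        refine hσ ⟨(hcard g σ).symm.trans h1, ?_⟩
        have h3 := inv g⁻¹ _ h2
        rw [Finset.image_image] at h3
        simpa only [Function.comp_def, inv_smul_smul, Finset.image_id'] using h3
    ext s
    change del k ord k (ext_HN k Nv (i + 1) fun s => x (g • s)) s.1 =
      del k ord k (ext_HN k Nv (i + 1) x) (g • s).1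
    rw [e, del_smul_HN ho, hval]
  · change res_HN k Nv i (del k ord k (ext_HN k Nv (i + 1) (d_HN k ord Nv (i + 1) x))) = 0
    rw [ext_d_HN anti, del_del_HN inj, map_zero]
  · have h1 := s.1.card_le_univ
    rw [s.2.1] at h1
    omega
  · obtain ⟨i, hi⟩ := ne
    exact ⟨⟨{i}, Finset.card_singleton i, hi⟩⟩
  · rintro ⟨y, rfl⟩
    rw [← del_empty_HN (ord := ord), ext_d_HN anti, del_del_HN inj]
    rfl
  · refine mem_range_HN (h0 ⟨ext_mem_HN x, ?_⟩)
    change del k ord k _ = 0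
    ext σ
    by_cases hσ : σ = ∅
    · rw [hσ, del_empty_HN, hx]
      rfl
    · exact (del_NC_HN anti (ext_mem_HN x) σ).2 fun h' => hσ (Finset.card_eq_zero.1 h')

theorem pc_of_gc {k Γ X : Type} [Field k] [Group Γ] [TopologicalSpace X] [PathConnectedSpace X]
    (C : GC Γ X) {B : ℕ} (h1 : cyc k (univ : Set X) 1 ≤ bdy k univ 1)
    (h2 : Rk (cyc k (univ : Set X) 2) (bdy k univ 2) B)
    (h3 : Rk (cyc k (univ : Set X) 3) (bdy k univ 3) B)
    (h4 : cyc k (univ : Set X) 4 ≤ bdy k univ 4) (h5 : Rk (cyc k (univ : Set X) 5) (bdy k univ 5) 1)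
    (h6 : ∀ n, 5 ≤ n → cyc k (univ : Set X) (n + 1) ≤ bdy k univ (n + 1)) :
    Nonempty (PC k Γ B) := by
  have hU : (⋃ i, C.W i) = univ := eq_univ_of_forall fun x => mem_iUnion.2 (C.cover x)
  have hA := sys_cov (k := k) (ord := C.ord) C.W C.inj
  have hN := nrv_cov (k := k) C.W fun σ hσ hne => acy_of_contractible (C.good σ hσ hne)
  have hb : ∀ n, ∀ c ∈ cov k C.W n ∅, c ∈ bdy k (univ : Set X) n →
      c ∈ bc (bd k X) (fun n => cov k C.W n ∅) n := fun n c hc hc' =>
    bdy_le_cov C.opn n ⟨hc, hU ▸ hc'⟩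
  have key : ∀ b r, Rk (cyc k (univ : Set X) (b + 1)) (bdy k univ (b + 1)) r →
      Rk (NC k (fun σ => (⋂ i ∈ σ, C.W i).Nonempty) (b + 2) ⊓ LinearMap.ker (del k C.ord k))
        ((NC k (fun σ => (⋂ i ∈ σ, C.W i).Nonempty) (b + 3)).map (del k C.ord k)) r := by
    intro b r hr
    refine nerve_succ hA hN (hr.comap LinearMap.id (fun z hz => ⟨?_, hz.2⟩)
      fun z hz hz' => hb _ z hz.1 hz')
    rw [chn_univ]
    trivial
  refine pc_of_nerve C.ord (fun σ => (⋂ i ∈ σ, C.W i).Nonempty) C.free C.ord_smul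
    (fun σ hσ i hi j hj e => ?_) (fun σ τ hστ hτ => ?_) (fun g σ hσ => ?_) ?_
    (nerve_zero hA hN fun c hc hc' => hb 0 c hc ?_)
    (fun b => if b = 1 ∨ b = 2 then B else if b = 4 then 1 else 0) (fun b => key b _ ?_)
    (by simp) (by simp) (by simp) (by simp) (by simp) fun b hb' => ?_
  · obtain ⟨x, hx⟩ := hσ
    rw [mem_iInter₂] at hx
    exact C.inj i j ⟨x, hx i hi, hx j hj⟩ e
  · obtain ⟨x, hx⟩ := hτ
    rw [mem_iInter₂] at hx
    exact ⟨x, mem_iInter₂.2 fun i hi => hx i (hστ hi)⟩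
  · obtain ⟨x, hx⟩ := C.inv g σ hσ
    rw [mem_iInter₂] at hx
    refine ⟨x, mem_iInter₂.2 fun i hi => ?_⟩
    obtain ⟨j, hj, rfl⟩ := Finset.mem_image.1 hi
    exact hx j hj
  · obtain ⟨x⟩ : Nonempty X := PathConnectedSpace.nonempty
    obtain ⟨i, hi⟩ := C.cover x
    exact ⟨i, x, by simpa using hi⟩
  · refine mem_bdy_zero isPathConnected_univ ?_ hc'
    rw [chn_univ]
    trivial
  · match b with
    | 0 => simpa using rk_zero.2 h1
    | 1 => simpa using h2
    | 2 => simpa using h3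
    | 3 => simpa using rk_zero.2 h4
    | 4 => simpa using h5
    | b + 5 =>
      rw [if_neg (by omega), if_neg (by omega)]
      exact rk_zero.2 (h6 _ (by omega))
  · rw [if_neg (by omega), if_neg (by omega)]

end RG
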