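import Pool.Agent.P.MP_8a106a_gt.HA

/-! Punctured vector spaces. -/

set_option autoImplicit false
set_option linter.unusedSectionVars false

noncomputable section

namespace RG

open HK3 Pool.Agent.P.MP_9699e0_gt Pool.Agent.P.MP_8a106a_gt Set Filter Topology

variable {k : Type} [Field k]

/-- The complement of `0` in `ℝ` is the disjoint union of two convex sets (`chn_disj`,
`cyc_disj`); in degree zero use the augmentation of the part in `Ioi 0`. -/
theorem punct_real (j : ℕ) :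
    Rk (rcy k ({0}ᶜ : Set ℝ) j) (bdy k {0}ᶜ j) (if j = 0 then 1 else 0) := by
  have hS : ({0}ᶜ : Set ℝ) = ⋃ b : Bool, cond b (Ioi 0) (Iio 0) := by
    ext x
    simp only [mem_compl_iff, mem_singleton_iff, mem_iUnion, Bool.exists_bool, cond_false,
      cond_true, mem_Iio, mem_Ioi]
    exact ne_iff_lt_or_gt
  have hU : ∀ b : Bool, IsOpen (cond b (Ioi 0) (Iio 0) : Set ℝ) := by
    rintro (_ | _)
    exacts [isOpen_Iio, isOpen_Ioi]
  have hd : ∀ b c : Bool, b ≠ c →
      Disjoint (cond b (Ioi 0) (Iio 0) : Set ℝ) (cond c (Ioi 0) (Iio 0)) := by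
    rintro (_ | _) (_ | _) h
    · exact absurd rfl h
    · exact disjoint_left.2 fun x (h₁ : x < 0) (h₂ : 0 < x) => lt_asymm h₁ h₂
    · exact disjoint_left.2 fun x (h₁ : 0 < x) (h₂ : x < 0) => lt_asymm h₁ h₂
    · exact absurd rfl h
  have h₁ : (Ioi 0 : Set ℝ) ⊆ {0}ᶜ := fun x (hx : 0 < x) => hx.ne'
  have h₂ : (Iio 0 : Set ℝ) ⊆ {0}ᶜ := fun x (hx : x < 0) => hx.ne
  cases j with
  | zero =>
    rw [if_pos rfl]
    refine rk_of_functional (ev k fun σ : Simp ℝ 0 => if 0 < vtx σ 0 then (1 : k) else 0) ?_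
    rintro z ⟨hz, hz'⟩ hl
    rw [hS, chn_disj hU (fun _ => subset_rfl) hd, iSup_bool_eq] at hz
    obtain ⟨a, ha, b, hb, rfl⟩ := Submodule.mem_sup.1 hz
    have ea : ev k (fun σ : Simp ℝ 0 => if 0 < vtx σ 0 then (1 : k) else 0) a = aug k a :=
      ev_congr_chn ha fun σ hσ => if_pos (hσ ⟨_, rfl⟩)
    have eb : ev k (fun σ : Simp ℝ 0 => if 0 < vtx σ 0 then (1 : k) else 0) b =
        ev k (fun _ => (0 : k)) b :=
      ev_congr_chn hb fun σ hσ => if_neg (not_lt.2 (le_of_lt (hσ ⟨_, rfl⟩)))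
    have e₀ : ev k (fun _ : Simp ℝ 0 => (0 : k)) b = 0 := by
      simp [ev, Finsupp.linearCombination_apply]
    rw [map_add, ea, eb, e₀, add_zero] at hl
    have hb' : aug k b = 0 := by
      have : aug k (a + b) = 0 := hz'
      rwa [map_add, hl, zero_add] at this
    exact add_mem
      (bdy_mono h₁ 0 (mem_bdy_zero ((convex_Ioi (0 : ℝ)).isPathConnected nonempty_Ioi) ha hl))
      (bdy_mono h₂ 0 (mem_bdy_zero ((convex_Iio (0 : ℝ)).isPathConnected nonempty_Iio) hb hb'))
  | succ j =>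
    rw [if_neg (Nat.succ_ne_zero j), rk_zero]
    change cyc k _ (j + 1) ≤ _
    have e := cyc_disj (R := k) hU (fun _ => subset_rfl) hd (j + 1)
    rw [← hS, iSup_bool_eq] at e
    rw [e]
    exact sup_le
      ((cyc_le_of_star ((convex_Ioi (0 : ℝ)).starConvex (x := 1) (mem_Ioi.2 zero_lt_one)) j).trans
        (bdy_mono h₁ _))
      ((cyc_le_of_star ((convex_Iio (0 : ℝ)).starConvex (x := -1) (mem_Iio.2 neg_one_lt_zero)) j).trans
        (bdy_mono h₂ _))

private theorem star_HP {W : Type} [NormedAddCommGroup W] [NormedSpace ℝ W] {s : ℝ} (hs : s * s = 1) :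
    Acy k (({0}ᶜ : Set (W × ℝ)) ∩ {p | ¬(p.1 = 0 ∧ 0 ≤ s * p.2)}) := by
  have e : ({0}ᶜ : Set (W × ℝ)) ∩ {p | ¬(p.1 = 0 ∧ 0 ≤ s * p.2)} =
      {p | ¬(p.1 = 0 ∧ 0 ≤ s * p.2)} := by
    refine inter_eq_right.2 ?_
    rintro p hp rfl
    exact hp ⟨rfl, by simp⟩
  rw [e]
  refine acy_of_star (x := (0, -s)) ?_ ?_
  · rintro ⟨-, h⟩
    change 0 ≤ s * -s at h
    linarith
  · rintro y hy a b ha hb hab ⟨h₁, h₂⟩
    simp only [Prod.fst_add, Prod.smul_fst, smul_zero, zero_add, smul_eq_zero, Prod.snd_add,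
      Prod.smul_snd, smul_eq_mul] at h₁ h₂
    have e₁ : s * (a * -s + b * y.2) = -a + b * (s * y.2) := by linear_combination (-a) * hs
    rw [e₁] at h₂
    rcases hb.eq_or_lt with rfl | hb'
    · linarith
    · refine hy ⟨h₁.resolve_left hb'.ne', ?_⟩
      by_contra hc
      have := mul_neg_of_pos_of_neg hb' (not_le.1 hc)
      linarith

private theorem open_HP {W : Type} [NormedAddCommGroup W] [NormedSpace ℝ W] (s : ℝ) :
    IsOpen {p : W × ℝ | ¬(p.1 = 0 ∧ 0 ≤ s * p.2)} :=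
  ((isClosed_eq continuous_fst continuous_const).inter
    (isClosed_le continuous_const (continuous_const.mul continuous_snd))).isOpen_compl

/-- Cover by the complements of the two closed rays `{(0, t) | t ≥ 0}` and `{(0, t) | t ≤ 0}`,
which are star convex; their intersection retracts to the punctured `W`. -/
theorem punct_step {W : Type} [NormedAddCommGroup W] [NormedSpace ℝ W] {j r : ℕ}
    (h : Rk (rcy k ({0}ᶜ : Set W) j) (bdy k {0}ᶜ j) r) :
    Rk (cyc k ({0}ᶜ : Set (W × ℝ)) (j + 1)) (bdy k {0}ᶜ (j + 1)) r := by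
  refine mv_rk (open_HP 1) (open_HP (-1)) ?_ (star_HP (by norm_num)) (star_HP (by norm_num)) ?_
  · intro p hp
    by_contra hc
    simp only [mem_union, mem_ofPred_eq, not_or, not_not] at hc
    exact hp (Prod.ext hc.1.1 (by have := hc.1.2; have := hc.2.2; change p.2 = 0; linarith))
  · have e : ({0}ᶜ : Set (W × ℝ)) ∩ {p | ¬(p.1 = 0 ∧ 0 ≤ 1 * p.2)} ∩
        {p | ¬(p.1 = 0 ∧ 0 ≤ -1 * p.2)} = {p | p.1 ≠ 0} := by
      ext p
      constructor
      · rintro ⟨⟨-, h₁⟩, h₂⟩ h₀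
        rcases le_total 0 p.2 with h₃ | h₃
        · exact h₁ ⟨h₀, by linarith⟩
        · exact h₂ ⟨h₀, by linarith⟩
      · intro h₀
        exact ⟨⟨fun h₁ => h₀ (by rw [mem_singleton_iff.1 h₁]; rfl), fun h₁ => h₀ h₁.1⟩,
          fun h₁ => h₀ h₁.1⟩
    rw [e]
    have c₁ : Continuous fun w : W => ((w, 0) : W × ℝ) := continuous_id.prodMk continuous_const
    have c₂ : Continuous fun q : ℝ × W × ℝ => ((q.2.1, q.1 * q.2.2) : W × ℝ) :=
      continuous_snd.fst.prodMk (continuous_fst.mul continuous_snd.snd)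
    refine rk_retract (S := {p : W × ℝ | p.1 ≠ 0}) (T := {0}ᶜ) (f := Prod.fst)
      (g := fun w : W => ((w, 0) : W × ℝ)) continuous_fst.continuousOn ?_ c₁.continuousOn ?_
      (fun (s : ℝ) (p : W × ℝ) => ((p.1, s * p.2) : W × ℝ)) c₂.continuousOn ?_ ?_ ?_ h
    · intro p hp
      exact hp
    · intro p hp
      exact hp
    · intro _ _ p hp
      exact hp
    · intro p _
      rw [zero_mul]
    · intro p _
      rw [one_mul]

private theorem homeo_HP {X Y : Type} [TopologicalSpace X] [TopologicalSpace Y] (e : X ≃ₜ Y)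
    {a : X} {b : Y} (hab : e a = b) {n r : ℕ} (h : Rk (rcy k ({a}ᶜ : Set X) n) (bdy k {a}ᶜ n) r) :
    Rk (rcy k ({b}ᶜ : Set Y) n) (bdy k {b}ᶜ n) r := by
  have h' := rk_image (f := e) ⟨e.continuous.continuousOn, e.symm, e.symm.continuous.continuousOn,
    fun x _ => e.symm_apply_apply x⟩ h
  rwa [e.image_compl, image_singleton, hab] at h'

/-- Induction on `m`; degree zero by `isPathConnected_compl_singleton_of_one_lt_rank`. -/
theorem punct (m : ℕ) : ∀ (W : Type) [NormedAddCommGroup W] [NormedSpace ℝ W]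
    [FiniteDimensional ℝ W], Module.finrank ℝ W = m + 1 → ∀ (a : W) (j : ℕ),
      Rk (rcy k ({a}ᶜ : Set W) j) (bdy k {a}ᶜ j) (if j = m then 1 else 0) := by
  induction m with
  | zero =>
    intro W _ _ _ hW a j
    have e : ℝ ≃L[ℝ] W := ContinuousLinearEquiv.ofFinrankEq (by rw [hW]; simp)
    exact homeo_HP (e.toHomeomorph.trans (Homeomorph.addRight a)) (by simp) (punct_real j)
  | succ m ih =>
    intro W _ _ _ hW a j
    cases j with
    | zero =>
      rw [if_neg (Nat.succ_ne_zero m).symm, rk_zero]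
      rintro z ⟨hz, hz'⟩
      refine mem_bdy_zero (isPathConnected_compl_singleton_of_one_lt_rank ?_ a) hz hz'
      rw [← Module.finrank_eq_rank, hW]
      exact_mod_cast (by omega : 1 < m + 1 + 1)
    | succ j =>
      have e : ((Fin (m + 1) → ℝ) × ℝ) ≃L[ℝ] W :=
        ContinuousLinearEquiv.ofFinrankEq (by rw [hW]; simp)
      have h := punct_step (ih (Fin (m + 1) → ℝ) (by simp) 0 j)
      simp only [Nat.add_right_cancel_iff]
      exact homeo_HP (e.toHomeomorph.trans (Homeomorph.addRight a)) (by simp) (n := j + 1) h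

end RG
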