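import Pool.Agent.P.MP_8a106a_gt.HDefs

/-! The relative rank. -/

set_option autoImplicit false
set_option linter.unusedSectionVars false

noncomputable section

namespace RG

open HK3 Pool.Agent.P.MP_9699e0_gt Pool.Agent.P.MP_8a106a_gt Set Filter Topology

variable {k W W' Y : Type} [Field k] [AddCommGroup W] [Module k W] [AddCommGroup W'] [Module k W']
  [AddCommGroup Y] [Module k Y]

theorem of_le_HRk {Z B F : Submodule k W} {r : ℕ} (hF : Module.rank k F ≤ r) (h : Z ≤ F ⊔ B) :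
    Rk Z B r := by
  have h1 : Z.map B.mkQ ≤ F.map B.mkQ := by
    refine (Submodule.map_mono h).trans ?_
    rw [Submodule.map_sup, Submodule.mkQ_map_self, sup_bot_eq]
  exact (Submodule.rank_mono h1).trans ((rank_map_le _ _).trans hF)

theorem split_HRk {Z : Submodule k W} (g : W →ₗ[k] W') {r : ℕ}
    (h : Module.rank k (Z.map g) ≤ r) :
    ∃ F : Submodule k W, Module.rank k F ≤ r ∧ Z ≤ F ⊔ (Z ⊓ LinearMap.ker g) := by
  obtain ⟨s, hs⟩ := (g.submoduleMap Z).exists_rightInverse_of_surjective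
    (LinearMap.range_eq_top.2 (g.submoduleMap_surjective Z))
  refine ⟨LinearMap.range (Z.subtype ∘ₗ s), (rank_range_le _).trans h, fun z hz => ?_⟩
  have h1 : g (s ⟨g z, z, hz, rfl⟩) = g z :=
    congrArg Subtype.val (LinearMap.congr_fun hs ⟨g z, z, hz, rfl⟩)
  refine Submodule.mem_sup.2 ⟨_, ⟨⟨g z, z, hz, rfl⟩, rfl⟩, z - s ⟨g z, z, hz, rfl⟩,
    ⟨sub_mem hz (Submodule.coe_mem _), ?_⟩, add_sub_cancel _ _⟩
  exact LinearMap.mem_ker.2 (by rw [map_sub, h1, sub_self])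

theorem exists_HRk {Z B : Submodule k W} {r : ℕ} (h : Rk Z B r) :
    ∃ F : Submodule k W, Module.rank k F ≤ r ∧ Z ≤ F ⊔ B := by
  obtain ⟨F, h1, h2⟩ := split_HRk B.mkQ h
  exact ⟨F, h1, h2.trans (sup_le_sup_left (inf_le_right.trans B.ker_mkQ.le) _)⟩

theorem Rk.mono {Z Z' B B' : Submodule k W} {r r' : ℕ} (h : Rk Z' B' r') (hZ : Z ≤ Z' ⊔ B)
    (hB : B' ≤ B) (hr : r' ≤ r) : Rk Z B r := by
  obtain ⟨F, h1, h2⟩ := exists_HRk h
  exact of_le_HRk (h1.trans (Nat.cast_le.2 hr))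
    (hZ.trans (sup_le (h2.trans (sup_le_sup_left hB _)) le_sup_right))

theorem rk_zero {Z B : Submodule k W} : Rk Z B 0 ↔ Z ≤ B := by
  refine ⟨fun h => ?_, fun h => of_le_HRk (F := ⊥) (by simp) (h.trans le_sup_right)⟩
  obtain ⟨F, h1, h2⟩ := exists_HRk h
  rw [Nat.cast_zero, nonpos_iff_eq_zero, Submodule.rank_eq_zero] at h1
  rwa [h1, bot_sup_eq] at h2

theorem Rk.trans {Z M B : Submodule k W} {r s : ℕ} (h : Rk Z M r) (h' : Rk M B s) :
    Rk Z B (r + s) := by
  obtain ⟨F, h1, h2⟩ := exists_HRk h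
  obtain ⟨F', h3, h4⟩ := exists_HRk h'
  refine of_le_HRk (F := F ⊔ F') ((Submodule.rank_add_le_rank_add_rank F F').trans ?_) ?_
  · rw [Nat.cast_add]
    exact add_le_add h1 h3
  · rw [sup_assoc]
    exact h2.trans (sup_le_sup_left h4 _)

theorem Rk.map {Z B : Submodule k W} {r : ℕ} (h : Rk Z B r) (f : W →ₗ[k] W') :
    Rk (Z.map f) (B.map f) r := by
  obtain ⟨F, h1, h2⟩ := exists_HRk h
  refine of_le_HRk (F := F.map f) ((rank_map_le _ _).trans h1) ?_
  rw [← Submodule.map_sup]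
  exact Submodule.map_mono h2

/-- Transfer along a correspondence. -/
theorem Rk.corr {Z : Submodule k W} {Z' B' : Submodule k W'} {r : ℕ} (h : Rk Z' B' r)
    (f : Y →ₗ[k] W) (g : Y →ₗ[k] W') (S : Submodule k Y) (hf : Z ≤ S.map f) (hg : S.map g ≤ Z') :
    Rk Z ((S ⊓ B'.comap g).map f) r := by
  obtain ⟨F, h1, h2⟩ := split_HRk (Z := S) (B'.mkQ ∘ₗ g) (r := r) (by
    rw [Submodule.map_comp]
    exact (Submodule.rank_mono (Submodule.map_mono hg)).trans h)
  rw [LinearMap.ker_comp, Submodule.ker_mkQ] at h2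
  refine of_le_HRk (F := F.map f) ((rank_map_le _ _).trans h1) (hf.trans ?_)
  rw [← Submodule.map_sup]
  exact Submodule.map_mono h2

theorem Rk.comap {Z' B' : Submodule k W'} {r : ℕ} (h : Rk Z' B' r) (g : W →ₗ[k] W')
    {Z B : Submodule k W} (hZ : ∀ z ∈ Z, g z ∈ Z') (hB : ∀ z ∈ Z, g z ∈ B' → z ∈ B) :
    Rk Z B r := by
  have h1 := h.corr (Z := Z) LinearMap.id g Z (Submodule.map_id Z).ge
    (Submodule.map_le_iff_le_comap.2 hZ)
  rw [Submodule.map_id] at h1
  exact h1.mono le_sup_left (fun z hz => hB z hz.1 hz.2) le_rfl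

theorem Rk.pi {ι : Type} [Fintype ι] {Z B : ι → Submodule k W} {c : ℕ}
    (h : ∀ i, Rk (Z i) (B i) c) :
    Rk (Submodule.pi univ Z) (Submodule.pi univ B) (Fintype.card ι * c) := by
  choose F h1 h2 using fun i => exists_HRk (h i)
  refine of_le_HRk (F := LinearMap.range
    (LinearMap.pi fun i => (F i).subtype ∘ₗ LinearMap.proj (φ := fun i => F i) i))
    ((rank_range_le _).trans ?_) fun z hz => ?_
  · rw [rank_pi]
    refine (Cardinal.sum_le_sum _ _ h1).trans ?_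
    rw [Cardinal.sum_const', Cardinal.mk_fintype, Nat.cast_mul]
  · choose f hf b hb e using fun i => Submodule.mem_sup.1 (h2 i (hz i (mem_univ i)))
    exact Submodule.mem_sup.2 ⟨f, ⟨fun i => ⟨f i, hf i⟩, rfl⟩, b, fun i _ => hb i, funext e⟩

theorem rk_of_functional {Z B : Submodule k W} (l : W →ₗ[k] k) (h : ∀ z ∈ Z, l z = 0 → z ∈ B) :
    Rk Z B 1 := by
  obtain ⟨F, h1, h2⟩ := split_HRk (Z := Z) l (r := 1)
    ((Submodule.rank_le _).trans (by simp))
  exact of_le_HRk h1 (h2.trans (sup_le_sup_left (fun z hz => h z hz.1 hz.2) _))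

theorem rk_one_iff {Z B : Submodule k W} : Rk Z B 1 ↔
    ∀ x ∈ Z, ∀ y ∈ Z, ∃ a b : k, (a ≠ 0 ∨ b ≠ 0) ∧ a • x + b • y ∈ B := by
  constructor
  · intro h x hx y hy
    obtain ⟨F, h1, h2⟩ := exists_HRk h
    obtain ⟨v, -, hv⟩ := (rank_submodule_le_one_iff F).1 (by simpa using h1)
    obtain ⟨f, hf, b, hb, rfl⟩ := Submodule.mem_sup.1 (h2 hx)
    obtain ⟨f', hf', b', hb', rfl⟩ := Submodule.mem_sup.1 (h2 hy)
    obtain ⟨s, rfl⟩ := Submodule.mem_span_singleton.1 (hv hf)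
    obtain ⟨s', rfl⟩ := Submodule.mem_span_singleton.1 (hv hf')
    by_cases hs : s = 0
    · exact ⟨1, 0, .inl one_ne_zero, by simpa [hs] using hb⟩
    · refine ⟨s', -s, .inr (neg_ne_zero.2 hs), ?_⟩
      have e : s' • (s • v + b) + -s • (s' • v + b') = s' • b - s • b' := by module
      rw [e]
      exact sub_mem (B.smul_mem _ hb) (B.smul_mem _ hb')
  · intro h
    by_cases hZ : Z ≤ B
    · exact (rk_zero.2 hZ).mono le_sup_left le_rfl zero_le_one
    obtain ⟨x, hx, hxB⟩ := SetLike.not_le_iff_exists.1 hZ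
    refine of_le_HRk (F := k ∙ x) ((rank_span_le _).trans (by simp)) fun y hy => ?_
    obtain ⟨a, b, hab, hm⟩ := h x hx y hy
    have hb : b ≠ 0 := by
      rintro rfl
      rw [zero_smul, add_zero, B.smul_mem_iff (hab.resolve_right fun h => h rfl)] at hm
      exact hxB hm
    refine Submodule.mem_sup.2 ⟨-(b⁻¹ * a) • x, Submodule.mem_span_singleton.2 ⟨_, rfl⟩,
      b⁻¹ • (a • x + b • y), B.smul_mem _ hm, ?_⟩
    rw [smul_add, inv_smul_smul₀ hb, smul_smul, neg_smul, neg_add_cancel_left]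

theorem Rk.finrank_le [FiniteDimensional k W] {Z B : Submodule k W} {r : ℕ} (h : Rk Z B r) :
    Module.finrank k Z ≤ Module.finrank k B + r := by
  obtain ⟨F, h1, h2⟩ := exists_HRk h
  have h3 := Module.finrank_le_of_rank_le h1
  have h4 := Submodule.finrank_mono h2
  have h5 := Submodule.finrank_add_le_finrank_add_finrank F B
  omega

theorem zc_chn {X : Type} [TopologicalSpace X] (S : Set X) (n : ℕ) :
    zc (bd k X) (chn k S) n = cyc k S n := by
  cases n <;> rfl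

theorem bc_chn {X : Type} [TopologicalSpace X] (S : Set X) (n : ℕ) :
    bc (bd k X) (chn k S) n = bdy k S n := by
  rfl

end RG
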