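import Pool.Agent.P.MP_8a106a_gt.HDefs
import Pool.Agent.Lib.Unif.FB

/-! Locally constant families over a simply connected space have sections. -/

set_option autoImplicit false
set_option linter.unusedSectionVars false

noncomputable section

namespace RG

open HK3 Pool.Agent.P.MP_9699e0_gt Pool.Agent.P.MP_8a106a_gt Set Filter Topology

/-- Let `F x` be the quotient of `D x` by `r x`. Over the interior `U i` of the neighbourhood given
at `i`, the maps `DU i → F x` identify all `F x` with one set `Q i`. By connectedness all `Q i` are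
in bijection with one type `Q`; the transition bijections form a locally constant cocycle with
values in `Equiv.Perm Q`, which is trivial by `Pool.Agent.Lib.Unif.cocycle_trivial`. -/
theorem exists_section {X W : Type} [TopologicalSpace X] [SimplyConnectedSpace X]
    [LocallyPathConnectedSpace X] (D : X → Set W) (r : X → W → W → Prop)
    (hr : ∀ x, Equivalence (r x)) (ho : ∀ x w w', r x w w' → ∀ᶠ y in 𝓝 x, r y w w')
    (loc : ∀ x₀, ∃ U ∈ 𝓝 x₀, ∃ DU : Set W, DU.Nonempty ∧ (∀ x ∈ U, DU ⊆ D x) ∧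
      (∀ x ∈ U, ∀ w ∈ D x, ∃ w' ∈ DU, r x w w') ∧
      ∀ x ∈ U, ∀ x' ∈ U, ∀ w ∈ DU, ∀ w' ∈ DU, r x w w' → r x' w w') :
    ∃ s : X → W, ∀ x₀, ∃ w, ∀ᶠ x in 𝓝 x₀, w ∈ D x ∧ r x w (s x) := by
  classical
  choose U' hU' DU hne hD hs hk using loc
  let U : X → Set X := fun i => interior (U' i)
  have hUo : ∀ i, IsOpen (U i) := fun i => isOpen_interior
  have hm : ∀ i, i ∈ U i := fun i => mem_interior_iff_mem_nhds.2 (hU' i)
  have hsub : ∀ i, U i ⊆ U' i := fun i => interior_subset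
  let S : ∀ x, Setoid (D x) := fun x => ⟨fun a b => r x a b,
    ⟨fun a => (hr x).refl a, fun h => (hr x).symm h, fun h h' => (hr x).trans h h'⟩⟩
  let F : X → Type := fun x => Quotient (S x)
  let mk : ∀ x w, w ∈ D x → F x := fun x w hw => Quotient.mk (S x) ⟨w, hw⟩
  have hmk : ∀ x w hw w' hw', mk x w hw = mk x w' hw' ↔ r x w w' := fun x w hw w' hw' =>
    Quotient.eq (r := S x)
  have hsurj : ∀ i x (hx : x ∈ U i) (q : F x),
      ∃ w, ∃ hw : w ∈ DU i, mk x w (hD i x (hsub i hx) hw) = q := by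
    intro i x hx q
    obtain ⟨⟨w, hw⟩, rfl⟩ := Quotient.exists_rep q
    obtain ⟨w', hw', h⟩ := hs i x (hsub i hx) w hw
    exact ⟨w', hw', (hmk x _ _ w hw).2 ((hr x).symm h)⟩
  have he : ∀ i x (hx : x ∈ U i), ∃ e : F x ≃ F i, ∀ w (hw : w ∈ DU i),
      e (mk x w (hD i x (hsub i hx) hw)) = mk i w (hD i i (hsub i (hm i)) hw) := by
    intro i x hx
    choose p hp hq using hsurj i x hx
    have key : ∀ w (hw : w ∈ DU i), mk i (p (mk x w (hD i x (hsub i hx) hw)))
        (hD i i (hsub i (hm i)) (hp _)) = mk i w (hD i i (hsub i (hm i)) hw) := fun w hw =>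
      (hmk i _ _ _ _).2 (hk i x (hsub i hx) i (hsub i (hm i)) _ (hp _) w hw
        ((hmk x _ _ _ _).1 (hq _)))
    refine ⟨Equiv.ofBijective (fun q => mk i (p q) (hD i i (hsub i (hm i)) (hp q)))
      ⟨fun q q' h => ?_, fun q => ?_⟩, key⟩
    · rw [← hq q, ← hq q']
      exact (hmk x _ _ _ _).2 (hk i i (hsub i (hm i)) x (hsub i hx) _ (hp _) _ (hp _)
        ((hmk i _ _ _ _).1 h))
    · obtain ⟨w, hw, rfl⟩ := hsurj i i (hm i) q
      exact ⟨_, key w hw⟩
  obtain ⟨x0⟩ : Nonempty X := inferInstance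
  have hlc : IsLocallyConstant fun x => Cardinal.mk (F x) := by
    refine (IsLocallyConstant.iff_eventually_eq _).2 fun i => ?_
    filter_upwards [(hUo i).mem_nhds (hm i)] with x hx
    obtain ⟨e, -⟩ := he i x hx
    exact Cardinal.mk_congr e
  have ht : ∀ i, Nonempty (F i ≃ F x0) := fun i =>
    Cardinal.eq.1 (hlc.apply_eq_of_preconnectedSpace i x0)
  let t : ∀ i, F i ≃ F x0 := fun i => (ht i).some
  have hg : ∀ i x, ∃ g : F x ≃ F x0, ∀ (hx : x ∈ U i) w (hw : w ∈ DU i),
      g (mk x w (hD i x (hsub i hx) hw)) = t i (mk i w (hD i i (hsub i (hm i)) hw)) := by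
    intro i x
    by_cases hx : x ∈ U i
    · obtain ⟨e, h⟩ := he i x hx
      exact ⟨e.trans (t i), fun _ w hw => by rw [Equiv.trans_apply, h w hw]⟩
    · exact ⟨t x, fun h => absurd h hx⟩
  choose g hg using hg
  let c : X → X → X → Equiv.Perm (F x0) := fun i j x => (g j x).symm.trans (g i x)
  have hc1 : ∀ i j x, x ∈ U i → x ∈ U j → ∀ q, ∀ᶠ y in 𝓝 x, c i j y q = c i j x q := by
    intro i j x hi hj q
    obtain ⟨w, hw, hq⟩ := hsurj j x hj ((g j x).symm q)
    obtain ⟨w', hw', h⟩ := hs i x (hsub i hi) w (hD j x (hsub j hj) hw)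
    have hq' : q = t j (mk j w (hD j j (hsub j (hm j)) hw)) := by
      rw [← hg j x hj w hw, hq, Equiv.apply_symm_apply]
    have aux : ∀ y, y ∈ U i → y ∈ U j → r y w w' →
        c i j y q = t i (mk i w' (hD i i (hsub i (hm i)) hw')) := by
      intro y yi yj hy
      have h1 : (g j y).symm q = mk y w (hD j y (hsub j yj) hw) := by
        rw [Equiv.symm_apply_eq, hg j y yj w hw, hq']
      show g i y ((g j y).symm q) = _
      rw [h1, (hmk y _ _ w' (hD i y (hsub i yi) hw')).2 hy, hg i y yi w' hw']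
    filter_upwards [(hUo i).mem_nhds hi, (hUo j).mem_nhds hj, ho x w w' h] with y yi yj hy
    rw [aux y yi yj hy, aux x hi hj h]
  have hl : ∀ i j x, x ∈ U i → x ∈ U j → ∀ᶠ y in 𝓝 x, c i j y = c i j x := by
    intro i j x hi hj
    obtain ⟨V, ⟨hV, hVc⟩, hVs⟩ := (path_connected_basis x).mem_iff.1
      (((hUo i).inter (hUo j)).mem_nhds ⟨hi, hj⟩)
    filter_upwards [hV] with y hy
    ext q
    refine hVc.isConnected.isPreconnected.induction₂' (fun a b => c i j a q = c i j b q)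
      (fun a ha => ?_) ?_ hy (mem_of_mem_nhds hV)
    · filter_upwards [mem_nhdsWithin_of_mem_nhds (hc1 i j a (hVs ha).1 (hVs ha).2 q)] with b hb
      exact ⟨hb.symm, hb⟩
    · exact fun _ _ _ _ _ _ h h' => h.trans h'
  obtain ⟨σ, h1, h2⟩ := Pool.Agent.Lib.Unif.cocycle_trivial U hUo hm c hl
    (fun i j k x _ _ _ => by
      ext q
      simp [c, Equiv.Perm.mul_apply])
  obtain ⟨w0, hw0⟩ := hne x0
  let q0 : F x0 := mk x0 w0 (hD x0 x0 (hsub x0 (hm x0)) hw0)
  choose p hp hq using fun x => hsurj x x (hm x) ((g x x).symm (σ x x q0))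
  refine ⟨p, fun i => ⟨p i, ?_⟩⟩
  filter_upwards [(hUo i).mem_nhds (hm i), h1 i i (hm i)] with x hx hσ
  refine ⟨hD i x (hsub i hx) (hp i), (hmk x _ (hD i x (hsub i hx) (hp i)) _
    (hD x x (hsub x (hm x)) (hp x))).1 ?_⟩
  apply (g i x).injective
  rw [hg i x hx _ (hp i), ← hg i i (hm i) _ (hp i), hq i, hq x, Equiv.apply_symm_apply, ← hσ,
    h2 i x x hx (hm x)]
  rfl

end RG
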