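import Pool.Agent.P.MP_8a106a_gt.HG
import Pool.Agent.P.MP_8a106a_gt.HS

/-! Vanishing theorems for a compact simply connected five-manifold. -/

set_option autoImplicit false
set_option linter.unusedSectionVars false

noncomputable section

namespace RG

open HK3 Pool.Agent.P.MP_9699e0_gt Pool.Agent.P.MP_8a106a_gt Set Filter Topology

variable {k : Type} [Field k] {X : Type} [TopologicalSpace X] [T2Space X] [CompactSpace X]

theorem triv_univ_HV (n : ℕ) : Triv k (univ : Set X) n = bdy k univ n := by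
  rw [Triv, compl_univ, chn_empty, sup_bot_eq]

theorem h_high (hX : Loc5 X) {n : ℕ} (hn : 5 ≤ n) :
    cyc k (univ : Set X) (n + 1) ≤ bdy k univ (n + 1) := fun ζ hζ => by
  rw [← triv_univ_HV]
  exact (good_compact hX isCompact_univ).high n hn ζ (by rw [LinearMap.mem_ker.1 hζ.2]; simp)

/-- The set of points where a cycle is trivial is open and closed (`Cvx.inj`); use `pt_rank`,
`Rk.comap` and `Good.inj` for `univ`. -/
theorem h_five [ConnectedSpace X] (hX : Loc5 X) :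
    Rk (cyc k (univ : Set X) 5) (bdy k univ 5) 1 := by
  obtain ⟨x₀⟩ : Nonempty X := inferInstance
  have h0 : ∀ ζ ∈ cyc k (univ : Set X) 5, ∀ S : Set X, bd k X 4 ζ ∈ chn k S 4 := fun ζ hζ S => by
    rw [LinearMap.mem_ker.1 hζ.2]
    exact zero_mem _
  refine (pt_rank hX x₀).comap LinearMap.id (fun ζ hζ => h0 ζ hζ _) fun ζ hζ h => ?_
  have key : ∀ x : X, ∀ᶠ y in 𝓝 x, (ζ ∈ Triv k {y} 5 ↔ ζ ∈ Triv k {x} 5) := fun x => by
    obtain ⟨K, hK, -, hx⟩ := exists_cvx hX (univ_mem : univ ∈ 𝓝 x)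
    filter_upwards [hx] with y hy
    exact ⟨fun h => Triv.anti (singleton_subset_iff.2 (mem_of_mem_nhds hx)) 5
        (hK.inj hy (h0 ζ hζ _) h),
      fun h => Triv.anti (singleton_subset_iff.2 hy) 5 (hK.inj (mem_of_mem_nhds hx) (h0 ζ hζ _) h)⟩
  have hl : IsLocallyConstant fun y : X => ζ ∈ Triv k {y} 5 :=
    (IsLocallyConstant.iff_eventually_eq _).2 fun x => (key x).mono fun _ => propext
  rw [← triv_univ_HV]
  exact (good_compact hX isCompact_univ).inj ζ (h0 ζ hζ _) fun x _ =>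
    (hl.apply_eq_of_preconnectedSpace x₀ x).mp h

theorem Loc5.lpc (hX : Loc5 X) : LocallyPathConnectedSpace X := by
  refine ⟨fun x => ⟨fun N => ⟨fun hN => ?_, fun ⟨_, h, h'⟩ => mem_of_superset h.1 h'⟩⟩⟩
  obtain ⟨K, ⟨e, K', -, hc, hV, rfl⟩, hKN, hx⟩ := exists_cvx hX hN
  exact ⟨_, ⟨hx, (hc.isPathConnected (Nonempty.of_image ⟨x, mem_of_mem_nhds hx⟩)).image'
    (e.continuousOn_symm.mono hV)⟩, hKN⟩

theorem pt_le_HV {K : Set X} {x : X} (hx : x ∈ K) (n : ℕ) : chn k Kᶜ n ≤ chn k {x}ᶜ n :=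
  chn_mono (compl_subset_compl.2 (singleton_subset_iff.2 hx)) n

theorem section_HV [SimplyConnectedSpace X] (hX : Loc5 X) {z : Chn k X 4} (hz : bd k X 3 z = 0) :
    ∃ s : X → Chn k X 5, ∀ x₀, ∃ w, ∀ᶠ x in 𝓝 x₀,
      bd k X 4 w - z ∈ chn k {x}ᶜ 4 ∧ w - s x ∈ Triv k {x} 5 := by
  have := hX.lpc
  refine exists_section (fun x => {w | bd k X 4 w - z ∈ chn k {x}ᶜ 4})
    (fun x w w' => w - w' ∈ Triv k {x} 5) (fun x => ⟨fun w => by simp, fun h => ?_, fun h h' => ?_⟩)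
    (fun x w w' h => ?_) fun x₀ => ?_
  · simpa using neg_mem h
  · simpa using add_mem h h'
  · obtain ⟨b, hb, c, hc, e⟩ := Submodule.mem_sup.1 h
    obtain ⟨C, hC, hCx, hc'⟩ := exists_compact hc
    filter_upwards [hC.isClosed.isOpen_compl.mem_nhds fun h => hCx h rfl] with y hy
    exact Submodule.mem_sup.2 ⟨b, hb, c, chn_mono (subset_compl_singleton_iff.2 hy) 5 hc', e⟩
  obtain ⟨K, hK, -, hx⟩ := exists_cvx hX (univ_mem : univ ∈ 𝓝 x₀)
  have h1 : z ∈ Triv k K 4 := hK.inj (mem_of_mem_nhds hx) (by rw [hz]; simp)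
    (pt_van hX (by norm_num) (by norm_num) (by rw [hz]; simp))
  obtain ⟨_, ⟨w₀, -, rfl⟩, c, hc, e⟩ := Submodule.mem_sup.1 h1
  have h0 : bd k X 4 w₀ - z ∈ chn k Kᶜ 4 := by simpa [← e] using hc
  refine ⟨K, hx, {w | bd k X 4 w - z ∈ chn k Kᶜ 4}, ⟨w₀, h0⟩, fun x hx w hw => pt_le_HV hx 4 hw,
    fun x hx w hw => ?_, fun x hx x' hx' w hw w' hw' h => ?_⟩
  · obtain ⟨ζ, h2, h3⟩ := hK.surj hx (ζ := w - w₀) (by simpa using sub_mem hw (pt_le_HV hx 4 h0))
    refine ⟨w₀ + ζ, ?_, by rwa [← _root_.sub_sub]⟩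
    rw [mem_ofPred_eq, map_add, add_sub_right_comm]
    exact add_mem h0 h2
  · rw [mem_ofPred_eq] at hw hw'
    exact Triv.anti (singleton_subset_iff.2 hx') 5 (hK.inj hx (by simpa using sub_mem hw hw') h)

theorem glue_HV (hX : Loc5 X) {z : Chn k X 4} {s : X → Chn k X 5} {K K' : Set X}
    (hK : IsCompact K) (hK' : IsCompact K') {w w' : Chn k X 5} (h1 : bd k X 4 w - z ∈ chn k Kᶜ 4)
    (h2 : ∀ x ∈ K, w - s x ∈ Triv k {x} 5) (h1' : bd k X 4 w' - z ∈ chn k K'ᶜ 4)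
    (h2' : ∀ x ∈ K', w' - s x ∈ Triv k {x} 5) :
    ∃ v, bd k X 4 v - z ∈ chn k (K ∪ K')ᶜ 4 ∧ ∀ x ∈ K ∪ K', v - s x ∈ Triv k {x} 5 := by
  have hb : ∀ β ∈ bdy k (univ : Set X) 5, bd k X 4 β = 0 := fun β h => (bdy_le _ 5 h).2
  have h3 : bd k X 4 (w - w') ∈ chn k Kᶜ 4 ⊔ chn k K'ᶜ 4 := by
    simpa using sub_mem (Submodule.mem_sup_left h1) (Submodule.mem_sup_right h1')
  have hle : chn k Kᶜ 4 ⊔ chn k K'ᶜ 4 ≤ chn k (K ∩ K')ᶜ 4 :=
    sup_le (chn_mono (compl_subset_compl.2 inter_subset_left) 4)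
      (chn_mono (compl_subset_compl.2 inter_subset_right) 4)
  have h4 : w - w' ∈ Triv k (K ∩ K') 5 :=
    (good_compact hX (hK.inter_right hK'.isClosed)).inj _ (hle h3)
      fun x hx => by simpa using sub_mem (h2 x hx.1) (h2' x hx.2)
  obtain ⟨β, hβ, t, ht, e⟩ := Submodule.mem_sup.1 h4
  obtain ⟨a, ha, b, hb', h5⟩ := triv_split hK.isClosed hK'.isClosed ht
    (by rwa [← e, map_add, hb β hβ, zero_add] at h3)
  have h6 : w - a - (w' + b) ∈ bdy k (univ : Set X) 5 := by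
    have e' : w - a - (w' + b) = β + (t - a - b) := by
      rw [sub_eq_iff_eq_add.1 e.symm]
      abel
    rw [e']
    exact add_mem hβ h5
  refine ⟨w - a, ?_, fun x hx => ?_⟩
  · rw [compl_union, chn_inter]
    refine ⟨?_, ?_⟩
    · rw [map_sub, sub_right_comm]
      exact sub_mem h1 (bd_mem ha)
    · rw [sub_eq_zero.1 ((map_sub _ _ _).symm.trans (hb _ h6)), map_add, add_sub_right_comm]
      exact add_mem h1' (bd_mem hb')
  · rcases hx with hx | hx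
    · rw [sub_right_comm]
      exact sub_mem (h2 x hx) (Submodule.mem_sup_right (pt_le_HV hx 5 ha))
    · have e' : w - a - s x = w - a - (w' + b) + b + (w' - s x) := by abel
      rw [e']
      exact add_mem (add_mem (Submodule.mem_sup_left h6)
        (Submodule.mem_sup_right (pt_le_HV hx 5 hb'))) (h2' x hx)

/-- For a cycle `z` let `D x = {w | bd w - z ∈ chn {x}ᶜ}` and `r x w w' = (w - w' ∈ Triv {x})`.
For a convex neighbourhood `K` take `DU = {w | bd w - z ∈ chn Kᶜ}` (nonempty by `pt_van` and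
`Cvx.inj`; `Cvx.surj`, `Cvx.inj`). Take a section `s` and prove by `IsCompact.induction_on` that
for compact `K` there is `w` with `bd w - z ∈ chn Kᶜ` and `r x w (s x)` on `K`; unions by
`Good.inj` for `K ∩ K'` and `triv_split`. -/
theorem h_four [SimplyConnectedSpace X] (hX : Loc5 X) :
    cyc k (univ : Set X) 4 ≤ bdy k univ 4 := by
  intro z hz
  obtain ⟨s, hs⟩ := section_HV hX (LinearMap.mem_ker.1 hz.2)
  have key : ∃ K, IsCompact K ∧ univ ⊆ K ∧ ∃ w, bd k X 4 w - z ∈ chn k Kᶜ 4 ∧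
      ∀ x ∈ K, w - s x ∈ Triv k {x} 5 := by
    refine (isCompact_univ (X := X)).induction_on (p := fun S => ∃ K, IsCompact K ∧ S ⊆ K ∧
      ∃ w, bd k X 4 w - z ∈ chn k Kᶜ 4 ∧ ∀ x ∈ K, w - s x ∈ Triv k {x} 5)
      ⟨∅, isCompact_empty, Subset.rfl, 0, by simp [chn_univ], by simp⟩
      (fun S T h ⟨K, hK, hT, hw⟩ => ⟨K, hK, h.trans hT, hw⟩) ?_ fun x₀ _ => ?_
    · rintro S T ⟨K, hK, hS, w, h1, h2⟩ ⟨K', hK', hT, w', h1', h2'⟩
      exact ⟨K ∪ K', hK.union hK', union_subset_union hS hT, glue_HV hX hK hK' h1 h2 h1' h2'⟩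
    · obtain ⟨w, hw⟩ := hs x₀
      obtain ⟨K, hK, hKN, hx⟩ := exists_cvx hX hw
      exact ⟨K, mem_nhdsWithin_of_mem_nhds hx, K, hK.compact, Subset.rfl, w,
        mem_chn_iff.2 fun σ hσ y hy hyK => mem_chn_iff.1 (hKN hyK).1 σ hσ hy rfl,
        fun x hx => (hKN hx).2⟩
  obtain ⟨K, -, hK, w, hw, -⟩ := key
  rw [univ_subset_iff.1 hK, compl_univ, chn_empty, Submodule.mem_bot, sub_eq_zero] at hw
  exact ⟨w, by simp [chn_univ], hw⟩

end RG
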