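import Pool.Agent.P.MP_8a106a_gt.RDefs

/-! Lemmas of calculus. -/

set_option autoImplicit false
set_option maxSynthPendingDepth 3
set_option linter.unusedSectionVars false

noncomputable section

namespace RG

open Pool.Agent.P.MP_8a106a_gt Set Filter Topology Asymptotics Metric
open scoped ContDiff

variable {E F : Type} [NormedAddCommGroup E] [NormedSpace ℝ E] [NormedAddCommGroup F]
  [NormedSpace ℝ F]

theorem tendsto_slope_RU {p₀ v : E} {l : Filter ℝ} (hl : l ≤ 𝓝[≠] 0) {p : ℝ → E}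
    (hp : Tendsto (fun h : ℝ => h⁻¹ • (p h - p₀)) l (𝓝 v)) : Tendsto p l (𝓝 p₀) := by
  have h0 : Tendsto (fun h : ℝ => h) l (𝓝 0) := hl.trans nhdsWithin_le_nhds
  have h1 := (h0.smul hp).const_add p₀
  rw [zero_smul, add_zero] at h1
  refine h1.congr' ?_
  filter_upwards [hl self_mem_nhdsWithin] with h hh
  rw [smul_inv_smul₀ hh, add_sub_cancel]

theorem mid_le_RU {ψ ψ' ψ'' : ℝ → ℝ} {δ c : ℝ} (h1 : ∀ t ∈ ball (0 : ℝ) δ, HasDerivAt ψ (ψ' t) t)
    (h2 : ∀ t ∈ ball (0 : ℝ) δ, HasDerivAt ψ' (ψ'' t) t) (h3 : ∀ t ∈ ball (0 : ℝ) δ, ψ'' t ≤ c)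
    {s : ℝ} (hs : s ∈ ball (0 : ℝ) δ) : ψ s + ψ (-s) ≤ 2 * ψ 0 + s ^ 2 * c := by
  have d1 : ∀ t ∈ ball (0 : ℝ) δ, HasDerivAt (fun t => ψ t - c / 2 * t ^ 2) (ψ' t - c * t) t :=
    fun t ht => by
      have := (h1 t ht).sub ((hasDerivAt_pow 2 t).const_mul (c / 2))
      refine HasDerivAt.congr_deriv this ?_
      simp only [Nat.cast_ofNat, Nat.add_one_sub_one, pow_one]
      ring
  have d2 : ∀ t ∈ ball (0 : ℝ) δ, HasDerivAt (fun t => ψ' t - c * t) (ψ'' t - c) t :=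
    fun t ht => by
      have := (h2 t ht).sub ((hasDerivAt_id t).const_mul c)
      refine HasDerivAt.congr_deriv this ?_
      ring
  have hc : ConcaveOn ℝ (ball (0 : ℝ) δ) fun t => ψ t - c / 2 * t ^ 2 := by
    refine concaveOn_of_hasDerivWithinAt2_nonpos (f' := fun t => ψ' t - c * t)
      (f'' := fun t => ψ'' t - c) (convex_ball _ _)
      (fun t ht => (d1 t ht).continuousAt.continuousWithinAt)
      (fun t ht => (d1 t (interior_subset ht)).hasDerivWithinAt)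
      (fun t ht => (d2 t (interior_subset ht)).hasDerivWithinAt) fun t ht => ?_
    exact sub_nonpos.2 (h3 t (interior_subset ht))
  have hs' : -s ∈ ball (0 : ℝ) δ := by simpa using hs
  have := hc.2 hs hs' (show (0 : ℝ) ≤ 1 / 2 by norm_num) (show (0 : ℝ) ≤ 1 / 2 by norm_num)
    (by norm_num)
  simp only [smul_eq_mul] at this
  rw [show 1 / 2 * s + 1 / 2 * -s = 0 by ring] at this
  nlinarith

/-- Peano's form of the second order expansion: the derivative of the difference is `o(s)`, use the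
mean value inequality on `[-|s|, |s|]`. -/
theorem peano {α β : ℝ → E} {a : E} {t : ℝ} (h : ∀ᶠ x in 𝓝 t, HasDerivAt α (β x) x)
    (h' : HasDerivAt β a t) :
    (fun s => α (t + s) - (α t + s • β t + (s ^ 2 / 2) • a)) =o[𝓝 0] fun s => s ^ 2 := by
  have h0 : Tendsto (fun s : ℝ => t + s) (𝓝 0) (𝓝 t) := by
    simpa using (tendsto_id (x := 𝓝 (0 : ℝ))).const_add t
  obtain ⟨δ, hδ, hb⟩ := Metric.eventually_nhds_iff_ball.1 (h0.eventually h)
  have hn : 𝓝[ball (0 : ℝ) δ] (0 : ℝ) = 𝓝 0 := nhdsWithin_eq_nhds.2 (ball_mem_nhds _ hδ)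
  have key := (convex_ball (0 : ℝ) δ).isLittleO_pow_succ_real (n := 1) (mem_ball_self hδ)
    (f := fun s => α (t + s) - (α t + s • β t + (s ^ 2 / 2) • a))
    (f' := fun s => β (t + s) - β t - s • a) (fun s hs => by
      have d1 : HasDerivAt (fun s => α (t + s)) (β (t + s)) s := (hb s hs).comp_const_add t s
      have d2 : HasDerivAt (fun s : ℝ => s ^ 2 / 2) s s := by
        simpa using (hasDerivAt_pow 2 s).div_const 2
      have d3 := d1.sub ((((hasDerivAt_id s).smul_const (β t)).const_add (α t)).add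
        (d2.smul_const a))
      refine HasDerivAt.hasDerivWithinAt (HasDerivAt.congr_deriv d3 ?_)
      rw [one_smul, sub_sub]) (by
      rw [hn]
      simpa using hasDerivAt_iff_isLittleO_nhds_zero.1 h')
  rw [hn] at key
  simpa using key

/-- Schwarz's criterion. For `ε > 0` and `a ≤ x < y ≤ b`, the function `f - ε * t ^ 2` minus its
chord over `[x, y]` cannot have a negative minimum: at an interior minimum point the second
difference of `f` is at least `2 * ε * s ^ 2`. -/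
theorem schwarz {f : ℝ → ℝ} {a b : ℝ} (hc : ContinuousOn f (Icc a b))
    (h : ∀ t ∈ Ioo a b, ∀ ε : ℝ, 0 < ε → ∀ᶠ s in 𝓝[>] (0 : ℝ),
      f (t + s) + f (t - s) ≤ 2 * f t + ε * s ^ 2) : ConcaveOn ℝ (Icc a b) f := by
  refine LinearOrder.concaveOn_of_lt (convex_Icc a b) fun x hx y hy hxy u v hu hv huv => ?_
  have hsub : Icc x y ⊆ Icc a b := Icc_subset_Icc hx.1 hy.2
  have hd : 0 < y - x := sub_pos.2 hxy
  set c := (f y - f x) / (y - x) with hcdef
  have hcy : f x + c * (y - x) = f y := by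
    rw [hcdef]
    field_simp
    ring
  have main : ∀ ε : ℝ, 0 < ε → ∀ z ∈ Icc x y,
      0 ≤ f z - (f x + c * (z - x)) - ε * ((z - x) * (z - y)) := by
    intro ε hε
    obtain ⟨m, hm, hmin⟩ := (isCompact_Icc (a := x) (b := y)).exists_isMinOn
      (f := fun z => f z - (f x + c * (z - x)) - ε * ((z - x) * (z - y)))
      (nonempty_Icc.2 hxy.le) (((hc.mono hsub).sub (by fun_prop)).sub (by fun_prop))
    intro z hz
    refine le_trans ?_ (hmin hz)
    by_contra hneg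
    simp only [not_le] at hneg
    have hmx : x < m := lt_of_le_of_ne hm.1 (by
      rintro rfl
      simp at hneg)
    have hmy : m < y := lt_of_le_of_ne hm.2 (by
      rintro rfl
      rw [hcy] at hneg
      simp at hneg)
    have e1 := h m ⟨hx.1.trans_lt hmx, hmy.trans_le hy.2⟩ ε hε
    have e2 : ∀ᶠ s in 𝓝[>] (0 : ℝ), s < min (m - x) (y - m) :=
      nhdsWithin_le_nhds (gt_mem_nhds (lt_min (sub_pos.2 hmx) (sub_pos.2 hmy)))
    obtain ⟨s, ⟨hs1, hs2⟩, hs0⟩ := ((e1.and e2).and self_mem_nhdsWithin).exists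
    have hs0' : 0 < s := hs0
    rw [lt_min_iff] at hs2
    have k1 := hmin (a := m + s) ⟨by linarith, by linarith [hs2.2]⟩
    have k2 := hmin (a := m - s) ⟨by linarith [hs2.1], by linarith⟩
    simp only [mem_setOf_eq] at k1 k2
    have : 0 < ε * s ^ 2 := by positivity
    nlinarith
  simp only [smul_eq_mul]
  obtain rfl : u = 1 - v := by linarith
  have hz : (1 - v) * x + v * y ∈ Icc x y := ⟨by nlinarith, by nlinarith⟩
  refine le_of_forall_pos_le_add fun η hη => ?_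
  have hpos : 0 < v * (1 - v) * (y - x) ^ 2 := by positivity
  have k := main (η / (v * (1 - v) * (y - x) ^ 2)) (by positivity) _ hz
  have e : η / (v * (1 - v) * (y - x) ^ 2) *
      (((1 - v) * x + v * y - x) * ((1 - v) * x + v * y - y)) = -η := by
    rw [show ((1 - v) * x + v * y - x) * ((1 - v) * x + v * y - y) =
      -(v * (1 - v) * (y - x) ^ 2) by ring, mul_neg, div_mul_cancel₀ _ hpos.ne']
  rw [e] at k
  have e2 : c * ((1 - v) * x + v * y - x) = v * (f y - f x) := by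
    rw [← hcy]
    ring
  rw [e2] at k
  linarith

/-- The chain rule for difference quotients along a filter. -/
theorem slope_comp {f : E → F} {f' : E →L[ℝ] F} {p₀ v : E} (hf : HasFDerivAt f f' p₀)
    {l : Filter ℝ} (hl : l ≤ 𝓝[≠] 0) {p : ℝ → E}
    (hp : Tendsto (fun h : ℝ => h⁻¹ • (p h - p₀)) l (𝓝 v)) :
    Tendsto (fun h : ℝ => h⁻¹ • (f (p h) - f p₀)) l (𝓝 (f' v)) := by
  have h1 := hf.isLittleO.comp_tendsto (tendsto_slope_RU hl hp)
  have h2 := ((isBigO_refl (fun h : ℝ => h⁻¹) l).smul_isLittleO h1).trans_isBigO (hp.isBigO_one ℝ)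
  have h3 := ((isLittleO_one_iff ℝ).1 h2).add ((f'.continuous.tendsto v).comp hp)
  rw [zero_add] at h3
  refine h3.congr fun h => ?_
  simp only [Function.comp, map_smul]
  rw [← smul_add, sub_add_cancel]

theorem tendsto_of_slope {p₀ v : E} {l : Filter ℝ} (hl : l ≤ 𝓝[≠] 0) {p : ℝ → E}
    (hp : Tendsto (fun h : ℝ => h⁻¹ • (p h - p₀)) l (𝓝 v)) : Tendsto p l (𝓝 p₀) := by
  exact tendsto_slope_RU hl hp

/-- `image_le_of_liminf_slope_right_le_deriv_boundary` for `t ↦ dist (γ a) (γ t)`. -/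
theorem dini_dist {Y : Type} [PseudoMetricSpace Y] {γ : ℝ → Y} {a b : ℝ} (hab : a ≤ b)
    (hγ : ContinuousOn γ (Icc a b)) {B B' : ℝ → ℝ} (hB : ∀ t, HasDerivAt B (B' t) t)
    (h : ∀ t ∈ Ico a b, ∃ (l : Filter ℝ) (r : ℝ), l.NeBot ∧ l ≤ 𝓝[>] 0 ∧ r ≤ B' t ∧
      Tendsto (fun h : ℝ => dist (γ (t + h)) (γ t) / h) l (𝓝 r)) :
    dist (γ a) (γ b) ≤ B b - B a := by
  have key := image_le_of_liminf_slope_right_le_deriv_boundary (f := fun t => dist (γ a) (γ t))
    (a := a) (b := b) (fun t ht => tendsto_const_nhds.dist (hγ t ht)) (B := fun t => B t - B a) (B' := B')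
    (by simp) (fun t _ => ((hB t).sub_const _).continuousAt.continuousWithinAt)
    (fun t _ => ((hB t).sub_const _).hasDerivWithinAt) (fun x hx r hr => ?_) (right_mem_Icc.2 hab)
  · exact key
  obtain ⟨l, r', hl, hl', hr', ht⟩ := h x hx
  have hpos : ∀ᶠ s in l, (0 : ℝ) < s := hl' self_mem_nhdsWithin
  have h0 : Tendsto (fun s : ℝ => x + s) l (𝓝[>] x) := by
    refine tendsto_nhdsWithin_iff.2 ⟨?_, hpos.mono fun s hs => by simpa using hs⟩
    have h1 : Tendsto (fun s : ℝ => s) l (𝓝 0) := hl'.trans nhdsWithin_le_nhds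
    simpa using h1.const_add x
  refine h0.frequently (Eventually.frequently ?_)
  filter_upwards [hpos, ht.eventually (gt_mem_nhds (hr'.trans_lt hr))] with s hs hs'
  refine lt_of_le_of_lt ?_ hs'
  rw [slope_def_field, add_sub_cancel_left]
  refine div_le_div_of_nonneg_right ?_ hs.le
  linarith [dist_triangle (γ a) (γ x) (γ (x + s)), dist_comm (γ x) (γ (x + s))]

/-- The second derivative in `s` is continuous near each ` (p, 0)`; use
`IsCompact.eventually_forall_of_forall_eventually` or uniform continuity, and the mean value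
theorem twice (or concavity of `Ψ (p, s) - (q p + ε) * s ^ 2 / 2`). -/
theorem unif_taylor {Ψ : E × ℝ → ℝ} {S : Set E} (hS : IsCompact S)
    (h : ∀ p ∈ S, ContDiffAt ℝ 2 Ψ (p, 0)) {ε : ℝ} (hε : 0 < ε) :
    ∀ᶠ s in 𝓝 (0 : ℝ), ∀ p ∈ S, Ψ (p, s) + Ψ (p, -s) ≤
      2 * Ψ (p, 0) + s ^ 2 * (deriv (deriv fun t => Ψ (p, t)) 0 + ε) := by
  refine hS.eventually_forall_of_forall_eventually (P := fun s p => Ψ (p, s) + Ψ (p, -s) ≤
    2 * Ψ (p, 0) + s ^ 2 * (deriv (deriv fun t => Ψ (p, t)) 0 + ε)) fun p hp => ?_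
  let D₁ : E × ℝ → ℝ := fun x => fderiv ℝ Ψ x (0, 1)
  let D₂ : E × ℝ → ℝ := fun x => fderiv ℝ D₁ x (0, 1)
  have c1 : ContDiffAt ℝ 1 D₁ (p, 0) :=
    ((h p hp).fderiv_right (m := 1) (by norm_num)).clm_apply contDiffAt_const
  have c2 : ContinuousAt D₂ (p, 0) :=
    ((c1.fderiv_right (m := 0) (by norm_num)).clm_apply contDiffAt_const).continuousAt
  have e1 := (h p hp).eventually (by simp)
  have e2 := c1.eventually (by simp)
  have e3 := Metric.tendsto_nhds.1 c2 (ε / 2) (half_pos hε)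
  obtain ⟨δ, hδ, hb⟩ := Metric.eventually_nhds_iff_ball.1 ((e1.and e2).and e3)
  have sl : ∀ {Φ : E × ℝ → ℝ} {q : E} {t : ℝ}, DifferentiableAt ℝ Φ (q, t) →
      HasDerivAt (fun t => Φ (q, t)) (fderiv ℝ Φ (q, t) (0, 1)) t := fun {Φ q t} hΦ =>
    hΦ.hasFDerivAt.comp_hasDerivAt t ((hasDerivAt_const t q).prodMk (hasDerivAt_id t))
  filter_upwards [ball_mem_nhds ((0 : ℝ), p) hδ] with z hz
  rw [← ball_prod_same] at hz
  have hm : ∀ t ∈ ball (0 : ℝ) δ, (z.2, t) ∈ ball (p, (0 : ℝ)) δ := fun t ht => by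
    rw [← ball_prod_same]
    exact ⟨hz.2, ht⟩
  have d1 : ∀ t ∈ ball (0 : ℝ) δ, HasDerivAt (fun t => Ψ (z.2, t)) (D₁ (z.2, t)) t := fun t ht =>
    sl ((hb _ (hm t ht)).1.1.differentiableAt (by norm_num))
  have d2 : ∀ t ∈ ball (0 : ℝ) δ, HasDerivAt (fun t => D₁ (z.2, t)) (D₂ (z.2, t)) t := fun t ht =>
    sl ((hb _ (hm t ht)).1.2.differentiableAt (by norm_num))
  have e : deriv (deriv fun t => Ψ (z.2, t)) 0 = D₂ (z.2, 0) := by
    rw [← (d2 0 (mem_ball_self hδ)).deriv]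
    refine EventuallyEq.deriv_eq ?_
    filter_upwards [ball_mem_nhds (0 : ℝ) hδ] with t ht using (d1 t ht).deriv
  rw [e]
  refine mid_le_RU d1 d2 (fun t ht => ?_) hz.1
  have k1 := (hb _ (hm t ht)).2
  have k2 := (hb _ (hm 0 (mem_ball_self hδ))).2
  rw [Real.dist_eq, abs_lt] at k1 k2
  linarith [k1.2, k2.1]

theorem sqrt_add_le {a x : ℝ} (ha : 0 < a) (hx : 0 ≤ a ^ 2 + x) :
    √(a ^ 2 + x) ≤ a + x / (2 * a) := by
  have e : a + x / (2 * a) = (2 * a ^ 2 + x) / (2 * a) := by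
    field_simp
  refine Real.sqrt_le_iff.2 ⟨?_, ?_⟩
  · rw [e]
    exact div_nonneg (by nlinarith) (by positivity)
  · have e2 : (a + x / (2 * a)) ^ 2 = a ^ 2 + x + (x / (2 * a)) ^ 2 := by
      field_simp
      ring
    rw [e2]
    exact le_add_of_nonneg_right (sq_nonneg _)

/-- Induction over `[0, 1]` (Lebesgue number or a supremum). -/
theorem icc_induct {P : ℝ → Prop} (h0 : P 0)
    (h : ∀ t ∈ Icc (0 : ℝ) 1, ∃ δ : ℝ, 0 < δ ∧ ∀ t₁ ∈ Icc (0 : ℝ) 1, ∀ t₂ ∈ Icc (0 : ℝ) 1,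
      |t₁ - t| < δ → |t₂ - t| < δ → t₁ ≤ t₂ → P t₁ → P t₂) : P 1 := by
  let T : Set ℝ := {t | t ∈ Icc (0 : ℝ) 1 ∧ P t}
  have hT0 : (0 : ℝ) ∈ T := ⟨⟨le_rfl, zero_le_one⟩, h0⟩
  have hb : BddAbove T := ⟨1, fun t ht => ht.1.2⟩
  have hs : sSup T ∈ Icc (0 : ℝ) 1 := ⟨le_csSup hb hT0, csSup_le ⟨0, hT0⟩ fun t ht => ht.1.2⟩
  obtain ⟨δ, hδ, hP⟩ := h _ hs
  obtain ⟨t₁, ht₁, hlt⟩ := exists_lt_of_lt_csSup ⟨0, hT0⟩ (sub_lt_self (sSup T) hδ)
  have hle : t₁ ≤ sSup T := le_csSup hb ht₁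
  have h1 : |t₁ - sSup T| < δ := abs_lt.2 ⟨by linarith, by linarith⟩
  by_cases hc : 1 ≤ sSup T + δ / 2
  · exact hP t₁ ht₁.1 1 ⟨zero_le_one, le_rfl⟩ h1 (abs_lt.2 ⟨by linarith [hs.2], by linarith⟩)
      ht₁.1.2 ht₁.2
  · have hm : sSup T + δ / 2 ∈ Icc (0 : ℝ) 1 := ⟨by linarith [hs.1], (not_le.1 hc).le⟩
    have := le_csSup hb (show sSup T + δ / 2 ∈ T from ⟨hm, hP t₁ ht₁.1 _ hm h1
      (abs_lt.2 ⟨by linarith, by linarith⟩) (by linarith) ht₁.2⟩)
    linarith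

end RG
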