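import Pool.Agent.P.MP_8a106a_gt.RD1
import Pool.Agent.P.MP_8a106a_gt.RU

/-! The lower bound for the distance and the metric space. -/

set_option autoImplicit false
set_option maxSynthPendingDepth 3
set_option linter.unusedSectionVars false

noncomputable section

namespace RG

open Pool.Agent.P.MP_8a106a_gt Set Filter Topology Asymptotics Metric
open scoped ContDiff

variable {E : Type} [NormedAddCommGroup E] [NormedSpace ℝ E] [FiniteDimensional ℝ E]
  {X : Type} [TopologicalSpace X] {A : Atl E X}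

theorem phi_cont_RD2 {i : A.ι} {B : E →L[ℝ] E →L[ℝ] ℝ} {u : E} {ρ : ℝ} {C : Set X} {φ : X → ℝ}
    (hC : IsClosed C) (hCs : C ⊆ (A.e i).source)
    (h1 : ∀ z ∈ (A.e i).source, φ z = min ρ (nrm B (A.e i z - u))) (h2 : ∀ z, z ∉ C → φ z = ρ) :
    Continuous φ := by
  refine continuous_iff_continuousAt.2 fun z => ?_
  by_cases hz : z ∈ C
  · have hs := hCs hz
    have hc : ContinuousAt (fun z => min ρ (nrm B (A.e i z - u))) z :=
      continuousAt_const.min (continuous_nrm.continuousAt.comp (f := fun z => (B, A.e i z - u))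
        (continuousAt_const.prodMk (((A.e i).continuousAt hs).sub continuousAt_const)))
    refine hc.congr ?_
    filter_upwards [(A.e i).open_source.mem_nhds hs] with y hy using (h1 y hy).symm
  · refine (continuousAt_const (y := ρ)).congr ?_
    filter_upwards [hC.isOpen_compl.mem_nhds hz] with y hy using (h2 y hy).symm

theorem nrm_scale_RD2 (g : E →L[ℝ] E →L[ℝ] ℝ) {c : ℝ} (hc : 0 ≤ c) (v : E) :
    nrm (c ^ 2 • g) v = c * nrm g v := by
  simp only [nrm, smul_apply, smul_eq_mul]
  rw [Real.sqrt_mul (sq_nonneg c), Real.sqrt_sq hc]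

theorem nrm_zero_RD2 (g : E →L[ℝ] E →L[ℝ] ℝ) : nrm g 0 = 0 := by
  simp [nrm]

theorem dd_small_RD2 {i : A.ι} {x : X} (hx : x ∈ (A.e i).source) {r : ℝ} (hr : 0 < r) :
    ∀ᶠ p : X × X in 𝓝 (x, x), A.dd p.1 p.2 < r := by
  have hc : ContinuousAt (fun p : X × X => (1 + 1) * nrm (A.g i x) (A.e i p.1 - A.e i p.2))
      (x, x) :=
    continuousAt_const.mul (continuous_nrm.continuousAt.comp
      (f := fun p : X × X => (A.g i x, A.e i p.1 - A.e i p.2))
      (continuousAt_const.prodMk
        ((ContinuousAt.comp (f := Prod.fst) ((A.e i).continuousAt hx) continuousAt_fst).sub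
          (ContinuousAt.comp (f := Prod.snd) ((A.e i).continuousAt hx) continuousAt_snd))))
  have h0 : (1 + 1) * nrm (A.g i x) (A.e i (x, x).1 - A.e i (x, x).2) < r := by
    simpa [nrm_zero_RD2] using hr
  filter_upwards [Atl.stp_near hx one_pos, hc.eventually (gt_mem_nhds h0)] with p hp hp'
  exact hp.dd_le.trans_lt hp'

/-- Along the segment of the step, parametrised by `σ`, the function `φ ∘ σ` is continuous. At a
point of `C` the curve `A.e i ∘ σ` is differentiable, and `A.iso` bounds the norm of the derivative;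
off `C` the function is locally constant. Use
`image_le_of_liminf_slope_right_le_deriv_boundary`. -/
theorem Atl.Stp.cap {i : A.ι} {B : E →L[ℝ] E →L[ℝ] ℝ} {u : E} {ρ : ℝ} {C : Set X} {φ : X → ℝ}
    (hB : ∀ v w, nrm B (v + w) ≤ nrm B v + nrm B w) (hC : IsClosed C) (hCs : C ⊆ (A.e i).source)
    (hG : ∀ z ∈ C, ∀ v, nrm B v ≤ nrm (A.g i z) v)
    (h1 : ∀ z ∈ (A.e i).source, φ z = min ρ (nrm B (A.e i z - u))) (h2 : ∀ z, z ∉ C → φ z = ρ)
    {a b : X} {l : ℝ} (h : A.Stp a b l) : φ b ≤ φ a + l := by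
  have hl := h.nonneg
  obtain ⟨j, ha, hb, hs⟩ := h
  have hφ := phi_cont_RD2 hC hCs h1 h2
  set v := A.e j b - A.e j a with hv
  let p : ℝ → E := fun t => A.e j a + t • v
  have hp : ∀ t ∈ Icc (0 : ℝ) 1, p t ∈ segment ℝ (A.e j a) (A.e j b) := by
    intro t ht
    rw [segment_eq_image']
    exact ⟨t, ht, rfl⟩
  have hpd : ∀ t, HasDerivAt p v t := fun t => by
    have h0 := ((hasDerivAt_id t).smul_const v).const_add (A.e j a)
    rw [one_smul] at h0
    exact h0
  let σ : ℝ → X := fun t => (A.e j).symm (p t)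
  have hσ : ∀ t ∈ Icc (0 : ℝ) 1, ContinuousAt σ t := fun t ht =>
    ContinuousAt.comp (f := p) ((A.e j).continuousAt_symm (hs _ (hp t ht)).1) (hpd t).continuousAt
  have key := image_le_of_liminf_slope_right_le_deriv_boundary (f := fun t => φ (σ t)) (a := 0)
    (b := 1) (fun t ht => (hφ.continuousAt.comp (hσ t ht)).continuousWithinAt)
    (B := fun t => φ a + t * l) (B' := fun _ => l)
    (by simp [σ, p, (A.e j).left_inv ha]) (by fun_prop)
    (fun t _ => by
      simpa using (((hasDerivAt_id t).mul_const l).const_add (φ a)).hasDerivWithinAt)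
    ?_ (x := 1) ⟨zero_le_one, le_rfl⟩
  · simpa [σ, p, hv, (A.e j).left_inv hb] using key
  intro t ht r hr
  have ht' : t ∈ Icc (0 : ℝ) 1 := ⟨ht.1, ht.2.le⟩
  refine Eventually.frequently ?_
  by_cases hz : σ t ∈ C
  · have hsi := hCs hz
    have htar := (hs _ (hp t ht')).1
    have hsj : σ t ∈ (A.e j).source := (A.e j).map_target htar
    have hej : A.e j (σ t) = p t := (A.e j).right_inv htar
    have hd : HasFDerivAt (A.e i ∘ (A.e j).symm) (fderiv ℝ (A.e i ∘ (A.e j).symm) (p t)) (p t) := by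
      have := (A.smooth j i (σ t) hsj hsi).differentiableAt (by simp)
      rw [hej] at this
      exact this.hasFDerivAt
    set D := fderiv ℝ (A.e i ∘ (A.e j).symm) (p t) v with hD
    have hcd : HasDerivAt (fun s => A.e i (σ s)) D t := hd.comp_hasDerivAt t (hpd t)
    have hDl : nrm B D < r := by
      refine lt_of_le_of_lt ((hG _ hz D).trans ?_) hr
      have hiso := A.iso j i (σ t) hsj hsi v v
      rw [hej] at hiso
      have h3 := (hs _ (hp t ht')).2
      simp only [nrm, Atl.g] at h3 ⊢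
      rw [hD, hiso]
      exact h3
    have hsl : Tendsto (slope (fun s => A.e i (σ s)) t) (𝓝[>] t) (𝓝 D) :=
      (hasDerivAt_iff_tendsto_slope.1 hcd).mono_left
        (nhdsWithin_mono _ fun s hs => ne_of_gt hs)
    have hn : Tendsto (fun s => nrm B (slope (fun s => A.e i (σ s)) t s)) (𝓝[>] t)
        (𝓝 (nrm B D)) :=
      (continuous_nrm.tendsto (B, D)).comp (tendsto_const_nhds.prodMk_nhds hsl)
    have hsrc : ∀ᶠ s in 𝓝[>] t, σ s ∈ (A.e i).source :=
      nhdsWithin_le_nhds ((hσ t ht').eventually ((A.e i).open_source.mem_nhds hsi))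
    filter_upwards [hn.eventually (gt_mem_nhds hDl), hsrc, self_mem_nhdsWithin] with s h3 h4 h5
    have h6 : 0 < s - t := sub_pos.2 h5
    refine lt_of_le_of_lt ?_ h3
    rw [slope_def_field, div_le_iff₀ h6, h1 _ h4, h1 _ hsi, slope_def_module, nrm_smul,
      abs_of_pos (inv_pos.2 h6), mul_comm, ← mul_assoc, mul_inv_cancel₀ h6.ne', one_mul]
    have h7 := hB (A.e i (σ t) - u) (A.e i (σ s) - A.e i (σ t))
    rw [show A.e i (σ t) - u + (A.e i (σ s) - A.e i (σ t)) = A.e i (σ s) - u by abel] at h7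
    have h8 := nrm_nonneg B (A.e i (σ s) - A.e i (σ t))
    rcases le_total ρ (nrm B (A.e i (σ t) - u)) with h9 | h9
    · rw [min_eq_left h9]
      linarith [min_le_left ρ (nrm B (A.e i (σ s) - u))]
    · rw [min_eq_right h9]
      linarith [min_le_right ρ (nrm B (A.e i (σ s) - u))]
  · have hsrc : ∀ᶠ s in 𝓝[>] t, σ s ∉ C :=
      nhdsWithin_le_nhds ((hσ t ht').eventually (hC.isOpen_compl.mem_nhds hz))
    filter_upwards [hsrc] with s h3
    rw [slope_def_field, h2 _ h3, h2 _ hz, sub_self, zero_div]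
    exact lt_of_le_of_lt hl hr

/-- We may take `η < 1`. Let `B = (1 - η) ^ 2 • A.g i x`, `u = A.e i p`, and `C` the image under
the inverse chart of the compact set `nrm B (v - u) ≤ ρ`, with `ρ` small; apply `Stp.cap` along
chains. -/
theorem Atl.dd_lower [T2Space X] [PreconnectedSpace X] {i : A.ι} {x : X} (hx : x ∈ (A.e i).source)
    {η : ℝ} (hη : 0 < η) {N : Set X} (hN : N ∈ 𝓝 x) : ∃ r : ℝ, 0 < r ∧ ∀ᶠ p in 𝓝 x, ∀ z,
      A.dd p z < r → z ∈ N ∧ (1 - η) * nrm (A.g i x) (A.e i p - A.e i z) ≤ A.dd p z := by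
  classical
  set θ := min η (1 / 2) with hθ
  have hθ0 : 0 < θ := lt_min hη (by norm_num)
  have hθ1 : 0 < 1 - θ := by linarith [min_le_right η (1 / 2)]
  have hθη : θ ≤ η := min_le_left _ _
  have hu : A.e i x ∈ (A.e i).target := (A.e i).map_source hx
  obtain ⟨K, hK, hKb⟩ := (A.met i).bounds hu
  replace hKb := fun v => (hKb.self_of_nhds v).1
  have hN' : ∀ᶠ y in 𝓝 (A.e i x), (A.e i).symm y ∈ N := by
    refine ((A.e i).continuousAt_symm hu).eventually ?_
    rw [(A.e i).left_inv hx]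
    exact hN
  have hev := ((A.met i).close hu hθ0).and (hN'.and ((A.e i).open_target.mem_nhds hu))
  obtain ⟨ε, hε, hball⟩ := Metric.eventually_nhds_iff.1 hev
  set δ := ε / 3 with hδ
  have hδ0 : 0 < δ := by positivity
  have hb : ∀ y ∈ closedBall (A.e i x) (2 * δ), dist y (A.e i x) < ε := fun y hy => by
    have := mem_closedBall.1 hy
    linarith
  set C : Set X := (A.e i).symm '' closedBall (A.e i x) (2 * δ) with hCdef
  have hC : IsClosed C := ((isCompact_closedBall _ _).image_of_continuousOn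
    ((A.e i).continuousOn_symm.mono fun y hy => (hball (hb y hy)).2.2)).isClosed
  have hCs : C ⊆ (A.e i).source := by
    rintro _ ⟨y, hy, rfl⟩
    exact (A.e i).map_target (hball (hb y hy)).2.2
  have hCN : C ⊆ N := by
    rintro _ ⟨y, hy, rfl⟩
    exact (hball (hb y hy)).2.1
  set B := (1 - θ) ^ 2 • A.g i x with hBdef
  have hBn : ∀ v, nrm B v = (1 - θ) * nrm (A.g i x) v := nrm_scale_RD2 _ hθ1.le
  have hB : ∀ v w, nrm B (v + w) ≤ nrm B v + nrm B w := fun v w => by
    rw [hBn, hBn, hBn, ← mul_add]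
    exact mul_le_mul_of_nonneg_left ((A.met i).nrm_add hu v w) hθ1.le
  have hG : ∀ z ∈ C, ∀ v, nrm B v ≤ nrm (A.g i z) v := by
    rintro _ ⟨y, hy, rfl⟩ v
    have h1 := (abs_le.1 ((hball (hb y hy)).1 v)).1
    rw [hBn]
    simp only [Atl.g] at h1 ⊢
    rw [(A.e i).right_inv (hball (hb y hy)).2.2]
    linarith
  refine ⟨(1 - θ) * (δ / K), by positivity, ?_⟩
  filter_upwards [(A.e i).open_source.mem_nhds hx,
    ((A.e i).continuousAt hx).eventually (ball_mem_nhds _ hδ0)] with p hp hpb z hz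
  set ρ := (1 - θ) * (δ / K) with hρ
  have hρ0 : 0 < ρ := by positivity
  let φ : X → ℝ := fun z => if z ∈ (A.e i).source then min ρ (nrm B (A.e i z - A.e i p)) else ρ
  have h1 : ∀ z ∈ (A.e i).source, φ z = min ρ (nrm B (A.e i z - A.e i p)) :=
    fun z hz => if_pos hz
  have h2 : ∀ z, z ∉ C → φ z = ρ := by
    intro z hz
    by_cases hs : z ∈ (A.e i).source
    · rw [h1 z hs]
      refine min_eq_left ?_
      have h3 : 2 * δ < dist (A.e i z) (A.e i x) := by
        by_contra h4
        exact hz ⟨A.e i z, mem_closedBall.2 (not_lt.1 h4), (A.e i).left_inv hs⟩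
      have h4 := dist_triangle (A.e i z) (A.e i p) (A.e i x)
      have h5 : dist (A.e i p) (A.e i x) < δ := hpb
      have h6 := hKb (A.e i z - A.e i p)
      rw [← dist_eq_norm] at h6
      rw [hBn]
      refine mul_le_mul_of_nonneg_left ?_ hθ1.le
      rw [div_le_iff₀ hK]
      simp only [Atl.g]
      linarith
    · exact if_neg hs
  have hch : ∀ {a b : X} {l : ℝ}, A.Chain a b l → φ b ≤ φ a + l := by
    intro a b l h
    induction h with
    | nil x => simp
    | cons hs _ ih => linarith [Atl.Stp.cap hB hC hCs hG h1 h2 hs]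
  have hp0 : φ p = 0 := by
    rw [h1 p hp, sub_self, nrm_zero_RD2]
    exact min_eq_right hρ0.le
  have hle : φ z ≤ A.dd p z := Atl.le_dd fun l hl => by simpa [hp0] using hch hl
  have hzC : z ∈ C := by
    by_contra h3
    rw [h2 z h3] at hle
    linarith
  refine ⟨hCN hzC, ?_⟩
  rw [h1 z (hCs hzC)] at hle
  have h3 : nrm B (A.e i z - A.e i p) ≤ A.dd p z := by
    rcases min_le_iff.1 hle with h | h
    · linarith
    · exact h
  rw [hBn, ← neg_sub (A.e i p), nrm_neg] at h3
  refine le_trans (mul_le_mul_of_nonneg_right (by linarith) (nrm_nonneg _ _)) h3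

theorem Atl.locD_dd [T2Space X] [PreconnectedSpace X] (A : Atl E X) : A.LocD A.dd := by
  intro i x hx η hη
  obtain ⟨r, hr, h⟩ := Atl.dd_lower hx hη (N := univ) univ_mem
  filter_upwards [Atl.stp_near hx hη, dd_small_RD2 hx hr,
    (continuousAt_fst (p := (x, x))).eventually h] with p h1 h2 h3
  have h4 := h1.dd_le
  have h5 := (h3 _ h2).2
  rw [abs_le]
  constructor <;> linarith

/-- `MetricSpace.ofDistTopology`. -/
theorem Atl.exists_metric {X : Type} [tX : TopologicalSpace X] [T2Space X] [PreconnectedSpace X]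
    (A : Atl E X) : ∃ m : MetricSpace X, m.toUniformSpace.toTopologicalSpace = tX ∧
      ∀ x y, m.dist x y = A.dd x y := by
  have hlow : ∀ (x : X) (s : Set X), s ∈ 𝓝 x → ∃ ε > 0, ∀ y, A.dd x y < ε → y ∈ s := by
    intro x s hs
    obtain ⟨i, hi⟩ := A.cov x
    obtain ⟨r, hr, h⟩ := Atl.dd_lower hi one_pos hs
    exact ⟨r, hr, fun y hy => (h.self_of_nhds y hy).1⟩
  refine ⟨MetricSpace.ofDistTopology A.dd A.dd_self A.dd_comm A.dd_triangle
    (fun s => ⟨fun hs x hx => hlow x s (hs.mem_nhds hx), fun h => ?_⟩) ?_, rfl, fun _ _ => rfl⟩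
  · refine isOpen_iff_mem_nhds.2 fun x hx => ?_
    obtain ⟨ε, hε, h'⟩ := h x hx
    obtain ⟨i, hi⟩ := A.cov x
    have hc : ContinuousAt (fun y : X => (x, y)) x := continuousAt_const.prodMk continuousAt_id
    filter_upwards [hc.eventually (dd_small_RD2 hi hε)] with y hy using h' y hy
  · intro x y hxy
    by_contra hne
    obtain ⟨ε, hε, h⟩ := hlow x {y}ᶜ (isOpen_compl_singleton.mem_nhds hne)
    exact h y (hxy ▸ hε) rfl

end RG
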