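import Pool.Agent.P.MP_8a106a_gt.RS2

/-! Concavity along geodesics and semiconcavity in charts. -/

set_option autoImplicit false
set_option maxSynthPendingDepth 3
set_option linter.unusedSectionVars false

noncomputable section

namespace RG

open Pool.Agent.P.MP_8a106a_gt Set Filter Topology Asymptotics Metric
open scoped ContDiff

variable {E : Type} [NormedAddCommGroup E] [NormedSpace ℝ E] [FiniteDimensional ℝ E]
  {X : Type} [MetricSpace X] {A : Atl E X}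

theorem close_RS3 {p q : ℝ → X} {x : X} (y : X) {l : Filter ℝ} (hl : l ≤ 𝓝 0)
    (hq : Tendsto q l (𝓝 x)) {M : ℝ} (hM : 0 ≤ M) (h : ∀ᶠ s in l, dist (p s) (q s) ≤ M * s ^ 2)
    {ε : ℝ} (hε : 0 < ε) :
    ∀ᶠ s in l, dist y (p s) ^ 2 ≤ dist y (q s) ^ 2 + (2 * M * dist y x + ε) * s ^ 2 := by
  have h1 : Tendsto (fun s : ℝ => 2 * M * dist y (q s) + M ^ 2 * s ^ 2) l
      (𝓝 (2 * M * dist y x + M ^ 2 * 0 ^ 2)) :=
    ((tendsto_const_nhds.dist hq).const_mul _).add (((tendsto_id.mono_left hl).pow 2).const_mul _)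
  have h2 := h1.eventually (gt_mem_nhds (a := 2 * M * dist y x + ε) (by simpa using hε))
  filter_upwards [h, h2] with s h3 h4
  have h5 : dist y (p s) ≤ dist y (q s) + M * s ^ 2 :=
    (dist_triangle_right y (p s) (q s)).trans (by linarith)
  have h6 := pow_le_pow_left₀ dist_nonneg h5 2
  have h7 := mul_le_mul_of_nonneg_right h4.le (sq_nonneg s)
  nlinarith

theorem neg_RS3 : Tendsto (fun s : ℝ => -s) (𝓝[>] 0) (𝓝[<] 0) := by
  simpa using tendsto_neg_nhdsGT (a := (0 : ℝ))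

theorem second_RS3 {κ : ℝ} (h : A.Ok κ) {i : A.ι} {x : X} (hx : x ∈ (A.e i).source) (y : X)
    (V : E) {p : ℝ → X} {M : ℝ} (hM : 0 ≤ M)
    (h1 : ∀ᶠ s in 𝓝[>] (0 : ℝ), dist (p s) (A.ex i x V s) ≤ M * s ^ 2)
    (h2 : ∀ᶠ s in 𝓝[<] (0 : ℝ), dist (p s) (A.ex i x V s) ≤ M * s ^ 2) {ε : ℝ} (hε : 0 < ε) :
    ∀ᶠ s in 𝓝[>] (0 : ℝ), dist y (p s) ^ 2 + dist y (p (-s)) ^ 2 ≤
      2 * dist y x ^ 2 + (2 * A.g i x V V + 4 * M * dist y x + ε) * s ^ 2 := by
  have hε3 : 0 < ε / 3 := by positivity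
  have a1 := close_RS3 y nhdsWithin_le_nhds
    ((Atl.tendsto_ex hx V).mono_left nhdsWithin_le_nhds) hM h1 hε3
  have a2 := neg_RS3.eventually (close_RS3 y nhdsWithin_le_nhds
    ((Atl.tendsto_ex hx V).mono_left nhdsWithin_le_nhds) hM h2 hε3)
  filter_upwards [a1, a2, nhdsWithin_le_nhds (h.t_zero hx y V hε3)] with s b1 b2 b3
  rw [neg_sq] at b2
  have b3' : dist y (A.ex i x V s) ^ 2 + dist y (A.ex i x V (-s)) ^ 2 ≤
      2 * dist y x ^ 2 + s ^ 2 * (2 * A.g i x V V + ε / 3) := b3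
  linarith

/-- `schwarz`, `t_zero` and the two jets. -/
theorem Atl.Ok.concave {κ : ℝ} (h : A.Ok κ) {γ : ℝ → X} {T : ℝ} {i : A.ι} {V : E}
    (hγ : A.Gs γ T i V) (y : X) : ConcaveOn ℝ (Icc 0 T) fun t => dist y (γ t) ^ 2 - t ^ 2 := by
  have hc : ContinuousOn γ (Icc 0 T) :=
    (LipschitzOnWith.of_dist_le_mul (K := 1) fun s hs t ht => by
      simpa [Real.dist_eq] using hγ.lip s hs t ht).continuousOn
  refine schwarz ((((continuous_const.dist continuous_id).comp_continuousOn hc).pow 2).sub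
    (continuousOn_id.pow 2)) fun t ht ε hε => ?_
  obtain ⟨j, W, hW, hj1, hj2⟩ := hγ.jet t ⟨ht.1, ht.2.le⟩
  have hd : 0 ≤ dist y (γ t) := dist_nonneg
  have hM : 0 < ε / (8 * (dist y (γ t) + 1)) := by positivity
  have hM' : 4 * (ε / (8 * (dist y (γ t) + 1))) * dist y (γ t) ≤ ε / 2 := by
    rw [← mul_div_assoc, div_mul_eq_mul_div, div_le_div_iff₀ (by positivity) two_pos]
    nlinarith
  have key := second_RS3 h hj1.1 y W (p := fun s => γ (t + s)) hM.le
    (((hj2 ht.2).2.bound hM).mono fun s hs => by simpa using hs)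
    ((hj1.2.bound hM).mono fun s hs => by simpa using hs) (half_pos hε)
  filter_upwards [key] with s hs
  rw [← sub_eq_add_neg] at hs
  have h7 : (2 * A.g j (γ t) W W + 4 * (ε / (8 * (dist y (γ t) + 1))) * dist y (γ t) + ε / 2) *
      s ^ 2 ≤ (2 + ε) * s ^ 2 := mul_le_mul_of_nonneg_right (by linarith) (sq_nonneg s)
  nlinarith

/-- On a small ball the function `dist y (e.symm u) ^ 2` is Lipschitz (`LocD.lip`), and `G`, `chrL`
are bounded. At a point `p` of the segment compare `p ± s • w` with `exc G p w (± s)`; use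
`t_zero` and `schwarz`. -/
theorem Atl.Ok.semi {κ : ℝ} (h : A.Ok κ) {i : A.ι} {x : X} (hx : x ∈ (A.e i).source) (y : X) :
    ∃ K r : ℝ, 0 < r ∧ ball (A.e i x) r ⊆ (A.e i).target ∧
      ∀ u ∈ ball (A.e i x) r, ∀ v ∈ ball (A.e i x) r, ConcaveOn ℝ (Icc 0 1) fun t : ℝ =>
        dist y ((A.e i).symm (u + t • (v - u))) ^ 2 - K * t ^ 2 * ‖v - u‖ ^ 2 := by
  have hG := A.met i
  have hu₀ := (A.e i).map_source hx
  obtain ⟨C, hC, hbd⟩ := hG.bounds hu₀
  obtain ⟨C', hC', hlip⟩ := h.locd.lip hx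
  rw [nhds_prod_eq, eventually_prod_self_iff (r := fun p q : X =>
    dist p q ≤ C' * ‖A.e i p - A.e i q‖ ∧ ‖A.e i p - A.e i q‖ ≤ C' * dist p q)] at hlip
  obtain ⟨W, hW, hlip⟩ := hlip
  have hsy : Tendsto (A.e i).symm (𝓝 (A.e i x)) (𝓝 x) := (A.e i).tendsto_symm hx
  have hB := (hG.chrL_smooth hu₀).continuousAt.norm.eventually
    (gt_mem_nhds (lt_add_one ‖chrL (A.G i) (A.e i x)‖))
  have hR := (tendsto_const_nhds (x := y).dist hsy).eventually
    (gt_mem_nhds (lt_add_one (dist y x)))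
  obtain ⟨r, hr, hev⟩ := Metric.eventually_nhds_iff_ball.1
    (((A.e i).open_target.eventually_mem hu₀).and (hbd.and ((hsy.eventually hW).and (hB.and hR))))
  set B := ‖chrL (A.G i) (A.e i x)‖ + 1 with hBd
  set R := dist y x + 1 with hRd
  have hB0 : 0 ≤ B := by positivity
  refine ⟨C ^ 2 + C' * B * R, r, hr, fun u hu => (hev u hu).1, fun u hu v hv => ?_⟩
  have hm : ∀ t ∈ Icc (0 : ℝ) 1, u + t • (v - u) ∈ ball (A.e i x) r := fun t ht =>
    (convex_ball _ _).add_smul_sub_mem hu hv ht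
  have hc : ContinuousOn (fun t : ℝ => (A.e i).symm (u + t • (v - u))) (Icc 0 1) :=
    (A.e i).continuousOn_symm.comp (by fun_prop) fun t ht => (hev _ (hm t ht)).1
  refine schwarz ((((continuous_const.dist continuous_id).comp_continuousOn hc).pow 2).sub
    (by fun_prop)) fun t ht ε hε => ?_
  set w := v - u with hw
  set P := u + t • w with hP
  have hPm : P ∈ ball (A.e i x) r := hm t (Ioo_subset_Icc_self ht)
  obtain ⟨p1, p2, -, p4, p5⟩ := hev P hPm
  have hM : 0 ≤ C' * B * ‖w‖ ^ 2 / 2 := by positivity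
  have hcl : ∀ᶠ s in 𝓝 (0 : ℝ), dist ((A.e i).symm (P + s • w))
      (A.ex i ((A.e i).symm P) w s) ≤ C' * B * ‖w‖ ^ 2 / 2 * s ^ 2 := by
    have t1 : Tendsto (fun s : ℝ => P + s • w) (𝓝 0) (𝓝 P) :=
      Continuous.tendsto' (by fun_prop) _ _ (by simp)
    have t2 : Tendsto (exc (A.G i) P w) (𝓝 0) (𝓝 P) :=
      Continuous.tendsto' (by unfold exc; fun_prop) _ _ (by simp [exc])
    filter_upwards [t1.eventually (isOpen_ball.mem_nhds hPm),
      t2.eventually (isOpen_ball.mem_nhds hPm)] with s s1 s2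
    rw [Atl.ex, (A.e i).right_inv p1]
    refine (hlip _ (hev _ s1).2.2.1 _ (hev _ s2).2.2.1).1.trans ?_
    rw [(A.e i).right_inv (hev _ s1).1, (A.e i).right_inv (hev _ s2).1, exc, sub_sub_cancel,
      norm_smul, Real.norm_of_nonneg (by positivity), ← chrL_apply]
    have c1 : ‖chrL (A.G i) P w w‖ ≤ B * ‖w‖ ^ 2 := by
      refine ((chrL (A.G i) P).le_opNorm₂ w w).trans ?_
      rw [mul_assoc, ← sq]
      exact mul_le_mul_of_nonneg_right p4.le (sq_nonneg _)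
    calc C' * (s ^ 2 / 2 * ‖chrL (A.G i) P w w‖) ≤ C' * (s ^ 2 / 2 * (B * ‖w‖ ^ 2)) := by gcongr
      _ = _ := by ring
  have key := second_RS3 h ((A.e i).map_target p1) y w (p := fun s => (A.e i).symm (P + s • w)) hM
    (nhdsWithin_le_nhds hcl) (nhdsWithin_le_nhds hcl) hε
  have hg : A.g i ((A.e i).symm P) w w ≤ C ^ 2 * ‖w‖ ^ 2 := by
    rw [Atl.g, (A.e i).right_inv p1, ← hG.nrm_sq p1, ← mul_pow]
    exact pow_le_pow_left₀ (nrm_nonneg _ _) (p2 w).2 2
  have hMR := mul_le_mul_of_nonneg_left p5.le hM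
  filter_upwards [key] with s hs
  have e1 : u + (t + s) • w = P + s • w := by rw [hP, add_smul, add_assoc]
  have e2 : u + (t - s) • w = P + (-s) • w := by rw [hP, sub_eq_add_neg, add_smul, add_assoc]
  rw [e1, e2]
  have h7 : (2 * A.g i ((A.e i).symm P) w w +
      4 * (C' * B * ‖w‖ ^ 2 / 2) * dist y ((A.e i).symm P) + ε) * s ^ 2 ≤
      (2 * ((C ^ 2 + C' * B * R) * ‖w‖ ^ 2) + ε) * s ^ 2 :=
    mul_le_mul_of_nonneg_right (by linarith) (sq_nonneg s)
  linarith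

/-- Compose the chart with the linear map of `Met.normal`. -/
theorem Atl.Ok.chart {κ : ℝ} (h : A.Ok κ) {n : ℕ} (hn : Module.finrank ℝ E = n) (x : X) :
    ∃ e : OpenPartialHomeomorph X (Euc n), Ch e x := by
  obtain ⟨i, hx⟩ := A.cov x
  obtain ⟨L, hL⟩ := (A.met i).normal ((A.e i).map_source hx) hn
  have hN : ∀ v, ‖L v‖ = nrm (A.g i x) v := fun v => by
    rw [nrm, Atl.g, ← hL, real_inner_self_eq_norm_sq, Real.sqrt_sq (norm_nonneg _)]
  refine ⟨(A.e i).transHomeomorph L.toHomeomorph, hx, fun η hη => ?_, fun y => ?_⟩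
  · filter_upwards [h.locd i x hx η hη] with p hp
    change |dist p.1 p.2 - ‖L (A.e i p.1) - L (A.e i p.2)‖| ≤ η * ‖L (A.e i p.1) - L (A.e i p.2)‖
    rw [← map_sub, hN]
    exact hp
  · obtain ⟨K, r, hr, h1, h2⟩ := h.semi hx y
    have t1 : Tendsto L.symm (𝓝 (L (A.e i x))) (𝓝 (A.e i x)) :=
      L.symm.continuous.tendsto' _ _ (L.symm_apply_apply _)
    obtain ⟨r', hr', h3⟩ := Metric.eventually_nhds_iff_ball.1 (t1.eventually (ball_mem_nhds _ hr))
    refine ⟨|K| * ‖(L.symm : Euc n →L[ℝ] E)‖ ^ 2, r', hr', fun u hu => h1 (h3 u hu),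
      fun u hu v hv => ?_⟩
    have h4 : K * ‖L.symm v - L.symm u‖ ^ 2 ≤ |K| * ‖(L.symm : Euc n →L[ℝ] E)‖ ^ 2 * ‖v - u‖ ^ 2 := by
      rw [mul_assoc, ← mul_pow, ← map_sub]
      exact mul_le_mul (le_abs_self K) (pow_le_pow_left₀ (norm_nonneg _)
        ((L.symm : Euc n →L[ℝ] E).le_opNorm _) 2) (sq_nonneg _) (abs_nonneg K)
    have h5 : ConvexOn ℝ (Icc (0 : ℝ) 1) fun t : ℝ => t ^ 2 :=
      (Even.convexOn_pow even_two).subset (subset_univ _) (convex_Icc 0 1)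
    refine ((h2 _ (h3 u hu) _ (h3 v hv)).sub (h5.smul (sub_nonneg.2 h4))).congr fun t _ => ?_
    change _ = dist y ((A.e i).symm (L.symm (u + t • (v - u)))) ^ 2 - _
    simp only [Pi.sub_apply, smul_eq_mul, map_add, map_smul, map_sub]
    ring

end RG
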