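import Pool.Agent.P.MP_8a106a_gt.RO2
import Pool.Agent.P.MP_8a106a_gt.RS3
import Pool.Agent.P.MP_8a106a_gt.RD2

/-! Minimising geodesics and the assembly of the metric properties. -/

set_option autoImplicit false
set_option maxSynthPendingDepth 3
set_option linter.unusedSectionVars false

noncomputable section

namespace RG

open Pool.Agent.P.MP_8a106a_gt Set Filter Topology Asymptotics Metric
open scoped ContDiff

variable {E : Type} [NormedAddCommGroup E] [NormedSpace ℝ E] [FiniteDimensional ℝ E]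
  {X : Type} [MetricSpace X] {A : Atl E X}

/-- For `x ≠ z` let `L = dist x z`, `c` a segment, `V` a direction of `h ↦ c (h / L)`
(`exists_dir`), `γ` the geodesic on `[0, L]` with initial vector `V`. By `jet_close`, `concave` and
`hit_of_concave` we get `γ L = z`; rescale. -/
theorem Atl.Ok.geod [ProperSpace X] {κ : ℝ} (h : A.Ok κ) (x z : X) : ∃ γ, Gd γ x z := by
  rcases eq_or_ne x z with rfl | hxz
  · refine ⟨fun _ => x, rfl, rfl, fun s _ t _ => by simp, fun y => ?_⟩
    simpa using concaveOn_const (dist y x ^ 2) (convex_Icc (0 : ℝ) 1)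
  have hL : 0 < dist x z := dist_pos.2 hxz
  obtain ⟨c, hc0, hc1, hc⟩ := h.seg x z
  generalize hLe : dist x z = L at hL hc
  obtain ⟨i, hi⟩ := A.cov x
  have hm : ∀ t ∈ Ioo (0 : ℝ) L, t / L ∈ Icc (0 : ℝ) 1 := fun t ht =>
    ⟨div_nonneg ht.1.le hL.le, (div_le_one hL).2 ht.2.le⟩
  have hcx : ∀ᶠ t in 𝓝[>] (0 : ℝ), dist (c (t / L)) x = t * 1 := by
    filter_upwards [Ioo_mem_nhdsGT hL] with t ht
    rw [← hc0, hc _ (hm t ht) 0 (left_mem_Icc.2 zero_le_one), sub_zero,
      abs_of_nonneg (hm t ht).1, div_mul_cancel₀ _ hL.ne', mul_one]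
  obtain ⟨l, V, hl, hl', hV, hVV⟩ := h.locd.exists_dir hi (c := fun t => c (t / L)) hcx
  obtain ⟨γ, hγ0, hγ⟩ := h.locd.exists_gs hi (V := V) (by rw [hVV]; norm_num) L
  have hct : Tendsto (fun t => c (t / L)) l (𝓝 (γ 0)) := by
    rw [hγ0, tendsto_iff_dist_tendsto_zero]
    refine (tendsto_id.mono_left (hl'.trans nhdsWithin_le_nhds)).congr' ?_
    filter_upwards [hl' hcx] with t ht
    rw [ht, mul_one, id]
  have hend : γ L = z := by
    refine hit_of_concave hL (by rw [hγ0, dist_comm, hLe]) (h.concave hγ z) hl' fun ε hε => ?_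
    filter_upwards [h.locd.jet_close hγ.start hl' hct (by rwa [hγ0]) hε,
      hl' (Ioo_mem_nhdsGT hL)] with t h1 ht
    have h2 : dist z (c (t / L)) = L - t := by
      rw [← hc1, hc 1 (right_mem_Icc.2 zero_le_one) _ (hm t ht),
        abs_of_nonneg (sub_nonneg.2 (hm t ht).2), sub_mul, div_mul_cancel₀ _ hL.ne', one_mul]
    have h3 := dist_triangle_right z (γ t) (c (t / L))
    linarith
  have hm' : ∀ t ∈ Icc (0 : ℝ) 1, t * L ∈ Icc (0 : ℝ) L := fun t ht =>
    ⟨mul_nonneg ht.1 hL.le, mul_le_of_le_one_left hL.le ht.2⟩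
  have hiso : ∀ s ∈ Icc (0 : ℝ) L, ∀ t ∈ Icc (0 : ℝ) L, s ≤ t → dist (γ s) (γ t) = t - s := by
    intro s hs t ht hst
    have h1 := hγ.lip s hs t ht
    have h2 := hγ.lip 0 (left_mem_Icc.2 hL.le) s hs
    have h3 := hγ.lip t ht L (right_mem_Icc.2 hL.le)
    have h4 := dist_triangle4 (γ 0) (γ s) (γ t) (γ L)
    rw [abs_sub_comm, abs_of_nonneg (sub_nonneg.2 hst)] at h1
    rw [zero_sub, abs_neg, abs_of_nonneg hs.1] at h2
    rw [abs_sub_comm, abs_of_nonneg (sub_nonneg.2 ht.2)] at h3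
    have h5 : dist (γ 0) (γ L) = L := by rw [hγ0, hend, hLe]
    linarith
  refine ⟨fun t => γ (t * L), by simpa using hγ0, by simpa using hend, fun s hs t ht => ?_,
    fun y => ?_⟩
  · rw [hLe]
    rcases le_total s t with hst | hst
    · rw [hiso _ (hm' s hs) _ (hm' t ht) (mul_le_mul_of_nonneg_right hst hL.le), abs_sub_comm,
        abs_of_nonneg (sub_nonneg.2 hst), sub_mul]
    · rw [dist_comm, hiso _ (hm' t ht) _ (hm' s hs) (mul_le_mul_of_nonneg_right hst hL.le),
        abs_of_nonneg (sub_nonneg.2 hst), sub_mul]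
  · rw [hLe]
    refine ⟨convex_Icc _ _, fun s hs t ht a b ha hb hab => ?_⟩
    have h1 := (h.concave hγ y).2 (hm' s hs) (hm' t ht) ha hb hab
    simp only [smul_eq_mul] at h1 ⊢
    have h2 : a * (s * L) + b * (t * L) = (a * s + b * t) * L := by ring
    rw [h2] at h1
    simpa only [mul_pow] using h1

theorem Atl.locallyCompact {X : Type} [TopologicalSpace X] (A : Atl E X) :
    LocallyCompactSpace X := by
  have : ProperSpace E := FiniteDimensional.proper ℝ E
  refine ⟨fun x N hN => ?_⟩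
  obtain ⟨i, hi⟩ := A.cov x
  have ht := (A.e i).map_source hi
  have h1 : (A.e i).target ∩ (A.e i).symm ⁻¹' N ∈ 𝓝 (A.e i x) := by
    refine inter_mem ((A.e i).open_target.mem_nhds ht) ((A.e i).continuousAt_symm ht ?_)
    rwa [(A.e i).left_inv hi]
  obtain ⟨S, hS, hS1, hS2⟩ := local_compact_nhds h1
  refine ⟨(A.e i).symm '' S, ?_, ?_, hS2.image_of_continuousOn
    ((A.e i).continuousOn_symm.mono fun u hu => (hS1 hu).1)⟩
  · have h2 := (A.e i).symm.image_mem_nhds ht hS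
    rwa [(A.e i).left_inv hi] at h2
  · rintro _ ⟨u, hu, rfl⟩
    exact (hS1 hu).2

/-- `locD_dd`, `intr_dd`, `Inv.dd_le`, `proper_of_cocompact`, `exists_seg`, `myers`, `geod`,
`chart`. -/
theorem Atl.geo [PreconnectedSpace X] (hd : ∀ x y, dist x y = A.dd x y) {κ : ℝ} (hκ : 0 < κ)
    (hc : A.Curv κ) {n : ℕ} (hn : Module.finrank ℝ E = n) (h2 : 2 ≤ n) {Γ : Type} [Group Γ]
    [MulAction Γ X] (hΓ : ∀ g : Γ, A.Inv fun x => g • x) {K : Set X} (hK : IsCompact K)
    (hco : ∀ x, ∃ g : Γ, g • x ∈ K) :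
    Geo n X ∧ CompactSpace X ∧ ∀ (g : Γ) (x y : X), dist (g • x) (g • y) = dist x y := by
  have hdd : (dist : X → X → ℝ) = A.dd := funext fun x => funext fun y => hd x y
  have hI : Intr (dist : X → X → ℝ) := hdd ▸ A.intr_dd
  have hle : ∀ (g : Γ) (x y : X), dist (g • x) (g • y) ≤ dist x y := fun g x y => by
    rw [hd, hd]
    exact (hΓ g).dd_le x y
  have hiso : ∀ (g : Γ) (x y : X), dist (g • x) (g • y) = dist x y := fun g x y =>
    le_antisymm (hle g x y) (by simpa using hle g⁻¹ (g • x) (g • y))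
  have := A.locallyCompact
  have : ProperSpace X := proper_of_cocompact hI hK fun x => by
    obtain ⟨g, hg⟩ := hco x
    exact ⟨⟨MulAction.toPerm g, Isometry.of_dist_eq (hiso g)⟩, hg⟩
  have hok : A.Ok κ := ⟨hdd ▸ A.locD_dd, hc, exists_seg hI⟩
  refine ⟨⟨hok.geod, hok.chart hn⟩, ?_, hiso⟩
  refine ⟨isCompact_of_isClosed_isBounded isClosed_univ (isBounded_iff.2 ⟨√(25 / κ), ?_⟩)⟩
  intro x _ y _
  refine Real.le_sqrt_of_sq_le ?_
  rw [le_div_iff₀ hκ, mul_comm]
  exact hok.myers hκ (hn ▸ h2) x y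

end RG
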