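import Pool.Agent.P.MP_8a106a_gt.RB

/-! The atlas of a Riemannian manifold. -/

set_option autoImplicit false
set_option maxSynthPendingDepth 3
set_option linter.unusedSectionVars false

noncomputable section

namespace RG

open Pool.Agent.P.MP_8a106a_gt Set Filter Topology Asymptotics Metric
open scoped ContDiff

open scoped Manifold

variable {n : ℕ} {M : Type} [TopologicalSpace M] [ChartedSpace (Euc n) M] [IsManifold (𝓡 n) ∞ M]
  (g : Bundle.ContMDiffRiemannianMetric (𝓡 n) ∞ (Euc n) (TangentSpace (𝓡 n) : M → Type))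

theorem apply_RM1 (x : M) (u v w : Euc n) : chartMetric g x u v w =
    g.inner ((chartAt (Euc n) x).symm u) (mfderiv (𝓡 n) (𝓡 n) (chartAt (Euc n) x).symm u v)
      (mfderiv (𝓡 n) (𝓡 n) (chartAt (Euc n) x).symm u w) := rfl

theorem field_RM1 {f : Euc n → M} {u : Euc n} (hf : ContMDiffAt (𝓡 n) (𝓡 n) ∞ f u) (v : Euc n) :
    ContMDiffAt (𝓡 n) ((𝓡 n).prod 𝓘(ℝ, Euc n)) ∞ (fun m => Bundle.TotalSpace.mk' (Euc n)
      (E := (TangentSpace (𝓡 n) : M → Type)) (f m) (mfderiv (𝓡 n) (𝓡 n) f m v)) u :=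
  ContMDiffAt.clm_apply_of_inCoordinates (b₁ := id) (b₂ := f) (ϕ := mfderiv (𝓡 n) (𝓡 n) f)
    (v := fun _ => v) (hf.mfderiv_const (m := ∞) le_rfl)
    ((contMDiffAt_vectorSpace_iff_contDiffAt (V := fun _ => v)).2 contDiffAt_const) hf

/-- By `contDiffOn_clm_apply` (twice) it suffices to treat `u ↦ chartMetric g x u v w`. The vector
fields `u ↦ mfderiv .. u v` along the inverse chart are smooth (`tangentMap`, or: in the
trivialisation at `x` they are constant); use `ContMDiffAt.clm_bundle_apply₂` with `g.contMDiff`. -/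
theorem chartMetric_smooth (x : M) :
    ContDiffOn ℝ ∞ (chartMetric g x) (chartAt (Euc n) x).target := by
  refine contDiffOn_clm_apply.2 fun v => contDiffOn_clm_apply.2 fun w u hu => ?_
  have hf : ContMDiffAt (𝓡 n) (𝓡 n) ∞ (chartAt (Euc n) x).symm u :=
    contMDiffOn_chart_symm.contMDiffAt ((chartAt (Euc n) x).open_target.mem_nhds hu)
  have h := ContMDiffAt.clm_bundle_apply₂ (F₁ := Euc n) (F₂ := Euc n) (F₃ := ℝ)
    (E₃ := Bundle.Trivial M ℝ) ((g.contMDiff _).comp u hf) (field_RM1 hf v) (field_RM1 hf w)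
  rw [Bundle.contMDiffAt_totalSpace] at h
  exact h.2.contDiffAt.contDiffWithinAt

theorem chartMetric_met (x : M) : Met (chartMetric g x) (chartAt (Euc n) x).target := by
  refine ⟨(chartAt (Euc n) x).open_target, chartMetric_smooth g x, fun u _ v w => ?_,
    fun u hu v hv => ?_⟩
  · rw [apply_RM1, apply_RM1, g.symm]
  · rw [apply_RM1]
    exact g.pos _ _ fun h => hv ((mdifferentiable_chart (I := 𝓡 n) x).symm.mfderiv_injective hu
      (h.trans (map_zero _).symm))

theorem trans_smooth (x y : M) {z : M} (hx : z ∈ (chartAt (Euc n) x).source)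
    (hy : z ∈ (chartAt (Euc n) y).source) :
    ContDiffAt ℝ ∞ (chartAt (Euc n) y ∘ (chartAt (Euc n) x).symm) (chartAt (Euc n) x z) := by
  have h1 : ContMDiffAt (𝓡 n) (𝓡 n) ∞ (chartAt (Euc n) x).symm (chartAt (Euc n) x z) :=
    contMDiffOn_chart_symm.contMDiffAt
      ((chartAt (Euc n) x).open_target.mem_nhds ((chartAt (Euc n) x).map_source hx))
  have h2 : ContMDiffAt (𝓡 n) (𝓡 n) ∞ (chartAt (Euc n) y) z :=
    contMDiffOn_chart.contMDiffAt ((chartAt (Euc n) y).open_source.mem_nhds hy)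
  exact (h2.comp_of_eq h1 ((chartAt (Euc n) x).left_inv hx)).contDiffAt

/-- The chain rule for ` (chart x).symm = (chart y).symm ∘ (chart y ∘ (chart x).symm)` near the
point. -/
theorem chartMetric_iso (x y : M) {z : M} (hx : z ∈ (chartAt (Euc n) x).source)
    (hy : z ∈ (chartAt (Euc n) y).source) (v w : Euc n) :
    chartMetric g y (chartAt (Euc n) y z)
        (fderiv ℝ (chartAt (Euc n) y ∘ (chartAt (Euc n) x).symm) (chartAt (Euc n) x z) v)
        (fderiv ℝ (chartAt (Euc n) y ∘ (chartAt (Euc n) x).symm) (chartAt (Euc n) x z) w) =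
      chartMetric g x (chartAt (Euc n) x z) v w := by
  have mx := mdifferentiable_chart (I := 𝓡 n) (H := Euc n) x
  have my := mdifferentiable_chart (I := 𝓡 n) (H := Euc n) y
  have e : ∀ v, mfderiv (𝓡 n) (𝓡 n) (chartAt (Euc n) y).symm (chartAt (Euc n) y z)
      (fderiv ℝ (chartAt (Euc n) y ∘ (chartAt (Euc n) x).symm) (chartAt (Euc n) x z) v) =
      mfderiv (𝓡 n) (𝓡 n) (chartAt (Euc n) x).symm (chartAt (Euc n) x z) v := fun v => by
    have a := mfderiv_comp_apply_of_eq (chartAt (Euc n) x z) (my.mdifferentiableAt hy)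
      (mx.mdifferentiableAt_symm ((chartAt (Euc n) x).map_source hx))
      ((chartAt (Euc n) x).left_inv hx) v
    rw [mfderiv_eq_fderiv] at a
    exact (congrArg _ a).trans (DFunLike.congr_fun (my.symm_comp_deriv hy) _)
  have k : ∀ {p q : M}, p = q → ∀ a b : Euc n, g.inner p a b = g.inner q a b := by
    rintro _ _ rfl _ _
    rfl
  rw [apply_RM1, apply_RM1, e, e]
  exact k (((chartAt (Euc n) y).left_inv hy).trans ((chartAt (Euc n) x).left_inv hx).symm) _ _

/-- `cu_of_pos`, a finite subcover and `cu_mono`. -/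
theorem exists_atl [CompactSpace M] (hg : PosSec g) :
    ∃ (A : Atl (Euc n) M) (κ : ℝ), 0 < κ ∧ A.Curv κ := by
  choose κ hκ h using fun x : M =>
    (chartMetric_met g x).cu_of_pos (hg x) (mem_chart_target (Euc n) x)
  have hU : ∀ x : M, {z | z ∈ (chartAt (Euc n) x).source ∧
      ∀ᶠ u in 𝓝 (chartAt (Euc n) x z), Cu (chartMetric g x) (κ x) u} ∈ 𝓝 x := fun x =>
    inter_mem (chart_source_mem_nhds (Euc n) x)
      (((chartAt (Euc n) x).continuousAt (mem_chart_source (Euc n) x)).eventually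
        (h x).eventually_nhds)
  obtain ⟨t, ht⟩ := CompactSpace.elim_nhds_subcover _ hU
  obtain ⟨c, hc, hc'⟩ : ∃ c : ℝ, 0 < c ∧ ∀ x ∈ t, c ≤ κ x := by
    obtain ⟨c, h1, h2⟩ := (((Filter.eventually_all_finset t).2 fun x _ =>
      (eventually_le_nhds (hκ x)).filter_mono (nhdsWithin_le_nhds (s := Ioi 0))).and
        self_mem_nhdsWithin).exists
    exact ⟨c, h2, h1⟩
  refine ⟨⟨M, chartAt (Euc n), chartMetric g, fun x => ⟨x, mem_chart_source _ x⟩,
    chartMetric_met g, fun i j _ => trans_smooth i j, fun i j _ => chartMetric_iso g i j⟩,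
    c, hc, fun z => ?_⟩
  obtain ⟨x, hx, h1, h2⟩ := mem_iUnion₂.1 (ht.ge (mem_univ z))
  exact ⟨x, h1, (h2.and ((chartAt (Euc n) x).open_target.mem_nhds
    ((chartAt (Euc n) x).map_source h1))).mono fun u hu =>
      (chartMetric_met g x).cu_mono hu.2 (hc' x hx) hu.1⟩

end RG
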