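import Pool.Agent.P.MP_8a106a_gt.RDefs
import Pool.Agent.Lib.Unif.UC3

/-! Lifting an atlas, and the deck group of the universal cover. -/

set_option autoImplicit false
set_option maxSynthPendingDepth 3
set_option linter.unusedSectionVars false

noncomputable section

namespace RG

open Pool.Agent.P.MP_8a106a_gt Set Filter Topology Asymptotics Metric
open scoped ContDiff

variable {E : Type} [NormedAddCommGroup E] [NormedSpace ℝ E] [FiniteDimensional ℝ E]

/-- The index type consists of pairs ` (s, i)` with `s : OpenPartialHomeomorph Y M` equal to `p` on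
its source; the chart is `s.trans (A.e i)` and the metric `A.G i`. -/
theorem Atl.lift {M Y : Type} [TopologicalSpace M] [TopologicalSpace Y] (A : Atl E M) {κ : ℝ}
    (hA : A.Curv κ) {p : Y → M} (hp : IsLocalHomeomorph p) :
    ∃ A' : Atl E Y, A'.Curv κ ∧ ∀ f : Y ≃ₜ Y, (∀ y, p (f y) = p y) → A'.Inv f := by
  have key : ∀ (s t : {s : OpenPartialHomeomorph Y M // p = s}) (i j : A.ι) (x : Y),
      x ∈ (s.1.trans (A.e i)).source →
      (t.1.trans (A.e j) ∘ (s.1.trans (A.e i)).symm) =ᶠ[𝓝 (A.e i (p x))]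
        (A.e j ∘ (A.e i).symm) := by
    intro s t i j x hx
    have h1 := (s.1.trans (A.e i)).open_target.mem_nhds ((s.1.trans (A.e i)).map_source hx)
    rw [OpenPartialHomeomorph.trans_apply, ← s.2] at h1
    filter_upwards [h1] with u hu
    change A.e j (t.1 (s.1.symm ((A.e i).symm u))) = A.e j ((A.e i).symm u)
    rw [← t.2, congrFun s.2, s.1.right_inv hu.2]
  have val : ∀ (s : {s : OpenPartialHomeomorph Y M // p = s}) (i : A.ι) (x : Y),
      s.1.trans (A.e i) x = A.e i (p x) := fun s i x => by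
    rw [OpenPartialHomeomorph.trans_apply, ← s.2]
  have mem : ∀ (s : {s : OpenPartialHomeomorph Y M // p = s}) (i : A.ι) (x : Y),
      x ∈ (s.1.trans (A.e i)).source ↔ x ∈ s.1.source ∧ p x ∈ (A.e i).source := fun s i x => by
    rw [OpenPartialHomeomorph.trans_source, ← s.2]
    rfl
  refine ⟨{ ι := {s : OpenPartialHomeomorph Y M // p = s} × A.ι
            e := fun k => k.1.1.trans (A.e k.2)
            G := fun k => A.G k.2
            cov := fun x => ?_
            met := fun k => ⟨OpenPartialHomeomorph.open_target _,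
              (A.met k.2).smooth.mono inter_subset_left, fun u hu => (A.met k.2).symm u hu.1,
              fun u hu => (A.met k.2).pos u hu.1⟩
            smooth := fun k l x hk hl => ?_
            iso := fun k l x hk hl v w => ?_ }, fun x => ?_, fun f hf k => ?_⟩
  · obtain ⟨s, hs, e⟩ := hp x
    obtain ⟨i, hi⟩ := A.cov (p x)
    exact ⟨(⟨s, e⟩, i), (mem ⟨s, e⟩ i x).2 ⟨hs, hi⟩⟩
  · rw [val]
    exact (A.smooth k.2 l.2 (p x) ((mem _ _ x).1 hk).2 ((mem _ _ x).1 hl).2).congr_of_eventuallyEq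
      (key k.1 l.1 k.2 l.2 x hk)
  · rw [val, val, (key k.1 l.1 k.2 l.2 x hk).fderiv_eq]
    exact A.iso k.2 l.2 (p x) ((mem _ _ x).1 hk).2 ((mem _ _ x).1 hl).2 v w
  · obtain ⟨s, hs, e⟩ := hp x
    obtain ⟨i, hi, h⟩ := hA (p x)
    refine ⟨(⟨s, e⟩, i), (mem ⟨s, e⟩ i x).2 ⟨hs, hi⟩, ?_⟩
    rw [← val ⟨s, e⟩] at h
    exact h
  · have e : p = f.symm.transOpenPartialHomeomorph k.1.1 := funext fun y => by
      change p y = k.1.1 (f.symm y)
      rw [← k.1.2, ← hf (f.symm y), f.apply_symm_apply]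
    refine ⟨(⟨_, e⟩, k.2), rfl, rfl, fun x hx => ⟨(mem ⟨_, e⟩ k.2 (f x)).2 ⟨?_, ?_⟩, ?_⟩⟩
    · change f.symm (f x) ∈ k.1.1.source
      rw [f.symm_apply_apply]
      exact hx.1
    · rw [hf]
      exact ((mem _ _ x).1 hx).2
    · exact (val ⟨_, e⟩ k.2 (f x)).trans (by rw [hf]; exact (val k.1 k.2 x).symm)

/-- The group of deck transformations. -/
def deck_RM2 {Y X : Type} [TopologicalSpace Y] (π : Y → X) : Subgroup (Y ≃ₜ Y) where
  carrier := {τ | ∀ x, π (τ x) = π x}
  mul_mem' := fun {a b} ha hb x => (ha (b x)).trans (hb x)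
  one_mem' := fun _ => rfl
  inv_mem' := fun {a} ha x => by
    have h := ha (a.symm x)
    rw [a.apply_symm_apply] at h
    exact h.symm

/-- The action of the deck group. -/
@[reducible] def act_RM2 {Y X : Type} [TopologicalSpace Y] (π : Y → X) :
    MulAction (deck_RM2 π) Y where
  smul τ x := τ.1 x
  one_smul _ := rfl
  mul_smul _ _ _ := rfl

/-- `Pool.Agent.Lib.Unif.exists_cover_charted` (file Lib/Unif/UC3) gives the universal cover; the
group of homeomorphisms over `p` acts transitively on fibres (compare `deckGrp_pi`, `isQuot_pi` in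
Lib/Unif/PI). -/
theorem exists_univ_cover {H : Type} [NormedAddCommGroup H] [NormedSpace ℝ H] (M : Type)
    [TopologicalSpace M] [T2Space M] [ConnectedSpace M] [ChartedSpace H M] :
    ∃ (Y : Type) (_ : TopologicalSpace Y) (_ : T2Space Y) (_ : SimplyConnectedSpace Y)
      (Γ : Type) (_ : Group Γ) (_ : MulAction Γ Y) (p : Y → M), IsQuotientCoveringMap p Γ := by
  obtain ⟨Y, _, π, hc, hs, h1, h2, hg⟩ := Pool.Agent.Lib.Unif.exists_cover_charted H M
  let _ := act_RM2 π
  refine ⟨Y, inferInstance, h2, h1, deck_RM2 π, inferInstance, act_RM2 π, π,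
    { toIsQuotientMap := hc.isQuotientMap hs
      continuous_const_smul := fun τ => τ.1.continuous
      apply_eq_iff_mem_orbit := ?_
      disjoint := ?_ }⟩
  · intro a b
    constructor
    · intro hab
      obtain ⟨τ, h1, h2⟩ := hg.trans b a hab.symm
      exact ⟨⟨τ, h1⟩, h2⟩
    · rintro ⟨τ, rfl⟩
      exact τ.2 b
  · intro e
    obtain ⟨η, he, hη⟩ := hc.isLocalHomeomorph e
    refine ⟨η.source, η.open_source.mem_nhds he, ?_⟩
    rintro τ ⟨y, ⟨x, hx, rfl⟩, hy⟩
    have h1 : τ.1 x = x := by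
      refine η.injOn hy hx ?_
      rw [← hη]
      exact τ.2 x
    exact Subtype.ext (Homeomorph.ext (hg.free τ.1 τ.2 x h1))

end RG
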