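import Pool.Agent.P.MP_8a106a_gt.GFin
import Pool.Agent.P.MP_8a106a_gt.EA6
import Pool.Agent.P.MP_8a106a_gt.EB4
import Pool.Agent.P.MP_8a106a_gt.HV
import Pool.Agent.P.MP_8a106a_gt.HC
import Pool.Agent.P.MP_8a106a_gt.HN
import Pool.Agent.P.MP_8a106a_gt.CS
import Pool.Agent.P.MP_8a106a_gt.CG
import Pool.Agent.P.MP_8a106a_gt.RH
import Pool.Agent.P.MP_8a106a_gt.RM1
import Pool.Agent.P.MP_8a106a_gt.RM2

/-! The assembly. -/

set_option autoImplicit false

noncomputable section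

namespace RG

open HK3 Pool.Agent.P.MP_9699e0_gt Pool.Agent.P.MP_8a106a_gt Set Filter Topology
open scoped Manifold ContDiff

theorem group_of_geo : ∃ C : ℕ, ∀ (M Y Γ : Type) [TopologicalSpace M] [T2Space M] [CompactSpace M]
    [ChartedSpace (Euc 5) M] [IsManifold (𝓡 5) ∞ M] [MetricSpace Y] [SimplyConnectedSpace Y]
    [CompactSpace Y] [Group Γ] [MulAction Γ Y] (p : Y → M), IsQuotientCoveringMap p Γ → Geo 5 Y →
      (∀ (g : Γ) (x y : Y), dist (g • x) (g • y) = dist x y) →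
      ∃ H : Subgroup Γ, IsCyclic H ∧ 0 < H.index ∧ H.index ≤ C := by
  obtain ⟨N, hN⟩ := rkG_of_geo 5
  obtain ⟨B, hB⟩ := betti 5 3
  obtain ⟨C, hC⟩ := group_main N (4 * (B + 1) + (B + 4)) (B + 3).factorial (Nat.factorial_pos _)
  refine ⟨C, fun M Y Γ _ _ _ _ _ _ _ _ _ _ p hp hG hiso => ?_⟩
  have : Finite Γ := finite_of_compact hp
  have hfree : ∀ (g : Γ) (x : Y), g • x = x → g = 1 := by
    intro g x hx
    obtain ⟨U, hU, h⟩ := hp.disjoint x
    exact h g ⟨x, ⟨x, mem_of_mem_nhds hU, hx⟩, mem_of_mem_nhds hU⟩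
  have : LocallyPathConnectedSpace M := ChartedSpace.locallyPathConnectedSpace (Euc 5) M
  obtain ⟨m, U, h1, h2, h3, h4⟩ := exists_good_base (n := 5) M
  obtain ⟨gc⟩ := exists_gc hp U h1 h2 h3 h4
  have hL := hG.loc5
  have hP : ∀ (q : ℕ) [Fact q.Prime], Nonempty (PC (ZMod q) Γ B) := fun q _ =>
    pc_of_gc gc h_one (hB _ Y hG 2 (by norm_num)) (hB _ Y hG 3 le_rfl) (h_four hL) (h_five hL)
      fun n hn => h_high hL hn
  refine hC Γ (hN Y hG Γ hiso hfree) ?_ ?_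
  · intro q k hq hQ g h hg hh hc hd
    have := Fact.mk hq
    obtain ⟨P⟩ := hP q
    have := P.sq_le hg hh hc hd
    omega
  · intro q hq hQ g x hg hx
    have := Fact.mk hq
    obtain ⟨P⟩ := hP q
    exact P.aut (by omega) hg hx

theorem geo_cover {M Y Γ : Type} [TopologicalSpace M] [CompactSpace M] [tY : TopologicalSpace Y]
    [T2Space Y] [PreconnectedSpace Y] [Group Γ] [MulAction Γ Y] {p : Y → M}
    (hp : IsQuotientCoveringMap p Γ) (A : Atl (Euc 5) M) {κ : ℝ} (hκ : 0 < κ) (hA : A.Curv κ) :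
    ∃ m : MetricSpace Y, m.toUniformSpace.toTopologicalSpace = tY ∧ Geo 5 Y ∧ @CompactSpace Y tY ∧
      ∀ (g : Γ) (x y : Y), dist (g • x) (g • y) = dist x y := by
  obtain ⟨A', hc, hinv⟩ := A.lift hA hp.isCoveringMap.isLocalHomeomorph
  obtain ⟨m, hm, hd⟩ := A'.exists_metric
  refine ⟨m, hm, ?_⟩
  subst hm
  have := A'.locallyCompact
  have := hp.toContinuousConstSMul
  obtain ⟨K, hK, hco⟩ := exists_cocompact hp
  refine Atl.geo (A := A') hd hκ hc (by simp) (by norm_num) (fun g => ?_) hK hco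
  exact hinv (Homeomorph.smul g) fun y => hp.apply_eq_iff_mem_orbit.2 ⟨g, rfl⟩

theorem main : ∃ C : ℕ, ∀ (M : Type) [TopologicalSpace M] [T2Space M] [CompactSpace M]
    [ConnectedSpace M] [ChartedSpace (Euc 5) M] [IsManifold (𝓡 5) ∞ M]
    (g : Bundle.ContMDiffRiemannianMetric (𝓡 5) ∞ (Euc 5) (TangentSpace (𝓡 5) : M → Type)),
    PosSec g → ∀ x : M, ∃ H : Subgroup (FundamentalGroup M x),
      IsCyclic H ∧ 0 < H.index ∧ H.index ≤ C := by
  obtain ⟨C, hC⟩ := group_of_geo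
  refine ⟨C, fun M _ _ _ _ _ _ g hg x => ?_⟩
  obtain ⟨A, κ, hκ, hA⟩ := exists_atl g hg
  obtain ⟨Y, tY, _, _, Γ, _, _, p, hp⟩ := exists_univ_cover (H := Euc 5) M
  obtain ⟨m, hm, hG, hc, hiso⟩ := geo_cover hp A hκ hA
  subst hm
  obtain ⟨H, h1, h2, h3⟩ := hC M Y Γ p hp hG hiso
  obtain ⟨y, hy⟩ := hp.surjective x
  let φ : FundamentalGroup M x ≃* Γ :=
    (hp.fundamentalGroupEquiv ⟨y, hy⟩).trans (MulEquiv.inv' Γ).symm
  have hi : (H.map φ.symm.toMonoidHom).index = H.index := Subgroup.index_map_equiv H φ.symm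
  refine ⟨H.map φ.symm.toMonoidHom, ?_, hi ▸ h2, hi ▸ h3⟩
  exact isCyclic_of_surjective _ (φ.symm.subgroupMap H).surjective

end RG
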