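import Pool.Agent.P.MP_8a106a_gt.RDefs

/-! Christoffel symbols. -/

set_option autoImplicit false
set_option maxSynthPendingDepth 3
set_option linter.unusedSectionVars false

noncomputable section

namespace RG

open Pool.Agent.P.MP_8a106a_gt Set Filter Topology Asymptotics Metric
open scoped ContDiff

variable {E : Type} [NormedAddCommGroup E] [NormedSpace ℝ E] [FiniteDimensional ℝ E]
  {G : E → E →L[ℝ] E →L[ℝ] ℝ} {U : Set E}

theorem fd_apply_RA {H : Type} [NormedAddCommGroup H] [NormedSpace ℝ H]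
    {F : E → E →L[ℝ] E →L[ℝ] H} {u : E} (hF : DifferentiableAt ℝ F u) (v w a : E) :
    fderiv ℝ (fun x => F x v w) u a = fderiv ℝ F u a v w := by
  rw [((hF.hasFDerivAt.clm_apply (hasFDerivAt_const v u)).clm_apply
    (hasFDerivAt_const w u)).fderiv]
  simp

/-- An injective linear map between spaces of the same finite dimension. -/
theorem Met.isInv (h : Met G U) {u : E} (hu : u ∈ U) : (G u).IsInvertible := by
  have hinj : Function.Injective (G u : E →ₗ[ℝ] E →L[ℝ] ℝ) := by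
    rw [← LinearMap.ker_eq_bot, LinearMap.ker_eq_bot']
    intro v hv
    by_contra hne
    have h1 := h.pos u hu v hne
    have h2 : G u v = 0 := hv
    rw [h2] at h1
    simp at h1
  have hdim : Module.finrank ℝ E = Module.finrank ℝ (E →L[ℝ] ℝ) := by
    rw [← (LinearMap.toContinuousLinearMap : (E →ₗ[ℝ] ℝ) ≃ₗ[ℝ] E →L[ℝ] ℝ).finrank_eq]
    exact Subspace.dual_finrank_eq.symm
  refine ⟨(LinearMap.linearEquivOfInjective _ hinj hdim).toContinuousLinearEquiv, ?_⟩
  ext v w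
  rfl

theorem Met.contDiffAt (h : Met G U) {u : E} (hu : u ∈ U) : ContDiffAt ℝ ∞ G u := by
  exact h.smooth.contDiffAt (h.opn.mem_nhds hu)

theorem Met.chr_eq (h : Met G U) {u : E} (hu : u ∈ U) (v w z : E) :
    G u (chr G u v w) z = (fderiv ℝ G u v w z + fderiv ℝ G u w v z - fderiv ℝ G u z v w) / 2 := by
  rw [chr, (h.isInv hu).self_apply_inverse]
  simp only [smul_apply, sub_apply,
    add_apply, ContinuousLinearMap.flip_apply, smul_eq_mul]
  ring

theorem Met.dsymm (h : Met G U) {u : E} (hu : u ∈ U) (a v w : E) :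
    fderiv ℝ G u a v w = fderiv ℝ G u a w v := by
  have hd : DifferentiableAt ℝ G u := (h.contDiffAt hu).differentiableAt (by simp)
  rw [← fd_apply_RA hd, ← fd_apply_RA hd]
  have : (fun x => G x v w) =ᶠ[𝓝 u] fun x => G x w v := by
    filter_upwards [h.opn.mem_nhds hu] with x hx using h.symm x hx v w
  rw [this.fderiv_eq]

theorem Met.ext (h : Met G U) {u : E} (hu : u ∈ U) {v w : E} (H : ∀ z, G u v z = G u w z) :
    v = w := by
  exact (h.isInv hu).injective (ContinuousLinearMap.ext H)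

theorem Met.chr_symm (h : Met G U) {u : E} (hu : u ∈ U) (v w : E) :
    chr G u v w = chr G u w v := by
  refine h.ext hu fun z => ?_
  rw [h.chr_eq hu, h.chr_eq hu, h.dsymm hu z v w]
  ring

theorem Met.compat (h : Met G U) {u : E} (hu : u ∈ U) (a v w : E) :
    fderiv ℝ G u a v w = G u (chr G u a v) w + G u v (chr G u a w) := by
  rw [h.symm u hu v, h.chr_eq hu, h.chr_eq hu, h.dsymm hu a w v, h.dsymm hu v a w,
    h.dsymm hu w a v]
  ring

/-- `ContinuousLinearMap.IsInvertible.contDiffAt_map_inverse` (or `contDiffAt_map_inverse`). -/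
theorem Met.chrL_smooth (h : Met G U) {u : E} (hu : u ∈ U) : ContDiffAt ℝ ∞ (chrL G) u := by
  have hG := h.contDiffAt hu
  have hD : ContDiffAt ℝ ∞ (fderiv ℝ G) u := hG.fderiv_right (m := ∞) (by simp)
  have hI : ContDiffAt ℝ ∞ (fun x => (G x).inverse) u :=
    ((h.isInv hu).contDiffAt_map_inverse (n := ∞)).comp u hG
  have hF : ContDiffAt ℝ ∞ (fun x => (fderiv ℝ G x).flip) u :=
    ((ContinuousLinearMap.flipₗᵢ ℝ E E (E →L[ℝ] ℝ)).toContinuousLinearEquiv.contDiff.contDiffAt).comp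
      u hD
  have h1 : ContDiffAt ℝ ∞
      (fun x => ContinuousLinearMap.compL ℝ E (E →L[ℝ] ℝ) E (G x).inverse) u :=
    (ContinuousLinearMap.compL ℝ E (E →L[ℝ] ℝ) E).contDiff.contDiffAt.comp u hI
  exact h1.clm_comp (((hD.add hF).sub (contDiffAt_const.clm_comp hF)).const_smul (1 / 2 : ℝ))

theorem Met.fderiv_chr (h : Met G U) {u : E} (hu : u ∈ U) (v w a : E) :
    fderiv ℝ (fun x => chr G x v w) u a = fderiv ℝ (chrL G) u a v w := by
  exact fd_apply_RA ((h.chrL_smooth hu).differentiableAt (by simp)) v w a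

theorem Met.nonneg (h : Met G U) {u : E} (hu : u ∈ U) (v : E) : 0 ≤ G u v v := by
  by_cases hv : v = 0
  · simp [hv]
  · exact (h.pos u hu v hv).le

/-- Cauchy-Schwarz (`discrim_le_zero`). -/
theorem Met.cs (h : Met G U) {u : E} (hu : u ∈ U) (v w : E) :
    G u v w ^ 2 ≤ G u v v * G u w w := by
  have := discrim_le_zero (a := G u v v) (b := 2 * G u v w) (c := G u w w) fun t => by
    have h1 := h.nonneg hu (t • v + w)
    simp only [map_add, map_smul, add_apply, smul_apply,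
      smul_eq_mul, h.symm u hu w v] at h1
    nlinarith
  rw [discrim] at this
  nlinarith

theorem Met.nrm_sq (h : Met G U) {u : E} (hu : u ∈ U) (v : E) : nrm (G u) v ^ 2 = G u v v := by
  exact Real.sq_sqrt (h.nonneg hu v)

theorem Met.nrm_add (h : Met G U) {u : E} (hu : u ∈ U) (v w : E) :
    nrm (G u) (v + w) ≤ nrm (G u) v + nrm (G u) w := by
  have h1 : G u v w ≤ nrm (G u) v * nrm (G u) w := by
    refine le_trans (le_abs_self _) (abs_le_of_sq_le_sq' ?_ (by unfold nrm; positivity) |>.2 |>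
      fun H => abs_le.2 ⟨(abs_le_of_sq_le_sq' ?_ (by unfold nrm; positivity)).1, H⟩)
    all_goals
      rw [mul_pow, h.nrm_sq hu, h.nrm_sq hu]
      exact h.cs hu v w
  refine Real.sqrt_le_iff.2 ⟨by unfold nrm; positivity, ?_⟩
  rw [add_sq, h.nrm_sq hu, h.nrm_sq hu]
  simp only [map_add, add_apply, h.symm u hu w v]
  linarith

theorem nrm_smul (B : E →L[ℝ] E →L[ℝ] ℝ) (a : ℝ) (v : E) : nrm B (a • v) = |a| * nrm B v := by
  unfold nrm
  simp only [map_smul, smul_apply, smul_eq_mul]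
  rw [← mul_assoc, Real.sqrt_mul (mul_self_nonneg a), Real.sqrt_mul_self_eq_abs]

theorem nrm_neg (B : E →L[ℝ] E →L[ℝ] ℝ) (v : E) : nrm B (-v) = nrm B v := by
  simp [nrm]

theorem nrm_nonneg (B : E →L[ℝ] E →L[ℝ] ℝ) (v : E) : 0 ≤ nrm B v := by
  exact Real.sqrt_nonneg _

theorem continuous_nrm : Continuous fun p : (E →L[ℝ] E →L[ℝ] ℝ) × E => nrm p.1 p.2 := by
  unfold nrm
  exact ((continuous_fst.clm_apply continuous_snd).clm_apply continuous_snd).sqrt

theorem Met.lower_RA (h : Met G U) {u : E} (hu : u ∈ U) :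
    ∃ m : ℝ, 0 < m ∧ ∀ v, m * ‖v‖ ^ 2 ≤ G u v v := by
  rcases (sphere (0 : E) 1).eq_empty_or_nonempty with he | hne
  · refine ⟨1, one_pos, fun v => ?_⟩
    by_cases hv : v = 0
    · simp [hv]
    · have : ‖v‖⁻¹ • v ∈ sphere (0 : E) 1 := by
        simp [norm_smul, inv_mul_cancel₀ (norm_ne_zero_iff.2 hv)]
      rw [he] at this
      exact this.elim
  · have hc : Continuous fun v : E => G u v v := ((G u).continuous.clm_apply continuous_id)
    obtain ⟨w, hw, hmin⟩ := (isCompact_sphere (0 : E) 1).exists_isMinOn hne hc.continuousOn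
    have hw0 : w ≠ 0 := by
      rintro rfl
      simp at hw
    refine ⟨G u w w, h.pos u hu w hw0, fun v => ?_⟩
    by_cases hv : v = 0
    · simp [hv]
    · have hn : 0 < ‖v‖ := norm_pos_iff.2 hv
      have h1 : ‖v‖⁻¹ • v ∈ sphere (0 : E) 1 := by
        simp [norm_smul, inv_mul_cancel₀ hn.ne']
      have h2 : G u w w ≤ G u (‖v‖⁻¹ • v) (‖v‖⁻¹ • v) := hmin h1
      simp only [map_smul, smul_apply, smul_eq_mul] at h2
      calc G u w w * ‖v‖ ^ 2 ≤ ‖v‖⁻¹ * (‖v‖⁻¹ * G u v v) * ‖v‖ ^ 2 := by gcongr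
        _ = G u v v := by field_simp

theorem Met.near_RA (h : Met G U) {u : E} (hu : u ∈ U) {δ : ℝ} (hδ : 0 < δ) :
    ∀ᶠ x in 𝓝 u, ∀ v, |G x v v - G u v v| ≤ δ * ‖v‖ ^ 2 := by
  have hc := (h.contDiffAt hu).continuousAt
  filter_upwards [hc.eventually (ball_mem_nhds (G u) hδ)] with x hx v
  have h1 : ‖G x - G u‖ < δ := by simpa [dist_eq_norm] using hx
  have h2 := (G x - G u).le_opNorm₂ v v
  rw [Real.norm_eq_abs] at h2
  simp only [sub_apply] at h2
  calc _ ≤ ‖G x - G u‖ * ‖v‖ * ‖v‖ := h2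
    _ = ‖G x - G u‖ * ‖v‖ ^ 2 := by ring
    _ ≤ _ := by gcongr

/-- Minimise over the unit sphere; continuity of `G` at `u`. -/
theorem Met.bounds (h : Met G U) {u : E} (hu : u ∈ U) : ∃ C : ℝ, 0 < C ∧
    ∀ᶠ x in 𝓝 u, ∀ v, ‖v‖ ≤ C * nrm (G x) v ∧ nrm (G x) v ≤ C * ‖v‖ := by
  obtain ⟨m, hm, hl⟩ := h.lower_RA hu
  have hM : 0 < ‖G u‖ + m / 2 := by positivity
  refine ⟨√(2 / m) + √(‖G u‖ + m / 2), by positivity, ?_⟩
  filter_upwards [h.near_RA hu (half_pos hm)] with x hx v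
  have h1 := abs_le.1 (hx v)
  have h2 : G u v v ≤ ‖G u‖ * ‖v‖ ^ 2 := by
    have := (G u).le_opNorm₂ v v
    rw [Real.norm_eq_abs] at this
    nlinarith [le_abs_self (G u v v)]
  have h3 := hl v
  constructor
  · have : ‖v‖ ≤ √(2 / m) * nrm (G x) v := by
      unfold nrm
      rw [← Real.sqrt_mul (by positivity)]
      refine Real.le_sqrt_of_sq_le ?_
      rw [div_mul_eq_mul_div, le_div_iff₀ hm]
      nlinarith
    have h4 := nrm_nonneg (G x) v
    have h5 := Real.sqrt_nonneg (‖G u‖ + m / 2)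
    nlinarith
  · have : nrm (G x) v ≤ √(‖G u‖ + m / 2) * ‖v‖ := by
      unfold nrm
      refine Real.sqrt_le_iff.2 ⟨by positivity, ?_⟩
      rw [mul_pow, Real.sq_sqrt hM.le]
      nlinarith
    have h4 := norm_nonneg v
    have h5 := Real.sqrt_nonneg (2 / m)
    nlinarith

theorem Met.close (h : Met G U) {u : E} (hu : u ∈ U) {η : ℝ} (hη : 0 < η) :
    ∀ᶠ x in 𝓝 u, ∀ v, |nrm (G x) v - nrm (G u) v| ≤ η * nrm (G u) v := by
  obtain ⟨m, hm, hl⟩ := h.lower_RA hu
  filter_upwards [h.near_RA hu (mul_pos hη hm), h.opn.mem_nhds hu] with x hx hxU v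
  have h1 : |nrm (G x) v ^ 2 - nrm (G u) v ^ 2| ≤ η * nrm (G u) v ^ 2 := by
    rw [h.nrm_sq hu, h.nrm_sq hxU]
    refine (hx v).trans ?_
    rw [mul_assoc]
    exact mul_le_mul_of_nonneg_left (hl v) hη.le
  have hs := nrm_nonneg (G x) v
  have ht := nrm_nonneg (G u) v
  generalize nrm (G x) v = s at *
  generalize nrm (G u) v = t at *
  rcases ht.eq_or_lt with rfl | ht'
  · have : s ^ 2 ≤ 0 := by simpa using h1
    have : s = 0 := by nlinarith
    simp [this]
  · refine le_of_mul_le_mul_right ?_ ht'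
    have h2 : |s ^ 2 - t ^ 2| = |s - t| * (s + t) := by
      rw [show s ^ 2 - t ^ 2 = (s - t) * (s + t) by ring, abs_mul,
        abs_of_nonneg (add_nonneg hs ht)]
    nlinarith [abs_nonneg (s - t)]

end RG
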