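import Pool.Agent.P.MP_8a106a_gt.RA

/-! Curvature. -/

set_option autoImplicit false
set_option maxSynthPendingDepth 3
set_option linter.unusedSectionVars false

noncomputable section

namespace RG

open Pool.Agent.P.MP_8a106a_gt Set Filter Topology Asymptotics Metric
open scoped ContDiff

variable {E : Type} [NormedAddCommGroup E] [NormedSpace ℝ E] [FiniteDimensional ℝ E]
  {G : E → E →L[ℝ] E →L[ℝ] ℝ} {U : Set E}

theorem Met.dsymm_RB (h : Met G U) {u : E} (hu : u ∈ U) (a v w : E) :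
    fderiv ℝ (chrL G) u a v w = fderiv ℝ (chrL G) u a w v := by
  rw [← h.fderiv_chr hu, ← h.fderiv_chr hu]
  have e : (fun x => chr G x v w) =ᶠ[𝓝 u] fun x => chr G x w v := by
    filter_upwards [h.opn.mem_nhds hu] with x hx using h.chr_symm hx v w
  rw [e.fderiv_eq]

theorem Met.Rm_eq_RB (h : Met G U) {u : E} (hu : u ∈ U) (v w : E) :
    Rm G u v w = G u (fderiv ℝ (chrL G) u v w w - fderiv ℝ (chrL G) u w v w +
      chrL G u v (chrL G u w w) - chrL G u w (chrL G u v w)) v := by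
  rw [Rm, riem, h.fderiv_chr hu, h.fderiv_chr hu]
  rfl

/-- The derivative of `Met.compat` (which holds near `u`). -/
theorem Met.compat2 (h : Met G U) {u : E} (hu : u ∈ U) (d a v w : E) :
    fderiv ℝ (fun x => fderiv ℝ G x a v w) u d =
      fderiv ℝ G u d (chr G u a v) w + G u (fderiv ℝ (chrL G) u d a v) w +
        fderiv ℝ G u d v (chr G u a w) + G u v (fderiv ℝ (chrL G) u d a w) := by
  have e : (fun x => fderiv ℝ G x a v w) =ᶠ[𝓝 u]
      fun x => G x (chrL G x a v) w + G x v (chrL G x a w) := by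
    filter_upwards [h.opn.mem_nhds hu] with x hx using h.compat hx a v w
  have hG := ((h.contDiffAt hu).differentiableAt (by simp)).hasFDerivAt
  have hΓ := ((h.chrL_smooth hu).differentiableAt (by simp)).hasFDerivAt
  have h1 := fun z : E => (hΓ.clm_apply (hasFDerivAt_const a u)).clm_apply (hasFDerivAt_const z u)
  have h2 := ((hG.clm_apply (h1 v)).clm_apply (hasFDerivAt_const w u)).fun_add
    ((hG.clm_apply (hasFDerivAt_const v u)).clm_apply (h1 w))
  rw [e.fderiv_eq, h2.fderiv]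
  simp [chrL_apply]
  ring

/-- Expand with `compat2`, `compat`, `fderiv_chr`, `chr_symm` (also for the derivative of `chrL`). -/
theorem Met.qc_eq (h : Met G U) {u : E} (hu : u ∈ U) (V T W : E) :
    qc G u V (chr G u V V) T W (nn G u V T W) =
      G u (W + chr G u T V) (W + chr G u T V) - Rm G u T V := by
  rw [h.Rm_eq_RB hu, qc, nn, h.compat2 hu, h.fderiv_chr hu]
  simp only [h.compat hu, chrL_apply, map_add, map_sub, map_smul, add_apply, sub_apply,
    smul_eq_mul]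
  rw [h.dsymm_RB hu V T V, h.chr_symm hu T V, h.chr_symm hu W V, h.chr_symm hu T (chr G u V V),
    h.symm u hu T (chr G u V (chr G u V T)), h.symm u hu T (fderiv ℝ (chrL G) u V V T),
    h.symm u hu T (chr G u (chr G u V V) T), h.symm u hu T (fderiv ℝ (chrL G) u T V V),
    h.symm u hu W (chr G u V T)]
  ring

theorem Met.Rm_smul (h : Met G U) {u : E} (hu : u ∈ U) (a b : ℝ) (v w : E) :
    Rm G u (a • v) (b • w) = a ^ 2 * b ^ 2 * Rm G u v w := by
  rw [h.Rm_eq_RB hu, h.Rm_eq_RB hu]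
  simp only [map_add, map_sub, map_smul, add_apply, sub_apply, smul_apply, smul_eq_mul]
  ring

theorem Met.Rm_dep (h : Met G U) {u : E} (hu : u ∈ U) {v w : E}
    (H : ¬ LinearIndependent ℝ ![v, w]) : Rm G u v w = 0 := by
  by_cases hv : v = 0
  · rw [Rm, hv, map_zero]
  · rw [LinearIndependent.pair_iff' hv] at H
    push Not at H
    obtain ⟨a, rfl⟩ := H
    have := h.Rm_smul hu 1 a v v
    rw [one_smul] at this
    rw [this, h.Rm_eq_RB hu]
    simp

theorem Met.Rm_cont (h : Met G U) :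
    ContinuousOn (fun p : E × E × E => Rm G p.1 p.2.1 p.2.2) (U ×ˢ univ) := by
  have h1 : ContinuousOn (fun p : E × E × E => G p.1) (U ×ˢ univ) :=
    h.smooth.continuousOn.comp continuousOn_fst fun _ hp => hp.1
  have h2 : ContinuousOn (fun p : E × E × E => chrL G p.1) (U ×ˢ univ) := fun p hp =>
    ((h.chrL_smooth hp.1).continuousAt.comp continuousAt_fst).continuousWithinAt
  have h3 : ContinuousOn (fun p : E × E × E => fderiv ℝ (chrL G) p.1) (U ×ˢ univ) := fun p hp =>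
    (((h.chrL_smooth hp.1).continuousAt_fderiv (by simp)).comp continuousAt_fst).continuousWithinAt
  have hv : ContinuousOn (fun p : E × E × E => p.2.1) (U ×ˢ univ) := by fun_prop
  have hw : ContinuousOn (fun p : E × E × E => p.2.2) (U ×ˢ univ) := by fun_prop
  refine ContinuousOn.congr ?_ fun p hp => h.Rm_eq_RB hp.1 p.2.1 p.2.2
  exact (h1.clm_apply ((((((h3.clm_apply hv).clm_apply hw).clm_apply hw).sub
    (((h3.clm_apply hw).clm_apply hv).clm_apply hw)).add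
    ((h2.clm_apply hv).clm_apply ((h2.clm_apply hw).clm_apply hw))).sub
    ((h2.clm_apply hw).clm_apply ((h2.clm_apply hv).clm_apply hw)))).clm_apply hv

theorem Met.cu_mono (h : Met G U) {u : E} (hu : u ∈ U) {κ κ' : ℝ} (hκ : κ' ≤ κ) (H : Cu G κ u) :
    Cu G κ' u :=
  ⟨H.1, fun v w hvw => (mul_le_mul_of_nonneg_right hκ
    (mul_nonneg (h.nonneg hu v) (h.nonneg hu w))).trans (H.2 v w hvw)⟩

/-- Minimise `Rm / (G v v * G w w)` over the compact set of ` (x, v, w)` with `x` in a small closed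
ball, `‖v‖ = ‖w‖ = 1` and `4 * G x v w ^ 2 ≤ 3 * (G x v v * G x w w)`; then use `Rm_smul`. -/
theorem Met.cu_of_pos (h : Met G U)
    (hp : ∀ x ∈ U, ∀ v w, LinearIndependent ℝ ![v, w] → 0 < Rm G x v w) {u : E} (hu : u ∈ U) :
    ∃ κ : ℝ, 0 < κ ∧ ∀ᶠ x in 𝓝 u, Cu G κ x := by
  obtain ⟨r, hr, hrU⟩ := nhds_basis_closedBall.mem_iff.1 (h.opn.mem_nhds hu)
  obtain ⟨Q, hQ⟩ : ∃ Q : Set (E × E × E), Q = closedBall u r ×ˢ sphere 0 1 ×ˢ sphere 0 1 := ⟨_, rfl⟩
  have hQc : IsCompact Q := hQ ▸ (isCompact_closedBall u r).prod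
    ((isCompact_sphere 0 1).prod (isCompact_sphere 0 1))
  have hQm : ∀ p ∈ Q, p.1 ∈ U ∧ p.2.1 ≠ 0 ∧ p.2.2 ≠ 0 := fun p hp => by
    rw [hQ] at hp
    exact ⟨hrU hp.1, ne_zero_of_mem_sphere one_ne_zero ⟨_, hp.2.1⟩,
      ne_zero_of_mem_sphere one_ne_zero ⟨_, hp.2.2⟩⟩
  have h1 : ContinuousOn (fun p : E × E × E => G p.1) Q :=
    h.smooth.continuousOn.comp continuousOn_fst fun p hp => (hQm p hp).1
  have hv : ContinuousOn (fun p : E × E × E => p.2.1) Q := by fun_prop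
  have hw : ContinuousOn (fun p : E × E × E => p.2.2) Q := by fun_prop
  have hd : ContinuousOn (fun p : E × E × E => G p.1 p.2.1 p.2.1 * G p.1 p.2.2 p.2.2) Q :=
    ((h1.clm_apply hv).clm_apply hv).mul ((h1.clm_apply hw).clm_apply hw)
  have hpos : ∀ p ∈ Q, 0 < G p.1 p.2.1 p.2.1 * G p.1 p.2.2 p.2.2 := fun p hp =>
    mul_pos (h.pos _ (hQm p hp).1 _ (hQm p hp).2.1) (h.pos _ (hQm p hp).1 _ (hQm p hp).2.2)
  have hS : IsCompact {p ∈ Q | 4 * G p.1 p.2.1 p.2.2 ^ 2 ≤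
      3 * (G p.1 p.2.1 p.2.1 * G p.1 p.2.2 p.2.2)} :=
    hQc.of_isClosed_subset (hQc.isClosed.isClosed_le
      (continuousOn_const.mul (((h1.clm_apply hv).clm_apply hw).pow 2))
      (continuousOn_const.mul hd)) (sep_subset _ _)
  obtain ⟨κ, hκ, hmin⟩ := hS.exists_forall_le' (a := 0)
    (f := fun p => Rm G p.1 p.2.1 p.2.2 / (G p.1 p.2.1 p.2.1 * G p.1 p.2.2 p.2.2))
    (((h.Rm_cont.mono fun p hp => ⟨(hQm p hp).1, mem_univ _⟩).div hd
      fun p hp => (hpos p hp).ne').mono (sep_subset _ _)) (fun p hp' => by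
      refine div_pos (hp _ (hQm p hp'.1).1 _ _ ?_) (hpos p hp'.1)
      rw [LinearIndependent.pair_iff' (hQm p hp'.1).2.1]
      intro a ha
      have h2 := hp'.2
      have h3 := hpos p hp'.1
      rw [← ha] at h2 h3
      simp only [map_smul, smul_apply, smul_eq_mul] at h2 h3
      nlinarith)
  refine ⟨κ, hκ, ?_⟩
  filter_upwards [closedBall_mem_nhds u hr] with x hx
  have hxU := hrU hx
  refine ⟨fun v w => ?_, fun v w hvw => ?_⟩
  · by_cases H : LinearIndependent ℝ ![v, w]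
    · exact (hp x hxU v w H).le
    · exact (h.Rm_dep hxU H).ge
  · by_cases hv0 : v = 0
    · simp [hv0, Rm]
    by_cases hw0 : w = 0
    · have := h.Rm_smul hxU 1 0 v w
      rw [one_smul, zero_smul] at this
      rw [hw0, this]
      simp
    obtain ⟨a, ha, v', hv', rfl⟩ : ∃ a : ℝ, 0 < a ∧ ∃ v' : E, ‖v'‖ = 1 ∧ v = a • v' :=
      ⟨‖v‖, norm_pos_iff.2 hv0, ‖v‖⁻¹ • v, norm_smul_inv_norm hv0,
        (smul_inv_smul₀ (norm_ne_zero_iff.2 hv0) v).symm⟩
    obtain ⟨b, hb, w', hw', rfl⟩ : ∃ b : ℝ, 0 < b ∧ ∃ w' : E, ‖w'‖ = 1 ∧ w = b • w' :=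
      ⟨‖w‖, norm_pos_iff.2 hw0, ‖w‖⁻¹ • w, norm_smul_inv_norm hw0,
        (smul_inv_smul₀ (norm_ne_zero_iff.2 hw0) w).symm⟩
    have hm : (x, v', w') ∈ Q := by
      rw [hQ]
      exact ⟨hx, mem_sphere_zero_iff_norm.2 hv', mem_sphere_zero_iff_norm.2 hw'⟩
    have hab : 0 < a ^ 2 * b ^ 2 := by positivity
    simp only [map_smul, smul_apply, smul_eq_mul] at hvw ⊢
    have h2 := hmin (x, v', w') ⟨hm, le_of_mul_le_mul_left (a := a ^ 2 * b ^ 2)
      (by linarith [hvw]) hab⟩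
    rw [le_div_iff₀ (hpos _ hm)] at h2
    rw [h.Rm_smul hxU]
    have h3 := mul_le_mul_of_nonneg_left h2 hab.le
    simp only at h3
    linarith

/-- If both pairs fail, choose signs and apply Cauchy-Schwarz to `T` and `± F₀ ± F₁`. -/
theorem Met.angle (h : Met G U) {u : E} (hu : u ∈ U) {F₀ F₁ : E} (T : E)
    (h0 : |G u F₀ F₀ - 1| ≤ 1 / 10) (h1 : |G u F₁ F₁ - 1| ≤ 1 / 10) (h01 : |G u F₀ F₁| ≤ 1 / 10) :
    4 * G u T F₀ ^ 2 ≤ 3 * (G u T T * G u F₀ F₀) ∨ 4 * G u T F₁ ^ 2 ≤ 3 * (G u T T * G u F₁ F₁) := by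
  by_contra H
  push Not at H
  obtain ⟨H0, H1⟩ := H
  have c1 := h.cs hu T (F₀ + F₁)
  have c2 := h.cs hu T (F₀ - F₁)
  simp only [map_add, map_sub, add_apply, sub_apply] at c1 c2
  rw [h.symm u hu F₁ F₀] at c1 c2
  have ht := h.nonneg hu T
  rw [abs_le] at h0 h1 h01
  generalize G u T T = t at *
  generalize G u T F₀ = a at *
  generalize G u T F₁ = b at *
  generalize G u F₀ F₀ = f₀ at *
  generalize G u F₁ F₁ = f₁ at *
  generalize G u F₀ F₁ = g at *
  have a1 : 27 / 40 * t < a ^ 2 := by nlinarith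
  have a2 : 27 / 40 * t < b ^ 2 := by nlinarith
  have a3 : (a + b) ^ 2 ≤ 12 / 5 * t := by nlinarith
  have a4 : (a - b) ^ 2 ≤ 12 / 5 * t := by nlinarith
  have a5 : 27 / 40 * t ≤ |a * b| := by
    refine (le_abs_self _).trans (sq_le_sq.1 ?_)
    rw [mul_pow a b, sq (27 / 40 * t)]
    exact mul_le_mul a1.le a2.le (by positivity) (sq_nonneg a)
  rcases le_abs.1 a5 with a6 | a6 <;> nlinarith

end RG
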