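import Pool.Agent.P.MP_8a106a_gt.RA

/-! The distance defined by chains. -/

set_option autoImplicit false
set_option maxSynthPendingDepth 3
set_option linter.unusedSectionVars false

noncomputable section

namespace RG

open Pool.Agent.P.MP_8a106a_gt Set Filter Topology Asymptotics Metric
open scoped ContDiff

variable {E : Type} [NormedAddCommGroup E] [NormedSpace ℝ E] [FiniteDimensional ℝ E]
  {X : Type} [TopologicalSpace X] {A : Atl E X}

theorem Atl.Stp.nonneg {a b : X} {l : ℝ} (h : A.Stp a b l) : 0 ≤ l := by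
  obtain ⟨i, -, -, h⟩ := h
  exact (nrm_nonneg _ _).trans (h _ (left_mem_segment ℝ _ _)).2

theorem Atl.Stp.symm {a b : X} {l : ℝ} (h : A.Stp a b l) : A.Stp b a l := by
  obtain ⟨i, ha, hb, h⟩ := h
  refine ⟨i, hb, ha, fun u hu => ?_⟩
  rw [segment_symm] at hu
  rw [← neg_sub, nrm_neg]
  exact h u hu

theorem Atl.Chain.nonneg {a b : X} {l : ℝ} (h : A.Chain a b l) : 0 ≤ l := by
  induction h with
  | nil => exact le_rfl
  | cons h _ ih => exact add_nonneg h.nonneg ih

theorem Atl.Chain.trans {a b c : X} {l l' : ℝ} (h : A.Chain a b l) (h' : A.Chain b c l') :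
    A.Chain a c (l + l') := by
  induction h with
  | nil => rwa [zero_add]
  | cons h _ ih =>
    rw [add_assoc]
    exact .cons h (ih h')

theorem Atl.Chain.symm {a b : X} {l : ℝ} (h : A.Chain a b l) : A.Chain b a l := by
  induction h with
  | nil => exact .nil _
  | cons h _ ih =>
    have := ih.trans (.cons h.symm (.nil _))
    rwa [add_zero, add_comm] at this

/-- `Met.close` on a small ball contained in the target. -/
theorem Atl.stp_near {i : A.ι} {x : X} (hx : x ∈ (A.e i).source) {η : ℝ} (hη : 0 < η) :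
    ∀ᶠ p : X × X in 𝓝 (x, x),
      A.Stp p.1 p.2 ((1 + η) * nrm (A.g i x) (A.e i p.1 - A.e i p.2)) := by
  have ht := (A.e i).map_source hx
  obtain ⟨r, hr, hb⟩ := Metric.mem_nhds_iff.1
    (((A.met i).close ht hη).and ((A.e i).open_target.mem_nhds ht))
  have h1 : ∀ᶠ y in 𝓝 x, y ∈ (A.e i).source ∧ A.e i y ∈ ball (A.e i x) r :=
    Filter.Eventually.and ((A.e i).open_source.mem_nhds hx)
      ((A.e i).continuousAt hx (ball_mem_nhds _ hr))
  rw [nhds_prod_eq]
  filter_upwards [h1.prod_mk h1] with p hp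
  refine ⟨i, hp.1.1, hp.2.1, fun u hu => ?_⟩
  have hu' := hb ((convex_ball _ _).segment_subset hp.1.2 hp.2.2 hu)
  refine ⟨hu'.2, ?_⟩
  have h2 := (abs_le.1 (hu'.1 (A.e i p.1 - A.e i p.2))).2
  rw [← neg_sub, nrm_neg]
  unfold Atl.g
  linarith

theorem Atl.exists_chain [PreconnectedSpace X] (A : Atl E X) (x y : X) : ∃ L, A.Chain x y L := by
  refine isPreconnected_univ.induction₂' (fun x y => ∃ L, A.Chain x y L) (fun z _ => ?_) ?_
    (mem_univ x) (mem_univ y)
  · obtain ⟨i, hi⟩ := A.cov z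
    have h1 : Tendsto (fun y => (z, y)) (𝓝 z) (𝓝 (z, z)) := (Continuous.prodMk_right z).tendsto z
    filter_upwards [mem_nhdsWithin_of_mem_nhds (h1 (Atl.stp_near hi one_pos))] with y hy
    exact ⟨⟨_, .cons hy (.nil _)⟩, _, .cons (Atl.Stp.symm hy) (.nil _)⟩
  · rintro _ _ _ - - - ⟨_, h⟩ ⟨_, h'⟩
    exact ⟨_, h.trans h'⟩

theorem Atl.Chain.dd_le {a b : X} {l : ℝ} (h : A.Chain a b l) : A.dd a b ≤ l := by
  exact csInf_le ⟨0, fun _ h => Atl.Chain.nonneg h⟩ h

theorem Atl.Stp.dd_le {a b : X} {l : ℝ} (h : A.Stp a b l) : A.dd a b ≤ l := by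
  simpa using (Atl.Chain.cons h (.nil _)).dd_le

theorem Atl.le_dd [PreconnectedSpace X] {a b : X} {r : ℝ} (h : ∀ l, A.Chain a b l → r ≤ l) :
    r ≤ A.dd a b := by
  exact le_csInf (A.exists_chain a b) h

theorem Atl.dd_nonneg (A : Atl E X) (x y : X) : 0 ≤ A.dd x y := by
  exact Real.sInf_nonneg fun _ h => Atl.Chain.nonneg h

theorem Atl.dd_self (A : Atl E X) (x : X) : A.dd x x = 0 := by
  exact le_antisymm (Atl.Chain.nil x).dd_le (A.dd_nonneg x x)

theorem Atl.dd_comm (A : Atl E X) (x y : X) : A.dd x y = A.dd y x := by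
  exact congrArg sInf (Set.ext fun _ => ⟨Atl.Chain.symm, Atl.Chain.symm⟩)

theorem Atl.dd_triangle [PreconnectedSpace X] (A : Atl E X) (x y z : X) :
    A.dd x z ≤ A.dd x y + A.dd y z := by
  refine sub_le_iff_le_add.1 (Atl.le_dd fun l h => ?_)
  refine sub_le_comm.1 (Atl.le_dd fun l' h' => ?_)
  exact sub_le_iff_le_add'.2 (h.trans h').dd_le

theorem Atl.Inv.dd_le [PreconnectedSpace X] {f : X → X} (hf : A.Inv f) (x y : X) :
    A.dd (f x) (f y) ≤ A.dd x y := by
  refine Atl.le_dd fun l h => Atl.Chain.dd_le ?_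
  induction h with
  | nil => exact .nil _
  | cons h _ ih =>
    refine .cons ?_ ih
    obtain ⟨i, ha, hb, h⟩ := h
    obtain ⟨j, h1, h2, h3⟩ := hf i
    refine ⟨j, (h3 _ ha).1, (h3 _ hb).1, ?_⟩
    rwa [h1, h2, (h3 _ ha).2, (h3 _ hb).2]

/-- Sub-segments of a step are steps. -/
theorem Atl.Stp.curve {a b : X} {l : ℝ} (h : A.Stp a b l) : ∃ c : ℝ → X, c 0 = a ∧ c 1 = b ∧
    ∀ s ∈ Icc (0 : ℝ) 1, ∀ t ∈ Icc (0 : ℝ) 1, A.dd (c s) (c t) ≤ |s - t| * l := by
  obtain ⟨i, ha, hb, h⟩ := h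
  have hp : ∀ s ∈ Icc (0 : ℝ) 1,
      A.e i a + s • (A.e i b - A.e i a) ∈ segment ℝ (A.e i a) (A.e i b) := fun s hs => by
    rw [segment_eq_image']
    exact ⟨s, hs, rfl⟩
  refine ⟨fun s => (A.e i).symm (A.e i a + s • (A.e i b - A.e i a)), ?_, ?_,
    fun s hs t ht => Atl.Stp.dd_le ?_⟩
  · simp [(A.e i).left_inv ha]
  · simp [(A.e i).left_inv hb]
  · have h1 := (h _ (hp s hs)).1
    have h2 := (h _ (hp t ht)).1
    refine ⟨i, (A.e i).map_target h1, (A.e i).map_target h2, fun u hu => ?_⟩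
    rw [(A.e i).right_inv h1, (A.e i).right_inv h2] at hu ⊢
    have h3 := h u ((convex_segment _ _).segment_subset (hp s hs) (hp t ht) hu)
    refine ⟨h3.1, ?_⟩
    rw [add_sub_add_left_eq_sub, ← sub_smul, nrm_smul, abs_sub_comm]
    exact mul_le_mul_of_nonneg_left h3.2 (abs_nonneg _)

/-- Show by induction on a chain of cost `L` that for every `L' > L` there is a curve on `[0, L']`
with `dd (c s) (c t) ≤ |s - t|`; rescale. -/
theorem Atl.intr_dd [PreconnectedSpace X] (A : Atl E X) : Intr A.dd := by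
  have key : ∀ {a b : X} {L : ℝ}, A.Chain a b L → ∀ L', L < L' → ∃ c : ℝ → X, c 0 = a ∧ c L' = b ∧
      ∀ s ∈ Icc 0 L', ∀ t ∈ Icc 0 L', A.dd (c s) (c t) ≤ |s - t| := by
    intro a b L h
    induction h with
    | nil x => exact fun L' _ => ⟨fun _ => x, rfl, rfl, fun s _ t _ => by simp [A.dd_self]⟩
    | @cons a b c l L h h' ih =>
      intro L' hL
      have hl := h.nonneg
      have hL0 := h'.nonneg
      obtain ⟨m, hm1, hm2⟩ := exists_between (show l < L' - L by linarith)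
      have hm : 0 < m := by linarith
      obtain ⟨c₁, h1, h2, h3⟩ := h.curve
      obtain ⟨c₂, h4, h5, h6⟩ := ih (L' - m) (by linarith)
      have h7 : ∀ s ∈ Icc 0 m, ∀ t ∈ Icc 0 m, A.dd (c₁ (s / m)) (c₁ (t / m)) ≤ |s - t| := by
        intro s hs t ht
        refine (h3 _ ⟨div_nonneg hs.1 hm.le, (div_le_one hm).2 hs.2⟩ _
          ⟨div_nonneg ht.1 hm.le, (div_le_one hm).2 ht.2⟩).trans ?_
        rw [← sub_div, abs_div, abs_of_pos hm, div_mul_eq_mul_div, div_le_iff₀ hm]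
        exact mul_le_mul_of_nonneg_left hm1.le (abs_nonneg _)
      have h8 : ∀ s ∈ Icc 0 L', ∀ t ∈ Icc 0 L', s ≤ m → ¬ t ≤ m →
          A.dd (c₁ (s / m)) (c₂ (t - m)) ≤ |s - t| := by
        intro s hs t ht hsm htm
        have htm' := not_le.1 htm
        have e1 := h7 s ⟨hs.1, hsm⟩ m ⟨hm.le, le_rfl⟩
        have e2 := h6 0 ⟨le_rfl, by linarith⟩ (t - m) ⟨by linarith, by linarith [ht.2]⟩
        rw [div_self hm.ne', h2, abs_of_nonpos (by linarith)] at e1
        rw [h4, abs_of_nonpos (by linarith)] at e2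
        rw [abs_of_nonpos (by linarith)]
        linarith [A.dd_triangle (c₁ (s / m)) b (c₂ (t - m))]
      refine ⟨fun s => if s ≤ m then c₁ (s / m) else c₂ (s - m), ?_, ?_, fun s hs t ht => ?_⟩
      · simp [hm.le, h1]
      · by_cases e : L' ≤ m
        · linarith
        · simp [e, h5]
      · by_cases hsm : s ≤ m <;> by_cases htm : t ≤ m <;> simp only [hsm, htm, if_true, if_false]
        · exact h7 s ⟨hs.1, hsm⟩ t ⟨ht.1, htm⟩
        · exact h8 s hs t ht hsm htm
        · rw [A.dd_comm, abs_sub_comm]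
          exact h8 t ht s hs htm hsm
        · have := h6 (s - m) ⟨by linarith [not_le.1 hsm], by linarith [hs.2]⟩ (t - m)
            ⟨by linarith [not_le.1 htm], by linarith [ht.2]⟩
          rwa [sub_sub_sub_cancel_right] at this
  intro x y ε hε
  obtain ⟨L, hL, h⟩ := exists_lt_of_csInf_lt (A.exists_chain x y)
    (show A.dd x y < A.dd x y + ε by linarith)
  obtain ⟨c, h1, h2, h3⟩ := key hL _ h
  have h0 : 0 ≤ A.dd x y + ε := by linarith [A.dd_nonneg x y]
  refine ⟨fun s => c (s * (A.dd x y + ε)), by simpa using h1, by simpa using h2,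
    fun s hs t ht => ?_⟩
  have := h3 _ ⟨mul_nonneg hs.1 h0, mul_le_of_le_one_left h0 hs.2⟩ _
    ⟨mul_nonneg ht.1 h0, mul_le_of_le_one_left h0 ht.2⟩
  rwa [← sub_mul, abs_mul, abs_of_nonneg h0] at this

end RG
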