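import Pool.Agent.P.MP_8a106a_gt.CDefs

/-! Definitions for the Riemannian part. -/

set_option autoImplicit false
set_option maxSynthPendingDepth 3

noncomputable section

namespace RG

open Pool.Agent.P.MP_8a106a_gt Set Filter Topology Asymptotics
open scoped ContDiff

variable {E : Type} [NormedAddCommGroup E] [NormedSpace ℝ E]

/-- A smooth Riemannian metric on the open set `V`. -/
structure Met (G : E → E →L[ℝ] E →L[ℝ] ℝ) (V : Set E) : Prop where
  opn : IsOpen V
  smooth : ContDiffOn ℝ ∞ G V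
  symm : ∀ u ∈ V, ∀ v w, G u v w = G u w v
  pos : ∀ u ∈ V, ∀ v, v ≠ 0 → 0 < G u v v

/-- The Christoffel symbol as a continuous bilinear map. -/
def chrL (G : E → E →L[ℝ] E →L[ℝ] ℝ) (u : E) : E →L[ℝ] E →L[ℝ] E :=
  (ContinuousLinearMap.compL ℝ E (E →L[ℝ] ℝ) E (G u).inverse).comp ((1 / 2 : ℝ) •
    (fderiv ℝ G u + (fderiv ℝ G u).flip -
      (ContinuousLinearMap.flipₗᵢ ℝ E E ℝ).toContinuousLinearEquiv.toContinuousLinearMap.comp
        (fderiv ℝ G u).flip))

theorem chrL_apply (G : E → E →L[ℝ] E →L[ℝ] ℝ) (u v w : E) : chrL G u v w = chr G u v w := rfl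

/-- The numerator of the sectional curvature. -/
def Rm (G : E → E →L[ℝ] E →L[ℝ] ℝ) (u v w : E) : ℝ := G u (riem G u v w w) v

/-- The norm of a bilinear form. -/
def nrm (B : E →L[ℝ] E →L[ℝ] ℝ) (v : E) : ℝ := √(B v v)

/-- The curvature condition at a point: nonnegative curvature, and at least `κ` on pairs of
vectors that make a definite angle. -/
def Cu (G : E → E →L[ℝ] E →L[ℝ] ℝ) (κ : ℝ) (u : E) : Prop :=
  (∀ v w, 0 ≤ Rm G u v w) ∧
    ∀ v w, 4 * G u v w ^ 2 ≤ 3 * (G u v v * G u w w) → κ * (G u v v * G u w w) ≤ Rm G u v w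

/-- The squared speed of a second order variation. -/
def qf (G : E → E →L[ℝ] E →L[ℝ] ℝ) (u V A T W N : E) (s : ℝ) : ℝ :=
  G (u + s • V - (s ^ 2 / 2) • A) (T + s • W - (s ^ 2 / 2) • N) (T + s • W - (s ^ 2 / 2) • N)

/-- The coefficient of `s ^ 2` in `qf`. -/
def qc (G : E → E →L[ℝ] E →L[ℝ] ℝ) (u V A T W N : E) : ℝ :=
  (fderiv ℝ (fun x => fderiv ℝ G x V T T) u V - fderiv ℝ G u A T T) / 2 + 2 * fderiv ℝ G u V T W +
    G u W W - G u T N

/-- The second order approximation of the geodesic with initial vector `V`. -/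
def exc (G : E → E →L[ℝ] E →L[ℝ] ℝ) (u V : E) (s : ℝ) : E := u + s • V - (s ^ 2 / 2) • chr G u V V

/-- The first order approximation at `u₀` of the parallel field with initial vector `F`. -/
def par (G : E → E →L[ℝ] E →L[ℝ] ℝ) (u₀ F u : E) : E := F - chr G u₀ (u - u₀) F

/-- The derivative of `chr G x V V` when `x` moves with velocity `T` and `V` with velocity `W`. -/
def nn (G : E → E →L[ℝ] E →L[ℝ] ℝ) (u V T W : E) : E :=
  fderiv ℝ (fun x => chr G x V V) u T + (2 : ℝ) • chr G u W V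

/-- The velocity of `a • par G u₁ F u` when `u` has velocity `T` and `a` has velocity `b`. -/
def ww (G : E → E →L[ℝ] E →L[ℝ] ℝ) (u₁ F u T : E) (a b : ℝ) : E :=
  b • par G u₁ F u - a • chr G u₁ T F

/-- The squared speed of `exc G u (a • par G u₁ F u) s`. -/
def sp (G : E → E →L[ℝ] E →L[ℝ] ℝ) (u₁ F u T : E) (a b s : ℝ) : ℝ :=
  qf G u (a • par G u₁ F u) (chr G u (a • par G u₁ F u) (a • par G u₁ F u)) T (ww G u₁ F u T a b)
    (nn G u (a • par G u₁ F u) T (ww G u₁ F u T a b)) s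

variable (E) in
/-- An atlas with a Riemannian metric in each chart and isometric transition maps. -/
structure Atl (X : Type) [TopologicalSpace X] where
  ι : Type
  e : ι → OpenPartialHomeomorph X E
  G : ι → E → E →L[ℝ] E →L[ℝ] ℝ
  cov : ∀ x, ∃ i, x ∈ (e i).source
  met : ∀ i, Met (G i) (e i).target
  smooth : ∀ i j x, x ∈ (e i).source → x ∈ (e j).source →
    ContDiffAt ℝ ∞ (e j ∘ (e i).symm) (e i x)
  iso : ∀ i j x, x ∈ (e i).source → x ∈ (e j).source → ∀ v w,
    G j (e j x) (fderiv ℝ (e j ∘ (e i).symm) (e i x) v) (fderiv ℝ (e j ∘ (e i).symm) (e i x) w) =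
      G i (e i x) v w

namespace Atl

section

variable {X : Type} [TopologicalSpace X] (A : Atl E X)

/-- The metric at `x` in the chart `i`. -/
def g (i : A.ι) (x : X) : E →L[ℝ] E →L[ℝ] ℝ := A.G i (A.e i x)

/-- The differential of the transition map. -/
def tr (i j : A.ι) (x : X) : E →L[ℝ] E := fderiv ℝ (A.e j ∘ (A.e i).symm) (A.e i x)

/-- The approximate geodesic in the chart `i`. -/
def ex (i : A.ι) (x : X) (V : E) (s : ℝ) : X := (A.e i).symm (exc (A.G i) (A.e i x) V s)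

/-- The curvature condition holds near each point in some chart. -/
def Curv (κ : ℝ) : Prop :=
  ∀ x, ∃ i, x ∈ (A.e i).source ∧ ∀ᶠ u in 𝓝 (A.e i x), Cu (A.G i) κ u

/-- `f` preserves the atlas. -/
def Inv (f : X → X) : Prop :=
  ∀ i, ∃ j, A.G j = A.G i ∧ (A.e j).target = (A.e i).target ∧
    ∀ x ∈ (A.e i).source, f x ∈ (A.e j).source ∧ A.e j (f x) = A.e i x

/-- A straight segment in a chart along which the speed is at most `l`. -/
def Stp (a b : X) (l : ℝ) : Prop :=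
  ∃ i, a ∈ (A.e i).source ∧ b ∈ (A.e i).source ∧
    ∀ u ∈ segment ℝ (A.e i a) (A.e i b),
      u ∈ (A.e i).target ∧ nrm (A.G i u) (A.e i b - A.e i a) ≤ l

/-- Chains of segments with their total cost. -/
inductive Chain : X → X → ℝ → Prop
  | nil (x : X) : Chain x x 0
  | cons {a b c : X} {l L : ℝ} : A.Stp a b l → Chain b c L → Chain a c (l + L)

/-- The Riemannian distance. -/
def dd (x y : X) : ℝ := sInf {L | A.Chain x y L}

/-- The function `d` is infinitesimally given by the metric. -/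
def LocD (d : X → X → ℝ) : Prop :=
  ∀ i, ∀ x ∈ (A.e i).source, ∀ η : ℝ, 0 < η → ∀ᶠ p : X × X in 𝓝 (x, x),
    |d p.1 p.2 - nrm (A.g i x) (A.e i p.1 - A.e i p.2)| ≤ η * nrm (A.g i x) (A.e i p.1 - A.e i p.2)

end

variable {X : Type} [MetricSpace X] (A : Atl E X)

/-- Along the filter `l`, the curve `γ` agrees at time `t` to second order with the geodesic with
initial vector `V`. -/
def Jet (γ : ℝ → X) (t : ℝ) (i : A.ι) (V : E) (l : Filter ℝ) : Prop :=
  γ t ∈ (A.e i).source ∧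
    (fun s => dist (γ (t + s)) (A.ex i (γ t) V s)) =o[l] fun s => s ^ 2

/-- A geodesic on `[0, T]` of speed at most one with initial vector `V`. -/
structure Gs (γ : ℝ → X) (T : ℝ) (i : A.ι) (V : E) : Prop where
  lip : ∀ s ∈ Icc 0 T, ∀ t ∈ Icc 0 T, dist (γ s) (γ t) ≤ |s - t|
  start : A.Jet γ 0 i V (𝓝[>] 0)
  jet : ∀ t ∈ Ioc 0 T, ∃ j W, A.g j (γ t) W W ≤ 1 ∧ A.Jet γ t j W (𝓝[<] 0) ∧
    (t < T → A.Jet γ t j W (𝓝[>] 0))

/-- The varied points, in the product of `2 * card K` copies of `X`. -/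
def vp {K : Type} (i : A.ι) (x : X) (V : K → E) (s : ℝ) : PiLp 2 fun _ : K × Bool => X :=
  WithLp.toLp 2 fun k => A.ex i x (V k.1) (if k.2 then s else -s)

theorem dist_vp {K : Type} [Fintype K] (i : A.ι) (x : X) (V : K → E) (j : A.ι) (y : X)
    (W : K → E) (s : ℝ) :
    dist (A.vp i x V s) (A.vp j y W s) = √(∑ k, (dist (A.ex i x (V k) s) (A.ex j y (W k) s) ^ 2 +
      dist (A.ex i x (V k) (-s)) (A.ex j y (W k) (-s)) ^ 2)) := by
  rw [PiLp.dist_eq_sum (by norm_num), Fintype.sum_prod_type]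
  simp [vp, Real.sqrt_eq_rpow]

/-- The index form of the fields `lam • F k` is at most `φ`, for all families `F` whose Gram matrix
is `η`-close to `M` and all directions of length `L`. -/
def Bd {K : Type} [Fintype K] (M : K → K → ℝ) (η L : ℝ) (lam lam' φ : ℝ → ℝ) : Prop :=
  ∀ x, ∃ i, x ∈ (A.e i).source ∧ ∀ᶠ u in 𝓝 (A.e i x), ∀ τ ∈ Icc (0 : ℝ) 1, ∀ (F : K → E) (T : E),
    (∀ k l, |A.G i u (F k) (F l) - M k l| ≤ η) → A.G i u T T = L ^ 2 →
      ∑ k, (2 * lam' τ ^ 2 * A.G i u (F k) (F k) - 2 * lam τ ^ 2 * Rm (A.G i) u T (F k)) ≤ φ τ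

end Atl

/-- A curve of constant speed `L` on `[0, 1]` that realises distances. -/
def Seg {X : Type} [MetricSpace X] (c : ℝ → X) (L : ℝ) : Prop :=
  ∀ s ∈ Icc (0 : ℝ) 1, ∀ t ∈ Icc (0 : ℝ) 1, dist (c s) (c t) = |s - t| * L

/-- Any two points are joined by almost minimising Lipschitz curves. -/
def Intr {X : Type} (d : X → X → ℝ) : Prop :=
  ∀ x y : X, ∀ ε : ℝ, 0 < ε → ∃ c : ℝ → X, c 0 = x ∧ c 1 = y ∧
    ∀ s ∈ Icc (0 : ℝ) 1, ∀ t ∈ Icc (0 : ℝ) 1, d (c s) (c t) ≤ |s - t| * (d x y + ε)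

/-- The distance is the Riemannian one, the curvature condition holds, and any two points are
joined by a segment. -/
structure Atl.Ok {X : Type} [MetricSpace X] (A : Atl E X) (κ : ℝ) : Prop where
  locd : A.LocD dist
  curv : A.Curv κ
  seg : ∀ x y : X, ∃ c : ℝ → X, c 0 = x ∧ c 1 = y ∧ Seg c (dist x y)

end RG
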