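import Pool.Agent.P.MP_8a106a_gt.RT

/-! Directions, approximate geodesics and jets. -/

set_option autoImplicit false
set_option maxSynthPendingDepth 3
set_option linter.unusedSectionVars false

noncomputable section

namespace RG

open Pool.Agent.P.MP_8a106a_gt Set Filter Topology Asymptotics Metric
open scoped ContDiff

variable {E : Type} [NormedAddCommGroup E] [NormedSpace ℝ E] [FiniteDimensional ℝ E]
  {X : Type} [MetricSpace X] {A : Atl E X}

theorem tendsto_exc_RJ (G : E → E →L[ℝ] E →L[ℝ] ℝ) (u V : E) :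
    Tendsto (exc G u V) (𝓝 0) (𝓝 u) := by
  have h : Continuous (exc G u V) := by
    unfold exc
    fun_prop
  simpa [exc] using h.tendsto 0

theorem exc_sub_RJ (G : E → E →L[ℝ] E →L[ℝ] ℝ) (u V : E) (s : ℝ) :
    exc G u V s - u = s • (V - (s / 2) • chr G u V V) := by
  unfold exc
  module

theorem Atl.LocD.lip (hd : A.LocD dist) {i : A.ι} {x : X} (hx : x ∈ (A.e i).source) :
    ∃ C : ℝ, 0 < C ∧ ∀ᶠ p : X × X in 𝓝 (x, x),
      dist p.1 p.2 ≤ C * ‖A.e i p.1 - A.e i p.2‖ ∧ ‖A.e i p.1 - A.e i p.2‖ ≤ C * dist p.1 p.2 := by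
  obtain ⟨C, hC, hb⟩ := (A.met i).bounds ((A.e i).map_source hx)
  refine ⟨2 * C, by positivity, (hd i x hx (1 / 2) (by norm_num)).mono fun p hp => ?_⟩
  obtain ⟨h1, h2⟩ := hb.self_of_nhds (A.e i p.1 - A.e i p.2)
  obtain ⟨h3, h4⟩ := abs_le.1 hp
  unfold Atl.g at h3 h4
  have h5 := mul_nonneg hC.le (norm_nonneg (A.e i p.1 - A.e i p.2))
  constructor
  · linarith
  · refine h1.trans ?_
    rw [mul_comm 2 C, mul_assoc]
    exact mul_le_mul_of_nonneg_left (by linarith) hC.le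

theorem Atl.LocD.dir (hd : A.LocD dist) {i : A.ι} {u₀ T : E} (hu : u₀ ∈ (A.e i).target)
    {l : Filter ℝ} (hl : l ≤ 𝓝[>] 0) {u : ℝ → E}
    (hp : Tendsto (fun h : ℝ => h⁻¹ • (u h - u₀)) l (𝓝 T)) :
    Tendsto (fun h : ℝ => dist ((A.e i).symm (u h)) ((A.e i).symm u₀) / h) l
      (𝓝 (nrm (A.G i u₀) T)) := by
  have hu' : Tendsto u l (𝓝 u₀) := tendsto_of_slope (hl.trans (nhdsGT_le_nhdsNE 0)) hp
  have hx : Tendsto (fun h => (A.e i).symm (u h)) l (𝓝 ((A.e i).symm u₀)) :=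
    ((A.e i).continuousAt_symm hu).tendsto.comp hu'
  have hn : Tendsto (fun h : ℝ => nrm (A.G i u₀) (h⁻¹ • (u h - u₀))) l (𝓝 (nrm (A.G i u₀) T)) :=
    (continuous_nrm.tendsto (A.G i u₀, T)).comp (tendsto_const_nhds.prodMk_nhds hp)
  have ho : (fun h : ℝ => dist ((A.e i).symm (u h)) ((A.e i).symm u₀) / h -
      nrm (A.G i u₀) (h⁻¹ • (u h - u₀))) =o[l] fun h : ℝ => nrm (A.G i u₀) (h⁻¹ • (u h - u₀)) := by
    refine isLittleO_iff.2 fun η hη => ?_
    filter_upwards [(hx.prodMk_nhds tendsto_const_nhds).eventually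
      (hd i _ ((A.e i).map_target hu) η hη), hu'.eventually ((A.e i).open_target.mem_nhds hu),
      hl self_mem_nhdsWithin] with h h1 h2 h3
    have h3' : 0 < h := h3
    simp only [Atl.g, (A.e i).right_inv hu, (A.e i).right_inv h2] at h1
    rw [Real.norm_eq_abs, Real.norm_eq_abs, abs_of_nonneg (nrm_nonneg _ _), nrm_smul,
      abs_of_pos (inv_pos.2 h3'), div_eq_inv_mul, ← mul_sub, abs_mul, abs_of_pos (inv_pos.2 h3'),
      mul_left_comm]
    exact mul_le_mul_of_nonneg_left h1 (inv_pos.2 h3').le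
  have h0 := (isLittleO_one_iff ℝ).1 (ho.trans_isBigO (hn.isBigO_one ℝ))
  simpa using h0.add hn

/-- The difference quotients are bounded; take the limit along an ultrafilter and use `dir`. -/
theorem Atl.LocD.exists_dir (hd : A.LocD dist) {i : A.ι} {x : X} (hx : x ∈ (A.e i).source)
    {c : ℝ → X} {L : ℝ} (hc : ∀ᶠ h in 𝓝[>] (0 : ℝ), dist (c h) x = h * L) :
    ∃ (l : Filter ℝ) (T : E), l.NeBot ∧ l ≤ 𝓝[>] 0 ∧
      Tendsto (fun h : ℝ => h⁻¹ • (A.e i (c h) - A.e i x)) l (𝓝 T) ∧ A.g i x T T = L ^ 2 := by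
  have hcx : Tendsto c (𝓝[>] 0) (𝓝 x) := by
    rw [tendsto_iff_dist_tendsto_zero]
    refine Tendsto.congr' (EventuallyEq.symm hc) ?_
    have : Tendsto (fun h : ℝ => h * L) (𝓝 0) (𝓝 (0 * L)) := tendsto_id.mul_const L
    rw [zero_mul] at this
    exact this.mono_left nhdsWithin_le_nhds
  obtain ⟨C, hC, hb⟩ := hd.lip hx
  have hm : ∀ᶠ h in 𝓝[>] (0 : ℝ),
      h⁻¹ • (A.e i (c h) - A.e i x) ∈ closedBall (0 : E) (C * L) := by
    filter_upwards [(hcx.prodMk_nhds tendsto_const_nhds).eventually hb, hc,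
      self_mem_nhdsWithin] with h h1 h2 h3
    have h3' : 0 < h := h3
    rw [mem_closedBall_zero_iff, norm_smul, Real.norm_eq_abs, abs_of_pos (inv_pos.2 h3'),
      inv_mul_le_iff₀ h3', mul_left_comm, ← h2]
    exact h1.2
  have hl : (Ultrafilter.of (𝓝[>] (0 : ℝ)) : Filter ℝ) ≤ 𝓝[>] 0 := Ultrafilter.of_le _
  obtain ⟨T, -, hT⟩ := (isCompact_closedBall (0 : E) (C * L)).ultrafilter_le_nhds
    ((Ultrafilter.of (𝓝[>] (0 : ℝ))).map fun h : ℝ => h⁻¹ • (A.e i (c h) - A.e i x))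
    (le_principal_iff.2 (hl hm))
  have hT' : Tendsto (fun h : ℝ => h⁻¹ • (A.e i (c h) - A.e i x))
      (Ultrafilter.of (𝓝[>] (0 : ℝ)) : Filter ℝ) (𝓝 T) := hT
  refine ⟨_, T, inferInstance, hl, hT', ?_⟩
  have h1 := hd.dir ((A.e i).map_source hx) hl hT'
  have h2 : (fun h : ℝ => dist ((A.e i).symm (A.e i (c h))) ((A.e i).symm (A.e i x)) / h)
      =ᶠ[(Ultrafilter.of (𝓝[>] (0 : ℝ)) : Filter ℝ)] fun _ => L := by
    refine EventuallyEq.filter_mono ?_ hl
    filter_upwards [hcx.eventually ((A.e i).open_source.mem_nhds hx), hc,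
      self_mem_nhdsWithin] with h h1 h2 h3
    have h3' : 0 < h := h3
    rw [(A.e i).left_inv h1, (A.e i).left_inv hx, h2, mul_div_cancel_left₀ _ h3'.ne']
  rw [← tendsto_nhds_unique (h1.congr' h2) tendsto_const_nhds,
    (A.met i).nrm_sq ((A.e i).map_source hx)]
  rfl

theorem Atl.g_tr {i j : A.ι} {x : X} (hi : x ∈ (A.e i).source) (hj : x ∈ (A.e j).source)
    (V W : E) : A.g j x (A.tr i j x V) (A.tr i j x W) = A.g i x V W := by
  exact A.iso i j x hi hj V W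

theorem Atl.ex_zero {i : A.ι} {x : X} (hx : x ∈ (A.e i).source) (s : ℝ) : A.ex i x 0 s = x := by
  simp [Atl.ex, exc, ← chrL_apply, (A.e i).left_inv hx]

theorem Atl.tendsto_ex {i : A.ι} {x : X} (hx : x ∈ (A.e i).source) (V : E) :
    Tendsto (A.ex i x V) (𝓝 0) (𝓝 x) := by
  have h := ((A.e i).continuousAt_symm ((A.e i).map_source hx)).tendsto.comp
    (tendsto_exc_RJ (A.G i) (A.e i x) V)
  rwa [(A.e i).left_inv hx] at h

/-- `exc_trans` and `LocD.lip`. -/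
theorem Atl.LocD.ex_tr (hd : A.LocD dist) {i j : A.ι} {x : X} (hi : x ∈ (A.e i).source)
    (hj : x ∈ (A.e j).source) (V : E) :
    (fun s => dist (A.ex i x V s) (A.ex j x (A.tr i j x V) s)) =o[𝓝 0] fun s : ℝ => s ^ 2 := by
  have hu := (A.e i).map_source hi
  have hφ : (A.e j ∘ (A.e i).symm) (A.e i x) = A.e j x := by
    rw [Function.comp_apply, (A.e i).left_inv hi]
  have hiso : ∀ᶠ y in 𝓝 (A.e i x), ∀ v w, A.G j ((A.e j ∘ (A.e i).symm) y)
      (fderiv ℝ (A.e j ∘ (A.e i).symm) y v) (fderiv ℝ (A.e j ∘ (A.e i).symm) y w) =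
      A.G i y v w := by
    have h1 : Tendsto (A.e i).symm (𝓝 (A.e i x)) (𝓝 x) := (A.e i).tendsto_symm hi
    filter_upwards [(A.e i).open_target.mem_nhds hu,
      h1.eventually ((A.e j).open_source.mem_nhds hj)] with y h2 h3 v w
    have h4 := A.iso i j _ ((A.e i).map_target h2) h3 v w
    rwa [(A.e i).right_inv h2] at h4
  have ho := exc_trans (A.met i) (A.met j) hu (hφ ▸ (A.e j).map_source hj)
    (A.smooth i j x hi hj) hiso V
  rw [hφ] at ho
  obtain ⟨C, hC, hb⟩ := hd.lip hj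
  refine IsBigO.trans_isLittleO (IsBigO.of_bound C ?_) ho
  filter_upwards [((Atl.tendsto_ex hi V).prodMk_nhds
    (Atl.tendsto_ex hj (A.tr i j x V))).eventually hb, (tendsto_exc_RJ (A.G j) (A.e j x)
    (A.tr i j x V)).eventually ((A.e j).open_target.mem_nhds ((A.e j).map_source hj))] with s h1 h2
  have h3 : A.e j (A.ex j x (A.tr i j x V) s) = exc (A.G j) (A.e j x) (A.tr i j x V) s :=
    (A.e j).right_inv h2
  rw [Real.norm_eq_abs, abs_of_nonneg dist_nonneg]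
  have h4 := h1.1
  rw [h3] at h4
  exact h4

theorem Atl.LocD.vp_tr (hd : A.LocD dist) {i j : A.ι} {x : X} (hi : x ∈ (A.e i).source)
    (hj : x ∈ (A.e j).source) {K : Type} [Fintype K] (V : K → E) :
    (fun s => dist (A.vp i x V s) (A.vp j x (fun k => A.tr i j x (V k)) s)) =o[𝓝 0]
      fun s : ℝ => s ^ 2 := by
  have hneg : Tendsto (fun s : ℝ => -s) (𝓝 0) (𝓝 0) := by
    simpa using (continuous_neg (G := ℝ)).tendsto 0
  have h1 : (fun s : ℝ => ∑ k, (dist (A.ex i x (V k) s) (A.ex j x (A.tr i j x (V k)) s) ^ 2 +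
      dist (A.ex i x (V k) (-s)) (A.ex j x (A.tr i j x (V k)) (-s)) ^ 2)) =o[𝓝 0]
      fun s : ℝ => (s ^ 2) ^ 2 := by
    refine IsLittleO.fun_sum fun k _ => ((hd.ex_tr hi hj (V k)).pow two_pos).add ?_
    have h2 := ((hd.ex_tr hi hj (V k)).comp_tendsto hneg).pow two_pos
    simpa only [Function.comp_apply, neg_sq] using h2
  have h3 := h1.sqrt (Eventually.of_forall fun s => sq_nonneg _)
  simpa only [Atl.dist_vp, Real.sqrt_sq (sq_nonneg _)] using h3

theorem Atl.LocD.jet_tr (hd : A.LocD dist) {i j : A.ι} {γ : ℝ → X} {t : ℝ}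
    (hi : γ t ∈ (A.e i).source) {V : E} {l : Filter ℝ} (hl : l ≤ 𝓝 0)
    (h : A.Jet γ t j (A.tr i j (γ t) V) l) : A.Jet γ t i V l := by
  refine ⟨hi, IsBigO.trans_isLittleO (IsBigO.of_norm_le fun s => ?_)
    (h.2.add ((hd.ex_tr hi h.1 V).mono hl))⟩
  rw [Real.norm_eq_abs, abs_of_nonneg dist_nonneg]
  exact dist_triangle_right _ _ _

theorem Atl.LocD.dist_ex (hd : A.LocD dist) {i : A.ι} {x : X} (hx : x ∈ (A.e i).source) (V : E)
    {ε : ℝ} (hε : 0 < ε) :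
    ∀ᶠ s in 𝓝 (0 : ℝ), dist (A.ex i x V s) x ^ 2 ≤ s ^ 2 * (A.g i x V V + ε) := by
  have hu := (A.e i).map_source hx
  have h1 : Tendsto (fun η : ℝ => (1 + η) ^ 2 * A.g i x V V) (𝓝[>] 0) (𝓝 (A.g i x V V)) := by
    have : Continuous fun η : ℝ => (1 + η) ^ 2 * A.g i x V V := by fun_prop
    simpa using (this.tendsto 0).mono_left nhdsWithin_le_nhds
  obtain ⟨η, h2, hη⟩ := ((h1.eventually (gt_mem_nhds (lt_add_of_pos_right _ hε))).and
    self_mem_nhdsWithin).exists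
  have hη' : 0 < η := hη
  have h3 : Continuous fun s : ℝ => (1 + η) ^ 2 *
      A.g i x (V - (s / 2) • chr (A.G i) (A.e i x) V V)
        (V - (s / 2) • chr (A.G i) (A.e i x) V V) := by fun_prop
  have h4 := (h3.tendsto 0).eventually (gt_mem_nhds (a := A.g i x V V + ε) (by simpa using h2))
  filter_upwards [h4, ((Atl.tendsto_ex hx V).prodMk_nhds tendsto_const_nhds).eventually
    (hd i x hx η hη'), (tendsto_exc_RJ (A.G i) (A.e i x) V).eventually
    ((A.e i).open_target.mem_nhds hu)] with s h5 h6 h7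
  have h8 : A.e i (A.ex i x V s) = exc (A.G i) (A.e i x) V s := (A.e i).right_inv h7
  rw [h8, exc_sub_RJ, nrm_smul] at h6
  have h9 := (A.met i).nrm_sq hu (V - (s / 2) • chr (A.G i) (A.e i x) V V)
  calc dist (A.ex i x V s) x ^ 2
      ≤ ((1 + η) * (|s| * nrm (A.g i x) (V - (s / 2) • chr (A.G i) (A.e i x) V V))) ^ 2 :=
        pow_le_pow_left₀ dist_nonneg (by linarith [(abs_le.1 h6).2]) 2
    _ = s ^ 2 * ((1 + η) ^ 2 * A.g i x (V - (s / 2) • chr (A.G i) (A.e i x) V V)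
        (V - (s / 2) • chr (A.G i) (A.e i x) V V)) := by
        rw [mul_pow, mul_pow, sq_abs, Atl.g, h9, mul_left_comm]
    _ ≤ _ := mul_le_mul_of_nonneg_left h5.le (sq_nonneg s)

/-- A curve with a jet and a curve with a direction `V` along `l` agree to first order. -/
theorem Atl.LocD.jet_close (hd : A.LocD dist) {i : A.ι} {γ c : ℝ → X} {V : E}
    (h : A.Jet γ 0 i V (𝓝[>] 0)) {l : Filter ℝ} (hl : l ≤ 𝓝[>] 0) (hc : Tendsto c l (𝓝 (γ 0)))
    (hp : Tendsto (fun h : ℝ => h⁻¹ • (A.e i (c h) - A.e i (γ 0))) l (𝓝 V)) {ε : ℝ} (hε : 0 < ε) :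
    ∀ᶠ t in l, dist (γ t) (c t) ≤ ε * t := by
  have hx := h.1
  have hl0 : l ≤ 𝓝 0 := hl.trans nhdsWithin_le_nhds
  obtain ⟨C, hC, hb⟩ := hd.lip hx
  have h1 : Tendsto (fun t : ℝ => V - (t / 2) • chr (A.G i) (A.e i (γ 0)) V V) l (𝓝 V) := by
    have : Continuous fun t : ℝ => V - (t / 2) • chr (A.G i) (A.e i (γ 0)) V V := by fun_prop
    simpa using (this.tendsto 0).mono_left hl0
  have h2 := ((h1.sub hp).norm.const_mul C).eventually
    (gt_mem_nhds (a := ε / 2) (by simpa using hε))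
  filter_upwards [h2, hl (isLittleO_iff.1 h.2 (half_pos hε)), hl self_mem_nhdsWithin,
    hl0 (Iio_mem_nhds one_pos),
    (((Atl.tendsto_ex hx V).mono_left hl0).prodMk_nhds hc).eventually hb,
    hl0 ((tendsto_exc_RJ (A.G i) (A.e i (γ 0)) V).eventually
      ((A.e i).open_target.mem_nhds ((A.e i).map_source hx)))] with t h3 h4 h5 h6 h7 h8
  have h5' : 0 < t := h5
  have h6' : t < 1 := h6
  have h9 : A.e i (A.ex i (γ 0) V t) = exc (A.G i) (A.e i (γ 0)) V t := (A.e i).right_inv h8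
  have h10 : A.e i (A.ex i (γ 0) V t) - A.e i (c t) = t • (V - (t / 2) •
      chr (A.G i) (A.e i (γ 0)) V V - t⁻¹ • (A.e i (c t) - A.e i (γ 0))) := by
    rw [smul_sub t, smul_inv_smul₀ h5'.ne', ← exc_sub_RJ, h9, sub_sub_sub_cancel_right]
  have h11 := h7.1
  rw [h10, norm_smul, Real.norm_eq_abs, abs_of_pos h5', mul_left_comm] at h11
  have h12 : dist (γ t) (A.ex i (γ 0) V t) ≤ ε / 2 * t ^ 2 := by
    have h13 : ‖dist (γ (0 + t)) (A.ex i (γ 0) V t)‖ ≤ ε / 2 * ‖t ^ 2‖ := h4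
    rwa [zero_add, Real.norm_eq_abs, Real.norm_eq_abs, abs_of_nonneg dist_nonneg,
      abs_of_nonneg (sq_nonneg t)] at h13
  have h14 := mul_le_mul_of_nonneg_left h3.le h5'.le
  have h15 : ε / 2 * t ^ 2 ≤ ε / 2 * t :=
    mul_le_mul_of_nonneg_left (by nlinarith) (half_pos hε).le
  linarith [dist_triangle (γ t) (A.ex i (γ 0) V t) (c t)]

end RG
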