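import Pool.Agent.P.MP_8a106a_gt.RA
import Pool.Agent.P.MP_8a106a_gt.RU

/-! The geodesic equation in a chart. -/

set_option autoImplicit false
set_option maxSynthPendingDepth 3
set_option linter.unusedSectionVars false

noncomputable section

namespace RG

open Pool.Agent.P.MP_8a106a_gt Set Filter Topology Asymptotics Metric
open scoped ContDiff

variable {E : Type} [NormedAddCommGroup E] [NormedSpace ℝ E] [FiniteDimensional ℝ E]
  {G : E → E →L[ℝ] E →L[ℝ] ℝ} {U : Set E}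

theorem flow_RO1 {F : Type} [NormedAddCommGroup F] [NormedSpace ℝ F] [CompleteSpace F] {f : F → F}
    {x₀ : F} (hf : ContDiffAt ℝ 1 f x₀) {W : Set F} (hW : W ∈ 𝓝 x₀) :
    ∃ r : ℝ, 0 < r ∧ ∃ ε : ℝ, 0 < ε ∧ ∀ x ∈ ball x₀ r, ∃ γ : ℝ → F, γ 0 = x ∧
      ∀ t ∈ Ioo (-ε) ε, γ t ∈ W ∧ HasDerivAt γ (f (γ t)) t := by
  obtain ⟨ε, hε, a, r, L, K, hr, hpl⟩ := IsPicardLindelof.of_contDiffAt_one hf
  obtain ⟨Φ, h1, h2⟩ := (hpl 0).exists_forall_mem_closedBall_eq_hasDerivWithinAt_continuousOn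
  have hr' : (0 : ℝ) < r := hr
  have h3 : ContinuousAt Φ (x₀, 0) := h2.continuousAt
    (prod_mem_nhds (closedBall_mem_nhds x₀ hr') (Icc_mem_nhds (by linarith) (by linarith)))
  have h4 : Φ (x₀, 0) = x₀ := (h1 x₀ (mem_closedBall_self hr'.le)).1
  have h5 : ∀ᶠ p in 𝓝 (x₀, (0 : ℝ)), Φ p ∈ W := h3 (by rw [h4]; exact hW)
  obtain ⟨ρ, hρ, h6⟩ := Metric.eventually_nhds_iff_ball.1 h5
  refine ⟨min r ρ, lt_min hr' hρ, min ε ρ, lt_min hε hρ, fun x hx => ?_⟩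
  have hx1 : x ∈ closedBall x₀ r := ball_subset_closedBall (ball_subset_ball (min_le_left _ _) hx)
  refine ⟨fun t => Φ (x, t), (h1 x hx1).1, fun t ht => ⟨h6 _ ?_, ?_⟩⟩
  · rw [← ball_prod_same]
    refine ⟨ball_subset_ball (min_le_right _ _) hx, ?_⟩
    rw [mem_ball_zero_iff, Real.norm_eq_abs, abs_lt]
    exact ⟨by linarith [ht.1, min_le_right ε ρ], ht.2.trans_le (min_le_right _ _)⟩
  · have e1 : 0 - ε < t := by linarith [ht.1, min_le_left ε ρ]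
    have e2 : t < 0 + ε := by linarith [ht.2, min_le_left ε ρ]
    exact ((h1 x hx1).2 t ⟨e1.le, e2.le⟩).hasDerivAt (Icc_mem_nhds e1 e2)

/-- Picard-Lindelöf for ` (u, v) ↦ (v, -chrL G u v v)` at ` (u₀, 0)`
(`IsPicardLindelof.of_contDiffAt_one`,
`exists_forall_mem_closedBall_eq_hasDerivWithinAt_continuousOn`; joint continuity keeps the
solutions in `N`); rescale the time to allow `‖V‖ ≤ R`. -/
theorem Met.ode (h : Met G U) {u₀ : E} (hu : u₀ ∈ U) (R : ℝ) {N : Set E} (hN : N ∈ 𝓝 u₀) :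
    ∃ δ : ℝ, 0 < δ ∧ ∀ᶠ u in 𝓝 u₀, ∀ V : E, ‖V‖ ≤ R → ∃ α β : ℝ → E, α 0 = u ∧ β 0 = V ∧
      ∀ t ∈ Ioo (-δ) δ, α t ∈ N ∧ HasDerivAt α (β t) t ∧
        HasDerivAt β (-chr G (α t) (β t) (β t)) t := by
  have : CompleteSpace E := FiniteDimensional.complete ℝ E
  have h1 : ContDiffAt ℝ 1 (fun p : E × E => chrL G p.1) (u₀, 0) :=
    ((h.chrL_smooth hu).of_le (by simp)).comp (u₀, (0 : E)) (f := Prod.fst) contDiffAt_fst
  have hf : ContDiffAt ℝ 1 (fun p : E × E => ((p.2, -chrL G p.1 p.2 p.2) : E × E)) (u₀, 0) :=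
    contDiffAt_snd.prodMk ((h1.clm_apply contDiffAt_snd).clm_apply contDiffAt_snd).neg
  obtain ⟨r, hr, ε, hε, H⟩ := flow_RO1 hf (W := Prod.fst ⁻¹' N) (continuous_fst.continuousAt hN)
  obtain ⟨k, hk, hkR⟩ : ∃ k : ℝ, 0 < k ∧ R < k * r :=
    ⟨(|R| + 1) / r, by positivity, by
      rw [div_mul_cancel₀ _ hr.ne']
      linarith [le_abs_self R]⟩
  refine ⟨ε / k, by positivity, ?_⟩
  filter_upwards [ball_mem_nhds u₀ hr] with u hu' V hV
  have hx : (u, k⁻¹ • V) ∈ ball ((u₀, 0) : E × E) r := by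
    rw [← ball_prod_same]
    refine ⟨hu', ?_⟩
    rw [mem_ball_zero_iff, norm_smul, norm_inv, Real.norm_of_nonneg hk.le, inv_mul_lt_iff₀ hk]
    exact hV.trans_lt hkR
  obtain ⟨γ, h0, hγ⟩ := H _ hx
  refine ⟨fun t => (γ (k * t)).1, fun t => k • (γ (k * t)).2, ?_, ?_, fun t ht => ?_⟩
  · simp only [mul_zero, h0]
  · simp only [mul_zero, h0, smul_inv_smul₀ hk.ne']
  · have e1 : -ε < k * t := by
      have e := ht.1
      rw [← neg_div, div_lt_iff₀' hk] at e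
      exact e
    obtain ⟨g1, g2⟩ := hγ (k * t) ⟨e1, (lt_div_iff₀' hk).1 ht.2⟩
    have g3 := g2.scomp t ((hasDerivAt_id t).const_mul k)
    rw [mul_one] at g3
    have g4 := (ContinuousLinearMap.fst ℝ E E).hasFDerivAt.comp_hasDerivAt t g3
    have g5 := (ContinuousLinearMap.snd ℝ E E).hasFDerivAt.comp_hasDerivAt t g3
    refine ⟨g1, g4, (g5.const_smul k).congr_deriv ?_⟩
    simp only [← chrL_apply, map_smul, smul_apply, ContinuousLinearMap.coe_snd', smul_neg]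

theorem Met.speed (h : Met G U) {α β : ℝ → E} {δ : ℝ}
    (H : ∀ t ∈ Ioo (-δ) δ, α t ∈ U ∧ HasDerivAt α (β t) t ∧
      HasDerivAt β (-chr G (α t) (β t) (β t)) t) {t : ℝ} (ht : t ∈ Ioo (-δ) δ) :
    G (α t) (β t) (β t) = G (α 0) (β 0) (β 0) := by
  have h0 : (0 : ℝ) ∈ Ioo (-δ) δ := ⟨by linarith [ht.1, ht.2], by linarith [ht.1, ht.2]⟩
  have key : ∀ s ∈ Ioo (-δ) δ, HasDerivAt (fun s => G (α s) (β s) (β s)) 0 s := by
    intro s hs
    obtain ⟨g1, g2, g3⟩ := H s hs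
    have g4 := ((h.contDiffAt g1).differentiableAt (by simp)).hasFDerivAt.comp_hasDerivAt s g2
    refine ((g4.clm_apply g3).clm_apply g3).congr_deriv ?_
    simp only [add_apply, Function.comp_apply, map_neg, neg_apply, h.compat g1]
    ring
  exact isOpen_Ioo.is_const_of_deriv_eq_zero isPreconnected_Ioo
    (fun s hs => (key s hs).differentiableAt.differentiableWithinAt)
    (fun s hs => (key s hs).deriv) ht h0

theorem ode_jet {α β : ℝ → E} {δ : ℝ}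
    (H : ∀ t ∈ Ioo (-δ) δ, α t ∈ U ∧ HasDerivAt α (β t) t ∧
      HasDerivAt β (-chr G (α t) (β t) (β t)) t) {t : ℝ} (ht : t ∈ Ioo (-δ) δ) :
    (fun s => α (t + s) - exc G (α t) (β t) s) =o[𝓝 0] fun s : ℝ => s ^ 2 := by
  have h1 : ∀ᶠ x in 𝓝 t, HasDerivAt α (β x) x := by
    filter_upwards [Ioo_mem_nhds ht.1 ht.2] with x hx using (H x hx).2.1
  refine (peano h1 (H t ht).2.2).congr_left fun s => ?_
  rw [exc, smul_neg, ← sub_eq_add_neg]

end RG
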