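import Pool.Agent.P.MP_8a106a_gt.RO1
import Pool.Agent.P.MP_8a106a_gt.RJ

/-! Existence of geodesics. -/

set_option autoImplicit false
set_option maxSynthPendingDepth 3
set_option linter.unusedSectionVars false

noncomputable section

namespace RG

open Pool.Agent.P.MP_8a106a_gt Set Filter Topology Asymptotics Metric
open scoped ContDiff

variable {E : Type} [NormedAddCommGroup E] [NormedSpace ℝ E] [FiniteDimensional ℝ E]
  {X : Type} [MetricSpace X] {A : Atl E X}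

theorem Atl.LocD.lip_RO2 (hd : A.LocD dist) {j : A.ι} {u : E} (hu : u ∈ (A.e j).target) :
    ∃ C : ℝ, ∀ᶠ p : E × E in 𝓝 (u, u),
      dist ((A.e j).symm p.1) ((A.e j).symm p.2) ≤ C * ‖p.1 - p.2‖ := by
  obtain ⟨C, -, h⟩ := hd.lip ((A.e j).map_target hu)
  have c := (A.e j).continuousAt_symm hu
  have o := (A.e j).open_target.mem_nhds hu
  refine ⟨C, ?_⟩
  filter_upwards [(c.prodMap' c).eventually h, prod_mem_nhds o o] with p hp ho
  simpa only [Prod.map_fst, Prod.map_snd, (A.e j).right_inv ho.1, (A.e j).right_inv ho.2] using hp.1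

theorem Atl.Jet.mono_RO2 {γ : ℝ → X} {t : ℝ} {j : A.ι} {W : E} {l l' : Filter ℝ}
    (h : A.Jet γ t j W l) (e : l' ≤ l) : A.Jet γ t j W l' := ⟨h.1, h.2.mono e⟩

theorem Atl.Jet.congr_RO2 {γ c : ℝ → X} {t t₀ : ℝ} {j : A.ι} {W : E} {l : Filter ℝ}
    (h : A.Jet γ t₀ j W l) (e : c t = γ t₀) (e' : ∀ᶠ s in l, c (t + s) = γ (t₀ + s)) :
    A.Jet c t j W l :=
  ⟨e ▸ h.1, h.2.congr' (e'.mono fun s hs => by simp only [e, hs]) EventuallyEq.rfl⟩

/-- The curve ` (A.e j).symm ∘ α`: `dini_dist` with `LocD.dir` and `speed`; `ode_jet`, `LocD.lip`. -/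
theorem Atl.LocD.gs_of_ode (hd : A.LocD dist) {j : A.ι} {α β : ℝ → E} {δ T : ℝ}
    (H : ∀ t ∈ Ioo (-δ) δ, α t ∈ (A.e j).target ∧ HasDerivAt α (β t) t ∧
      HasDerivAt β (-chr (A.G j) (α t) (β t) (β t)) t) (hT : 0 ≤ T) (hδ : T < δ)
    (h1 : A.G j (α 0) (β 0) (β 0) ≤ 1) : A.Gs (fun t => (A.e j).symm (α t)) T j (β 0) := by
  have I : ∀ t ∈ Icc 0 T, t ∈ Ioo (-δ) δ := fun t ht => ⟨by linarith [ht.1], ht.2.trans_lt hδ⟩
  have sp : ∀ t ∈ Icc 0 T, A.G j (α t) (β t) (β t) ≤ 1 := fun t ht =>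
    ((A.met j).speed H (I t ht)).trans_le h1
  have jt : ∀ t ∈ Icc 0 T, A.Jet (fun t => (A.e j).symm (α t)) t j (β t) (𝓝 0) := fun t ht => by
    obtain ⟨h0, h2, -⟩ := H t (I t ht)
    obtain ⟨C, hC⟩ := hd.lip_RO2 h0
    refine ⟨(A.e j).map_target h0, IsBigO.trans_isLittleO (.of_bound C ?_) (ode_jet H (I t ht))⟩
    have c1 : Tendsto (fun s => α (t + s)) (𝓝 0) (𝓝 (α t)) :=
      h2.continuousAt.tendsto.comp (Continuous.tendsto' (by fun_prop) _ _ (add_zero t))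
    have c2 : Tendsto (exc (A.G j) (α t) (β t)) (𝓝 0) (𝓝 (α t)) :=
      Continuous.tendsto' (by unfold exc; fun_prop) _ _ (by simp [exc])
    filter_upwards [(c1.prodMk_nhds c2).eventually hC] with s hs
    rw [Real.norm_of_nonneg dist_nonneg, Atl.ex, (A.e j).right_inv h0]
    exact hs
  have lp : ∀ s ∈ Icc 0 T, ∀ t ∈ Icc 0 T, s ≤ t →
      dist ((A.e j).symm (α s)) ((A.e j).symm (α t)) ≤ t - s := fun s hs t ht e =>
    dini_dist (γ := fun t => (A.e j).symm (α t)) (B := id) e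
      (fun r hr => by
        obtain ⟨h0, h2, -⟩ := H r (I r ⟨hs.1.trans hr.1, hr.2.trans ht.2⟩)
        exact (((A.e j).continuousAt_symm h0).comp h2.continuousAt).continuousWithinAt)
      hasDerivAt_id fun r hr => by
        have k : r ∈ Icc 0 T := ⟨hs.1.trans hr.1, hr.2.le.trans ht.2⟩
        obtain ⟨h0, h2, -⟩ := H r (I r k)
        exact ⟨_, _, inferInstance, le_rfl, Real.sqrt_le_one.2 (sp r k),
          hd.dir h0 le_rfl h2.tendsto_slope_zero_right⟩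
  refine ⟨fun s hs t ht => ?_, (jt 0 ⟨le_rfl, hT⟩).mono_RO2 nhdsWithin_le_nhds, fun t ht => ?_⟩
  · rcases le_total s t with e | e
    · exact (lp s hs t ht e).trans (by rw [abs_sub_comm]; exact le_abs_self _)
    · rw [dist_comm]
      exact (lp t ht s hs e).trans (le_abs_self _)
  · have k := Ioc_subset_Icc_self ht
    refine ⟨j, β t, ?_, (jt t k).mono_RO2 nhdsWithin_le_nhds,
      fun _ => (jt t k).mono_RO2 nhdsWithin_le_nhds⟩
    rw [Atl.g, (A.e j).right_inv (H t (I t k)).1]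
    exact sp t k

theorem Atl.LocD.gs_local (hd : A.LocD dist) (p : X) : ∃ δ : ℝ, 0 < δ ∧ ∀ᶠ x in 𝓝 p,
    ∀ (i : A.ι) (V : E), x ∈ (A.e i).source → A.g i x V V ≤ 1 →
      ∃ γ : ℝ → X, γ 0 = x ∧ A.Gs γ δ i V := by
  obtain ⟨j, hj⟩ := A.cov p
  have h0 := (A.e j).map_source hj
  obtain ⟨C, hC, hb⟩ := (A.met j).bounds h0
  obtain ⟨δ, hδ, ho⟩ := (A.met j).ode h0 C ((A.e j).open_target.mem_nhds h0)
  refine ⟨δ / 2, half_pos hδ, ?_⟩
  filter_upwards [(A.e j).open_source.mem_nhds hj,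
    ((A.e j).continuousAt hj).eventually (hb.and ho)] with x hx h i V hi hV
  rw [← Atl.g_tr hi hx] at hV
  obtain ⟨α, β, a0, b0, H⟩ := h.2 (A.tr i j x V) ((h.1 _).1.trans
    (mul_le_of_le_one_right hC.le (Real.sqrt_le_one.2 hV)))
  have k := hd.gs_of_ode H (half_pos hδ).le (half_lt_self hδ) (by rw [a0, b0]; exact hV)
  have e : (A.e j).symm (α 0) = x := by rw [a0, (A.e j).left_inv hx]
  refine ⟨_, e, k.lip, hd.jet_tr (j := j) (e.symm ▸ hi) nhdsWithin_le_nhds ?_, k.jet⟩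
  rw [e, ← b0]
  exact k.start

theorem Atl.Gs.mono {γ : ℝ → X} {T T' : ℝ} {i : A.ι} {V : E} (h : A.Gs γ T i V) (hT : T' ≤ T) :
    A.Gs γ T' i V := by
  refine ⟨fun s hs t ht => h.lip s ⟨hs.1, hs.2.trans hT⟩ t ⟨ht.1, ht.2.trans hT⟩, h.start,
    fun t ht => ?_⟩
  obtain ⟨j, W, a, b, c⟩ := h.jet t ⟨ht.1, ht.2.trans hT⟩
  exact ⟨j, W, a, b, fun e => c (e.trans_le hT)⟩

theorem Atl.Gs.append {γ γ' : ℝ → X} {T T' : ℝ} {i j : A.ι} {V W : E} (h : A.Gs γ T i V)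
    (hT : 0 < T) (hT' : 0 ≤ T') (h' : A.Gs γ' T' j W) (h0 : γ' 0 = γ T)
    (hW : A.g j (γ T) W W ≤ 1) (hj : A.Jet γ T j W (𝓝[<] 0)) :
    A.Gs (fun t => if t ≤ T then γ t else γ' (t - T)) (T + T') i V := by
  set c : ℝ → X := fun t => if t ≤ T then γ t else γ' (t - T)
  have l : ∀ t ≤ T, c t = γ t := fun t ht => if_pos ht
  have r : ∀ t, T ≤ t → c t = γ' (t - T) := fun t ht => by
    rcases ht.eq_or_lt with rfl | ht
    · rw [l _ le_rfl, sub_self, h0]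
    · exact if_neg ht.not_ge
  have lp : ∀ s ∈ Icc 0 (T + T'), ∀ t ∈ Icc 0 (T + T'), s ≤ t → dist (c s) (c t) ≤ |s - t| := by
    intro s hs t ht e
    rcases le_total t T with a | a
    · rw [l s (e.trans a), l t a]
      exact h.lip s ⟨hs.1, e.trans a⟩ t ⟨ht.1, a⟩
    have k : t - T ∈ Icc 0 T' := ⟨sub_nonneg.2 a, by linarith [ht.2]⟩
    rcases le_total s T with b | b
    · have d1 := h.lip s ⟨hs.1, b⟩ T ⟨hT.le, le_rfl⟩
      have d2 := h'.lip 0 ⟨le_rfl, hT'⟩ _ k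
      rw [h0, zero_sub, abs_neg, abs_of_nonneg k.1] at d2
      rw [abs_of_nonpos (sub_nonpos.2 b)] at d1
      rw [l s b, r t a, abs_of_nonpos (sub_nonpos.2 e)]
      linarith [dist_triangle (γ s) (γ T) (γ' (t - T))]
    · rw [r s b, r t a, ← sub_sub_sub_cancel_right s t T]
      exact h'.lip _ ⟨sub_nonneg.2 b, by linarith [hs.2]⟩ _ k
  have L : ∀ t < T, ∀ᶠ s in 𝓝 0, c (t + s) = γ (t + s) := fun t ht =>
    (gt_mem_nhds (sub_pos.2 ht) : ∀ᶠ s in 𝓝 0, s < T - t).mono fun s hs => l _ (by linarith)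
  have R : ∀ t, T < t → ∀ᶠ s in 𝓝 0, c (t + s) = γ' (t - T + s) := fun t ht =>
    (lt_mem_nhds (sub_neg.2 ht) : ∀ᶠ s in 𝓝 0, T - t < s).mono fun s hs => by
      rw [r _ (by linarith), add_sub_right_comm]
  refine ⟨fun s hs t ht => ?_, h.start.congr_RO2 (l 0 hT.le)
    ((L 0 hT).filter_mono nhdsWithin_le_nhds), fun t ht => ?_⟩
  · rcases le_total s t with e | e
    · exact lp s hs t ht e
    · rw [dist_comm, abs_sub_comm]
      exact lp t ht s hs e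
  rcases lt_trichotomy t T with e | rfl | e
  · obtain ⟨k, U, a1, a2, a3⟩ := h.jet t ⟨ht.1, e.le⟩
    exact ⟨k, U, l t e.le ▸ a1, a2.congr_RO2 (l t e.le) ((L t e).filter_mono nhdsWithin_le_nhds),
      fun _ => (a3 e).congr_RO2 (l t e.le) ((L t e).filter_mono nhdsWithin_le_nhds)⟩
  · refine ⟨j, W, l t le_rfl ▸ hW, hj.congr_RO2 (l t le_rfl)
      (eventually_mem_nhdsWithin.mono fun s hs => l _ (add_le_of_nonpos_right (le_of_lt hs))),
      fun _ => h'.start.congr_RO2 ((l t le_rfl).trans h0.symm)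
        (eventually_mem_nhdsWithin.mono fun s hs => ?_)⟩
    rw [r _ (le_add_of_nonneg_right (le_of_lt hs)), add_sub_cancel_left, zero_add]
  · obtain ⟨k, U, a1, a2, a3⟩ := h'.jet (t - T) ⟨sub_pos.2 e, by linarith [ht.2]⟩
    exact ⟨k, U, r t e.le ▸ a1, a2.congr_RO2 (r t e.le) ((R t e).filter_mono nhdsWithin_le_nhds),
      fun b => (a3 (by linarith)).congr_RO2 (r t e.le) ((R t e).filter_mono nhdsWithin_le_nhds)⟩

/-- `δ` is uniform on the compact set `closedBall x T`; extend step by step. -/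
theorem Atl.LocD.exists_gs [ProperSpace X] (hd : A.LocD dist) {i : A.ι} {x : X}
    (hx : x ∈ (A.e i).source) {V : E} (hV : A.g i x V V ≤ 1) (T : ℝ) :
    ∃ γ : ℝ → X, γ 0 = x ∧ A.Gs γ T i V := by
  obtain ⟨δ, hδ, H⟩ := (isCompact_closedBall x |T|).induction_on (p := fun S => ∃ δ : ℝ, 0 < δ ∧
      ∀ x ∈ S, ∀ (i : A.ι) (V : E), x ∈ (A.e i).source → A.g i x V V ≤ 1 →
        ∃ γ : ℝ → X, γ 0 = x ∧ A.Gs γ δ i V) ⟨1, one_pos, fun _ h => h.elim⟩
    (fun s t e ⟨δ, hδ, H⟩ => ⟨δ, hδ, fun x hx => H x (e hx)⟩)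
    (fun s t ⟨δ, hδ, H⟩ ⟨δ', hδ', H'⟩ => ⟨min δ δ', lt_min hδ hδ', fun x hx i V a b => hx.elim
      (fun hx => (H x hx i V a b).imp fun _ h => ⟨h.1, h.2.mono (min_le_left _ _)⟩)
      fun hx => (H' x hx i V a b).imp fun _ h => ⟨h.1, h.2.mono (min_le_right _ _)⟩⟩)
    fun p _ => by
      obtain ⟨δ, hδ, H⟩ := hd.gs_local p
      exact ⟨_, mem_nhdsWithin_of_mem_nhds H, δ, hδ, fun x hx => hx⟩
  have key : ∀ n : ℕ, n * δ ≤ |T| → ∃ γ : ℝ → X, γ 0 = x ∧ A.Gs γ ((n + 1) * δ) i V := fun n => by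
    induction n with
    | zero => exact fun _ => by simpa using H x (mem_closedBall_self (abs_nonneg T)) i V hx hV
    | succ n ih =>
      intro hn
      push_cast at hn ⊢
      obtain ⟨γ, h0, h⟩ := ih (by linarith)
      have p : 0 < (n + 1 : ℝ) * δ := by positivity
      obtain ⟨j, W, a1, a2, -⟩ := h.jet _ ⟨p, le_rfl⟩
      have d := h.lip _ ⟨p.le, le_rfl⟩ 0 ⟨le_rfl, p.le⟩
      rw [h0, sub_zero, abs_of_pos p] at d
      obtain ⟨γ', h0', h'⟩ := H _ (d.trans hn) j W a2.1 a1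
      refine ⟨_, ?_, (h.append p hδ.le h' h0' a1 a2).mono (le_of_eq (by ring))⟩
      exact (if_pos p.le).trans h0
  obtain ⟨γ, h0, h⟩ := key ⌊|T| / δ⌋₊ ((le_div_iff₀ hδ).1 (Nat.floor_le (by positivity)))
  exact ⟨γ, h0, h.mono ((le_abs_self T).trans ((div_lt_iff₀ hδ).1 (Nat.lt_floor_add_one _)).le)⟩

end RG
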