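import Pool.Agent.P.MP_8a106a_gt.RDefs

/-! Properness and segments. -/

set_option autoImplicit false
set_option maxSynthPendingDepth 3
set_option linter.unusedSectionVars false

noncomputable section

namespace RG

open Pool.Agent.P.MP_8a106a_gt Set Filter Topology Asymptotics Metric
open scoped ContDiff

variable {X : Type} [MetricSpace X]

/-- There is `r > 0` such that all closed balls of radius `r` are compact. If `closedBall x R` is
compact, cover it by finitely many balls of radius `r / 4`; by `hI` the concentric balls of radius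
`r` cover `closedBall x (R + r / 2)`. -/
theorem proper_of_cocompact [LocallyCompactSpace X] (hI : Intr (dist : X → X → ℝ)) {K : Set X}
    (hK : IsCompact K) (h : ∀ x, ∃ f : X ≃ᵢ X, f x ∈ K) : ProperSpace X := by
  obtain ⟨r, hr, hc⟩ := hK.exists_isCompact_cthickening
  have h1 : ∀ x : X, IsCompact (closedBall x r) := fun x => by
    obtain ⟨f, hf⟩ := h x
    rw [← f.isometry.preimage_closedBall]
    exact f.toHomeomorph.isCompact_preimage.2
      (hc.of_isClosed_subset isClosed_closedBall (closedBall_subset_cthickening hf r))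
  have h2 : ∀ (x : X) (n : ℕ), IsCompact (closedBall x (n * (r / 2))) := fun x n => by
    induction n with
    | zero => simp
    | succ n ih =>
      obtain ⟨t, -, ht, hs⟩ := finite_cover_balls_of_compact ih (e := r / 4) (by positivity)
      refine (ht.isCompact_biUnion fun y _ => h1 y).of_isClosed_subset isClosed_closedBall
        fun z hz => ?_
      rw [mem_closedBall', Nat.cast_succ, add_mul, one_mul] at hz
      have hR : 0 ≤ (n : ℝ) * (r / 2) := by positivity
      generalize (n : ℝ) * (r / 2) = R at hs hz hR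
      obtain ⟨c, c0, c1, hl⟩ := hI x z (r / 4) (by positivity)
      have hp : 0 < R + 3 * r / 4 := by positivity
      have s0 : 0 ≤ R / (R + 3 * r / 4) := by positivity
      have s1 : R / (R + 3 * r / 4) ≤ 1 := (div_le_one hp).2 (by linarith)
      have s2 : R / (R + 3 * r / 4) * (R + 3 * r / 4) = R := div_mul_cancel₀ _ hp.ne'
      generalize R / (R + 3 * r / 4) = s at s0 s1 s2
      have a := hl s ⟨s0, s1⟩ 0 ⟨le_rfl, zero_le_one⟩
      have b := hl 1 ⟨zero_le_one, le_rfl⟩ s ⟨s0, s1⟩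
      rw [c0, sub_zero, abs_of_nonneg s0] at a
      rw [c1, abs_of_nonneg (sub_nonneg.2 s1)] at b
      obtain ⟨y, hy, e⟩ := mem_iUnion₂.1 (hs (show c s ∈ closedBall x R from by
        rw [mem_closedBall]
        nlinarith))
      refine mem_iUnion₂.2 ⟨y, hy, ?_⟩
      rw [mem_ball] at e
      rw [mem_closedBall]
      nlinarith [dist_triangle z (c s) y]
  refine ⟨fun x R => ?_⟩
  obtain ⟨n, hn⟩ := exists_nat_ge (R / (r / 2))
  exact (h2 x n).of_isClosed_subset isClosed_closedBall
    (closedBall_subset_closedBall ((div_le_iff₀ (half_pos hr)).1 hn))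

/-- Take the limit along an ultrafilter of almost minimising curves. -/
theorem exists_seg [ProperSpace X] (hI : Intr (dist : X → X → ℝ)) (x y : X) :
    ∃ c : ℝ → X, c 0 = x ∧ c 1 = y ∧ Seg c (dist x y) := by
  choose c c0 c1 hl using fun n : ℕ => hI x y (1 / ((n : ℝ) + 1)) (by positivity)
  have h1 : ∀ t : ℝ, ∃ z, t ∈ Icc (0 : ℝ) 1 →
      Tendsto (fun n => c n t) (hyperfilter ℕ : Filter ℕ) (𝓝 z) := fun t => by
    by_cases ht : t ∈ Icc (0 : ℝ) 1
    · obtain ⟨z, -, hz⟩ := (isCompact_closedBall x (dist x y + 1)).ultrafilter_le_nhds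
        ((hyperfilter ℕ).map fun n => c n t) (by
          rw [le_principal_iff]
          refine mem_map.2 (Eventually.of_forall fun n => ?_)
          have a := hl n t ht 0 ⟨le_rfl, zero_le_one⟩
          rw [c0, sub_zero, abs_of_nonneg ht.1] at a
          have b : 1 / ((n : ℝ) + 1) ≤ 1 :=
            (div_le_one (by positivity)).2 (le_add_of_nonneg_left n.cast_nonneg)
          exact mem_closedBall.2 (a.trans ((mul_le_of_le_one_left (by positivity) ht.2).trans
            (by linarith))))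
      exact ⟨z, fun _ => hz⟩
    · exact ⟨x, fun h => absurd h ht⟩
  choose g hg using h1
  have m0 : (0 : ℝ) ∈ Icc (0 : ℝ) 1 := ⟨le_rfl, zero_le_one⟩
  have m1 : (1 : ℝ) ∈ Icc (0 : ℝ) 1 := ⟨zero_le_one, le_rfl⟩
  have g0 : g 0 = x := tendsto_nhds_unique (hg 0 m0) (by simp only [c0]; exact tendsto_const_nhds)
  have g1 : g 1 = y := tendsto_nhds_unique (hg 1 m1) (by simp only [c1]; exact tendsto_const_nhds)
  have h2 : ∀ s ∈ Icc (0 : ℝ) 1, ∀ t ∈ Icc (0 : ℝ) 1, dist (g s) (g t) ≤ |s - t| * dist x y :=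
    fun s hs t ht => by
      have a : Tendsto (fun n : ℕ => |s - t| * (dist x y + 1 / ((n : ℝ) + 1)))
          (hyperfilter ℕ : Filter ℕ) (𝓝 (|s - t| * (dist x y + 0))) :=
        ((tendsto_one_div_add_atTop_nhds_zero_nat.mono_left
          Nat.hyperfilter_le_atTop).const_add _).const_mul _
      rw [add_zero] at a
      exact le_of_tendsto_of_tendsto' ((hg s hs).dist (hg t ht)) a fun n => hl n s hs t ht
  have h3 : ∀ s ∈ Icc (0 : ℝ) 1, ∀ t ∈ Icc (0 : ℝ) 1, s ≤ t →
      dist (g s) (g t) = |s - t| * dist x y := fun s hs t ht e => by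
    refine (h2 s hs t ht).antisymm ?_
    have a := h2 0 m0 s hs
    have b := h2 t ht 1 m1
    have d := dist_triangle4 x (g s) (g t) y
    rw [g0, zero_sub, abs_neg, abs_of_nonneg hs.1] at a
    rw [g1, abs_of_nonpos (sub_nonpos.2 ht.2)] at b
    rw [abs_of_nonpos (sub_nonpos.2 e)]
    linarith
  refine ⟨g, g0, g1, fun s hs t ht => ?_⟩
  rcases le_total s t with e | e
  · exact h3 s hs t ht e
  · rw [dist_comm, abs_sub_comm]
    exact h3 t ht s hs e

theorem Seg.continuousOn {c : ℝ → X} {L : ℝ} (h : Seg c L) : ContinuousOn c (Icc 0 1) :=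
  (LipschitzOnWith.of_dist_le' (K := L) fun s hs t ht => by
    rw [h s hs t ht, mul_comm, Real.dist_eq]).continuousOn

/-- The images of the interiors of compact neighbourhoods cover the base. -/
theorem exists_cocompact {M Y Γ : Type} [TopologicalSpace M] [CompactSpace M] [TopologicalSpace Y]
    [LocallyCompactSpace Y] [Group Γ] [MulAction Γ Y] {p : Y → M}
    (hp : IsQuotientCoveringMap p Γ) : ∃ K : Set Y, IsCompact K ∧ ∀ x, ∃ g : Γ, g • x ∈ K := by
  choose K hK hK' using fun y : Y => exists_compact_mem_nhds y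
  choose σ hσ using hp.surjective
  obtain ⟨t, -, ht⟩ := isCompact_univ.elim_nhds_subcover (fun m => p '' K (σ m)) fun m _ => by
    have := hp.isOpenQuotientMap.isOpenMap.image_mem_nhds (hK' (σ m))
    rwa [hσ] at this
  refine ⟨⋃ m ∈ t, K (σ m), t.isCompact_biUnion fun m _ => hK _, fun x => ?_⟩
  obtain ⟨m, hm, k, hk, e⟩ := mem_iUnion₂.1 (ht (mem_univ (p x)))
  obtain ⟨g, rfl⟩ := hp.apply_eq_iff_mem_orbit.1 e
  exact ⟨g, mem_iUnion₂.2 ⟨m, hm, hk⟩⟩

theorem finite_of_compact {M Y Γ : Type} [TopologicalSpace M] [T1Space M] [TopologicalSpace Y]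
    [CompactSpace Y] [Nonempty Y] [Group Γ] [MulAction Γ Y] {p : Y → M}
    (hp : IsQuotientCoveringMap p Γ) : Finite Γ := by
  obtain ⟨y⟩ := ‹Nonempty Y›
  have h0 : IsCoveringMap p := hp.isCoveringMap
  have h1 : DiscreteTopology (p ⁻¹' {p y}) := (h0 (p y)).discreteTopology_fiber
  have h2 : CompactSpace (p ⁻¹' {p y}) :=
    isCompact_iff_compactSpace.1 (isClosed_singleton.preimage hp.continuous).isCompact
  have h3 : Finite (p ⁻¹' {p y}) := finite_of_compact_of_discrete
  exact Finite.of_equiv _ (hp.fiberEquivGroup ⟨y, rfl⟩)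

/-- A concave function with `f 0 = L ^ 2` and slope at most `-2 * L` at `0` along `l`. -/
theorem hit_of_concave {γ : ℝ → X} {z : X} {L : ℝ} (hL : 0 < L) (h0 : dist z (γ 0) = L)
    (hc : ConcaveOn ℝ (Icc 0 L) fun t => dist z (γ t) ^ 2 - t ^ 2) {l : Filter ℝ} [l.NeBot]
    (hl : l ≤ 𝓝[>] 0) (h : ∀ ε : ℝ, 0 < ε → ∀ᶠ t in l, dist z (γ t) ≤ L - t + ε * t) :
    γ L = z := by
  have key : ∀ ε : ℝ, 0 < ε → ε ≤ 1 → dist z (γ L) ^ 2 ≤ 3 * ε * L ^ 2 := fun ε hε hε1 => by
    obtain ⟨t, ht, t0, t1⟩ := ((h ε hε).and (hl (Ioo_mem_nhdsGT hL))).exists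
    have s0 : 0 < t / L := div_pos t0 hL
    have s1 : t / L < 1 := (div_lt_one hL).2 t1
    have s2 : t = t / L * L := (div_mul_cancel₀ _ hL.ne').symm
    generalize t / L = s at s0 s1 s2
    have a := hc.2 (left_mem_Icc.2 hL.le) (right_mem_Icc.2 hL.le) (sub_nonneg.2 s1.le) s0.le
      (sub_add_cancel 1 s)
    simp only [smul_eq_mul, mul_zero, zero_add, h0, ← s2] at a
    have b := pow_le_pow_left₀ dist_nonneg ht 2
    subst s2
    have c : s * dist z (γ L) ^ 2 ≤ s * ((2 * ε * (1 - s) + ε ^ 2 * s) * L ^ 2) := by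
      nlinarith
    refine (le_of_mul_le_mul_left c s0).trans (mul_le_mul_of_nonneg_right ?_ (sq_nonneg _))
    nlinarith [mul_pos hε s0, mul_pos hε hε]
  have h1 : dist z (γ L) ^ 2 ≤ 0 := le_of_forall_pos_le_add fun δ hδ => by
    have hp : 0 < 3 * L ^ 2 := by positivity
    refine (key (min 1 (δ / (3 * L ^ 2))) (by positivity) (min_le_left _ _)).trans ?_
    have := (le_div_iff₀ hp).1 (min_le_right 1 (δ / (3 * L ^ 2)))
    linarith
  exact (dist_eq_zero.1 (pow_eq_zero_iff two_ne_zero |>.1 (h1.antisymm (sq_nonneg _)))).symm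

end RG
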