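import Pool.Agent.P.MP_8a106a_gt.RB
import Pool.Agent.P.MP_8a106a_gt.RU

/-! Uniform estimates in a chart. -/

set_option autoImplicit false
set_option maxSynthPendingDepth 3
set_option linter.unusedSectionVars false

noncomputable section

namespace RG

open Pool.Agent.P.MP_8a106a_gt Set Filter Topology Asymptotics Metric
open scoped ContDiff

variable {E : Type} [NormedAddCommGroup E] [NormedSpace ℝ E] [FiniteDimensional ℝ E]
  {G : E → E →L[ℝ] E →L[ℝ] ℝ} {U : Set E}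

theorem quad_RQ (u V A : E) (s : ℝ) :
    HasDerivAt (fun s : ℝ => u + s • V - (s ^ 2 / 2) • A) (V - s • A) s := by
  simpa using (((hasDerivAt_id s).smul_const V).const_add u).fun_sub
    (((hasDerivAt_pow 2 s).div_const 2).smul_const A)

theorem lin_RQ (V A : E) (s : ℝ) : HasDerivAt (fun s : ℝ => V - s • A) (-A) s := by
  simpa using ((hasDerivAt_id s).smul_const A).const_sub V

theorem Met.d1_RQ (h : Met G U) {u : E} (hu : u ∈ U) : HasFDerivAt G (fderiv ℝ G u) u :=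
  ((h.contDiffAt hu).differentiableAt (by simp)).hasFDerivAt

theorem Met.d2_RQ (h : Met G U) {u : E} (hu : u ∈ U) :
    HasFDerivAt (fderiv ℝ G) (fderiv ℝ (fderiv ℝ G) u) u :=
  (((h.contDiffAt hu).fderiv_right (m := 1) (WithTop.coe_le_coe.2 le_top)).differentiableAt
    one_ne_zero).hasFDerivAt

theorem par_self_RQ (G : E → E →L[ℝ] E →L[ℝ] ℝ) (u F : E) : par G u F u = F := by
  simp [par, ← chrL_apply]

theorem Met.qf_deriv (h : Met G U) {u : E} (hu : u ∈ U) (V A T W N : E) :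
    deriv (deriv (qf G u V A T W N)) 0 = 2 * qc G u V A T W N := by
  have h0 : u + (0 : ℝ) • V - ((0 : ℝ) ^ 2 / 2) • A = u := by simp
  have h1 : ∀ᶠ s : ℝ in 𝓝 0, u + s • V - (s ^ 2 / 2) • A ∈ U :=
    (quad_RQ u V A 0).continuousAt.eventually (h.opn.mem_nhds (by simpa using hu))
  have h2 := (h1.mono fun s hs => ((((h.d1_RQ hs).comp_hasDerivAt s (quad_RQ u V A s)).clm_apply
    (quad_RQ T W N s)).clm_apply (quad_RQ T W N s)).deriv)
  have g1 := (h.d1_RQ hu).comp_hasDerivAt_of_eq 0 (quad_RQ u V A 0) h0.symm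
  have g2 := (h.d2_RQ hu).comp_hasDerivAt_of_eq 0 (quad_RQ u V A 0) h0.symm
  have t := quad_RQ T W N 0
  have t' := lin_RQ W N 0
  have h3 := (((((g2.clm_apply (lin_RQ V A 0)).clm_apply t).fun_add (g1.clm_apply t')).clm_apply
    t).fun_add ((g1.clm_apply t).clm_apply t')).deriv
  have h4 : fderiv ℝ (fun x => fderiv ℝ G x V T T) u V = fderiv ℝ (fderiv ℝ G) u V V T T := by
    rw [((((h.d2_RQ hu).clm_apply (hasFDerivAt_const V u)).clm_apply
      (hasFDerivAt_const T u)).clm_apply (hasFDerivAt_const T u)).fderiv]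
    simp
  refine ((Filter.EventuallyEq.deriv_eq h2).trans h3).trans ?_
  simp [qc, h4, h.dsymm hu V W T, h.symm u hu N T]
  ring

/-- `unif_taylor` on the compact set `S ×ˢ (closedBall 0 R) ^ 5`. -/
theorem Met.qf_unif (h : Met G U) {S : Set E} (hS : IsCompact S) (hU : S ⊆ U) (R : ℝ) {ε : ℝ}
    (hε : 0 < ε) : ∀ᶠ s in 𝓝 (0 : ℝ), ∀ u ∈ S, ∀ V A T W N : E,
      ‖V‖ ≤ R → ‖A‖ ≤ R → ‖T‖ ≤ R → ‖W‖ ≤ R → ‖N‖ ≤ R → u + s • V - (s ^ 2 / 2) • A ∈ U ∧
        qf G u V A T W N s + qf G u V A T W N (-s) ≤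
          2 * G u T T + s ^ 2 * (2 * qc G u V A T W N + ε) := by
  have hB := isCompact_closedBall (0 : E) R
  have hK := hS.prod (hB.prod (hB.prod (hB.prod (hB.prod hB))))
  have h1 := unif_taylor (Ψ := fun q : (E × E × E × E × E × E) × ℝ =>
    qf G q.1.1 q.1.2.1 q.1.2.2.1 q.1.2.2.2.1 q.1.2.2.2.2.1 q.1.2.2.2.2.2 q.2) hK (fun p hp => by
      have h2 : ContDiffAt ℝ 2 G (p.1 + (0 : ℝ) • p.2.1 - ((0 : ℝ) ^ 2 / 2) • p.2.2.1) := by
        simpa using show ContDiffAt ℝ 2 G p.1 from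
          (h.contDiffAt (hU hp.1)).of_le (WithTop.coe_le_coe.2 le_top)
      exact ((h2.comp (f := fun q : (E × E × E × E × E × E) × ℝ =>
        q.1.1 + q.2 • q.1.2.1 - (q.2 ^ 2 / 2) • q.1.2.2.1) (p, 0) (by fun_prop)).clm_apply
          (by fun_prop)).clm_apply (by fun_prop)) hε
  have h2 := hK.eventually_forall_of_forall_eventually (x₀ := (0 : ℝ))
    (P := fun s p => p.1 + s • p.2.1 - (s ^ 2 / 2) • p.2.2.1 ∈ U) fun p hp =>
      ContinuousAt.eventually_mem (f := fun z : ℝ × E × E × E × E × E × E =>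
        z.2.1 + z.1 • z.2.2.1 - (z.1 ^ 2 / 2) • z.2.2.2.1) (by fun_prop)
          (h.opn.mem_nhds (by simpa using hU hp.1))
  filter_upwards [h1, h2] with s h1 h2 u hu V A T W N hV hA hT hW hN
  simp only [← mem_closedBall_zero_iff] at hV hA hT hW hN
  refine ⟨h2 (u, V, A, T, W, N) ⟨hu, hV, hA, hT, hW, hN⟩, ?_⟩
  have h3 := h1 (u, V, A, T, W, N) ⟨hu, hV, hA, hT, hW, hN⟩
  rw [show (fun t => qf G u V A T W N t) = qf G u V A T W N from rfl, h.qf_deriv (hU hu)] at h3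
  simpa [qf] using h3

/-- By `qc_eq`; `ww + chr G u T V = b • P + a • (chr G u T P - chr G u₁ T F)` with
`P = par G u₁ F u`, and the last difference is small by continuity of `chrL`. -/
theorem Met.sp_le (h : Met G U) {u₀ : E} (hu : u₀ ∈ U) (R : ℝ) {ε : ℝ} (hε : 0 < ε) :
    ∃ δ : ℝ, 0 < δ ∧ ball u₀ δ ⊆ U ∧ ∀ᶠ s in 𝓝 (0 : ℝ), ∀ u₁ ∈ ball u₀ δ, ∀ u ∈ ball u₀ δ,
      ∀ (F T : E) (a b : ℝ), ‖F‖ ≤ R → ‖T‖ ≤ R → |a| ≤ R → |b| ≤ R →
        exc G u (a • par G u₁ F u) s ∈ U ∧ exc G u (a • par G u₁ F u) (-s) ∈ U ∧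
        sp G u₁ F u T a b s + sp G u₁ F u T a b (-s) ≤ 2 * G u T T +
          s ^ 2 * (2 * b ^ 2 * G u (par G u₁ F u) (par G u₁ F u) -
            2 * a ^ 2 * Rm G u T (par G u₁ F u) + ε) := by
  obtain ⟨δ, hδ, hU⟩ := nhds_basis_closedBall.mem_iff.1 (h.opn.mem_nhds hu)
  have hB := isCompact_closedBall (0 : E) R
  have hI := isCompact_closedBall (0 : ℝ) R
  have hK := hB.prod (hB.prod (hI.prod hI))
  have hC := isCompact_closedBall u₀ δ
  let P : (E × E) × E × E × ℝ × ℝ → E := fun q => par G q.1.1 q.2.1 q.1.2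
  let V : (E × E) × E × E × ℝ × ℝ → E := fun q => q.2.2.2.1 • P q
  let W : (E × E) × E × E × ℝ × ℝ → E := fun q =>
    ww G q.1.1 q.2.1 q.1.2 q.2.2.1 q.2.2.2.1 q.2.2.2.2
  have hc : ∀ q : (E × E) × E × E × ℝ × ℝ, q.1.1 ∈ U → q.1.2 ∈ U → ContinuousAt
      (fun q => (V q, chrL G q.1.2 (V q) (V q), q.2.2.1, W q, fderiv ℝ (chrL G) q.1.2 q.2.2.1 (V q)
        (V q) + (2 : ℝ) • chrL G q.1.2 (W q) (V q))) q ∧ ContinuousAt (fun q =>
      G q.1.2 (W q + chrL G q.1.2 q.2.2.1 (V q)) (W q + chrL G q.1.2 q.2.2.1 (V q)) -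
        q.2.2.2.2 ^ 2 * G q.1.2 (P q) (P q)) q := fun q h1 h2 => by
    have c1 := (h.chrL_smooth h1).continuousAt
    have c2 := (h.chrL_smooth h2).continuousAt
    have c3 := (h.chrL_smooth h2).continuousAt_fderiv (by simp)
    have c4 := (h.contDiffAt h2).continuousAt
    have cP : ContinuousAt P q := by
      simp only [P, par, ← chrL_apply]
      fun_prop
    have cV : ContinuousAt V q := by fun_prop
    have cW : ContinuousAt W q := by
      simp only [W, ww, par, ← chrL_apply]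
      fun_prop
    clear_value V W P
    constructor <;> fun_prop
  obtain ⟨R', hR⟩ := ((hC.prod hC).prod hK).exists_bound_of_continuousOn fun q hq =>
    (hc q (hU hq.1.1) (hU hq.1.2)).1.continuousWithinAt
  obtain ⟨δ', hδ', h1⟩ := Metric.eventually_nhds_iff_ball.1
    (hK.eventually_forall_of_forall_eventually (x₀ := (u₀, u₀)) (P := fun x y =>
      G x.2 (W (x, y) + chrL G x.2 y.2.1 (V (x, y))) (W (x, y) + chrL G x.2 y.2.1 (V (x, y))) -
        y.2.2.2 ^ 2 * G x.2 (P (x, y)) (P (x, y)) < ε / 4) fun y _ =>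
      (hc ((u₀, u₀), y) hu hu).2.eventually_lt_const (u := ε / 4) (by
        simp [P, V, W, ww, par_self_RQ, ← chrL_apply, sq, mul_assoc, hε]))
  refine ⟨min δ δ', lt_min hδ hδ', (ball_subset_ball (min_le_left _ _)).trans
    (ball_subset_closedBall.trans hU), ?_⟩
  have h2 := h.qf_unif hC hU R' (half_pos hε)
  filter_upwards [h2, (continuous_neg.tendsto' (0 : ℝ) 0 neg_zero).eventually h2] with
    s h2 h3 u₁ hu₁ u hu' F T a b hF hT ha hb
  have m1 := ball_subset_closedBall (ball_subset_ball (min_le_left _ _) hu₁)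
  have m2 := ball_subset_closedBall (ball_subset_ball (min_le_left _ _) hu')
  have m3 : (F, T, a, b) ∈ closedBall (0 : E) R ×ˢ closedBall (0 : E) R ×ˢ closedBall (0 : ℝ) R ×ˢ
      closedBall (0 : ℝ) R := by simpa using ⟨hF, hT, ha, hb⟩
  have h4 := hR ((u₁, u), F, T, a, b) ⟨⟨m1, m2⟩, m3⟩
  have h5 := h1 (u₁, u) (by
    rw [← ball_prod_same]
    exact ⟨ball_subset_ball (min_le_right _ _) hu₁, ball_subset_ball (min_le_right _ _) hu'⟩) _ m3
  simp only [norm_prod_le_iff, ← h.fderiv_chr (hU m2), chrL_apply, V, W, P] at h4 h5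
  obtain ⟨b1, b2, b3, b4, b5⟩ := h4
  obtain ⟨e1, e2⟩ := h2 u m2 _ _ _ _ _ b1 b2 b3 b4 b5
  refine ⟨e1, (h3 u m2 _ _ _ _ _ b1 b2 b3 b4 b5).1, e2.trans ?_⟩
  have e3 := h.Rm_smul (hU m2) 1 a T (par G u₁ F u)
  have e4 := h.qc_eq (hU m2) (a • par G u₁ F u) T (ww G u₁ F u T a b)
  rw [one_smul] at e3
  rw [nn] at e4
  rw [e4, e3]
  exact add_le_add_right (mul_le_mul_of_nonneg_left (by linarith) (sq_nonneg s)) _

/-- By `compat` the derivative of `x ↦ G x (par G u₁ F x) (par G u₁ F' x)` has small norm on a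
small ball; mean value inequality. -/
theorem Met.gram (h : Met G U) {u₀ : E} (hu : u₀ ∈ U) (R : ℝ) {ε : ℝ} (hε : 0 < ε) :
    ∃ δ : ℝ, 0 < δ ∧ ∀ u₁ ∈ ball u₀ δ, ∀ u ∈ ball u₀ δ, ∀ F F' : E, ‖F‖ ≤ R → ‖F'‖ ≤ R →
      |G u (par G u₁ F u) (par G u₁ F' u) - G u₁ F F'| ≤ ε * ‖u - u₁‖ := by
  have hB := isCompact_closedBall (0 : E) R
  have hK := hB.prod (hB.prod (isCompact_sphere (0 : E) 1))
  have c1 := (h.chrL_smooth hu).continuousAt
  have c3 := (h.contDiffAt hu).continuousAt_fderiv (by simp)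
  have c4 := (h.contDiffAt hu).continuousAt
  obtain ⟨δ, hδ, h1⟩ := Metric.eventually_nhds_iff_ball.1
    (hK.eventually_forall_of_forall_eventually (x₀ := (u₀, u₀)) (P := fun x y =>
      |fderiv ℝ G x.2 y.2.2 (par G x.1 y.1 x.2) (par G x.1 y.2.1 x.2) -
        G x.2 (chrL G x.1 y.2.2 y.1) (par G x.1 y.2.1 x.2) -
        G x.2 (par G x.1 y.1 x.2) (chrL G x.1 y.2.2 y.2.1)| < ε) fun y _ => by
      refine ContinuousAt.eventually_lt ?_ continuousAt_const ?_
      · simp only [par, ← chrL_apply]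
        fun_prop
      · simp [par_self_RQ, chrL_apply, h.compat hu, hε])
  obtain ⟨δ', hδ', hU⟩ := Metric.mem_nhds_iff.1 (h.opn.mem_nhds hu)
  refine ⟨min δ δ', lt_min hδ hδ', fun u₁ hu₁ u hu' F F' hF hF' => ?_⟩
  have d : ∀ F x, HasFDerivAt (par G u₁ F) (-(chrL G u₁).flip F) x := fun F x =>
    ((((chrL G u₁).flip F).hasFDerivAt.comp x
      ((hasFDerivAt_id x).sub_const u₁)).const_sub F).congr_fderiv (by simp)
  have h2 := (convex_ball u₀ (min δ δ')).norm_image_sub_le_of_norm_hasFDerivWithin_le (C := ε)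
    (fun x hx => (((h.d1_RQ (hU (ball_subset_ball (min_le_right _ _) hx))).clm_apply
      (d F x)).clm_apply (d F' x)).hasFDerivWithinAt)
    (fun x hx => ContinuousLinearMap.opNorm_le_of_unit_norm hε.le fun a ha => by
      have h3 := h1 (u₁, x) (by
        rw [← ball_prod_same]
        exact ⟨ball_subset_ball (min_le_left _ _) hu₁, ball_subset_ball (min_le_left _ _) hx⟩)
        (F, F', a) (by simpa using ⟨hF, hF', ha⟩)
      refine le_of_eq_of_le (congrArg abs ?_) h3.le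
      simp
      ring) hu₁ hu'
  simpa [par_self_RQ] using h2

end RG
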