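import Pool.Agent.P.MP_8a106a_gt.RJ
import Pool.Agent.P.MP_8a106a_gt.RQ
import Pool.Agent.P.MP_8a106a_gt.RP

/-! The second variation estimate on a short piece. -/

set_option autoImplicit false
set_option maxSynthPendingDepth 3
set_option linter.unusedSectionVars false

noncomputable section

namespace RG

open Pool.Agent.P.MP_8a106a_gt Set Filter Topology Asymptotics Metric
open scoped ContDiff

variable {E : Type} [NormedAddCommGroup E] [NormedSpace ℝ E] [FiniteDimensional ℝ E]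
  {X : Type} [MetricSpace X] {A : Atl E X}

theorem one_RS1 (hd : A.LocD dist) {i : A.ι} {x : X} (hx : x ∈ (A.e i).source)
    {l : Filter ℝ} (hl : l ≤ 𝓝[>] 0) {c : ℝ → X} {T : E}
    (hp : Tendsto (fun h : ℝ => h⁻¹ • (A.e i (c h) - A.e i x)) l (𝓝 T)) {lam : ℝ → ℝ} {b τ : ℝ}
    (hlam : HasDerivAt lam b τ) (u₁ F : E) (s : ℝ)
    (h : exc (A.G i) (A.e i x) (lam τ • par (A.G i) u₁ F (A.e i x)) s ∈ (A.e i).target) :
    Tendsto (fun h : ℝ =>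
      (dist (A.ex i (c h) (lam (τ + h) • par (A.G i) u₁ F (A.e i (c h))) s)
        (A.ex i x (lam τ • par (A.G i) u₁ F (A.e i x)) s) / h) ^ 2) l
      (𝓝 (sp (A.G i) u₁ F (A.e i x) T (lam τ) b s)) := by
  have h1 := slope_exc (A.met i) ((A.e i).map_source hx)
    (hl.trans (nhdsWithin_mono _ fun _ hy => ne_of_gt hy)) hp hlam u₁ F s
  have h2 := (hd.dir h hl h1).pow 2
  rw [(A.met i).nrm_sq h] at h2
  exact h2

theorem par_self_RS1 (G : E → E →L[ℝ] E →L[ℝ] ℝ) (u F : E) : par G u F u = F := by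
  rw [par, sub_self, ← chrL_apply, map_zero, zero_apply, sub_zero]

theorem cont_par_RS1 (G : E → E →L[ℝ] E →L[ℝ] ℝ) (u F : E) : Continuous (par G u F) := by
  have e : par G u F = fun x => F - chrL G u (x - u) F := rfl
  rw [e]
  fun_prop

/-- `slope_exc` and `LocD.dir` for each of the `2 * card K` points; `dist_vp`. -/
theorem Atl.LocD.slope_vp (hd : A.LocD dist) {i : A.ι} {x : X} (hx : x ∈ (A.e i).source)
    {l : Filter ℝ} (hl : l ≤ 𝓝[>] 0) {c : ℝ → X} {T : E}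
    (hp : Tendsto (fun h : ℝ => h⁻¹ • (A.e i (c h) - A.e i x)) l (𝓝 T)) {lam : ℝ → ℝ} {b τ : ℝ}
    (hlam : HasDerivAt lam b τ) (u₁ : E) {K : Type} [Fintype K] (F : K → E) (s : ℝ)
    (h : ∀ k, exc (A.G i) (A.e i x) (lam τ • par (A.G i) u₁ (F k) (A.e i x)) s ∈ (A.e i).target ∧
      exc (A.G i) (A.e i x) (lam τ • par (A.G i) u₁ (F k) (A.e i x)) (-s) ∈ (A.e i).target) :
    Tendsto (fun h : ℝ =>
      dist (A.vp i (c h) (fun k => lam (τ + h) • par (A.G i) u₁ (F k) (A.e i (c h))) s)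
        (A.vp i x (fun k => lam τ • par (A.G i) u₁ (F k) (A.e i x)) s) / h) l
      (𝓝 √(∑ k, (sp (A.G i) u₁ (F k) (A.e i x) T (lam τ) b s +
        sp (A.G i) u₁ (F k) (A.e i x) T (lam τ) b (-s)))) := by
  have h1 := (tendsto_finsetSum Finset.univ fun k _ =>
    (one_RS1 hd hx hl hp hlam u₁ (F k) s (h k).1).add
      (one_RS1 hd hx hl hp hlam u₁ (F k) (-s) (h k).2)).sqrt
  refine h1.congr' ?_
  filter_upwards [hl self_mem_nhdsWithin] with r hr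
  have hr' : (0 : ℝ) < r := hr
  simp only [div_pow, ← add_div, ← Finset.sum_div]
  rw [Real.sqrt_div' _ (sq_nonneg r), Real.sqrt_sq hr'.le, A.dist_vp]

/-- Take the chart given by `hB` at `c t`, `F₂ k = par G (e (c t₁)) (F₁ k) (e (c t₂))`. The vectors
`F₁ k` and all directions are bounded (`Met.bounds`), `Met.gram` with `LocD.lip` controls the Gram
matrices for all `τ ∈ [t₁, t₂]`. Apply `dini_dist` to `τ ↦ vp i (c τ) (lam τ • par ..) s` with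
`exists_dir`, `slope_vp`, `Met.sp_le` (with `ε / card K`), `hB` and `sqrt_add_le`. -/
theorem Atl.LocD.piece (hd : A.LocD dist) {c : ℝ → X} {L : ℝ} (hc : Seg c L) {K : Type}
    [Fintype K] {a : ℝ} (ha : 0 < a) (haL : a ^ 2 = 2 * Fintype.card K * L ^ 2)
    {lam lam' φ Φ : ℝ → ℝ} (hlam : ∀ t, HasDerivAt lam (lam' t) t) (hlam' : Continuous lam')
    (hΦ : ∀ t, HasDerivAt Φ (φ t) t) {M : K → K → ℝ} {η : ℝ} (hB : A.Bd M η L lam lam' φ) {ε : ℝ}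
    (hε : 0 < ε) {t : ℝ} (ht : t ∈ Icc (0 : ℝ) 1) : ∃ (i : A.ι) (δ : ℝ), 0 < δ ∧
      ∀ t₁ ∈ Icc (0 : ℝ) 1, ∀ t₂ ∈ Icc (0 : ℝ) 1, |t₁ - t| < δ → |t₂ - t| < δ → t₁ ≤ t₂ →
        c t₁ ∈ (A.e i).source ∧ c t₂ ∈ (A.e i).source ∧ ∀ F₁ : K → E,
          (∀ k l, |A.g i (c t₁) (F₁ k) (F₁ l) - M k l| + ε * (t₂ - t₁) ≤ η) → ∃ F₂ : K → E,
            (∀ k l, |A.g i (c t₂) (F₂ k) (F₂ l) - A.g i (c t₁) (F₁ k) (F₁ l)| ≤ ε * (t₂ - t₁)) ∧
            ∀ᶠ s in 𝓝 (0 : ℝ), dist (A.vp i (c t₁) (fun k => lam t₁ • F₁ k) s)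
                (A.vp i (c t₂) (fun k => lam t₂ • F₂ k) s) ≤
              (t₂ - t₁) * a + s ^ 2 * (Φ t₂ - Φ t₁ + ε * (t₂ - t₁)) / (2 * a) := by
  obtain ⟨i, hx, hBi⟩ := hB (c t)
  have hG := A.met i
  have hu₀ := (A.e i).map_source hx
  have hL : 0 ≤ L := by
    have := hc 1 (by simp) 0 (by simp)
    simp only [sub_zero, abs_one, one_mul] at this
    exact this ▸ dist_nonneg
  have hlc : Continuous lam := continuous_iff_continuousAt.2 fun t => (hlam t).continuousAt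
  obtain ⟨C, hC, hbd⟩ := hG.bounds hu₀
  obtain ⟨C', hC', hlip⟩ := hd.lip hx
  obtain ⟨R₁, hR₁⟩ := isCompact_Icc.exists_bound_of_continuousOn
    (hlc.continuousOn (s := Icc (0 : ℝ) 1))
  obtain ⟨R₂, hR₂⟩ := isCompact_Icc.exists_bound_of_continuousOn
    (hlam'.continuousOn (s := Icc (0 : ℝ) 1))
  obtain ⟨R, r1, r2, r3, r4⟩ : ∃ R : ℝ, C * √(∑ k, |M k k| + η) ≤ R ∧ C * L ≤ R ∧ R₁ ≤ R ∧ R₂ ≤ R :=
    ⟨max (max (C * √(∑ k, |M k k| + η)) (C * L)) (max R₁ R₂), by simp, by simp, by simp, by simp⟩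
  have hCL : 0 < C' * L + 1 := by positivity
  have hK : (0 : ℝ) < Fintype.card K + 1 := by positivity
  obtain ⟨δ₁, hδ₁, hgr⟩ := hG.gram hu₀ R (div_pos hε hCL)
  obtain ⟨δ₂, hδ₂, hbU, hsp⟩ := hG.sp_le hu₀ R (div_pos hε hK)
  rw [nhds_prod_eq, eventually_prod_self_iff (r := fun p q : X =>
    dist p q ≤ C' * ‖A.e i p - A.e i q‖ ∧ ‖A.e i p - A.e i q‖ ≤ C' * dist p q)] at hlip
  obtain ⟨W, hW, hlip⟩ := hlip
  have hce := (A.e i).continuousAt hx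
  have hev := (hc.continuousOn t ht).eventually
    (((A.e i).open_source.eventually_mem hx).and ((show ∀ᶠ y in 𝓝 (c t), y ∈ W from hW).and
      (hce.eventually (hBi.and (hbd.and ((show ∀ᶠ u in 𝓝 (A.e i (c t)), u ∈ ball _ δ₁ from
        ball_mem_nhds _ hδ₁).and (show ∀ᶠ u in 𝓝 (A.e i (c t)), u ∈ ball _ δ₂ from
        ball_mem_nhds _ hδ₂)))))))
  rw [eventually_nhdsWithin_iff, Metric.eventually_nhds_iff] at hev
  obtain ⟨δ, hδ, hev⟩ := hev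
  refine ⟨i, δ, hδ, fun t₁ ht₁ t₂ ht₂ d₁ d₂ h12 => ?_⟩
  have hI : ∀ τ ∈ Icc t₁ t₂, τ ∈ Icc (0 : ℝ) 1 := fun τ hτ =>
    ⟨ht₁.1.trans hτ.1, hτ.2.trans ht₂.2⟩
  have hP := fun τ (hτ : τ ∈ Icc t₁ t₂) => hev (y := τ) (by
    rw [Real.dist_eq, abs_lt]
    rw [abs_lt] at d₁ d₂
    constructor <;> linarith [hτ.1, hτ.2]) (hI τ hτ)
  have m₁ : t₁ ∈ Icc t₁ t₂ := left_mem_Icc.2 h12
  have m₂ : t₂ ∈ Icc t₁ t₂ := right_mem_Icc.2 h12
  refine ⟨(hP t₁ m₁).1, (hP t₂ m₂).1, fun F₁ hF => ?_⟩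
  have hFR : ∀ k, ‖F₁ k‖ ≤ R := fun k => by
    refine (((hP t₁ m₁).2.2.2.1 (F₁ k)).1.trans ?_).trans r1
    refine mul_le_mul_of_nonneg_left (Real.sqrt_le_sqrt ?_) hC.le
    have h1 := hF k k
    have h2 : |M k k| ≤ ∑ k, |M k k| :=
      Finset.single_le_sum (f := fun k => |M k k|) (fun _ _ => abs_nonneg _) (Finset.mem_univ k)
    have h3 := le_abs_self (A.g i (c t₁) (F₁ k) (F₁ k) - M k k)
    have h4 := le_abs_self (M k k)
    have h5 : 0 ≤ ε * (t₂ - t₁) := mul_nonneg hε.le (sub_nonneg.2 h12)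
    change A.g i (c t₁) (F₁ k) (F₁ k) ≤ _
    linarith
  have hgram : ∀ τ ∈ Icc t₁ t₂, ∀ k l,
      |A.G i (A.e i (c τ)) (par (A.G i) (A.e i (c t₁)) (F₁ k) (A.e i (c τ)))
        (par (A.G i) (A.e i (c t₁)) (F₁ l) (A.e i (c τ))) - A.g i (c t₁) (F₁ k) (F₁ l)| ≤
        ε * (τ - t₁) := fun τ hτ k l => by
    refine (hgr _ (hP t₁ m₁).2.2.2.2.1 _ (hP τ hτ).2.2.2.2.1 _ _ (hFR k) (hFR l)).trans ?_
    have h1 := (hlip _ (hP τ hτ).2.1 _ (hP t₁ m₁).2.1).2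
    have h0 : 0 ≤ τ - t₁ := sub_nonneg.2 hτ.1
    rw [hc τ (hI τ hτ) t₁ ht₁, abs_of_nonneg h0] at h1
    rw [div_mul_eq_mul_div, div_le_iff₀ hCL, mul_assoc]
    exact mul_le_mul_of_nonneg_left (by nlinarith) hε.le
  refine ⟨fun k => par (A.G i) (A.e i (c t₁)) (F₁ k) (A.e i (c t₂)), hgram t₂ m₂, ?_⟩
  filter_upwards [hsp] with s hs
  have hs' := fun τ (hτ : τ ∈ Icc t₁ t₂) k T (hT : ‖T‖ ≤ R) =>
    hs _ (hP t₁ m₁).2.2.2.2.2 _ (hP τ hτ).2.2.2.2.2 (F₁ k) T (lam τ) (lam' τ) (hFR k) hT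
      ((hR₁ τ (hI τ hτ)).trans r3) ((hR₂ τ (hI τ hτ)).trans r4)
  have hR0 : ‖(0 : E)‖ ≤ R := by
    rw [norm_zero]
    exact (mul_nonneg hC.le hL).trans r2
  have hec : ContinuousOn (fun τ => A.e i (c τ)) (Icc t₁ t₂) :=
    (A.e i).continuousOn.comp (hc.continuousOn.mono hI) fun τ hτ => (hP τ hτ).1
  have hcont : ∀ k (σ : ℝ), (∀ τ ∈ Icc t₁ t₂, exc (A.G i) (A.e i (c τ))
      (lam τ • par (A.G i) (A.e i (c t₁)) (F₁ k) (A.e i (c τ))) σ ∈ (A.e i).target) →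
      ContinuousOn (fun τ => A.ex i (c τ)
        (lam τ • par (A.G i) (A.e i (c t₁)) (F₁ k) (A.e i (c τ))) σ) (Icc t₁ t₂) := by
    intro k σ hσ
    refine (A.e i).continuousOn_symm.comp ((continuousOn_exc hG σ).comp (hec.prodMk
      (hlc.continuousOn.smul ((cont_par_RS1 _ _ _).comp_continuousOn hec))) fun τ hτ =>
        ⟨(A.e i).map_source (hP τ hτ).1, mem_univ _⟩) hσ
  have key := dini_dist (γ := fun τ => A.vp i (c τ)
      (fun k => lam τ • par (A.G i) (A.e i (c t₁)) (F₁ k) (A.e i (c τ))) s) h12 ?_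
    (B := fun τ => τ * a + s ^ 2 * (Φ τ + ε * τ) / (2 * a))
    (B' := fun τ => 1 * a + s ^ 2 * (φ τ + ε * 1) / (2 * a))
    (fun τ => ((hasDerivAt_id τ).mul_const a).add
      ((((hΦ τ).add ((hasDerivAt_id τ).const_mul ε)).const_mul (s ^ 2)).div_const (2 * a))) ?_
  · simp only [par_self_RS1] at key
    refine key.trans (le_of_eq ?_)
    ring
  · refine (PiLp.continuous_toLp 2 _).comp_continuousOn (continuousOn_pi.2 fun kb => ?_)
    refine hcont kb.1 _ fun τ hτ => ?_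
    split_ifs
    · exact (hs' τ hτ kb.1 0 hR0).1
    · exact (hs' τ hτ kb.1 0 hR0).2.1
  · intro τ hτ
    have hτ' : τ ∈ Icc t₁ t₂ := Ico_subset_Icc_self hτ
    obtain ⟨l, T, hl, hl', hT, hTT⟩ := hd.exists_dir (hP τ hτ').1 (c := fun h => c (τ + h))
      (L := L) (by
        filter_upwards [Ioo_mem_nhdsGT (sub_pos.2 hτ.2)] with h hh
        rw [hc (τ + h) (hI _ ⟨by linarith [hh.1, hτ.1], by linarith [hh.2]⟩) τ (hI τ hτ'),
          add_sub_cancel_left, abs_of_pos hh.1])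
    have hTR : ‖T‖ ≤ R := by
      refine (((hP τ hτ').2.2.2.1 T).1.trans (le_of_eq ?_)).trans r2
      change C * √(A.g i (c τ) T T) = _
      rw [hTT, Real.sqrt_sq hL]
    refine ⟨l, _, hl, hl', ?_, hd.slope_vp (hP τ hτ').1 hl' hT (hlam τ) (A.e i (c t₁)) F₁ s
      fun k => ⟨(hs' τ hτ' k T hTR).1, (hs' τ hτ' k T hTR).2.1⟩⟩
    have h1 := (hP τ hτ').2.2.1 τ (hI τ hτ')
      (fun k => par (A.G i) (A.e i (c t₁)) (F₁ k) (A.e i (c τ))) T (fun k l => by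
        have e1 := hgram τ hτ' k l
        have e2 := hF k l
        have e3 : ε * (τ - t₁) ≤ ε * (t₂ - t₁) :=
          mul_le_mul_of_nonneg_left (by linarith [hτ.2]) hε.le
        exact (abs_sub_le _ (A.g i (c t₁) (F₁ k) (F₁ l)) _).trans (by linarith)) hTT
    have h2 := Finset.sum_le_sum fun k (_ : k ∈ Finset.univ) => (hs' τ hτ' k T hTR).2.2
    have h3 : 0 ≤ ∑ k, (sp (A.G i) (A.e i (c t₁)) (F₁ k) (A.e i (c τ)) T (lam τ) (lam' τ) s +
        sp (A.G i) (A.e i (c t₁)) (F₁ k) (A.e i (c τ)) T (lam τ) (lam' τ) (-s)) :=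
      Finset.sum_nonneg fun k _ => add_nonneg (hG.nonneg (hs' τ hτ' k T hTR).1 _)
        (hG.nonneg (hs' τ hτ' k T hTR).2.1 _)
    have hTT' : A.G i (A.e i (c τ)) T T = L ^ 2 := hTT
    rw [Finset.sum_add_distrib (f := fun _ => 2 * A.G i (A.e i (c τ)) T T), ← Finset.mul_sum,
      ← Finset.mul_sum, Finset.sum_add_distrib (g := fun _ => ε / (Fintype.card K + 1)),
      Finset.sum_const, Finset.sum_const, Finset.card_univ, nsmul_eq_mul, nsmul_eq_mul, hTT'] at h2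
    have h4 : Fintype.card K * (ε / (Fintype.card K + 1)) ≤ ε := by
      rw [mul_div_assoc', div_le_iff₀ hK]
      nlinarith
    have h5 := h2.trans (show _ ≤ a ^ 2 + s ^ 2 * (φ τ + ε * 1) from
      add_le_add (le_of_eq (by rw [haL]; ring))
        (mul_le_mul_of_nonneg_left (by linarith) (sq_nonneg s)))
    rw [one_mul]
    exact (Real.sqrt_le_sqrt h5).trans (sqrt_add_le ha (h3.trans h5))

end RG
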