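import Pool.Agent.P.MP_8a106a_gt.RS1

/-! The second variation estimate and its two applications. -/

set_option autoImplicit false
set_option maxSynthPendingDepth 3
set_option linter.unusedSectionVars false

noncomputable section

namespace RG

open Pool.Agent.P.MP_8a106a_gt Set Filter Topology Asymptotics Metric
open scoped ContDiff

variable {E : Type} [NormedAddCommGroup E] [NormedSpace ℝ E] [FiniteDimensional ℝ E]
  {X : Type} [MetricSpace X] {A : Atl E X}

/-- With `ε' = min (ε / 2) η` use `icc_induct` for the statement `P τ`: there are `j`, `F` with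
`c τ` in the chart `j`, Gram matrix `ε' * τ`-close to the initial one, and for all `ε'' > 0`
eventually `dist ≤ τ * a + s ^ 2 * (Φ τ - Φ 0 + ε' * τ + ε'') / (2 * a)`. In the step change the
chart by `g_tr`, `vp_tr` and apply `piece`. -/
theorem Atl.LocD.sv (hd : A.LocD dist) {c : ℝ → X} {L : ℝ} (hc : Seg c L) {K : Type}
    [Fintype K] {a : ℝ} (ha : 0 < a) (haL : a ^ 2 = 2 * Fintype.card K * L ^ 2)
    {lam lam' φ Φ : ℝ → ℝ} (hlam : ∀ t, HasDerivAt lam (lam' t) t) (hlam' : Continuous lam')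
    (hΦ : ∀ t, HasDerivAt Φ (φ t) t) {i : A.ι} (hi : c 0 ∈ (A.e i).source) (F : K → E) {η : ℝ}
    (hη : 0 < η) (hB : A.Bd (fun k l => A.g i (c 0) (F k) (F l)) η L lam lam' φ) (h1 : lam 1 = 0)
    {ε : ℝ} (hε : 0 < ε) : ∀ᶠ s in 𝓝 (0 : ℝ),
      √(∑ k, (dist (A.ex i (c 0) (lam 0 • F k) s) (c 1) ^ 2 +
        dist (A.ex i (c 0) (lam 0 • F k) (-s)) (c 1) ^ 2)) ≤
      a + s ^ 2 * (Φ 1 - Φ 0 + ε) / (2 * a) := by
  have hε' : 0 < min (ε / 2) η := lt_min (half_pos hε) hη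
  obtain ⟨j, F', hj, -, H⟩ := icc_induct (P := fun τ => ∃ (j : A.ι) (F' : K → E),
      c τ ∈ (A.e j).source ∧
      (∀ k l, |A.g j (c τ) (F' k) (F' l) - A.g i (c 0) (F k) (F l)| ≤ min (ε / 2) η * τ) ∧
      ∀ ε'' : ℝ, 0 < ε'' → ∀ᶠ s in 𝓝 (0 : ℝ),
        dist (A.vp i (c 0) (fun k => lam 0 • F k) s) (A.vp j (c τ) (fun k => lam τ • F' k) s) ≤
          τ * a + s ^ 2 * (Φ τ - Φ 0 + min (ε / 2) η * τ + ε'') / (2 * a))
    ⟨i, F, hi, fun k l => by simp, fun ε'' h => Eventually.of_forall fun s => by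
      simp only [dist_self, zero_mul, sub_self, mul_zero, zero_add]
      positivity⟩
    fun t ht => by
      obtain ⟨i', δ, hδ, H⟩ := hd.piece hc ha haL hlam hlam' hΦ hB hε' ht
      refine ⟨δ, hδ, fun t₁ h₁ t₂ h₂ d₁ d₂ h12 ⟨j, F', hj, hG, hD⟩ => ?_⟩
      obtain ⟨m₁, m₂, H⟩ := H t₁ h₁ t₂ h₂ d₁ d₂ h12
      obtain ⟨F₂, hG₂, hD₂⟩ := H (fun k => A.tr j i' (c t₁) (F' k)) fun k l => by
        rw [Atl.g_tr hj m₁]
        have h3 := hG k l
        have h4 := mul_le_mul_of_nonneg_left h₂.2 hε'.le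
        have h5 := min_le_right (ε / 2) η
        linarith
      refine ⟨i', F₂, m₂, fun k l => ?_, fun ε'' h => ?_⟩
      · have h3 := hG k l
        have h4 := hG₂ k l
        rw [Atl.g_tr hj m₁] at h4
        have h5 := abs_sub_le (A.g i' (c t₂) (F₂ k) (F₂ l)) (A.g j (c t₁) (F' k) (F' l))
          (A.g i (c 0) (F k) (F l))
        linarith
      · have h3 := (hd.vp_tr hj m₁ fun k => lam t₁ • F' k).bound
          (c := ε'' / 2 / (2 * a)) (by positivity)
        filter_upwards [hD (ε'' / 2) (half_pos h), hD₂, h3] with s e1 e2 e3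
        simp only [map_smul] at e3
        rw [Real.norm_of_nonneg dist_nonneg, Real.norm_of_nonneg (sq_nonneg s)] at e3
        refine (dist_triangle4 _ _ _ _).trans ((add_le_add (add_le_add e1 e3) e2).trans_eq ?_)
        ring
  filter_upwards [H (ε / 2) (half_pos hε)] with s hs
  rw [A.dist_vp] at hs
  simp only [h1, zero_smul, Atl.ex_zero hj] at hs
  refine hs.trans ?_
  have h5 := min_le_left (ε / 2) η
  rw [one_mul, mul_one]
  gcongr a + s ^ 2 * ?_ / (2 * a)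
  linarith

/-- For `x = y` use `dist_ex`. Otherwise `sv` with `K = Unit`, `lam τ = 1 - τ`,
`φ τ = 2 * (g V V + η)`, and square. -/
theorem Atl.Ok.t_zero {κ : ℝ} (h : A.Ok κ) {i : A.ι} {x : X} (hx : x ∈ (A.e i).source) (y : X)
    (V : E) {ε : ℝ} (hε : 0 < ε) : ∀ᶠ s in 𝓝 (0 : ℝ),
      dist y (A.ex i x V s) ^ 2 + dist y (A.ex i x V (-s)) ^ 2 ≤
        2 * dist y x ^ 2 + s ^ 2 * (2 * A.g i x V V + ε) := by
  by_cases hxy : x = y
  · subst hxy
    have h1 := h.locd.dist_ex hx V (half_pos hε)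
    have h2 := (continuous_neg.tendsto' (0 : ℝ) 0 neg_zero).eventually h1
    filter_upwards [h1, h2] with s e1 e2
    rw [dist_comm] at e1 e2
    rw [neg_sq] at e2
    rw [dist_self]
    linarith
  have hL : 0 < dist x y := dist_pos.2 hxy
  obtain ⟨c, rfl, rfl, hc⟩ := h.seg x y
  have ha : 0 < √2 * dist (c 0) (c 1) := by positivity
  have ha2 : (√2 * dist (c 0) (c 1)) ^ 2 = 2 * dist (c 0) (c 1) ^ 2 := by
    rw [mul_pow, Real.sq_sqrt zero_le_two]
  have h1 := h.locd.sv hc (K := Unit) ha (by simp [ha2]) (lam := fun τ => 1 - τ)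
    (lam' := fun _ => -1) (φ := fun _ => 2 * (A.g i (c 0) V V + ε / 8))
    (Φ := fun τ => τ * (2 * (A.g i (c 0) V V + ε / 8)))
    (fun t => (hasDerivAt_id' t).const_sub 1) continuous_const
    (fun t => by simpa using (hasDerivAt_id' t).mul_const (2 * (A.g i (c 0) V V + ε / 8))) hx
    (fun _ => V) (η := ε / 8) (by positivity)
    (fun z => by
      obtain ⟨j, hj, hu⟩ := h.curv z
      refine ⟨j, hj, hu.mono fun u hu τ _ F T hF _ => ?_⟩
      have e1 := (abs_le.1 (hF () ())).2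
      have e2 := mul_nonneg (sq_nonneg (1 - τ)) (hu.1 T (F ()))
      rw [Fintype.sum_unique]
      change 2 * (-1) ^ 2 * A.G j u (F ()) (F ()) - 2 * (1 - τ) ^ 2 * Rm (A.G j) u T (F ()) ≤ _
      linarith)
    (sub_self 1) (ε := ε / 4) (by positivity)
  generalize √2 * dist (c 0) (c 1) = a at ha ha2 h1
  have h2 : ∀ᶠ s in 𝓝 (0 : ℝ), s ^ 2 * ((2 * A.g i (c 0) V V + ε / 2) / (2 * a)) ^ 2 < ε / 2 :=
    (Continuous.tendsto' (by fun_prop) 0 0 (by simp)).eventually (gt_mem_nhds (half_pos hε))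
  filter_upwards [h1, h2] with s e1 e2
  have e3 := (Real.sqrt_le_iff.1 e1).2
  simp only [Fintype.sum_unique, sub_zero, one_smul, one_mul, zero_mul] at e3
  rw [dist_comm (c 1), dist_comm (c 1), dist_comm (c 1), ← ha2]
  refine e3.trans ?_
  have e4 := mul_le_mul_of_nonneg_left e2.le (sq_nonneg s)
  have e5 : (a + s ^ 2 * (2 * (A.g i (c 0) V V + ε / 8) + ε / 4) / (2 * a)) ^ 2 =
      a ^ 2 + s ^ 2 * (2 * A.g i (c 0) V V + ε / 2) +
        s ^ 2 * (s ^ 2 * ((2 * A.g i (c 0) V V + ε / 2) / (2 * a)) ^ 2) := by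
    field_simp
    ring
  rw [e5]
  linarith

/-- `sv` with `K = Fin 2`, an orthonormal pair (`Met.normal`), `η = 1 / 10`, `lam τ = τ * (1 - τ)`,
`φ τ = 22 / 5 * (1 - 2 * τ) ^ 2 - 9 / 5 * κ * L ^ 2 * (τ * (1 - τ)) ^ 2` (`Met.angle`). The left
side equals `a = 2 * L`, so `0 ≤ Φ 1 - Φ 0 = 22 / 15 - 3 / 50 * κ * L ^ 2`. -/
theorem Atl.Ok.myers {κ : ℝ} (h : A.Ok κ) (hκ : 0 < κ) (hn : 2 ≤ Module.finrank ℝ E) (x y : X) :
    κ * dist x y ^ 2 ≤ 25 := by
  by_cases hxy : x = y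
  · simp [hxy]
  have hL : 0 < dist x y := dist_pos.2 hxy
  obtain ⟨c, rfl, rfl, hc⟩ := h.seg x y
  obtain ⟨i, hi⟩ := A.cov (c 0)
  obtain ⟨N, hN⟩ := (A.met i).normal ((A.e i).map_source hi) rfl
  let F : Fin 2 → E := fun k => N.symm (EuclideanSpace.single (Fin.castLE hn k) 1)
  have hF : ∀ k l, A.g i (c 0) (F k) (F l) = if k = l then 1 else 0 := fun k l => by
    refine (hN _ _).symm.trans ?_
    simp [F, EuclideanSpace.inner_single_left, PiLp.single_apply]
  generalize hLd : dist (c 0) (c 1) = L at hL hc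
  have h1 := h.locd.sv hc (K := Fin 2) (a := 2 * L) (by positivity) (by simp; ring)
    (lam := fun τ => τ * (1 - τ)) (lam' := fun τ => 1 - 2 * τ)
    (φ := fun τ => 22 / 5 * (1 - 2 * τ) ^ 2 - 9 / 5 * κ * L ^ 2 * (τ * (1 - τ)) ^ 2)
    (Φ := fun τ => 22 / 5 * (τ - 2 * τ ^ 2 + 4 / 3 * τ ^ 3) -
      9 / 5 * κ * L ^ 2 * (1 / 3 * τ ^ 3 - 1 / 2 * τ ^ 4 + 1 / 5 * τ ^ 5))
    (fun t => ((hasDerivAt_id' t).mul ((hasDerivAt_id' t).const_sub 1)).congr_deriv (by ring))
    (by fun_prop)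
    (fun t => (((((hasDerivAt_id' t).sub ((hasDerivAt_pow 2 t).const_mul 2)).add
      ((hasDerivAt_pow 3 t).const_mul (4 / 3))).const_mul (22 / 5)).sub
      (((((hasDerivAt_pow 3 t).const_mul (1 / 3)).sub ((hasDerivAt_pow 4 t).const_mul (1 / 2))).add
        ((hasDerivAt_pow 5 t).const_mul (1 / 5))).const_mul (9 / 5 * κ * L ^ 2))).congr_deriv
          (by norm_num; ring))
    hi F (η := 1 / 10) (by norm_num)
    (fun z => by
      obtain ⟨j, hj, hu⟩ := h.curv z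
      refine ⟨j, hj, ?_⟩
      filter_upwards [hu, (A.e j).open_target.mem_nhds ((A.e j).map_source hj)]
        with u hu hu' τ _ F' T hF' hT
      have e0 := hF' 0 0
      have e1 := hF' 1 1
      have e01 := hF' 0 1
      simp only [hF, if_true, zero_ne_one, if_false, sub_zero] at e0 e1 e01
      have b0 := abs_le.1 e0
      have b1 := abs_le.1 e1
      have r0 := hu.1 T (F' 0)
      have r1 := hu.1 T (F' 1)
      have hκL : 0 ≤ κ * L ^ 2 := by positivity
      have key : 9 / 10 * (κ * L ^ 2) ≤ Rm (A.G j) u T (F' 0) + Rm (A.G j) u T (F' 1) := by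
        rcases (A.met j).angle hu' T e0 e1 e01 with h3 | h3
        · have h4 := hu.2 _ _ h3
          rw [hT] at h4
          nlinarith [mul_le_mul_of_nonneg_left b0.1 hκL]
        · have h4 := hu.2 _ _ h3
          rw [hT] at h4
          nlinarith [mul_le_mul_of_nonneg_left b1.1 hκL]
      rw [Fin.sum_univ_two]
      nlinarith [mul_le_mul_of_nonneg_left key (sq_nonneg (τ * (1 - τ))),
        mul_le_mul_of_nonneg_left b0.2 (sq_nonneg (1 - 2 * τ)),
        mul_le_mul_of_nonneg_left b1.2 (sq_nonneg (1 - 2 * τ))])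
    (by simp) (ε := 1 / 30) (by norm_num)
  obtain ⟨s, e1, hs⟩ := ((h1.filter_mono nhdsWithin_le_nhds).and
    (self_mem_nhdsWithin (s := {0}ᶜ) (a := (0 : ℝ)))).exists
  have hs2 : 0 < s ^ 2 := sq_pos_iff.2 hs
  simp only [zero_mul, zero_smul, Atl.ex_zero hi, hLd, Fin.sum_univ_two] at e1
  rw [show L ^ 2 + L ^ 2 + (L ^ 2 + L ^ 2) = (2 * L) ^ 2 by ring, Real.sqrt_sq (by positivity),
    le_add_iff_nonneg_right, le_div_iff₀ (by positivity), zero_mul,
    mul_nonneg_iff_of_pos_left hs2] at e1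
  nlinarith

end RG
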