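import Pool.Agent.P.MP_8a106a_gt.RA
import Pool.Agent.P.MP_8a106a_gt.RU

/-! The transformation law of the Christoffel symbols. -/

set_option autoImplicit false
set_option maxSynthPendingDepth 3
set_option linter.unusedSectionVars false

noncomputable section

namespace RG

open Pool.Agent.P.MP_8a106a_gt Set Filter Topology Asymptotics Metric
open scoped ContDiff

variable {E : Type} [NormedAddCommGroup E] [NormedSpace ℝ E] [FiniteDimensional ℝ E]
  {G : E → E →L[ℝ] E →L[ℝ] ℝ} {U : Set E}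

/-- Put `Δ v w = D²φ v w + chr G' (Dφ v) (Dφ w) - Dφ (chr G v w)`. Differentiating `iso` and using
`compat` shows that `G' (Δ a v) (Dφ w)` is antisymmetric in `v, w`; it is symmetric in `a, v`
(`ContDiffAt.isSymmSndFDerivAt`), hence zero. `Dφ` is injective, hence surjective. -/
theorem chr_trans {G' : E → E →L[ℝ] E →L[ℝ] ℝ} {U' : Set E} (h : Met G U) (h' : Met G' U')
    {φ : E → E} {u : E} (hu : u ∈ U) (hu' : φ u ∈ U') (hφ : ContDiffAt ℝ ∞ φ u)
    (iso : ∀ᶠ x in 𝓝 u, ∀ v w, G' (φ x) (fderiv ℝ φ x v) (fderiv ℝ φ x w) = G x v w) (v w : E) :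
    fderiv ℝ φ u (chr G u v w) =
      fderiv ℝ (fderiv ℝ φ) u v w + chr G' (φ u) (fderiv ℝ φ u v) (fderiv ℝ φ u w) := by
  have hD : HasFDerivAt (fderiv ℝ φ) (fderiv ℝ (fderiv ℝ φ) u) u :=
    ((hφ.fderiv_right (m := 1) (by decide)).differentiableAt (by decide)).hasFDerivAt
  have hφ' : HasFDerivAt φ (fderiv ℝ φ u) u := (hφ.differentiableAt (by decide)).hasFDerivAt
  have hG' : HasFDerivAt G' (fderiv ℝ G' (φ u)) (φ u) :=
    ((h'.contDiffAt hu').differentiableAt (by decide)).hasFDerivAt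
  have hG : HasFDerivAt G (fderiv ℝ G u) u :=
    ((h.contDiffAt hu).differentiableAt (by decide)).hasFDerivAt
  have hs : ∀ a b, fderiv ℝ (fderiv ℝ φ) u a b = fderiv ℝ (fderiv ℝ φ) u b a := fun a b =>
    (hφ.isSymmSndFDerivAt (by simp; decide)).eq a b
  have i0 := iso.self_of_nhds
  have key : ∀ a b c, fderiv ℝ G u a b c =
      fderiv ℝ G' (φ u) (fderiv ℝ φ u a) (fderiv ℝ φ u b) (fderiv ℝ φ u c) +
        G' (φ u) (fderiv ℝ (fderiv ℝ φ) u a b) (fderiv ℝ φ u c) +
        G' (φ u) (fderiv ℝ φ u b) (fderiv ℝ (fderiv ℝ φ) u a c) := by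
    intro a b c
    have e1 := ((hG'.comp u hφ').clm_apply (hD.clm_apply (hasFDerivAt_const b u))).clm_apply
      (hD.clm_apply (hasFDerivAt_const c u))
    have e2 := (hG.clm_apply (hasFDerivAt_const b u)).clm_apply (hasFDerivAt_const c u)
    have e3 := e1.unique (e2.congr_of_eventuallyEq (iso.mono fun x hx => hx b c))
    have e4 := congrArg (fun L => L a) e3
    simp at e4
    linarith
  have inj : Function.Injective (fderiv ℝ φ u : E →ₗ[ℝ] E) := by
    rw [injective_iff_map_eq_zero]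
    intro x hx
    by_contra h0
    have h1 := h.pos u hu x h0
    have hx' : fderiv ℝ φ u x = 0 := hx
    rw [← i0, hx'] at h1
    simp at h1
  have sur := LinearMap.injective_iff_surjective.1 inj
  refine h'.ext hu' fun z => ?_
  obtain ⟨y, rfl⟩ := sur z
  show G' (φ u) _ (fderiv ℝ φ u y) = G' (φ u) _ (fderiv ℝ φ u y)
  rw [i0, h.chr_eq hu, key, key, key, map_add, add_apply, h'.chr_eq hu',
    hs w v, hs y v, hs y w, h'.symm _ hu' (fderiv ℝ φ u w) (fderiv ℝ (fderiv ℝ φ) u v y)]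
  ring

/-- `peano` for `s ↦ φ (exc G u V s)` and `chr_trans`. -/
theorem exc_trans {G' : E → E →L[ℝ] E →L[ℝ] ℝ} {U' : Set E} (h : Met G U) (h' : Met G' U')
    {φ : E → E} {u : E} (hu : u ∈ U) (hu' : φ u ∈ U') (hφ : ContDiffAt ℝ ∞ φ u)
    (iso : ∀ᶠ x in 𝓝 u, ∀ v w, G' (φ x) (fderiv ℝ φ x v) (fderiv ℝ φ x w) = G x v w) (V : E) :
    (fun s => φ (exc G u V s) - exc G' (φ u) (fderiv ℝ φ u V) s) =o[𝓝 0] fun s : ℝ => s ^ 2 := by
  have hD : HasFDerivAt (fderiv ℝ φ) (fderiv ℝ (fderiv ℝ φ) u) u :=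
    ((hφ.fderiv_right (m := 1) (by decide)).differentiableAt (by decide)).hasFDerivAt
  have hc : ∀ s, HasDerivAt (exc G u V) (V - s • chr G u V V) s := by
    intro s
    have e1 := (((hasDerivAt_id s).smul_const V).const_add u).sub
      (((hasDerivAt_pow 2 s).div_const 2).smul_const (chr G u V V))
    refine e1.congr_deriv ?_
    simp
  have c0 : exc G u V 0 = u := by simp [exc]
  have hd : ∀ᶠ x in 𝓝 u, DifferentiableAt ℝ φ x :=
    ((hφ.of_le (m := 1) (by decide)).eventually (by decide)).mono fun x hx =>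
      hx.differentiableAt (by decide)
  have ht : Tendsto (exc G u V) (𝓝 0) (𝓝 u) := by
    have := (hc 0).continuousAt
    rwa [ContinuousAt, c0] at this
  have h1 : ∀ᶠ s in 𝓝 (0 : ℝ), HasDerivAt (fun s => φ (exc G u V s))
      (fderiv ℝ φ (exc G u V s) (V - s • chr G u V V)) s :=
    (ht.eventually hd).mono fun s hs => hs.hasFDerivAt.comp_hasDerivAt s (hc s)
  have h2 : HasDerivAt (fun s => fderiv ℝ φ (exc G u V s) (V - s • chr G u V V))
      (-chr G' (φ u) (fderiv ℝ φ u V) (fderiv ℝ φ u V)) 0 := by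
    have hD' : HasFDerivAt (fderiv ℝ φ) (fderiv ℝ (fderiv ℝ φ) u) (exc G u V 0) := by
      rwa [c0]
    have e1 := (hD'.comp_hasDerivAt 0 (hc 0)).clm_apply
      (((hasDerivAt_id (0 : ℝ)).smul_const (chr G u V V)).const_sub V)
    refine e1.congr_deriv ?_
    simp [c0, chr_trans h h' hu hu' hφ iso]
  refine (peano h1 h2).congr_left fun s => ?_
  simp [exc, sub_eq_add_neg]

/-- `slope_comp` for ` (t, x) ↦ exc G x (lam t • par G u₁ F x) s` (use `chrL`). -/
theorem slope_exc (h : Met G U) {u₀ T : E} (hu : u₀ ∈ U) {l : Filter ℝ} (hl : l ≤ 𝓝[≠] 0)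
    {u : ℝ → E} (hp : Tendsto (fun h : ℝ => h⁻¹ • (u h - u₀)) l (𝓝 T)) {lam : ℝ → ℝ} {b τ : ℝ}
    (hlam : HasDerivAt lam b τ) (u₁ F : E) (s : ℝ) :
    Tendsto (fun h : ℝ => h⁻¹ • (exc G (u h) (lam (τ + h) • par G u₁ F (u h)) s -
        exc G u₀ (lam τ • par G u₁ F u₀) s)) l
      (𝓝 (T + s • ww G u₁ F u₀ T (lam τ) b -
        (s ^ 2 / 2) • nn G u₀ (lam τ • par G u₁ F u₀) T (ww G u₁ F u₀ T (lam τ) b))) := by
  have hL : HasFDerivAt (chrL G) (fderiv ℝ (chrL G) u₀) u₀ :=
    ((h.chrL_smooth hu).differentiableAt (by decide)).hasFDerivAt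
  have h2 : HasFDerivAt (fun p : ℝ × E => p.2) (ContinuousLinearMap.snd ℝ ℝ E) (τ, u₀) :=
    hasFDerivAt_snd
  have h1 : HasFDerivAt (fun p : ℝ × E => p.1) (ContinuousLinearMap.fst ℝ ℝ E) (τ, u₀) :=
    hasFDerivAt_fst
  have h3 := HasDerivAt.comp_hasFDerivAt (f := fun p : ℝ × E => p.1) (τ, u₀) hlam h1
  have h4 := ((((chrL G u₁).hasFDerivAt.comp (τ, u₀) (h2.sub_const u₁)).clm_apply
    (hasFDerivAt_const F (τ, u₀))).const_sub F)
  obtain ⟨W, h5, hW⟩ : ∃ W : ℝ × E →L[ℝ] E,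
      HasFDerivAt (fun p : ℝ × E => lam p.1 • par G u₁ F p.2) W (τ, u₀) ∧
        W (1, T) = ww G u₁ F u₀ T (lam τ) b := by
    refine ⟨_, h3.smul h4, ?_⟩
    simp [ww, par, chrL_apply]
    abel
  have h6 := HasFDerivAt.comp (f := fun p : ℝ × E => p.2) (τ, u₀) hL h2
  have h7 := (h2.add (h5.const_smul s)).sub
    (((h6.clm_apply h5).clm_apply h5).const_smul (s ^ 2 / 2))
  have h8 : Tendsto (fun h : ℝ => h⁻¹ • ((τ + h, u h) - (τ, u₀))) l (𝓝 ((1 : ℝ), T)) := by
    refine Tendsto.prodMk_nhds (tendsto_const_nhds.congr' ?_) hp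
    filter_upwards [hl self_mem_nhdsWithin] with x hx
    have hx' : x ≠ 0 := hx
    simp [hx']
  have h9 := slope_comp h7 hl h8
  convert h9 using 2
  · rfl
  · simp only [nn, h.fderiv_chr hu]
    generalize lam τ • par G u₁ F u₀ = V
    simp [hW, chrL_apply, h.chr_symm hu V, two_smul]
    abel

theorem continuousOn_exc (h : Met G U) (s : ℝ) :
    ContinuousOn (fun p : E × E => exc G p.1 p.2 s) (U ×ˢ univ) := by
  have hL : ContinuousOn (fun p : E × E => chrL G p.1) (U ×ˢ univ) := fun p hp =>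
    (ContinuousAt.comp (f := fun p : E × E => p.1) (h.chrL_smooth hp.1).continuousAt
      continuousAt_fst).continuousWithinAt
  exact (continuousOn_fst.add (continuousOn_snd.const_smul s)).sub
    (((hL.clm_apply continuousOn_snd).clm_apply continuousOn_snd).const_smul (s ^ 2 / 2))

theorem normal_RT {V : Type} [AddCommGroup V] [Module ℝ V] [FiniteDimensional ℝ V]
    (c : InnerProductSpace.Core ℝ V) {n : ℕ} (hn : Module.finrank ℝ V = n) :
    ∃ L : V ≃ₗ[ℝ] Euc n, ∀ v w, inner ℝ (L v) (L w) = c.inner v w := by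
  let _ : NormedAddCommGroup V := c.toNormedAddCommGroup
  let _ : InnerProductSpace ℝ V := InnerProductSpace.ofCore c.toCore
  subst hn
  exact ⟨(stdOrthonormalBasis ℝ V).repr.toLinearEquiv, fun v w =>
    (stdOrthonormalBasis ℝ V).repr.inner_map_map v w⟩

/-- A basis that is orthonormal for `G u` (e.g. `InnerProductSpace.ofCore` on a type synonym,
`LinearMap.BilinForm` orthogonal bases, or the square root of a matrix). -/
theorem Met.normal (h : Met G U) {u : E} (hu : u ∈ U) {n : ℕ} (hn : Module.finrank ℝ E = n) :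
    ∃ L : E ≃L[ℝ] Euc n, ∀ v w, inner ℝ (L v) (L w) = G u v w := by
  obtain ⟨L, hL⟩ := normal_RT (V := E)
    { inner := fun v w => G u v w
      conj_inner_symm := fun x y => h.symm u hu y x
      re_inner_nonneg := fun x => h.nonneg hu x
      add_left := fun x y z => by simp
      smul_left := fun x y r => by simp
      definite := fun x hx => by
        by_contra h0
        exact (h.pos u hu x h0).ne' hx } hn
  exact ⟨L.toContinuousLinearEquiv, hL⟩

end RG
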